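import Pool.Agent.CKT.Perm

/-! # Spaces of the class `G` have bump functions -/

set_option autoImplicit false

open Set Filter Topology

namespace Pool.Agent.CKT

universe u v

theorem G.compact {K : Type u} {t : TopologicalSpace K} (h : G K t) : CompactSpace K := by
  induction h with
  | rule K t hc h2 F hF hG ih => exact hc
  | image K K' t t' h2 p hp hs h ih =>
    have := ih
    exact hs.compactSpace hp

theorem G.t2 {K : Type u} {t : TopologicalSpace K} (h : G K t) : T2Space K := by
  cases h with
  | rule K t hc h2 F hF hG => exact h2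
  | image K K' t t' h2 p hp hs h => exact h2

theorem G.bumps {K : Type u} {t : TopologicalSpace K} (h : G K t) :
    @HasBumps K t h.compact := by
  induction h with
  | rule K t hc h2 F hF hG ih => exact perm K F hF (fun x => ih x)
  | image K K' t t' h2 p hp hs h ih =>
    have hcK : CompactSpace K := h.compact
    have hcK' : CompactSpace K' := hs.compactSpace hp
    intro r R hr hrR
    obtain ⟨b, hb1, hb2, hb3, hb4, hb5⟩ := ih r R hr hrR
    let P : C(K', ℝ) →L[ℝ] C(K, ℝ) :=
      { toFun := fun f => f.comp ⟨p, hp⟩
        map_add' := fun f g => rfl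
        map_smul' := fun c f => rfl
        cont := ContinuousMap.continuous_precomp _ }
    have hP : ∀ (f : C(K', ℝ)) (x : K), P f x = f (p x) := fun f x => rfl
    have hnorm : ∀ f : C(K', ℝ), ‖P f‖ = ‖f‖ := by
      intro f
      rw [ContinuousMap.norm_eq_iSup_norm, ContinuousMap.norm_eq_iSup_norm]
      exact hs.iSup_comp (fun y => ‖f y‖)
    refine ⟨fun f => b (P f), hb1.comp P.contDiff, fun f => ?_, fun f => hb3 (P f),
      fun f hf => hb4 (P f) (by rw [hnorm]; exact hf),
      fun f hf => hb5 (P f) (by rw [hnorm]; exact hf)⟩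
    obtain ⟨U, hU, E, hE, hEU⟩ := hb2 (P f)
    refine ⟨P ⁻¹' U, P.continuous.continuousAt.preimage_mem_nhds hU, p '' E, hE.image p,
      fun g hg h' hh' hz => ?_⟩
    refine hEU (P g) hg (P h') hh' fun z hz' => ?_
    rw [hP, hP]
    exact hz (p z) (mem_image_of_mem p hz')

end Pool.Agent.CKT
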