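import Pool.Agent.CKT.Defs

/-!
# Smooth bump functions on C(K): the permanence theorem
-/

set_option autoImplicit false

open Set Filter Topology

namespace Pool.Agent.CKT

universe u v

section nice

variable {K : Type u} [TopologicalSpace K] [CompactSpace K]

/-- `b` is smooth at `f` and depends locally on finitely many coordinates at `f`. -/
def Nice (b : C(K, ℝ) → ℝ) (f : C(K, ℝ)) : Prop := ContDiffAt ℝ (⊤ : ℕ∞) b f ∧ Loc b f

theorem Loc.congr {b c : C(K, ℝ) → ℝ} {f : C(K, ℝ)} (h : Loc c f) (hbc : b =ᶠ[𝓝 f] c) :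
    Loc b f := by
  obtain ⟨U, hU, E, hE, hl⟩ := h
  refine ⟨U ∩ {g | b g = c g}, inter_mem hU hbc, E, hE, ?_⟩
  intro g hg g' hg' hz
  have h1 : b g = c g := hg.2
  have h2 : b g' = c g' := hg'.2
  rw [h1, h2]
  exact hl g hg.1 g' hg'.1 hz

theorem Nice.congr {b c : C(K, ℝ) → ℝ} {f : C(K, ℝ)} (h : Nice c f) (hbc : b =ᶠ[𝓝 f] c) :
    Nice b f := ⟨h.1.congr_of_eventuallyEq hbc, h.2.congr hbc⟩

theorem nice_const (a : ℝ) (f : C(K, ℝ)) : Nice (fun _ => a) f :=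
  ⟨contDiffAt_const, univ, univ_mem, ∅, finite_empty, fun _ _ _ _ _ => rfl⟩

theorem Nice.mul {b c : C(K, ℝ) → ℝ} {f : C(K, ℝ)} (hb : Nice b f) (hc : Nice c f) :
    Nice (fun g => b g * c g) f := by
  refine ⟨hb.1.mul hc.1, ?_⟩
  obtain ⟨U, hU, E, hE, hl⟩ := hb.2
  obtain ⟨U', hU', E', hE', hl'⟩ := hc.2
  refine ⟨U ∩ U', inter_mem hU hU', E ∪ E', hE.union hE', ?_⟩
  intro g hg g' hg' hz
  show b g * c g = b g' * c g'
  rw [hl g hg.1 g' hg'.1 fun z hz' => hz z (Or.inl hz'),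
    hl' g hg.2 g' hg'.2 fun z hz' => hz z (Or.inr hz')]

theorem nice_prod {ι : Type v} (T : Finset ι) (b : ι → C(K, ℝ) → ℝ) (f : C(K, ℝ))
    (h : ∀ i ∈ T, Nice (b i) f) : Nice (fun g => ∏ i ∈ T, b i g) f := by
  classical
  induction T using Finset.induction_on with
  | empty => simpa using nice_const 1 f
  | insert a T ha ih =>
    simp only [Finset.prod_insert ha]
    exact (h a (Finset.mem_insert_self a T)).mul
      (ih fun i hi => h i (Finset.mem_insert_of_mem hi))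

theorem Nice.one_sub {b : C(K, ℝ) → ℝ} {f : C(K, ℝ)} (hb : Nice b f) :
    Nice (fun g => 1 - b g) f := by
  refine ⟨contDiffAt_const.sub hb.1, ?_⟩
  obtain ⟨U, hU, E, hE, hl⟩ := hb.2
  refine ⟨U, hU, E, hE, ?_⟩
  intro g hg g' hg' hz
  show 1 - b g = 1 - b g'
  rw [hl g hg g' hg' hz]

theorem contDiff_ev (x : K) : ContDiff ℝ (⊤ : ℕ∞) (fun g : C(K, ℝ) => g x) :=
  (ContinuousMap.evalCLM ℝ x : C(K, ℝ) →L[ℝ] ℝ).contDiff

theorem nice_ev (x : K) (φ : ℝ → ℝ) (f : C(K, ℝ)) (hφ : ContDiff ℝ (⊤ : ℕ∞) φ) :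
    Nice (fun g => φ (g x)) f := by
  refine ⟨(hφ.comp (contDiff_ev x)).contDiffAt, univ, univ_mem, {x}, finite_singleton x, ?_⟩
  intro g _ g' _ hz
  show φ (g x) = φ (g' x)
  rw [hz x rfl]

/-- the restriction of functions to a subset, divided by the value at `x` -/
noncomputable def quo (F : Set K) (x : K) (g : C(K, ℝ)) : C(F, ℝ) := (g x)⁻¹ • g.restrict F

omit [CompactSpace K] in
theorem quo_apply (F : Set K) (x : K) (g : C(K, ℝ)) (y : F) :
    quo F x g y = (g x)⁻¹ * g y := rfl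

theorem contDiff_restrict (F : Set K) [CompactSpace F] :
    ContDiff ℝ (⊤ : ℕ∞) (fun g : C(K, ℝ) => g.restrict F) := by
  exact ContinuousLinearMap.contDiff
    (ContinuousMap.compCLM ℝ ℝ (⟨Subtype.val, continuous_subtype_val⟩ : C(F, K)))

theorem contDiffAt_quo (F : Set K) [CompactSpace F] (x : K) (f : C(K, ℝ)) (hx : f x ≠ 0) :
    ContDiffAt ℝ (⊤ : ℕ∞) (quo F x) f :=
  ((contDiff_ev x).contDiffAt.inv hx).smul (contDiff_restrict F).contDiffAt

theorem nice_quo (F : Set K) [CompactSpace F] (x : K) (B : C(F, ℝ) → ℝ)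
    (hB : ContDiff ℝ (⊤ : ℕ∞) B) (hl : ∀ f, Loc B f) (f : C(K, ℝ)) (hx : f x ≠ 0) :
    Nice (fun g => B (quo F x g)) f := by
  refine ⟨hB.contDiffAt.comp f (contDiffAt_quo F x f hx), ?_⟩
  obtain ⟨U, hU, E, hE, hl⟩ := hl (quo F x f)
  have hc : ContinuousAt (quo F x) f := (contDiffAt_quo F x f hx).continuousAt
  refine ⟨quo F x ⁻¹' U, hc hU, {x} ∪ Subtype.val '' E, (finite_singleton x).union (hE.image _),
    ?_⟩
  intro g hg g' hg' hz
  show B (quo F x g) = B (quo F x g')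
  apply hl _ hg _ hg'
  intro z hzE
  rw [quo_apply, quo_apply, hz x (Or.inl rfl), hz z (Or.inr ⟨z, hzE, rfl⟩)]

end nice

section main

variable {K : Type u} [TopologicalSpace K] [CompactSpace K] {F : K → Set K}

/-- the finiteness lemma -/
theorem fin_set (hF : Sys K F) (f : C(K, ℝ)) {c : ℝ} (hc : 0 < c) :
    {x | ∀ y ∈ F x, f y ^ 2 + c ≤ f x ^ 2}.Finite := by
  obtain ⟨J, hJ⟩ := exists_nat_gt (‖f‖ ^ 2 / (c / 2))
  have hc2 : 0 < c / 2 := by linarith
  have hfin : (⋃ j ∈ Finset.range (J + 1), {x | x ∈ {x : K | (j : ℝ) * (c / 2) ≤ f x ^ 2 ∧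
      f x ^ 2 ≤ ((j : ℝ) + 1) * (c / 2)} ∧
      ∀ y ∈ F x, y ∉ {y : K | ((j : ℝ) - 1) * (c / 2) < f y ^ 2}}).Finite := by
    apply Set.Finite.biUnion (Finset.finite_toSet _)
    intro j _
    apply hF.fin
    · apply IsClosed.and
      · exact isClosed_le continuous_const (by fun_prop)
      · exact isClosed_le (by fun_prop) continuous_const
    · exact isOpen_lt continuous_const (by fun_prop)
    · intro x hx
      show ((j : ℝ) - 1) * (c / 2) < f x ^ 2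
      have := hx.1
      nlinarith
  refine hfin.subset ?_
  intro x hx
  have hx0 : 0 ≤ f x ^ 2 / (c / 2) := by positivity
  have hx1 : f x ^ 2 ≤ ‖f‖ ^ 2 := by
    have := f.norm_coe_le_norm x
    rw [Real.norm_eq_abs] at this
    rw [← sq_abs]
    exact pow_le_pow_left₀ (abs_nonneg _) this 2
  have h1 := Nat.floor_le hx0
  have h2 := Nat.lt_floor_add_one (f x ^ 2 / (c / 2))
  have h3 : ⌊f x ^ 2 / (c / 2)⌋₊ < J + 1 := by
    have : f x ^ 2 / (c / 2) < J := lt_of_le_of_lt (by gcongr) hJ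
    have := (Nat.floor_lt hx0).2 this
    omega
  rw [le_div_iff₀ hc2] at h1
  rw [div_lt_iff₀ hc2] at h2
  simp only [mem_iUnion]
  refine ⟨⌊f x ^ 2 / (c / 2)⌋₊, by simpa using h3, ⟨h1, h2.le⟩, ?_⟩
  intro y hy hy'
  have h4 := hx y hy
  have h5 : (((⌊f x ^ 2 / (c / 2)⌋₊ : ℕ) : ℝ) - 1) * (c / 2) < f y ^ 2 := hy'
  nlinarith

variable [hcl : ∀ x, CompactSpace (F x)]

/-- the factor of index `i = (k, x)` -/
noncomputable def fac (N : ℕ) (B : ∀ (_ : ℕ) (x : K), C(F x, ℝ) → ℝ) (i : ℕ × K)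
    (g : C(K, ℝ)) : ℝ :=
  1 - Real.smoothTransition (((N : ℝ) + i.1) * (g i.2 ^ 2 - 1) + 2) * B i.1 i.2 (quo (F i.2) i.2 g)

/-- the properties of the bumps `B k x` -/
structure Good (N : ℕ) (B : ∀ (_ : ℕ) (x : K), C(F x, ℝ) → ℝ) : Prop where
  hN : 3 ≤ N
  smooth : ∀ k x, ContDiff ℝ (⊤ : ℕ∞) (B k x)
  loc : ∀ k x f, Loc (B k x) f
  rng : ∀ k x f, 0 ≤ B k x f ∧ B k x f ≤ 1
  one : ∀ (k : ℕ) x f, ‖f‖ ≤ 1 - 1 / ((N : ℝ) + k) → B k x f = 1
  zero : ∀ (k : ℕ) x f, 1 - 1 / (2 * ((N : ℝ) + k)) ≤ ‖f‖ → B k x f = 0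

variable {N : ℕ} {B : ∀ (_ : ℕ) (x : K), C(F x, ℝ) → ℝ}

omit [CompactSpace K] in
theorem fac_rng (hB : Good N B) (i : ℕ × K) (g : C(K, ℝ)) : 0 ≤ fac N B i g ∧ fac N B i g ≤ 1 := by
  obtain ⟨h1, h2⟩ := hB.rng i.1 i.2 (quo (F i.2) i.2 g)
  have h3 := Real.smoothTransition.nonneg (((N : ℝ) + i.1) * (g i.2 ^ 2 - 1) + 2)
  have h4 := Real.smoothTransition.le_one (((N : ℝ) + i.1) * (g i.2 ^ 2 - 1) + 2)
  unfold fac
  constructor
  · nlinarith
  · nlinarith [mul_nonneg h3 h1]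

omit [CompactSpace K] in
theorem fac_one_of_le (hB : Good N B) (i : ℕ × K) (g : C(K, ℝ))
    (h : g i.2 ^ 2 ≤ 1 - 2 / ((N : ℝ) + i.1)) : fac N B i g = 1 := by
  have hpos : (0 : ℝ) < (N : ℝ) + i.1 := by
    have := hB.hN
    have : (3 : ℝ) ≤ N := by exact_mod_cast this
    positivity
  have h1 : ((N : ℝ) + i.1) * (g i.2 ^ 2 - 1) + 2 ≤ 0 := by
    have : ((N : ℝ) + i.1) * (g i.2 ^ 2) ≤ ((N : ℝ) + i.1) * (1 - 2 / ((N : ℝ) + i.1)) := by
      gcongr
    have h2 : ((N : ℝ) + i.1) * (1 - 2 / ((N : ℝ) + i.1)) = ((N : ℝ) + i.1) - 2 := by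
      field_simp
    linarith
  unfold fac
  rw [Real.smoothTransition.zero_of_nonpos h1]
  ring

theorem fac_nice (hB : Good N B) (i : ℕ × K) (f : C(K, ℝ)) : Nice (fac N B i) f := by
  have hN3 : (3 : ℝ) ≤ N := by exact_mod_cast hB.hN
  have hpos : (3 : ℝ) ≤ (N : ℝ) + i.1 := by
    have : (0 : ℝ) ≤ (i.1 : ℝ) := Nat.cast_nonneg _
    linarith
  have hd : 2 / ((N : ℝ) + i.1) < 1 := by
    rw [div_lt_one (by linarith)]
    linarith
  by_cases h : f i.2 = 0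
  · have h1 : ∀ᶠ g : C(K, ℝ) in 𝓝 f, g i.2 ^ 2 < 1 - 2 / ((N : ℝ) + i.1) := by
      have hc : Continuous fun g : C(K, ℝ) => g i.2 ^ 2 := (contDiff_ev i.2).continuous.pow 2
      apply hc.continuousAt.eventually_lt continuousAt_const
      show f i.2 ^ 2 < _
      rw [h]
      norm_num
      linarith
    apply (nice_const 1 f).congr
    filter_upwards [h1] with g hg
    exact fac_one_of_le hB i g hg.le
  · apply Nice.one_sub
    apply Nice.mul
    · exact nice_ev i.2 (fun s => Real.smoothTransition (((N : ℝ) + i.1) * (s ^ 2 - 1) + 2)) f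
        (Real.smoothTransition.contDiff.comp (by fun_prop))
    · exact nice_quo (F i.2) i.2 (B i.1 i.2) (hB.smooth i.1 i.2) (hB.loc i.1 i.2) f h

omit [CompactSpace K] in
/-- if the factor is not one, then `g x ^ 2` is large and the values on `F x` are smaller -/
theorem fac_ne_one (hB : Good N B) (i : ℕ × K) (g : C(K, ℝ)) (h : fac N B i g ≠ 1) :
    1 - 2 / ((N : ℝ) + i.1) < g i.2 ^ 2 ∧
      ∀ y ∈ F i.2, g y ^ 2 + g i.2 ^ 2 / (2 * ((N : ℝ) + i.1)) ≤ g i.2 ^ 2 := by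
  have hN3 : (3 : ℝ) ≤ N := by exact_mod_cast hB.hN
  have hpos : (3 : ℝ) ≤ (N : ℝ) + i.1 := by
    have : (0 : ℝ) ≤ (i.1 : ℝ) := Nat.cast_nonneg _
    linarith
  have hd : 2 / ((N : ℝ) + i.1) < 1 := by
    rw [div_lt_one (by linarith)]
    linarith
  have h1 : 1 - 2 / ((N : ℝ) + i.1) < g i.2 ^ 2 := by
    by_contra hcon
    exact h (fac_one_of_le hB i g (not_lt.1 hcon))
  refine ⟨h1, fun y hy => ?_⟩
  have hx0 : g i.2 ≠ 0 := by
    intro h0
    rw [h0] at h1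
    norm_num at h1
    linarith
  have h2 : ‖quo (F i.2) i.2 g‖ < 1 - 1 / (2 * ((N : ℝ) + i.1)) := by
    by_contra hcon
    apply h
    unfold fac
    rw [hB.zero i.1 i.2 _ (not_lt.1 hcon)]
    ring
  have h3 : ‖quo (F i.2) i.2 g ⟨y, hy⟩‖ < 1 - 1 / (2 * ((N : ℝ) + i.1)) :=
    lt_of_le_of_lt (ContinuousMap.norm_coe_le_norm _ _) h2
  rw [quo_apply, norm_mul, norm_inv, Real.norm_eq_abs, Real.norm_eq_abs] at h3
  have h4 : 0 < |g i.2| := abs_pos.2 hx0
  have h5 : |g y| ≤ (1 - 1 / (2 * ((N : ℝ) + i.1))) * |g i.2| := by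
    have : |g y| = (|g i.2|⁻¹ * |g y|) * |g i.2| := by field_simp
    rw [this]
    gcongr
  have h6 : 0 < 1 / (2 * ((N : ℝ) + i.1)) := by positivity
  have h7 : 1 / (2 * ((N : ℝ) + i.1)) < 1 := by
    rw [div_lt_one (by linarith)]
    linarith
  have h8 : g i.2 ^ 2 / (2 * ((N : ℝ) + i.1)) = (1 / (2 * ((N : ℝ) + i.1))) * g i.2 ^ 2 := by
    ring
  rw [h8, ← sq_abs (g y), ← sq_abs (g i.2)]
  set u := 1 / (2 * ((N : ℝ) + i.1)) with hu
  have h9 : |g y| ^ 2 ≤ ((1 - u) * |g i.2|) ^ 2 := pow_le_pow_left₀ (abs_nonneg _) h5 2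
  have h10 : ((1 - u) * |g i.2|) ^ 2 ≤ (1 - u) * |g i.2| ^ 2 := by
    have : ((1 - u) * |g i.2|) ^ 2 = (1 - u) * ((1 - u) * |g i.2| ^ 2) := by ring
    rw [this]
    have h11 : (1 - u) * |g i.2| ^ 2 ≤ 1 * |g i.2| ^ 2 := by gcongr; linarith
    have h12 : 0 ≤ 1 - u := by linarith
    calc (1 - u) * ((1 - u) * |g i.2| ^ 2) ≤ (1 - u) * (1 * |g i.2| ^ 2) := by gcongr
      _ = (1 - u) * |g i.2| ^ 2 := by ring
  nlinarith

theorem abs_ev_le (f : C(K, ℝ)) (x : K) : |f x| ≤ ‖f‖ := by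
  rw [← Real.norm_eq_abs]
  exact f.norm_coe_le_norm x

/-- local finiteness inside the open unit ball -/
theorem locfin (hF : Sys K F) (hB : Good N B) (f : C(K, ℝ)) (hf : ‖f‖ < 1) :
    ∃ T : Finset (ℕ × K), ∀ᶠ g in 𝓝 f, ∀ i, i ∉ T → fac N B i g = 1 := by
  have hN3 : (3 : ℝ) ≤ N := by exact_mod_cast hB.hN
  set ρ : ℝ := (1 + ‖f‖) / 2 with hρ
  have hρ1 : ρ < 1 := by rw [hρ]; linarith
  have hρ0 : 0 < ρ := by rw [hρ]; have := norm_nonneg f; linarith
  have hρ2 : 0 < 1 - ρ ^ 2 := by nlinarith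
  obtain ⟨J, hJ⟩ := exists_nat_gt (2 / (1 - ρ ^ 2))
  have hJ0 : (0 : ℝ) ≤ J := Nat.cast_nonneg _
  have hM : (0 : ℝ) < (N : ℝ) + J := by linarith
  set c : ℝ := 1 / (18 * ((N : ℝ) + J)) with hc
  have hc0 : 0 < c := by positivity
  have hfin := fin_set hF f hc0
  refine ⟨Finset.range J ×ˢ hfin.toFinset, ?_⟩
  have hd0 : 0 < min (c / 2) ((1 - ‖f‖) / 2) := lt_min (by linarith) (by linarith)
  filter_upwards [Metric.ball_mem_nhds f hd0] with g hg i hi
  by_contra hne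
  apply hi
  obtain ⟨h1, h2⟩ := fac_ne_one hB i g hne
  have hgf : ‖g - f‖ < min (c / 2) ((1 - ‖f‖) / 2) := by
    rw [← dist_eq_norm]; exact hg
  have hgf1 : ‖g - f‖ < c / 2 := lt_of_lt_of_le hgf (min_le_left _ _)
  have hgf2 : ‖g - f‖ < (1 - ‖f‖) / 2 := lt_of_lt_of_le hgf (min_le_right _ _)
  have hgn : ‖g‖ < ρ := by
    have : ‖g‖ ≤ ‖f‖ + ‖g - f‖ := by
      calc ‖g‖ = ‖f + (g - f)‖ := by congr 1; abel
        _ ≤ _ := norm_add_le _ _
    rw [hρ]; linarith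
  have hk : (0 : ℝ) ≤ (i.1 : ℝ) := Nat.cast_nonneg _
  have hm : 0 < (N : ℝ) + i.1 := by linarith
  have hsq : ∀ z, |g z ^ 2 - f z ^ 2| ≤ c := by
    intro z
    have e1 : g z ^ 2 - f z ^ 2 = (g z - f z) * (g z + f z) := by ring
    rw [e1, abs_mul]
    have e2 : |g z - f z| ≤ c / 2 := by
      have := abs_ev_le (g - f) z
      rw [ContinuousMap.sub_apply] at this
      linarith
    have e3 : |g z + f z| ≤ 2 := by
      have e4 := abs_add_le (g z) (f z)
      have e5 := abs_ev_le g z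
      have e6 := abs_ev_le f z
      linarith
    calc |g z - f z| * |g z + f z| ≤ (c / 2) * 2 := by
          apply mul_le_mul e2 e3 (abs_nonneg _) (by linarith)
      _ = c := by ring
  have hx1 : g i.2 ^ 2 < ρ ^ 2 := by
    rw [← sq_abs]
    exact pow_lt_pow_left₀ (lt_of_le_of_lt (abs_ev_le g i.2) hgn) (abs_nonneg _) (by norm_num)
  have hiJ : i.1 < J := by
    have e1 : 1 - ρ ^ 2 < 2 / ((N : ℝ) + i.1) := by linarith
    rw [lt_div_iff₀ hm] at e1
    rw [div_lt_iff₀ hρ2] at hJ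
    have e2 : (1 - ρ ^ 2) * ((N : ℝ) + i.1) < (1 - ρ ^ 2) * J := by linarith
    have e3 : (N : ℝ) + i.1 < J := lt_of_mul_lt_mul_left e2 hρ2.le
    have e4 : (i.1 : ℝ) < J := by linarith
    exact_mod_cast e4
  rw [Finset.mem_product]
  refine ⟨Finset.mem_range.2 hiJ, ?_⟩
  rw [Set.Finite.mem_toFinset]
  intro y hy
  have hg3 : 1 / 3 ≤ g i.2 ^ 2 := by
    have e1 : 2 / ((N : ℝ) + i.1) ≤ 2 / 3 := by
      apply div_le_div_of_nonneg_left (by norm_num) (by norm_num)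
      linarith
    linarith
  have h3 := h2 y hy
  have h4 : 3 * c ≤ g i.2 ^ 2 / (2 * ((N : ℝ) + i.1)) := by
    have e1 : 3 * c = (1 / 3) / (2 * ((N : ℝ) + J)) := by rw [hc]; field_simp; norm_num
    rw [e1]
    have e2 : (i.1 : ℝ) ≤ J := by exact_mod_cast hiJ.le
    gcongr
  have h5 := abs_le.1 (hsq y)
  have h6 := abs_le.1 (hsq i.2)
  linarith [h5.1, h5.2, h6.1, h6.2]

/-- a factor vanishes near a point of the unit sphere -/
theorem sphere (hF : Sys K F) (hB : Good N B) (f : C(K, ℝ)) (hf : ‖f‖ = 1) :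
    ∃ i : ℕ × K, ∀ᶠ g in 𝓝 f, fac N B i g = 0 := by
  have hN3 : (3 : ℝ) ≤ N := by exact_mod_cast hB.hN
  have hM : ∃ x, |f x| = 1 := by
    by_contra hcon
    push Not at hcon
    have : ‖f‖ < 1 := by
      rw [ContinuousMap.norm_lt_iff f one_pos]
      intro x
      rw [Real.norm_eq_abs]
      exact lt_of_le_of_ne (hf ▸ abs_ev_le f x) (hcon x)
    linarith
  obtain ⟨x, hxM, hx⟩ := hF.top {x | |f x| = 1}
    (isClosed_eq f.continuous.abs continuous_const) hM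
  have hx1 : |f x| = 1 := hxM
  have hs : ‖f.restrict (F x)‖ < 1 := by
    rw [ContinuousMap.norm_lt_iff _ one_pos]
    intro y
    rw [Real.norm_eq_abs]
    exact lt_of_le_of_ne (hf ▸ abs_ev_le f y) (hx y y.2)
  set s : ℝ := ‖f.restrict (F x)‖ with hsdef
  have hs0 : 0 ≤ s := norm_nonneg _
  obtain ⟨k, hk⟩ := exists_nat_gt (2 / (1 - s))
  have hk0 : (0 : ℝ) ≤ (k : ℝ) := Nat.cast_nonneg _
  have hm : 0 < (N : ℝ) + k := by linarith
  have hkm : 1 / ((N : ℝ) + k) ≤ (1 - s) / 2 := by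
    rw [div_lt_iff₀ (by linarith)] at hk
    rw [div_le_div_iff₀ hm (by norm_num)]
    nlinarith
  set v : ℝ := 1 / ((N : ℝ) + k) with hv
  have hv0 : 0 < v := by positivity
  refine ⟨(k, x), ?_⟩
  have hd0 : 0 < min ((1 - s) / 4) (v / 2) := lt_min (by linarith) (by linarith)
  filter_upwards [Metric.ball_mem_nhds f hd0] with g hg
  have hgf : ‖g - f‖ < min ((1 - s) / 4) (v / 2) := by
    rw [← dist_eq_norm]; exact hg
  have hgf1 : ‖g - f‖ < (1 - s) / 4 := lt_of_lt_of_le hgf (min_le_left _ _)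
  have hgf2 : ‖g - f‖ < v / 2 := lt_of_lt_of_le hgf (min_le_right _ _)
  have hdiff : ∀ z, |g z - f z| ≤ ‖g - f‖ := fun z => by
    have := abs_ev_le (g - f) z
    rwa [ContinuousMap.sub_apply] at this
  have hgx : 1 - ‖g - f‖ ≤ |g x| := by
    have e1 : |f x| ≤ |g x| + |g x - f x| := by
      have e2 : f x = g x - (g x - f x) := by ring
      calc |f x| = |g x - (g x - f x)| := by rw [← e2]
        _ ≤ _ := abs_sub _ _
    have := hdiff x
    linarith
  have hgx0 : 0 < |g x| := by linarith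
  have h1 : fac N B (k, x) g = 1 - Real.smoothTransition (((N : ℝ) + k) * (g x ^ 2 - 1) + 2) *
    B k x (quo (F x) x g) := rfl
  rw [h1, Real.smoothTransition.one_of_one_le, hB.one k x]
  · ring
  · rw [ContinuousMap.norm_le]
    · intro y
      rw [quo_apply, norm_mul, norm_inv, Real.norm_eq_abs, Real.norm_eq_abs]
      have e1 : |g y| ≤ s + ‖g - f‖ := by
        have e2 : |g y| ≤ |f y| + |g y - f y| := by
          calc |g y| = |f y + (g y - f y)| := by congr 1; ring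
            _ ≤ _ := abs_add_le _ _
        have e3 : |f y| ≤ s := by
          rw [hsdef, ← Real.norm_eq_abs]
          exact (f.restrict (F x)).norm_coe_le_norm y
        have := hdiff y
        linarith
      rw [inv_mul_le_iff₀ hgx0]
      have hv1 : v ≤ 1 := by
        rw [hv, div_le_one hm]
        linarith
      have e4 : (1 - v) * (1 - ‖g - f‖) ≤ (1 - v) * |g x| := by
        apply mul_le_mul_of_nonneg_left hgx
        linarith
      have hn := norm_nonneg (g - f)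
      rw [mul_comm]
      nlinarith
    · have hv1 : v ≤ 1 := by
        rw [hv, div_le_one hm]
        linarith
      linarith
  · have e1 : 1 - v ≤ g x ^ 2 := by
      rw [← sq_abs]
      have e2 : (1 - ‖g - f‖) ^ 2 ≤ |g x| ^ 2 := by
        apply pow_le_pow_left₀ _ hgx
        linarith [norm_nonneg (f.restrict (F x))]
      nlinarith [norm_nonneg (g - f)]
    have e3 : ((N : ℝ) + k) * v = 1 := by rw [hv]; field_simp
    nlinarith

/-- the product -/
noncomputable def prd (N : ℕ) (B : ∀ (_ : ℕ) (x : K), C(F x, ℝ) → ℝ) (g : C(K, ℝ)) : ℝ := by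
  classical
  exact if ‖g‖ < 1 then ∏ᶠ i : ℕ × K, fac N B i g else 0

theorem prd_of_lt (g : C(K, ℝ)) (h : ‖g‖ < 1) : prd N B g = ∏ᶠ i : ℕ × K, fac N B i g := by
  unfold prd
  exact if_pos h

theorem prd_of_ge (g : C(K, ℝ)) (h : 1 ≤ ‖g‖) : prd N B g = 0 := by
  unfold prd
  exact if_neg (not_lt.2 h)

theorem supp_fin (hF : Sys K F) (hB : Good N B) (g : C(K, ℝ)) (hg : ‖g‖ < 1) :
    (Function.mulSupport fun i : ℕ × K => fac N B i g).Finite := by
  obtain ⟨T, hT⟩ := locfin hF hB g hg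
  apply T.finite_toSet.subset
  intro i hi
  by_contra hcon
  exact hi (hT.self_of_nhds i hcon)

theorem prd_nice (hF : Sys K F) (hB : Good N B) (f : C(K, ℝ)) : Nice (prd N B) f := by
  rcases lt_trichotomy ‖f‖ 1 with hf | hf | hf
  · obtain ⟨T, hT⟩ := locfin hF hB f hf
    have h1 : ∀ᶠ g : C(K, ℝ) in 𝓝 f, ‖g‖ < 1 :=
      continuous_norm.continuousAt.eventually_lt continuousAt_const hf
    apply (nice_prod T (fac N B) f fun i _ => fac_nice hB i f).congr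
    filter_upwards [hT, h1] with g hg hg1
    rw [prd_of_lt g hg1]
    apply finprod_eq_prod_of_mulSupport_subset
    intro i hi
    by_contra hcon
    exact hi (hg i hcon)
  · obtain ⟨i, hi⟩ := sphere hF hB f hf
    apply (nice_const 0 f).congr
    filter_upwards [hi] with g hg
    by_cases hg1 : ‖g‖ < 1
    · rw [prd_of_lt g hg1]
      exact finprod_eq_zero _ i hg (supp_fin hF hB g hg1)
    · exact prd_of_ge g (not_lt.1 hg1)
  · apply (nice_const 0 f).congr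
    have h1 : ∀ᶠ g : C(K, ℝ) in 𝓝 f, 1 < ‖g‖ :=
      continuousAt_const.eventually_lt continuous_norm.continuousAt hf
    filter_upwards [h1] with g hg
    exact prd_of_ge g hg.le

theorem prd_rng (hF : Sys K F) (hB : Good N B) (g : C(K, ℝ)) :
    0 ≤ prd N B g ∧ prd N B g ≤ 1 := by
  by_cases hg : ‖g‖ < 1
  · rw [prd_of_lt g hg, finprod_eq_prod _ (supp_fin hF hB g hg)]
    exact ⟨Finset.prod_nonneg fun i _ => (fac_rng hB i g).1,
      Finset.prod_le_one (fun i _ => (fac_rng hB i g).1) fun i _ => (fac_rng hB i g).2⟩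
  · rw [prd_of_ge g (not_lt.1 hg)]
    exact ⟨le_rfl, zero_le_one⟩

theorem prd_one (hB : Good N B) (g : C(K, ℝ)) (h1 : ‖g‖ < 1) (hg : ‖g‖ ^ 2 ≤ 1 - 2 / (N : ℝ)) :
    prd N B g = 1 := by
  have hN3 : (3 : ℝ) ≤ N := by exact_mod_cast hB.hN
  rw [prd_of_lt g h1]
  apply finprod_eq_one_of_forall_eq_one
  intro i
  apply fac_one_of_le hB
  have h2 : g i.2 ^ 2 ≤ ‖g‖ ^ 2 := by
    rw [← sq_abs]
    exact pow_le_pow_left₀ (abs_nonneg _) (abs_ev_le g i.2) 2
  have h3 : 2 / ((N : ℝ) + i.1) ≤ 2 / (N : ℝ) := by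
    apply div_le_div_of_nonneg_left (by norm_num) (by linarith)
    have : (0 : ℝ) ≤ (i.1 : ℝ) := Nat.cast_nonneg _
    linarith
  linarith

end main

theorem perm (K : Type u) [TopologicalSpace K] [CompactSpace K] (F : K → Set K) (hF : Sys K F)
    (hB : ∀ x, @HasBumps (F x) _ (isCompact_iff_compactSpace.1 (hF.closed x).isCompact)) :
    HasBumps K := by
  haveI hcl : ∀ x, CompactSpace (F x) := fun x =>
    isCompact_iff_compactSpace.1 (hF.closed x).isCompact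
  intro r R hr hrR
  have hR : 0 < R := hr.trans hrR
  -- the starting index
  have hq : 0 < 1 - (r / R) ^ 2 := by
    have h1 : r / R < 1 := by rw [div_lt_one hR]; exact hrR
    have h2 : 0 < r / R := by positivity
    nlinarith
  obtain ⟨J, hJ⟩ := exists_nat_gt (2 / (1 - (r / R) ^ 2))
  set N : ℕ := J + 3 with hN
  have hN3 : (3 : ℝ) ≤ N := by
    have : (3 : ℕ) ≤ N := by omega
    exact_mod_cast this
  have hm : ∀ k : ℕ, (3 : ℝ) ≤ (N : ℝ) + k := fun k => by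
    have : (0 : ℝ) ≤ (k : ℝ) := Nat.cast_nonneg _
    linarith
  have hex : ∀ (k : ℕ) (x : K), ∃ b : C(F x, ℝ) → ℝ, ContDiff ℝ (⊤ : ℕ∞) b ∧ (∀ f, Loc b f) ∧
      (∀ f, 0 ≤ b f ∧ b f ≤ 1) ∧ (∀ f, ‖f‖ ≤ 1 - 1 / ((N : ℝ) + k) → b f = 1) ∧
      ∀ f, 1 - 1 / (2 * ((N : ℝ) + k)) ≤ ‖f‖ → b f = 0 := by
    intro k x
    have h1 := hm k
    have h2 : 1 / ((N : ℝ) + k) < 1 := by
      rw [div_lt_one (by linarith)]
      linarith
    have h3 : 1 / (2 * ((N : ℝ) + k)) < 1 / ((N : ℝ) + k) := by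
      apply div_lt_div_of_pos_left one_pos (by linarith)
      linarith
    exact hB x _ _ (by linarith) (by linarith)
  choose B hB1 hB2 hB3 hB4 hB5 using hex
  have hG : Good N B := ⟨by omega, hB1, hB2, hB3, hB4, hB5⟩
  have hnorm : ∀ f : C(K, ℝ), ‖R⁻¹ • f‖ = ‖f‖ / R := fun f => by
    rw [norm_smul, norm_inv, Real.norm_of_nonneg hR.le]
    field_simp
  refine ⟨fun f => prd N B (R⁻¹ • f), ?_, ?_, ?_, ?_, ?_⟩
  · have h1 : ContDiff ℝ (⊤ : ℕ∞) (prd N B) :=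
      contDiff_iff_contDiffAt.2 fun f => (prd_nice hF hG f).1
    exact h1.comp (contDiff_const_smul _)
  · intro f
    obtain ⟨U, hU, E, hE, hl⟩ := (prd_nice hF hG (R⁻¹ • f)).2
    have hc : Continuous fun g : C(K, ℝ) => R⁻¹ • g := continuous_const_smul _
    refine ⟨(fun g : C(K, ℝ) => R⁻¹ • g) ⁻¹' U, hc.continuousAt hU, E, hE, ?_⟩
    intro g hg g' hg' hz
    apply hl _ hg _ hg'
    intro z hzE
    rw [ContinuousMap.smul_apply, ContinuousMap.smul_apply, hz z hzE]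
  · intro f
    exact prd_rng hF hG _
  · intro f hf
    have h1 : ‖R⁻¹ • f‖ ≤ r / R := by
      rw [hnorm]
      gcongr
    apply prd_one hG
    · refine lt_of_le_of_lt h1 ?_
      rw [div_lt_one hR]
      exact hrR
    · have h2 : ‖R⁻¹ • f‖ ^ 2 ≤ (r / R) ^ 2 := pow_le_pow_left₀ (norm_nonneg _) h1 2
      have h3 : 2 / (N : ℝ) ≤ 1 - (r / R) ^ 2 := by
        rw [div_lt_iff₀ hq] at hJ
        rw [div_le_iff₀ (by linarith)]
        have h4 : (J : ℝ) ≤ N := by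
          have : J ≤ N := by omega
          exact_mod_cast this
        nlinarith
      linarith
  · intro f hf
    apply prd_of_ge
    rw [hnorm, le_div_iff₀ hR]
    linarith

end Pool.Agent.CKT
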