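import Pool.Agent.CKT.Defs2
import Pool.Agent.CKT.Perm

/-!
# Smooth bump functions on C(K): the general relative rule
-/

set_option autoImplicit false

open Set Filter Topology

namespace Pool.Agent.CKT

universe u v

/-- the hypotheses of `Gen` in terms of the window -/
private structure GenH (K : Type u) [TopologicalSpace K] (D : Set K) (ι : Type u) (C B : ι → Set K)
    (i : K → ι) (H E : ι → ℝ) (p c0 : ℝ) : Prop where
  mem : ∀ x, x ∉ D → x ∈ C (i x) ∧ x ∉ B (i x)
  uniq : ∀ x, x ∉ D → ∀ j, x ∈ C j → x ∉ B j → j = i x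
  c0pos : 0 < c0
  pH : ∀ j, p + c0 ≤ H j
  Epos : ∀ j, 0 < E j
  gap : ∀ y, y ∉ D → ∃ V ∈ 𝓝 y, ∀ x ∈ V, x ∉ D → i x ≠ i y → H (i y) + 4 * E (i y) ≤ H (i x)
  low : ∀ j, ∀ y ∈ B j, y ∉ D → H (i y) + 4 * E (i y) ≤ H j

variable {K : Type u} [TopologicalSpace K] [CompactSpace K] {D : Set K} {ι : Type u}
  {C B : ι → Set K} {i : K → ι} {H E : ι → ℝ} {p c0 : ℝ}

private theorem gen_nhds_lt (f : C(K, ℝ)) (z : K) {a : ℝ} (h : |f z| < a) :
    {x | |f x| < a} ∈ 𝓝 z :=
  (isOpen_lt f.continuous.abs continuous_const).mem_nhds h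

private theorem gen_min (hG : GenH K D ι C B i H E p c0) (f : C(K, ℝ)) (hf : ∀ y ∈ D, |f y| < p)
    (hne : ∃ y, y ∉ D ∧ H (i y) + 2 * E (i y) ≤ |f y|) :
    ∃ y, y ∉ D ∧ H (i y) + 2 * E (i y) ≤ |f y| ∧
      ∀ x, x ∉ D → H (i x) + 2 * E (i x) ≤ |f x| → H (i y) ≤ H (i x) := by
  classical
  have hloc : ∀ z : K, ∃ W ∈ 𝓝 z, ∀ x ∈ W, x ∉ D → H (i x) + 2 * E (i x) ≤ |f x| →
      (z ∉ D ∧ H (i z) + 2 * E (i z) ≤ |f z|) ∧ H (i z) ≤ H (i x) := by
    intro z
    by_cases hz : z ∈ D
    · refine ⟨{x | |f x| < p}, gen_nhds_lt f z (hf z hz), fun x hx _ hx2 => ?_⟩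
      exfalso
      have h1 : |f x| < p := hx
      have h2 := hG.pH (i x)
      have h3 := hG.Epos (i x)
      have h4 := hG.c0pos
      linarith
    · obtain ⟨V, hV, hgap⟩ := hG.gap z hz
      have hEz := hG.Epos (i z)
      by_cases hz2 : H (i z) + 2 * E (i z) ≤ |f z|
      · refine ⟨V, hV, fun x hx hxD _ => ⟨⟨hz, hz2⟩, ?_⟩⟩
        by_cases he : i x = i z
        · rw [he]
        · have := hgap x hx hxD he
          linarith
      · rw [not_le] at hz2
        refine ⟨V ∩ {x | |f x| < H (i z) + 2 * E (i z)}, inter_mem hV (gen_nhds_lt f z hz2),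
          fun x hx hxD hx2 => ?_⟩
        exfalso
        have h1 : |f x| < H (i z) + 2 * E (i z) := hx.2
        have hEx := hG.Epos (i x)
        by_cases he : i x = i z
        · rw [he] at hx2
          linarith
        · have := hgap x hx.1 hxD he
          linarith
  choose W hW hW2 using hloc
  obtain ⟨t, ht⟩ := CompactSpace.elim_nhds_subcover W hW
  have hcov : ∀ x : K, ∃ z ∈ t, x ∈ W z := by
    intro x
    have hx : x ∈ (⊤ : Set K) := trivial
    rw [← ht] at hx
    simpa using hx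
  set t' := t.filter (fun z => z ∉ D ∧ H (i z) + 2 * E (i z) ≤ |f z|) with ht'
  have hne' : t'.Nonempty := by
    obtain ⟨y0, hy0, hy1⟩ := hne
    obtain ⟨z, hz, hz2⟩ := hcov y0
    exact ⟨z, Finset.mem_filter.2 ⟨hz, (hW2 z y0 hz2 hy0 hy1).1⟩⟩
  obtain ⟨y, hy, hmin⟩ := Finset.exists_min_image t' (fun z => H (i z)) hne'
  have hy' := (Finset.mem_filter.1 hy).2
  refine ⟨y, hy'.1, hy'.2, fun x hx hx2 => ?_⟩
  obtain ⟨z, hz, hz2⟩ := hcov x
  obtain ⟨h1, h2⟩ := hW2 z x hz2 hx hx2
  exact (hmin z (Finset.mem_filter.2 ⟨hz, h1⟩)).trans h2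

private theorem gen_fin (hG : GenH K D ι C B i H E p c0) (f : C(K, ℝ)) (hf : ∀ y ∈ D, |f y| < p)
    (hemp : ∀ y, y ∉ D → |f y| < H (i y) + 2 * E (i y)) :
    ∃ c : ℝ, 0 < c ∧ ∃ T : Finset ι, ∀ j, j ∉ T → ∀ x ∈ C j, |f x| + c ≤ H j := by
  classical
  have hloc : ∀ z : K, ∃ W ∈ 𝓝 z, ∃ c : ℝ, 0 < c ∧ ∃ T : Finset ι,
      ∀ j, j ∉ T → ∀ x ∈ C j, x ∈ W → |f x| + c ≤ H j := by
    intro z
    by_cases hz : z ∈ D
    · refine ⟨{x | |f x| < p}, gen_nhds_lt f z (hf z hz), c0, hG.c0pos, ∅,
        fun j _ x _ hx => ?_⟩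
      have h1 : |f x| < p := hx
      have h2 := hG.pH j
      linarith
    · obtain ⟨V, hV, hgap⟩ := hG.gap z hz
      have hEz := hG.Epos (i z)
      have hz2 : |f z| < H (i z) + 3 * E (i z) := by
        have := hemp z hz
        linarith
      refine ⟨V ∩ {x | |f x| < H (i z) + 3 * E (i z)}, inter_mem hV (gen_nhds_lt f z hz2),
        min (E (i z)) c0, lt_min hEz hG.c0pos, {i z}, fun j hj x hxC hx => ?_⟩
      have h1 : |f x| < H (i z) + 3 * E (i z) := hx.2
      by_cases hxD : x ∈ D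
      · have h2 := hf x hxD
        have h3 := hG.pH j
        have h4 := min_le_right (E (i z)) c0
        linarith
      · have h4 := min_le_left (E (i z)) c0
        have h5 : H (i z) + 4 * E (i z) ≤ H j := by
          by_cases hxB : x ∈ B j
          · have h6 := hG.low j x hxB hxD
            have h7 := hG.Epos (i x)
            by_cases he : i x = i z
            · rw [he] at h6
              exact h6
            · have := hgap x hx.1 hxD he
              linarith
          · have he := hG.uniq x hxD j hxC hxB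
            have hne : i x ≠ i z := by
              rw [← he]
              intro h
              exact hj (by rw [h]; exact Finset.mem_singleton_self _)
            have := hgap x hx.1 hxD hne
            rw [he]
            exact this
        linarith
  choose W hW c hc T hT using hloc
  obtain ⟨t, ht⟩ := CompactSpace.elim_nhds_subcover W hW
  have hcov : ∀ x : K, ∃ z ∈ t, x ∈ W z := by
    intro x
    have hx : x ∈ (⊤ : Set K) := trivial
    rw [← ht] at hx
    simpa using hx
  have hmin : ∀ s : Finset K, ∃ c' : ℝ, 0 < c' ∧ ∀ z ∈ s, c' ≤ c z := by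
    intro s
    induction s using Finset.induction_on with
    | empty => exact ⟨1, one_pos, fun z hz => absurd hz (Finset.notMem_empty z)⟩
    | insert a s _ ih =>
      obtain ⟨c', h1, h2⟩ := ih
      refine ⟨min c' (c a), lt_min h1 (hc a), fun z hz => ?_⟩
      rcases Finset.mem_insert.1 hz with rfl | hz
      · exact min_le_right _ _
      · exact (min_le_left _ _).trans (h2 z hz)
  obtain ⟨c', hc', hc'2⟩ := hmin t
  refine ⟨c', hc', t.biUnion T, fun j hj x hx => ?_⟩
  obtain ⟨z, hz, hz2⟩ := hcov x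
  have hjT : j ∉ T z := fun h => hj (Finset.mem_biUnion.2 ⟨z, hz, h⟩)
  have h1 := hT z j hjT x hx hz2
  have h2 := hc'2 z hz
  linarith

private theorem gen_open {S : Set K} (hS : IsClosed S) (f : C(K, ℝ)) {a : ℝ}
    (h : ∀ y ∈ S, |f y| < a) : ∀ᶠ g : C(K, ℝ) in 𝓝 f, ∀ y ∈ S, |g y| < a := by
  have hU : IsOpen {s : ℝ | |s| < a} := isOpen_lt continuous_abs continuous_const
  have h1 := (ContinuousMap.isOpen_setOf_mapsTo hS.isCompact hU (X := K)).mem_nhds
    (show f ∈ {g : C(K, ℝ) | MapsTo g S {s : ℝ | |s| < a}} from fun y hy => h y hy)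
  filter_upwards [h1] with g hg y hy
  exact hg hy

private theorem gen_nice {C0 B0 : Set K} [CompactSpace C0] {a : ℝ} {r : C(C0, ℝ) → ℝ}
    (hr : ∀ f, (∀ y ∈ (Subtype.val ⁻¹' B0 : Set C0), |f y| < a) →
      ContDiffAt ℝ (⊤ : ℕ∞) r f ∧ Loc r f) (f : C(K, ℝ))
    (hf : ∀ y ∈ C0, y ∈ B0 → |f y| < a) : Nice (fun g : C(K, ℝ) => r (g.restrict C0)) f := by
  obtain ⟨h1, U, hU, E0, hE0, hl⟩ := hr (f.restrict C0) (fun y hy => hf y y.2 hy)
  refine ⟨h1.comp f (contDiff_restrict C0).contDiffAt, ?_⟩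
  have hc : ContinuousAt (fun g : C(K, ℝ) => g.restrict C0) f :=
    (contDiff_restrict C0).continuous.continuousAt
  refine ⟨(fun g : C(K, ℝ) => g.restrict C0) ⁻¹' U, hc hU, Subtype.val '' E0, hE0.image _, ?_⟩
  intro g hg g' hg' hz
  show r (g.restrict C0) = r (g'.restrict C0)
  apply hl _ hg _ hg'
  intro z hz'
  exact hz z (mem_image_of_mem _ hz')

/-! ROW GEN (Gen.lean) -/
theorem perm_gen (K : Type u) [TopologicalSpace K] [CompactSpace K] (D : Set K) (ι : Type u)
    (C B : ι → Set K) (i : K → ι) (h e : ι → ℝ) (hG : Gen K D ι C B i h e)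
    (hB : ∀ j, @RelBumps (C j) _
      (isCompact_iff_compactSpace.1 (hG.closedC j).isCompact) (Subtype.val ⁻¹' (B j))) :
    RelBumps K D := by
  classical
  haveI hcl : ∀ j, CompactSpace (C j) := fun j =>
    isCompact_iff_compactSpace.1 (hG.closedC j).isCompact
  intro p q hp hpq
  set H : ι → ℝ := fun j => p + (q - p) / 4 + (q - p) / 2 * h j with hH
  set E : ι → ℝ := fun j => (q - p) / 8 * e j with hE
  have hd : 0 < q - p := by linarith
  have hG' : GenH K D ι C B i H E p ((q - p) / 4) := by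
    refine ⟨hG.mem, hG.uniq, by linarith, fun j => ?_, fun j => ?_, fun y hy => ?_,
      fun j y hy hyD => ?_⟩
    · have := mul_nonneg (by linarith : (0 : ℝ) ≤ (q - p) / 2) (hG.hrange j).1
      simp only [hH]
      linarith
    · have := mul_pos (by linarith : (0 : ℝ) < (q - p) / 8) (hG.erange j).1
      simp only [hE]
      linarith
    · obtain ⟨V, hV, hgap⟩ := hG.gap y hy
      refine ⟨V, hV, fun x hx hxD hne => ?_⟩
      have h1 := mul_le_mul_of_nonneg_left (hgap x hx hxD hne)
        (by linarith : (0 : ℝ) ≤ (q - p) / 2)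
      simp only [hH, hE]
      linarith
    · have h1 := mul_le_mul_of_nonneg_left (hG.low j y hy hyD)
        (by linarith : (0 : ℝ) ≤ (q - p) / 2)
      simp only [hH, hE]
      linarith
  have hHq : ∀ j, H j + 2 * E j ≤ q := by
    intro j
    have h1 := mul_le_mul_of_nonneg_left (hG.hrange j).2 (by linarith : (0 : ℝ) ≤ (q - p) / 2)
    have h2 := mul_le_mul_of_nonneg_left (hG.erange j).2 (by linarith : (0 : ℝ) ≤ (q - p) / 8)
    simp only [hH, hE]
    linarith
  have hHpos : ∀ j, 0 < H j := fun j => by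
    have := hG'.pH j
    linarith
  have hHp : ∀ j, p < H j := fun j => by
    have := hG'.pH j
    linarith
  choose r hr1 hr2 hr3 hr4 using fun j => hB j (H j) (H j + E j) (hHpos j)
    (by have := hG'.Epos j; linarith)
  set rr : ι → C(K, ℝ) → ℝ := fun j g => r j (g.restrict (C j)) with hrr
  have hrr2 : ∀ j g, 0 ≤ rr j g ∧ rr j g ≤ 1 := fun j g => hr2 j _
  have hrr3 : ∀ j (g : C(K, ℝ)), (∀ x ∈ C j, |g x| ≤ H j) → rr j g = 1 := by
    intro j g hg
    apply hr3
    rw [ContinuousMap.norm_le _ (hHpos j).le]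
    intro x
    rw [Real.norm_eq_abs]
    exact hg x x.2
  have hrr4 : ∀ j (g : C(K, ℝ)), (∀ x ∈ C j, x ∈ B j → |g x| < H j) →
      (∃ x ∈ C j, H j + E j ≤ |g x|) → rr j g = 0 := by
    rintro j g hg ⟨x, hx, hx2⟩
    apply hr4 j _ (fun y hy => hg y y.2 hy)
    refine hx2.trans ?_
    rw [← Real.norm_eq_abs]
    exact (g.restrict (C j)).norm_coe_le_norm ⟨x, hx⟩
  set b : C(K, ℝ) → ℝ := fun g => if ∃ j, rr j g = 0 then 0 else ∏ᶠ j, rr j g with hb
  -- case 1
  have case1 : ∀ f : C(K, ℝ), (∀ y ∈ D, |f y| < p) →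
      (∃ y, y ∉ D ∧ H (i y) + 2 * E (i y) ≤ |f y|) → ∀ᶠ g in 𝓝 f, b g = 0 := by
    intro f hf hne
    obtain ⟨y, hyD, hy2, hmin⟩ := gen_min hG' f hf hne
    have hEy := hG'.Epos (i y)
    have hBj : ∀ z ∈ C (i y) ∩ B (i y), |f z| < H (i y) := by
      rintro z ⟨-, hz⟩
      by_cases hzD : z ∈ D
      · exact (hf z hzD).trans (hHp _)
      · by_contra hcon
        rw [not_lt] at hcon
        have h1 := hG'.low (i y) z hz hzD
        have h2 := hG'.Epos (i z)
        have h3 := hmin z hzD (by linarith)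
        linarith
    have hev1 := gen_open ((hG.closedC (i y)).inter (hG.closedB (i y))) f hBj
    have hev2 : ∀ᶠ g : C(K, ℝ) in 𝓝 f, H (i y) + E (i y) < |g y| := by
      have hc : Continuous fun g : C(K, ℝ) => |g y| := (contDiff_ev y).continuous.abs
      exact continuousAt_const.eventually_lt hc.continuousAt (by linarith)
    filter_upwards [hev1, hev2] with g hg1 hg2
    have h0 : rr (i y) g = 0 := hrr4 (i y) g (fun x hx hx2 => hg1 x ⟨hx, hx2⟩)
      ⟨y, (hG.mem y hyD).1, hg2.le⟩
    simp only [hb]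
    rw [if_pos ⟨i y, h0⟩]
  -- case 2
  have case2 : ∀ f : C(K, ℝ), (∀ y ∈ D, |f y| < p) →
      (∀ y, y ∉ D → |f y| < H (i y) + 2 * E (i y)) → Nice b f := by
    intro f hf hemp
    obtain ⟨c, hc, T, hT⟩ := gen_fin hG' f hf hemp
    have hnice : ∀ j, Nice (rr j) f := by
      intro j
      apply gen_nice (hr1 j) f
      intro z _ hz
      by_cases hzD : z ∈ D
      · exact (hf z hzD).trans (hHp _)
      · have h1 := hG'.low j z hz hzD
        have h2 := hG'.Epos (i z)
        have h3 := hemp z hzD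
        linarith
    apply (nice_prod T rr f fun j _ => hnice j).congr
    filter_upwards [Metric.ball_mem_nhds f hc] with g hg
    have hgf : ‖g - f‖ < c := by
      rw [← dist_eq_norm]
      exact hg
    have hone : ∀ j, j ∉ T → rr j g = 1 := by
      intro j hj
      apply hrr3
      intro x hx
      have h1 := hT j hj x hx
      have h2 := abs_ev_le (g - f) x
      rw [ContinuousMap.sub_apply] at h2
      have h3 : |g x| ≤ |f x| + |g x - f x| := by
        calc |g x| = |f x + (g x - f x)| := by congr 1; ring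
          _ ≤ _ := abs_add_le _ _
      linarith
    simp only [hb]
    by_cases h0 : ∃ j, rr j g = 0
    · rw [if_pos h0]
      obtain ⟨j, hj⟩ := h0
      have hjT : j ∈ T := by
        by_contra hcon
        rw [hone j hcon] at hj
        exact one_ne_zero hj
      exact (Finset.prod_eq_zero hjT hj).symm
    · rw [if_neg h0]
      apply finprod_eq_prod_of_mulSupport_subset
      intro j hj
      by_contra hcon
      exact hj (hone j hcon)
  refine ⟨b, fun f hf => ?_, fun f => ?_, fun f hf => ?_, fun f hf hq => ?_⟩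
  · by_cases hne : ∃ y, y ∉ D ∧ H (i y) + 2 * E (i y) ≤ |f y|
    · exact (nice_const 0 f).congr (case1 f hf hne)
    · push Not at hne
      exact case2 f hf hne
  · simp only [hb]
    split_ifs with h0
    · exact ⟨le_rfl, zero_le_one⟩
    · by_cases hfin : (Function.mulSupport fun j => rr j f).Finite
      · rw [finprod_eq_prod _ hfin]
        exact ⟨Finset.prod_nonneg fun j _ => (hrr2 j f).1,
          Finset.prod_le_one (fun j _ => (hrr2 j f).1) fun j _ => (hrr2 j f).2⟩
      · rw [finprod_of_infinite_mulSupport hfin]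
        exact ⟨zero_le_one, le_rfl⟩
  · have hone : ∀ j, rr j f = 1 := fun j => hrr3 j f fun x _ =>
      ((abs_ev_le f x).trans hf).trans (hHp j).le
    simp only [hb]
    rw [if_neg]
    · exact finprod_eq_one_of_forall_eq_one hone
    · rintro ⟨j, hj⟩
      rw [hone j] at hj
      exact one_ne_zero hj
  · have hq0 : 0 < q := hp.trans hpq
    have hx : ∃ x, q ≤ |f x| := by
      by_contra hcon
      push Not at hcon
      have : ‖f‖ < q := by
        rw [ContinuousMap.norm_lt_iff f hq0]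
        intro x
        rw [Real.norm_eq_abs]
        exact hcon x
      linarith
    obtain ⟨x, hx⟩ := hx
    have hxD : x ∉ D := fun h1 => by
      have := hf x h1
      linarith
    have h1 := case1 f hf ⟨x, hxD, (hHq (i x)).trans hx⟩
    exact h1.self_of_nhds

end Pool.Agent.CKT
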