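import Pool.Agent.CKT.Defs2

/-! # Continuous images of spaces with relative bump functions -/

set_option autoImplicit false

open Set Filter Topology

namespace Pool.Agent.CKT

universe u v

theorem perm_image (K K' : Type u) [TopologicalSpace K] [TopologicalSpace K'] [CompactSpace K]
    [CompactSpace K'] (p : K → K') (hp : Continuous p) (hs : Function.Surjective p)
    (D : Set K') (h : RelBumps K (p ⁻¹' D)) : RelBumps K' D := by
  intro r R hr hrR
  obtain ⟨b, hb1, hb3, hb4, hb5⟩ := h r R hr hrR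
  let P : C(K', ℝ) →L[ℝ] C(K, ℝ) :=
    { toFun := fun f => f.comp ⟨p, hp⟩
      map_add' := fun f g => rfl
      map_smul' := fun c f => rfl
      cont := ContinuousMap.continuous_precomp _ }
  have hP : ∀ (f : C(K', ℝ)) (x : K), P f x = f (p x) := fun f x => rfl
  have hnorm : ∀ f : C(K', ℝ), ‖P f‖ = ‖f‖ := by
    intro f
    rw [ContinuousMap.norm_eq_iSup_norm, ContinuousMap.norm_eq_iSup_norm]
    exact hs.iSup_comp (fun y => ‖f y‖)
  have hlow : ∀ f : C(K', ℝ), (∀ y ∈ D, |f y| < r) → ∀ x ∈ p ⁻¹' D, |P f x| < r := by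
    intro f hf x hx
    rw [hP]
    exact hf (p x) hx
  refine ⟨fun f => b (P f), fun f hf => ⟨?_, ?_⟩, fun f => hb3 (P f),
    fun f hf => hb4 (P f) (by rw [hnorm]; exact hf),
    fun f hf hR => hb5 (P f) (hlow f hf) (by rw [hnorm]; exact hR)⟩
  · exact (hb1 (P f) (hlow f hf)).1.comp f P.contDiff.contDiffAt
  · obtain ⟨U, hU, E, hE, hEU⟩ := (hb1 (P f) (hlow f hf)).2
    refine ⟨P ⁻¹' U, P.continuous.continuousAt.preimage_mem_nhds hU, p '' E, hE.image p,
      fun g hg h' hh' hz => ?_⟩
    refine hEU (P g) hg (P h') hh' fun z hz' => ?_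
    rw [hP, hP]
    exact hz (p z) (mem_image_of_mem p hz')

end Pool.Agent.CKT
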