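import Pool.Agent.CKT.Defs2
import Pool.Agent.CKT.Perm

/-!
# Smooth bump functions on C(K): the permanence theorem, relative version
-/

set_option autoImplicit false

open Set Filter Topology

namespace Pool.Agent.CKT

universe u v

section main

variable {K : Type u} [TopologicalSpace K] [CompactSpace K] {D : Set K} {F : K → Set K}

/-- the finiteness lemma -/
theorem fin_setR (hF : SysR K D F) (f : C(K, ℝ)) {c m : ℝ} (hc : 0 < c)
    (hm : ∀ y ∈ D, f y ^ 2 < m) :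
    {x | m ≤ f x ^ 2 ∧ ∀ y ∈ F x, f y ^ 2 + c ≤ f x ^ 2}.Finite := by
  obtain ⟨J, hJ⟩ := exists_nat_gt (‖f‖ ^ 2 / (c / 2))
  have hc2 : 0 < c / 2 := by linarith
  have hfin : (⋃ j ∈ Finset.range (J + 1), {x | x ∈ {x : K | ((j : ℝ) * (c / 2) ≤ f x ^ 2 ∧
      f x ^ 2 ≤ ((j : ℝ) + 1) * (c / 2)) ∧ m ≤ f x ^ 2} ∧
      ∀ y ∈ F x, y ∉ {y : K | ((j : ℝ) - 1) * (c / 2) < f y ^ 2}}).Finite := by
    apply Set.Finite.biUnion (Finset.finite_toSet _)
    intro j _
    apply hF.fin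
    · apply IsClosed.and
      · apply IsClosed.and
        · exact isClosed_le continuous_const (by fun_prop)
        · exact isClosed_le (by fun_prop) continuous_const
      · exact isClosed_le continuous_const (by fun_prop)
    · exact isOpen_lt continuous_const (by fun_prop)
    · intro x hx
      show ((j : ℝ) - 1) * (c / 2) < f x ^ 2
      have := hx.1.1
      nlinarith
    · intro x hx hxD
      have h1 : m ≤ f x ^ 2 := hx.2
      have h2 := hm x hxD
      linarith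
  refine hfin.subset ?_
  rintro x ⟨hxm, hx⟩
  have hx0 : 0 ≤ f x ^ 2 / (c / 2) := by positivity
  have hx1 : f x ^ 2 ≤ ‖f‖ ^ 2 := by
    have := f.norm_coe_le_norm x
    rw [Real.norm_eq_abs] at this
    rw [← sq_abs]
    exact pow_le_pow_left₀ (abs_nonneg _) this 2
  have h1 := Nat.floor_le hx0
  have h2 := Nat.lt_floor_add_one (f x ^ 2 / (c / 2))
  have h3 : ⌊f x ^ 2 / (c / 2)⌋₊ < J + 1 := by
    have : f x ^ 2 / (c / 2) < J := lt_of_le_of_lt (by gcongr) hJ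
    have := (Nat.floor_lt hx0).2 this
    omega
  rw [le_div_iff₀ hc2] at h1
  rw [div_lt_iff₀ hc2] at h2
  simp only [mem_iUnion]
  refine ⟨⌊f x ^ 2 / (c / 2)⌋₊, by simpa using h3, ⟨⟨h1, h2.le⟩, hxm⟩, ?_⟩
  intro y hy hy'
  have h4 := hx y hy
  have h5 : (((⌊f x ^ 2 / (c / 2)⌋₊ : ℕ) : ℝ) - 1) * (c / 2) < f y ^ 2 := hy'
  nlinarith

variable [hcl : ∀ x, CompactSpace (F x)]

/-- the factor of index `i = (k, x)` -/
noncomputable def facR (D : Set K) (N : ℕ) (B : ∀ (_ : ℕ) (x : K), C(F x, ℝ) → ℝ) (i : ℕ × K)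
    (g : C(K, ℝ)) : ℝ := by
  classical
  exact if i.2 ∈ D then 1 else
    1 - Real.smoothTransition (((N : ℝ) + i.1) * (g i.2 ^ 2 - 1) + 2) *
      B i.1 i.2 (quo (F i.2) i.2 g)

omit [CompactSpace K] hcl in
theorem facR_mem {N : ℕ} {B : ∀ (_ : ℕ) (x : K), C(F x, ℝ) → ℝ} {i : ℕ × K} (hi : i.2 ∈ D)
    (g : C(K, ℝ)) : facR D N B i g = 1 := by
  unfold facR
  exact if_pos hi

omit [CompactSpace K] hcl in
theorem facR_notMem {N : ℕ} {B : ∀ (_ : ℕ) (x : K), C(F x, ℝ) → ℝ} {i : ℕ × K} (hi : i.2 ∉ D)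
    (g : C(K, ℝ)) : facR D N B i g =
      1 - Real.smoothTransition (((N : ℝ) + i.1) * (g i.2 ^ 2 - 1) + 2) *
        B i.1 i.2 (quo (F i.2) i.2 g) := by
  unfold facR
  exact if_neg hi

/-- the properties of the bumps `B k x` -/
structure GoodR (D : Set K) (r : ℝ) (N : ℕ) (B : ∀ (_ : ℕ) (x : K), C(F x, ℝ) → ℝ) : Prop where
  hN : 3 ≤ N
  r0 : 0 < r
  r1 : r < 1
  hr : 2 / (N : ℝ) ≤ (1 - r) / 2
  nice : ∀ (k : ℕ) x, x ∉ D → ∀ f : C(F x, ℝ),
    (∀ y : F x, (y : K) ∈ D → |f y| < 1 - 1 / ((N : ℝ) + k)) → Nice (B k x) f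
  rng : ∀ k x, x ∉ D → ∀ f, 0 ≤ B k x f ∧ B k x f ≤ 1
  one : ∀ (k : ℕ) x, x ∉ D → ∀ f : C(F x, ℝ), ‖f‖ ≤ 1 - 1 / ((N : ℝ) + k) → B k x f = 1
  zero : ∀ (k : ℕ) x, x ∉ D → ∀ f : C(F x, ℝ),
    (∀ y : F x, (y : K) ∈ D → |f y| < 1 - 1 / ((N : ℝ) + k)) →
    1 - 1 / (2 * ((N : ℝ) + k)) ≤ ‖f‖ → B k x f = 0

variable {r : ℝ} {N : ℕ} {B : ∀ (_ : ℕ) (x : K), C(F x, ℝ) → ℝ}

omit [CompactSpace K] in
theorem facR_rng (hB : GoodR D r N B) (i : ℕ × K) (g : C(K, ℝ)) :
    0 ≤ facR D N B i g ∧ facR D N B i g ≤ 1 := by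
  by_cases hi : i.2 ∈ D
  · rw [facR_mem hi]
    exact ⟨zero_le_one, le_rfl⟩
  obtain ⟨h1, h2⟩ := hB.rng i.1 i.2 hi (quo (F i.2) i.2 g)
  have h3 := Real.smoothTransition.nonneg (((N : ℝ) + i.1) * (g i.2 ^ 2 - 1) + 2)
  have h4 := Real.smoothTransition.le_one (((N : ℝ) + i.1) * (g i.2 ^ 2 - 1) + 2)
  rw [facR_notMem hi]
  constructor
  · nlinarith
  · nlinarith [mul_nonneg h3 h1]

omit [CompactSpace K] in
theorem facR_one_of_le (hB : GoodR D r N B) (i : ℕ × K) (g : C(K, ℝ))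
    (h : g i.2 ^ 2 ≤ 1 - 2 / ((N : ℝ) + i.1)) : facR D N B i g = 1 := by
  by_cases hi : i.2 ∈ D
  · exact facR_mem hi g
  have hpos : (0 : ℝ) < (N : ℝ) + i.1 := by
    have := hB.hN
    have : (3 : ℝ) ≤ N := by exact_mod_cast this
    positivity
  have h1 : ((N : ℝ) + i.1) * (g i.2 ^ 2 - 1) + 2 ≤ 0 := by
    have : ((N : ℝ) + i.1) * (g i.2 ^ 2) ≤ ((N : ℝ) + i.1) * (1 - 2 / ((N : ℝ) + i.1)) := by
      gcongr
    have h2 : ((N : ℝ) + i.1) * (1 - 2 / ((N : ℝ) + i.1)) = ((N : ℝ) + i.1) - 2 := by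
      field_simp
    linarith
  rw [facR_notMem hi, Real.smoothTransition.zero_of_nonpos h1]
  ring

omit [CompactSpace K] in
/-- if `g x ^ 2` is large, the quotient is small on `D` -/
theorem quo_small (hB : GoodR D r N B) (i : ℕ × K) (g : C(K, ℝ)) (hg : ∀ y ∈ D, |g y| < r)
    (h : 1 - 2 / ((N : ℝ) + i.1) ≤ g i.2 ^ 2) (y : F i.2) (hy : (y : K) ∈ D) :
    |quo (F i.2) i.2 g y| < 1 - 1 / ((N : ℝ) + i.1) := by
  have hN3 : (3 : ℝ) ≤ N := by exact_mod_cast hB.hN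
  have hk0 : (0 : ℝ) ≤ (i.1 : ℝ) := Nat.cast_nonneg _
  have hpos : (3 : ℝ) ≤ (N : ℝ) + i.1 := by linarith
  have h2 : 2 / ((N : ℝ) + i.1) ≤ 2 / (N : ℝ) := by
    apply div_le_div_of_nonneg_left (by norm_num) (by linarith)
    linarith
  have hr := hB.hr
  have hr1 := hB.r1
  set v : ℝ := 1 / ((N : ℝ) + i.1) with hv
  have hv2 : 2 / ((N : ℝ) + i.1) = 2 * v := by rw [hv]; ring
  have hv0 : 0 < v := by positivity
  have hv3 : v ≤ 1 / 3 := by
    rw [hv]
    exact div_le_div_of_nonneg_left (by norm_num) (by norm_num) hpos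
  rw [hv2] at h h2
  have hrv : r < 1 - 2 * v := by linarith
  have hgy := hg y hy
  have hx0 : g i.2 ≠ 0 := by
    intro h0
    rw [h0] at h
    norm_num at h
    linarith
  have hgx : 0 < |g i.2| := abs_pos.2 hx0
  rw [quo_apply, abs_mul, abs_inv, inv_mul_lt_iff₀ hgx]
  have h3 : (1 - 2 * v) ^ 2 ≤ ((1 - v) * |g i.2|) ^ 2 := by
    rw [mul_pow, sq_abs]
    have h4 : 1 - 2 * v ≤ (1 - v) ^ 2 := by nlinarith
    have h5 : 0 ≤ 1 - 2 * v := by linarith
    calc (1 - 2 * v) ^ 2 = (1 - 2 * v) * (1 - 2 * v) := by ring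
      _ ≤ (1 - v) ^ 2 * g i.2 ^ 2 := mul_le_mul h4 h h5 (by positivity)
  have h6 : 1 - 2 * v ≤ (1 - v) * |g i.2| := by
    apply le_of_sq_le_sq h3
    have : 0 ≤ 1 - v := by linarith
    positivity
  rw [mul_comm]
  linarith

theorem nice_quoR (x : K) (B : C(F x, ℝ) → ℝ) (f : C(K, ℝ)) (hx : f x ≠ 0)
    (hB : Nice B (quo (F x) x f)) : Nice (fun g => B (quo (F x) x g)) f := by
  refine ⟨hB.1.comp f (contDiffAt_quo (F x) x f hx), ?_⟩
  obtain ⟨U, hU, E, hE, hl⟩ := hB.2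
  have hc : ContinuousAt (quo (F x) x) f := (contDiffAt_quo (F x) x f hx).continuousAt
  refine ⟨quo (F x) x ⁻¹' U, hc hU, {x} ∪ Subtype.val '' E, (finite_singleton x).union
    (hE.image _), ?_⟩
  intro g hg g' hg' hz
  show B (quo (F x) x g) = B (quo (F x) x g')
  apply hl _ hg _ hg'
  intro z hzE
  rw [quo_apply, quo_apply, hz x (Or.inl rfl), hz z (Or.inr ⟨z, hzE, rfl⟩)]

theorem facR_nice (hB : GoodR D r N B) (i : ℕ × K) (f : C(K, ℝ)) (hf : ∀ y ∈ D, |f y| < r) :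
    Nice (facR D N B i) f := by
  by_cases hi : i.2 ∈ D
  · apply (nice_const 1 f).congr
    exact Eventually.of_forall fun g => facR_mem hi g
  have hN3 : (3 : ℝ) ≤ N := by exact_mod_cast hB.hN
  have hpos : (3 : ℝ) ≤ (N : ℝ) + i.1 := by
    have : (0 : ℝ) ≤ (i.1 : ℝ) := Nat.cast_nonneg _
    linarith
  have hd : 2 / ((N : ℝ) + i.1) < 1 := by
    rw [div_lt_one (by linarith)]
    linarith
  by_cases h : f i.2 ^ 2 < 1 - 2 / ((N : ℝ) + i.1)
  · have h1 : ∀ᶠ g : C(K, ℝ) in 𝓝 f, g i.2 ^ 2 < 1 - 2 / ((N : ℝ) + i.1) := by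
      have hc : Continuous fun g : C(K, ℝ) => g i.2 ^ 2 := (contDiff_ev i.2).continuous.pow 2
      exact hc.continuousAt.eventually_lt continuousAt_const h
    apply (nice_const 1 f).congr
    filter_upwards [h1] with g hg
    exact facR_one_of_le hB i g hg.le
  · have h0 : f i.2 ≠ 0 := by
      intro h0
      apply h
      rw [h0]
      norm_num
      linarith
    have h1 : facR D N B i = fun g =>
        1 - Real.smoothTransition (((N : ℝ) + i.1) * (g i.2 ^ 2 - 1) + 2) *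
        B i.1 i.2 (quo (F i.2) i.2 g) := funext fun g => facR_notMem hi g
    rw [h1]
    apply Nice.one_sub
    apply Nice.mul
    · exact nice_ev i.2 (fun s => Real.smoothTransition (((N : ℝ) + i.1) * (s ^ 2 - 1) + 2)) f
        (Real.smoothTransition.contDiff.comp (by fun_prop))
    · apply nice_quoR i.2 (B i.1 i.2) f h0
      exact hB.nice i.1 i.2 hi _ (quo_small hB i f hf (not_lt.1 h))

omit [CompactSpace K] in
/-- if the factor is not one, then `g x ^ 2` is large and the values on `F x` are smaller -/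
theorem facR_ne_one (hB : GoodR D r N B) (i : ℕ × K) (g : C(K, ℝ)) (hgD : ∀ y ∈ D, |g y| < r)
    (h : facR D N B i g ≠ 1) :
    i.2 ∉ D ∧ 1 - 2 / ((N : ℝ) + i.1) < g i.2 ^ 2 ∧
      ∀ y ∈ F i.2, g y ^ 2 + g i.2 ^ 2 / (2 * ((N : ℝ) + i.1)) ≤ g i.2 ^ 2 := by
  have hi : i.2 ∉ D := fun hi => h (facR_mem hi g)
  have hN3 : (3 : ℝ) ≤ N := by exact_mod_cast hB.hN
  have hpos : (3 : ℝ) ≤ (N : ℝ) + i.1 := by
    have : (0 : ℝ) ≤ (i.1 : ℝ) := Nat.cast_nonneg _
    linarith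
  have hd : 2 / ((N : ℝ) + i.1) < 1 := by
    rw [div_lt_one (by linarith)]
    linarith
  have h1 : 1 - 2 / ((N : ℝ) + i.1) < g i.2 ^ 2 := by
    by_contra hcon
    exact h (facR_one_of_le hB i g (not_lt.1 hcon))
  refine ⟨hi, h1, fun y hy => ?_⟩
  have hx0 : g i.2 ≠ 0 := by
    intro h0
    rw [h0] at h1
    norm_num at h1
    linarith
  have h2 : ‖quo (F i.2) i.2 g‖ < 1 - 1 / (2 * ((N : ℝ) + i.1)) := by
    by_contra hcon
    apply h
    rw [facR_notMem hi, hB.zero i.1 i.2 hi _ (quo_small hB i g hgD h1.le) (not_lt.1 hcon)]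
    ring
  have h3 : ‖quo (F i.2) i.2 g ⟨y, hy⟩‖ < 1 - 1 / (2 * ((N : ℝ) + i.1)) :=
    lt_of_le_of_lt (ContinuousMap.norm_coe_le_norm _ _) h2
  rw [quo_apply, norm_mul, norm_inv, Real.norm_eq_abs, Real.norm_eq_abs] at h3
  have h4 : 0 < |g i.2| := abs_pos.2 hx0
  have h5 : |g y| ≤ (1 - 1 / (2 * ((N : ℝ) + i.1))) * |g i.2| := by
    have : |g y| = (|g i.2|⁻¹ * |g y|) * |g i.2| := by field_simp
    rw [this]
    gcongr
  have h6 : 0 < 1 / (2 * ((N : ℝ) + i.1)) := by positivity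
  have h7 : 1 / (2 * ((N : ℝ) + i.1)) < 1 := by
    rw [div_lt_one (by linarith)]
    linarith
  have h8 : g i.2 ^ 2 / (2 * ((N : ℝ) + i.1)) = (1 / (2 * ((N : ℝ) + i.1))) * g i.2 ^ 2 := by
    ring
  rw [h8, ← sq_abs (g y), ← sq_abs (g i.2)]
  set u := 1 / (2 * ((N : ℝ) + i.1)) with hu
  have h9 : |g y| ^ 2 ≤ ((1 - u) * |g i.2|) ^ 2 := pow_le_pow_left₀ (abs_nonneg _) h5 2
  have h10 : ((1 - u) * |g i.2|) ^ 2 ≤ (1 - u) * |g i.2| ^ 2 := by
    have : ((1 - u) * |g i.2|) ^ 2 = (1 - u) * ((1 - u) * |g i.2| ^ 2) := by ring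
    rw [this]
    have h11 : (1 - u) * |g i.2| ^ 2 ≤ 1 * |g i.2| ^ 2 := by gcongr; linarith
    have h12 : 0 ≤ 1 - u := by linarith
    calc (1 - u) * ((1 - u) * |g i.2| ^ 2) ≤ (1 - u) * (1 * |g i.2| ^ 2) := by gcongr
      _ = (1 - u) * |g i.2| ^ 2 := by ring
  nlinarith

/-- the condition on `D` is open -/
theorem open_cond (hD : IsClosed D) (f : C(K, ℝ)) (hf : ∀ y ∈ D, |f y| < r) :
    ∀ᶠ g : C(K, ℝ) in 𝓝 f, ∀ y ∈ D, |g y| < r := by
  rcases D.eq_empty_or_nonempty with h0 | h0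
  · subst h0
    exact Eventually.of_forall fun g y hy => hy.elim
  · obtain ⟨z, hz, hmax⟩ := hD.isCompact.exists_isMaxOn h0 f.continuous.abs.continuousOn
    have hd : 0 < r - |f z| := by
      have := hf z hz
      linarith
    filter_upwards [Metric.ball_mem_nhds f hd] with g hg y hy
    have h1 : ‖g - f‖ < r - |f z| := by
      rw [← dist_eq_norm]; exact hg
    have h2 := abs_ev_le (g - f) y
    rw [ContinuousMap.sub_apply] at h2
    have h3 : |f y| ≤ |f z| := hmax hy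
    have h4 : |g y| ≤ |f y| + |g y - f y| := by
      calc |g y| = |f y + (g y - f y)| := by congr 1; ring
        _ ≤ _ := abs_add_le _ _
    linarith

/-- local finiteness inside the open unit ball -/
theorem locfinR (hD : IsClosed D) (hF : SysR K D F) (hB : GoodR D r N B) (f : C(K, ℝ))
    (hfD : ∀ y ∈ D, |f y| < r) (hf : ‖f‖ < 1) :
    ∃ T : Finset (ℕ × K), ∀ᶠ g in 𝓝 f, ∀ i, i ∉ T → facR D N B i g = 1 := by
  have hN3 : (3 : ℝ) ≤ N := by exact_mod_cast hB.hN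
  have hr0 := hB.r0
  have hr1 := hB.r1
  have hr := hB.hr
  set ρ : ℝ := (1 + ‖f‖) / 2 with hρ
  have hρ1 : ρ < 1 := by rw [hρ]; linarith
  have hρ0 : 0 < ρ := by rw [hρ]; have := norm_nonneg f; linarith
  have hρ2 : 0 < 1 - ρ ^ 2 := by nlinarith
  obtain ⟨J, hJ⟩ := exists_nat_gt (2 / (1 - ρ ^ 2))
  have hJ0 : (0 : ℝ) ≤ J := Nat.cast_nonneg _
  have hM : (0 : ℝ) < (N : ℝ) + J := by linarith
  set c : ℝ := min (1 / (18 * ((N : ℝ) + J))) ((1 - r) / 2) with hc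
  have hc0 : 0 < c := lt_min (by positivity) (by linarith)
  have hc1 : c ≤ 1 / (18 * ((N : ℝ) + J)) := min_le_left _ _
  have hc2 : c ≤ (1 - r) / 2 := min_le_right _ _
  have hfin := fin_setR hF f hc0 (m := r) (fun y hy => by
    have h1 := hfD y hy
    rw [← sq_abs]
    nlinarith [abs_nonneg (f y)])
  refine ⟨Finset.range J ×ˢ hfin.toFinset, ?_⟩
  have hd0 : 0 < min (c / 2) ((1 - ‖f‖) / 2) := lt_min (by linarith) (by linarith)
  filter_upwards [Metric.ball_mem_nhds f hd0, open_cond hD f hfD] with g hg hgD i hi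
  by_contra hne
  apply hi
  obtain ⟨hiD, h1, h2⟩ := facR_ne_one hB i g hgD hne
  have hgf : ‖g - f‖ < min (c / 2) ((1 - ‖f‖) / 2) := by
    rw [← dist_eq_norm]; exact hg
  have hgf1 : ‖g - f‖ < c / 2 := lt_of_lt_of_le hgf (min_le_left _ _)
  have hgf2 : ‖g - f‖ < (1 - ‖f‖) / 2 := lt_of_lt_of_le hgf (min_le_right _ _)
  have hgn : ‖g‖ < ρ := by
    have : ‖g‖ ≤ ‖f‖ + ‖g - f‖ := by
      calc ‖g‖ = ‖f + (g - f)‖ := by congr 1; abel
        _ ≤ _ := norm_add_le _ _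
    rw [hρ]; linarith
  have hk : (0 : ℝ) ≤ (i.1 : ℝ) := Nat.cast_nonneg _
  have hm : 0 < (N : ℝ) + i.1 := by linarith
  have hsq : ∀ z, |g z ^ 2 - f z ^ 2| ≤ c := by
    intro z
    have e1 : g z ^ 2 - f z ^ 2 = (g z - f z) * (g z + f z) := by ring
    rw [e1, abs_mul]
    have e2 : |g z - f z| ≤ c / 2 := by
      have := abs_ev_le (g - f) z
      rw [ContinuousMap.sub_apply] at this
      linarith
    have e3 : |g z + f z| ≤ 2 := by
      have e4 := abs_add_le (g z) (f z)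
      have e5 := abs_ev_le g z
      have e6 := abs_ev_le f z
      linarith
    calc |g z - f z| * |g z + f z| ≤ (c / 2) * 2 := by
          apply mul_le_mul e2 e3 (abs_nonneg _) (by linarith)
      _ = c := by ring
  have hx1 : g i.2 ^ 2 < ρ ^ 2 := by
    rw [← sq_abs]
    exact pow_lt_pow_left₀ (lt_of_le_of_lt (abs_ev_le g i.2) hgn) (abs_nonneg _) (by norm_num)
  have hiJ : i.1 < J := by
    have e1 : 1 - ρ ^ 2 < 2 / ((N : ℝ) + i.1) := by linarith
    rw [lt_div_iff₀ hm] at e1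
    rw [div_lt_iff₀ hρ2] at hJ
    have e2 : (1 - ρ ^ 2) * ((N : ℝ) + i.1) < (1 - ρ ^ 2) * J := by linarith
    have e3 : (N : ℝ) + i.1 < J := lt_of_mul_lt_mul_left e2 hρ2.le
    have e4 : (i.1 : ℝ) < J := by linarith
    exact_mod_cast e4
  rw [Finset.mem_product]
  refine ⟨Finset.mem_range.2 hiJ, ?_⟩
  rw [Set.Finite.mem_toFinset]
  have h6 := abs_le.1 (hsq i.2)
  have hN2 : 2 / ((N : ℝ) + i.1) ≤ 2 / (N : ℝ) := by
    apply div_le_div_of_nonneg_left (by norm_num) (by linarith)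
    linarith
  refine ⟨by linarith [h6.1, h6.2], ?_⟩
  intro y hy
  have hg3 : 1 / 3 ≤ g i.2 ^ 2 := by
    have e1 : 2 / ((N : ℝ) + i.1) ≤ 2 / 3 := by
      apply div_le_div_of_nonneg_left (by norm_num) (by norm_num)
      linarith
    linarith
  have h3 := h2 y hy
  have h4 : 3 * c ≤ g i.2 ^ 2 / (2 * ((N : ℝ) + i.1)) := by
    have e1 : 3 * (1 / (18 * ((N : ℝ) + J))) = (1 / 3) / (2 * ((N : ℝ) + J)) := by
      field_simp; norm_num
    have e3 : 3 * c ≤ (1 / 3) / (2 * ((N : ℝ) + J)) := by rw [← e1]; linarith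
    refine e3.trans ?_
    have e2 : (i.1 : ℝ) ≤ J := by exact_mod_cast hiJ.le
    gcongr
  have h5 := abs_le.1 (hsq y)
  linarith [h5.1, h5.2, h6.1, h6.2]

/-- a factor vanishes near a point of the unit sphere -/
theorem sphereR (hF : SysR K D F) (hB : GoodR D r N B) (f : C(K, ℝ)) (hfD : ∀ y ∈ D, |f y| < r)
    (hf : ‖f‖ = 1) : ∃ i : ℕ × K, ∀ᶠ g in 𝓝 f, facR D N B i g = 0 := by
  have hN3 : (3 : ℝ) ≤ N := by exact_mod_cast hB.hN
  have hM : ∃ x, |f x| = 1 := by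
    by_contra hcon
    push Not at hcon
    have : ‖f‖ < 1 := by
      rw [ContinuousMap.norm_lt_iff f one_pos]
      intro x
      rw [Real.norm_eq_abs]
      exact lt_of_le_of_ne (hf ▸ abs_ev_le f x) (hcon x)
    linarith
  obtain ⟨x, hxM, hx⟩ := hF.top {x | |f x| = 1}
    (isClosed_eq f.continuous.abs continuous_const) hM (by
      intro x hx hxD
      have h1 : |f x| = 1 := hx
      have h2 := hfD x hxD
      have h3 := hB.r1
      linarith)
  have hx1 : |f x| = 1 := hxM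
  have hxD : x ∉ D := by
    intro hxD
    have h2 := hfD x hxD
    have h3 := hB.r1
    linarith
  have hs : ‖f.restrict (F x)‖ < 1 := by
    rw [ContinuousMap.norm_lt_iff _ one_pos]
    intro y
    rw [Real.norm_eq_abs]
    exact lt_of_le_of_ne (hf ▸ abs_ev_le f y) (hx y y.2)
  set s : ℝ := ‖f.restrict (F x)‖ with hsdef
  have hs0 : 0 ≤ s := norm_nonneg _
  obtain ⟨k, hk⟩ := exists_nat_gt (2 / (1 - s))
  have hk0 : (0 : ℝ) ≤ (k : ℝ) := Nat.cast_nonneg _
  have hm : 0 < (N : ℝ) + k := by linarith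
  have hkm : 1 / ((N : ℝ) + k) ≤ (1 - s) / 2 := by
    rw [div_lt_iff₀ (by linarith)] at hk
    rw [div_le_div_iff₀ hm (by norm_num)]
    nlinarith
  set v : ℝ := 1 / ((N : ℝ) + k) with hv
  have hv0 : 0 < v := by positivity
  refine ⟨(k, x), ?_⟩
  have hd0 : 0 < min ((1 - s) / 4) (v / 2) := lt_min (by linarith) (by linarith)
  filter_upwards [Metric.ball_mem_nhds f hd0] with g hg
  have hgf : ‖g - f‖ < min ((1 - s) / 4) (v / 2) := by
    rw [← dist_eq_norm]; exact hg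
  have hgf1 : ‖g - f‖ < (1 - s) / 4 := lt_of_lt_of_le hgf (min_le_left _ _)
  have hgf2 : ‖g - f‖ < v / 2 := lt_of_lt_of_le hgf (min_le_right _ _)
  have hdiff : ∀ z, |g z - f z| ≤ ‖g - f‖ := fun z => by
    have := abs_ev_le (g - f) z
    rwa [ContinuousMap.sub_apply] at this
  have hgx : 1 - ‖g - f‖ ≤ |g x| := by
    have e1 : |f x| ≤ |g x| + |g x - f x| := by
      have e2 : f x = g x - (g x - f x) := by ring
      calc |f x| = |g x - (g x - f x)| := by rw [← e2]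
        _ ≤ _ := abs_sub _ _
    have := hdiff x
    linarith
  have hgx0 : 0 < |g x| := by linarith
  have h1 : facR D N B (k, x) g =
    1 - Real.smoothTransition (((N : ℝ) + k) * (g x ^ 2 - 1) + 2) *
    B k x (quo (F x) x g) := facR_notMem (i := (k, x)) hxD g
  rw [h1, Real.smoothTransition.one_of_one_le, hB.one k x hxD]
  · ring
  · rw [ContinuousMap.norm_le]
    · intro y
      rw [quo_apply, norm_mul, norm_inv, Real.norm_eq_abs, Real.norm_eq_abs]
      have e1 : |g y| ≤ s + ‖g - f‖ := by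
        have e2 : |g y| ≤ |f y| + |g y - f y| := by
          calc |g y| = |f y + (g y - f y)| := by congr 1; ring
            _ ≤ _ := abs_add_le _ _
        have e3 : |f y| ≤ s := by
          rw [hsdef, ← Real.norm_eq_abs]
          exact (f.restrict (F x)).norm_coe_le_norm y
        have := hdiff y
        linarith
      rw [inv_mul_le_iff₀ hgx0]
      have hv1 : v ≤ 1 := by
        rw [hv, div_le_one hm]
        linarith
      have e4 : (1 - v) * (1 - ‖g - f‖) ≤ (1 - v) * |g x| := by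
        apply mul_le_mul_of_nonneg_left hgx
        linarith
      have hn := norm_nonneg (g - f)
      rw [mul_comm]
      nlinarith
    · have hv1 : v ≤ 1 := by
        rw [hv, div_le_one hm]
        linarith
      linarith
  · have e1 : 1 - v ≤ g x ^ 2 := by
      rw [← sq_abs]
      have e2 : (1 - ‖g - f‖) ^ 2 ≤ |g x| ^ 2 := by
        apply pow_le_pow_left₀ _ hgx
        linarith [norm_nonneg (f.restrict (F x))]
      nlinarith [norm_nonneg (g - f)]
    have e3 : ((N : ℝ) + k) * v = 1 := by rw [hv]; field_simp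
    nlinarith

/-- the product -/
noncomputable def prdR (D : Set K) (N : ℕ) (B : ∀ (_ : ℕ) (x : K), C(F x, ℝ) → ℝ)
    (g : C(K, ℝ)) : ℝ := by
  classical
  exact if ‖g‖ < 1 then ∏ᶠ i : ℕ × K, facR D N B i g else 0

omit hcl in
theorem prdR_of_lt (g : C(K, ℝ)) (h : ‖g‖ < 1) :
    prdR D N B g = ∏ᶠ i : ℕ × K, facR D N B i g := by
  unfold prdR
  exact if_pos h

omit hcl in
theorem prdR_of_ge (g : C(K, ℝ)) (h : 1 ≤ ‖g‖) : prdR D N B g = 0 := by
  unfold prdR
  exact if_neg (not_lt.2 h)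

theorem supp_finR (hD : IsClosed D) (hF : SysR K D F) (hB : GoodR D r N B) (g : C(K, ℝ))
    (hgD : ∀ y ∈ D, |g y| < r) (hg : ‖g‖ < 1) :
    (Function.mulSupport fun i : ℕ × K => facR D N B i g).Finite := by
  obtain ⟨T, hT⟩ := locfinR hD hF hB g hgD hg
  apply T.finite_toSet.subset
  intro i hi
  by_contra hcon
  exact hi (hT.self_of_nhds i hcon)

theorem prdR_nice (hD : IsClosed D) (hF : SysR K D F) (hB : GoodR D r N B) (f : C(K, ℝ))
    (hfD : ∀ y ∈ D, |f y| < r) : Nice (prdR D N B) f := by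
  rcases lt_trichotomy ‖f‖ 1 with hf | hf | hf
  · obtain ⟨T, hT⟩ := locfinR hD hF hB f hfD hf
    have h1 : ∀ᶠ g : C(K, ℝ) in 𝓝 f, ‖g‖ < 1 :=
      continuous_norm.continuousAt.eventually_lt continuousAt_const hf
    apply (nice_prod T (facR D N B) f fun i _ => facR_nice hB i f hfD).congr
    filter_upwards [hT, h1] with g hg hg1
    rw [prdR_of_lt g hg1]
    apply finprod_eq_prod_of_mulSupport_subset
    intro i hi
    by_contra hcon
    exact hi (hg i hcon)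
  · obtain ⟨i, hi⟩ := sphereR hF hB f hfD hf
    apply (nice_const 0 f).congr
    filter_upwards [hi, open_cond hD f hfD] with g hg hgD
    by_cases hg1 : ‖g‖ < 1
    · rw [prdR_of_lt g hg1]
      exact finprod_eq_zero _ i hg (supp_finR hD hF hB g hgD hg1)
    · exact prdR_of_ge g (not_lt.1 hg1)
  · apply (nice_const 0 f).congr
    have h1 : ∀ᶠ g : C(K, ℝ) in 𝓝 f, 1 < ‖g‖ :=
      continuousAt_const.eventually_lt continuous_norm.continuousAt hf
    filter_upwards [h1] with g hg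
    exact prdR_of_ge g hg.le

theorem prdR_rng (hB : GoodR D r N B) (g : C(K, ℝ)) :
    0 ≤ prdR D N B g ∧ prdR D N B g ≤ 1 := by
  by_cases hg : ‖g‖ < 1
  · rw [prdR_of_lt g hg]
    by_cases hs : (Function.mulSupport fun i : ℕ × K => facR D N B i g).Finite
    · rw [finprod_eq_prod _ hs]
      exact ⟨Finset.prod_nonneg fun i _ => (facR_rng hB i g).1,
        Finset.prod_le_one (fun i _ => (facR_rng hB i g).1) fun i _ => (facR_rng hB i g).2⟩
    · rw [finprod_of_infinite_mulSupport hs]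
      exact ⟨zero_le_one, le_rfl⟩
  · rw [prdR_of_ge g (not_lt.1 hg)]
    exact ⟨le_rfl, zero_le_one⟩

theorem prdR_one (hB : GoodR D r N B) (g : C(K, ℝ)) (hg : ‖g‖ ≤ r) : prdR D N B g = 1 := by
  have hN3 : (3 : ℝ) ≤ N := by exact_mod_cast hB.hN
  have hr0 := hB.r0
  have hr1 := hB.r1
  have hr := hB.hr
  rw [prdR_of_lt g (by linarith)]
  apply finprod_eq_one_of_forall_eq_one
  intro i
  apply facR_one_of_le hB
  have h2 : g i.2 ^ 2 ≤ r ^ 2 := by
    rw [← sq_abs]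
    exact pow_le_pow_left₀ (abs_nonneg _) ((abs_ev_le g i.2).trans hg) 2
  have h3 : 2 / ((N : ℝ) + i.1) ≤ 2 / (N : ℝ) := by
    apply div_le_div_of_nonneg_left (by norm_num) (by linarith)
    have : (0 : ℝ) ≤ (i.1 : ℝ) := Nat.cast_nonneg _
    linarith
  nlinarith

end main

/-- the case where all `F x` are closed -/
theorem perm_sys0 (K : Type u) [TopologicalSpace K] [CompactSpace K] (D : Set K)
    (hD : IsClosed D) (F : K → Set K) (hF : SysR K D F) (hcl : ∀ x, IsClosed (F x))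
    (hB : ∀ x, x ∉ D → @RelBumps (F x) _
      (isCompact_iff_compactSpace.1 (hcl x).isCompact) (Subtype.val ⁻¹' D)) :
    RelBumps K D := by
  haveI hcs : ∀ x, CompactSpace (F x) := fun x =>
    isCompact_iff_compactSpace.1 (hcl x).isCompact
  intro p q hp hpq
  have hq : 0 < q := hp.trans hpq
  set r : ℝ := p / q with hrdef
  have hr0 : 0 < r := by positivity
  have hr1 : r < 1 := by rw [hrdef, div_lt_one hq]; exact hpq
  obtain ⟨J, hJ⟩ := exists_nat_gt (4 / (1 - r))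
  set N : ℕ := J + 3 with hN
  have hN3 : (3 : ℝ) ≤ N := by
    have : (3 : ℕ) ≤ N := by omega
    exact_mod_cast this
  have hm : ∀ k : ℕ, (3 : ℝ) ≤ (N : ℝ) + k := fun k => by
    have : (0 : ℝ) ≤ (k : ℝ) := Nat.cast_nonneg _
    linarith
  have hrN : 2 / (N : ℝ) ≤ (1 - r) / 2 := by
    rw [div_lt_iff₀ (by linarith)] at hJ
    rw [div_le_div_iff₀ (by linarith) (by norm_num)]
    have h4 : (J : ℝ) ≤ N := by
      have : J ≤ N := by omega
      exact_mod_cast this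
    nlinarith
  have hex : ∀ (k : ℕ) (x : K), ∃ b : C(F x, ℝ) → ℝ, x ∉ D →
      (∀ f, (∀ y ∈ (Subtype.val ⁻¹' D : Set (F x)), |f y| < 1 - 1 / ((N : ℝ) + k)) →
        ContDiffAt ℝ (⊤ : ℕ∞) b f ∧ Loc b f) ∧
      (∀ f, 0 ≤ b f ∧ b f ≤ 1) ∧ (∀ f, ‖f‖ ≤ 1 - 1 / ((N : ℝ) + k) → b f = 1) ∧
      ∀ f, (∀ y ∈ (Subtype.val ⁻¹' D : Set (F x)), |f y| < 1 - 1 / ((N : ℝ) + k)) →
        1 - 1 / (2 * ((N : ℝ) + k)) ≤ ‖f‖ → b f = 0 := by
    intro k x
    by_cases hx : x ∈ D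
    · exact ⟨fun _ => 0, fun h => (h hx).elim⟩
    have h1 := hm k
    have h2 : 1 / ((N : ℝ) + k) < 1 := by
      rw [div_lt_one (by linarith)]
      linarith
    have h3 : 1 / (2 * ((N : ℝ) + k)) < 1 / ((N : ℝ) + k) := by
      apply div_lt_div_of_pos_left one_pos (by linarith)
      linarith
    obtain ⟨b, hb⟩ := hB x hx (1 - 1 / ((N : ℝ) + k)) (1 - 1 / (2 * ((N : ℝ) + k)))
      (by linarith) (by linarith)
    exact ⟨b, fun _ => hb⟩
  choose B hB' using hex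
  have hG : GoodR D r N B := by
    refine ⟨by omega, hr0, hr1, hrN, ?_, ?_, ?_, ?_⟩
    · intro k x hx f hf
      exact (hB' k x hx).1 f fun y hy => hf y hy
    · intro k x hx f
      exact (hB' k x hx).2.1 f
    · intro k x hx f hf
      exact (hB' k x hx).2.2.1 f hf
    · intro k x hx f hf hf'
      exact (hB' k x hx).2.2.2 f (fun y hy => hf y hy) hf'
  have hnorm : ∀ f : C(K, ℝ), ‖q⁻¹ • f‖ = ‖f‖ / q := fun f => by
    rw [norm_smul, norm_inv, Real.norm_of_nonneg hq.le]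
    field_simp
  have hcond : ∀ f : C(K, ℝ), (∀ y ∈ D, |f y| < p) → ∀ y ∈ D, |(q⁻¹ • f) y| < r := by
    intro f hf y hy
    rw [ContinuousMap.smul_apply, smul_eq_mul, abs_mul, abs_inv, abs_of_pos hq,
      inv_mul_lt_iff₀ hq, hrdef, mul_div_cancel₀ _ hq.ne']
    exact hf y hy
  refine ⟨fun f => prdR D N B (q⁻¹ • f), ?_, ?_, ?_, ?_⟩
  · intro f hf
    obtain ⟨h1, h2⟩ := prdR_nice hD hF hG (q⁻¹ • f) (hcond f hf)
    refine ⟨h1.comp f (contDiff_const_smul _).contDiffAt, ?_⟩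
    obtain ⟨U, hU, E, hE, hl⟩ := h2
    have hc : Continuous fun g : C(K, ℝ) => q⁻¹ • g := continuous_const_smul _
    refine ⟨(fun g : C(K, ℝ) => q⁻¹ • g) ⁻¹' U, hc.continuousAt hU, E, hE, ?_⟩
    intro g hg g' hg' hz
    apply hl _ hg _ hg'
    intro z hzE
    rw [ContinuousMap.smul_apply, ContinuousMap.smul_apply, hz z hzE]
  · intro f
    exact prdR_rng hG _
  · intro f hf
    apply prdR_one hG
    rw [hnorm, hrdef]
    gcongr
  · intro f _ hf
    apply prdR_of_ge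
    rw [hnorm, le_div_iff₀ hq]
    linarith

theorem perm_sys (K : Type u) [TopologicalSpace K] [CompactSpace K] (D : Set K)
    (hD : IsClosed D) (F : K → Set K) (hF : SysR K D F)
    (hB : ∀ x (hx : x ∉ D), @RelBumps (F x) _
      (isCompact_iff_compactSpace.1 (hF.closed x hx).isCompact) (Subtype.val ⁻¹' D)) :
    RelBumps K D := by
  classical
  let F' : K → Set K := fun x => if x ∈ D then ∅ else F x
  have h1 : ∀ x, x ∉ D → F' x = F x := fun x hx => if_neg hx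
  have h2 : ∀ x, IsClosed (F' x) := by
    intro x
    by_cases hx : x ∈ D
    · have : F' x = ∅ := if_pos hx
      rw [this]
      exact isClosed_empty
    · rw [h1 x hx]
      exact hF.closed x hx
  have h3 : SysR K D F' := by
    refine ⟨fun x _ => h2 x, ?_, ?_⟩
    · intro A U hA hU hAU hAD
      refine (hF.fin A U hA hU hAU hAD).subset ?_
      rintro x ⟨hxA, hx⟩
      refine ⟨hxA, ?_⟩
      rw [h1 x (hAD x hxA)] at hx
      exact hx
    · intro M hM hne hMD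
      obtain ⟨x, hxM, hx⟩ := hF.top M hM hne hMD
      refine ⟨x, hxM, ?_⟩
      rw [h1 x (hMD x hxM)]
      exact hx
  apply perm_sys0 K D hD F' h3 h2
  intro x hx
  have key : ∀ (S : Set K) (hS : IsClosed S), S = F x →
      @RelBumps S _ (isCompact_iff_compactSpace.1 hS.isCompact) (Subtype.val ⁻¹' D) := by
    rintro S hS rfl
    exact hB x hx
  exact key (F' x) (h2 x) (h1 x hx)

end Pool.Agent.CKT
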