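import Pool.Agent.CKT.Defs2
import Pool.Agent.CKT.Perm2

/-!
# Soundness of the rule `sysp` (reference systems of pieces) and of the base case
-/

set_option autoImplicit false

open Set Filter Topology

namespace Pool.Agent.CKT

universe u v

section pieces

variable {K : Type u} [TopologicalSpace K] [CompactSpace K]

/-- restriction of a nice function -/
theorem Nice.restrict {S : Set K} [CompactSpace S] {b : C(S, ℝ) → ℝ} {f : C(K, ℝ)}
    (h : Nice b (f.restrict S)) : Nice (fun g => b (g.restrict S)) f := by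
  refine ⟨h.1.comp f (contDiff_restrict S).contDiffAt, ?_⟩
  obtain ⟨U, hU, E, hE, hl⟩ := h.2
  have hc : Continuous fun g : C(K, ℝ) => g.restrict S := (contDiff_restrict S).continuous
  refine ⟨(fun g : C(K, ℝ) => g.restrict S) ⁻¹' U, hc.continuousAt hU, Subtype.val '' E,
    hE.image _, ?_⟩
  intro g hg g' hg' hz
  apply hl _ hg _ hg'
  intro z hzE
  exact hz z ⟨z, hzE, rfl⟩

/-- the norm of the restriction is small near `f` if it is at `f` -/
theorem restr_lt {S : Set K} [CompactSpace S] {f : C(K, ℝ)} {s : ℝ} (h : ‖f.restrict S‖ < s) :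
    ∀ᶠ g : C(K, ℝ) in 𝓝 f, ‖g.restrict S‖ < s := by
  have hc : Continuous fun g : C(K, ℝ) => ‖g.restrict S‖ :=
    continuous_norm.comp (contDiff_restrict S).continuous
  exact hc.continuousAt.eventually_lt continuousAt_const h

theorem lt_restr {S : Set K} [CompactSpace S] {f : C(K, ℝ)} {s : ℝ} (h : s < ‖f.restrict S‖) :
    ∀ᶠ g : C(K, ℝ) in 𝓝 f, s < ‖g.restrict S‖ := by
  have hc : Continuous fun g : C(K, ℝ) => ‖g.restrict S‖ :=
    continuous_norm.comp (contDiff_restrict S).continuous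
  exact continuousAt_const.eventually_lt hc.continuousAt h

omit [CompactSpace K] in
theorem abs_le_restr {S : Set K} [CompactSpace S] (f : C(K, ℝ)) {x : K} (hx : x ∈ S) :
    |f x| ≤ ‖f.restrict S‖ := by
  rw [← Real.norm_eq_abs]
  exact (f.restrict S).norm_coe_le_norm ⟨x, hx⟩

theorem restr_le_norm {S : Set K} [CompactSpace S] (f : C(K, ℝ)) : ‖f.restrict S‖ ≤ ‖f‖ := by
  rw [ContinuousMap.norm_le _ (norm_nonneg f)]
  intro x
  exact f.norm_coe_le_norm x

omit [CompactSpace K] in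
/-- if the norm of the restriction is larger than `s ≥ 0`, a point of `S` has a larger value -/
theorem exists_of_lt_restr {S : Set K} [CompactSpace S] {f : C(K, ℝ)} {s : ℝ} (hs : 0 ≤ s)
    (h : s < ‖f.restrict S‖) : ∃ x ∈ S, s < |f x| := by
  by_contra hcon
  push Not at hcon
  have : ‖f.restrict S‖ ≤ s := by
    rw [ContinuousMap.norm_le _ hs]
    intro x
    rw [Real.norm_eq_abs]
    exact hcon x x.2
  linarith

theorem restr_diff {S : Set K} [CompactSpace S] (f g : C(K, ℝ)) :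
    ‖f.restrict S‖ ≤ ‖g.restrict S‖ + ‖g - f‖ := by
  rw [ContinuousMap.norm_le _ (by positivity)]
  intro x
  have h1 := abs_le_restr (S := S) g x.2
  have h2 := abs_ev_le (g - f) x.1
  rw [ContinuousMap.sub_apply] at h2
  rw [Real.norm_eq_abs]
  have h3 : |f x.1| ≤ |g x.1| + |g x.1 - f x.1| := by
    calc |f x.1| = |g x.1 - (g x.1 - f x.1)| := by congr 1; ring
      _ ≤ _ := abs_sub _ _
  have h4 : (f.restrict S) x = f x.1 := rfl
  rw [h4]
  linarith

end pieces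

section main

variable {K : Type u} [TopologicalSpace K] [CompactSpace K] {D : Set K} {ι : Type u}
  {Y F : ι → Set K} [hcY : ∀ j, CompactSpace (Y j)] [hcF : ∀ j, CompactSpace (F j)]

/-- the properties of the bumps of the pieces, `m = k + 1` -/
structure GoodP (D : Set K) (p q d : ℝ) (a : ∀ (_ : ℕ) (j : ι), C(Y j, ℝ) → ℝ)
    (b : ∀ (_ : ℕ) (j : ι), C(F j, ℝ) → ℝ) : Prop where
  hp : 0 < p
  hd : 0 < d
  hpq : p < q - 4 * d
  anice : ∀ (k : ℕ) j (f : C(Y j, ℝ)),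
    (∀ y : Y j, ((y : K) ∈ F j ∨ (y : K) ∈ D) → |f y| < q - 2 * d / ((k : ℝ) + 1)) →
    Nice (a k j) f
  arng : ∀ k j f, 0 ≤ a k j f ∧ a k j f ≤ 1
  aone : ∀ (k : ℕ) j (f : C(Y j, ℝ)), ‖f‖ ≤ q - 2 * d / ((k : ℝ) + 1) → a k j f = 1
  azero : ∀ (k : ℕ) j (f : C(Y j, ℝ)),
    (∀ y : Y j, ((y : K) ∈ F j ∨ (y : K) ∈ D) → |f y| < q - 2 * d / ((k : ℝ) + 1)) →
    q - d / ((k : ℝ) + 1) ≤ ‖f‖ → a k j f = 0
  bnice : ∀ (k : ℕ) j (f : C(F j, ℝ)),
    (∀ y : F j, (y : K) ∈ D → |f y| < q - 4 * d / ((k : ℝ) + 1)) → Nice (b k j) f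
  brng : ∀ k j f, 0 ≤ b k j f ∧ b k j f ≤ 1
  bone : ∀ (k : ℕ) j (f : C(F j, ℝ)), ‖f‖ ≤ q - 4 * d / ((k : ℝ) + 1) → b k j f = 1
  bzero : ∀ (k : ℕ) j (f : C(F j, ℝ)),
    (∀ y : F j, (y : K) ∈ D → |f y| < q - 4 * d / ((k : ℝ) + 1)) →
    q - 3 * d / ((k : ℝ) + 1) ≤ ‖f‖ → b k j f = 0

/-- the factor of index `(k, j)` -/
noncomputable def facP (a : ∀ (_ : ℕ) (j : ι), C(Y j, ℝ) → ℝ)
    (b : ∀ (_ : ℕ) (j : ι), C(F j, ℝ) → ℝ) (i : ℕ × ι) (g : C(K, ℝ)) : ℝ :=
  1 - (1 - a i.1 i.2 (g.restrict (Y i.2))) * b i.1 i.2 (g.restrict (F i.2))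

variable {p q d : ℝ} {a : ∀ (_ : ℕ) (j : ι), C(Y j, ℝ) → ℝ} {b : ∀ (_ : ℕ) (j : ι), C(F j, ℝ) → ℝ}

omit [CompactSpace K] in
theorem win (hB : GoodP D p q d a b) (k : ℕ) : p < q - 4 * d / ((k : ℝ) + 1) ∧
    q - 4 * d / ((k : ℝ) + 1) < q - 3 * d / ((k : ℝ) + 1) ∧
    q - 3 * d / ((k : ℝ) + 1) < q - 2 * d / ((k : ℝ) + 1) ∧
    q - 2 * d / ((k : ℝ) + 1) < q - d / ((k : ℝ) + 1) ∧ q - d / ((k : ℝ) + 1) < q := by
  have hd := hB.hd
  have h1 := hB.hpq
  have hk : (0 : ℝ) < (k : ℝ) + 1 := by positivity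
  have h2 : 0 < d / ((k : ℝ) + 1) := by positivity
  have h3 : d / ((k : ℝ) + 1) ≤ d := by
    rw [div_le_iff₀ hk]
    have : (0 : ℝ) ≤ (k : ℝ) := Nat.cast_nonneg k
    nlinarith
  have e4 : 4 * d / ((k : ℝ) + 1) = 4 * (d / ((k : ℝ) + 1)) := by ring
  have e3 : 3 * d / ((k : ℝ) + 1) = 3 * (d / ((k : ℝ) + 1)) := by ring
  have e2 : 2 * d / ((k : ℝ) + 1) = 2 * (d / ((k : ℝ) + 1)) := by ring
  rw [e4, e3, e2]
  refine ⟨?_, ?_, ?_, ?_, ?_⟩ <;> linarith

omit [CompactSpace K] in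
theorem facP_rng (hB : GoodP D p q d a b) (i : ℕ × ι) (g : C(K, ℝ)) :
    0 ≤ facP a b i g ∧ facP a b i g ≤ 1 := by
  obtain ⟨h1, h2⟩ := hB.arng i.1 i.2 (g.restrict (Y i.2))
  obtain ⟨h3, h4⟩ := hB.brng i.1 i.2 (g.restrict (F i.2))
  unfold facP
  constructor
  · nlinarith
  · nlinarith [mul_nonneg (sub_nonneg.2 h2) h3]

theorem facP_nice (hD : IsClosed D) (hB : GoodP D p q d a b) (i : ℕ × ι) (f : C(K, ℝ))
    (hf : ∀ y ∈ D, |f y| < p) : Nice (facP a b i) f := by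
  obtain ⟨w1, w2, w3, w4, w5⟩ := win hB i.1
  have hb : Nice (fun g : C(K, ℝ) => b i.1 i.2 (g.restrict (F i.2))) f :=
    (hB.bnice i.1 i.2 _ fun y hy => (hf y hy).trans w1).restrict
  by_cases h : ‖f.restrict (F i.2)‖ < q - 2 * d / ((i.1 : ℝ) + 1)
  · have ha : Nice (fun g : C(K, ℝ) => a i.1 i.2 (g.restrict (Y i.2))) f := by
      apply Nice.restrict
      apply hB.anice
      rintro y (hy | hy)
      · exact lt_of_le_of_lt (abs_le_restr f hy) h
      · exact (hf y hy).trans (w1.trans (w2.trans w3))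
    exact (ha.one_sub.mul hb).one_sub
  · have h1 : q - 3 * d / ((i.1 : ℝ) + 1) < ‖f.restrict (F i.2)‖ :=
      lt_of_lt_of_le w3 (not_lt.1 h)
    apply (nice_const 1 f).congr
    filter_upwards [lt_restr h1, open_cond hD f hf] with g hg hgD
    show 1 - (1 - a i.1 i.2 (g.restrict (Y i.2))) * b i.1 i.2 (g.restrict (F i.2)) = 1
    rw [hB.bzero i.1 i.2 _ (fun y hy => (hgD y hy).trans w1) hg.le]
    ring

omit [CompactSpace K] in
theorem facP_ne_one (hB : GoodP D p q d a b) (i : ℕ × ι) (g : C(K, ℝ))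
    (hgD : ∀ y ∈ D, |g y| < p) (h : facP a b i g ≠ 1) :
    q - 2 * d / ((i.1 : ℝ) + 1) < ‖g.restrict (Y i.2)‖ ∧
      ‖g.restrict (F i.2)‖ < q - 3 * d / ((i.1 : ℝ) + 1) := by
  obtain ⟨w1, w2, w3, w4, w5⟩ := win hB i.1
  constructor
  · by_contra hcon
    apply h
    show 1 - (1 - a i.1 i.2 (g.restrict (Y i.2))) * b i.1 i.2 (g.restrict (F i.2)) = 1
    rw [hB.aone i.1 i.2 _ (not_lt.1 hcon)]
    ring
  · by_contra hcon
    apply h
    show 1 - (1 - a i.1 i.2 (g.restrict (Y i.2))) * b i.1 i.2 (g.restrict (F i.2)) = 1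
    rw [hB.bzero i.1 i.2 _ (fun y hy => (hgD y hy).trans w1) (not_lt.1 hcon)]
    ring

/-- local finiteness inside the open ball of radius `q` -/
theorem locfinP (hD : IsClosed D) (hS : SysP K D ι Y F) (hB : GoodP D p q d a b) (f : C(K, ℝ))
    (hfD : ∀ y ∈ D, |f y| < p) (hf : ‖f‖ < q) :
    ∃ T : Finset (ℕ × ι), ∀ᶠ g in 𝓝 f, ∀ i, i ∉ T → facP a b i g = 1 := by
  classical
  have hd := hB.hd
  set c : ℝ := (q - ‖f‖) / 2 with hc
  have hc0 : 0 < c := by rw [hc]; linarith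
  obtain ⟨J, hJ⟩ := exists_nat_gt (2 * d / c)
  have hJ0 : (0 : ℝ) ≤ J := Nat.cast_nonneg _
  have hJ1 : (0 : ℝ) < (J : ℝ) + 1 := by linarith
  set η : ℝ := min (c / 2) (d / (4 * ((J : ℝ) + 1))) with hη
  have hη0 : 0 < η := lt_min (by linarith) (by positivity)
  have hη1 : η ≤ c / 2 := min_le_left _ _
  have hη2 : η ≤ d / (4 * ((J : ℝ) + 1)) := min_le_right _ _
  have hkd : ∀ k : ℕ, k ≤ J → 2 * η < d / ((k : ℝ) + 1) := by
    intro k hk
    have hk0 : (0 : ℝ) < (k : ℝ) + 1 := by positivity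
    have h1 : (k : ℝ) ≤ J := by exact_mod_cast hk
    have h2 : d / ((J : ℝ) + 1) ≤ d / ((k : ℝ) + 1) := by
      apply div_le_div_of_nonneg_left hd.le hk0
      linarith
    have h3 : 2 * (d / (4 * ((J : ℝ) + 1))) = (d / ((J : ℝ) + 1)) / 2 := by field_simp; norm_num
    have h4 : 0 < d / ((J : ℝ) + 1) := by positivity
    nlinarith
  have hfin : ∀ k : ℕ, k ≤ J → {j | (∃ x ∈ {x : K | q - 2 * d / ((k : ℝ) + 1) - η ≤ |f x|}, x ∈ Y j) ∧
      ∀ y ∈ F j, y ∉ {y : K | q - 3 * d / ((k : ℝ) + 1) + η < |f y|}}.Finite := by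
    intro k hk
    obtain ⟨w1, w2, w3, w4, w5⟩ := win hB k
    have h1 := hkd k hk
    have e3 : 3 * d / ((k : ℝ) + 1) = 2 * d / ((k : ℝ) + 1) + d / ((k : ℝ) + 1) := by ring
    have e4 : 4 * d / ((k : ℝ) + 1) = 2 * d / ((k : ℝ) + 1) + 2 * (d / ((k : ℝ) + 1)) := by ring
    apply hS.fin
    · exact isClosed_le continuous_const f.continuous.abs
    · exact isOpen_lt continuous_const f.continuous.abs
    · intro x hx
      have hx' : q - 2 * d / ((k : ℝ) + 1) - η ≤ |f x| := hx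
      show q - 3 * d / ((k : ℝ) + 1) + η < |f x|
      linarith
    · intro x hx hxD
      have hx' : q - 2 * d / ((k : ℝ) + 1) - η ≤ |f x| := hx
      have h2 := hfD x hxD
      linarith
  have hfin2 : (⋃ k ∈ Finset.range (J + 1), (fun j => (k, j)) ''
      {j | (∃ x ∈ {x : K | q - 2 * d / ((k : ℝ) + 1) - η ≤ |f x|}, x ∈ Y j) ∧
      ∀ y ∈ F j, y ∉ {y : K | q - 3 * d / ((k : ℝ) + 1) + η < |f y|}}).Finite := by
    apply Set.Finite.biUnion (Finset.finite_toSet _)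
    intro k hk
    exact (hfin k (by simpa [Nat.lt_succ_iff] using hk)).image _
  refine ⟨hfin2.toFinset, ?_⟩
  filter_upwards [Metric.ball_mem_nhds f hη0, open_cond hD f hfD] with g hg hgD i hi
  by_contra hne
  apply hi
  obtain ⟨h1, h2⟩ := facP_ne_one hB i g hgD hne
  obtain ⟨w1, w2, w3, w4, w5⟩ := win hB i.1
  have hgf : ‖g - f‖ < η := by
    rw [← dist_eq_norm]; exact hg
  have hk0 : (0 : ℝ) < (i.1 : ℝ) + 1 := by positivity
  have hiJ : i.1 ≤ J := by
    have e1 : ‖g.restrict (Y i.2)‖ ≤ ‖g‖ := restr_le_norm g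
    have e2 : ‖g‖ ≤ ‖f‖ + ‖g - f‖ := by
      calc ‖g‖ = ‖f + (g - f)‖ := by congr 1; abel
        _ ≤ _ := norm_add_le _ _
    have e3 : c < 2 * d / ((i.1 : ℝ) + 1) := by
      have : ‖f‖ = q - 2 * c := by rw [hc]; ring
      linarith
    rw [lt_div_iff₀ hk0] at e3
    rw [div_lt_iff₀ hc0] at hJ
    have e4 : c * ((i.1 : ℝ) + 1) < c * J := by linarith
    have e5 : (i.1 : ℝ) + 1 < J := lt_of_mul_lt_mul_left e4 hc0.le
    have e6 : (i.1 : ℝ) < J := by linarith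
    exact (Nat.cast_lt.1 e6).le
  rw [Set.Finite.mem_toFinset]
  simp only [mem_iUnion]
  refine ⟨i.1, by simpa [Nat.lt_succ_iff] using hiJ, i.2, ⟨?_, ?_⟩, rfl⟩
  · obtain ⟨x, hx, hx'⟩ := exists_of_lt_restr (by
      have := hB.hp
      linarith) h1
    refine ⟨x, ?_, hx⟩
    show q - 2 * d / ((i.1 : ℝ) + 1) - η ≤ |f x|
    have e1 := abs_ev_le (g - f) x
    rw [ContinuousMap.sub_apply] at e1
    have e2 : |g x| ≤ |f x| + |g x - f x| := by
      calc |g x| = |f x + (g x - f x)| := by congr 1; ring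
        _ ≤ _ := abs_add_le _ _
    linarith
  · intro y hy hy'
    have e0 : q - 3 * d / ((i.1 : ℝ) + 1) + η < |f y| := hy'
    have e1 := abs_le_restr (S := F i.2) f hy
    have e2 := restr_diff (S := F i.2) f g
    linarith

/-- a factor vanishes near a point of the sphere -/
theorem sphereP (hD : IsClosed D) (hS : SysP K D ι Y F) (hB : GoodP D p q d a b) (f : C(K, ℝ))
    (hfD : ∀ y ∈ D, |f y| < p) (hf : ‖f‖ = q) :
    ∃ i : ℕ × ι, ∀ᶠ g in 𝓝 f, facP a b i g = 0 := by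
  have hd := hB.hd
  have hp := hB.hp
  have hpq := hB.hpq
  have hq : 0 < q := by linarith
  have hM : ∃ x, |f x| = q := by
    by_contra hcon
    push Not at hcon
    have : ‖f‖ < q := by
      rw [ContinuousMap.norm_lt_iff f hq]
      intro x
      rw [Real.norm_eq_abs]
      exact lt_of_le_of_ne (hf ▸ abs_ev_le f x) (hcon x)
    linarith
  obtain ⟨j, ⟨x, hxM, hxY⟩, hj⟩ := hS.top {x | |f x| = q}
    (isClosed_eq f.continuous.abs continuous_const) hM (by
      intro x hx hxD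
      have h1 : |f x| = q := hx
      have h2 := hfD x hxD
      linarith)
  have hx1 : |f x| = q := hxM
  have hs : ‖f.restrict (F j)‖ < q := by
    rw [ContinuousMap.norm_lt_iff _ hq]
    intro y
    rw [Real.norm_eq_abs]
    exact lt_of_le_of_ne (hf ▸ abs_ev_le f y) (hj y y.2)
  obtain ⟨k, hk⟩ := exists_nat_gt (4 * d / (q - ‖f.restrict (F j)‖))
  have hk0 : (0 : ℝ) < (k : ℝ) + 1 := by positivity
  have hk1 : ‖f.restrict (F j)‖ < q - 4 * d / ((k : ℝ) + 1) := by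
    rw [div_lt_iff₀ (by linarith)] at hk
    have : 4 * d / ((k : ℝ) + 1) < q - ‖f.restrict (F j)‖ := by
      rw [div_lt_iff₀ hk0]
      nlinarith
    linarith
  obtain ⟨w1, w2, w3, w4, w5⟩ := win hB k
  refine ⟨(k, j), ?_⟩
  have hY : q - d / ((k : ℝ) + 1) < ‖f.restrict (Y j)‖ := by
    have := abs_le_restr (S := Y j) f hxY
    linarith
  filter_upwards [restr_lt hk1, lt_restr hY, open_cond hD f hfD] with g h1 h2 hgD
  show 1 - (1 - a k j (g.restrict (Y j))) * b k j (g.restrict (F j)) = 0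
  rw [hB.bone k j _ h1.le, hB.azero k j _ ?_ h2.le]
  · ring
  · rintro y (hy | hy)
    · exact (lt_of_le_of_lt (abs_le_restr g hy) h1).trans (w2.trans w3)
    · exact (hgD y hy).trans (w1.trans (w2.trans w3))

/-- the product -/
noncomputable def prdP (q : ℝ) (a : ∀ (_ : ℕ) (j : ι), C(Y j, ℝ) → ℝ)
    (b : ∀ (_ : ℕ) (j : ι), C(F j, ℝ) → ℝ) (g : C(K, ℝ)) : ℝ := by
  classical
  exact if ‖g‖ < q then ∏ᶠ i : ℕ × ι, facP a b i g else 0

omit hcY hcF in
theorem prdP_of_lt (g : C(K, ℝ)) (h : ‖g‖ < q) :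
    prdP q a b g = ∏ᶠ i : ℕ × ι, facP a b i g := by
  unfold prdP
  exact if_pos h

omit hcY hcF in
theorem prdP_of_ge (g : C(K, ℝ)) (h : q ≤ ‖g‖) : prdP q a b g = 0 := by
  unfold prdP
  exact if_neg (not_lt.2 h)

theorem prdP_nice (hD : IsClosed D) (hS : SysP K D ι Y F) (hB : GoodP D p q d a b) (f : C(K, ℝ))
    (hfD : ∀ y ∈ D, |f y| < p) : Nice (prdP q a b) f := by
  rcases lt_trichotomy ‖f‖ q with hf | hf | hf
  · obtain ⟨T, hT⟩ := locfinP hD hS hB f hfD hf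
    have h1 : ∀ᶠ g : C(K, ℝ) in 𝓝 f, ‖g‖ < q :=
      continuous_norm.continuousAt.eventually_lt continuousAt_const hf
    apply (nice_prod T (facP a b) f fun i _ => facP_nice hD hB i f hfD).congr
    filter_upwards [hT, h1] with g hg hg1
    rw [prdP_of_lt g hg1]
    apply finprod_eq_prod_of_mulSupport_subset
    intro i hi
    by_contra hcon
    exact hi (hg i hcon)
  · obtain ⟨i, hi⟩ := sphereP hD hS hB f hfD hf
    apply (nice_const 0 f).congr
    filter_upwards [hi, open_cond hD f hfD] with g hg hgD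
    by_cases hg1 : ‖g‖ < q
    · rw [prdP_of_lt g hg1]
      obtain ⟨T, hT⟩ := locfinP hD hS hB g hgD hg1
      apply finprod_eq_zero _ i hg
      apply T.finite_toSet.subset
      intro i hi
      by_contra hcon
      exact hi (hT.self_of_nhds i hcon)
    · exact prdP_of_ge g (not_lt.1 hg1)
  · apply (nice_const 0 f).congr
    have h1 : ∀ᶠ g : C(K, ℝ) in 𝓝 f, q < ‖g‖ :=
      continuousAt_const.eventually_lt continuous_norm.continuousAt hf
    filter_upwards [h1] with g hg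
    exact prdP_of_ge g hg.le

theorem prdP_rng (hB : GoodP D p q d a b) (g : C(K, ℝ)) :
    0 ≤ prdP q a b g ∧ prdP q a b g ≤ 1 := by
  by_cases hg : ‖g‖ < q
  · rw [prdP_of_lt g hg]
    by_cases hs : (Function.mulSupport fun i : ℕ × ι => facP a b i g).Finite
    · rw [finprod_eq_prod _ hs]
      exact ⟨Finset.prod_nonneg fun i _ => (facP_rng hB i g).1,
        Finset.prod_le_one (fun i _ => (facP_rng hB i g).1) fun i _ => (facP_rng hB i g).2⟩
    · rw [finprod_of_infinite_mulSupport hs]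
      exact ⟨zero_le_one, le_rfl⟩
  · rw [prdP_of_ge g (not_lt.1 hg)]
    exact ⟨le_rfl, zero_le_one⟩

theorem prdP_one (hB : GoodP D p q d a b) (g : C(K, ℝ)) (hg : ‖g‖ ≤ p) : prdP q a b g = 1 := by
  have hd := hB.hd
  have hpq := hB.hpq
  rw [prdP_of_lt g (by linarith)]
  apply finprod_eq_one_of_forall_eq_one
  intro i
  obtain ⟨w1, w2, w3, w4, w5⟩ := win hB i.1
  show 1 - (1 - a i.1 i.2 (g.restrict (Y i.2))) * b i.1 i.2 (g.restrict (F i.2)) = 1
  rw [hB.aone i.1 i.2 _ (by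
    have := restr_le_norm (S := Y i.2) g
    linarith)]
  ring

end main

theorem perm_sysp (K : Type u) [TopologicalSpace K] [CompactSpace K] (D : Set K)
    (hD : IsClosed D) (ι : Type u) (Y F : ι → Set K) (hS : SysP K D ι Y F)
    (hY : ∀ j, @RelBumps (Y j) _ (isCompact_iff_compactSpace.1 (hS.closedY j).isCompact)
      (Subtype.val ⁻¹' (F j ∪ D)))
    (hF : ∀ j, @RelBumps (F j) _ (isCompact_iff_compactSpace.1 (hS.closedF j).isCompact)
      (Subtype.val ⁻¹' D)) :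
    RelBumps K D := by
  haveI hcY : ∀ j, CompactSpace (Y j) := fun j =>
    isCompact_iff_compactSpace.1 (hS.closedY j).isCompact
  haveI hcF : ∀ j, CompactSpace (F j) := fun j =>
    isCompact_iff_compactSpace.1 (hS.closedF j).isCompact
  intro p q hp hpq
  set d : ℝ := (q - p) / 5 with hd
  have hd0 : 0 < d := by rw [hd]; linarith
  have hpq' : p < q - 4 * d := by rw [hd]; linarith
  have hw : ∀ k : ℕ, p < q - 4 * d / ((k : ℝ) + 1) ∧
      q - 4 * d / ((k : ℝ) + 1) < q - 3 * d / ((k : ℝ) + 1) ∧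
      q - 3 * d / ((k : ℝ) + 1) < q - 2 * d / ((k : ℝ) + 1) ∧
      q - 2 * d / ((k : ℝ) + 1) < q - d / ((k : ℝ) + 1) := by
    intro k
    have hk : (0 : ℝ) < (k : ℝ) + 1 := by positivity
    have h2 : 0 < d / ((k : ℝ) + 1) := by positivity
    have h3 : d / ((k : ℝ) + 1) ≤ d := by
      rw [div_le_iff₀ hk]
      have : (0 : ℝ) ≤ (k : ℝ) := Nat.cast_nonneg k
      nlinarith
    have e4 : 4 * d / ((k : ℝ) + 1) = 4 * (d / ((k : ℝ) + 1)) := by ring
    have e3 : 3 * d / ((k : ℝ) + 1) = 3 * (d / ((k : ℝ) + 1)) := by ring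
    have e2 : 2 * d / ((k : ℝ) + 1) = 2 * (d / ((k : ℝ) + 1)) := by ring
    rw [e4, e3, e2]
    refine ⟨?_, ?_, ?_, ?_⟩ <;> linarith
  have hYb := fun (k : ℕ) (j : ι) => hY j (q - 2 * d / ((k : ℝ) + 1)) (q - d / ((k : ℝ) + 1))
    (by have := hw k; linarith [this.1, this.2.1, this.2.2.1]) (hw k).2.2.2
  have hFb := fun (k : ℕ) (j : ι) => hF j (q - 4 * d / ((k : ℝ) + 1)) (q - 3 * d / ((k : ℝ) + 1))
    (by have := hw k; linarith [this.1]) (hw k).2.1
  choose a ha1 ha2 ha3 ha4 using hYb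
  choose b hb1 hb2 hb3 hb4 using hFb
  have hB : GoodP D p q d a b :=
    { hp := hp
      hd := hd0
      hpq := hpq'
      anice := fun k j f hf => ha1 k j f fun y hy => hf y hy
      arng := fun k j f => ha2 k j f
      aone := fun k j f hf => ha3 k j f hf
      azero := fun k j f hf hf' => ha4 k j f (fun y hy => hf y hy) hf'
      bnice := fun k j f hf => hb1 k j f fun y hy => hf y hy
      brng := fun k j f => hb2 k j f
      bone := fun k j f hf => hb3 k j f hf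
      bzero := fun k j f hf hf' => hb4 k j f (fun y hy => hf y hy) hf' }
  exact ⟨prdP q a b, fun f hf => prdP_nice hD hS hB f hf, fun f => prdP_rng hB f,
    fun f hf => prdP_one hB f hf, fun f _ hf => prdP_of_ge f hf⟩

/-- the base case -/
theorem perm_point (K : Type u) [TopologicalSpace K] [CompactSpace K] [Subsingleton K]
    (D : Set K) : RelBumps K D := by
  intro p q hp hpq
  have hq : 0 < q := hp.trans hpq
  rcases isEmpty_or_nonempty K with hK | ⟨⟨x⟩⟩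
  · refine ⟨fun _ => 1, fun f _ => ⟨(nice_const 1 f).1, (nice_const 1 f).2⟩,
      fun f => ⟨zero_le_one, le_rfl⟩, fun f _ => rfl, fun f _ hf => ?_⟩
    have h1 : f = 0 := by
      ext y
      exact (hK.false y).elim
    rw [h1, norm_zero] at hf
    linarith
  · have hpq2 : 0 < q ^ 2 - p ^ 2 := by nlinarith
    have hn : ∀ f : C(K, ℝ), ‖f‖ ≤ |f x| := by
      intro f
      rw [ContinuousMap.norm_le _ (abs_nonneg _)]
      intro y
      rw [Subsingleton.elim y x, Real.norm_eq_abs]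
    have hφ : ContDiff ℝ (⊤ : ℕ∞)
        (fun s : ℝ => 1 - Real.smoothTransition ((s ^ 2 - p ^ 2) / (q ^ 2 - p ^ 2))) :=
      contDiff_const.sub (Real.smoothTransition.contDiff.comp (by fun_prop))
    refine ⟨fun f => 1 - Real.smoothTransition ((f x ^ 2 - p ^ 2) / (q ^ 2 - p ^ 2)),
      fun f _ => nice_ev x _ f hφ, fun f => ⟨?_, ?_⟩, fun f hf => ?_, fun f _ hf => ?_⟩
    · linarith [Real.smoothTransition.le_one ((f x ^ 2 - p ^ 2) / (q ^ 2 - p ^ 2))]
    · linarith [Real.smoothTransition.nonneg ((f x ^ 2 - p ^ 2) / (q ^ 2 - p ^ 2))]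
    · show 1 - Real.smoothTransition ((f x ^ 2 - p ^ 2) / (q ^ 2 - p ^ 2)) = 1
      rw [Real.smoothTransition.zero_of_nonpos]
      · ring
      · apply div_nonpos_of_nonpos_of_nonneg _ hpq2.le
        have h1 : |f x| ≤ p := (abs_ev_le f x).trans hf
        have h2 : |f x| ^ 2 ≤ p ^ 2 := pow_le_pow_left₀ (abs_nonneg _) h1 2
        rw [sq_abs] at h2
        linarith
    · show 1 - Real.smoothTransition ((f x ^ 2 - p ^ 2) / (q ^ 2 - p ^ 2)) = 0
      rw [Real.smoothTransition.one_of_one_le]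
      · ring
      · rw [le_div_iff₀ hpq2]
        have h1 : q ≤ |f x| := hf.trans (hn f)
        have h2 : q ^ 2 ≤ |f x| ^ 2 := pow_le_pow_left₀ hq.le h1 2
        rw [sq_abs] at h2
        linarith

end Pool.Agent.CKT
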