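import Pool.Agent.CKT.Defs2
import Pool.Agent.CKT.Perm

/-!
# Relative bump functions from the quotient `K / D`
-/

set_option autoImplicit false

open Set Filter Topology

namespace Pool.Agent.CKT

universe u v

section quo_row

variable {K : Type u} [TopologicalSpace K]

/-- extension by zero to the one point compactification -/
private noncomputable def quoX [CompactSpace K] (D : Set K) (g : C(K, ℝ))
    (hg : ∀ x ∈ D, g x = 0) : C(OnePoint (Dᶜ : Set K), ℝ) where
  toFun := fun z => z.elim 0 (fun x => g x.1)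
  continuous_toFun := by
    rw [OnePoint.continuous_iff]
    constructor
    · show Tendsto (fun x : (Dᶜ : Set K) => g x.1) (coclosedCompact _) (𝓝 0)
      rw [Metric.tendsto_nhds]
      intro ε hε
      have hcl : IsClosed {x : (Dᶜ : Set K) | ε ≤ |g x.1|} :=
        isClosed_le continuous_const (g.continuous.comp continuous_subtype_val).abs
      refine hasBasis_coclosedCompact.mem_iff.2
        ⟨{x : (Dᶜ : Set K) | ε ≤ |g x.1|}, ⟨hcl, ?_⟩, ?_⟩
      · rw [Subtype.isCompact_iff]
        have h1 : Subtype.val '' {x : (Dᶜ : Set K) | ε ≤ |g x.1|} = {x : K | ε ≤ |g x|} := by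
          ext x
          constructor
          · rintro ⟨y, hy, rfl⟩
            exact hy
          · intro hx2
            have hx3 : x ∉ D := by
              intro hxC
              have h2 : ε ≤ |g x| := hx2
              rw [hg x hxC, abs_zero] at h2
              exact absurd hε (not_lt.2 h2)
            exact ⟨⟨x, hx3⟩, hx2, rfl⟩
        rw [h1]
        exact (isClosed_le continuous_const g.continuous.abs).isCompact
      · intro x hx
        have h2 : ¬ ε ≤ |g x.1| := hx
        show dist (g x.1) 0 < ε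
        rw [Real.dist_eq, sub_zero]
        exact not_le.1 h2
    · exact g.continuous.comp continuous_subtype_val

variable [CompactSpace K]

private theorem quoX_coe (D : Set K) (g : C(K, ℝ)) (hg : ∀ x ∈ D, g x = 0)
    (x : (Dᶜ : Set K)) : quoX D g hg (x : OnePoint (Dᶜ : Set K)) = g x.1 := rfl

private theorem quoX_infty (D : Set K) (g : C(K, ℝ)) (hg : ∀ x ∈ D, g x = 0) :
    quoX D g hg OnePoint.infty = 0 := rfl

open Classical in
/-- the truncated function on the one point compactification of the complement of `D` -/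
private noncomputable def quoT (D : Set K) (φ : C(ℝ, ℝ)) (f : C(K, ℝ)) :
    C(OnePoint (Dᶜ : Set K), ℝ) :=
  if h : ∀ x ∈ D, φ (f x) = 0 then quoX D (φ.comp f) h else 0

private theorem quoT_of (D : Set K) (φ : C(ℝ, ℝ)) (f : C(K, ℝ))
    (h : ∀ x ∈ D, φ (f x) = 0) : quoT D φ f = quoX D (φ.comp f) h := dif_pos h

/-- the functions which are small on `D` -/
private def quoW (D : Set K) (s : ℝ) : Set C(K, ℝ) := {f | ∀ x ∈ D, |f x| < s}

private theorem isOpen_quoW {D : Set K} (hD : IsClosed D) (s : ℝ) : IsOpen (quoW D s) := by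
  have h := ContinuousMap.isOpen_setOfPred_mapsTo (X := K) (Y := ℝ) hD.isCompact
    (isOpen_lt continuous_abs (continuous_const (y := s)))
  exact h

private theorem quoT_continuousAt {D : Set K} (hD : IsClosed D) (φ : C(ℝ, ℝ))
    {s : ℝ} (hφ : ∀ t, |t| ≤ s → φ t = 0) {f : C(K, ℝ)} (hf : f ∈ quoW D s) :
    ContinuousAt (quoT D φ) f := by
  have h1 : ContinuousAt (fun g : C(K, ℝ) => φ.comp g) f :=
    (ContinuousMap.continuous_postcomp φ).continuousAt
  rw [Metric.continuousAt_iff'] at h1 ⊢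
  intro ε hε
  filter_upwards [h1 (ε / 2) (half_pos hε), (isOpen_quoW hD s).mem_nhds hf] with g hg hgW
  have e1 : ∀ x ∈ D, φ (f x) = 0 := fun x hx => hφ _ (hf x hx).le
  have e2 : ∀ x ∈ D, φ (g x) = 0 := fun x hx => hφ _ (hgW x hx).le
  rw [quoT_of D φ f e1, quoT_of D φ g e2]
  refine lt_of_le_of_lt ((ContinuousMap.dist_le (half_pos hε).le).2 ?_) (half_lt_self hε)
  intro z
  induction z using OnePoint.rec with
  | infty =>
    rw [quoX_infty, quoX_infty, dist_self]
    exact (half_pos hε).le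
  | coe x =>
    rw [quoX_coe, quoX_coe]
    exact (ContinuousMap.dist_apply_le_dist x.1).trans hg.le

/-- composition with a smooth function which depends locally on finitely many coordinates -/
private theorem quoT_nice [T2Space K] {D : Set K} (hD : IsClosed D) (φ : C(ℝ, ℝ))
    (hφs : ContDiff ℝ (⊤ : ℕ∞) φ) {s : ℝ} (hφ : ∀ t, |t| ≤ s → φ t = 0)
    (b : C(OnePoint (Dᶜ : Set K), ℝ) → ℝ)
    {f : C(K, ℝ)} (hf : f ∈ quoW D s) (hb : ContDiffAt ℝ (⊤ : ℕ∞) b (quoT D φ f))
    (hl : Loc b (quoT D φ f)) : Nice (fun g => b (quoT D φ g)) f := by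
  classical
  have hW : ∀ᶠ g in 𝓝 f, g ∈ quoW D s := (isOpen_quoW hD s).mem_nhds hf
  have hTc := quoT_continuousAt hD φ hφ hf
  obtain ⟨U, hU, E, hE, hEU⟩ := hl
  -- the finite set of coordinates
  set E' : Set K := {x | ∃ h : x ∈ Dᶜ, ((⟨x, h⟩ : (Dᶜ : Set K)) : OnePoint (Dᶜ : Set K)) ∈ E}
    with hE'
  have hE'fin : E'.Finite := by
    have h1 : (((↑) : (Dᶜ : Set K) → OnePoint (Dᶜ : Set K)) ⁻¹' E).Finite :=
      hE.preimage (OnePoint.coe_injective.injOn)
    refine (h1.image Subtype.val).subset ?_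
    rintro x ⟨h, hx⟩
    exact ⟨⟨x, h⟩, hx, rfl⟩
  have hval : ∀ g ∈ quoW D s, ∀ z, quoT D φ g z = z.elim 0 (fun x => φ (g x.1)) := by
    intro g hg z
    rw [quoT_of D φ g (fun x hx => hφ _ (hg x hx).le)]
    rfl
  refine ⟨?_, ?_⟩
  · -- functions with prescribed values on the coordinates
    have hu : ∀ x : K, ∃ u : C(K, ℝ), (∀ y ∈ D, u y = 0) ∧
        (x ∈ E' → u x = 1 ∧ ∀ y ∈ E', y ≠ x → u y = 0) := by
      intro x
      by_cases hx : x ∈ E'
      · have hcl1 : IsClosed (D ∪ (E' \ {x})) :=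
          hD.union (hE'fin.subset sdiff_subset).isClosed
        have hdis : Disjoint (D ∪ (E' \ {x})) {x} := by
          rw [Set.disjoint_singleton_right]
          rintro (h | h)
          · obtain ⟨h2, -⟩ := hx
            exact h2 h
          · exact h.2 rfl
        obtain ⟨u, hu0, hu1, -⟩ := exists_continuous_zero_one_of_isClosed hcl1
          isClosed_singleton hdis
        refine ⟨u, fun y hy => hu0 (Or.inl hy), fun _ => ⟨hu1 rfl, fun y hy hyx =>
          hu0 (Or.inr ⟨hy, hyx⟩)⟩⟩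
      · exact ⟨0, fun _ _ => rfl, fun h => absurd h hx⟩
    choose u hu0 hu1 using hu
    let g0 : C(K, ℝ) → C(OnePoint (Dᶜ : Set K), ℝ) := fun g => quoT D φ f +
      ∑ x ∈ hE'fin.toFinset, (φ (g x) - φ (f x)) • quoX D (u x) (hu0 x)
    have hg0 : ContDiff ℝ (⊤ : ℕ∞) g0 := by
      refine contDiff_const.add (ContDiff.sum fun x _ => ?_)
      have h1 : ContDiff ℝ (⊤ : ℕ∞) (fun g : C(K, ℝ) => φ (g x) - φ (f x)) :=
        (hφs.comp (contDiff_ev x)).sub contDiff_const
      have h2 : ContDiff ℝ (⊤ : ℕ∞) (fun _ : C(K, ℝ) => quoX D (u x) (hu0 x)) :=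
        contDiff_const
      exact h1.smul h2
    have hg0f : g0 f = quoT D φ f := by
      show quoT D φ f + _ = _
      rw [Finset.sum_eq_zero, add_zero]
      intro x _
      rw [sub_self, zero_smul]
    have hg0v : ∀ g ∈ quoW D s, ∀ z ∈ E, quoT D φ g z = g0 g z := by
      intro g hg z hz
      show _ = (quoT D φ f + ∑ x ∈ hE'fin.toFinset,
        (φ (g x) - φ (f x)) • quoX D (u x) (hu0 x)) z
      rw [ContinuousMap.add_apply, ContinuousMap.sum_apply, hval g hg z, hval f hf z]
      simp only [ContinuousMap.smul_apply, smul_eq_mul]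
      induction z using OnePoint.rec with
      | infty =>
        rw [Finset.sum_eq_zero (fun x _ => by rw [quoX_infty, mul_zero]), add_zero]
        rfl
      | coe y =>
        have hy : y.1 ∈ E' := ⟨y.2, hz⟩
        rw [Finset.sum_eq_single y.1]
        · rw [quoX_coe, (hu1 y.1 hy).1]
          show φ (g y.1) = φ (f y.1) + (φ (g y.1) - φ (f y.1)) * 1
          ring
        · intro x hx hxy
          rw [quoX_coe, (hu1 x (hE'fin.mem_toFinset.1 hx)).2 y.1 hy hxy.symm, mul_zero]
        · intro h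
          exact absurd (hE'fin.mem_toFinset.2 hy) h
    have heq : (fun g => b (quoT D φ g)) =ᶠ[𝓝 f] fun g => b (g0 g) := by
      have h2 : ∀ᶠ g in 𝓝 f, g0 g ∈ U := by
        have h3 : Tendsto g0 (𝓝 f) (𝓝 (quoT D φ f)) := by
          have h4 := hg0.continuous.tendsto f
          rwa [hg0f] at h4
        exact h3 hU
      filter_upwards [hW, hTc hU, h2] with g h1 h3 h4
      exact hEU _ h3 _ h4 (hg0v g h1)
    have hb' : ContDiffAt ℝ (⊤ : ℕ∞) b (g0 f) := by
      rw [hg0f]
      exact hb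
    exact (hb'.comp f hg0.contDiffAt).congr_of_eventuallyEq heq
  · refine ⟨{g | g ∈ quoW D s} ∩ (quoT D φ) ⁻¹' U, inter_mem hW (hTc hU), E', hE'fin, ?_⟩
    intro g hg g' hg' hz
    refine hEU _ hg.2 _ hg'.2 fun z hzE => ?_
    rw [hval g hg.1 z, hval g' hg'.1 z]
    induction z using OnePoint.rec with
    | infty => rfl
    | coe y =>
      have h5 : g y.1 = g' y.1 := hz y.1 ⟨y.2, hzE⟩
      show φ (g y.1) = φ (g' y.1)
      rw [h5]

end quo_row

/-- ROW QUO. -/
theorem perm_quot (K : Type u) [TopologicalSpace K] [CompactSpace K] [T2Space K] (D : Set K)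
    (hD : IsClosed D) (h : RelBumps (OnePoint (Dᶜ : Set K)) {OnePoint.infty}) :
    RelBumps K D := by
  intro p q hp hpq
  obtain ⟨b, hb, hb01, hb1, hb0⟩ := h (1 / 2) 1 (by norm_num) (by norm_num)
  have hpq2 : 0 < q ^ 2 - p ^ 2 := by nlinarith
  let φ : C(ℝ, ℝ) := ⟨fun y => Real.smoothTransition ((y ^ 2 - p ^ 2) / (q ^ 2 - p ^ 2)), by
    exact Real.smoothTransition.continuous.comp (by fun_prop)⟩
  have hφs : ContDiff ℝ (⊤ : ℕ∞) φ := by
    have h1 : ContDiff ℝ (⊤ : ℕ∞) (fun y : ℝ => (y ^ 2 - p ^ 2) / (q ^ 2 - p ^ 2)) := by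
      fun_prop
    exact Real.smoothTransition.contDiff.comp h1
  have hφ0 : ∀ y, |y| ≤ p → φ y = 0 := by
    intro y hy
    refine Real.smoothTransition.zero_of_nonpos ?_
    refine div_nonpos_of_nonpos_of_nonneg ?_ hpq2.le
    have h1 : y ^ 2 ≤ p ^ 2 := sq_le_sq' (by linarith [(abs_le.1 hy).1]) (abs_le.1 hy).2
    linarith
  have hφ1 : ∀ y, q ≤ |y| → φ y = 1 := by
    intro y hy
    refine Real.smoothTransition.one_of_one_le ?_
    rw [one_le_div hpq2]
    have h1 : q ^ 2 ≤ |y| ^ 2 := pow_le_pow_left₀ (hp.trans hpq).le hy 2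
    rw [sq_abs] at h1
    linarith
  have hinf : ∀ f : C(K, ℝ), (∀ y ∈ D, |f y| < p) →
      ∀ y ∈ ({OnePoint.infty} : Set (OnePoint (Dᶜ : Set K))), |quoT D φ f y| < 1 / 2 := by
    intro f hf y hy
    rw [mem_singleton_iff.1 hy, quoT_of D φ f (fun x hx => hφ0 _ (hf x hx).le), quoX_infty,
      abs_zero]
    norm_num
  refine ⟨fun f => b (quoT D φ f), ?_, fun f => hb01 _, ?_, ?_⟩
  · intro f hf
    obtain ⟨h1, h2⟩ := hb (quoT D φ f) (hinf f hf)
    exact quoT_nice hD φ hφs hφ0 b hf h1 h2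
  · intro f hf
    have h0 : ∀ x, |f x| ≤ p := fun x => (ContinuousMap.norm_coe_le_norm f x).trans hf
    have h2 : quoT D φ f = 0 := by
      rw [quoT_of D φ f (fun x _ => hφ0 _ (h0 x))]
      ext z
      induction z using OnePoint.rec with
      | infty => rfl
      | coe x =>
        rw [quoX_coe]
        exact hφ0 _ (h0 x.1)
    apply hb1
    rw [h2, norm_zero]
    norm_num
  · intro f hf hq
    have hx : ∃ x, q ≤ |f x| := by
      by_contra hno
      push Not at hno
      have h5 : ‖f‖ < q := by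
        rw [ContinuousMap.norm_lt_iff f (hp.trans hpq)]
        exact hno
      exact absurd hq (not_le.2 h5)
    obtain ⟨x, hx⟩ := hx
    have hxD : x ∉ D := by
      intro h
      have := hf x h
      linarith
    apply hb0 _ (hinf f hf)
    have h2 := ContinuousMap.norm_coe_le_norm (quoT D φ f)
      ((⟨x, hxD⟩ : (Dᶜ : Set K)) : OnePoint (Dᶜ : Set K))
    rw [quoT_of D φ f (fun x hx => hφ0 _ (hf x hx).le), quoX_coe] at h2
    have h3 : (φ.comp f) x = 1 := hφ1 _ hx
    rw [h3, norm_one] at h2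
    rw [quoT_of D φ f (fun x hx => hφ0 _ (hf x hx).le)]
    exact h2

end Pool.Agent.CKT
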