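import Pool.Agent.CKT.Cpt
import Pool.Agent.CKT.Psp
import Pool.Agent.CKT.Gen
import Pool.Agent.CKT.Img2
import Pool.Agent.CKT.Quo

/-! # Pairs of the class `R` have relative bump functions -/

set_option autoImplicit false

open Set Filter Topology

namespace Pool.Agent.CKT

universe u v

theorem R.bumps {K : Type u} {t : TopologicalSpace K} {D : Set K} (h : R K t D) :
    @RelBumps K t h.compact D := by
  induction h with
  | point K t hs D =>
    haveI : CompactSpace K := inferInstance
    exact perm_point K D
  | sysp K t hc h2 D hD ι Y F hS hY hF ih1 ih2 =>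
    exact perm_sysp K D hD ι Y F hS (fun j => ih1 j) (fun j => ih2 j)
  | gen K t hc h2 D hD ι C B i h e hG hR ih => exact perm_gen K D ι C B i h e hG (fun j => ih j)
  | image K K' t t' h2 p hp hs D h ih =>
    have hcK : CompactSpace K := h.compact
    have hcK' : CompactSpace K' := hs.compactSpace hp
    exact perm_image K K' p hp hs D ih
  | quot K t hc h2 D hD h ih => exact perm_quot K D hD ih

end Pool.Agent.CKT
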