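import Pool.Agent.CKT.Defs4

/-!
Row CH1: the increments of a chain of retractions converge to the diagonal.
-/

set_option autoImplicit false

open Set Filter Topology

namespace Pool.Agent.CKT

universe u v

private theorem ch1_seq {α : Type u} [LinearOrder α] [WellFoundedLT α] (S : Set α)
    (hS : S.Infinite) : ∃ f : ℕ → α, StrictMono f ∧ ∀ n, f n ∈ S := by
  let e : ℕ ↪ S := hS.natEmbedding S
  obtain ⟨g, hg⟩ := exists_increasing_or_nonincreasing_subseq (fun a b : α => a < b)
    (fun n => (e n : α))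
  rcases hg with hg | hg
  · exact ⟨fun n => (e (g n) : α), fun m n h => hg m n h, fun n => (e (g n)).2⟩
  · exfalso
    have hlt : ∀ m n, m < n → (e (g n) : α) < (e (g m) : α) := by
      intro m n h
      rcases lt_trichotomy (e (g n) : α) (e (g m) : α) with h1 | h1 | h1
      · exact h1
      · exfalso
        have h2 := g.injective (e.injective (Subtype.ext h1))
        omega
      · exact absurd h1 (hg m n h)
    have hwf : WellFounded (fun a b : α => a < b) := wellFounded_lt
    exact (RelEmbedding.natGT (r := fun a b : α => a < b) (fun n => (e (g n) : α))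
      (fun n => hlt n (n + 1) (Nat.lt_succ_self n))).not_wellFounded hwf

theorem chain_fin (K : Type u) [TopologicalSpace K] [CompactSpace K] [T2Space K]
    (κ : Ordinal.{u}) (r : Ordinal.{u} → K → K) (h : Chain K κ r) (U : Set (K × K))
    (hU : IsOpen U) (hd : ∀ x, (x, x) ∈ U) :
    {β | β < κ ∧ ∃ x, r (Order.succ β) x = x ∧ (x, r β x) ∉ U}.Finite := by
  by_contra hinf
  obtain ⟨β, hβm, hβ⟩ := ch1_seq _ hinf
  have hκ : ∀ n, β n < κ := fun n => (hβ n).1
  choose x hx hxU using fun n => (hβ n).2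
  -- the supremum of the sequence
  obtain ⟨l, hl⟩ : ∃ l : Ordinal.{u}, l = ⨆ n, β n := ⟨_, rfl⟩
  have hβl : ∀ n, β n ≤ l := fun n => by
    rw [hl]
    exact Ordinal.le_iSup β n
  have hlκ : l ≤ κ := by
    rw [hl]
    exact Ordinal.iSup_le fun n => (hκ n).le
  have hex : ∀ a, a < l → ∃ n, a < β n := by
    intro a ha
    rw [hl] at ha
    exact Ordinal.lt_iSup_iff.1 ha
  have hsl : ∀ n, Order.succ (β n) ≤ l := fun n =>
    (Order.succ_le_of_lt (hβm (Nat.lt_succ_self n))).trans (hβl (n + 1))
  have hlim : Order.IsSuccLimit l := by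
    refine ⟨?_, ?_⟩
    · intro hmin
      have h1 : β 0 < l := (Order.lt_succ (β 0)).trans_le (hsl 0)
      exact absurd (hmin h1.le) (not_le.2 h1)
    · refine Order.isSuccPrelimit_of_succ_lt fun a ha => ?_
      obtain ⟨n, hn⟩ := hex a ha
      exact (Order.succ_le_of_lt hn).trans_lt ((Order.lt_succ (β n)).trans_le (hsl n))
  -- cluster points along an ultrafilter
  let F : Ultrafilter ℕ := Ultrafilter.of atTop
  have hF : (F : Filter ℕ) ≤ atTop := Ultrafilter.of_le atTop
  obtain ⟨y, hy⟩ : ∃ y, Tendsto x F (𝓝 y) := ⟨_, (F.map x).le_nhds_lim⟩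
  obtain ⟨y', hy'⟩ : ∃ y', Tendsto (fun n => r (β n) (x n)) F (𝓝 y') :=
    ⟨_, (F.map (fun n => r (β n) (x n))).le_nhds_lim⟩
  have hyU : (y, y') ∉ U := by
    have h1 : Tendsto (fun n => (x n, r (β n) (x n))) F (𝓝 (y, y')) := hy.prodMk_nhds hy'
    exact hU.isClosed_compl.mem_of_tendsto h1 (Eventually.of_forall hxU)
  -- below `l`, the values of the retractions at the two points agree
  have hra : ∀ a, a < l → r a y = r a y' := by
    intro a ha
    have hc := h.cont a (ha.le.trans hlκ)
    have h1 : Tendsto (fun n => r a (x n)) F (𝓝 (r a y)) := (hc.tendsto y).comp hy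
    have h2 : Tendsto (fun n => r a (r (β n) (x n))) F (𝓝 (r a y')) := (hc.tendsto y').comp hy'
    refine tendsto_nhds_unique_of_eventuallyEq h1 h2 ?_
    obtain ⟨n, hn⟩ := hex a ha
    refine hF ?_
    filter_upwards [eventually_ge_atTop n] with m hm
    exact (h.low a (β m) (hn.le.trans (hβm.monotone hm)) (hκ m).le (x m)).symm
  -- both points are fixed by `r l`
  have hcl := h.cont l hlκ
  have hly : r l y = y := by
    have h1 : Tendsto (fun n => r l (x n)) F (𝓝 (r l y)) := (hcl.tendsto y).comp hy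
    refine tendsto_nhds_unique_of_eventuallyEq h1 hy (Eventually.of_forall fun n => ?_)
    have h2 := h.up (Order.succ (β n)) l (hsl n) hlκ (x n)
    rwa [hx n] at h2
  have hly' : r l y' = y' := by
    have h1 : Tendsto (fun n => r l (r (β n) (x n))) F (𝓝 (r l y')) := (hcl.tendsto y').comp hy'
    refine tendsto_nhds_unique_of_eventuallyEq h1 hy' (Eventually.of_forall fun n => ?_)
    exact h.up (β n) l (hβl n) hlκ (x n)
  have heq : y = y' := by
    by_contra hne
    obtain ⟨V, V', hV, hV', hyV, hyV', hdisj⟩ := t2_separation hne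
    obtain ⟨a, ha, ha'⟩ := h.lim l hlκ hlim y V (by rw [hly]; exact hV.mem_nhds hyV)
    obtain ⟨b, hb, hb'⟩ := h.lim l hlκ hlim y' V' (by rw [hly']; exact hV'.mem_nhds hyV')
    have h1 : r (max a b) y ∈ V := ha' _ (le_max_left a b) (max_lt ha hb)
    have h2 : r (max a b) y' ∈ V' := hb' _ (le_max_right a b) (max_lt ha hb)
    rw [← hra _ (max_lt ha hb)] at h2
    exact Set.disjoint_left.1 hdisj h1 h2
  rw [heq] at hyU
  exact hyU (hd y')

end Pool.Agent.CKT
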