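import Pool.Agent.CKT.Defs4

/-!
# One step of a chain of retractions
-/

set_option autoImplicit false

open Set Filter Topology

namespace Pool.Agent.CKT

universe u v

theorem incr_fin (K : Type u) [TopologicalSpace K] [CompactSpace K] [T2Space K]
    (κ : Ordinal.{u}) (r : Ordinal.{u} → K → K) (h : Chain K κ r) (β : Ordinal.{u}) (hβ : β < κ)
    (P : K → ℕ) (hP : ∀ (m : ℕ) (x : K), r (Order.succ β) x = x → r β x ≠ x →
      ∃ V ∈ 𝓝 x, {y | y ∈ V ∧ r (Order.succ β) y = y ∧ r β y ≠ y ∧ P y = m}.Finite)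
    (m : ℕ) (U : Set (K × K)) (hU : IsOpen U) (hd : ∀ x, (x, x) ∈ U) :
    {x | r (Order.succ β) x = x ∧ P x = m ∧ (x, r β x) ∉ U}.Finite := by
  by_contra hinf
  obtain ⟨z, hz⟩ := Set.Infinite.exists_accPt_principal hinf
  rw [accPt_iff_nhds] at hz
  have hc1 : Continuous (r (Order.succ β)) := h.cont _ (Order.succ_le_of_lt hβ)
  have hc0 : Continuous (r β) := h.cont _ hβ.le
  have hz1 : r (Order.succ β) z = z := by
    have hcl : IsClosed {x | r (Order.succ β) x = x} := isClosed_eq hc1 continuous_id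
    by_contra hne
    obtain ⟨y, ⟨hy1, hy2⟩, -⟩ := hz _ (hcl.isOpen_compl.mem_nhds hne)
    exact hy1 hy2.1
  by_cases hz0 : r β z = z
  · have hc : Continuous fun x => (x, r β x) := continuous_id.prodMk hc0
    have hV : (fun x => (x, r β x)) ⁻¹' U ∈ 𝓝 z := by
      apply (hU.preimage hc).mem_nhds
      show (z, r β z) ∈ U
      rw [hz0]
      exact hd z
    obtain ⟨y, ⟨hy1, hy2⟩, -⟩ := hz _ hV
    exact hy2.2.2 hy1
  · obtain ⟨V, hV, hfin⟩ := hP m z hz1 hz0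
    have hT : IsClosed ({y | y ∈ V ∧ r (Order.succ β) y = y ∧ r β y ≠ y ∧ P y = m} \ {z}) :=
      (hfin.subset sdiff_subset).isClosed
    have hz' : z ∉ ({y | y ∈ V ∧ r (Order.succ β) y = y ∧ r β y ≠ y ∧ P y = m} \ {z}) :=
      fun h => h.2 rfl
    obtain ⟨y, ⟨⟨hyV, hy1⟩, hy2⟩, hne⟩ := hz _ (inter_mem hV (hT.isOpen_compl.mem_nhds hz'))
    apply hy1
    refine ⟨⟨hyV, hy2.1, ?_, hy2.2.1⟩, hne⟩
    intro he
    apply hy2.2.2
    rw [he]
    exact hd y

end Pool.Agent.CKT
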