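import Pool.Agent.CKT.Defs4

set_option autoImplicit false

open Set Filter Topology

namespace Pool.Agent.CKT

universe u v

theorem chain_gamma (K : Type u) [TopologicalSpace K] [CompactSpace K] [T2Space K]
    (κ : Ordinal.{u}) (r : Ordinal.{u} → K → K) (h : Chain K κ r) (D : Set K) (hD : IsClosed D)
    (x : K) (hx : x ∉ D) (h0 : r 0 x ∈ D) :
    ∃ μ < κ, (∀ z, r (Order.succ μ) z = r (Order.succ μ) x → z ∉ D) ∧
      ∃ d ∈ D, r μ d = r μ x := by
  set S : Set Ordinal.{u} := {a | a ≤ κ ∧ ∀ z, r a z = r a x → z ∉ D} with hS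
  have hSκ : κ ∈ S := by
    refine ⟨le_rfl, fun z hz => ?_⟩
    rw [h.last, h.last] at hz
    rw [hz]
    exact hx
  obtain ⟨g, hg, hmin⟩ : ∃ g ∈ S, ∀ a ∈ S, ¬ a < g :=
    ⟨wellFounded_lt.min S ⟨κ, hSκ⟩, wellFounded_lt.min_mem S ⟨κ, hSκ⟩,
      fun a ha => wellFounded_lt.not_lt_min S ha⟩
  have hlow : ∀ a, a < g → ∃ z ∈ D, r a z = r a x := by
    intro a ha
    by_contra hcon
    push Not at hcon
    exact hmin a ⟨ha.le.trans hg.1, fun z hz hzD => hcon z hzD hz⟩ ha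
  rcases Ordinal.zero_or_succ_or_isSuccLimit g with h1 | ⟨μ, h1⟩ | h1
  · exfalso
    rw [h1] at hg
    exact hg.2 (r 0 x) (h.low 0 0 le_rfl hg.1 x) h0
  · refine ⟨μ, ?_, ?_, ?_⟩
    · have : Order.succ μ ≤ κ := by rw [h1]; exact hg.1
      exact Order.succ_le_iff.1 this
    · intro z hz
      refine hg.2 z ?_
      rw [← h1]
      exact hz
    · exact hlow μ (by rw [← h1]; exact Order.lt_succ μ)
  · exfalso
    have hg0 : (0 : Ordinal.{u}) < g := by
      rcases eq_or_ne g 0 with h2 | h2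
      · exact absurd (h2 ▸ h1) (by
          intro h3
          exact h3.ne_bot rfl)
      · exact pos_iff_ne_zero.2 h2
    let Z : {a : Ordinal.{u} // a < g} → Set K := fun a => {z | z ∈ D ∧ r a.1 z = r a.1 x}
    have hcl : ∀ a, IsClosed (Z a) := by
      intro a
      have h2 : IsClosed {z | r a.1 z = r a.1 x} :=
        isClosed_eq (h.cont a.1 (a.2.le.trans hg.1)) continuous_const
      exact hD.inter h2
    have hne : Nonempty {a : Ordinal.{u} // a < g} := ⟨⟨0, hg0⟩⟩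
    have hdir : Directed (fun s t => s ⊇ t) Z := by
      intro a b
      refine ⟨⟨max a.1 b.1, max_lt a.2 b.2⟩, ?_, ?_⟩
      · rintro z ⟨hz1, hz2⟩
        refine ⟨hz1, ?_⟩
        have h3 : max a.1 b.1 ≤ κ := (max_lt a.2 b.2).le.trans hg.1
        rw [← h.low a.1 (max a.1 b.1) (le_max_left _ _) h3 z, hz2,
          h.low a.1 (max a.1 b.1) (le_max_left _ _) h3 x]
      · rintro z ⟨hz1, hz2⟩
        refine ⟨hz1, ?_⟩
        have h3 : max a.1 b.1 ≤ κ := (max_lt a.2 b.2).le.trans hg.1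
        rw [← h.low b.1 (max a.1 b.1) (le_max_right _ _) h3 z, hz2,
          h.low b.1 (max a.1 b.1) (le_max_right _ _) h3 x]
    obtain ⟨z, hz⟩ := IsCompact.nonempty_iInter_of_directed_nonempty_isCompact_isClosed Z hdir
      (fun a => by
        obtain ⟨z, hz1, hz2⟩ := hlow a.1 a.2
        exact ⟨z, hz1, hz2⟩) (fun a => (hcl a).isCompact) hcl
    rw [mem_iInter] at hz
    have hzD : z ∈ D := (hz ⟨0, hg0⟩).1
    refine hg.2 z ?_ hzD
    by_contra hne'
    obtain ⟨U, V, hU, hV, hUz, hVx, hUV⟩ := t2_separation hne'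
    obtain ⟨α, hα, hα'⟩ := h.lim g hg.1 h1 z U (hU.mem_nhds hUz)
    obtain ⟨β, hβ, hβ'⟩ := h.lim g hg.1 h1 x V (hV.mem_nhds hVx)
    have h4 := hα' (max α β) (le_max_left _ _) (max_lt hα hβ)
    have h5 := hβ' (max α β) (le_max_right _ _) (max_lt hα hβ)
    have h6 : r (max α β) z = r (max α β) x := (hz ⟨max α β, max_lt hα hβ⟩).2
    rw [h6] at h4
    exact Set.disjoint_left.1 hUV h4 h5

end Pool.Agent.CKT
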