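import Pool.Agent.CKT.Defs4

/-!
Row CH4: chains of retractions, first entry into a closed set and first exit.
-/

set_option autoImplicit false

open Set Filter Topology

namespace Pool.Agent.CKT

universe u v

/-! ROW CH4 (Ch4.lean) -/
theorem chain_const (K : Type u) [TopologicalSpace K] (κ : Ordinal.{u})
    (r : Ordinal.{u} → K → K) (h : Chain K κ r) (f : C(K, ℝ)) (x : K) (α l : Ordinal.{u})
    (hα : α ≤ l) (hl : l ≤ κ)
    (hc : ∀ β, α ≤ β → β < l → f (r (Order.succ β) x) = f (r β x)) :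
    f (r l x) = f (r α x) := by
  induction l using WellFoundedLT.induction with
  | ind l ih =>
    rcases eq_or_lt_of_le hα with heq | hlt
    · rw [heq]
    rcases Ordinal.zero_or_succ_or_isSuccLimit l with h0 | ⟨l', hl'⟩ | hlim
    · rw [h0] at hlt
      exact absurd hlt (not_lt.2 zero_le)
    · subst hl'
      have h1 : α ≤ l' := Order.lt_succ_iff.1 hlt
      have h2 : l' < Order.succ l' := Order.lt_succ l'
      rw [hc l' h1 h2]
      exact ih l' h2 h1 (h2.le.trans hl) fun β hβ1 hβ2 => hc β hβ1 (hβ2.trans h2)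
    · by_contra hne
      have hU : f ⁻¹' {f (r α x)}ᶜ ∈ 𝓝 (r l x) := by
        apply (isOpen_compl_singleton.preimage f.continuous).mem_nhds
        exact hne
      obtain ⟨α', hα', hα''⟩ := h.lim l hl hlim x _ hU
      have h3 : max α α' < l := max_lt hlt hα'
      have h4 := hα'' (max α α') (le_max_right _ _) h3
      have h5 := ih (max α α') h3 (le_max_left _ _) (h3.le.trans hl)
        fun β hβ1 hβ2 => hc β hβ1 (hβ2.trans h3)
      exact h4 h5

/-- the first entry into a closed set -/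
theorem chain_entry (K : Type u) [TopologicalSpace K] (κ : Ordinal.{u})
    (r : Ordinal.{u} → K → K) (h : Chain K κ r) (M : Set K) (x : K)
    (α l : Ordinal.{u}) (hα : α ≤ l) (hl : l ≤ κ) (h0 : r α x ∉ M) (h1 : r l x ∈ M) :
    (∃ β, α ≤ β ∧ β < l ∧ r β x ∉ M ∧ r (Order.succ β) x ∈ M) ∨
      ∃ m, α < m ∧ m ≤ l ∧ Order.IsSuccLimit m ∧ r m x ∈ M ∧
        ∀ β, α ≤ β → β < m → r β x ∉ M := by
  obtain ⟨m, ⟨hm1, hm2, hm3⟩, hmin⟩ := WellFounded.has_min
    (wellFounded_lt : WellFounded (fun a b : Ordinal.{u} => a < b))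
    {m | α ≤ m ∧ m ≤ l ∧ r m x ∈ M} ⟨l, hα, le_rfl, h1⟩
  have hmin' : ∀ β, α ≤ β → β < m → r β x ∉ M := fun β hβ1 hβ2 hβ3 =>
    hmin β ⟨hβ1, hβ2.le.trans hm2, hβ3⟩ hβ2
  have hαm : α < m := by
    rcases eq_or_lt_of_le hm1 with heq | hlt
    · rw [← heq] at hm3
      exact absurd hm3 h0
    · exact hlt
  rcases Ordinal.zero_or_succ_or_isSuccLimit m with hz | ⟨β, hβ⟩ | hlim
  · rw [hz] at hαm
    exact absurd hαm (not_lt.2 zero_le)
  · subst hβ
    have h2 : β < Order.succ β := Order.lt_succ β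
    have h3 : α ≤ β := Order.lt_succ_iff.1 hαm
    exact Or.inl ⟨β, h3, lt_of_lt_of_le h2 hm2, hmin' β h3 h2, hm3⟩
  · exact Or.inr ⟨m, hαm, hm2, hlim, hm3, hmin'⟩

/-- the first exit from a closed set is a successor -/
theorem chain_exit (K : Type u) [TopologicalSpace K] (κ : Ordinal.{u})
    (r : Ordinal.{u} → K → K) (h : Chain K κ r) (M : Set K) (hM : IsClosed M) (x : K)
    (α l : Ordinal.{u}) (hα : α ≤ l) (hl : l ≤ κ) (h0 : r α x ∈ M) (h1 : r l x ∉ M) :
    ∃ β, α ≤ β ∧ β < l ∧ r β x ∈ M ∧ r (Order.succ β) x ∉ M := by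
  obtain ⟨m, ⟨hm1, hm2, hm3⟩, hmin⟩ := WellFounded.has_min
    (wellFounded_lt : WellFounded (fun a b : Ordinal.{u} => a < b))
    {m | α ≤ m ∧ m ≤ l ∧ r m x ∉ M} ⟨l, hα, le_rfl, h1⟩
  have hmin' : ∀ β, α ≤ β → β < m → r β x ∈ M := fun β hβ1 hβ2 => by
    by_contra hβ3
    exact hmin β ⟨hβ1, hβ2.le.trans hm2, hβ3⟩ hβ2
  have hαm : α < m := by
    rcases eq_or_lt_of_le hm1 with heq | hlt
    · rw [← heq] at hm3
      exact absurd h0 hm3
    · exact hlt
  rcases Ordinal.zero_or_succ_or_isSuccLimit m with hz | ⟨β, hβ⟩ | hlim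
  · rw [hz] at hαm
    exact absurd hαm (not_lt.2 zero_le)
  · subst hβ
    have h2 : β < Order.succ β := Order.lt_succ β
    have h3 : α ≤ β := Order.lt_succ_iff.1 hαm
    exact ⟨β, h3, lt_of_lt_of_le h2 hm2, hmin' β h3 h2, hm3⟩
  · obtain ⟨α', hα', hα''⟩ := h.lim m (hm2.trans hl) hlim x _ (hM.isOpen_compl.mem_nhds hm3)
    have h3 : max α α' < m := max_lt hαm hα'
    exact absurd (hmin' (max α α') (le_max_left _ _) h3) (hα'' (max α α') (le_max_right _ _) h3)

end Pool.Agent.CKT
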