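import Pool.Agent.CKT.Ch2
import Pool.Agent.CKT.Ch4

/-!
# Chains of retractions: the separation of the sets where `|f|` is large
-/

set_option autoImplicit false

open Set Filter Topology

namespace Pool.Agent.CKT

universe u v

theorem chain_top (K : Type u) [TopologicalSpace K] [CompactSpace K] [T2Space K]
    (κ : Ordinal.{u}) (r : Ordinal.{u} → K → K) (h : Chain K κ r) (D : Set K) (hD : IsClosed D)
    (h0 : ∀ x, r 0 x ∈ D) (f : C(K, ℝ)) (q : ℝ) (hfD : ∀ x ∈ D, |f x| < q)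
    (hx : ∃ x, q ≤ |f x|) :
    ∃ β < κ, ∃ c, r (Order.succ β) c = c ∧ f c ≠ f (r β c) ∧
      (q ≤ |f c| ∨ q ≤ |f (r β c)| ∨
        ((∀ z, r (Order.succ β) z = c → z ∉ D) ∧
          ∃ z, r (Order.succ β) z = c ∧ q ≤ |f z|)) := by
  obtain ⟨x, hx⟩ := hx
  have hxD : x ∉ D := fun hD' => absurd (hfD x hD') (not_lt.2 hx)
  obtain ⟨μ, hμκ, hμ, d, hd, hdμ⟩ := chain_gamma K κ r h D hD x hxD (h0 x)
  obtain ⟨M, hMdef⟩ : ∃ M : Set K, M = {z | q ≤ |f z|} := ⟨_, rfl⟩
  have hM : ∀ z, z ∈ M ↔ q ≤ |f z| := by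
    intro z
    rw [hMdef]
    rfl
  have hMc : IsClosed M := by
    rw [hMdef]
    exact isClosed_le continuous_const f.continuous.abs
  have hDM : ∀ z ∈ D, z ∉ M := fun z hz hzM => absurd (hfD z hz) (not_lt.2 ((hM z).1 hzM))
  have hne : ∀ z w, z ∈ M → w ∉ M → f z ≠ f w := by
    intro z w hz hw he
    rw [hM] at hz hw
    rw [he] at hz
    exact hw hz
  have hxM : x ∈ M := (hM x).2 hx
  have hidem : ∀ β, β ≤ κ → ∀ z, r β (r β z) = r β z := fun β hβ z => h.low β β le_rfl hβ z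
  rcases chain_entry K κ r h M x 0 κ zero_le le_rfl (hDM _ (h0 x)) (by rw [h.last]; exact hxM)
    with ⟨β, -, hβ, hb1, hb2⟩ | ⟨m, -, hmκ, hml, hmM, hmb⟩
  · have hβ' : Order.succ β ≤ κ := Order.succ_le_of_lt hβ
    refine ⟨β, hβ, r (Order.succ β) x, hidem _ hβ' x, ?_, Or.inl ((hM _).1 hb2)⟩
    rw [h.low β (Order.succ β) (Order.le_succ β) hβ' x]
    exact hne _ _ hb2 hb1
  · by_cases hm : Order.succ μ < m
    · obtain ⟨β, hβ1, hβ2, hβ3⟩ : ∃ β, Order.succ μ ≤ β ∧ β < m ∧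
          f (r (Order.succ β) x) ≠ f (r β x) := by
        by_contra hcon
        push Not at hcon
        have h1 := chain_const K κ r h f x (Order.succ μ) m hm.le hmκ hcon
        exact hne _ _ hmM (hmb _ zero_le hm) h1
      have hβ : β < κ := lt_of_lt_of_le hβ2 hmκ
      have hβ' : Order.succ β ≤ κ := Order.succ_le_of_lt hβ
      have hμβ : Order.succ μ ≤ Order.succ β := hβ1.trans (Order.le_succ β)
      refine ⟨β, hβ, r (Order.succ β) x, hidem _ hβ' x, ?_, Or.inr (Or.inr ⟨?_, ?_⟩)⟩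
      · rw [h.low β (Order.succ β) (Order.le_succ β) hβ' x]
        exact hβ3
      · intro z hz
        apply hμ
        rw [← h.low (Order.succ μ) (Order.succ β) hμβ hβ' z, hz,
          h.low (Order.succ μ) (Order.succ β) hμβ hβ' x]
      · exact ⟨r m x, h.low (Order.succ β) m (Order.succ_le_of_lt hβ2) hmκ x, (hM _).1 hmM⟩
    · have hmμ : m ≤ μ := by
        rcases lt_or_eq_of_le (not_lt.1 hm) with h1 | h1
        · exact Order.lt_succ_iff.1 h1
        · rw [h1] at hml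
          exact absurd hml (Order.not_isSuccLimit_succ μ)
      have hdm : r m d = r m x := by
        rw [← h.low m μ hmμ hμκ.le d, hdμ, h.low m μ hmμ hμκ.le x]
      obtain ⟨β, hβ1, hβ2, hβ3, hβ4⟩ := chain_exit K κ r h M hMc d m κ hmκ le_rfl
        (by rw [hdm]; exact hmM) (by rw [h.last]; exact hDM d hd)
      have hβ' : Order.succ β ≤ κ := Order.succ_le_of_lt hβ2
      have hlow := h.low β (Order.succ β) (Order.le_succ β) hβ' d
      refine ⟨β, hβ2, r (Order.succ β) d, hidem _ hβ' d, ?_, Or.inr (Or.inl ?_)⟩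
      · rw [hlow]
        exact (hne _ _ hβ3 hβ4).symm
      · rw [hlow]
        exact (hM _).1 hβ3

end Pool.Agent.CKT
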