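import Pool.Agent.CKT.Defs4
import Pool.Agent.CKT.Ch1
import Pool.Agent.CKT.Ch1b
import Pool.Agent.CKT.Ch5

/-!
# The system of pairs of a chain of retractions (MP_0211b8_an)
-/

set_option autoImplicit false

open Set Filter Topology

namespace Pool.Agent.CKT

universe u v

theorem chain_tal (K : Type u) [TopologicalSpace K] [CompactSpace K] [T2Space K]
    (κ : Ordinal.{u}) (r : Ordinal.{u} → K → K) (h : Chain K κ r) (hI : Incr K κ r) (D : Set K)
    (hD : IsClosed D) (h0 : ∀ x, r 0 x ∈ D) :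
    ∃ (Y : K × Fin 3 → Set K) (a b : K × Fin 3 → K) (P : K × Fin 3 → ℕ),
      Tal K D (K × Fin 3) Y a b P ∧ ∀ j, (Y j).Subsingleton ∨
        ∃ β < κ, ∃ c, Y j = {z | r (Order.succ β) z = c} ∧ ∀ z ∈ Y j, z ∉ D := by
  classical
  -- the step of a point is unique
  have huniq : ∀ (c : K) (β β' : Ordinal.{u}), β < κ → r (Order.succ β) c = c → r β c ≠ c →
      β' < κ → r (Order.succ β') c = c → r β' c ≠ c → β = β' := by
    have key : ∀ (c : K) (β β' : Ordinal.{u}), r (Order.succ β) c = c → β' < κ → r β' c ≠ c →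
        ¬ β < β' := by
      intro c β β' h1 h2 h3 h4
      apply h3
      have := h.up (Order.succ β) β' (Order.succ_le_of_lt h4) h2.le c
      rwa [h1] at this
    intro c β β' a1 a2 a3 b1 b2 b3
    exact le_antisymm (not_lt.1 (key c β' β b2 a1 a3)) (not_lt.1 (key c β β' a2 b1 b3))
  -- colours
  have hcol : ∀ β : Ordinal.{u}, ∃ P : K → ℕ, β < κ → ∀ (m : ℕ) (x : K),
      r (Order.succ β) x = x → r β x ≠ x →
      ∃ V ∈ 𝓝 x, {y | y ∈ V ∧ r (Order.succ β) y = y ∧ r β y ≠ y ∧ P y = m}.Finite := by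
    intro β
    by_cases hβ : β < κ
    · obtain ⟨P, hP⟩ := hI β hβ
      exact ⟨P, fun _ => hP⟩
    · exact ⟨fun _ => 0, fun h => absurd h hβ⟩
  choose PP hPP using hcol
  -- the data of a point
  have hdat : ∀ c : K, ∃ (b : K) (p : ℕ) (Z : Set K), IsClosed Z ∧
      (b ≠ c → ∃ β < κ, r (Order.succ β) c = c ∧ b = r β c ∧ p = PP β c) ∧
      (∀ β < κ, r (Order.succ β) c = c → r β c ≠ c → b = r β c ∧
        ((∀ z, r (Order.succ β) z = c → z ∉ D) → Z = {z | r (Order.succ β) z = c})) ∧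
      (Z = ∅ ∨ ∃ β < κ, Z = {z | r (Order.succ β) z = c} ∧ ∀ z ∈ Z, z ∉ D) := by
    intro c
    by_cases hc : ∃ β < κ, r (Order.succ β) c = c ∧ r β c ≠ c
    · obtain ⟨β, h1, h2, h3⟩ := hc
      by_cases hz : ∀ z, r (Order.succ β) z = c → z ∉ D
      · refine ⟨r β c, PP β c, {z | r (Order.succ β) z = c},
          isClosed_singleton.preimage (h.cont _ (Order.succ_le_of_lt h1)),
          fun _ => ⟨β, h1, h2, rfl, rfl⟩, ?_, Or.inr ⟨β, h1, rfl, hz⟩⟩
        intro β' k1 k2 k3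
        have := huniq c β β' h1 h2 h3 k1 k2 k3
        subst this
        exact ⟨rfl, fun _ => rfl⟩
      · refine ⟨r β c, PP β c, ∅, isClosed_empty,
          fun _ => ⟨β, h1, h2, rfl, rfl⟩, ?_, Or.inl rfl⟩
        intro β' k1 k2 k3
        have := huniq c β β' h1 h2 h3 k1 k2 k3
        subst this
        exact ⟨rfl, fun k => absurd k hz⟩
    · refine ⟨c, 0, ∅, isClosed_empty, fun k => absurd rfl k, ?_, Or.inl rfl⟩
      intro β' k1 k2 k3
      exact absurd ⟨β', k1, k2, k3⟩ hc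
  choose b p Z hZ hb1 hb2 hb3 using hdat
  let Y : K × Fin 3 → Set K := fun j =>
    if j.2 = 0 then {j.1} else if j.2 = 1 then {b j.1} else Z j.1
  have hY0 : ∀ c, Y (c, 0) = {c} := fun c => by simp [Y]
  have hY1 : ∀ c, Y (c, 1) = {b c} := fun c => by simp [Y]
  have hY2 : ∀ c, Y (c, 2) = Z c := fun c => by simp [Y]
  refine ⟨Y, fun j => j.1, fun j => b j.1, fun j => p j.1, ⟨?_, ?_, ?_⟩, ?_⟩
  · rintro ⟨c, k⟩
    fin_cases k
    · exact (hY0 c).symm ▸ isClosed_singleton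
    · exact (hY1 c).symm ▸ isClosed_singleton
    · exact (hY2 c).symm ▸ hZ c
  · intro m U hU hd
    have hB := chain_fin K κ r h U hU hd
    have hF : (⋃ β ∈ {β | β < κ ∧ ∃ x, r (Order.succ β) x = x ∧ (x, r β x) ∉ U},
        {x | r (Order.succ β) x = x ∧ PP β x = m ∧ (x, r β x) ∉ U}).Finite := by
      refine hB.biUnion ?_
      rintro β ⟨hβ, -⟩
      exact incr_fin K κ r h β hβ (PP β) (hPP β hβ) m U hU hd
    refine (hF.prod (Set.finite_univ (α := Fin 3))).subset ?_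
    rintro ⟨c, k⟩ ⟨h1, h2⟩
    simp only at h1 h2
    refine ⟨?_, mem_univ _⟩
    have hne : b c ≠ c := by
      intro h3
      rw [h3] at h2
      exact h2 (hd c)
    obtain ⟨β, k1, k2, k3, k4⟩ := hb1 c hne
    rw [k3] at h2
    rw [k4] at h1
    exact mem_biUnion (show β ∈ {β | β < κ ∧ ∃ x, r (Order.succ β) x = x ∧ (x, r β x) ∉ U} from
      ⟨k1, c, k2, h2⟩) ⟨k2, h1, h2⟩
  · intro f q _ hfD hx
    obtain ⟨β, hβ, c, h1, h2, h3⟩ := chain_top K κ r h D hD h0 f q hfD hx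
    have hne : r β c ≠ c := fun h => h2 (by rw [h])
    obtain ⟨k1, k2⟩ := hb2 c β hβ h1 hne
    rcases h3 with h3 | h3 | ⟨h3, z, h4, h5⟩
    · exact ⟨(c, 0), ⟨c, (hY0 c).symm ▸ mem_singleton c, h3⟩, by simpa [k1] using h2⟩
    · refine ⟨(c, 1), ⟨b c, (hY1 c).symm ▸ mem_singleton _, ?_⟩, by simpa [k1] using h2⟩
      rwa [k1]
    · refine ⟨(c, 2), ⟨z, ?_, h5⟩, by simpa [k1] using h2⟩
      rw [hY2, k2 h3]
      exact h4
  · rintro ⟨c, k⟩
    fin_cases k
    · exact Or.inl ((hY0 c).symm ▸ subsingleton_singleton)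
    · exact Or.inl ((hY1 c).symm ▸ subsingleton_singleton)
    · rcases hb3 c with h1 | ⟨β, hβ, h1, h2⟩
      · left
        change (Y (c, 2)).Subsingleton
        rw [hY2, h1]
        exact subsingleton_empty
      · right
        refine ⟨β, hβ, c, ?_, ?_⟩
        · change Y (c, 2) = _
          rw [hY2, h1]
        · change ∀ z ∈ Y (c, 2), z ∉ D
          rw [hY2]
          exact h2

end Pool.Agent.CKT
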