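import Pool.Agent.CKT.Defs2
import Pool.Agent.CKT.Perm

/-!
# Smooth bump functions on C(K): from relative bumps to bumps (MP_0211b8_an)
-/

set_option autoImplicit false

open Set Filter Topology

namespace Pool.Agent.CKT

universe u v

private theorem com_nice_restrict {K : Type u} [TopologicalSpace K] [CompactSpace K] (D : Set K)
    [CompactSpace D] (b : C(D, ℝ) → ℝ) (hb : ContDiff ℝ (⊤ : ℕ∞) b) (hl : ∀ f, Loc b f)
    (f : C(K, ℝ)) : Nice (fun g : C(K, ℝ) => b (g.restrict D)) f := by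
  have hc : ContDiff ℝ (⊤ : ℕ∞) (fun g : C(K, ℝ) => g.restrict D) := contDiff_restrict D
  refine ⟨(hb.comp hc).contDiffAt, ?_⟩
  obtain ⟨U, hU, E, hE, h⟩ := hl (f.restrict D)
  refine ⟨(fun g : C(K, ℝ) => g.restrict D) ⁻¹' U, hc.continuous.continuousAt hU,
    Subtype.val '' E, hE.image _, ?_⟩
  intro g hg g' hg' hz
  apply h _ hg _ hg'
  intro z hzE
  exact hz z ⟨z, hzE, rfl⟩

theorem hasBumps_of_rel (K : Type u) [TopologicalSpace K] [CompactSpace K] (D : Set K)
    (hD : IsClosed D) (h : RelBumps K D)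
    (hB : @HasBumps D _ (isCompact_iff_compactSpace.1 hD.isCompact)) : HasBumps K := by
  haveI hDc : CompactSpace D := isCompact_iff_compactSpace.1 hD.isCompact
  intro r R hr hrR
  obtain ⟨s, hs1, hs2⟩ := exists_between hrR
  obtain ⟨s', hs3, hs4⟩ := exists_between hs2
  obtain ⟨bD, d1, d2, d3, d4, d5⟩ := hB r s hr hs1
  obtain ⟨c, c1, c2, c3, c4⟩ := h s' R (by linarith) hs4
  have hev : ∀ (g : C(K, ℝ)) (y : K), y ∈ D → |g y| ≤ ‖g.restrict D‖ := by
    intro g y hy
    have := (g.restrict D).norm_coe_le_norm ⟨y, hy⟩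
    rwa [Real.norm_eq_abs] at this
  have hnice : ∀ f, Nice (fun g : C(K, ℝ) => bD (g.restrict D) * c g) f := by
    intro f
    by_cases hf : ∀ y ∈ D, |f y| < s'
    · exact (com_nice_restrict D bD d1 d2 f).mul (c1 f hf)
    · push Not at hf
      obtain ⟨y, hy, hy'⟩ := hf
      apply (nice_const 0 f).congr
      have h1 : ∀ᶠ g : C(K, ℝ) in 𝓝 f, s < |g y| := by
        have hc : Continuous fun g : C(K, ℝ) => |g y| :=
          ((contDiff_ev y).continuous).abs
        exact hc.continuousAt.eventually_const_lt (lt_of_lt_of_le hs3 hy')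
      filter_upwards [h1] with g hg
      rw [d5 (g.restrict D) (le_trans hg.le (hev g y hy)), zero_mul]
  refine ⟨fun g => bD (g.restrict D) * c g, ?_, fun f => (hnice f).2, ?_, ?_, ?_⟩
  · exact contDiff_iff_contDiffAt.2 fun f => (hnice f).1
  · intro f
    obtain ⟨a1, a2⟩ := d3 (f.restrict D)
    obtain ⟨b1, b2⟩ := c2 f
    exact ⟨mul_nonneg a1 b1, mul_le_one₀ a2 b1 b2⟩
  · intro f hf
    have h1 : ‖f.restrict D‖ ≤ r := by
      rw [ContinuousMap.norm_le _ hr.le]
      intro y
      exact le_trans (f.norm_coe_le_norm y) hf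
    show bD (f.restrict D) * c f = 1
    rw [d4 _ h1, c3 f (by linarith), one_mul]
  · intro f hf
    show bD (f.restrict D) * c f = 0
    by_cases h2 : ∀ y ∈ D, |f y| < s'
    · rw [c4 f h2 hf, mul_zero]
    · push Not at h2
      obtain ⟨y, hy, hy'⟩ := h2
      rw [d5 (f.restrict D) (le_trans (le_trans hs3.le hy') (hev f y hy)), zero_mul]

theorem hasBumps_of_empty (K : Type u) [TopologicalSpace K] [CompactSpace K]
    (h : RelBumps K ∅) : HasBumps K := by
  intro r R hr hrR
  obtain ⟨b, b1, b2, b3, b4⟩ := h r R hr hrR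
  refine ⟨b, ?_, ?_, b2, b3, ?_⟩
  · exact contDiff_iff_contDiffAt.2 fun f => (b1 f (by simp)).1
  · exact fun f => (b1 f (by simp)).2
  · exact fun f hf => b4 f (by simp) hf

end Pool.Agent.CKT
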