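import Pool.Agent.CKT.Defs

set_option autoImplicit false

open Set Filter Topology

namespace Pool.Agent.CKT

universe u

section sdh

variable {K : Type u} [TopologicalSpace K]

/-- the union of the neighbourhoods of the points of colour `n` -/
private def SDH_O (D : Set K) (P : K → ℕ) (n : ℕ) : Set K :=
  {z | ∃ x, x ∉ D ∧ P x = n ∧ ∃ U : Set K, IsOpen U ∧ z ∈ U ∧ x ∈ U ∧
    ∀ y ∈ U, y ∉ D → P y = n → y = x}

/-- the same without the points of colour `n` -/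
private def SDH_G (D : Set K) (P : K → ℕ) (n : ℕ) : Set K :=
  {z | z ∈ SDH_O D P n ∧ ¬ (z ∉ D ∧ P z = n)}

private theorem SDH_open [T1Space K] (D : Set K) (P : K → ℕ) (n : ℕ) : IsOpen (SDH_G D P n) := by
  rw [isOpen_iff_mem_nhds]
  rintro z ⟨⟨x, hx, hPx, U, hU, hzU, hxU, huniq⟩, hz⟩
  have hzx : z ≠ x := by
    rintro rfl
    exact hz ⟨hx, hPx⟩
  have h1 : U \ {x} ∈ 𝓝 z := by
    refine IsOpen.mem_nhds (hU.sdiff isClosed_singleton) ⟨hzU, ?_⟩
    rw [mem_singleton_iff]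
    exact hzx
  refine mem_of_superset h1 ?_
  rintro w ⟨hwU, hwx⟩
  refine ⟨⟨x, hx, hPx, U, hU, hwU, hxU, huniq⟩, ?_⟩
  rintro ⟨hwD, hPw⟩
  exact hwx (mem_singleton_iff.2 (huniq w hwU hwD hPw))

open Classical in
/-- the terms of the height -/
private noncomputable def SDH_f (D : Set K) (P : K → ℕ) (z : K) (n : ℕ) : ℝ :=
  if z ∈ SDH_G D P n then (1 / 2 : ℝ) ^ (n + 1) else 0

private theorem SDH_f0 (D : Set K) (P : K → ℕ) (z : K) (n : ℕ) : 0 ≤ SDH_f D P z n := by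
  unfold SDH_f
  split_ifs <;> positivity

private theorem SDH_f1 (D : Set K) (P : K → ℕ) (z : K) (n : ℕ) :
    SDH_f D P z n ≤ (1 / 2 : ℝ) ^ (n + 1) := by
  unfold SDH_f
  split_ifs
  · exact le_rfl
  · positivity

private theorem SDH_geo (k : ℕ) : HasSum (fun n : ℕ => (1 / 2 : ℝ) ^ (n + k + 1))
    ((1 / 2 : ℝ) ^ k) := by
  have h := (hasSum_geometric_two).mul_left ((1 / 2 : ℝ) ^ (k + 1))
  have e1 : (1 / 2 : ℝ) ^ (k + 1) * 2 = (1 / 2 : ℝ) ^ k := by
    rw [pow_succ]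
    ring
  rw [e1] at h
  refine h.congr_fun ?_
  intro n
  show (1 / 2 : ℝ) ^ (n + k + 1) = (1 / 2 : ℝ) ^ (k + 1) * (1 / 2) ^ n
  rw [← pow_add]
  congr 1
  omega

private theorem SDH_sum (D : Set K) (P : K → ℕ) (z : K) : Summable (SDH_f D P z) :=
  Summable.of_nonneg_of_le (SDH_f0 D P z) (SDH_f1 D P z) (SDH_geo 0).summable

end sdh

/-- SDH -/
theorem exists_height (K : Type u) [TopologicalSpace K] [T1Space K] (D : Set K) (hD : IsClosed D)
    (P : K → ℕ)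
    (hP : ∀ x, x ∉ D → ∃ V ∈ 𝓝 x, ∀ y ∈ V, y ∉ D → P y = P x → y = x) :
    ∃ h e : K → ℝ, (∀ x, 0 ≤ h x ∧ h x ≤ 1) ∧ (∀ x, 0 < e x ∧ e x ≤ 1) ∧
      ∀ y, y ∉ D → ∃ V ∈ 𝓝 y, ∀ x ∈ V, x ∉ D → x ≠ y → h y + e y ≤ h x := by
  classical
  refine ⟨fun z => ∑' n, SDH_f D P z n, fun y => (1 / 2 : ℝ) ^ (P y + 2), ?_, ?_, ?_⟩
  · intro z
    refine ⟨tsum_nonneg (SDH_f0 D P z), ?_⟩
    have h1 := Summable.tsum_le_tsum (SDH_f1 D P z) (SDH_sum D P z) (SDH_geo 0).summable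
    have h2 := (SDH_geo 0).tsum_eq
    rw [pow_zero] at h2
    exact h1.trans (le_of_eq h2)
  · intro y
    exact ⟨by positivity, pow_le_one₀ (by norm_num) (by norm_num)⟩
  · intro y hy
    obtain ⟨V, hV, hVu⟩ := hP y hy
    obtain ⟨U, hUV, hU, hyU⟩ := mem_nhds_iff.1 hV
    have hn : (⋂ m ∈ Finset.range (P y + 2), (if y ∈ SDH_G D P m then SDH_G D P m else univ))
        ∈ 𝓝 y := by
      rw [Filter.biInter_finset_mem]
      intro m _
      by_cases hm : y ∈ SDH_G D P m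
      · rw [if_pos hm]
        exact (SDH_open D P m).mem_nhds hm
      · rw [if_neg hm]
        exact univ_mem
    refine ⟨U ∩ ⋂ m ∈ Finset.range (P y + 2), (if y ∈ SDH_G D P m then SDH_G D P m else univ),
      inter_mem (hU.mem_nhds hyU) hn, ?_⟩
    rintro x ⟨hxU, hxn⟩ hxD hxy
    rw [mem_iInter₂] at hxn
    have hmono : ∀ m ∈ Finset.range (P y + 2), SDH_f D P y m ≤ SDH_f D P x m := by
      intro m hm
      by_cases hym : y ∈ SDH_G D P m
      · have h1 := hxn m hm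
        rw [if_pos hym] at h1
        unfold SDH_f
        rw [if_pos hym, if_pos h1]
      · have h2 : SDH_f D P y m = 0 := if_neg hym
        rw [h2]
        exact SDH_f0 D P x m
    have hyN : SDH_f D P y (P y) = 0 := if_neg fun h => h.2 ⟨hy, rfl⟩
    have hxN : SDH_f D P x (P y) = (1 / 2 : ℝ) ^ (P y + 1) := by
      refine if_pos ⟨⟨y, hy, rfl, U, hU, hxU, hyU, fun z hz hzD hPz => hVu z (hUV hz) hzD hPz⟩, ?_⟩
      rintro ⟨_, hPx⟩
      exact hxy (hVu x (hUV hxU) hxD hPx)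
    have h1 : ∑ m ∈ Finset.range (P y + 2), SDH_f D P x m ≤ ∑' n, SDH_f D P x n :=
      Summable.sum_le_tsum _ (fun m _ => SDH_f0 D P x m) (SDH_sum D P x)
    have h2 : ∑ m ∈ Finset.range (P y + 2), SDH_f D P y m
        + ∑' n, SDH_f D P y (n + (P y + 2)) = ∑' n, SDH_f D P y n :=
      Summable.sum_add_tsum_nat_add (P y + 2) (SDH_sum D P y)
    have h3 : ∑' n, SDH_f D P y (n + (P y + 2)) ≤ (1 / 2 : ℝ) ^ (P y + 2) := by
      rw [← (SDH_geo (P y + 2)).tsum_eq]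
      refine Summable.tsum_le_tsum (fun n => SDH_f1 D P y (n + (P y + 2))) ?_
        (SDH_geo (P y + 2)).summable
      exact (summable_nat_add_iff (P y + 2)).2 (SDH_sum D P y)
    have h4 : (1 / 2 : ℝ) ^ (P y + 1) ≤ ∑ m ∈ Finset.range (P y + 2),
        (SDH_f D P x m - SDH_f D P y m) := by
      have h5 := Finset.single_le_sum (f := fun m => SDH_f D P x m - SDH_f D P y m)
        (fun m hm => sub_nonneg.2 (hmono m hm))
        (Finset.mem_range.2 (show P y < P y + 2 by omega))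
      refine le_trans (le_of_eq ?_) h5
      show (1 / 2 : ℝ) ^ (P y + 1) = SDH_f D P x (P y) - SDH_f D P y (P y)
      rw [hyN, hxN, sub_zero]
    rw [Finset.sum_sub_distrib] at h4
    have h6 : (1 / 2 : ℝ) ^ (P y + 1) = 2 * (1 / 2 : ℝ) ^ (P y + 2) := by
      rw [pow_succ _ (P y + 1)]
      ring
    show ∑' n, SDH_f D P y n + (1 / 2 : ℝ) ^ (P y + 2) ≤ ∑' n, SDH_f D P x n
    linarith

end Pool.Agent.CKT
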