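import Pool.Agent.CKT.Defs3
import Pool.Agent.CKT.Psp
import Pool.Agent.CKT.Gen
import Pool.Agent.CKT.Img2
import Pool.Agent.CKT.Quo
import Pool.Agent.CKT.Com
import Pool.Agent.CKT.Sdh

/-!
# Permanence properties of good compact spaces
-/

set_option autoImplicit false

open Set Filter Topology

namespace Pool.Agent.CKT

universe u v

theorem RelBumps.mono {K : Type u} [TopologicalSpace K] [CompactSpace K] {D D' : Set K}
    (h : RelBumps K D) (hDD : D ⊆ D') : RelBumps K D' := by
  intro p q hp hpq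
  obtain ⟨b, h1, h2, h3, h4⟩ := h p q hp hpq
  exact ⟨b, fun f hf => h1 f fun y hy => hf y (hDD hy), h2, h3,
    fun f hf => h4 f fun y hy => hf y (hDD hy)⟩

theorem HasBumps.rel {K : Type u} [TopologicalSpace K] [CompactSpace K] (h : HasBumps K)
    (D : Set K) : RelBumps K D := by
  intro p q hp hpq
  obtain ⟨b, h1, h2, h3, h4, h5⟩ := h p q hp hpq
  exact ⟨b, fun f _ => ⟨h1.contDiffAt, h2 f⟩, h3, h4, fun f _ => h5 f⟩

theorem IsGood.rel {K : Type u} [TopologicalSpace K] (h : IsGood K) (hc : CompactSpace K)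
    (D : Set K) : @RelBumps K _ hc D := by
  obtain ⟨_, _, h3⟩ := h
  exact h3.rel D

theorem good_image (K K' : Type u) [TopologicalSpace K] [TopologicalSpace K'] [T2Space K']
    (p : K → K') (hp : Continuous p) (hs : Function.Surjective p) (h : IsGood K) :
    IsGood K' := by
  obtain ⟨h1, h2, h3⟩ := h
  have hc' : CompactSpace K' := hs.compactSpace hp
  exact ⟨hc', inferInstance, hasBumps_of_empty K' (perm_image K K' p hp hs ∅ (h3.rel _))⟩

theorem good_ext (K : Type u) [TopologicalSpace K] [CompactSpace K] [T2Space K] (D : Set K)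
    (hD : IsClosed D) (h1 : IsGood D) (h2 : IsGood (OnePoint (Dᶜ : Set K))) : IsGood K := by
  refine ⟨inferInstance, inferInstance, ?_⟩
  obtain ⟨_, _, h3⟩ := h1
  exact hasBumps_of_rel K D hD (perm_quot K D hD (h2.rel inferInstance _)) h3

theorem good_cunion (K : Type u) [TopologicalSpace K] [CompactSpace K] [T2Space K]
    (E : ℕ → Set K) (hE : ∀ n, IsClosed (E n)) (hc : ⋃ n, E n = univ)
    (h : ∀ n, IsGood (E n)) : IsGood K := by
  classical
  refine ⟨inferInstance, inferInstance, hasBumps_of_empty K ?_⟩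
  have hex : ∀ x : K, ∃ n, x ∈ E n := fun x => by
    have : x ∈ ⋃ n, E n := hc ▸ mem_univ x
    exact mem_iUnion.1 this
  let i : K → ULift.{u} ℕ := fun x => ⟨Nat.find (hex x)⟩
  let C : ULift.{u} ℕ → Set K := fun j => E j.down
  let B : ULift.{u} ℕ → Set K := fun j => E j.down ∩ ⋃ m ∈ Finset.range j.down, E m
  have hi : ∀ x, x ∈ E (i x).down := fun x => Nat.find_spec (hex x)
  have himin : ∀ x m, x ∈ E m → (i x).down ≤ m := fun x m hm => Nat.find_min' (hex x) hm
  have hB : ∀ j x, x ∈ B j ↔ x ∈ E j.down ∧ ∃ m < j.down, x ∈ E m := by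
    intro j x
    simp [B]
  have hpow : ∀ n : ℕ, (0 : ℝ) < (1 / 2) ^ n ∧ ((1 / 2 : ℝ)) ^ n ≤ 1 := fun n =>
    ⟨by positivity, pow_le_one₀ (by norm_num) (by norm_num)⟩
  have hG : Gen K ∅ (ULift.{u} ℕ) C B i (fun j => 1 - (1 / 2) ^ j.down)
      (fun j => (1 / 2) ^ (j.down + 1)) := by
    have hlt : ∀ a b : ℕ, a < b → (1 : ℝ) - (1 / 2) ^ a + (1 / 2) ^ (a + 1) ≤ 1 - (1 / 2) ^ b := by
      intro a b hab
      have h1 : ((1 / 2 : ℝ)) ^ b ≤ (1 / 2) ^ (a + 1) :=
        pow_le_pow_of_le_one (by norm_num) (by norm_num) hab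
      have h2 : ((1 / 2 : ℝ)) ^ (a + 1) = (1 / 2) ^ a / 2 := by rw [pow_succ]; ring
      linarith
    refine ⟨fun j => hE _, ?_, ?_, ?_, ?_, ?_, ?_, ?_, ?_⟩
    · intro j
      refine (hE _).inter ?_
      exact Set.Finite.isClosed_biUnion (Finset.finite_toSet _) fun m _ => hE m
    · intro j x _ hx
      exact hx.elim
    · intro x _
      refine ⟨hi x, fun hx => ?_⟩
      obtain ⟨_, m, hm, hxm⟩ := (hB _ _).1 hx
      have := himin x m hxm
      omega
    · intro x _ j hxC hxB
      have h1 := himin x j.down hxC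
      have h2 : ¬ (i x).down < j.down := fun h3 => hxB ((hB j x).2 ⟨hxC, _, h3, hi x⟩)
      apply ULift.down_injective
      omega
    · intro j
      have := hpow j.down
      constructor <;> linarith
    · intro j
      exact hpow _
    · intro y _
      refine ⟨(⋃ m ∈ Finset.range (i y).down, E m)ᶜ, ?_, ?_⟩
      · apply IsOpen.mem_nhds
        · exact (Set.Finite.isClosed_biUnion (Finset.finite_toSet _) fun m _ => hE m).isOpen_compl
        · intro hy
          simp only [mem_iUnion, Finset.mem_range] at hy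
          obtain ⟨m, hm, hym⟩ := hy
          have := himin y m hym
          omega
      · intro x hx _ hne
        apply hlt
        have h1 : ¬ (i x).down < (i y).down := by
          intro h2
          apply hx
          simp only [mem_iUnion, Finset.mem_range]
          exact ⟨_, h2, hi x⟩
        have h2 : (i x).down ≠ (i y).down := fun h3 => hne (ULift.down_injective h3)
        omega
    · intro j y hy _
      obtain ⟨_, m, hm, hym⟩ := (hB _ _).1 hy
      have := himin y m hym
      apply hlt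
      omega
  apply perm_gen K ∅ (ULift.{u} ℕ) C B i _ _ hG
  intro j
  exact (h j.down).rel _ _

theorem good_sysp (K : Type u) [TopologicalSpace K] [CompactSpace K] [T2Space K] (ι : Type u)
    (Y F : ι → Set K) (hS : SysP K ∅ ι Y F) (hY : ∀ j, IsGood (Y j)) (hF : ∀ j, IsGood (F j)) :
    IsGood K :=
  ⟨inferInstance, inferInstance, hasBumps_of_empty K (perm_sysp K ∅ isClosed_empty ι Y F hS
    (fun j => (hY j).rel _ _) fun j => (hF j).rel _ _)⟩

theorem good_fib (X K : Type u) [TopologicalSpace X] [TopologicalSpace K] [CompactSpace X]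
    [T2Space X] [T2Space K] (φ : X → K) (hφ : Continuous φ) (D : Set K) (hD : IsClosed D)
    (P : K → ℕ) (hP : ∀ x, x ∉ D → ∃ V ∈ 𝓝 x, ∀ y ∈ V, y ∉ D → P y = P x → y = x)
    (h0 : IsGood (φ ⁻¹' D : Set X)) (h : ∀ x, x ∉ D → IsGood (φ ⁻¹' {x} : Set X)) :
    IsGood X := by
  classical
  refine ⟨inferInstance, inferInstance, ?_⟩
  obtain ⟨_, _, h3⟩ := h0
  refine hasBumps_of_rel X (φ ⁻¹' D) (hD.preimage hφ) ?_ h3
  obtain ⟨hh, e, k1, k2, k3⟩ := exists_height K D hD P hP
  let C : K → Set X := fun j => if j ∈ D then ∅ else φ ⁻¹' {j}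
  have hC1 : ∀ j, j ∈ D → C j = ∅ := fun j hj => if_pos hj
  have hC2 : ∀ j, j ∉ D → C j = φ ⁻¹' {j} := fun j hj => if_neg hj
  have hmem : ∀ j x, x ∈ C j → j ∉ D ∧ φ x = j := by
    intro j x hx
    by_cases hj : j ∈ D
    · rw [hC1 j hj] at hx
      exact hx.elim
    · rw [hC2 j hj] at hx
      exact ⟨hj, hx⟩
  have hG : Gen X (φ ⁻¹' D) K C (fun _ => ∅) φ hh e := by
    refine ⟨?_, fun _ => isClosed_empty, ?_, ?_, ?_, k1, k2, ?_, ?_⟩
    · intro j
      by_cases hj : j ∈ D
      · rw [hC1 j hj]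
        exact isClosed_empty
      · rw [hC2 j hj]
        exact isClosed_singleton.preimage hφ
    · intro j x hx hxD
      obtain ⟨a, b⟩ := hmem j x hx
      exact (a (b ▸ hxD)).elim
    · intro x hx
      refine ⟨?_, notMem_empty _⟩
      rw [hC2 _ hx]
      rfl
    · intro x _ j hxC _
      exact (hmem j x hxC).2.symm
    · intro y hy
      obtain ⟨V, hV, hV2⟩ := k3 (φ y) hy
      exact ⟨φ ⁻¹' V, hφ.continuousAt hV, fun x hx hxD hne => hV2 (φ x) hx hxD hne⟩
    · intro j y hy
      exact hy.elim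
  apply perm_gen X (φ ⁻¹' D) K C (fun _ => ∅) φ hh e hG
  intro j
  by_cases hj : j ∈ D
  · have : Subsingleton (C j) := by
      constructor
      rintro ⟨a, ha⟩
      exact ((hmem j a ha).1 hj).elim
    exact perm_point _ _
  · have key : ∀ (S : Set X) (hS : IsClosed S), S = φ ⁻¹' {j} →
        @RelBumps S _ (isCompact_iff_compactSpace.1 hS.isCompact) (Subtype.val ⁻¹' ∅) := by
      rintro S hS rfl
      exact (h j hj).rel _ _
    exact key (C j) (hG.closedC j) (hC2 j hj)

end Pool.Agent.CKT
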