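import Pool.Agent.CKT.Defs4
import Pool.Agent.CKT.Sem

/-!
# Soundness of the rule with pairs of points
-/

set_option autoImplicit false

open Set Filter Topology

namespace Pool.Agent.CKT

universe u v

section main

variable {K : Type u} [TopologicalSpace K] [CompactSpace K] {D : Set K} {ι : Type u}
  {Y : ι → Set K} [hcY : ∀ j, CompactSpace (Y j)] {u w : ι → K} {P : ι → ℕ}

omit [CompactSpace K] in
theorem tal_nice_ev [CompactSpace K] (x y : K) (φ : ℝ → ℝ) (f : C(K, ℝ))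
    (hφ : ContDiff ℝ (⊤ : ℕ∞) φ) : Nice (fun g => φ (g x - g y)) f := by
  refine ⟨(hφ.comp ((contDiff_ev x).sub (contDiff_ev y))).contDiffAt, univ, univ_mem, {x, y},
    (finite_singleton y).insert x, ?_⟩
  intro g _ g' _ hz
  show φ (g x - g y) = φ (g' x - g' y)
  rw [hz x (Or.inl rfl), hz y (Or.inr rfl)]

/-- the properties of the bumps of the pieces -/
structure GoodT (D : Set K) (p q d : ℝ) (a : ∀ (_ : ℕ) (j : ι), C(Y j, ℝ) → ℝ) : Prop where
  hp : 0 < p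
  hd : 0 < d
  hpq : p < q - 2 * d
  anice : ∀ (k : ℕ) j (f : C(Y j, ℝ)),
    (∀ y : Y j, (y : K) ∈ D → |f y| < q - 2 * d / ((k : ℝ) + 1)) → Nice (a k j) f
  arng : ∀ k j f, 0 ≤ a k j f ∧ a k j f ≤ 1
  aone : ∀ (k : ℕ) j (f : C(Y j, ℝ)), ‖f‖ ≤ q - 2 * d / ((k : ℝ) + 1) → a k j f = 1
  azero : ∀ (k : ℕ) j (f : C(Y j, ℝ)),
    (∀ y : Y j, (y : K) ∈ D → |f y| < q - 2 * d / ((k : ℝ) + 1)) →
    q - d / ((k : ℝ) + 1) ≤ ‖f‖ → a k j f = 0

/-- the cutoff function of index `(k, j)` -/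
noncomputable def chiT (P : ι → ℕ) (i : ℕ × ι) (t : ℝ) : ℝ :=
  if P i.2 ≤ i.1 then Real.smoothTransition (((2 * ((i.1 : ℝ) + 1) * t) ^ 2 - 1) / 3) else 0

/-- the factor of index `(k, j)` -/
noncomputable def facT (u w : ι → K) (P : ι → ℕ) (a : ∀ (_ : ℕ) (j : ι), C(Y j, ℝ) → ℝ)
    (i : ℕ × ι) (g : C(K, ℝ)) : ℝ :=
  1 - (1 - a i.1 i.2 (g.restrict (Y i.2))) * chiT P i (g (u i.2) - g (w i.2))

variable {p q d : ℝ} {a : ∀ (_ : ℕ) (j : ι), C(Y j, ℝ) → ℝ}

theorem chiT_rng (P : ι → ℕ) (i : ℕ × ι) (t : ℝ) : 0 ≤ chiT P i t ∧ chiT P i t ≤ 1 := by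
  unfold chiT
  split_ifs
  · exact ⟨Real.smoothTransition.nonneg _, Real.smoothTransition.le_one _⟩
  · exact ⟨le_rfl, zero_le_one⟩

theorem chiT_contDiff (P : ι → ℕ) (i : ℕ × ι) : ContDiff ℝ (⊤ : ℕ∞) (chiT P i) := by
  by_cases h : P i.2 ≤ i.1
  · have : chiT P i = fun t : ℝ =>
        Real.smoothTransition (((2 * ((i.1 : ℝ) + 1) * t) ^ 2 - 1) / 3) := by
      funext t
      exact if_pos h
    rw [this]
    exact Real.smoothTransition.contDiff.comp (by fun_prop)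
  · have : chiT P i = fun _ : ℝ => (0 : ℝ) := by
      funext t
      exact if_neg h
    rw [this]
    exact contDiff_const

theorem chiT_zero (P : ι → ℕ) (i : ℕ × ι) (t : ℝ) (h : |t| ≤ 1 / (2 * ((i.1 : ℝ) + 1))) :
    chiT P i t = 0 := by
  unfold chiT
  split_ifs
  · apply Real.smoothTransition.zero_of_nonpos
    have hk : (0 : ℝ) < (i.1 : ℝ) + 1 := by positivity
    have h1 : |2 * ((i.1 : ℝ) + 1) * t| ≤ 1 := by
      rw [abs_mul, abs_of_pos (by positivity : (0 : ℝ) < 2 * ((i.1 : ℝ) + 1))]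
      rw [le_div_iff₀ (by positivity)] at h
      linarith
    have h2 : (2 * ((i.1 : ℝ) + 1) * t) ^ 2 ≤ 1 := by
      rw [← sq_abs]
      exact pow_le_one₀ (abs_nonneg _) h1
    linarith
  · rfl

theorem chiT_one (P : ι → ℕ) (i : ℕ × ι) (t : ℝ) (hP : P i.2 ≤ i.1)
    (h : 1 / ((i.1 : ℝ) + 1) ≤ |t|) : chiT P i t = 1 := by
  unfold chiT
  rw [if_pos hP]
  apply Real.smoothTransition.one_of_one_le
  have hk : (0 : ℝ) < (i.1 : ℝ) + 1 := by positivity
  have h1 : 2 ≤ |2 * ((i.1 : ℝ) + 1) * t| := by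
    rw [abs_mul, abs_of_pos (by positivity : (0 : ℝ) < 2 * ((i.1 : ℝ) + 1))]
    rw [div_le_iff₀ hk] at h
    linarith
  have h2 : 4 ≤ (2 * ((i.1 : ℝ) + 1) * t) ^ 2 := by
    rw [← sq_abs]
    nlinarith
  linarith

omit [CompactSpace K] in
theorem winT (hB : GoodT D p q d a) (k : ℕ) : p < q - 2 * d / ((k : ℝ) + 1) ∧
    q - 2 * d / ((k : ℝ) + 1) < q - d / ((k : ℝ) + 1) ∧ q - d / ((k : ℝ) + 1) < q := by
  have hd := hB.hd
  have h1 := hB.hpq
  have hk : (0 : ℝ) < (k : ℝ) + 1 := by positivity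
  have h2 : 0 < d / ((k : ℝ) + 1) := by positivity
  have h3 : d / ((k : ℝ) + 1) ≤ d := by
    rw [div_le_iff₀ hk]
    have : (0 : ℝ) ≤ (k : ℝ) := Nat.cast_nonneg k
    nlinarith
  have e2 : 2 * d / ((k : ℝ) + 1) = 2 * (d / ((k : ℝ) + 1)) := by ring
  rw [e2]
  refine ⟨?_, ?_, ?_⟩ <;> linarith

omit [CompactSpace K] in
theorem facT_rng (hB : GoodT D p q d a) (i : ℕ × ι) (g : C(K, ℝ)) :
    0 ≤ facT u w P a i g ∧ facT u w P a i g ≤ 1 := by
  obtain ⟨h1, h2⟩ := hB.arng i.1 i.2 (g.restrict (Y i.2))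
  obtain ⟨h3, h4⟩ := chiT_rng P i (g (u i.2) - g (w i.2))
  unfold facT
  constructor
  · nlinarith
  · nlinarith [mul_nonneg (sub_nonneg.2 h2) h3]

theorem facT_nice (hB : GoodT D p q d a) (i : ℕ × ι) (f : C(K, ℝ))
    (hf : ∀ y ∈ D, |f y| < p) : Nice (facT u w P a i) f := by
  obtain ⟨w1, w2, w3⟩ := winT hB i.1
  have hb : Nice (fun g : C(K, ℝ) => chiT P i (g (u i.2) - g (w i.2))) f :=
    tal_nice_ev (u i.2) (w i.2) (chiT P i) f (chiT_contDiff P i)
  have ha : Nice (fun g : C(K, ℝ) => a i.1 i.2 (g.restrict (Y i.2))) f := by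
    apply Nice.restrict
    apply hB.anice
    intro y hy
    exact (hf y hy).trans w1
  exact (ha.one_sub.mul hb).one_sub

omit [CompactSpace K] in
theorem facT_ne_one (hB : GoodT D p q d a) (i : ℕ × ι) (g : C(K, ℝ))
    (h : facT u w P a i g ≠ 1) :
    q - 2 * d / ((i.1 : ℝ) + 1) < ‖g.restrict (Y i.2)‖ ∧ P i.2 ≤ i.1 ∧
      1 / (2 * ((i.1 : ℝ) + 1)) < |g (u i.2) - g (w i.2)| := by
  refine ⟨?_, ?_, ?_⟩
  · by_contra hcon
    apply h
    show 1 - (1 - a i.1 i.2 (g.restrict (Y i.2))) * chiT P i (g (u i.2) - g (w i.2)) = 1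
    rw [hB.aone i.1 i.2 _ (not_lt.1 hcon)]
    ring
  · by_contra hcon
    apply h
    show 1 - (1 - a i.1 i.2 (g.restrict (Y i.2))) * chiT P i (g (u i.2) - g (w i.2)) = 1
    have : chiT P i (g (u i.2) - g (w i.2)) = 0 := by
      unfold chiT
      exact if_neg hcon
    rw [this]
    ring
  · by_contra hcon
    apply h
    show 1 - (1 - a i.1 i.2 (g.restrict (Y i.2))) * chiT P i (g (u i.2) - g (w i.2)) = 1
    rw [chiT_zero P i _ (not_lt.1 hcon)]
    ring

/-- local finiteness inside the open ball of radius `q` -/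
theorem locfinT (hT : Tal K D ι Y u w P) (hB : GoodT D p q d a) (f : C(K, ℝ)) (hf : ‖f‖ < q) :
    ∃ T : Finset (ℕ × ι), ∀ᶠ g in 𝓝 f, ∀ i, i ∉ T → facT u w P a i g = 1 := by
  classical
  have hd := hB.hd
  set c : ℝ := (q - ‖f‖) / 2 with hc
  have hc0 : 0 < c := by rw [hc]; linarith
  obtain ⟨J, hJ⟩ := exists_nat_gt (2 * d / c)
  have hJ0 : (0 : ℝ) ≤ J := Nat.cast_nonneg _
  have hJ1 : (0 : ℝ) < (J : ℝ) + 1 := by linarith
  set η : ℝ := min (c / 2) (1 / (16 * ((J : ℝ) + 1))) with hη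
  have hη0 : 0 < η := lt_min (by linarith) (by positivity)
  have hη1 : η ≤ c / 2 := min_le_left _ _
  have hη2 : η ≤ 1 / (16 * ((J : ℝ) + 1)) := min_le_right _ _
  let U : Set (K × K) := {z | |f z.1 - f z.2| < 1 / (4 * ((J : ℝ) + 1))}
  have hU : IsOpen U := by
    apply isOpen_lt _ continuous_const
    exact ((f.continuous.comp continuous_fst).sub (f.continuous.comp continuous_snd)).abs
  have hUd : ∀ x, (x, x) ∈ U := by
    intro x
    show |f x - f x| < 1 / (4 * ((J : ℝ) + 1))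
    rw [sub_self, abs_zero]
    positivity
  have hfin2 : (⋃ k ∈ Finset.range (J + 1), ⋃ m ∈ Finset.range (J + 1), (fun j => (k, j)) ''
      {j | P j = m ∧ (u j, w j) ∉ U}).Finite := by
    apply Set.Finite.biUnion (Finset.finite_toSet _)
    intro k _
    apply Set.Finite.biUnion (Finset.finite_toSet _)
    intro m _
    exact (hT.fin m U hU hUd).image _
  refine ⟨hfin2.toFinset, ?_⟩
  filter_upwards [Metric.ball_mem_nhds f hη0] with g hg i hi
  by_contra hne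
  apply hi
  obtain ⟨h1, h2, h3⟩ := facT_ne_one hB i g hne
  have hgf : ‖g - f‖ < η := by
    rw [← dist_eq_norm]; exact hg
  have hk0 : (0 : ℝ) < (i.1 : ℝ) + 1 := by positivity
  have hiJ : i.1 ≤ J := by
    have e1 : ‖g.restrict (Y i.2)‖ ≤ ‖g‖ := restr_le_norm g
    have e2 : ‖g‖ ≤ ‖f‖ + ‖g - f‖ := by
      calc ‖g‖ = ‖f + (g - f)‖ := by congr 1; abel
        _ ≤ _ := norm_add_le _ _
    have e3 : c < 2 * d / ((i.1 : ℝ) + 1) := by
      have : ‖f‖ = q - 2 * c := by rw [hc]; ring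
      linarith
    rw [lt_div_iff₀ hk0] at e3
    rw [div_lt_iff₀ hc0] at hJ
    have e4 : c * ((i.1 : ℝ) + 1) < c * J := by linarith
    have e5 : (i.1 : ℝ) + 1 < J := lt_of_mul_lt_mul_left e4 hc0.le
    have e6 : (i.1 : ℝ) < J := by linarith
    exact (Nat.cast_lt.1 e6).le
  rw [Set.Finite.mem_toFinset]
  simp only [mem_iUnion]
  refine ⟨i.1, by simpa [Nat.lt_succ_iff] using hiJ, P i.2,
    by simpa [Nat.lt_succ_iff] using h2.trans hiJ, i.2, ⟨rfl, ?_⟩, rfl⟩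
  intro hmem
  have e0 : |f (u i.2) - f (w i.2)| < 1 / (4 * ((J : ℝ) + 1)) := hmem
  have e1 := abs_ev_le (g - f) (u i.2)
  have e2 := abs_ev_le (g - f) (w i.2)
  rw [ContinuousMap.sub_apply] at e1 e2
  have e3 : |g (u i.2) - g (w i.2)| ≤
      |f (u i.2) - f (w i.2)| + (|g (u i.2) - f (u i.2)| + |g (w i.2) - f (w i.2)|) := by
    calc |g (u i.2) - g (w i.2)|
        = |(f (u i.2) - f (w i.2)) + ((g (u i.2) - f (u i.2)) - (g (w i.2) - f (w i.2)))| := by
          congr 1; ring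
      _ ≤ |f (u i.2) - f (w i.2)| + |(g (u i.2) - f (u i.2)) - (g (w i.2) - f (w i.2))| :=
          abs_add_le _ _
      _ ≤ _ := by
          have := abs_sub (g (u i.2) - f (u i.2)) (g (w i.2) - f (w i.2))
          linarith
  have e4 : 1 / (2 * ((J : ℝ) + 1)) ≤ 1 / (2 * ((i.1 : ℝ) + 1)) := by
    apply one_div_le_one_div_of_le (by positivity)
    have : (i.1 : ℝ) ≤ J := by exact_mod_cast hiJ
    linarith
  have e5 : 1 / (2 * ((J : ℝ) + 1)) = 8 * (1 / (16 * ((J : ℝ) + 1))) := by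
    field_simp; norm_num
  have e6 : 1 / (4 * ((J : ℝ) + 1)) = 4 * (1 / (16 * ((J : ℝ) + 1))) := by
    field_simp; norm_num
  have e7 : (0 : ℝ) < 1 / (16 * ((J : ℝ) + 1)) := by positivity
  linarith

/-- a factor vanishes near a point of the sphere -/
theorem sphereT (hD : IsClosed D) (hT : Tal K D ι Y u w P) (hB : GoodT D p q d a)
    (f : C(K, ℝ)) (hfD : ∀ y ∈ D, |f y| < p) (hf : ‖f‖ = q) :
    ∃ i : ℕ × ι, ∀ᶠ g in 𝓝 f, facT u w P a i g = 0 := by
  have hd := hB.hd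
  have hp := hB.hp
  have hpq := hB.hpq
  have hq : 0 < q := by linarith
  have hM : ∃ x, q ≤ |f x| := by
    by_contra hcon
    push Not at hcon
    have : ‖f‖ < q := by
      rw [ContinuousMap.norm_lt_iff f hq]
      intro x
      rw [Real.norm_eq_abs]
      exact hcon x
    linarith
  obtain ⟨j, ⟨x, hxY, hx1⟩, hne⟩ := hT.top f q hq
    (fun x hx => by have := hfD x hx; linarith) hM
  have hδ : 0 < |f (u j) - f (w j)| := abs_pos.2 (sub_ne_zero.2 hne)
  obtain ⟨k0, hk0⟩ := exists_nat_gt (1 / |f (u j) - f (w j)|)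
  set k : ℕ := max k0 (P j) with hk
  have hkP : P j ≤ k := le_max_right _ _
  have hkk : (k0 : ℝ) ≤ k := by exact_mod_cast le_max_left _ _
  have hk1 : (0 : ℝ) < (k : ℝ) + 1 := by positivity
  have hk2 : 1 / ((k : ℝ) + 1) < |f (u j) - f (w j)| := by
    rw [div_lt_iff₀ hδ] at hk0
    rw [div_lt_iff₀ hk1]
    nlinarith
  refine ⟨(k, j), ?_⟩
  have hdk : 0 < d / ((k : ℝ) + 1) := by positivity
  have hY : q - d / ((k : ℝ) + 1) < ‖f.restrict (Y j)‖ := by
    have := abs_le_restr (S := Y j) f hxY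
    linarith
  obtain ⟨w1, w2, w3⟩ := winT hB k
  have hcont : Continuous fun g : C(K, ℝ) => |g (u j) - g (w j)| :=
    ((contDiff_ev (u j)).sub (contDiff_ev (w j))).continuous.abs
  have hev : ∀ᶠ g : C(K, ℝ) in 𝓝 f, 1 / ((k : ℝ) + 1) < |g (u j) - g (w j)| :=
    continuousAt_const.eventually_lt hcont.continuousAt hk2
  filter_upwards [lt_restr hY, open_cond hD f hfD, hev] with g h2 hgD h3
  show 1 - (1 - a k j (g.restrict (Y j))) * chiT P (k, j) (g (u j) - g (w j)) = 0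
  rw [chiT_one P (k, j) _ hkP h3.le, hB.azero k j _ ?_ h2.le]
  · ring
  · intro y hy
    exact (hgD y hy).trans w1

/-- the product -/
noncomputable def prdT (q : ℝ) (u w : ι → K) (P : ι → ℕ)
    (a : ∀ (_ : ℕ) (j : ι), C(Y j, ℝ) → ℝ) (g : C(K, ℝ)) : ℝ := by
  classical
  exact if ‖g‖ < q then ∏ᶠ i : ℕ × ι, facT u w P a i g else 0

omit hcY in
theorem prdT_of_lt (g : C(K, ℝ)) (h : ‖g‖ < q) :
    prdT q u w P a g = ∏ᶠ i : ℕ × ι, facT u w P a i g := by
  unfold prdT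
  exact if_pos h

omit hcY in
theorem prdT_of_ge (g : C(K, ℝ)) (h : q ≤ ‖g‖) : prdT q u w P a g = 0 := by
  unfold prdT
  exact if_neg (not_lt.2 h)

theorem prdT_nice (hD : IsClosed D) (hT : Tal K D ι Y u w P) (hB : GoodT D p q d a)
    (f : C(K, ℝ)) (hfD : ∀ y ∈ D, |f y| < p) : Nice (prdT q u w P a) f := by
  rcases lt_trichotomy ‖f‖ q with hf | hf | hf
  · obtain ⟨T, hT'⟩ := locfinT hT hB f hf
    have h1 : ∀ᶠ g : C(K, ℝ) in 𝓝 f, ‖g‖ < q :=
      continuous_norm.continuousAt.eventually_lt continuousAt_const hf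
    apply (nice_prod T (facT u w P a) f fun i _ => facT_nice hB i f hfD).congr
    filter_upwards [hT', h1] with g hg hg1
    rw [prdT_of_lt g hg1]
    apply finprod_eq_prod_of_mulSupport_subset
    intro i hi
    by_contra hcon
    exact hi (hg i hcon)
  · obtain ⟨i, hi⟩ := sphereT hD hT hB f hfD hf
    apply (nice_const 0 f).congr
    filter_upwards [hi] with g hg
    by_cases hg1 : ‖g‖ < q
    · rw [prdT_of_lt g hg1]
      obtain ⟨T, hT'⟩ := locfinT hT hB g hg1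
      apply finprod_eq_zero _ i hg
      apply T.finite_toSet.subset
      intro i hi
      by_contra hcon
      exact hi (hT'.self_of_nhds i hcon)
    · exact prdT_of_ge g (not_lt.1 hg1)
  · apply (nice_const 0 f).congr
    have h1 : ∀ᶠ g : C(K, ℝ) in 𝓝 f, q < ‖g‖ :=
      continuousAt_const.eventually_lt continuous_norm.continuousAt hf
    filter_upwards [h1] with g hg
    exact prdT_of_ge g hg.le

theorem prdT_rng (hB : GoodT D p q d a) (g : C(K, ℝ)) :
    0 ≤ prdT q u w P a g ∧ prdT q u w P a g ≤ 1 := by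
  by_cases hg : ‖g‖ < q
  · rw [prdT_of_lt g hg]
    by_cases hs : (Function.mulSupport fun i : ℕ × ι => facT u w P a i g).Finite
    · rw [finprod_eq_prod _ hs]
      exact ⟨Finset.prod_nonneg fun i _ => (facT_rng hB i g).1,
        Finset.prod_le_one (fun i _ => (facT_rng hB i g).1) fun i _ => (facT_rng hB i g).2⟩
    · rw [finprod_of_infinite_mulSupport hs]
      exact ⟨zero_le_one, le_rfl⟩
  · rw [prdT_of_ge g (not_lt.1 hg)]
    exact ⟨le_rfl, zero_le_one⟩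

theorem prdT_one (hB : GoodT D p q d a) (g : C(K, ℝ)) (hg : ‖g‖ ≤ p) :
    prdT q u w P a g = 1 := by
  have hd := hB.hd
  have hpq := hB.hpq
  rw [prdT_of_lt g (by linarith)]
  apply finprod_eq_one_of_forall_eq_one
  intro i
  obtain ⟨w1, w2, w3⟩ := winT hB i.1
  show 1 - (1 - a i.1 i.2 (g.restrict (Y i.2))) * chiT P i (g (u i.2) - g (w i.2)) = 1
  rw [hB.aone i.1 i.2 _ (by
    have := restr_le_norm (S := Y i.2) g
    linarith)]
  ring

end main

theorem perm_tal (K : Type u) [TopologicalSpace K] [CompactSpace K] (D : Set K)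
    (hD : IsClosed D) (ι : Type u) (Y : ι → Set K) (a b : ι → K) (P : ι → ℕ)
    (hT : Tal K D ι Y a b P)
    (hY : ∀ j, @RelBumps (Y j) _ (isCompact_iff_compactSpace.1 (hT.closedY j).isCompact)
      (Subtype.val ⁻¹' D)) : RelBumps K D := by
  haveI hcY : ∀ j, CompactSpace (Y j) := fun j =>
    isCompact_iff_compactSpace.1 (hT.closedY j).isCompact
  intro p q hp hpq
  set d : ℝ := (q - p) / 3 with hd
  have hd0 : 0 < d := by rw [hd]; linarith
  have hpq' : p < q - 2 * d := by rw [hd]; linarith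
  have hw : ∀ k : ℕ, p < q - 2 * d / ((k : ℝ) + 1) ∧
      q - 2 * d / ((k : ℝ) + 1) < q - d / ((k : ℝ) + 1) := by
    intro k
    have hk : (0 : ℝ) < (k : ℝ) + 1 := by positivity
    have h2 : 0 < d / ((k : ℝ) + 1) := by positivity
    have h3 : d / ((k : ℝ) + 1) ≤ d := by
      rw [div_le_iff₀ hk]
      have : (0 : ℝ) ≤ (k : ℝ) := Nat.cast_nonneg k
      nlinarith
    have e2 : 2 * d / ((k : ℝ) + 1) = 2 * (d / ((k : ℝ) + 1)) := by ring
    rw [e2]
    refine ⟨?_, ?_⟩ <;> linarith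
  have hYb := fun (k : ℕ) (j : ι) => hY j (q - 2 * d / ((k : ℝ) + 1)) (q - d / ((k : ℝ) + 1))
    (hp.trans (hw k).1) (hw k).2
  choose c hc1 hc2 hc3 hc4 using hYb
  have hB : GoodT D p q d c :=
    { hp := hp
      hd := hd0
      hpq := hpq'
      anice := fun k j f hf => hc1 k j f fun y hy => hf y hy
      arng := fun k j f => hc2 k j f
      aone := fun k j f hf => hc3 k j f hf
      azero := fun k j f hf hf' => hc4 k j f (fun y hy => hf y hy) hf' }
  exact ⟨prdT q a b P c, fun f hf => prdT_nice hD hT hB f hf, fun f => prdT_rng hB f,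
    fun f hf => prdT_one hB f hf, fun f _ hf => prdT_of_ge f hf⟩

end Pool.Agent.CKT
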