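import Pool.Agent.CKT.Defs4
import Pool.Agent.CKT.Sem
import Pool.Agent.CKT.Tal
import Pool.Agent.CKT.Ch6

/-!
Row CH7 of the board CKT (MP_0211b8_an): spaces with a chain of retractions and good cones.
-/

set_option autoImplicit false

open Set Filter Topology

namespace Pool.Agent.CKT

universe u v

theorem good_chain (K : Type u) [TopologicalSpace K] [CompactSpace K] [T2Space K]
    (κ : Ordinal.{u}) (r : Ordinal.{u} → K → K) (h : Chain K κ r) (hI : Incr K κ r) (D : Set K)
    (hD : IsClosed D) (h0 : ∀ x, r 0 x ∈ D) (hg : IsGood D)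
    (hcone : ∀ β < κ, ∀ c, (∀ z, r (Order.succ β) z = c → z ∉ D) →
      IsGood ({z | r (Order.succ β) z = c} : Set K)) : IsGood K := by
  obtain ⟨Y, a, b, P, hT, hY⟩ := chain_tal K κ r h hI D hD h0
  refine ⟨inferInstance, inferInstance,
    hasBumps_of_rel K D hD (perm_tal K D hD _ Y a b P hT ?_) ?_⟩
  · intro j
    have hc : CompactSpace (Y j) := isCompact_iff_compactSpace.1 (hT.closedY j).isCompact
    rcases hY j with hs | ⟨β, hβ, c, hYc, hd⟩
    · have hs' : Subsingleton (Y j) := hs.coe_sort
      exact perm_point _ _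
    · have hg' : IsGood (Y j) := by
        rw [hYc]
        exact hcone β hβ c (fun z hz => hd z (by rw [hYc]; exact hz))
      exact hg'.rel _ _
  · obtain ⟨_, _, h3⟩ := hg
    exact h3

end Pool.Agent.CKT
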