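import Pool.Agent.CKT.Defs4

/-!
# The chain of a cone (MP_0211b8_an)
-/

set_option autoImplicit false

open Set Filter Topology

namespace Pool.Agent.CKT

universe u v

/-! ROW CH8 (Ch8.lean): the chain of a cone, `r' β z = r (max α β) z` -/
theorem chain_cone (K : Type u) [TopologicalSpace K] (κ : Ordinal.{u})
    (r : Ordinal.{u} → K → K) (h : Chain K κ r) (hI : Incr K κ r) (α : Ordinal.{u}) (hα : α ≤ κ)
    (c : K) :
    ∃ r' : Ordinal.{u} → ({z | r α z = c} : Set K) → ({z | r α z = c} : Set K),
      Chain ({z | r α z = c} : Set K) κ r' ∧ Incr ({z | r α z = c} : Set K) κ r' ∧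
      ∀ z z', r' 0 z = r' 0 z' := by
  classical
  have hmem : ∀ (β : Ordinal.{u}) (_ : β ≤ κ) (z : ({z | r α z = c} : Set K)),
      r α (r (max α β) z.1) = c := by
    intro β hβ z
    rw [h.low α (max α β) (le_max_left _ _) (max_le hα hβ)]
    exact z.2
  let r' : Ordinal.{u} → ({z | r α z = c} : Set K) → ({z | r α z = c} : Set K) :=
    fun β z => if hβ : β ≤ κ then ⟨r (max α β) z.1, hmem β hβ z⟩ else z
  have hr : ∀ (β : Ordinal.{u}) (_ : β ≤ κ) (z : ({z | r α z = c} : Set K)),
      (r' β z).1 = r (max α β) z.1 := by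
    intro β hβ z
    show (if hβ : β ≤ κ then (⟨r (max α β) z.1, hmem β hβ z⟩ : ({z | r α z = c} : Set K))
      else z).1 = _
    rw [dif_pos hβ]
  refine ⟨r', ⟨?_, ?_, ?_, ?_, ?_⟩, ?_, ?_⟩
  · intro β hβ
    rw [continuous_induced_rng]
    have h1 : (Subtype.val ∘ r' β) = fun z => r (max α β) z.1 := by
      funext z
      exact hr β hβ z
    rw [h1]
    exact (h.cont _ (max_le hα hβ)).comp continuous_subtype_val
  · intro x
    apply Subtype.ext
    rw [hr κ le_rfl, max_eq_right hα, h.last]
  · intro β β' hb hb' x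
    apply Subtype.ext
    rw [hr β (hb.trans hb'), hr β' hb', hr β (hb.trans hb')]
    exact h.low _ _ (max_le_max le_rfl hb) (max_le hα hb') _
  · intro β β' hb hb' x
    apply Subtype.ext
    rw [hr β' hb', hr β (hb.trans hb')]
    exact h.up _ _ (max_le_max le_rfl hb) (max_le hα hb') _
  · intro l hl hlim x U hU
    rcases le_or_gt l α with h1 | h1
    · refine ⟨0, ?_, ?_⟩
      · rw [← Ordinal.bot_eq_zero]
        exact hlim.bot_lt
      · intro β _ hβl
        have h2 : r' β x = r' l x := by
          apply Subtype.ext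
          rw [hr β (hβl.le.trans hl), hr l hl, max_eq_left h1, max_eq_left (hβl.le.trans h1)]
        rw [h2]
        exact mem_of_mem_nhds hU
    · rw [nhds_subtype_eq_comap, mem_comap] at hU
      obtain ⟨V, hV, hVU⟩ := hU
      rw [hr l hl, max_eq_right h1.le] at hV
      obtain ⟨α₀, hα₀, h2⟩ := h.lim l hl hlim x.1 V hV
      refine ⟨max α₀ α, max_lt hα₀ h1, ?_⟩
      intro β hβ hβl
      apply hVU
      show (r' β x).1 ∈ V
      rw [hr β (hβl.le.trans hl), max_eq_right ((le_max_right _ _).trans hβ)]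
      exact h2 β ((le_max_left _ _).trans hβ) hβl
  · intro a ha
    obtain ⟨P, hP⟩ := hI a ha
    have ha' : Order.succ a ≤ κ := Order.succ_le_of_lt ha
    refine ⟨fun z => P z.1, ?_⟩
    intro m x hx hx'
    rcases lt_or_ge a α with h1 | h1
    · exfalso
      apply hx'
      have h2 : r' a x = r' (Order.succ a) x := by
        apply Subtype.ext
        rw [hr a ha.le, hr _ ha', max_eq_left h1.le, max_eq_left (Order.succ_le_of_lt h1)]
      rw [h2, hx]
    · have h3 : α ≤ Order.succ a := h1.trans (Order.le_succ a)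
      have key : ∀ y : ({z | r α z = c} : Set K),
          (r' (Order.succ a) y = y ↔ r (Order.succ a) y.1 = y.1) ∧
          (r' a y = y ↔ r a y.1 = y.1) := by
        intro y
        constructor
        · rw [Subtype.ext_iff, hr _ ha', max_eq_right h3]
        · rw [Subtype.ext_iff, hr a ha.le, max_eq_right h1]
      obtain ⟨V, hV, hfin⟩ := hP m x.1 ((key x).1.1 hx) (fun h4 => hx' ((key x).2.2 h4))
      refine ⟨Subtype.val ⁻¹' V, continuous_subtype_val.continuousAt hV, ?_⟩
      refine (hfin.preimage (f := Subtype.val) Subtype.val_injective.injOn).subset ?_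
      rintro y ⟨hy1, hy2, hy3, hy4⟩
      exact ⟨hy1, (key y).1.1 hy2, fun h4 => hy3 ((key y).2.2 h4), hy4⟩
  · intro z z'
    apply Subtype.ext
    rw [hr 0 (zero_le), hr 0 (zero_le), max_eq_left (zero_le)]
    have h1 : r α z.1 = c := z.2
    have h2 : r α z'.1 = c := z'.2
    rw [h1, h2]

end Pool.Agent.CKT
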