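import Pool.Agent.CKT.Defs5
import Pool.Agent.CKT.Sem

/-!
# Soundness of the rule with pairs of closed sets
-/

set_option autoImplicit false

open Set Filter Topology

namespace Pool.Agent.CKT

universe u v

section main

variable {K : Type u} [TopologicalSpace K] [CompactSpace K] {D : Set K} {ι : Type u}
  {Y A B : ι → Set K} [hcY : ∀ j, CompactSpace (Y j)] [hcA : ∀ j, CompactSpace (A j)]
  [hcB : ∀ j, CompactSpace (B j)] {P : ι → ℕ}

/-- the properties of the bumps of the pieces -/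
private structure GoodTls (p q d : ℝ) (a : ∀ (_ : ℕ) (j : ι), C(Y j, ℝ) → ℝ)
    (α : ∀ (_ : ℕ) (_ : ℕ) (j : ι), C(A j, ℝ) → ℝ)
    (β : ∀ (_ : ℕ) (_ : ℕ) (j : ι), C(B j, ℝ) → ℝ) : Prop where
  hp : 0 < p
  hd : 0 < d
  hpq : p < q - 2 * d
  anice : ∀ (k : ℕ) j (f : C(Y j, ℝ)), Nice (a k j) f
  arng : ∀ k j f, 0 ≤ a k j f ∧ a k j f ≤ 1
  aone : ∀ (k : ℕ) j (f : C(Y j, ℝ)), ‖f‖ ≤ q - 2 * d / ((k : ℝ) + 1) → a k j f = 1
  azero : ∀ (k : ℕ) j (f : C(Y j, ℝ)), q - d / ((k : ℝ) + 1) ≤ ‖f‖ → a k j f = 0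
  αnice : ∀ (k l : ℕ) j (f : C(A j, ℝ)), Nice (α k l j) f
  αrng : ∀ k l j f, 0 ≤ α k l j f ∧ α k l j f ≤ 1
  αone : ∀ (k l : ℕ) j (f : C(A j, ℝ)), ‖f‖ ≤ ((l : ℝ) + 3) * (q / ((k : ℝ) + 1)) → α k l j f = 1
  αzero : ∀ (k l : ℕ) j (f : C(A j, ℝ)), ((l : ℝ) + 4) * (q / ((k : ℝ) + 1)) ≤ ‖f‖ → α k l j f = 0
  βnice : ∀ (k l : ℕ) j (f : C(B j, ℝ)), Nice (β k l j) f
  βrng : ∀ k l j f, 0 ≤ β k l j f ∧ β k l j f ≤ 1
  βone : ∀ (k l : ℕ) j (f : C(B j, ℝ)), ‖f‖ ≤ ((l : ℝ) + 1) * (q / ((k : ℝ) + 1)) → β k l j f = 1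
  βzero : ∀ (k l : ℕ) j (f : C(B j, ℝ)), ((l : ℝ) + 2) * (q / ((k : ℝ) + 1)) ≤ ‖f‖ → β k l j f = 0

/-- the cutoff of index `(k, l, j)` -/
private noncomputable def cutS (P : ι → ℕ) (i : ℕ × ℕ × ι) : ℝ :=
  if P i.2.2 ≤ i.1 ∧ i.2.1 ≤ i.1 then 1 else 0

omit [TopologicalSpace K] [CompactSpace K] hcY hcA hcB in
private theorem cutS_rng (P : ι → ℕ) (i : ℕ × ℕ × ι) : 0 ≤ cutS P i ∧ cutS P i ≤ 1 := by
  unfold cutS
  split_ifs
  · exact ⟨zero_le_one, le_rfl⟩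
  · exact ⟨le_rfl, zero_le_one⟩

/-- the factor of index `(k, l, j)` -/
private noncomputable def facS (P : ι → ℕ) (a : ∀ (_ : ℕ) (j : ι), C(Y j, ℝ) → ℝ)
    (α : ∀ (_ : ℕ) (_ : ℕ) (j : ι), C(A j, ℝ) → ℝ)
    (β : ∀ (_ : ℕ) (_ : ℕ) (j : ι), C(B j, ℝ) → ℝ)
    (i : ℕ × ℕ × ι) (g : C(K, ℝ)) : ℝ :=
  1 - (cutS P i * ((1 - a i.1 i.2.2 (g.restrict (Y i.2.2))) *
    (1 - α i.1 i.2.1 i.2.2 (g.restrict (A i.2.2))))) *
    β i.1 i.2.1 i.2.2 (g.restrict (B i.2.2))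

variable {p q d : ℝ} {a : ∀ (_ : ℕ) (j : ι), C(Y j, ℝ) → ℝ}
  {α : ∀ (_ : ℕ) (_ : ℕ) (j : ι), C(A j, ℝ) → ℝ}
  {β : ∀ (_ : ℕ) (_ : ℕ) (j : ι), C(B j, ℝ) → ℝ}

omit [CompactSpace K] in
private theorem winS (hB : GoodTls p q d a α β) (k : ℕ) : p < q - 2 * d / ((k : ℝ) + 1) ∧
    q - 2 * d / ((k : ℝ) + 1) < q - d / ((k : ℝ) + 1) ∧ q - d / ((k : ℝ) + 1) < q := by
  have hd := hB.hd
  have h1 := hB.hpq
  have hk : (0 : ℝ) < (k : ℝ) + 1 := by positivity
  have h2 : 0 < d / ((k : ℝ) + 1) := by positivity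
  have h3 : d / ((k : ℝ) + 1) ≤ d := by
    rw [div_le_iff₀ hk]
    have : (0 : ℝ) ≤ (k : ℝ) := Nat.cast_nonneg k
    nlinarith
  have e2 : 2 * d / ((k : ℝ) + 1) = 2 * (d / ((k : ℝ) + 1)) := by ring
  rw [e2]
  refine ⟨?_, ?_, ?_⟩ <;> linarith

omit [CompactSpace K] in
private theorem facS_rng (hB : GoodTls p q d a α β) (i : ℕ × ℕ × ι) (g : C(K, ℝ)) :
    0 ≤ facS P a α β i g ∧ facS P a α β i g ≤ 1 := by
  obtain ⟨h1, h2⟩ := hB.arng i.1 i.2.2 (g.restrict (Y i.2.2))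
  obtain ⟨h3, h4⟩ := hB.αrng i.1 i.2.1 i.2.2 (g.restrict (A i.2.2))
  obtain ⟨h5, h6⟩ := hB.βrng i.1 i.2.1 i.2.2 (g.restrict (B i.2.2))
  obtain ⟨h7, h8⟩ := cutS_rng P i
  unfold facS
  have e1 : 0 ≤ (1 - a i.1 i.2.2 (g.restrict (Y i.2.2))) *
      (1 - α i.1 i.2.1 i.2.2 (g.restrict (A i.2.2))) :=
    mul_nonneg (by linarith) (by linarith)
  have e2 : (1 - a i.1 i.2.2 (g.restrict (Y i.2.2))) *
      (1 - α i.1 i.2.1 i.2.2 (g.restrict (A i.2.2))) ≤ 1 :=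
    mul_le_one₀ (by linarith) (by linarith) (by linarith)
  have e3 : 0 ≤ cutS P i * ((1 - a i.1 i.2.2 (g.restrict (Y i.2.2))) *
      (1 - α i.1 i.2.1 i.2.2 (g.restrict (A i.2.2)))) := mul_nonneg h7 e1
  have e4 : cutS P i * ((1 - a i.1 i.2.2 (g.restrict (Y i.2.2))) *
      (1 - α i.1 i.2.1 i.2.2 (g.restrict (A i.2.2)))) ≤ 1 := mul_le_one₀ h8 e1 e2
  have e5 := mul_nonneg e3 h5
  have e6 := mul_le_one₀ e4 h5 h6
  constructor <;> linarith

private theorem facS_nice (hB : GoodTls p q d a α β) (i : ℕ × ℕ × ι) (f : C(K, ℝ)) :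
    Nice (facS P a α β i) f := by
  have ha : Nice (fun g : C(K, ℝ) => a i.1 i.2.2 (g.restrict (Y i.2.2))) f :=
    Nice.restrict (hB.anice i.1 i.2.2 _)
  have hα : Nice (fun g : C(K, ℝ) => α i.1 i.2.1 i.2.2 (g.restrict (A i.2.2))) f :=
    Nice.restrict (hB.αnice i.1 i.2.1 i.2.2 _)
  have hβ : Nice (fun g : C(K, ℝ) => β i.1 i.2.1 i.2.2 (g.restrict (B i.2.2))) f :=
    Nice.restrict (hB.βnice i.1 i.2.1 i.2.2 _)
  exact (((nice_const (cutS P i) f).mul (ha.one_sub.mul hα.one_sub)).mul hβ).one_sub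

omit [CompactSpace K] in
private theorem facS_ne_one (hB : GoodTls p q d a α β) (i : ℕ × ℕ × ι) (g : C(K, ℝ))
    (h : facS P a α β i g ≠ 1) :
    (P i.2.2 ≤ i.1 ∧ i.2.1 ≤ i.1) ∧ q - 2 * d / ((i.1 : ℝ) + 1) < ‖g.restrict (Y i.2.2)‖ ∧
      ((i.2.1 : ℝ) + 3) * (q / ((i.1 : ℝ) + 1)) < ‖g.restrict (A i.2.2)‖ ∧
      ‖g.restrict (B i.2.2)‖ < ((i.2.1 : ℝ) + 2) * (q / ((i.1 : ℝ) + 1)) := by
  refine ⟨?_, ?_, ?_, ?_⟩
  · by_contra hcon
    apply h
    unfold facS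
    have : cutS P i = 0 := if_neg hcon
    rw [this]
    ring
  · by_contra hcon
    apply h
    unfold facS
    rw [hB.aone i.1 i.2.2 _ (not_lt.1 hcon)]
    ring
  · by_contra hcon
    apply h
    unfold facS
    rw [hB.αone i.1 i.2.1 i.2.2 _ (not_lt.1 hcon)]
    ring
  · by_contra hcon
    apply h
    unfold facS
    rw [hB.βzero i.1 i.2.1 i.2.2 _ (not_lt.1 hcon)]
    ring

/-- local finiteness inside the open ball of radius `q` -/
private theorem locfinS (hT : TalS K D ι Y A B P) (hB : GoodTls p q d a α β) (f : C(K, ℝ))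
    (hf : ‖f‖ < q) :
    ∃ T : Finset (ℕ × ℕ × ι), ∀ᶠ g in 𝓝 f, ∀ i, i ∉ T → facS P a α β i g = 1 := by
  classical
  have hd := hB.hd
  have hq : 0 < q := by
    have h1 := hB.hp
    have h2 := hB.hpq
    linarith
  set c : ℝ := (q - ‖f‖) / 2 with hc
  have hc0 : 0 < c := by rw [hc]; linarith
  obtain ⟨J, hJ⟩ := exists_nat_gt (2 * d / c)
  have hJ0 : (0 : ℝ) ≤ J := Nat.cast_nonneg _
  have hJ1 : (0 : ℝ) < (J : ℝ) + 1 := by linarith
  set η : ℝ := min (c / 2) (q / (4 * ((J : ℝ) + 1))) with hη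
  have hη0 : 0 < η := lt_min (by linarith) (by positivity)
  have hη1 : η ≤ c / 2 := min_le_left _ _
  have hη2 : η ≤ q / (4 * ((J : ℝ) + 1)) := min_le_right _ _
  have hfin2 : (⋃ k ∈ Finset.range (J + 1), ⋃ l ∈ Finset.range (J + 1),
      ⋃ m ∈ Finset.range (J + 1), (fun j => ((k, l, j) : ℕ × ℕ × ι)) ''
      {j | P j = m ∧ (∃ x ∈ A j, ((l : ℝ) + 3) * (q / ((k : ℝ) + 1)) -
        (q / ((k : ℝ) + 1)) / 4 ≤ |f x|) ∧
        ∀ y ∈ B j, |f y| ≤ ((l : ℝ) + 2) * (q / ((k : ℝ) + 1)) + (q / ((k : ℝ) + 1)) / 4}).Finite := by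
    apply Set.Finite.biUnion (Finset.finite_toSet _)
    intro k _
    apply Set.Finite.biUnion (Finset.finite_toSet _)
    intro l _
    apply Set.Finite.biUnion (Finset.finite_toSet _)
    intro m _
    have hh : 0 < q / ((k : ℝ) + 1) := by positivity
    exact (hT.fin f m _ _ (by nlinarith)).image _
  refine ⟨hfin2.toFinset, ?_⟩
  filter_upwards [Metric.ball_mem_nhds f hη0] with g hg i hi
  by_contra hne
  apply hi
  obtain ⟨⟨hP, hl⟩, h1, h2, h3⟩ := facS_ne_one hB i g hne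
  have hgf : ‖g - f‖ < η := by
    rw [← dist_eq_norm]; exact hg
  have hk0 : (0 : ℝ) < (i.1 : ℝ) + 1 := by positivity
  have hiJ : i.1 ≤ J := by
    have e1 : ‖g.restrict (Y i.2.2)‖ ≤ ‖g‖ := restr_le_norm g
    have e2 : ‖g‖ ≤ ‖f‖ + ‖g - f‖ := by
      calc ‖g‖ = ‖f + (g - f)‖ := by congr 1; abel
        _ ≤ _ := norm_add_le _ _
    have e3 : c < 2 * d / ((i.1 : ℝ) + 1) := by
      have : ‖f‖ = q - 2 * c := by rw [hc]; ring
      linarith
    rw [lt_div_iff₀ hk0] at e3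
    rw [div_lt_iff₀ hc0] at hJ
    have e4 : c * ((i.1 : ℝ) + 1) < c * J := by linarith
    have e5 : (i.1 : ℝ) + 1 < J := lt_of_mul_lt_mul_left e4 hc0.le
    have e6 : (i.1 : ℝ) < J := by linarith
    exact (Nat.cast_lt.1 e6).le
  have hhk : 0 < q / ((i.1 : ℝ) + 1) := by positivity
  have hηk : η ≤ (q / ((i.1 : ℝ) + 1)) / 4 := by
    refine hη2.trans ?_
    rw [div_div]
    apply div_le_div_of_nonneg_left hq.le (by positivity)
    have : (i.1 : ℝ) ≤ J := by exact_mod_cast hiJ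
    linarith
  have hev : ∀ x : K, |g x - f x| < η := by
    intro x
    have e1 := abs_ev_le (g - f) x
    rw [ContinuousMap.sub_apply] at e1
    linarith
  rw [Set.Finite.mem_toFinset]
  simp only [mem_iUnion]
  refine ⟨i.1, by simpa [Nat.lt_succ_iff] using hiJ, i.2.1,
    by simpa [Nat.lt_succ_iff] using hl.trans hiJ, P i.2.2,
    by simpa [Nat.lt_succ_iff] using hP.trans hiJ, i.2.2, ⟨rfl, ?_, ?_⟩, rfl⟩
  · obtain ⟨x, hx, hx1⟩ := exists_of_lt_restr (by positivity) h2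
    refine ⟨x, hx, ?_⟩
    have e1 := hev x
    have e2 : |g x| ≤ |f x| + |g x - f x| := by
      calc |g x| = |f x + (g x - f x)| := by congr 1; ring
        _ ≤ _ := abs_add_le _ _
    linarith
  · intro y hy
    have e1 := hev y
    have e2 : |f y| ≤ |g y| + |g y - f y| := by
      calc |f y| = |g y + -(g y - f y)| := by congr 1; ring
        _ ≤ |g y| + |-(g y - f y)| := abs_add_le _ _
        _ = _ := by rw [abs_neg]
    have e3 := abs_le_restr (S := B i.2.2) g hy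
    linarith

/-- a factor vanishes near a point of the sphere -/
private theorem sphereS (hT : TalS K D ι Y A B P) (hne : ∀ j, (A j).Nonempty → (B j).Nonempty)
    (hB : GoodTls p q d a α β) (f : C(K, ℝ)) (hfD : ∀ y ∈ D, |f y| < p) (hf : ‖f‖ = q) :
    ∃ i : ℕ × ℕ × ι, ∀ᶠ g in 𝓝 f, facS P a α β i g = 0 := by
  have hd := hB.hd
  have hp := hB.hp
  have hpq := hB.hpq
  have hq : 0 < q := by linarith
  have hM : ∃ x, q ≤ |f x| := by
    by_contra hcon
    push Not at hcon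
    have : ‖f‖ < q := by
      rw [ContinuousMap.norm_lt_iff f hq]
      intro x
      rw [Real.norm_eq_abs]
      exact hcon x
    linarith
  obtain ⟨j, ⟨x, hxY, hx1⟩, x', hx'A, hx'⟩ := hT.top f q hq
    (fun x hx => by have := hfD x hx; linarith) hM
  have hbe : ‖f.restrict (B j)‖ < |f x'| := by
    obtain ⟨z, hz, hmax⟩ := (hT.closedB j).isCompact.exists_isMaxOn (hne j ⟨x', hx'A⟩)
      f.continuous.abs.continuousOn
    refine lt_of_le_of_lt ?_ (hx' z hz)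
    rw [ContinuousMap.norm_le _ (abs_nonneg _)]
    intro y
    rw [Real.norm_eq_abs]
    exact hmax y.2
  set be : ℝ := ‖f.restrict (B j)‖ with hbedef
  have hbe0 : 0 ≤ be := norm_nonneg _
  have halq : |f x'| ≤ q := by
    rw [← hf]
    exact abs_ev_le f x'
  have hδ : 0 < |f x'| - be := by linarith
  obtain ⟨k0, hk0⟩ := exists_nat_gt (5 * q / (|f x'| - be))
  set k : ℕ := max k0 (P j) with hk
  have hkP : P j ≤ k := le_max_right _ _
  have hkk : (k0 : ℝ) ≤ k := by exact_mod_cast le_max_left _ _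
  have hk1 : (0 : ℝ) < (k : ℝ) + 1 := by positivity
  set h : ℝ := q / ((k : ℝ) + 1) with hh
  have hh0 : 0 < h := by positivity
  have hh5 : 5 * h < |f x'| - be := by
    rw [div_lt_iff₀ hδ] at hk0
    rw [hh, ← mul_div_assoc, div_lt_iff₀ hk1]
    nlinarith
  set l : ℕ := ⌊be / h⌋₊ with hl
  have hl1 : (l : ℝ) * h ≤ be := by
    have := Nat.floor_le (div_nonneg hbe0 hh0.le)
    rw [← hl] at this
    rwa [le_div_iff₀ hh0] at this
  have hl2 : be < ((l : ℝ) + 1) * h := by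
    have := Nat.lt_floor_add_one (be / h)
    rw [← hl] at this
    rwa [div_lt_iff₀ hh0] at this
  have hl4 : ((l : ℝ) + 4) * h < |f x'| := by nlinarith
  have hlk : l ≤ k := by
    have e1 : ((l : ℝ) + 4) * h < ((k : ℝ) + 1) * h := by
      have e2 : ((k : ℝ) + 1) * h = q := by
        rw [hh]
        field_simp
      rw [e2]
      linarith
    have e3 := lt_of_mul_lt_mul_right e1 hh0.le
    have e4 : (l : ℝ) ≤ k := by linarith
    exact_mod_cast e4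
  refine ⟨(k, l, j), ?_⟩
  have hdk : 0 < d / ((k : ℝ) + 1) := by positivity
  have hY : q - d / ((k : ℝ) + 1) < ‖f.restrict (Y j)‖ := by
    have := abs_le_restr (S := Y j) f hxY
    linarith
  have hA : ((l : ℝ) + 4) * h < ‖f.restrict (A j)‖ :=
    lt_of_lt_of_le hl4 (abs_le_restr (S := A j) f hx'A)
  filter_upwards [lt_restr hY, lt_restr hA, restr_lt hl2] with g h1 h2 h3
  unfold facS
  have e0 : cutS P ((k, l, j) : ℕ × ℕ × ι) = 1 := if_pos ⟨hkP, hlk⟩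
  have e1 : a k j (g.restrict (Y j)) = 0 := hB.azero k j _ h1.le
  have e2 : α k l j (g.restrict (A j)) = 0 := hB.αzero k l j _ h2.le
  have e3 : β k l j (g.restrict (B j)) = 1 := hB.βone k l j _ h3.le
  show 1 - (cutS P ((k, l, j) : ℕ × ℕ × ι) * ((1 - a k j (g.restrict (Y j))) *
    (1 - α k l j (g.restrict (A j))))) * β k l j (g.restrict (B j)) = 0
  rw [e0, e1, e2, e3]
  ring

/-- the product -/
private noncomputable def prdS (q : ℝ) (P : ι → ℕ)
    (a : ∀ (_ : ℕ) (j : ι), C(Y j, ℝ) → ℝ) (α : ∀ (_ : ℕ) (_ : ℕ) (j : ι), C(A j, ℝ) → ℝ)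
    (β : ∀ (_ : ℕ) (_ : ℕ) (j : ι), C(B j, ℝ) → ℝ) (g : C(K, ℝ)) : ℝ := by
  classical
  exact if ‖g‖ < q then ∏ᶠ i : ℕ × ℕ × ι, facS P a α β i g else 0

omit hcY hcA hcB in
private theorem prdS_of_lt (g : C(K, ℝ)) (h : ‖g‖ < q) :
    prdS q P a α β g = ∏ᶠ i : ℕ × ℕ × ι, facS P a α β i g := by
  unfold prdS
  exact if_pos h

omit hcY hcA hcB in
private theorem prdS_of_ge (g : C(K, ℝ)) (h : q ≤ ‖g‖) : prdS q P a α β g = 0 := by
  unfold prdS
  exact if_neg (not_lt.2 h)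

private theorem prdS_nice (hT : TalS K D ι Y A B P) (hne : ∀ j, (A j).Nonempty → (B j).Nonempty)
    (hB : GoodTls p q d a α β) (f : C(K, ℝ)) (hfD : ∀ y ∈ D, |f y| < p) :
    Nice (prdS q P a α β) f := by
  rcases lt_trichotomy ‖f‖ q with hf | hf | hf
  · obtain ⟨T, hT'⟩ := locfinS hT hB f hf
    have h1 : ∀ᶠ g : C(K, ℝ) in 𝓝 f, ‖g‖ < q :=
      continuous_norm.continuousAt.eventually_lt continuousAt_const hf
    apply (nice_prod T (facS P a α β) f fun i _ => facS_nice hB i f).congr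
    filter_upwards [hT', h1] with g hg hg1
    rw [prdS_of_lt g hg1]
    apply finprod_eq_prod_of_mulSupport_subset
    intro i hi
    by_contra hcon
    exact hi (hg i hcon)
  · obtain ⟨i, hi⟩ := sphereS hT hne hB f hfD hf
    apply (nice_const 0 f).congr
    filter_upwards [hi] with g hg
    by_cases hg1 : ‖g‖ < q
    · rw [prdS_of_lt g hg1]
      obtain ⟨T, hT'⟩ := locfinS hT hB g hg1
      apply finprod_eq_zero _ i hg
      apply T.finite_toSet.subset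
      intro i hi
      by_contra hcon
      exact hi (hT'.self_of_nhds i hcon)
    · exact prdS_of_ge g (not_lt.1 hg1)
  · apply (nice_const 0 f).congr
    have h1 : ∀ᶠ g : C(K, ℝ) in 𝓝 f, q < ‖g‖ :=
      continuousAt_const.eventually_lt continuous_norm.continuousAt hf
    filter_upwards [h1] with g hg
    exact prdS_of_ge g hg.le

private theorem prdS_rng (hB : GoodTls p q d a α β) (g : C(K, ℝ)) :
    0 ≤ prdS q P a α β g ∧ prdS q P a α β g ≤ 1 := by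
  by_cases hg : ‖g‖ < q
  · rw [prdS_of_lt g hg]
    by_cases hs : (Function.mulSupport fun i : ℕ × ℕ × ι => facS P a α β i g).Finite
    · rw [finprod_eq_prod _ hs]
      exact ⟨Finset.prod_nonneg fun i _ => (facS_rng hB i g).1,
        Finset.prod_le_one (fun i _ => (facS_rng hB i g).1) fun i _ => (facS_rng hB i g).2⟩
    · rw [finprod_of_infinite_mulSupport hs]
      exact ⟨zero_le_one, le_rfl⟩
  · rw [prdS_of_ge g (not_lt.1 hg)]
    exact ⟨le_rfl, zero_le_one⟩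

private theorem prdS_one (hB : GoodTls p q d a α β) (g : C(K, ℝ)) (hg : ‖g‖ ≤ p) :
    prdS q P a α β g = 1 := by
  have hd := hB.hd
  have hpq := hB.hpq
  rw [prdS_of_lt g (by linarith)]
  apply finprod_eq_one_of_forall_eq_one
  intro i
  obtain ⟨w1, w2, w3⟩ := winS hB i.1
  unfold facS
  rw [hB.aone i.1 i.2.2 _ (by
    have := restr_le_norm (S := Y i.2.2) g
    linarith)]
  ring

end main

/-! ROW TS1 (Tls.lean): adapt Tal.lean (perm_tal) -/
theorem perm_tals (K : Type u) [TopologicalSpace K] [CompactSpace K] (D : Set K)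
    (hD : IsClosed D) (ι : Type u) (Y A B : ι → Set K) (P : ι → ℕ)
    (hT : TalS K D ι Y A B P) (hne : ∀ j, (A j).Nonempty → (B j).Nonempty)
    (hY : ∀ j, IsGood (Y j)) (hA : ∀ j, IsGood (A j)) (hB : ∀ j, IsGood (B j)) :
    RelBumps K D := by
  haveI hcY : ∀ j, CompactSpace (Y j) := fun j =>
    isCompact_iff_compactSpace.1 (hT.closedY j).isCompact
  haveI hcA : ∀ j, CompactSpace (A j) := fun j =>
    isCompact_iff_compactSpace.1 (hT.closedA j).isCompact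
  haveI hcB : ∀ j, CompactSpace (B j) := fun j =>
    isCompact_iff_compactSpace.1 (hT.closedB j).isCompact
  have hY' : ∀ j, HasBumps (Y j) := fun j => by
    obtain ⟨_, _, h⟩ := hY j
    exact h
  have hA' : ∀ j, HasBumps (A j) := fun j => by
    obtain ⟨_, _, h⟩ := hA j
    exact h
  have hB' : ∀ j, HasBumps (B j) := fun j => by
    obtain ⟨_, _, h⟩ := hB j
    exact h
  intro p q hp hpq
  set d : ℝ := (q - p) / 3 with hd
  have hd0 : 0 < d := by rw [hd]; linarith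
  have hq : 0 < q := hp.trans hpq
  have hpq' : p < q - 2 * d := by rw [hd]; linarith
  have hw : ∀ k : ℕ, p < q - 2 * d / ((k : ℝ) + 1) ∧
      q - 2 * d / ((k : ℝ) + 1) < q - d / ((k : ℝ) + 1) := by
    intro k
    have hk : (0 : ℝ) < (k : ℝ) + 1 := by positivity
    have h2 : 0 < d / ((k : ℝ) + 1) := by positivity
    have h3 : d / ((k : ℝ) + 1) ≤ d := by
      rw [div_le_iff₀ hk]
      have : (0 : ℝ) ≤ (k : ℝ) := Nat.cast_nonneg k
      nlinarith
    have e2 : 2 * d / ((k : ℝ) + 1) = 2 * (d / ((k : ℝ) + 1)) := by ring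
    rw [e2]
    refine ⟨?_, ?_⟩ <;> linarith
  have hYb := fun (k : ℕ) (j : ι) => hY' j (q - 2 * d / ((k : ℝ) + 1)) (q - d / ((k : ℝ) + 1))
    (hp.trans (hw k).1) (hw k).2
  choose a ha1 ha2 ha3 ha4 ha5 using hYb
  have hh : ∀ k : ℕ, 0 < q / ((k : ℝ) + 1) := fun k => by positivity
  have hAb := fun (k l : ℕ) (j : ι) => hA' j (((l : ℝ) + 3) * (q / ((k : ℝ) + 1)))
    (((l : ℝ) + 4) * (q / ((k : ℝ) + 1))) (mul_pos (by positivity) (hh k)) (by
      have := hh k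
      nlinarith)
  choose α hα1 hα2 hα3 hα4 hα5 using hAb
  have hBb := fun (k l : ℕ) (j : ι) => hB' j (((l : ℝ) + 1) * (q / ((k : ℝ) + 1)))
    (((l : ℝ) + 2) * (q / ((k : ℝ) + 1))) (mul_pos (by positivity) (hh k)) (by
      have := hh k
      nlinarith)
  choose β hβ1 hβ2 hβ3 hβ4 hβ5 using hBb
  have hG : GoodTls p q d a α β :=
    { hp := hp
      hd := hd0
      hpq := hpq'
      anice := fun k j f => ⟨(ha1 k j).contDiffAt, ha2 k j f⟩
      arng := fun k j f => ha3 k j f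
      aone := fun k j f hf => ha4 k j f hf
      azero := fun k j f hf => ha5 k j f hf
      αnice := fun k l j f => ⟨(hα1 k l j).contDiffAt, hα2 k l j f⟩
      αrng := fun k l j f => hα3 k l j f
      αone := fun k l j f hf => hα4 k l j f hf
      αzero := fun k l j f hf => hα5 k l j f hf
      βnice := fun k l j f => ⟨(hβ1 k l j).contDiffAt, hβ2 k l j f⟩
      βrng := fun k l j f => hβ3 k l j f
      βone := fun k l j f hf => hβ4 k l j f hf
      βzero := fun k l j f hf => hβ5 k l j f hf }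
  exact ⟨prdS q P a α β, fun f hf => prdS_nice hT hne hG f hf, fun f => prdS_rng hG f,
    fun f hf => prdS_one hG f hf, fun f _ hf => prdS_of_ge f hf⟩

end Pool.Agent.CKT
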