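import Pool.Agent.CKT.Fsu

/-!
# Pulling back a system of pairs along an open map (MP_0211b8_an)
-/

set_option autoImplicit false

open Set Filter Topology

namespace Pool.Agent.CKT

universe u v

theorem tal_pull (X K : Type u) [TopologicalSpace X] [TopologicalSpace K] [CompactSpace X]
    [T2Space K] (φ : X → K) (hφ : Continuous φ) (ho : IsOpenMap φ)
    (hs : Function.Surjective φ) (D : Set K) (ι : Type u) (Y : ι → Set K) (a b : ι → K)
    (P : ι → ℕ) (hT : Tal K D ι Y a b P) :
    TalS X (φ ⁻¹' D) (ι × Fin 2) (fun j => φ ⁻¹' (Y j.1))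
      (fun j => if j.2 = 0 then φ ⁻¹' {a j.1} else φ ⁻¹' {b j.1})
      (fun j => if j.2 = 0 then φ ⁻¹' {b j.1} else φ ⁻¹' {a j.1}) (fun j => P j.1) := by
  have hcl : ∀ k : K, IsClosed (φ ⁻¹' {k}) := fun k => isClosed_singleton.preimage hφ
  refine ⟨fun j => (hT.closedY j.1).preimage hφ, ?_, ?_, ?_, ?_⟩
  · intro j
    by_cases h : j.2 = 0
    · simpa only [h, if_true] using hcl (a j.1)
    · simpa only [h, if_false] using hcl (b j.1)
  · intro j
    by_cases h : j.2 = 0
    · simpa only [h, if_true] using hcl (b j.1)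
    · simpa only [h, if_false] using hcl (a j.1)
  · intro f m s t hst
    obtain ⟨u, hu0, hu1, hu2⟩ := fib_sup X K φ hφ ho hs f
    have hU : IsOpen {p : K × K | |u p.1 - u p.2| < t - s} := by
      have h1 : Continuous fun p : K × K => |u p.1 - u p.2| :=
        ((u.continuous.comp continuous_fst).sub (u.continuous.comp continuous_snd)).abs
      exact isOpen_lt h1 continuous_const
    have hd : ∀ x : K, (x, x) ∈ {p : K × K | |u p.1 - u p.2| < t - s} := by
      intro x
      simp only [mem_setOf_eq, sub_self, abs_zero]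
      linarith
    have hfin := hT.fin m _ hU hd
    -- large on one fibre and small on another one
    have key : ∀ c d : K, (∃ x ∈ φ ⁻¹' {c}, t ≤ |f x|) → (∀ y ∈ φ ⁻¹' {d}, |f y| ≤ s) →
        t - s ≤ u c - u d := by
      rintro c d ⟨x, hx, hxt⟩ hd
      obtain ⟨y, hy, hy'⟩ := hu2 d
      have h1 : |f x| ≤ u c := by
        have h2 := hu1 x
        rwa [show φ x = c from hx] at h2
      have h3 : |f y| ≤ s := hd y hy
      linarith
    refine (hfin.prod (Set.finite_univ (α := Fin 2))).subset ?_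
    rintro ⟨j, i⟩ ⟨h1, h2, h3⟩
    refine ⟨⟨h1, ?_⟩, mem_univ _⟩
    simp only [mem_setOf_eq, not_lt]
    by_cases h : i = 0
    · simp only [h, if_true] at h2 h3
      exact (key _ _ h2 h3).trans (le_abs_self _)
    · simp only [h, if_false] at h2 h3
      rw [abs_sub_comm]
      exact (key _ _ h2 h3).trans (le_abs_self _)
  · intro f q hq hfD hx
    obtain ⟨u, hu0, hu1, hu2⟩ := fib_sup X K φ hφ ho hs f
    have habs : ∀ k, |u k| = u k := fun k => abs_of_nonneg (hu0 k)
    obtain ⟨j, ⟨y, hy, hyq⟩, hne⟩ := hT.top u q hq (by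
      intro k hk
      obtain ⟨x, hxk, hxu⟩ := hu2 k
      rw [habs, ← hxu]
      apply hfD
      show φ x ∈ D
      rwa [hxk]) (by
      obtain ⟨x, hx⟩ := hx
      exact ⟨φ x, by rw [habs]; exact hx.trans (hu1 x)⟩)
    obtain ⟨x0, hx0, hx0u⟩ := hu2 y
    have hY : ∃ x ∈ φ ⁻¹' (Y j), q ≤ |f x| := by
      refine ⟨x0, ?_, ?_⟩
      · show φ x0 ∈ Y j
        rwa [hx0]
      · rw [hx0u, ← habs]
        exact hyq
    have key : ∀ c d : K, u d < u c → ∃ x ∈ φ ⁻¹' {c}, ∀ y ∈ φ ⁻¹' {d}, |f y| < |f x| := by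
      intro c d h
      obtain ⟨x, hxc, hxu⟩ := hu2 c
      refine ⟨x, hxc, fun y hy => ?_⟩
      have h2 := hu1 y
      rw [show φ y = d from hy] at h2
      rw [hxu]
      exact h2.trans_lt h
    rcases lt_or_gt_of_ne hne with h | h
    · refine ⟨(j, 1), hY, ?_⟩
      simpa using key (b j) (a j) h
    · refine ⟨(j, 0), hY, ?_⟩
      simpa using key (a j) (b j) h

end Pool.Agent.CKT
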