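import Pool.Agent.CKT.Defs5
import Pool.Agent.CKT.Com
import Pool.Agent.CKT.Psp
import Pool.Agent.CKT.Ch6
import Pool.Agent.CKT.Tls
import Pool.Agent.CKT.Tpu

/-!
# Open maps onto spaces with chains of retractions
-/

set_option autoImplicit false

open Set Filter Topology

namespace Pool.Agent.CKT

universe u v

theorem good_open_tal (X K : Type u) [TopologicalSpace X] [TopologicalSpace K] [CompactSpace X]
    [T2Space X] [T2Space K] (φ : X → K) (hφ : Continuous φ) (ho : IsOpenMap φ)
    (hs : Function.Surjective φ) (D : Set K) (hD : IsClosed D) (ι : Type u) (Y : ι → Set K)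
    (a b : ι → K) (P : ι → ℕ) (hT : Tal K D ι Y a b P) (h0 : IsGood (φ ⁻¹' D : Set X))
    (hf : ∀ x, IsGood (φ ⁻¹' {x} : Set X)) (hY : ∀ j, IsGood (φ ⁻¹' (Y j) : Set X)) :
    IsGood X := by
  have hT' := tal_pull X K φ hφ ho hs D ι Y a b P hT
  have hrel : RelBumps X (φ ⁻¹' D) := by
    refine perm_tals X (φ ⁻¹' D) (hD.preimage hφ) (ι × Fin 2) _ _ _ _ hT' ?_
      (fun j => hY j.1) ?_ ?_
    · intro j _
      have hn : ∀ k, (φ ⁻¹' {k} : Set X).Nonempty := fun k => by
        obtain ⟨x, hx⟩ := hs k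
        exact ⟨x, hx⟩
      by_cases hj : j.2 = 0
      · simp only [hj, if_true]
        exact hn _
      · simp only [hj, if_false]
        exact hn _
    · rintro ⟨j, i⟩
      by_cases hi : i = 0
      · subst hi
        exact hf _
      · have : (if i = 0 then φ ⁻¹' {a j} else φ ⁻¹' {b j} : Set X) = φ ⁻¹' {b j} := if_neg hi
        show IsGood ((if i = 0 then φ ⁻¹' {a j} else φ ⁻¹' {b j} : Set X))
        rw [this]
        exact hf _
    · rintro ⟨j, i⟩
      by_cases hi : i = 0
      · subst hi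
        exact hf _
      · have : (if i = 0 then φ ⁻¹' {b j} else φ ⁻¹' {a j} : Set X) = φ ⁻¹' {a j} := if_neg hi
        show IsGood ((if i = 0 then φ ⁻¹' {b j} else φ ⁻¹' {a j} : Set X))
        rw [this]
        exact hf _
  obtain ⟨_, _, hB⟩ := h0
  exact ⟨inferInstance, inferInstance, hasBumps_of_rel X (φ ⁻¹' D) (hD.preimage hφ) hrel hB⟩

theorem good_open_chain (X K : Type u) [TopologicalSpace X] [TopologicalSpace K]
    [CompactSpace X] [T2Space X] [CompactSpace K] [T2Space K] (φ : X → K)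
    (hφ : Continuous φ) (ho : IsOpenMap φ) (hs : Function.Surjective φ) (κ : Ordinal.{u})
    (r : Ordinal.{u} → K → K) (h : Chain K κ r) (hI : Incr K κ r) (D : Set K)
    (hD : IsClosed D) (h0 : ∀ x, r 0 x ∈ D) (hg : IsGood (φ ⁻¹' D : Set X))
    (hf : ∀ x, IsGood (φ ⁻¹' {x} : Set X))
    (hcone : ∀ β < κ, ∀ c, (∀ z, r (Order.succ β) z = c → z ∉ D) →
      IsGood (φ ⁻¹' {z | r (Order.succ β) z = c} : Set X)) : IsGood X := by
  obtain ⟨Y, a, b, P, hT, hY⟩ := chain_tal K κ r h hI D hD h0
  refine good_open_tal X K φ hφ ho hs D hD (K × Fin 3) Y a b P hT hg hf ?_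
  intro j
  rcases hY j with hj | ⟨β, hβ, c, hc, hcD⟩
  · rcases hj.eq_empty_or_singleton with he | ⟨x, hx⟩
    · rw [he, preimage_empty]
      have : CompactSpace (∅ : Set X) := isCompact_iff_compactSpace.1 isCompact_empty
      have : Subsingleton (∅ : Set X) := ⟨fun a => a.2.elim⟩
      exact ⟨inferInstance, inferInstance, hasBumps_of_empty _ (perm_point _ ∅)⟩
    · rw [hx]
      exact hf x
  · rw [hc]
    refine hcone β hβ c fun z hz => ?_
    apply hcD
    rw [hc]
    exact hz

end Pool.Agent.CKT
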