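import Pool.Agent.CKT.Defs2

set_option autoImplicit false

open Set Filter Topology

namespace Pool.Agent.CKT

universe u

theorem R.compact {K : Type u} {t : TopologicalSpace K} {D : Set K} (h : R K t D) :
    CompactSpace K := by
  induction h with
  | point K t hs D => infer_instance
  | sysp K t hc h2 D hD ι Y F hS hY hF ih1 ih2 => exact hc
  | gen K t hc h2 D hD ι C B i h e hG hR ih => exact hc
  | image K K' t t' h2 p hp hs D h ih =>
    haveI := ih
    constructor
    rw [← hs.range_eq]
    exact isCompact_range hp
  | quot K t hc h2 D hD h ih => exact hc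

theorem R.t2 {K : Type u} {t : TopologicalSpace K} {D : Set K} (h : R K t D) : T2Space K := by
  induction h with
  | point K t hs D => infer_instance
  | sysp K t hc h2 D hD ι Y F hS hY hF ih1 ih2 => exact h2
  | gen K t hc h2 D hD ι C B i h e hG hR ih => exact h2
  | image K K' t t' h2 p hp hs D h ih => exact h2
  | quot K t hc h2 D hD h ih => exact h2

theorem R.closed {K : Type u} {t : TopologicalSpace K} {D : Set K} (h : R K t D) :
    IsClosed D := by
  induction h with
  | point K t hs D => exact isClosed_discrete D
  | sysp K t hc h2 D hD ι Y F hS hY hF ih1 ih2 => exact hD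
  | gen K t hc h2 D hD ι C B i h e hG hR ih => exact hD
  | image K K' t t' h2 p hp hs D h ih =>
    haveI := h.compact
    have hcp : IsCompact (p ⁻¹' D) := ih.isCompact
    have := hcp.image hp
    rw [Set.image_preimage_eq D hs] at this
    exact this.isClosed
  | quot K t hc h2 D hD h ih => exact hD

end Pool.Agent.CKT
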