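import Pool.Agent.CKT.Defs

/-!
# Good compact spaces (MP_0211b8_an)
-/

set_option autoImplicit false

open Set Filter Topology

namespace Pool.Agent.CKT

universe u v

/-- A compact Hausdorff space `K` is good if `C(K)` has bump functions of class `C^∞`, locally
depending on finitely many coordinates, with prescribed radii. -/
def IsGood (K : Type u) [TopologicalSpace K] : Prop :=
  ∃ _ : CompactSpace K, T2Space K ∧ HasBumps K

/-- A space with a partial order such that the sets `(-∞, t]` are open, compact and well
quasi-ordered. -/
def IsWqo (L : Type u) [TopologicalSpace L] [PartialOrder L] : Prop :=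
  ∀ t : L, IsOpen (Iic t) ∧ IsCompact (Iic t) ∧ (Iic t).IsPWO

/-- The minimal elements of the set of all elements above `x`. -/
def mins {L : Type u} [PartialOrder L] (x : L) : Set L := {y | x < y ∧ ∀ z, x < z → z ≤ y → z = y}

end Pool.Agent.CKT
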