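import Pool.Agent.CKT.Defs2

/-!
# Pairs with a discrete complement
-/

set_option autoImplicit false

open Set Filter Topology

namespace Pool.Agent.CKT

universe u v

theorem R_univ (K : Type u) [t : TopologicalSpace K] [CompactSpace K] [T2Space K] :
    R K t univ := by
  refine R.sys K t inferInstance inferInstance univ isClosed_univ (fun _ => ∅) ?_ ?_
  · refine ⟨fun _ _ => isClosed_empty, ?_, ?_⟩
    · intro A U _ _ _ hA
      refine Set.Finite.subset Set.finite_empty ?_
      rintro x ⟨hx, -⟩
      exact absurd (mem_univ x) (hA x hx)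
    · rintro M _ ⟨x, hx⟩ hM
      exact absurd (mem_univ x) (hM x hx)
  · intro x hx
    exact absurd (mem_univ x) hx

theorem R_dis (K : Type u) [t : TopologicalSpace K] [CompactSpace K] [T2Space K] (D : Set K)
    (hD : IsClosed D) (h : ∀ x, x ∉ D → ∃ V : Set K, IsOpen V ∧ x ∈ V ∧ ∀ y ∈ V, y ∉ D → y = x) :
    R K t D := by
  refine R.sys K t inferInstance inferInstance D hD (fun _ => ∅) ?_ ?_
  · refine ⟨fun _ _ => isClosed_empty, ?_, ?_⟩
    · intro A U hA _ _ hAD
      refine Set.Finite.subset (s := A) ?_ (fun x hx => hx.1)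
      have hc : IsCompact A := hA.isCompact
      obtain ⟨s, hs⟩ := hc.elim_finite_subcover
        (fun x : A => (h x.1 (hAD x.1 x.2)).choose)
        (fun x => (h x.1 (hAD x.1 x.2)).choose_spec.1)
        (fun x hx => mem_iUnion.2 ⟨⟨x, hx⟩, (h x (hAD x hx)).choose_spec.2.1⟩)
      refine Set.Finite.subset (s.finite_toSet.image Subtype.val) ?_
      intro y hy
      obtain ⟨x, hx⟩ := mem_iUnion.1 (hs hy)
      obtain ⟨hxs, hyx⟩ := mem_iUnion.1 hx
      exact ⟨x, hxs, ((h x.1 (hAD x.1 x.2)).choose_spec.2.2 y hyx (hAD y hy)).symm⟩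
    · rintro M _ ⟨x, hx⟩ _
      exact ⟨x, hx, fun y hy => absurd hy (notMem_empty y)⟩
  · intro x _
    have hU : (Subtype.val ⁻¹' D : Set (∅ : Set K)) = univ := by
      ext ⟨y, hy⟩
      exact absurd hy (notMem_empty y)
    haveI : CompactSpace (∅ : Set K) := isCompact_iff_compactSpace.1 isCompact_empty
    have := R_univ (∅ : Set K)
    rw [← hU] at this
    exact this

end Pool.Agent.CKT
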