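import Pool.Agent.CKT.Defs2
import Pool.Agent.CKT.Defs3
import Pool.Agent.CKT.Bum2
import Pool.Agent.CKT.Com
import Pool.Agent.CKT.Dis

/-!
# Open maps with good fibres
-/

set_option autoImplicit false

open Set Filter Topology

namespace Pool.Agent.CKT

universe u v

private theorem OPS_rel {K : Type u} [TopologicalSpace K] [CompactSpace K] (h : HasBumps K)
    (D : Set K) : RelBumps K D := by
  intro p q hp hpq
  obtain ⟨b, b1, b2, b3, b4, b5⟩ := h p q hp hpq
  exact ⟨b, fun f _ => ⟨b1.contDiffAt, b2 f⟩, b3, b4, fun f _ => b5 f⟩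

private theorem OPS_img {K K' : Type u} [TopologicalSpace K] [TopologicalSpace K'] [T2Space K']
    {p : K → K'} (hp : Continuous p) (hs : Function.Surjective p) (h : IsGood K) : IsGood K' := by
  obtain ⟨hc, h2, hb⟩ := h
  have hc' : CompactSpace K' := hs.compactSpace hp
  exact ⟨hc', inferInstance, hasBumps_of_empty K' (perm_image K K' p hp hs ∅ (OPS_rel hb _))⟩

/-- the restriction of an open map to the preimage of a closed set -/
private theorem OPS_restr {X K : Type u} [TopologicalSpace X] [TopologicalSpace K]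
    [CompactSpace X] [T2Space X] {φ : X → K} (hφ : Continuous φ) (ho : IsOpenMap φ)
    (hs : Function.Surjective φ) (S : Set K) (hS : IsClosed S) (D' : Set S)
    (ih : ∀ (X : Type u) [t : TopologicalSpace X] [CompactSpace X] [T2Space X] (φ : X → S),
      Continuous φ → IsOpenMap φ → Function.Surjective φ →
      (∀ x, x ∉ D' → IsGood (φ ⁻¹' {x} : Set X)) → RelBumps X (φ ⁻¹' D'))
    (hf : ∀ x (hx : x ∈ S), (⟨x, hx⟩ : S) ∉ D' → IsGood (φ ⁻¹' {x} : Set X)) :
    @RelBumps (φ ⁻¹' S : Set X) _ (isCompact_iff_compactSpace.1 (hS.preimage hφ).isCompact)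
      (S.restrictPreimage φ ⁻¹' D') := by
  have hcS : CompactSpace (φ ⁻¹' S : Set X) :=
    isCompact_iff_compactSpace.1 (hS.preimage hφ).isCompact
  refine ih (φ ⁻¹' S : Set X) (S.restrictPreimage φ) hφ.restrictPreimage (ho.restrictPreimage S)
    (Set.restrictPreimage_surjective _ hs) ?_
  rintro ⟨x, hx⟩ hxD
  refine OPS_img (K := (φ ⁻¹' {x} : Set X))
    (p := fun z => ⟨⟨z.1, by
      have h1 : φ z.1 = x := z.2
      show φ z.1 ∈ S
      rw [h1]
      exact hx⟩, Subtype.ext z.2⟩) ?_ ?_ (hf x hx hxD)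
  · exact Continuous.subtype_mk (Continuous.subtype_mk continuous_subtype_val _) _
  · rintro ⟨⟨z, hz⟩, hz'⟩
    exact ⟨⟨z, congrArg Subtype.val hz'⟩, rfl⟩

private theorem OPS_sysp {X K : Type u} [TopologicalSpace X] [TopologicalSpace K]
    [CompactSpace X] [T2Space K] {φ : X → K} (hφ : Continuous φ) (ho : IsOpenMap φ)
    {D : Set K} {ι : Type u} {Y F : ι → Set K} (hS : SysP K D ι Y F) :
    SysP X (φ ⁻¹' D) ι (fun j => φ ⁻¹' Y j) (fun j => φ ⁻¹' F j) where
  closedY j := (hS.closedY j).preimage hφ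
  closedF j := (hS.closedF j).preimage hφ
  fin := by
    intro A U hA hU hAU hAD
    refine (hS.fin (φ '' A) (φ '' U) ((hA.isCompact.image hφ).isClosed)
      (ho U hU) (image_mono hAU) ?_).subset ?_
    · rintro _ ⟨z, hz, rfl⟩ hzD
      exact hAD z hz hzD
    · rintro j ⟨⟨z, hzA, hz⟩, hj⟩
      refine ⟨⟨φ z, ⟨z, hzA, rfl⟩, hz⟩, ?_⟩
      rintro _ hy ⟨w, hw, rfl⟩
      exact hj w hy hw
  top := by
    intro M hM hne hMD
    obtain ⟨j, ⟨x, ⟨z, hzM, hz⟩, hx⟩, hj⟩ := hS.top (φ '' M)
      ((hM.isCompact.image hφ).isClosed) (hne.image _) (by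
        rintro _ ⟨z, hz, rfl⟩ hzD
        exact hMD z hz hzD)
    refine ⟨j, ⟨z, hzM, ?_⟩, ?_⟩
    · show φ z ∈ Y j
      rw [hz]
      exact hx
    · intro w hw hwM
      exact hj (φ w) hw ⟨w, hwM, rfl⟩

private theorem OPS_gen {X K : Type u} [TopologicalSpace X] [TopologicalSpace K]
    {φ : X → K} (hφ : Continuous φ) {D : Set K} {ι : Type u} {C B : ι → Set K} {i : K → ι}
    {h e : ι → ℝ} (hG : Gen K D ι C B i h e) :
    Gen X (φ ⁻¹' D) ι (fun j => φ ⁻¹' C j) (fun j => φ ⁻¹' B j) (fun z => i (φ z)) h e where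
  closedC j := (hG.closedC j).preimage hφ
  closedB j := (hG.closedB j).preimage hφ
  meet j x hx hx' := hG.meet j (φ x) hx hx'
  mem x hx := hG.mem (φ x) hx
  uniq x hx j hj hj' := hG.uniq (φ x) hx j hj hj'
  hrange := hG.hrange
  erange := hG.erange
  gap := by
    intro y hy
    obtain ⟨V, hV, hV'⟩ := hG.gap (φ y) hy
    exact ⟨φ ⁻¹' V, hφ.continuousAt hV, fun x hx hxD hi => hV' (φ x) hx hxD hi⟩
  low j y hy hyD := hG.low j (φ y) hy hyD

private theorem OPS_pull {X K K' : Type u} [TopologicalSpace X] [TopologicalSpace K]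
    [TopologicalSpace K'] {φ : X → K'} (ho : IsOpenMap φ)
    {p : K → K'} (hp : Continuous p) :
    IsOpenMap (fun z : {z : X × K | φ z.1 = p z.2} => z.1.2) := by
  intro W hW
  rw [isOpen_iff_mem_nhds]
  rintro _ ⟨⟨⟨x, k⟩, hxk⟩, hz, rfl⟩
  obtain ⟨O, hO, rfl⟩ := isOpen_induced_iff.1 hW
  obtain ⟨U, V, hU, hV, hxU, hkV, hUV⟩ := isOpen_prod_iff.1 hO x k hz
  have h1 : V ∩ p ⁻¹' (φ '' U) ∈ 𝓝 k := by
    apply (hV.inter ((ho U hU).preimage hp)).mem_nhds
    exact ⟨hkV, x, hxU, hxk⟩
  refine Filter.mem_of_superset h1 ?_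
  rintro k' ⟨hk', x', hx', hxk'⟩
  exact ⟨⟨(x', k'), hxk'⟩, hUV ⟨hx', hk'⟩, rfl⟩

private theorem OPS_one {A B : Type u} [TopologicalSpace A] [TopologicalSpace B] {g : A → B}
    (hg : Continuous g) (ho : IsOpenMap g) (hs : Function.Surjective g) :
    IsOpenMap (OnePoint.map g) := by
  intro U hU
  rw [OnePoint.isOpen_def] at hU ⊢
  obtain ⟨h1, h2⟩ := hU
  have e : ((↑) : B → OnePoint B) ⁻¹' (OnePoint.map g '' U) =
      g '' (((↑) : A → OnePoint A) ⁻¹' U) := by
    ext b
    constructor
    · rintro ⟨z, hz, hzb⟩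
      induction z using OnePoint.rec with
      | infty =>
        rw [OnePoint.map_infty] at hzb
        exact absurd hzb (OnePoint.infty_ne_coe b)
      | coe a =>
        rw [OnePoint.map_some] at hzb
        exact ⟨a, hz, OnePoint.coe_injective hzb⟩
    · rintro ⟨a, ha, rfl⟩
      exact ⟨(a : OnePoint A), ha, OnePoint.map_some g a⟩
  constructor
  · rintro ⟨z, hz, hzi⟩
    have hiU : OnePoint.infty ∈ U := by
      induction z using OnePoint.rec with
      | infty => exact hz
      | coe a =>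
        rw [OnePoint.map_some] at hzi
        exact absurd hzi (OnePoint.coe_ne_infty _)
    rw [e]
    refine IsCompact.of_isClosed_subset ((h1 hiU).image hg) (ho _ h2).isClosed_compl ?_
    intro b hb
    obtain ⟨a, rfl⟩ := hs b
    exact ⟨a, fun ha => hb ⟨a, ha, rfl⟩, rfl⟩
  · rw [e]
    exact ho _ h2

/-! ROW OPS -/
theorem open_bumps (X K : Type u) [t : TopologicalSpace X] [t' : TopologicalSpace K]
    [CompactSpace X] [T2Space X] (φ : X → K) (hφ : Continuous φ) (ho : IsOpenMap φ)
    (hs : Function.Surjective φ) (D : Set K) (h : R K t' D)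
    (hf : ∀ x, x ∉ D → IsGood (φ ⁻¹' {x} : Set X)) : RelBumps X (φ ⁻¹' D) := by
  induction h generalizing X with
  | point K t' hsub D =>
    rcases isEmpty_or_nonempty K with hK | ⟨⟨x⟩⟩
    · have hX : Subsingleton X := ⟨fun a => (hK.false (φ a)).elim⟩
      exact perm_point X _
    · by_cases hx : x ∈ D
      · have e : φ ⁻¹' D = univ := by
          ext z
          simp only [mem_preimage, mem_univ, iff_true]
          rw [Subsingleton.elim (φ z) x]
          exact hx
        rw [e]
        exact (R_univ X).bumps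
      · have h1 : IsGood X := OPS_img (K := (φ ⁻¹' {x} : Set X)) (p := Subtype.val)
          continuous_subtype_val (fun z => ⟨⟨z, Subsingleton.elim _ _⟩, rfl⟩) (hf x hx)
        obtain ⟨_, _, hb⟩ := h1
        exact OPS_rel hb _
  | sysp K t' hc h2 D hD ι Y F hS hY hF ih1 ih2 =>
    refine perm_sysp X (φ ⁻¹' D) (hD.preimage hφ) ι _ _ (OPS_sysp hφ ho hS) ?_ ?_
    · intro j
      refine OPS_restr hφ ho hs (Y j) (hS.closedY j) (Subtype.val ⁻¹' (F j ∪ D)) ?_ ?_
      · intro X _ _ _ φ hφ ho hs hf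
        exact ih1 j X φ hφ ho hs hf
      · intro x hx hxD
        exact hf x fun h' => hxD (Or.inr h')
    · intro j
      refine OPS_restr hφ ho hs (F j) (hS.closedF j) (Subtype.val ⁻¹' D) ?_ ?_
      · intro X _ _ _ φ hφ ho hs hf
        exact ih2 j X φ hφ ho hs hf
      · intro x hx hxD
        exact hf x fun h' => hxD h'
  | gen K t' hc h2 D hD ι C B i h e hG hR ih =>
    refine perm_gen X (φ ⁻¹' D) ι _ _ _ h e (OPS_gen hφ hG) ?_
    intro j
    refine OPS_restr hφ ho hs (C j) (hG.closedC j) (Subtype.val ⁻¹' (B j)) ?_ ?_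
    · intro X _ _ _ φ hφ ho hs hf
      exact ih j X φ hφ ho hs hf
    · intro x hx hxD
      exact hf x fun h' => hxD (hG.meet j x hx h')
  | image K K' t1 t2 h2 p hp hps D h ih =>
    have := h.compact
    have := h.t2
    have hcl : IsClosed {z : X × K | φ z.1 = p z.2} :=
      isClosed_eq (hφ.comp continuous_fst) (hp.comp continuous_snd)
    have hcc : CompactSpace {z : X × K | φ z.1 = p z.2} :=
      isCompact_iff_compactSpace.1 hcl.isCompact
    have h3 := ih {z : X × K | φ z.1 = p z.2} (fun z => z.1.2)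
      (continuous_snd.comp continuous_subtype_val) (OPS_pull ho hp) (by
        intro k
        obtain ⟨x, hx⟩ := hs (p k)
        exact ⟨⟨(x, k), hx⟩, rfl⟩) (by
        intro k hk
        refine OPS_img (K := (φ ⁻¹' {p k} : Set X))
          (p := fun x => ⟨⟨(x.1, k), x.2⟩, rfl⟩) ?_ ?_ (hf (p k) hk)
        · exact Continuous.subtype_mk (Continuous.subtype_mk
            (continuous_subtype_val.prodMk continuous_const) _) _
        · rintro ⟨⟨⟨x, k'⟩, hx⟩, rfl⟩
          exact ⟨⟨x, hx⟩, rfl⟩)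
    refine perm_image {z : X × K | φ z.1 = p z.2} X (fun z => z.1.1)
      (continuous_fst.comp continuous_subtype_val) ?_ (φ ⁻¹' D) ?_
    · intro x
      obtain ⟨k, hk⟩ := hps (φ x)
      exact ⟨⟨(x, k), hk.symm⟩, rfl⟩
    · have e : ((fun z : {z : X × K | φ z.1 = p z.2} => z.1.1) ⁻¹' (φ ⁻¹' D)) =
          ((fun z : {z : X × K | φ z.1 = p z.2} => z.1.2) ⁻¹' (p ⁻¹' D)) := by
        ext z
        have h4 : φ z.1.1 = p z.1.2 := z.2
        simp only [mem_preimage]
        rw [h4]
      rw [e]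
      exact h3
  | quot K t' hc h2 D hD h ih =>
    have l1 : LocallyCompactSpace (Dᶜ : Set K) := hD.isOpen_compl.locallyCompactSpace
    have l2 : LocallyCompactSpace ((φ ⁻¹' D)ᶜ : Set X) :=
      (hD.preimage hφ).isOpen_compl.locallyCompactSpace
    let g : ((φ ⁻¹' D)ᶜ : Set X) → (Dᶜ : Set K) := (Dᶜ : Set K).restrictPreimage φ
    have hgp : IsProperMap g := hφ.isProperMap.restrictPreimage (Dᶜ : Set K)
    have hgc : Continuous g := hgp.continuous
    have hgo : IsOpenMap g := ho.restrictPreimage (Dᶜ : Set K)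
    have hgs : Function.Surjective g := Set.restrictPreimage_surjective _ hs
    have hgt : Tendsto g (coclosedCompact _) (coclosedCompact _) := by
      rw [coclosedCompact_eq_cocompact, coclosedCompact_eq_cocompact]
      exact (isProperMap_iff_tendsto_cocompact.1 hgp).2
    have h3 := ih (OnePoint ((φ ⁻¹' D)ᶜ : Set X)) (OnePoint.map g)
      (OnePoint.continuous_map hgc hgt) (OPS_one hgc hgo hgs) (by
        intro y
        induction y using OnePoint.rec with
        | infty => exact ⟨OnePoint.infty, OnePoint.map_infty g⟩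
        | coe b =>
          obtain ⟨a, rfl⟩ := hgs b
          exact ⟨(a : OnePoint ((φ ⁻¹' D)ᶜ : Set X)), OnePoint.map_some g a⟩) (by
        intro y hy
        obtain ⟨⟨k, hk⟩, rfl⟩ := OnePoint.ne_infty_iff_exists.1 hy
        refine OPS_img (K := (φ ⁻¹' {k} : Set X))
          (p := fun x => ⟨((⟨x.1, by
            have h1 : φ x.1 = k := x.2
            show φ x.1 ∉ D
            rw [h1]
            exact hk⟩ : ((φ ⁻¹' D)ᶜ : Set X)) : OnePoint ((φ ⁻¹' D)ᶜ : Set X)), by
            rw [mem_preimage, OnePoint.map_some, mem_singleton_iff]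
            exact congrArg _ (Subtype.ext x.2)⟩) ?_ ?_ (hf k hk)
        · exact Continuous.subtype_mk (OnePoint.continuous_coe.comp
            (Continuous.subtype_mk continuous_subtype_val _)) _
        · rintro ⟨z, hz⟩
          have hz0 : OnePoint.map g z = (⟨k, hk⟩ : (Dᶜ : Set K)) := hz
          have hzi : z ≠ OnePoint.infty := by
            rintro rfl
            rw [OnePoint.map_infty] at hz0
            exact OnePoint.infty_ne_coe _ hz0
          obtain ⟨a, rfl⟩ := OnePoint.ne_infty_iff_exists.1 hzi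
          rw [OnePoint.map_some] at hz0
          have h4 : g a = ⟨k, hk⟩ := OnePoint.coe_injective hz0
          exact ⟨⟨a.1, congrArg Subtype.val h4⟩, rfl⟩)
    refine perm_quot X (φ ⁻¹' D) (hD.preimage hφ) ?_
    have e : (OnePoint.map g) ⁻¹' {OnePoint.infty} = {OnePoint.infty} := by
      ext z
      induction z using OnePoint.rec with
      | infty => simp
      | coe a => simp
    rw [e] at h3
    exact h3

end Pool.Agent.CKT
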