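import Pool.Agent.CKT.Defs2
import Pool.Agent.CKT.Defs3
import Pool.Agent.CKT.Sem
import Pool.Agent.CKT.Ops
import Pool.Agent.CKT.Cpt

/-!
# Bases of open maps (MP_0211b8_an)
-/

set_option autoImplicit false

open Set Filter Topology

namespace Pool.Agent.CKT

universe u v

/-- `K` is a compact Hausdorff space such that every compact Hausdorff space with an open map
onto `K` with good fibres is good. -/
def Qg (K : Type u) [TopologicalSpace K] : Prop :=
  CompactSpace K ∧ T2Space K ∧ ∀ (X : Type u) [TopologicalSpace X] [CompactSpace X] [T2Space X]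
    (φ : X → K), Continuous φ → IsOpenMap φ → Function.Surjective φ →
    (∀ x, IsGood (φ ⁻¹' {x} : Set X)) → IsGood X

theorem good_subsingleton (K : Type u) [TopologicalSpace K] [Subsingleton K] : IsGood K :=
  ⟨inferInstance, inferInstance, hasBumps_of_empty K (perm_point K ∅)⟩

theorem qg_good (K : Type u) [TopologicalSpace K] (h : Qg K) : IsGood K := by
  obtain ⟨_, _, h3⟩ := h
  refine h3 K id continuous_id IsOpenMap.id Function.surjective_id fun x => ?_
  have : Subsingleton (id ⁻¹' {x} : Set K) := ⟨fun a b => Subtype.ext (a.2.trans b.2.symm)⟩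
  exact good_subsingleton _

theorem qg_restr {X K : Type u} [TopologicalSpace X] [TopologicalSpace K]
    [CompactSpace X] [T2Space X] {φ : X → K} (hφ : Continuous φ) (ho : IsOpenMap φ)
    (hs : Function.Surjective φ) (S : Set K) (hS : IsClosed S) (h : Qg S)
    (hf : ∀ x ∈ S, IsGood (φ ⁻¹' {x} : Set X)) : IsGood (φ ⁻¹' S : Set X) := by
  obtain ⟨_, _, h3⟩ := h
  have hcS : CompactSpace (φ ⁻¹' S : Set X) :=
    isCompact_iff_compactSpace.1 (hS.preimage hφ).isCompact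
  refine h3 (φ ⁻¹' S : Set X) (S.restrictPreimage φ) hφ.restrictPreimage
    (ho.restrictPreimage S) (Set.restrictPreimage_surjective _ hs) ?_
  rintro ⟨x, hx⟩
  refine good_image (φ ⁻¹' {x} : Set X) _ (fun z => ⟨⟨z.1, by
      have h1 : φ z.1 = x := z.2
      show φ z.1 ∈ S
      rw [h1]
      exact hx⟩, Subtype.ext z.2⟩) ?_ ?_ (hf x hx)
  · exact Continuous.subtype_mk (Continuous.subtype_mk continuous_subtype_val _) _
  · rintro ⟨⟨z, hz⟩, hz'⟩
    exact ⟨⟨z, congrArg Subtype.val hz'⟩, rfl⟩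

theorem qg_point (K : Type u) [TopologicalSpace K] [Subsingleton K] : Qg K := by
  refine ⟨inferInstance, inferInstance, ?_⟩
  intro X _ _ _ φ _ _ _ hf
  rcases isEmpty_or_nonempty K with hK | ⟨⟨x⟩⟩
  · have hX : Subsingleton X := ⟨fun a => (hK.false (φ a)).elim⟩
    exact good_subsingleton X
  · exact good_image (φ ⁻¹' {x} : Set X) X Subtype.val continuous_subtype_val
      (fun z => ⟨⟨z, Subsingleton.elim _ _⟩, rfl⟩) (hf x)

private theorem QGA_pull {X K K' : Type u} [TopologicalSpace X] [TopologicalSpace K]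
    [TopologicalSpace K'] {φ : X → K'} (ho : IsOpenMap φ)
    {p : K → K'} (hp : Continuous p) :
    IsOpenMap (fun z : {z : X × K | φ z.1 = p z.2} => z.1.2) := by
  intro W hW
  rw [isOpen_iff_mem_nhds]
  rintro _ ⟨⟨⟨x, k⟩, hxk⟩, hz, rfl⟩
  obtain ⟨O, hO, rfl⟩ := isOpen_induced_iff.1 hW
  obtain ⟨U, V, hU, hV, hxU, hkV, hUV⟩ := isOpen_prod_iff.1 hO x k hz
  have h1 : V ∩ p ⁻¹' (φ '' U) ∈ 𝓝 k := by
    apply (hV.inter ((ho U hU).preimage hp)).mem_nhds
    exact ⟨hkV, x, hxU, hxk⟩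
  refine Filter.mem_of_superset h1 ?_
  rintro k' ⟨hk', x', hx', hxk'⟩
  exact ⟨⟨(x', k'), hxk'⟩, hUV ⟨hx', hk'⟩, rfl⟩

theorem qg_image (K K' : Type u) [TopologicalSpace K] [TopologicalSpace K'] [T2Space K']
    (p : K → K') (hp : Continuous p) (hps : Function.Surjective p) (h : Qg K) : Qg K' := by
  obtain ⟨_, _, h3⟩ := h
  refine ⟨hps.compactSpace hp, inferInstance, ?_⟩
  intro X _ _ _ φ hφ ho hs hf
  have hcl : IsClosed {z : X × K | φ z.1 = p z.2} :=
    isClosed_eq (hφ.comp continuous_fst) (hp.comp continuous_snd)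
  have hcc : CompactSpace {z : X × K | φ z.1 = p z.2} :=
    isCompact_iff_compactSpace.1 hcl.isCompact
  refine good_image {z : X × K | φ z.1 = p z.2} X (fun z => z.1.1)
    (continuous_fst.comp continuous_subtype_val) ?_ ?_
  · intro x
    obtain ⟨k, hk⟩ := hps (φ x)
    exact ⟨⟨(x, k), hk.symm⟩, rfl⟩
  · refine h3 {z : X × K | φ z.1 = p z.2} (fun z => z.1.2)
      (continuous_snd.comp continuous_subtype_val) (QGA_pull ho hp) ?_ ?_
    · intro k
      obtain ⟨x, hx⟩ := hs (p k)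
      exact ⟨⟨(x, k), hx⟩, rfl⟩
    · intro k
      refine good_image (φ ⁻¹' {p k} : Set X) _
        (fun x => ⟨⟨(x.1, k), x.2⟩, rfl⟩) ?_ ?_ (hf (p k))
      · exact Continuous.subtype_mk (Continuous.subtype_mk
          (continuous_subtype_val.prodMk continuous_const) _) _
      · rintro ⟨⟨⟨x, k'⟩, hx⟩, rfl⟩
        exact ⟨⟨x, hx⟩, rfl⟩

theorem qg_union (K : Type u) [TopologicalSpace K] [CompactSpace K] [T2Space K]
    (E : ℕ → Set K) (hE : ∀ n, IsClosed (E n)) (hc : ⋃ n, E n = univ)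
    (h : ∀ n, Qg (E n)) : Qg K := by
  refine ⟨inferInstance, inferInstance, ?_⟩
  intro X _ _ _ φ hφ ho hs hf
  refine good_cunion X (fun n => φ ⁻¹' E n) (fun n => (hE n).preimage hφ) ?_ ?_
  · rw [← preimage_iUnion, hc, preimage_univ]
  · intro n
    exact qg_restr hφ ho hs (E n) (hE n) (h n) fun x _ => hf x

theorem qg_fib (X K : Type u) [TopologicalSpace X] [TopologicalSpace K] [CompactSpace X]
    [T2Space X] [T2Space K] (ψ : X → K) (hψ : Continuous ψ) (D : Set K) (hD : IsClosed D)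
    (P : K → ℕ) (hP : ∀ x, x ∉ D → ∃ V ∈ 𝓝 x, ∀ y ∈ V, y ∉ D → P y = P x → y = x)
    (h0 : Qg (ψ ⁻¹' D : Set X)) (h : ∀ x, x ∉ D → Qg (ψ ⁻¹' {x} : Set X)) : Qg X := by
  refine ⟨inferInstance, inferInstance, ?_⟩
  intro Y _ _ _ φ hφ ho hs hf
  refine good_fib Y K (fun y => ψ (φ y)) (hψ.comp hφ) D hD P hP ?_ ?_
  · exact qg_restr hφ ho hs (ψ ⁻¹' D) (hD.preimage hψ) h0 fun x _ => hf x
  · intro x hx
    exact qg_restr hφ ho hs (ψ ⁻¹' {x}) (isClosed_singleton.preimage hψ) (h x hx)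
      fun x _ => hf x

theorem qg_open (X K : Type u) [TopologicalSpace X] [TopologicalSpace K] [CompactSpace X]
    [T2Space X] (hK : Qg K) (ψ : X → K) (hψ : Continuous ψ) (hψo : IsOpenMap ψ)
    (hψs : Function.Surjective ψ) (h : ∀ x, Qg (ψ ⁻¹' {x} : Set X)) : Qg X := by
  obtain ⟨_, _, h3⟩ := hK
  refine ⟨inferInstance, inferInstance, ?_⟩
  intro Y _ _ _ φ hφ ho hs hf
  refine h3 Y (fun y => ψ (φ y)) (hψ.comp hφ) (hψo.comp ho) (hψs.comp hs) ?_
  intro x
  exact qg_restr hφ ho hs (ψ ⁻¹' {x}) (isClosed_singleton.preimage hψ) (h x)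
    fun x _ => hf x

theorem qg_base (K : Type u) [t : TopologicalSpace K] (D : Set K) (h : R K t D) (h0 : Qg D) :
    Qg K := by
  refine ⟨h.compact, h.t2, ?_⟩
  intro X _ _ _ φ hφ ho hs hf
  have hD := h.closed
  have h1 : IsGood (φ ⁻¹' D : Set X) := qg_restr hφ ho hs D hD h0 fun x _ => hf x
  obtain ⟨_, _, h2⟩ := h1
  exact ⟨inferInstance, inferInstance, hasBumps_of_rel X (φ ⁻¹' D) (hD.preimage hφ)
    (open_bumps X K φ hφ ho hs D h fun x _ => hf x) h2⟩

private theorem QGA_sysp {X K : Type u} [TopologicalSpace X] [TopologicalSpace K]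
    [CompactSpace X] [T2Space K] {φ : X → K} (hφ : Continuous φ) (ho : IsOpenMap φ)
    {D : Set K} {ι : Type u} {Y F : ι → Set K} (hS : SysP K D ι Y F) :
    SysP X (φ ⁻¹' D) ι (fun j => φ ⁻¹' Y j) (fun j => φ ⁻¹' F j) where
  closedY j := (hS.closedY j).preimage hφ
  closedF j := (hS.closedF j).preimage hφ
  fin := by
    intro A U hA hU hAU hAD
    refine (hS.fin (φ '' A) (φ '' U) ((hA.isCompact.image hφ).isClosed)
      (ho U hU) (image_mono hAU) ?_).subset ?_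
    · rintro _ ⟨z, hz, rfl⟩ hzD
      exact hAD z hz hzD
    · rintro j ⟨⟨z, hzA, hz⟩, hj⟩
      refine ⟨⟨φ z, ⟨z, hzA, rfl⟩, hz⟩, ?_⟩
      rintro _ hy ⟨w, hw, rfl⟩
      exact hj w hy hw
  top := by
    intro M hM hne hMD
    obtain ⟨j, ⟨x, ⟨z, hzM, hz⟩, hx⟩, hj⟩ := hS.top (φ '' M)
      ((hM.isCompact.image hφ).isClosed) (hne.image _) (by
        rintro _ ⟨z, hz, rfl⟩ hzD
        exact hMD z hz hzD)
    refine ⟨j, ⟨z, hzM, ?_⟩, ?_⟩
    · show φ z ∈ Y j
      rw [hz]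
      exact hx
    · intro w hw hwM
      exact hj (φ w) hw ⟨w, hwM, rfl⟩

theorem qg_sysp (K : Type u) [TopologicalSpace K] [CompactSpace K] [T2Space K] (D : Set K)
    (hD : IsClosed D) (ι : Type u) (Y F : ι → Set K) (hS : SysP K D ι Y F) (h0 : Qg D)
    (hY : ∀ j, Qg (Y j)) (hF : ∀ j, Qg (F j)) : Qg K := by
  refine ⟨inferInstance, inferInstance, ?_⟩
  intro X _ _ _ φ hφ ho hs hf
  have h1 : IsGood (φ ⁻¹' D : Set X) := qg_restr hφ ho hs D hD h0 fun x _ => hf x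
  obtain ⟨_, _, h2⟩ := h1
  refine ⟨inferInstance, inferInstance, hasBumps_of_rel X (φ ⁻¹' D) (hD.preimage hφ) ?_ h2⟩
  have h3 : ∀ j, IsGood (φ ⁻¹' Y j : Set X) := fun j =>
    qg_restr hφ ho hs (Y j) (hS.closedY j) (hY j) fun x _ => hf x
  have h4 : ∀ j, IsGood (φ ⁻¹' F j : Set X) := fun j =>
    qg_restr hφ ho hs (F j) (hS.closedF j) (hF j) fun x _ => hf x
  exact perm_sysp X (φ ⁻¹' D) (hD.preimage hφ) ι _ _ (QGA_sysp hφ ho hS)
    (fun j => (h3 j).rel _ _) fun j => (h4 j).rel _ _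

end Pool.Agent.CKT
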