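import Pool.Agent.CKT.Defs5
import Pool.Agent.CKT.Qga

/-!
Row TS5 of the board CKT (MP_0211b8_an): finite spaces are bases of open maps.
-/

set_option autoImplicit false

open Set Filter Topology

namespace Pool.Agent.CKT

universe u v

theorem qg_finite (K : Type u) [TopologicalSpace K] [Finite K] [T2Space K] : Qg K := by
  rcases isEmpty_or_nonempty K with hK | hK
  · exact qg_point K
  · obtain ⟨e, he⟩ := exists_surjective_nat K
    refine qg_union K (fun n => {e n}) (fun n => isClosed_singleton) ?_ (fun n => qg_point _)
    refine eq_univ_of_forall fun x => ?_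
    obtain ⟨n, hn⟩ := he x
    exact mem_iUnion.2 ⟨n, hn.symm⟩

end Pool.Agent.CKT
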