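import Pool.Agent.CKT.Defs4
import Pool.Agent.CKT.Sem
import Pool.Agent.CKB.Ord

/-!
# Ranks of scattered compact spaces; finite spaces are good (MP_0211b8_an)
-/

set_option autoImplicit false

open Set Filter Topology

namespace Pool.Agent.CKT

universe u v

theorem exists_rk (K : Type u) [TopologicalSpace K]
    (hK : ∀ s : Set K, s.Nonempty → ∃ x ∈ s, ∃ U : Set K, IsOpen U ∧ U ∩ s = {x}) :
    ∃ rk : K → Ordinal.{u}, ∀ x, ∃ V ∈ 𝓝 x, ∀ y ∈ V, y ≠ x → rk y < rk x := by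
  refine ⟨fun x => CKB.rk x, fun x => ?_⟩
  obtain ⟨V, hV, hxV, h⟩ := CKB.rk_spec hK x
  exact ⟨V, hV.mem_nhds hxV, h⟩

theorem rk_max (K : Type u) [TopologicalSpace K] [CompactSpace K] [Nonempty K]
    (rk : K → Ordinal.{u}) (h : ∀ x, ∃ V ∈ 𝓝 x, ∀ y ∈ V, y ≠ x → rk y < rk x) :
    ∃ x₀, (∀ x, rk x ≤ rk x₀) ∧ {x | rk x = rk x₀}.Finite := by
  classical
  choose V hV hlt using h
  obtain ⟨t, ht⟩ := CompactSpace.elim_nhds_subcover V hV
  have hne : t.Nonempty := by
    obtain ⟨x⟩ := ‹Nonempty K›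
    have hx : x ∈ ⋃ x ∈ t, V x := by rw [ht]; exact mem_univ x
    obtain ⟨y, hy, -⟩ := mem_iUnion₂.1 hx
    exact ⟨y, hy⟩
  obtain ⟨x₀, hx₀, hmax⟩ := t.exists_max_image rk hne
  have key : ∀ x, ∃ y ∈ t, x = y ∨ rk x < rk y := by
    intro x
    have hx : x ∈ ⋃ x ∈ t, V x := by rw [ht]; exact mem_univ x
    obtain ⟨y, hy, hxy⟩ := mem_iUnion₂.1 hx
    refine ⟨y, hy, ?_⟩
    by_cases hxe : x = y
    · exact Or.inl hxe
    · exact Or.inr (hlt y x hxy hxe)
  refine ⟨x₀, ?_, ?_⟩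
  · intro x
    obtain ⟨y, hy, rfl | hlt'⟩ := key x
    · exact hmax _ hy
    · exact hlt'.le.trans (hmax y hy)
  · refine t.finite_toSet.subset ?_
    intro x hx
    obtain ⟨y, hy, rfl | hlt'⟩ := key x
    · exact hy
    · exact absurd (hlt'.trans_le (hmax y hy)) (by rw [show rk x = rk x₀ from hx]; exact lt_irrefl _)

private theorem rk1_sub (K : Type u) [TopologicalSpace K] [Subsingleton K] : IsGood K := by
  have hc : CompactSpace K := inferInstance
  exact ⟨hc, inferInstance, hasBumps_of_empty K (perm_point K ∅)⟩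

theorem good_finite (K : Type u) [TopologicalSpace K] [Finite K] [T2Space K] : IsGood K := by
  classical
  rcases isEmpty_or_nonempty K with hK | hK
  · exact rk1_sub K
  · obtain ⟨e, he⟩ := exists_surjective_nat K
    refine good_cunion K (fun n => {e n}) (fun n => isClosed_singleton) ?_ (fun n => rk1_sub _)
    refine eq_univ_of_forall fun x => ?_
    obtain ⟨n, hn⟩ := he x
    exact mem_iUnion.2 ⟨n, hn.symm⟩

end Pool.Agent.CKT
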