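import Pool.Agent.CKT.Defs5
import Pool.Agent.CKT.Qga
import Pool.Agent.CKT.Gct
import Pool.Agent.CKT.Ch8
import Pool.Agent.CKT.Rk1
import Pool.Agent.CKT.Qfi

/-!
# Chains of retractions on scattered spaces (MP_0211b8_an)
-/

set_option autoImplicit false

open Set Filter Topology

namespace Pool.Agent.CKT

universe u v

theorem chain_main (ρ : Ordinal.{u}) : ∀ (K : Type u) [TopologicalSpace K] [CompactSpace K]
    [T2Space K] (κ : Ordinal.{u}) (r : Ordinal.{u} → K → K), Chain K κ r → Incr K κ r →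
    (∀ x y, r 0 x = r 0 y) → ∀ rk : K → Ordinal.{u},
    (∀ x, ∃ V ∈ 𝓝 x, ∀ y ∈ V, y ≠ x → rk y < rk x) → (∀ x, rk x < ρ) → Qg K := by
  induction ρ using WellFoundedLT.induction with
  | ind ρ ih =>
  intro K _ _ _ κ r h hI h0 rk hrk hρ
  rcases isEmpty_or_nonempty K with hK | hK
  · exact qg_finite K
  refine ⟨inferInstance, inferInstance, ?_⟩
  intro X _ _ _ φ hφ ho hs hf
  obtain ⟨x₀, hmax, hfin⟩ := rk_max K rk hrk
  let D : Set K := {x | rk x = rk x₀} ∪ {r 0 x₀}
  have hDf : D.Finite := hfin.union (finite_singleton _)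
  have hDc : Finite D := hDf
  refine good_open_chain X K φ hφ ho hs κ r h hI D hDf.isClosed (fun x => Or.inr (h0 x x₀))
    (qg_restr hφ ho hs D hDf.isClosed (qg_finite D) fun x _ => hf x) hf ?_
  intro β hβ c hc
  have hβ' : Order.succ β ≤ κ := Order.succ_le_of_lt hβ
  obtain ⟨r', h', hI', h0'⟩ := chain_cone K κ r h hI (Order.succ β) hβ' c
  have hcl : IsClosed ({z | r (Order.succ β) z = c} : Set K) :=
    isClosed_singleton.preimage (h.cont _ hβ')
  have hcc : CompactSpace ({z | r (Order.succ β) z = c} : Set K) :=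
    isCompact_iff_compactSpace.1 hcl.isCompact
  refine qg_restr hφ ho hs _ hcl ?_ fun x _ => hf x
  refine ih (rk x₀) (hρ x₀) _ κ r' h' hI' h0' (fun z => rk z.1) ?_ ?_
  · rintro ⟨x, hx⟩
    obtain ⟨V, hV, hV'⟩ := hrk x
    refine ⟨Subtype.val ⁻¹' V, continuous_subtype_val.continuousAt hV, ?_⟩
    rintro ⟨y, hy⟩ hyV hne
    exact hV' y hyV fun h => hne (Subtype.ext h)
  · rintro ⟨x, hx⟩
    exact lt_of_le_of_ne (hmax x) fun h => hc x hx (Or.inl h)

end Pool.Agent.CKT
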