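import Pool.Agent.CKT.Defs2

/-!
# Countable transfinite chains (MP_0211b8_an)
-/

set_option autoImplicit false

open Set Filter Topology

namespace Pool.Agent.CKT

universe u v

/-- the sum of the weights of the numbers in `P` -/
private noncomputable def chnS (P : ℕ → Prop) : ℝ := by
  classical exact ∑' m : ℕ, if P m then ((1 : ℝ) / 2) ^ (m + 1) else 0

private theorem chn_geo : HasSum (fun m : ℕ => ((1 : ℝ) / 2) ^ (m + 1)) 1 := by
  have h2 := hasSum_geometric_two.mul_right ((1 : ℝ) / 2)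
  have e : (2 : ℝ) * (1 / 2) = 1 := by norm_num
  rw [e] at h2
  have e2 : (fun m : ℕ => ((1 : ℝ) / 2) ^ (m + 1)) = fun m : ℕ => ((1 : ℝ) / 2) ^ m * (1 / 2) :=
    funext fun m => pow_succ _ _
  rw [e2]
  exact h2

private theorem chn_summable (P : ℕ → Prop) [DecidablePred P] :
    Summable (fun m : ℕ => if P m then ((1 : ℝ) / 2) ^ (m + 1) else 0) := by
  refine Summable.of_nonneg_of_le (fun m => ?_) (fun m => ?_) chn_geo.summable
  · split_ifs
    · positivity
    · exact le_rfl
  · split_ifs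
    · exact le_rfl
    · positivity

private theorem chn_eq (P : ℕ → Prop) [DecidablePred P] :
    chnS P = ∑' m : ℕ, if P m then ((1 : ℝ) / 2) ^ (m + 1) else 0 := by
  unfold chnS
  refine tsum_congr fun m => ?_
  by_cases h : P m
  · rw [if_pos h, if_pos h]
  · rw [if_neg h, if_neg h]

private theorem chn_range (P : ℕ → Prop) : 0 ≤ chnS P ∧ chnS P ≤ 1 := by
  classical
  rw [chn_eq P]
  constructor
  · refine tsum_nonneg fun m => ?_
    split_ifs
    · positivity
    · exact le_rfl
  · refine le_trans (Summable.tsum_le_tsum (fun m => ?_) (chn_summable P) chn_geo.summable)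
      chn_geo.tsum_eq.le
    split_ifs
    · exact le_rfl
    · positivity

private theorem chn_step (P Q : ℕ → Prop) (n : ℕ) (hn : Q n) (hn' : ¬ P n)
    (h : ∀ m, P m → Q m) : chnS P + ((1 : ℝ) / 2) ^ (n + 1) ≤ chnS Q := by
  classical
  rw [chn_eq P, chn_eq Q]
  have h1 : HasSum (fun m : ℕ => if m = n then ((1 : ℝ) / 2) ^ (m + 1) else 0)
      (((1 : ℝ) / 2) ^ (n + 1)) := by
    have e2 : (fun m : ℕ => if m = n then ((1 : ℝ) / 2) ^ (m + 1) else 0) =
        fun m : ℕ => if m = n then ((1 : ℝ) / 2) ^ (n + 1) else 0 := by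
      funext m
      by_cases hm : m = n
      · rw [hm]
      · rw [if_neg hm, if_neg hm]
    rw [e2]
    exact hasSum_ite_eq n _
  rw [← h1.tsum_eq, ← (chn_summable P).tsum_add h1.summable]
  refine Summable.tsum_le_tsum (fun m => ?_) ((chn_summable P).add h1.summable) (chn_summable Q)
  by_cases hm : m = n
  · subst hm
    rw [if_neg hn', if_pos rfl, if_pos hn, zero_add]
  · rw [if_neg hm, add_zero]
    by_cases hP : P m
    · rw [if_pos hP, if_pos (h m hP)]
    · rw [if_neg hP]
      split_ifs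
      · positivity
      · exact le_rfl

/-! ROW CHN (Chn.lean): countable transfinite chains -/
theorem R_chain (K : Type u) [t : TopologicalSpace K] [CompactSpace K] [T2Space K]
    (ξ : Ordinal.{u}) (hξ : (Set.Iio ξ).Countable) (E : Ordinal.{u} → Set K) (h0 : E 0 = univ)
    (hE : ∀ a, IsClosed (E a)) (ha : Antitone E)
    (hs : ∀ a < ξ, R (E a) inferInstance (Subtype.val ⁻¹' (E (Order.succ a))))
    (hl : ∀ a ≤ ξ, Order.IsSuccLimit a → E a = ⋂ b < a, E b) : R K t (E ξ) := by
  classical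
  have hlev : ∀ x, x ∉ E ξ → ∃ a, a < ξ ∧ x ∈ E a ∧ x ∉ E (Order.succ a) := by
    intro x hx
    have hne : {a : Ordinal.{u} | x ∉ E a}.Nonempty := ⟨ξ, hx⟩
    obtain ⟨m, hm, hmin⟩ : ∃ m : Ordinal.{u}, x ∉ E m ∧ ∀ b < m, x ∈ E b := by
      refine ⟨WellFounded.min (wellFounded_lt) _ hne, WellFounded.min_mem _ _ hne, ?_⟩
      intro b hb
      by_contra h
      exact WellFounded.not_lt_min wellFounded_lt {a : Ordinal.{u} | x ∉ E a} h hb
    have hmξ : m ≤ ξ := by
      by_contra h
      exact hx (hmin ξ (not_le.1 h))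
    rcases Ordinal.zero_or_succ_or_isSuccLimit m with h | ⟨a, h⟩ | h
    · exact absurd (by rw [h, h0]; exact mem_univ x) hm
    · have h' : m = Order.succ a := by simpa using h.symm
      have hlt : a < m := by rw [h']; exact Order.lt_succ a
      exact ⟨a, lt_of_lt_of_le hlt hmξ, hmin a hlt, by rw [← h']; exact hm⟩
    · exact absurd (by rw [hl m hmξ h]; exact mem_iInter₂.2 hmin) hm
  choose! lv hlt hmem hnot using hlev
  have hbetw : ∀ x, x ∉ E ξ → ∀ a, x ∈ E a → x ∉ E (Order.succ a) → a = lv x := by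
    intro x hx a h1 h2
    rcases lt_trichotomy a (lv x) with h | h | h
    · exact absurd (ha (Order.succ_le_of_lt h) (hmem x hx)) h2
    · exact h
    · exact absurd (ha (Order.succ_le_of_lt h) h1) (hnot x hx)
  obtain ⟨f, hf⟩ := countable_iff_exists_injOn.1 hξ
  let g : ℕ → Ordinal.{u} := Function.invFunOn f (Iio ξ)
  have hg : ∀ a, a < ξ → g (f a) = a := fun a h => hf.leftInvOn_invFunOn h
  let U : ℕ → Prop := fun m => g m < ξ ∧ f (g m) = m
  have hU : ∀ a, a < ξ → U (f a) := fun a h => by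
    show g (f a) < ξ ∧ f (g (f a)) = f a
    rw [hg a h]
    exact ⟨h, rfl⟩
  let C : ULift.{u} ℕ → Set K := fun j => if U j.down then E (g j.down) else ∅
  let B : ULift.{u} ℕ → Set K := fun j => if U j.down then E (Order.succ (g j.down)) else ∅
  have hC1 : ∀ j, U j.down → C j = E (g j.down) := fun j h => if_pos h
  have hC2 : ∀ j, ¬ U j.down → C j = ∅ := fun j h => if_neg h
  have hB1 : ∀ j, U j.down → B j = E (Order.succ (g j.down)) := fun j h => if_pos h
  have hB2 : ∀ j, ¬ U j.down → B j = ∅ := fun j h => if_neg h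
  let h : ULift.{u} ℕ → ℝ := fun j => chnS (fun m => U m ∧ g j.down < g m)
  let e : ULift.{u} ℕ → ℝ := fun j => ((1 : ℝ) / 2) ^ (j.down + 1)
  have hstep : ∀ j : ULift.{u} ℕ, ∀ b, b < ξ → g j.down < b →
      h ⟨f b⟩ + e ⟨f b⟩ ≤ h j := by
    intro j b hb hjb
    refine chn_step _ _ (f b) ⟨hU b hb, ?_⟩ ?_ ?_
    · rw [hg b hb]
      exact hjb
    · rintro ⟨_, h1⟩
      exact lt_irrefl _ h1
    · rintro m ⟨h1, h2⟩
      refine ⟨h1, hjb.trans ?_⟩
      have h3 : g (f b) < g m := h2
      rwa [hg b hb] at h3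
  have key : ∀ S S' T T' : Set K, S = S' → T = T' →
      R S' inferInstance (Subtype.val ⁻¹' T') → R S inferInstance (Subtype.val ⁻¹' T) := by
    rintro S S' T T' rfl rfl h
    exact h
  refine R.gen K t inferInstance inferInstance (E ξ) (hE ξ) (ULift.{u} ℕ) C B
    (fun x => ⟨f (lv x)⟩) h e ⟨?_, ?_, ?_, ?_, ?_, ?_, ?_, ?_, ?_⟩ ?_
  · intro j
    by_cases hj : U j.down
    · rw [hC1 j hj]
      exact hE _
    · rw [hC2 j hj]
      exact isClosed_empty
  · intro j
    by_cases hj : U j.down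
    · rw [hB1 j hj]
      exact hE _
    · rw [hB2 j hj]
      exact isClosed_empty
  · intro j x hx hxD
    by_cases hj : U j.down
    · rw [hB1 j hj]
      exact ha (Order.succ_le_of_lt hj.1) hxD
    · rw [hC2 j hj] at hx
      exact hx.elim
  · intro x hx
    have h1 := hU (lv x) (hlt x hx)
    have h2 : g (f (lv x)) = lv x := hg _ (hlt x hx)
    constructor
    · rw [hC1 ⟨f (lv x)⟩ h1]
      show x ∈ E (g (f (lv x)))
      rw [h2]
      exact hmem x hx
    · rw [hB1 ⟨f (lv x)⟩ h1]
      show x ∉ E (Order.succ (g (f (lv x))))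
      rw [h2]
      exact hnot x hx
  · intro x hx j hxC hxB
    by_cases hj : U j.down
    · rw [hC1 j hj] at hxC
      rw [hB1 j hj] at hxB
      have h1 := hbetw x hx _ hxC hxB
      apply ULift.ext
      show j.down = f (lv x)
      rw [← h1]
      exact hj.2.symm
    · rw [hC2 j hj] at hxC
      exact hxC.elim
  · intro j
    exact chn_range _
  · intro j
    refine ⟨by positivity, ?_⟩
    exact pow_le_one₀ (by norm_num) (by norm_num)
  · intro y hy
    refine ⟨(E (Order.succ (lv y)))ᶜ, (hE _).isOpen_compl.mem_nhds (hnot y hy), ?_⟩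
    intro x hx hxD hne
    have h1 : lv x ≤ lv y := by
      by_contra hcon
      exact hx (ha (Order.succ_le_of_lt (not_le.1 hcon)) (hmem x hxD))
    have h2 : lv x < lv y := by
      refine lt_of_le_of_ne h1 fun he => hne ?_
      show (⟨f (lv x)⟩ : ULift.{u} ℕ) = ⟨f (lv y)⟩
      rw [he]
    refine hstep ⟨f (lv x)⟩ (lv y) (hlt y hy) ?_
    show g (f (lv x)) < lv y
    rw [hg _ (hlt x hxD)]
    exact h2
  · intro j y hyB hyD
    by_cases hj : U j.down
    · rw [hB1 j hj] at hyB
      refine hstep j (lv y) (hlt y hyD) ?_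
      by_contra hcon
      exact hnot y hyD (ha (Order.succ_le_succ (not_lt.1 hcon)) hyB)
    · rw [hB2 j hj] at hyB
      exact hyB.elim
  · intro j
    by_cases hj : U j.down
    · exact key _ _ _ _ (hC1 j hj) (hB1 j hj) (hs _ hj.1)
    · apply R.point
      constructor
      rintro ⟨a, ha'⟩
      rw [hC2 j hj] at ha'
      exact ha'.elim

end Pool.Agent.CKT
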