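import Pool.Agent.CKT.Sdc

/-!
# A countable transfinite filtration with discrete differences (MP_0211b8_an)
-/

set_option autoImplicit false

open Set Filter Topology

namespace Pool.Agent.CKT

universe u v


/-- A countable transfinite filtration with discrete differences. -/
theorem R_rank (K : Type u) [t : TopologicalSpace K] [CompactSpace K] [T2Space K]
    (ξ : Ordinal.{u}) (hξ : (Set.Iio ξ).Countable) (E : Ordinal.{u} → Set K) (h0 : E 0 = univ)
    (hE : ∀ a, IsClosed (E a)) (ha : Antitone E)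
    (hs : ∀ a < ξ, ∀ x ∈ E a, x ∉ E (Order.succ a) → ∃ V : Set K, IsOpen V ∧ V ∩ E a = {x})
    (hl : ∀ a ≤ ξ, Order.IsSuccLimit a → E a = ⋂ b < a, E b) : R K t (E ξ) := by
  classical
  have hlev : ∀ x, x ∉ E ξ → ∃ a, a < ξ ∧ x ∈ E a ∧ x ∉ E (Order.succ a) := by
    intro x hx
    have hne : {a : Ordinal.{u} | x ∉ E a}.Nonempty := ⟨ξ, hx⟩
    obtain ⟨m, hm, hmin⟩ : ∃ m : Ordinal.{u}, x ∉ E m ∧ ∀ b < m, x ∈ E b := by
      refine ⟨WellFounded.min (wellFounded_lt) _ hne, WellFounded.min_mem _ _ hne, ?_⟩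
      intro b hb
      by_contra h
      exact WellFounded.not_lt_min wellFounded_lt {a : Ordinal.{u} | x ∉ E a} h hb
    have hmξ : m ≤ ξ := by
      by_contra h
      exact hx (hmin ξ (not_le.1 h))
    rcases Ordinal.zero_or_succ_or_isSuccLimit m with h | ⟨a, h⟩ | h
    · exact absurd (by rw [h, h0]; exact mem_univ x) hm
    · have h' : m = Order.succ a := by simpa using h.symm
      have hlt : a < m := by rw [h']; exact Order.lt_succ a
      exact ⟨a, lt_of_lt_of_le hlt hmξ, hmin a hlt, by rw [← h']; exact hm⟩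
    · exact absurd (by rw [hl m hmξ h]; exact mem_iInter₂.2 hmin) hm
  choose! lv hlt hmem hnot using hlev
  obtain ⟨f, hf⟩ := countable_iff_exists_injOn.1 hξ
  refine R_sd K (E ξ) (hE ξ) (fun x => f (lv x)) ?_
  intro x hx
  obtain ⟨V, hV, hVx⟩ := hs (lv x) (hlt x hx) x (hmem x hx) (hnot x hx)
  have hxV : x ∈ V := by
    have : x ∈ V ∩ E (lv x) := by rw [hVx]; exact mem_singleton x
    exact this.1
  refine ⟨V, hV.mem_nhds hxV, ?_⟩
  intro y hy hyD hP
  have he : lv y = lv x := hf (hlt y hyD) (hlt x hx) hP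
  have : y ∈ V ∩ E (lv x) := ⟨hy, by rw [← he]; exact hmem y hyD⟩
  rw [hVx] at this
  exact this

end Pool.Agent.CKT
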