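import Pool.Agent.CKT.Defs2

/-!
# Row EXC (MP_0211b8_an): excision
-/

set_option autoImplicit false

open Set Filter Topology

namespace Pool.Agent.CKT

universe u v

/-- Excision: only a closed set `Y` covering the complement of `D` matters. -/
theorem R_exc (K : Type u) [t : TopologicalSpace K] [CompactSpace K] [T2Space K] (D Y : Set K)
    (hD : IsClosed D) (hY : IsClosed Y) (hYD : Y ∪ D = univ)
    (h : R Y inferInstance (Subtype.val ⁻¹' D)) : R K t D := by
  refine R.gen K t inferInstance inferInstance D hD PUnit.{u + 1} (fun _ => Y) (fun _ => D)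
    (fun _ => PUnit.unit) (fun _ => 0) (fun _ => 1) ?_ (fun _ => h)
  refine ⟨fun _ => hY, fun _ => hD, fun _ _ _ hx => hx, fun x hx => ⟨?_, hx⟩,
    fun _ _ _ _ _ => rfl, fun _ => ⟨le_refl _, zero_le_one⟩, fun _ => ⟨zero_lt_one, le_refl _⟩,
    fun y _ => ⟨univ, univ_mem, fun x _ _ hne => absurd rfl hne⟩,
    fun _ y hy hyD => absurd hy hyD⟩
  have hx' : x ∈ Y ∪ D := by
    rw [hYD]
    exact mem_univ x
  exact hx'.resolve_right hx

end Pool.Agent.CKT
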