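import Pool.Agent.CKT.Defs2

/-!
# Homeomorphisms and images
-/

set_option autoImplicit false

open Set Filter Topology

namespace Pool.Agent.CKT

universe u v

private theorem hom_t2 {K : Type u} {t : TopologicalSpace K} {D : Set K} (h : R K t D) :
    T2Space K := by
  cases h <;> first | assumption | infer_instance

theorem R_homeo {K K' : Type u} [t : TopologicalSpace K] [t' : TopologicalSpace K']
    (p : K ≃ₜ K') (D : Set K') (h : R K t (p ⁻¹' D)) : R K' t' D := by
  have h2 : T2Space K := hom_t2 h
  have h2' : T2Space K' := p.t2Space
  exact R.image K K' t t' h2' p p.continuous p.surjective D h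

/-- images of a closed embedding: the pair `(i '' univ, D)` -/
theorem R_emb {K K' : Type u} [t : TopologicalSpace K] [t' : TopologicalSpace K'] [T2Space K']
    (p : K → K') (hp : Continuous p) (D : Set K') (h : R K t (p ⁻¹' D)) :
    R (range p) inferInstance (Subtype.val ⁻¹' D) := by
  refine R.image K (range p) t inferInstance inferInstance (rangeFactorization p)
    (hp.subtype_mk _) rangeFactorization_surjective (Subtype.val ⁻¹' D) ?_
  exact h

end Pool.Agent.CKT
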