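import Pool.Agent.CKT.Defs2
import Pool.Agent.CKT.Hom
import Pool.Agent.CKT.Cpt
import Pool.Agent.CKT.Exc

/-!
Row QIM: the class of pairs depends only on the complement.
-/

set_option autoImplicit false

open Set Filter Topology

namespace Pool.Agent.CKT

universe u v

open scoped Classical in
/-- the collapse of `D` -/
noncomputable def qimP {K : Type u} (D : Set K) (x : K) : OnePoint (Dᶜ : Set K) :=
  if h : x ∈ D then OnePoint.infty else ((⟨x, h⟩ : (Dᶜ : Set K)) : OnePoint (Dᶜ : Set K))

theorem qimP_mem {K : Type u} {D : Set K} {x : K} (h : x ∈ D) : qimP D x = OnePoint.infty := by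
  unfold qimP
  rw [dif_pos h]

theorem qimP_notMem {K : Type u} {D : Set K} {x : K} (h : x ∉ D) :
    qimP D x = ((⟨x, h⟩ : (Dᶜ : Set K)) : OnePoint (Dᶜ : Set K)) := by
  unfold qimP
  rw [dif_neg h]

theorem qimP_infty {K : Type u} (D : Set K) (x : K) : qimP D x = OnePoint.infty ↔ x ∈ D := by
  constructor
  · intro h
    by_contra hx
    rw [qimP_notMem hx] at h
    exact OnePoint.coe_ne_infty _ h
  · exact qimP_mem

theorem qimP_continuous {K : Type u} [TopologicalSpace K] [CompactSpace K] [T2Space K]
    {D : Set K} (hD : IsClosed D) : Continuous (qimP D) := by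
  rw [continuous_def]
  intro U hU
  rw [OnePoint.isOpen_def] at hU
  obtain ⟨h1, h2⟩ := hU
  by_cases hi : OnePoint.infty ∈ U
  · have h3 := h1 hi
    have h4 : IsClosed (Subtype.val '' ((fun x : (Dᶜ : Set K) =>
        (x : OnePoint (Dᶜ : Set K))) ⁻¹' U)ᶜ : Set K) :=
      (h3.image continuous_subtype_val).isClosed
    have h5 : qimP D ⁻¹' U = (Subtype.val '' ((fun x : (Dᶜ : Set K) =>
        (x : OnePoint (Dᶜ : Set K))) ⁻¹' U)ᶜ : Set K)ᶜ := by
      ext x
      constructor
      · rintro hx ⟨y, hy, rfl⟩
        apply hy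
        have hx' : qimP D y.1 ∈ U := hx
        rw [qimP_notMem y.2] at hx'
        exact hx'
      · intro hx
        by_cases hxD : x ∈ D
        · show qimP D x ∈ U
          rw [qimP_mem hxD]
          exact hi
        · show qimP D x ∈ U
          rw [qimP_notMem hxD]
          by_contra hn
          exact hx ⟨⟨x, hxD⟩, hn, rfl⟩
    rw [h5]
    exact h4.isOpen_compl
  · have h4 : IsOpen (Subtype.val '' ((fun x : (Dᶜ : Set K) =>
        (x : OnePoint (Dᶜ : Set K))) ⁻¹' U) : Set K) :=
      hD.isOpen_compl.isOpenMap_subtype_val _ h2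
    have h5 : qimP D ⁻¹' U = (Subtype.val '' ((fun x : (Dᶜ : Set K) =>
        (x : OnePoint (Dᶜ : Set K))) ⁻¹' U) : Set K) := by
      ext x
      constructor
      · intro hx
        have hx' : qimP D x ∈ U := hx
        by_cases hxD : x ∈ D
        · rw [qimP_mem hxD] at hx'
          exact absurd hx' hi
        · rw [qimP_notMem hxD] at hx'
          exact ⟨⟨x, hxD⟩, hx', rfl⟩
      · rintro ⟨y, hy, rfl⟩
        show qimP D y.1 ∈ U
        rw [qimP_notMem y.2]
        exact hy
    rw [h5]
    exact h4

theorem R_toOne (K : Type u) [t : TopologicalSpace K] (D : Set K) (h : R K t D) :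
    R (OnePoint (Dᶜ : Set K)) inferInstance {OnePoint.infty} := by
  haveI := h.compact
  haveI := h.t2
  have hD := h.closed
  haveI : LocallyCompactSpace (Dᶜ : Set K) := hD.isOpen_compl.locallyCompactSpace
  have hpre : qimP D ⁻¹' {OnePoint.infty} = D := by
    ext x
    exact qimP_infty D x
  by_cases hne : D.Nonempty
  · refine R.image K (OnePoint (Dᶜ : Set K)) t inferInstance inferInstance (qimP D)
      (qimP_continuous hD) ?_ {OnePoint.infty} ?_
    · intro y
      induction y using OnePoint.rec with
      | infty =>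
        obtain ⟨x, hx⟩ := hne
        exact ⟨x, qimP_mem hx⟩
      | coe y => exact ⟨y.1, qimP_notMem y.2⟩
    · rw [hpre]
      exact h
  · refine R_exc (OnePoint (Dᶜ : Set K)) {OnePoint.infty} (range (qimP D)) isClosed_singleton
      (isCompact_range (qimP_continuous hD)).isClosed ?_ ?_
    · rw [eq_univ_iff_forall]
      intro y
      induction y using OnePoint.rec with
      | infty => exact Or.inr rfl
      | coe y => exact Or.inl ⟨y.1, qimP_notMem y.2⟩
    · refine R_emb (qimP D) (qimP_continuous hD) {OnePoint.infty} ?_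
      rw [hpre]
      exact h

/-- the class depends only on the complement -/
theorem R_compl (K K' : Type u) [t : TopologicalSpace K] [t' : TopologicalSpace K']
    [CompactSpace K'] [T2Space K'] (D : Set K) (D' : Set K') (hD' : IsClosed D') (h : R K t D)
    (e : (Dᶜ : Set K) ≃ₜ (D'ᶜ : Set K')) : R K' t' D' := by
  have h1 := R_toOne K D h
  refine R.quot K' t' inferInstance inferInstance D' hD' ?_
  refine R_homeo (e.onePointCongr) {OnePoint.infty} ?_
  have h2 : (e.onePointCongr : OnePoint (Dᶜ : Set K) ≃ₜ OnePoint (D'ᶜ : Set K')) ⁻¹'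
      {OnePoint.infty} = {OnePoint.infty} := by
    ext x
    induction x using OnePoint.rec with
    | infty => exact ⟨fun _ => rfl, fun _ => rfl⟩
    | coe x =>
      constructor
      · intro hx
        exact absurd hx (OnePoint.coe_ne_infty (e x))
      · intro hx
        exact absurd hx (OnePoint.coe_ne_infty x)
  rw [h2]
  exact h1

end Pool.Agent.CKT
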