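import Pool.Agent.CKT.Defs2
import Pool.Agent.CKT.Qim

/-!
Row MON: the class of pairs `(K, D)` is monotone in `D`.
-/

set_option autoImplicit false

open Set Filter Topology

namespace Pool.Agent.CKT

universe u v

/-- the part of the one point compactification of the complement of `D` belonging to `D'` -/
def monD {K : Type u} (D D' : Set K) : Set (OnePoint (Dᶜ : Set K)) :=
  {z | ∀ x : (Dᶜ : Set K), z = (x : OnePoint (Dᶜ : Set K)) → x.1 ∈ D'}

theorem monD_infty {K : Type u} (D D' : Set K) : (OnePoint.infty : OnePoint (Dᶜ : Set K)) ∈ monD D D' :=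
  fun x hx => absurd hx.symm (OnePoint.coe_ne_infty x)

theorem monD_coe {K : Type u} (D D' : Set K) (x : (Dᶜ : Set K)) :
    (x : OnePoint (Dᶜ : Set K)) ∈ monD D D' ↔ x.1 ∈ D' := by
  constructor
  · intro h
    exact h x rfl
  · intro h y hy
    rw [← OnePoint.coe_injective hy]
    exact h

theorem monD_compl {K : Type u} (D D' : Set K) :
    (monD D D')ᶜ = (fun x : (Dᶜ : Set K) => (x : OnePoint (Dᶜ : Set K))) ''
      {x : (Dᶜ : Set K) | x.1 ∉ D'} := by
  ext z
  induction z using OnePoint.rec with
  | infty =>
    constructor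
    · intro h
      exact absurd (monD_infty D D') h
    · rintro ⟨x, _, hx⟩
      exact absurd hx (OnePoint.coe_ne_infty x)
  | coe x =>
    constructor
    · intro h
      exact ⟨x, fun hx => h ((monD_coe D D' x).2 hx), rfl⟩
    · rintro ⟨y, hy, hyx⟩ h
      have h1 := (monD_coe D D' x).1 h
      rw [← OnePoint.coe_injective hyx] at h1
      exact hy h1

theorem monD_closed {K : Type u} [TopologicalSpace K] (D D' : Set K)
    (hD' : IsClosed D') : IsClosed (monD D D') := by
  rw [← isOpen_compl_iff, monD_compl]
  exact OnePoint.isOpenEmbedding_coe.isOpenMap _ (hD'.isOpen_compl.preimage continuous_subtype_val)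

/-- the complement of `monD D D'` is the complement of `D'` -/
noncomputable def monE {K : Type u} [TopologicalSpace K] (D D' : Set K) (hDD' : D ⊆ D') :
    ((monD D D')ᶜ : Set (OnePoint (Dᶜ : Set K))) ≃ₜ (D'ᶜ : Set K) :=
  let e1 : ({x : (Dᶜ : Set K) | x.1 ∉ D'} : Set (Dᶜ : Set K)) ≃ₜ
      ((fun x : (Dᶜ : Set K) => (x : OnePoint (Dᶜ : Set K))) '' {x : (Dᶜ : Set K) | x.1 ∉ D'} :
        Set (OnePoint (Dᶜ : Set K))) :=
    OnePoint.isOpenEmbedding_coe.isEmbedding.homeomorphImage _
  let e2 : ({x : (Dᶜ : Set K) | x.1 ∉ D'} : Set (Dᶜ : Set K)) ≃ₜ (D'ᶜ : Set K) :=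
    { toFun := fun x => ⟨x.1.1, x.2⟩
      invFun := fun x => ⟨⟨x.1, fun h => x.2 (hDD' h)⟩, x.2⟩
      left_inv := fun _ => rfl
      right_inv := fun _ => rfl
      continuous_toFun := by fun_prop
      continuous_invFun := by fun_prop }
  (Homeomorph.setCongr (monD_compl D D')).trans (e1.symm.trans e2)

theorem R_mono {K : Type u} {t : TopologicalSpace K} {D : Set K} (h : R K t D) (D' : Set K)
    (hD' : IsClosed D') (hDD' : D ⊆ D') : R K t D' := by
  induction h with
  | point K t hs D => exact R.point K t hs D'
  | sysp K t hc h2 D hD ι Y F hS hY hF ih1 ih2 =>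
    refine R.sysp K t hc h2 D' hD' ι Y F ?_ ?_ ?_
    · exact ⟨hS.closedY, hS.closedF,
        fun A U hA hU hAU h => hS.fin A U hA hU hAU fun x hx h' => h x hx (hDD' h'),
        fun M hM hn h => hS.top M hM hn fun x hx h' => h x hx (hDD' h')⟩
    · intro j
      exact ih1 j (Subtype.val ⁻¹' (F j ∪ D'))
        (((hS.closedF j).union hD').preimage continuous_subtype_val)
        (preimage_mono (union_subset_union_right _ hDD'))
    · intro j
      exact ih2 j (Subtype.val ⁻¹' D') (hD'.preimage continuous_subtype_val)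
        (preimage_mono hDD')
  | gen K t hc h2 D hD ι C B i h e hG hR ih =>
    refine R.gen K t hc h2 D' hD' ι C (fun j => B j ∪ (C j ∩ D')) i h e ?_ ?_
    · exact
        { closedC := hG.closedC
          closedB := fun j => (hG.closedB j).union ((hG.closedC j).inter hD')
          meet := fun j x h1 h3 => Or.inr ⟨h1, h3⟩
          mem := fun x hx => ⟨(hG.mem x fun h' => hx (hDD' h')).1, fun h' =>
            h'.elim (hG.mem x fun h' => hx (hDD' h')).2 fun h'' => hx h''.2⟩
          uniq := fun x hx j h1 h3 => hG.uniq x (fun h' => hx (hDD' h')) j h1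
            fun h' => h3 (Or.inl h')
          hrange := hG.hrange
          erange := hG.erange
          gap := fun y hy => by
            obtain ⟨V, hV, hV'⟩ := hG.gap y fun h' => hy (hDD' h')
            exact ⟨V, hV, fun x hx hxD => hV' x hx fun h' => hxD (hDD' h')⟩
          low := fun j y hy hyD => by
            rcases hy with hy | hy
            · exact hG.low j y hy fun h' => hyD (hDD' h')
            · exact absurd hy.2 hyD }
    · intro j
      exact ih j (Subtype.val ⁻¹' (B j ∪ (C j ∩ D')))
        (((hG.closedB j).union ((hG.closedC j).inter hD')).preimage continuous_subtype_val)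
        (preimage_mono subset_union_left)
  | image K K' t t' h2 p hp hs D h ih =>
    exact R.image K K' t t' h2 p hp hs D' (ih (p ⁻¹' D') (hD'.preimage hp) (preimage_mono hDD'))
  | quot K t hc h2 D hD h ih =>
    have h1 := ih (monD D D') (monD_closed D D' hD') (by
      rintro z rfl
      exact monD_infty D D')
    exact R_compl (OnePoint (Dᶜ : Set K)) K (monD D D') D' hD' h1 (monE D D' hDD')

end Pool.Agent.CKT
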