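import Pool.Agent.CKT.Defs2
import Pool.Agent.CKT.Mon

/-!
# Countable closed unions (MP_0211b8_an)
-/

set_option autoImplicit false

open Set Filter Topology

namespace Pool.Agent.CKT

universe u v

private theorem cun_h (n m : ℕ) (h : n < m) :
    (1 - (1 / 2 : ℝ) ^ n) + (1 / 2 : ℝ) ^ (n + 1) ≤ 1 - (1 / 2 : ℝ) ^ m := by
  have h1 : (1 / 2 : ℝ) ^ m ≤ (1 / 2 : ℝ) ^ (n + 1) :=
    pow_le_pow_of_le_one (by norm_num) (by norm_num) h
  have h2 : (1 / 2 : ℝ) ^ (n + 1) = (1 / 2 : ℝ) ^ n / 2 := by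
    rw [pow_succ]
    ring
  have h3 : (0 : ℝ) ≤ (1 / 2 : ℝ) ^ n := by positivity
  linarith

theorem R_cunion (K : Type u) [t : TopologicalSpace K] [CompactSpace K] [T2Space K] (D : Set K)
    (hD : IsClosed D) (E : ℕ → Set K) (hE : ∀ n, IsClosed (E n)) (hc : ∀ x, x ∉ D → ∃ n, x ∈ E n)
    (h : ∀ n, R (E n) inferInstance (Subtype.val ⁻¹' D)) : R K t D := by
  classical
  have hex : ∀ x, ∃ n, x ∉ D → (x ∈ E n ∧ ∀ m < n, x ∉ E m) := by
    intro x
    by_cases hx : x ∈ D
    · exact ⟨0, fun h' => absurd hx h'⟩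
    · exact ⟨Nat.find (hc x hx), fun _ => ⟨Nat.find_spec (hc x hx), fun m hm =>
        Nat.find_min (hc x hx) hm⟩⟩
  choose f hf using hex
  have hBc : ∀ n, IsClosed {x | x ∈ E n ∧ (x ∈ D ∨ ∃ m < n, x ∈ E m)} := by
    intro n
    have e : {x | x ∈ E n ∧ (x ∈ D ∨ ∃ m < n, x ∈ E m)}
        = E n ∩ (D ∪ ⋃ m ∈ Finset.range n, E m) := by
      ext x
      simp only [mem_inter_iff, mem_union, mem_iUnion, Finset.mem_range, exists_prop]
      rfl
    rw [e]
    exact (hE n).inter (hD.union (isClosed_biUnion_finset fun m _ => hE m))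
  refine R.gen K t inferInstance inferInstance D hD (ULift.{u} ℕ) (fun n => E n.down)
    (fun n => {x | x ∈ E n.down ∧ (x ∈ D ∨ ∃ m < n.down, x ∈ E m)})
    (fun x => ULift.up (f x)) (fun n => 1 - (1 / 2 : ℝ) ^ n.down)
    (fun n => (1 / 2 : ℝ) ^ (n.down + 1)) ?_ ?_
  · refine ⟨fun j => hE j.down, fun j => hBc j.down, ?_, ?_, ?_, ?_, ?_, ?_, ?_⟩
    · intro j x hx hxD
      exact ⟨hx, Or.inl hxD⟩
    · intro x hx
      obtain ⟨h1, h2⟩ := hf x hx
      refine ⟨h1, ?_⟩
      rintro ⟨_, h3 | ⟨m, hm, h3⟩⟩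
      · exact hx h3
      · exact h2 m hm h3
    · intro x hx j hj hj'
      obtain ⟨h1, h2⟩ := hf x hx
      have h3 : ¬ (f x < j.down) := fun h4 => hj' ⟨hj, Or.inr ⟨f x, h4, h1⟩⟩
      have h5 : ¬ (j.down < f x) := fun h4 => h2 _ h4 hj
      have h6 : j.down = f x := by omega
      rw [← h6]
    · intro j
      have h1 : (1 / 2 : ℝ) ^ j.down ≤ 1 := pow_le_one₀ (by norm_num) (by norm_num)
      have h2 : (0 : ℝ) ≤ (1 / 2 : ℝ) ^ j.down := by positivity
      constructor
      · linarith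
      · linarith
    · intro j
      exact ⟨by positivity, pow_le_one₀ (by norm_num) (by norm_num)⟩
    · intro y hy
      have hV : IsOpen (⋃ m ∈ Finset.range (f y), E m)ᶜ :=
        (isClosed_biUnion_finset fun m _ => hE m).isOpen_compl
      refine ⟨_, hV.mem_nhds ?_, ?_⟩
      · simp only [mem_compl_iff, mem_iUnion, Finset.mem_range, exists_prop, not_exists, not_and]
        exact fun m hm => (hf y hy).2 m hm
      · intro x hxV hxD hne
        simp only [mem_compl_iff, mem_iUnion, Finset.mem_range, exists_prop, not_exists,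
          not_and] at hxV
        have h1 : ¬ (f x < f y) := fun h2 => hxV (f x) h2 (hf x hxD).1
        have h3 : f x ≠ f y := fun h2 => hne (by rw [h2])
        exact cun_h (f y) (f x) (by omega)
    · rintro j y ⟨hyj, h1 | ⟨m, hm, h1⟩⟩ hyD
      · exact absurd h1 hyD
      · have h2 : f y ≤ m := by
          by_contra h3
          exact (hf y hyD).2 m (by omega) h1
        exact cun_h (f y) j.down (by omega)
  · intro j
    refine R_mono (h j.down) _ ?_ ?_
    · exact (hBc j.down).preimage continuous_subtype_val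
    · intro x hx
      exact ⟨x.2, Or.inl hx⟩

end Pool.Agent.CKT
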