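import Mathlib

/-!
# Smooth bump functions on C(K): definitions (MP_0211b8_an)
-/

set_option autoImplicit false

open Set Filter Topology

namespace Pool.Agent.CKT

universe u v

/-- `b` depends, near `f`, only on the values at finitely many points. -/
def Loc {K : Type u} [TopologicalSpace K] [CompactSpace K] (b : C(K, ℝ) → ℝ) (f : C(K, ℝ)) :
    Prop :=
  ∃ U ∈ 𝓝 f, ∃ E : Set K, E.Finite ∧ ∀ g ∈ U, ∀ h ∈ U, (∀ z ∈ E, g z = h z) → b g = b h

/-- `C(K)` has bump functions of class `C^∞` which depend locally on finitely many coordinates,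
with prescribed inner and outer radius. -/
def HasBumps (K : Type u) [TopologicalSpace K] [CompactSpace K] : Prop :=
  ∀ r R : ℝ, 0 < r → r < R → ∃ b : C(K, ℝ) → ℝ, ContDiff ℝ (⊤ : ℕ∞) b ∧ (∀ f, Loc b f) ∧
    (∀ f, 0 ≤ b f ∧ b f ≤ 1) ∧ (∀ f, ‖f‖ ≤ r → b f = 1) ∧ ∀ f, R ≤ ‖f‖ → b f = 0

/-- A reference system: closed sets `F x` such that for `A` closed, `U` open, `A ⊆ U`, only
finitely many `x ∈ A` have `F x` disjoint from `U`, and every nonempty closed set `M` contains
an `x` with `F x` disjoint from `M`. -/
structure Sys (K : Type u) [TopologicalSpace K] (F : K → Set K) : Prop where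
  closed : ∀ x, IsClosed (F x)
  fin : ∀ A U : Set K, IsClosed A → IsOpen U → A ⊆ U → {x | x ∈ A ∧ ∀ y ∈ F x, y ∉ U}.Finite
  top : ∀ M : Set K, IsClosed M → M.Nonempty → ∃ x ∈ M, ∀ y ∈ F x, y ∉ M

/-- The smallest class of compact Hausdorff spaces which contains every space with a reference
system of members of the class, and all Hausdorff continuous images of its members. -/
inductive G : (K : Type u) → TopologicalSpace K → Prop
  | rule (K : Type u) (t : TopologicalSpace K) (hc : CompactSpace K) (h2 : T2Space K)
      (F : K → Set K) (hF : Sys K F) (hG : ∀ x, G (F x) inferInstance) : G K t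
  | image (K K' : Type u) (t : TopologicalSpace K) (t' : TopologicalSpace K')
      (h2 : T2Space K') (p : K → K') (hp : Continuous p) (hs : Function.Surjective p)
      (h : G K t) : G K' t'

/-- A space with a tree-like partial order: the order is well founded; every sequence of
distinct points of a compact set has a strictly increasing subsequence which is bounded above;
bounded strictly increasing sequences converge; compact sets have maximal elements. -/
structure TreeLike (L : Type u) [TopologicalSpace L] [PartialOrder L] : Prop where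
  wf : WellFounded (fun a b : L => a < b)
  seq : ∀ C : Set L, IsCompact C → ∀ x : ℕ → L, Function.Injective x → (∀ k, x k ∈ C) →
    ∃ φ : ℕ → ℕ, StrictMono φ ∧ StrictMono (x ∘ φ) ∧ ∃ t, ∀ k, x (φ k) ≤ t
  conv : ∀ x : ℕ → L, StrictMono x → (∃ t, ∀ k, x k ≤ t) → ∃ a, Tendsto x atTop (𝓝 a)
  max : ∀ C : Set L, IsCompact C → C.Nonempty → ∃ m ∈ C, ∀ y ∈ C, m ≤ y → y = m

/-- A tree: the elements below an element are linearly ordered, and there are no infinite
decreasing sequences; the topology is the interval topology: a set `U` is open if with every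
`t ∈ U` it contains `(s, t]` for some `s < t`, or all of `(-∞, t]`. -/
structure IsTree (T : Type u) [TopologicalSpace T] [PartialOrder T] : Prop where
  chain : ∀ t a b : T, a ≤ t → b ≤ t → a ≤ b ∨ b ≤ a
  wf : WellFounded (fun a b : T => a < b)
  top : ∀ U : Set T, IsOpen U ↔ ∀ t ∈ U, Iic t ⊆ U ∨ ∃ s, s < t ∧ Ioc s t ⊆ U

end Pool.Agent.CKT
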