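import Pool.Agent.CKT.Defs

/-!
# Smooth bump functions on C(K): relative notions (MP_0211b8_an)
-/

set_option autoImplicit false

open Set Filter Topology

namespace Pool.Agent.CKT

universe u v

/-- Relative bump functions: `b` is smooth and locally depends on finitely many coordinates at
the functions `f` with `|f| < p` on `D`; `b` is one on the ball of radius `p` and zero outside
the ball of radius `q`, for those `f`. -/
def RelBumps (K : Type u) [TopologicalSpace K] [CompactSpace K] (D : Set K) : Prop :=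
  ∀ p q : ℝ, 0 < p → p < q → ∃ b : C(K, ℝ) → ℝ,
    (∀ f, (∀ y ∈ D, |f y| < p) → ContDiffAt ℝ (⊤ : ℕ∞) b f ∧ Loc b f) ∧
    (∀ f, 0 ≤ b f ∧ b f ≤ 1) ∧ (∀ f, ‖f‖ ≤ p → b f = 1) ∧
    ∀ f, (∀ y ∈ D, |f y| < p) → q ≤ ‖f‖ → b f = 0

/-- A reference system outside a closed set `D`. -/
structure SysR (K : Type u) [TopologicalSpace K] (D : Set K) (F : K → Set K) : Prop where
  closed : ∀ x, x ∉ D → IsClosed (F x)
  fin : ∀ A U : Set K, IsClosed A → IsOpen U → A ⊆ U → (∀ x ∈ A, x ∉ D) →
    {x | x ∈ A ∧ ∀ y ∈ F x, y ∉ U}.Finite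
  top : ∀ M : Set K, IsClosed M → M.Nonempty → (∀ x ∈ M, x ∉ D) → ∃ x ∈ M, ∀ y ∈ F x, y ∉ M

/-- A decomposition of the complement of `D` into sets `C j` minus `B j` with heights `h j`: near
a point `y` of the piece `i y` all points in other pieces are higher by `e (i y)`, and the points
of `B j` are in lower pieces. -/
structure Gen (K : Type u) [TopologicalSpace K] (D : Set K) (ι : Type u) (C B : ι → Set K)
    (i : K → ι) (h e : ι → ℝ) : Prop where
  closedC : ∀ j, IsClosed (C j)
  closedB : ∀ j, IsClosed (B j)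
  meet : ∀ j x, x ∈ C j → x ∈ D → x ∈ B j
  mem : ∀ x, x ∉ D → x ∈ C (i x) ∧ x ∉ B (i x)
  uniq : ∀ x, x ∉ D → ∀ j, x ∈ C j → x ∉ B j → j = i x
  hrange : ∀ j, 0 ≤ h j ∧ h j ≤ 1
  erange : ∀ j, 0 < e j ∧ e j ≤ 1
  gap : ∀ y, y ∉ D → ∃ V ∈ 𝓝 y, ∀ x ∈ V, x ∉ D → i x ≠ i y → h (i y) + e (i y) ≤ h (i x)
  low : ∀ j, ∀ y ∈ B j, y ∉ D → h (i y) + e (i y) ≤ h j

/-- A reference system of pieces outside a closed set `D`: closed sets `Y j` and `F j` such that
for `A` closed, `U` open, `A ⊆ U`, `A` disjoint from `D`, only finitely many of the `Y j` which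
meet `A` have `F j` disjoint from `U`, and every nonempty closed set `M` disjoint from `D` meets
some `Y j` with `F j` disjoint from `M`. -/
structure SysP (K : Type u) [TopologicalSpace K] (D : Set K) (ι : Type u) (Y F : ι → Set K) :
    Prop where
  closedY : ∀ j, IsClosed (Y j)
  closedF : ∀ j, IsClosed (F j)
  fin : ∀ A U : Set K, IsClosed A → IsOpen U → A ⊆ U → (∀ x ∈ A, x ∉ D) →
    {j | (∃ x ∈ A, x ∈ Y j) ∧ ∀ y ∈ F j, y ∉ U}.Finite
  top : ∀ M : Set K, IsClosed M → M.Nonempty → (∀ x ∈ M, x ∉ D) →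
    ∃ j, (∃ x ∈ M, x ∈ Y j) ∧ ∀ y ∈ F j, y ∉ M

/-- The smallest class of pairs `(K, D)` which contains all `K` with at most one point and is
closed under the four rules. -/
inductive R : (K : Type u) → TopologicalSpace K → Set K → Prop
  | point (K : Type u) (t : TopologicalSpace K) (hs : Subsingleton K) (D : Set K) : R K t D
  | sysp (K : Type u) (t : TopologicalSpace K) (hc : CompactSpace K) (h2 : T2Space K) (D : Set K)
      (hD : IsClosed D) (ι : Type u) (Y F : ι → Set K) (hS : SysP K D ι Y F)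
      (hY : ∀ j, R (Y j) inferInstance (Subtype.val ⁻¹' (F j ∪ D)))
      (hF : ∀ j, R (F j) inferInstance (Subtype.val ⁻¹' D)) : R K t D
  | gen (K : Type u) (t : TopologicalSpace K) (hc : CompactSpace K) (h2 : T2Space K) (D : Set K)
      (hD : IsClosed D) (ι : Type u) (C B : ι → Set K) (i : K → ι) (h e : ι → ℝ)
      (hG : Gen K D ι C B i h e)
      (hR : ∀ j, R (C j) inferInstance (Subtype.val ⁻¹' (B j))) : R K t D
  | image (K K' : Type u) (t : TopologicalSpace K) (t' : TopologicalSpace K')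
      (h2 : T2Space K') (p : K → K') (hp : Continuous p) (hs : Function.Surjective p)
      (D : Set K') (h : R K t (p ⁻¹' D)) : R K' t' D
  | quot (K : Type u) (t : TopologicalSpace K) (hc : CompactSpace K) (h2 : T2Space K) (D : Set K)
      (hD : IsClosed D) (h : R (OnePoint (Dᶜ : Set K)) inferInstance {OnePoint.infty}) : R K t D

/-- The rule with points as pieces. -/
theorem R.sys (K : Type u) (t : TopologicalSpace K) (hc : CompactSpace K) (h2 : T2Space K)
    (D : Set K) (hD : IsClosed D) (F : K → Set K) (hF : SysR K D F)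
    (hR : ∀ x, x ∉ D → R (F x) inferInstance (Subtype.val ⁻¹' D)) : R K t D := by
  classical
  let Y : K → Set K := fun x => if x ∈ D then ∅ else {x}
  let G : K → Set K := fun x => if x ∈ D then ∅ else F x
  have hY1 : ∀ x, x ∈ D → Y x = ∅ := fun x hx => if_pos hx
  have hY2 : ∀ x, x ∉ D → Y x = {x} := fun x hx => if_neg hx
  have hG1 : ∀ x, x ∈ D → G x = ∅ := fun x hx => if_pos hx
  have hG2 : ∀ x, x ∉ D → G x = F x := fun x hx => if_neg hx
  have hmem : ∀ x z, z ∈ Y x → x ∉ D ∧ z = x := by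
    intro x z hz
    by_cases hx : x ∈ D
    · rw [hY1 x hx] at hz
      exact hz.elim
    · rw [hY2 x hx] at hz
      exact ⟨hx, hz⟩
  have key : ∀ S S' : Set K, S = S' → R S' inferInstance (Subtype.val ⁻¹' D) →
      R S inferInstance (Subtype.val ⁻¹' D) := by
    rintro S S' rfl h
    exact h
  refine R.sysp K t hc h2 D hD K Y G ⟨?_, ?_, ?_, ?_⟩ ?_ ?_
  · intro x
    by_cases hx : x ∈ D
    · rw [hY1 x hx]
      exact isClosed_empty
    · rw [hY2 x hx]
      exact isClosed_singleton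
  · intro x
    by_cases hx : x ∈ D
    · rw [hG1 x hx]
      exact isClosed_empty
    · rw [hG2 x hx]
      exact hF.closed x hx
  · intro A U hA hU hAU hAD
    refine (hF.fin A U hA hU hAU hAD).subset ?_
    rintro x ⟨⟨z, hzA, hz⟩, hx⟩
    obtain ⟨hxD, rfl⟩ := hmem x z hz
    rw [hG2 z hxD] at hx
    exact ⟨hzA, hx⟩
  · intro M hM hne hMD
    obtain ⟨x, hxM, hx⟩ := hF.top M hM hne hMD
    have hxD := hMD x hxM
    refine ⟨x, ⟨x, hxM, ?_⟩, ?_⟩
    · rw [hY2 x hxD]
      rfl
    · rw [hG2 x hxD]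
      exact hx
  · intro x
    apply R.point
    constructor
    rintro ⟨a, ha⟩ ⟨b, hb⟩
    apply Subtype.ext
    exact (hmem x a ha).2.trans (hmem x b hb).2.symm
  · intro x
    by_cases hx : x ∈ D
    · apply R.point
      constructor
      rintro ⟨a, ha⟩
      rw [hG1 x hx] at ha
      exact ha.elim
    · exact key _ _ (hG2 x hx) (hR x hx)

end Pool.Agent.CKT
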