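import Pool.Agent.CKT.Defs2
import Pool.Agent.CKT.Defs3

/-!
# Pairs of points, and chains of retractions (MP_0211b8_an)
-/

set_option autoImplicit false

open Set Filter Topology

namespace Pool.Agent.CKT

universe u v

/-- A system of closed sets `Y j`, pairs `(a j, b j)` and colours `P j`: the pairs of one colour
converge to the diagonal, and if `|f| < q` on `D` but not everywhere, there is an index `j` such
that `|f|` takes a value at least `q` on `Y j`, and `f` separates `a j` and `b j`. -/
structure Tal (K : Type u) [TopologicalSpace K] (D : Set K) (ι : Type u) (Y : ι → Set K)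
    (a b : ι → K) (P : ι → ℕ) : Prop where
  closedY : ∀ j, IsClosed (Y j)
  fin : ∀ (m : ℕ) (U : Set (K × K)), IsOpen U → (∀ x, (x, x) ∈ U) →
    {j | P j = m ∧ (a j, b j) ∉ U}.Finite
  top : ∀ (f : C(K, ℝ)) (q : ℝ), 0 < q → (∀ x ∈ D, |f x| < q) → (∃ x, q ≤ |f x|) →
    ∃ j, (∃ x ∈ Y j, q ≤ |f x|) ∧ f (a j) ≠ f (b j)

/-- A continuous chain of retractions `r α`, for `α ≤ κ`; the last one is the identity. -/
structure Chain (K : Type u) [TopologicalSpace K] (κ : Ordinal.{u})
    (r : Ordinal.{u} → K → K) : Prop where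
  cont : ∀ α, α ≤ κ → Continuous (r α)
  last : ∀ x, r κ x = x
  low : ∀ α β, α ≤ β → β ≤ κ → ∀ x, r α (r β x) = r α x
  up : ∀ α β, α ≤ β → β ≤ κ → ∀ x, r β (r α x) = r α x
  lim : ∀ l, l ≤ κ → Order.IsSuccLimit l → ∀ x, ∀ U ∈ 𝓝 (r l x), ∃ α < l, ∀ β, α ≤ β → β < l →
    r β x ∈ U

/-- The points which are fixed by `r (α + 1)` and not by `r α` have colours such that every point
`x` of them has, for every colour `m`, a neighbourhood with finitely many of them of colour `m`
(for instance, if there are only countably many of them). -/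
def Incr (K : Type u) [TopologicalSpace K] (κ : Ordinal.{u}) (r : Ordinal.{u} → K → K) : Prop :=
  ∀ α < κ, ∃ P : K → ℕ, ∀ (m : ℕ) (x : K), r (Order.succ α) x = x → r α x ≠ x →
    ∃ V ∈ 𝓝 x, {y | y ∈ V ∧ r (Order.succ α) y = y ∧ r α y ≠ y ∧ P y = m}.Finite

end Pool.Agent.CKT
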