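import Pool.Agent.CKT.Defs4

/-!
# Systems of pairs of closed sets (MP_0211b8_an)
-/

set_option autoImplicit false

open Set Filter Topology

namespace Pool.Agent.CKT

universe u v

/-- A system of closed sets `Y j`, pairs `(A j, B j)` of closed sets and colours `P j`: for every
function `f`, every colour and `s < t` there are finitely many `j` of this colour such that `|f|`
takes a value at least `t` on `A j` and is at most `s` on `B j`; if `|f| < q` on `D` but not
everywhere, there is an index `j` such that `|f|` takes a value at least `q` on `Y j`, and a value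
on `A j` which is larger than all values on `B j`. -/
structure TalS (K : Type u) [TopologicalSpace K] (D : Set K) (ι : Type u) (Y A B : ι → Set K)
    (P : ι → ℕ) : Prop where
  closedY : ∀ j, IsClosed (Y j)
  closedA : ∀ j, IsClosed (A j)
  closedB : ∀ j, IsClosed (B j)
  fin : ∀ (f : C(K, ℝ)) (m : ℕ) (s t : ℝ), s < t →
    {j | P j = m ∧ (∃ x ∈ A j, t ≤ |f x|) ∧ ∀ y ∈ B j, |f y| ≤ s}.Finite
  top : ∀ (f : C(K, ℝ)) (q : ℝ), 0 < q → (∀ x ∈ D, |f x| < q) → (∃ x, q ≤ |f x|) →
    ∃ j, (∃ x ∈ Y j, q ≤ |f x|) ∧ ∃ x ∈ A j, ∀ y ∈ B j, |f y| < |f x|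

end Pool.Agent.CKT
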