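import Pool.Agent.CKT.Defs3

/-!
# Retractional skeletons (MP_0211b8_an)
-/

set_option autoImplicit false

open Set Filter Topology

namespace Pool.Agent.CKT

universe u v

/-- A retractional skeleton (without the metrizability of the images): retractions `r s` indexed
by a directed set, with `r s` and `r t` commuting to `r s` for `s ≤ t`; every increasing sequence
of indices has an upper bound `t` such that `r t` is the pointwise limit of the sequence of
retractions; the identity is the pointwise limit of all `r s`. -/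
structure Skel (K : Type u) [TopologicalSpace K] (S : Type u) [Preorder S] (r : S → K → K) :
    Prop where
  ne : Nonempty S
  dir : ∀ s t : S, ∃ w, s ≤ w ∧ t ≤ w
  cont : ∀ s, Continuous (r s)
  low : ∀ s t, s ≤ t → ∀ x, r s (r t x) = r s x
  up : ∀ s t, s ≤ t → ∀ x, r t (r s x) = r s x
  seq : ∀ s : ℕ → S, Monotone s → ∃ t, (∀ n, s n ≤ t) ∧
    ∀ x, Tendsto (fun n => r (s n) x) atTop (𝓝 (r t x))
  lim : ∀ x, ∀ U ∈ 𝓝 x, ∃ s, ∀ t, s ≤ t → r t x ∈ U

/-- `R` is continuous and the pointwise limit of the `r s`, for `s` in the set `A`. -/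
def IsLimR {K : Type u} [TopologicalSpace K] {S : Type u} [Preorder S] (r : S → K → K)
    (A : Set S) (R : K → K) : Prop :=
  Continuous R ∧ ∀ x, ∀ U ∈ 𝓝 (R x), ∃ s ∈ A, ∀ t ∈ A, s ≤ t → r t x ∈ U

/-- A continuous chain of retractions, without the condition that the last one is the identity. -/
structure ChainQ (K : Type u) [TopologicalSpace K] (κ : Ordinal.{u})
    (R : Ordinal.{u} → K → K) : Prop where
  cont : ∀ α, α ≤ κ → Continuous (R α)
  low : ∀ α β, α ≤ β → β ≤ κ → ∀ x, R α (R β x) = R α x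
  up : ∀ α β, α ≤ β → β ≤ κ → ∀ x, R β (R α x) = R α x
  lim : ∀ l, l ≤ κ → Order.IsSuccLimit l → ∀ x, ∀ U ∈ 𝓝 (R l x), ∃ α < l, ∀ β, α ≤ β → β < l →
    R β x ∈ U

/-- A system of functionals `T j` with cones `{x | r (s j) x = c j}` which do not contain `e`, and
colours `P j`: if `f` separates `R x` and `R e` there is `j` with `T j f ≠ 0` and `x` in the cone
of index `j`. -/
structure LSys (K : Type u) [TopologicalSpace K] [CompactSpace K] (S : Type u) [Preorder S]
    (r : S → K → K) (A : Set S) (R : K → K) (e : K) (ι : Type (u + 1))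
    (T : ι → (C(K, ℝ) →L[ℝ] ℝ)) (s : ι → S) (c : ι → K) (P : ι → ℕ) : Prop where
  mem : ∀ j, s j ∈ A
  ne : ∀ j, c j ≠ r (s j) e
  loc : ∀ j, ∃ E : Set K, E.Finite ∧ ∀ f : C(K, ℝ), (∀ x ∈ E, f x = 0) → T j f = 0
  bd : ∀ j (f : C(K, ℝ)) (M : ℝ), (∀ x, |f (R x)| ≤ M) → |T j f| ≤ P j * M
  fin : ∀ (f : C(K, ℝ)) (m : ℕ) (ε : ℝ), 0 < ε → {j | P j = m ∧ ε ≤ |T j f|}.Finite
  sep : ∀ (f : C(K, ℝ)) (x : K), f (R x) ≠ f (R e) → ∃ j, T j f ≠ 0 ∧ r (s j) x = c j

end Pool.Agent.CKT
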