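import Pool.Agent.CKT.Defs4
import Pool.Agent.CKT.Defs6

/-!
# Systems of functionals (MP_0211b8_an)
-/

set_option autoImplicit false

open Set Filter Topology

namespace Pool.Agent.CKT

universe u v

/-- A system of functionals `T j`, closed sets `C j` which do not contain `e`, and colours `P j`:
if `f x ≠ f e` there is `j` with `x ∈ C j` and `T j f ≠ 0`. -/
structure FSys (K : Type u) [TopologicalSpace K] [CompactSpace K] (e : K) (ι : Type (u + 1))
    (T : ι → (C(K, ℝ) →L[ℝ] ℝ)) (C : ι → Set K) (P : ι → ℕ) : Prop where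
  closed : ∀ j, IsClosed (C j)
  ne : ∀ j, e ∉ C j
  loc : ∀ j, ∃ E : Set K, E.Finite ∧ ∀ f : C(K, ℝ), (∀ x ∈ E, f x = 0) → T j f = 0
  bd : ∀ j (f : C(K, ℝ)), |T j f| ≤ P j * ‖f‖
  fin : ∀ (f : C(K, ℝ)) (m : ℕ) (ε : ℝ), 0 < ε → {j | P j = m ∧ ε ≤ |T j f|}.Finite
  sep : ∀ (f : C(K, ℝ)) (x : K), f x ≠ f e → ∃ j, x ∈ C j ∧ T j f ≠ 0

/-- `K` has systems of functionals at all points. -/
def HasF (K : Type u) [TopologicalSpace K] [CompactSpace K] : Prop :=
  ∀ e : K, ∃ (ι : Type (u + 1)) (T : ι → (C(K, ℝ) →L[ℝ] ℝ)) (C : ι → Set K) (P : ι → ℕ),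
    FSys K e ι T C P

/-- A system of functionals for the increment of two retractions `R` and `Q`. -/
structure ISys (K : Type u) [TopologicalSpace K] [CompactSpace K] (R Q : K → K) (e : K)
    (ι : Type (u + 1)) (T : ι → (C(K, ℝ) →L[ℝ] ℝ)) (C : ι → Set K) (P : ι → ℕ) : Prop where
  closed : ∀ j, IsClosed (C j)
  ne : ∀ j, e ∉ C j
  loc : ∀ j, ∃ E : Set K, E.Finite ∧ ∀ f : C(K, ℝ), (∀ x ∈ E, f x = 0) → T j f = 0
  bd : ∀ j (f : C(K, ℝ)) (M : ℝ), (∀ x, |f (R x) - f (Q x)| ≤ M) → |T j f| ≤ P j * M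
  fin : ∀ (f : C(K, ℝ)) (m : ℕ) (ε : ℝ), 0 < ε → {j | P j = m ∧ ε ≤ |T j f|}.Finite
  sep : ∀ (f : C(K, ℝ)) (x : K), f (R x) - f (Q x) ≠ f (R e) - f (Q e) →
    ∃ j, x ∈ C j ∧ T j f ≠ 0

/-- The points which are fixed by `R` and not by `Q` have colours such that every point `x` of
them has, for every colour `m`, a neighbourhood with finitely many of them of colour `m` (for
instance, if there are only countably many of them). -/
def Small (K : Type u) [TopologicalSpace K] (R Q : K → K) : Prop :=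
  ∃ P : K → ℕ, ∀ (m : ℕ) (x : K), R x = x → Q x ≠ x →
    ∃ V ∈ 𝓝 x, {y | y ∈ V ∧ R y = y ∧ Q y ≠ y ∧ P y = m}.Finite

end Pool.Agent.CKT
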