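import Pool.Agent.CKT.Defs7

/-!
# The class of spaces built by chains of retractions (MP_0211b8_an)
-/

set_option autoImplicit false

open Set Filter Topology

namespace Pool.Agent.CKT

universe u v

/-- The smallest class of compact Hausdorff spaces which contains the metrizable ones and is
closed under the following rules.
`union`: `K` is in the class if it is the union of countably many closed subsets `F n` which are
in the class.
`prod`: products of two members.
`retr`: continuous images `L` of members `K` under maps `p` with a continuous right inverse `s`,
in particular retracts and homeomorphic copies of `K`.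
`chain`: `K` is in the class if it has a continuous chain of retractions `r a` (`a ≤ κ`) onto
subspaces, such that the first subspace is in the class, the last one is `K`, and for every
`a < κ` either the image of `r (a + 1)` is small over the image of `r a`, or the points of the
first one which are not in the second one are covered by countably many closed subsets `M a n`
of the first one which are in the class. -/
inductive RC : (K : Type u) → TopologicalSpace K → Prop
  | metr (K : Type u) (t : TopologicalSpace K) (hc : CompactSpace K)
      (hm : TopologicalSpace.MetrizableSpace K) : RC K t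
  | union (K : Type u) (t : TopologicalSpace K) (hc : CompactSpace K) (h2 : T2Space K)
      (F : ℕ → Set K) (hF : ∀ n, IsClosed (F n)) (hU : ∀ x, ∃ n, x ∈ F n)
      (h : ∀ n, RC (F n) inferInstance) : RC K t
  | prod (K L : Type u) (t : TopologicalSpace K) (t' : TopologicalSpace L) (h : RC K t)
      (h' : RC L t') : RC (K × L) inferInstance
  | retr (K L : Type u) (t : TopologicalSpace K) (t' : TopologicalSpace L) (p : K → L)
      (s : L → K) (hp : Continuous p) (hs : Continuous s) (hps : ∀ y, p (s y) = y)
      (h : RC K t) : RC L t'
  | chain (K : Type u) (t : TopologicalSpace K) (hc : CompactSpace K) (h2 : T2Space K)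
      (κ : Ordinal.{u}) (r : Ordinal.{u} → K → K) (h : Chain K κ r) (A : Ordinal.{u} → Prop)
      (M : Ordinal.{u} → ℕ → Set K) (h0 : RC (range (r 0)) inferInstance)
      (hA : ∀ a, a < κ → A a → Small K (r (Order.succ a)) (r a))
      (hM : ∀ a, a < κ → ¬ A a → ∀ n, IsClosed (M a n))
      (hMr : ∀ a, a < κ → ¬ A a → ∀ n, ∀ x ∈ M a n, r (Order.succ a) x = x)
      (hMi : ∀ a, a < κ → ¬ A a → ∀ x, r (Order.succ a) x = x → r a x ≠ x → ∃ n, x ∈ M a n)
      (hMC : ∀ a, a < κ → ¬ A a → ∀ n, RC (M a n) inferInstance) : RC K t

end Pool.Agent.CKT
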