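import Pool.Agent.CKT.Defs

/-!
# CKT: finite spaces
-/

set_option autoImplicit false

open Set Filter Topology

namespace Pool.Agent.CKT

universe u v

theorem G_empty (K : Type u) [t : TopologicalSpace K] [IsEmpty K] : G K t := by
  have hc : CompactSpace K := inferInstance
  have h2 : T2Space K := inferInstance
  refine G.rule K t hc h2 (fun _ => ∅) ⟨fun _ => isClosed_empty, fun A U _ _ _ => ?_,
    fun M _ hM => ?_⟩ fun x => isEmptyElim x
  · exact Set.toFinite _
  · obtain ⟨x, -⟩ := hM
    exact isEmptyElim x

theorem G_fin (K : Type u) [t : TopologicalSpace K] [Finite K] [T2Space K] : G K t := by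
  have hc : CompactSpace K := inferInstance
  have h2 : T2Space K := inferInstance
  refine G.rule K t hc h2 (fun _ => ∅) ⟨fun _ => isClosed_empty, fun A U _ _ _ => ?_,
    fun M _ hM => ?_⟩ fun x => G_empty _
  · exact Set.toFinite _
  · obtain ⟨x, hx⟩ := hM
    exact ⟨x, hx, fun y hy => absurd hy (Set.notMem_empty y)⟩

theorem G_single (K : Type u) [t : TopologicalSpace K] [Subsingleton K] : G K t := by
  have : Finite K := inferInstance
  have : T2Space K := inferInstance
  exact G_fin K

end Pool.Agent.CKT
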