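import Pool.Agent.CKT.Perm

/-!
# Smooth bump functions on C(K): extensions
-/

set_option autoImplicit false

open Set Filter Topology

namespace Pool.Agent.CKT.Stack

universe u v

section ext

variable {K : Type u} [TopologicalSpace K] [CompactSpace K]

/-- extension by zero to the one point compactification -/
noncomputable def ex0 (A C : Set K) (hA : IsClosed A) (g : C(K, ℝ)) (hg : ∀ x ∈ C, g x = 0) :
    C(OnePoint ↥(A \ C), ℝ) where
  toFun := fun z => z.elim 0 (fun x => g x.1)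
  continuous_toFun := by
    rw [OnePoint.continuous_iff]
    constructor
    · show Tendsto (fun x : ↥(A \ C) => g x.1) (coclosedCompact _) (𝓝 0)
      rw [Metric.tendsto_nhds]
      intro ε hε
      have hcl : IsClosed {x : ↥(A \ C) | ε ≤ |g x.1|} :=
        isClosed_le continuous_const (g.continuous.comp continuous_subtype_val).abs
      refine hasBasis_coclosedCompact.mem_iff.2
        ⟨{x : ↥(A \ C) | ε ≤ |g x.1|}, ⟨hcl, ?_⟩, ?_⟩
      · rw [Subtype.isCompact_iff]
        have h1 : Subtype.val '' {x : ↥(A \ C) | ε ≤ |g x.1|} = A ∩ {x : K | ε ≤ |g x|} := by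
          ext x
          constructor
          · rintro ⟨y, hy, rfl⟩
            exact ⟨y.2.1, hy⟩
          · rintro ⟨hx1, hx2⟩
            have hx3 : x ∉ C := by
              intro hxC
              have h2 : ε ≤ |g x| := hx2
              rw [hg x hxC, abs_zero] at h2
              exact absurd hε (not_lt.2 h2)
            exact ⟨⟨x, hx1, hx3⟩, hx2, rfl⟩
        rw [h1]
        exact (hA.inter (isClosed_le continuous_const g.continuous.abs)).isCompact
      · intro x hx
        have h2 : ¬ ε ≤ |g x.1| := hx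
        show dist (g x.1) 0 < ε
        rw [Real.dist_eq, sub_zero]
        exact not_le.1 h2
    · exact g.continuous.comp continuous_subtype_val

theorem ex0_coe (A C : Set K) (hA : IsClosed A) (g : C(K, ℝ)) (hg : ∀ x ∈ C, g x = 0)
    (x : ↥(A \ C)) : ex0 A C hA g hg (x : OnePoint ↥(A \ C)) = g x.1 := rfl

theorem ex0_infty (A C : Set K) (hA : IsClosed A) (g : C(K, ℝ)) (hg : ∀ x ∈ C, g x = 0) :
    ex0 A C hA g hg OnePoint.infty = 0 := rfl

open Classical in
/-- the truncated function on the one point compactification of `A` minus `C` -/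
noncomputable def tr (A C : Set K) (hA : IsClosed A) (φ : C(ℝ, ℝ)) (f : C(K, ℝ)) :
    C(OnePoint ↥(A \ C), ℝ) :=
  if h : ∀ x ∈ C, φ (f x) = 0 then ex0 A C hA (φ.comp f) h else 0

theorem tr_of (A C : Set K) (hA : IsClosed A) (φ : C(ℝ, ℝ)) (f : C(K, ℝ))
    (h : ∀ x ∈ C, φ (f x) = 0) : tr A C hA φ f = ex0 A C hA (φ.comp f) h := dif_pos h

/-- the functions which are small on `C` -/
def WW (C : Set K) (s : ℝ) : Set C(K, ℝ) := {f | ∀ x ∈ C, |f x| < s}

theorem isOpen_WW {C : Set K} (hC : IsClosed C) (s : ℝ) : IsOpen (WW C s) := by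
  have h := ContinuousMap.isOpen_setOfPred_mapsTo (X := K) (Y := ℝ) hC.isCompact
    (isOpen_lt continuous_abs (continuous_const (y := s)))
  exact h

theorem tr_continuousAt {A C : Set K} (hA : IsClosed A) (hC : IsClosed C) (φ : C(ℝ, ℝ)) {s : ℝ}
    (hφ : ∀ t, |t| ≤ s → φ t = 0) {f : C(K, ℝ)} (hf : f ∈ WW C s) :
    ContinuousAt (tr A C hA φ) f := by
  have h1 : ContinuousAt (fun g : C(K, ℝ) => φ.comp g) f :=
    (ContinuousMap.continuous_postcomp φ).continuousAt
  rw [Metric.continuousAt_iff'] at h1 ⊢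
  intro ε hε
  filter_upwards [h1 (ε / 2) (half_pos hε), (isOpen_WW hC s).mem_nhds hf] with g hg hgW
  have e1 : ∀ x ∈ C, φ (f x) = 0 := fun x hx => hφ _ (hf x hx).le
  have e2 : ∀ x ∈ C, φ (g x) = 0 := fun x hx => hφ _ (hgW x hx).le
  rw [tr_of A C hA φ f e1, tr_of A C hA φ g e2]
  refine lt_of_le_of_lt ((ContinuousMap.dist_le (half_pos hε).le).2 ?_) (half_lt_self hε)
  intro z
  induction z using OnePoint.rec with
  | infty =>
    rw [ex0_infty, ex0_infty, dist_self]
    exact (half_pos hε).le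
  | coe x =>
    rw [ex0_coe, ex0_coe]
    exact (ContinuousMap.dist_apply_le_dist x.1).trans hg.le

/-- composition with a smooth function which depends locally on finitely many coordinates -/
theorem tr_nice [T2Space K] {A C : Set K} (hA : IsClosed A) (hC : IsClosed C) (φ : C(ℝ, ℝ))
    (hφs : ContDiff ℝ (⊤ : ℕ∞) φ) {s : ℝ} (hφ : ∀ t, |t| ≤ s → φ t = 0)
    (b : C(OnePoint ↥(A \ C), ℝ) → ℝ) (hb : ContDiff ℝ (⊤ : ℕ∞) b) (hl : ∀ h, Loc b h)
    {f : C(K, ℝ)} (hf : f ∈ WW C s) : Nice (fun g => b (tr A C hA φ g)) f := by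
  classical
  have hW : ∀ᶠ g in 𝓝 f, g ∈ WW C s := (isOpen_WW hC s).mem_nhds hf
  have hTc := tr_continuousAt hA hC φ hφ hf
  obtain ⟨U, hU, E, hE, hEU⟩ := hl (tr A C hA φ f)
  -- the finite set of coordinates
  set E' : Set K := {x | ∃ h : x ∈ A \ C, ((⟨x, h⟩ : ↥(A \ C)) : OnePoint ↥(A \ C)) ∈ E} with hE'
  have hE'fin : E'.Finite := by
    have h1 : (((↑) : ↥(A \ C) → OnePoint ↥(A \ C)) ⁻¹' E).Finite :=
      hE.preimage (OnePoint.coe_injective.injOn)
    refine (h1.image Subtype.val).subset ?_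
    rintro x ⟨h, hx⟩
    exact ⟨⟨x, h⟩, hx, rfl⟩
  have hval : ∀ g ∈ WW C s, ∀ z, tr A C hA φ g z = z.elim 0 (fun x => φ (g x.1)) := by
    intro g hg z
    rw [tr_of A C hA φ g (fun x hx => hφ _ (hg x hx).le)]
    rfl
  refine ⟨?_, ?_⟩
  · -- functions with prescribed values on the coordinates
    have hu : ∀ x : K, ∃ u : C(K, ℝ), (∀ y ∈ C, u y = 0) ∧
        (x ∈ E' → u x = 1 ∧ ∀ y ∈ E', y ≠ x → u y = 0) := by
      intro x
      by_cases hx : x ∈ E'
      · have hcl1 : IsClosed (C ∪ (E' \ {x})) :=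
          hC.union (hE'fin.subset sdiff_subset).isClosed
        have hdis : Disjoint (C ∪ (E' \ {x})) {x} := by
          rw [Set.disjoint_singleton_right]
          rintro (h | h)
          · obtain ⟨h2, -⟩ := hx
            exact h2.2 h
          · exact h.2 rfl
        obtain ⟨u, hu0, hu1, -⟩ := exists_continuous_zero_one_of_isClosed hcl1
          isClosed_singleton hdis
        refine ⟨u, fun y hy => hu0 (Or.inl hy), fun _ => ⟨hu1 rfl, fun y hy hyx =>
          hu0 (Or.inr ⟨hy, hyx⟩)⟩⟩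
      · exact ⟨0, fun _ _ => rfl, fun h => absurd h hx⟩
    choose u hu0 hu1 using hu
    let g0 : C(K, ℝ) → C(OnePoint ↥(A \ C), ℝ) := fun g => tr A C hA φ f +
      ∑ x ∈ hE'fin.toFinset, (φ (g x) - φ (f x)) • ex0 A C hA (u x) (hu0 x)
    have hg0 : ContDiff ℝ (⊤ : ℕ∞) g0 := by
      refine contDiff_const.add (ContDiff.sum fun x _ => ?_)
      have h1 : ContDiff ℝ (⊤ : ℕ∞) (fun g : C(K, ℝ) => φ (g x) - φ (f x)) :=
        (hφs.comp (contDiff_ev x)).sub contDiff_const
      have h2 : ContDiff ℝ (⊤ : ℕ∞) (fun _ : C(K, ℝ) => ex0 A C hA (u x) (hu0 x)) :=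
        contDiff_const
      exact h1.smul h2
    have hg0f : g0 f = tr A C hA φ f := by
      show tr A C hA φ f + _ = _
      rw [Finset.sum_eq_zero, add_zero]
      intro x _
      rw [sub_self, zero_smul]
    have hg0v : ∀ g ∈ WW C s, ∀ z ∈ E, tr A C hA φ g z = g0 g z := by
      intro g hg z hz
      show _ = (tr A C hA φ f + ∑ x ∈ hE'fin.toFinset,
        (φ (g x) - φ (f x)) • ex0 A C hA (u x) (hu0 x)) z
      rw [ContinuousMap.add_apply, ContinuousMap.sum_apply, hval g hg z, hval f hf z]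
      simp only [ContinuousMap.smul_apply, smul_eq_mul]
      induction z using OnePoint.rec with
      | infty =>
        rw [Finset.sum_eq_zero (fun x _ => by rw [ex0_infty, mul_zero]), add_zero]
        rfl
      | coe y =>
        have hy : y.1 ∈ E' := ⟨y.2, hz⟩
        rw [Finset.sum_eq_single y.1]
        · rw [ex0_coe, (hu1 y.1 hy).1]
          show φ (g y.1) = φ (f y.1) + (φ (g y.1) - φ (f y.1)) * 1
          ring
        · intro x hx hxy
          rw [ex0_coe, (hu1 x (hE'fin.mem_toFinset.1 hx)).2 y.1 hy hxy.symm, mul_zero]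
        · intro h
          exact absurd (hE'fin.mem_toFinset.2 hy) h
    have heq : (fun g => b (tr A C hA φ g)) =ᶠ[𝓝 f] fun g => b (g0 g) := by
      have h2 : ∀ᶠ g in 𝓝 f, g0 g ∈ U := by
        have h3 : Tendsto g0 (𝓝 f) (𝓝 (tr A C hA φ f)) := by
          have h4 := hg0.continuous.tendsto f
          rwa [hg0f] at h4
        exact h3 hU
      filter_upwards [hW, hTc hU, h2] with g h1 h3 h4
      exact hEU _ h3 _ h4 (hg0v g h1)
    exact ((hb.comp hg0).contDiffAt).congr_of_eventuallyEq heq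
  · refine ⟨{g | g ∈ WW C s} ∩ (tr A C hA φ) ⁻¹' U, inter_mem hW (hTc hU), E', hE'fin, ?_⟩
    intro g hg g' hg' hz
    refine hEU _ hg.2 _ hg'.2 fun z hzE => ?_
    rw [hval g hg.1 z, hval g' hg'.1 z]
    induction z using OnePoint.rec with
    | infty => rfl
    | coe y =>
      have h5 : g y.1 = g' y.1 := hz y.1 ⟨y.2, hzE⟩
      show φ (g y.1) = φ (g' y.1)
      rw [h5]

/-- the relative bump function -/
theorem relb [T2Space K] {A C : Set K} (hA : IsClosed A) (hC : IsClosed C) (hCA : C ⊆ A)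
    (hB : HasBumps (OnePoint ↥(A \ C))) {s t : ℝ} (hs : 0 < s) (hst : s < t) :
    ∃ B : C(K, ℝ) → ℝ, (∀ f ∈ WW C s, Nice B f) ∧ (∀ f, 0 ≤ B f ∧ B f ≤ 1) ∧
      (∀ f, (∀ x ∈ A, |f x| ≤ s) → B f = 1) ∧
      ∀ f ∈ WW C s, (∃ x ∈ A, t ≤ |f x|) → B f = 0 := by
  obtain ⟨b, hb, hl, hb01, hb1, hb0⟩ := hB (1 / 2) 1 (by norm_num) (by norm_num)
  have hst2 : 0 < t ^ 2 - s ^ 2 := by nlinarith
  let φ : C(ℝ, ℝ) := ⟨fun y => Real.smoothTransition ((y ^ 2 - s ^ 2) / (t ^ 2 - s ^ 2)), by
    exact Real.smoothTransition.continuous.comp (by fun_prop)⟩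
  have hφs : ContDiff ℝ (⊤ : ℕ∞) φ := by
    have h1 : ContDiff ℝ (⊤ : ℕ∞) (fun y : ℝ => (y ^ 2 - s ^ 2) / (t ^ 2 - s ^ 2)) := by
      fun_prop
    exact Real.smoothTransition.contDiff.comp h1
  have hφ0 : ∀ y, |y| ≤ s → φ y = 0 := by
    intro y hy
    refine Real.smoothTransition.zero_of_nonpos ?_
    refine div_nonpos_of_nonpos_of_nonneg ?_ hst2.le
    have h1 : y ^ 2 ≤ s ^ 2 := sq_le_sq' (by linarith [(abs_le.1 hy).1]) (abs_le.1 hy).2
    linarith
  have hφ1 : ∀ y, t ≤ |y| → φ y = 1 := by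
    intro y hy
    refine Real.smoothTransition.one_of_one_le ?_
    rw [one_le_div hst2]
    have h1 : t ^ 2 ≤ |y| ^ 2 := pow_le_pow_left₀ (hs.trans hst).le hy 2
    rw [sq_abs] at h1
    linarith
  refine ⟨fun f => b (tr A C hA φ f), fun f hf => tr_nice hA hC φ hφs hφ0 b hb hl hf,
    fun f => hb01 _, ?_, ?_⟩
  · intro f hf
    have h1 : ∀ x ∈ C, φ (f x) = 0 := fun x hx => hφ0 _ (hf x (hCA hx))
    have h2 : tr A C hA φ f = 0 := by
      rw [tr_of A C hA φ f h1]
      ext z
      induction z using OnePoint.rec with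
      | infty => rfl
      | coe x =>
        rw [ex0_coe]
        exact hφ0 _ (hf x.1 x.2.1)
    apply hb1
    rw [h2, norm_zero]
    norm_num
  · rintro f hf ⟨x, hx, hxt⟩
    have h1 : ∀ x ∈ C, φ (f x) = 0 := fun x hx => hφ0 _ (hf x hx).le
    have hxC : x ∉ C := by
      intro h
      have := hf x h
      linarith
    apply hb0
    have h2 := ContinuousMap.norm_coe_le_norm (tr A C hA φ f)
      ((⟨x, hx, hxC⟩ : ↥(A \ C)) : OnePoint ↥(A \ C))
    rw [tr_of A C hA φ f h1, ex0_coe] at h2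
    have h3 : (φ.comp f) x = 1 := hφ1 _ hxt
    rw [h3, norm_one] at h2
    rw [tr_of A C hA φ f h1]
    exact h2

end ext

section stack

variable {K : Type u} [TopologicalSpace K] [CompactSpace K]

/-- the data of a countable stack -/
structure Stk (C : ℕ → Set K) (c s t : ℕ → ℝ) (B : ℕ → C(K, ℝ) → ℝ) : Prop where
  top : C 0 = univ
  cl : ∀ n, IsClosed (C n)
  anti : ∀ n, C (n + 1) ⊆ C n
  pos : ∀ n, 0 < c n
  cs : ∀ n, c (n + 1) < s n
  ts : ∀ n, t n < c n
  nice : ∀ n, ∀ f ∈ WW (C (n + 1)) (s n), Nice (B n) f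
  rng : ∀ n f, 0 ≤ B n f ∧ B n f ≤ 1
  one : ∀ n f, (∀ x ∈ C n, |f x| ≤ s n) → B n f = 1
  zero : ∀ n, ∀ f ∈ WW (C (n + 1)) (s n), (∃ x ∈ C n, t n ≤ |f x|) → B n f = 0

variable {C : ℕ → Set K} {c s t : ℕ → ℝ} {B : ℕ → C(K, ℝ) → ℝ}

/-- the finite products -/
noncomputable def PP (B : ℕ → C(K, ℝ) → ℝ) (N : ℕ) (f : C(K, ℝ)) : ℝ :=
  ∏ n ∈ Finset.range N, B n f

theorem WW_mono (D : Set K) {a b : ℝ} (h : a ≤ b) : WW D a ⊆ WW D b :=
  fun _ hf x hx => (hf x hx).trans_le h

theorem PP_nice (h : Stk C c s t B) (N : ℕ) : ∀ f ∈ WW (C N) (c N), Nice (PP B N) f := by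
  induction N with
  | zero =>
    intro f _
    have h1 : PP B 0 = fun _ => (1 : ℝ) := by
      funext g
      exact Finset.prod_range_zero _
    rw [h1]
    exact nice_const 1 f
  | succ N ih =>
    intro f hf
    have hfW : f ∈ WW (C (N + 1)) (s N) := WW_mono _ (h.cs N).le hf
    have h1 : PP B (N + 1) = fun g => PP B N g * B N g := by
      funext g
      exact Finset.prod_range_succ _ _
    rw [h1]
    by_cases hfN : f ∈ WW (C N) (c N)
    · exact (ih f hfN).mul (h.nice N f hfW)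
    · have h2 : ∃ x ∈ C N, c N ≤ |f x| := by
        by_contra h3
        push Not at h3
        exact hfN h3
      obtain ⟨x, hx, hxc⟩ := h2
      have h3 : ∀ᶠ g : C(K, ℝ) in 𝓝 f, t N < |g x| := by
        have h4 : ContinuousAt (fun g : C(K, ℝ) => |g x|) f :=
          ((contDiff_ev x).continuous.abs).continuousAt
        exact h4.eventually (lt_mem_nhds (lt_of_lt_of_le (h.ts N) hxc))
      have h4 : ∀ᶠ g : C(K, ℝ) in 𝓝 f, g ∈ WW (C (N + 1)) (s N) :=
        (isOpen_WW (h.cl (N + 1)) (s N)).mem_nhds hfW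
      refine (nice_const 0 f).congr ?_
      filter_upwards [h3, h4] with g hg hgW
      rw [h.zero N g hgW ⟨x, hx, hg.le⟩, mul_zero]

theorem PP_rng (h : Stk C c s t B) (N : ℕ) (f : C(K, ℝ)) : 0 ≤ PP B N f ∧ PP B N f ≤ 1 :=
  ⟨Finset.prod_nonneg fun n _ => (h.rng n f).1,
    Finset.prod_le_one (fun n _ => (h.rng n f).1) fun n _ => (h.rng n f).2⟩

theorem PP_zero (h : Stk C c s t B) (N : ℕ) : ∀ f ∈ WW (C N) (c N), (∃ x, c 0 ≤ |f x|) →
    PP B N f = 0 := by
  induction N with
  | zero =>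
    rintro f hf ⟨x, hx⟩
    have h1 := hf x (by rw [h.top]; exact mem_univ x)
    exact absurd h1 (not_lt.2 hx)
  | succ N ih =>
    intro f hf hx
    have h1 : PP B (N + 1) f = PP B N f * B N f := Finset.prod_range_succ _ _
    rw [h1]
    by_cases hfN : f ∈ WW (C N) (c N)
    · rw [ih f hfN hx, zero_mul]
    · have hfW : f ∈ WW (C (N + 1)) (s N) := WW_mono _ (h.cs N).le hf
      have h2 : ∃ x ∈ C N, c N ≤ |f x| := by
        by_contra h3
        push Not at h3
        exact hfN h3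
      obtain ⟨y, hy, hyc⟩ := h2
      rw [h.zero N f hfW ⟨y, hy, (h.ts N).le.trans hyc⟩, mul_zero]

theorem C_anti (h : Stk C c s t B) : Antitone C := antitone_nat_of_succ_le h.anti

theorem PP_stable (h : Stk C c s t B) {a : ℝ} (ha : ∀ n, a ≤ s n) {N M : ℕ} (hNM : N ≤ M)
    {f : C(K, ℝ)} (hf : f ∈ WW (C N) a) : PP B M f = PP B N f := by
  induction M, hNM using Nat.le_induction with
  | base => rfl
  | succ M hM ih =>
    have h1 : PP B (M + 1) f = PP B M f * B M f := Finset.prod_range_succ _ _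
    rw [h1, ih, h.one M f (fun x hx => ((hf x (C_anti h hM hx)).le.trans (ha M))), mul_one]

end stack

/-- EXTENSIONS AND COUNTABLE STACKS. Let `K = C 0`, `C 1`, `C 2`, ... be decreasing closed
subsets. If the one-point compactifications of `C n` minus `C (n + 1)` and the intersection have
bump functions, then `K` has bump functions. -/
theorem stack (K : Type u) [TopologicalSpace K] [CompactSpace K] [T2Space K] (C : ℕ → Set K)
    (htop : C 0 = univ) (hcl : ∀ n, IsClosed (C n)) (hanti : ∀ n, C (n + 1) ⊆ C n)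
    (hq : ∀ n, HasBumps (OnePoint ↥(C n \ C (n + 1))))
    (hω : @HasBumps ↥(⋂ n, C n) _ (isCompact_iff_compactSpace.1 (isClosed_iInter hcl).isCompact)) :
    HasBumps K := by
  classical
  have : CompactSpace ↥(⋂ n, C n) :=
    isCompact_iff_compactSpace.1 (isClosed_iInter hcl).isCompact
  intro r R hr hrR
  obtain ⟨d, hd⟩ : ∃ d : ℝ, d = (R - r) / 2 := ⟨_, rfl⟩
  have hd0 : 0 < d := by rw [hd]; linarith
  have hR : R = r + 2 * d := by rw [hd]; ring
  let c : ℕ → ℝ := fun n => r + d + d / (n + 1)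
  have hc : ∀ n, c (n + 1) < c n := by
    intro n
    have h1 : (0 : ℝ) < n + 1 := by positivity
    have h2 : d / ((n + 1 : ℕ) + 1 : ℝ) < d / (n + 1 : ℝ) := by
      apply div_lt_div_of_pos_left hd0 h1
      push_cast
      linarith
    show r + d + d / ((n + 1 : ℕ) + 1 : ℝ) < r + d + d / (n + 1 : ℝ)
    linarith
  have hca : ∀ n, r + d < c n := by
    intro n
    have h1 : (0 : ℝ) < d / (n + 1 : ℝ) := by positivity
    show r + d < r + d + d / (n + 1 : ℝ)
    linarith
  have hc0 : c 0 = R := by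
    show r + d + d / ((0 : ℕ) + 1 : ℝ) = R
    rw [hR]
    push_cast
    ring
  let s : ℕ → ℝ := fun n => c (n + 1) + (c n - c (n + 1)) / 3
  let t : ℕ → ℝ := fun n => c (n + 1) + 2 * (c n - c (n + 1)) / 3
  have hcs : ∀ n, c (n + 1) < s n := fun n => by
    show c (n + 1) < c (n + 1) + (c n - c (n + 1)) / 3
    linarith [hc n]
  have hst : ∀ n, s n < t n := fun n => by
    show c (n + 1) + (c n - c (n + 1)) / 3 < c (n + 1) + 2 * (c n - c (n + 1)) / 3
    linarith [hc n]
  have htc : ∀ n, t n < c n := fun n => by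
    show c (n + 1) + 2 * (c n - c (n + 1)) / 3 < c n
    linarith [hc n]
  have hs0 : ∀ n, 0 < s n := fun n => by linarith [hcs n, hca (n + 1)]
  have hex := fun n => relb (hcl n) (hcl (n + 1)) (hanti n) (hq n) (hs0 n) (hst n)
  choose B hB1 hB2 hB3 hB4 using hex
  have S : Stk C c s t B :=
    { top := htop
      cl := hcl
      anti := hanti
      pos := fun n => by linarith [hca n]
      cs := hcs
      ts := htc
      nice := hB1
      rng := hB2
      one := hB3
      zero := hB4 }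
  have has : ∀ n, r + d ≤ s n := fun n => by linarith [hca (n + 1), hcs n]
  obtain ⟨b, hb, hbl, hb01, hb1, hb0⟩ := hω r (r + d / 2) hr (by linarith)
  let P : C(K, ℝ) → ℝ := fun f =>
    if h : ∃ N, f ∈ WW (C N) (r + d) then PP B (Nat.find h) f else 0
  have hP : ∀ N, ∀ f ∈ WW (C N) (r + d), P f = PP B N f := by
    intro N f hf
    have h : ∃ N, f ∈ WW (C N) (r + d) := ⟨N, hf⟩
    show (if h : ∃ N, f ∈ WW (C N) (r + d) then PP B (Nat.find h) f else 0) = _
    rw [dif_pos h]
    exact (PP_stable S has (Nat.find_min' h hf) (Nat.find_spec h)).symm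
  have hP01 : ∀ f, 0 ≤ P f ∧ P f ≤ 1 := by
    intro f
    show 0 ≤ (if h : ∃ N, f ∈ WW (C N) (r + d) then PP B (Nat.find h) f else 0) ∧
      (if h : ∃ N, f ∈ WW (C N) (r + d) then PP B (Nat.find h) f else 0) ≤ 1
    split_ifs with h
    · exact PP_rng S _ f
    · exact ⟨le_rfl, zero_le_one⟩
  -- compactness
  have hcomp : ∀ f : C(K, ℝ), (∀ x ∈ ⋂ n, C n, |f x| < r + d) → ∃ N, f ∈ WW (C N) (r + d) := by
    intro f hf
    by_contra hno
    push Not at hno
    have h1 : ∀ N, (C N ∩ {x | r + d ≤ |f x|}).Nonempty := by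
      intro N
      by_contra h2
      apply hno N
      intro x hx
      by_contra h3
      exact h2 ⟨x, hx, not_lt.1 h3⟩
    have hclo : ∀ N, IsClosed (C N ∩ {x | r + d ≤ |f x|}) := fun N =>
      (hcl N).inter (isClosed_le continuous_const f.continuous.abs)
    obtain ⟨x, hx⟩ := IsCompact.nonempty_iInter_of_sequence_nonempty_isCompact_isClosed
      (fun N => C N ∩ {x | r + d ≤ |f x|})
      (fun N => inter_subset_inter_left _ (hanti N)) h1 (hclo 0).isCompact hclo
    have hx1 : ∀ N, x ∈ C N ∩ {x | r + d ≤ |f x|} := mem_iInter.1 hx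
    have h2 := hf x (mem_iInter.2 fun N => (hx1 N).1)
    exact absurd h2 (not_lt.2 (hx1 0).2)
  -- the restriction to the intersection
  let ρ : C(K, ℝ) → C(↥(⋂ n, C n), ℝ) := fun f => f.restrict (⋂ n, C n)
  have hρ : ContDiff ℝ (⊤ : ℕ∞) ρ := contDiff_restrict (⋂ n, C n)
  have hρz : ∀ f : C(K, ℝ), (∃ x ∈ ⋂ n, C n, r + d / 2 ≤ |f x|) → b (ρ f) = 0 := by
    rintro f ⟨x, hx, hxr⟩
    apply hb0
    have h2 := ContinuousMap.norm_coe_le_norm (ρ f) ⟨x, hx⟩
    exact hxr.trans h2
  have hbn : ∀ f, Nice (fun g => b (ρ g)) f := by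
    intro f
    refine ⟨(hb.comp hρ).contDiffAt, ?_⟩
    obtain ⟨U, hU, E, hE, hl⟩ := hbl (ρ f)
    refine ⟨ρ ⁻¹' U, hρ.continuous.continuousAt hU, Subtype.val '' E, hE.image _, ?_⟩
    intro g hg g' hg' hz
    exact hl _ hg _ hg' fun z hzE => hz z.1 ⟨z, hzE, rfl⟩
  have hnice : ∀ f, Nice (fun g => b (ρ g) * P g) f := by
    intro f
    by_cases hf : ∀ x ∈ ⋂ n, C n, |f x| < r + d
    · obtain ⟨N, hN⟩ := hcomp f hf
      refine (hbn f).mul ?_
      refine (PP_nice S N f (WW_mono _ (hca N).le hN)).congr ?_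
      filter_upwards [(isOpen_WW (hcl N) (r + d)).mem_nhds hN] with g hg
      exact hP N g hg
    · push Not at hf
      obtain ⟨x, hx, hxr⟩ := hf
      refine (nice_const 0 f).congr ?_
      have h3 : ∀ᶠ g : C(K, ℝ) in 𝓝 f, r + d / 2 < |g x| := by
        have h4 : ContinuousAt (fun g : C(K, ℝ) => |g x|) f :=
          ((contDiff_ev x).continuous.abs).continuousAt
        exact h4.eventually (lt_mem_nhds (by linarith))
      filter_upwards [h3] with g hg
      rw [hρz g ⟨x, hx, hg.le⟩, zero_mul]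
  refine ⟨fun f => b (ρ f) * P f, ?_, fun f => (hnice f).2, ?_, ?_, ?_⟩
  · exact contDiff_iff_contDiffAt.2 fun f => (hnice f).1
  · intro f
    exact ⟨mul_nonneg (hb01 _).1 (hP01 f).1, mul_le_one₀ (hb01 _).2 (hP01 f).1 (hP01 f).2⟩
  · intro f hf
    have h1 : ∀ x, |f x| ≤ r := fun x => (ContinuousMap.norm_coe_le_norm f x).trans hf
    have h2 : f ∈ WW (C 0) (r + d) := fun x _ => by linarith [h1 x]
    have h3 : P f = 1 := by
      rw [hP 0 f h2]
      exact Finset.prod_range_zero _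
    have h4 : b (ρ f) = 1 := by
      apply hb1
      rw [ContinuousMap.norm_le _ hr.le]
      intro x
      exact h1 x.1
    show b (ρ f) * P f = 1
    rw [h3, h4, mul_one]
  · intro f hf
    show b (ρ f) * P f = 0
    by_cases hw : ∀ x ∈ ⋂ n, C n, |f x| < r + d
    · obtain ⟨N, hN⟩ := hcomp f hw
      have hx : ∃ x, c 0 ≤ |f x| := by
        by_contra hno
        push Not at hno
        rw [hc0] at hno
        have h5 : ‖f‖ < R := by
          rw [ContinuousMap.norm_lt_iff f (hr.trans hrR)]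
          exact hno
        exact absurd hf (not_le.2 h5)
      rw [hP N f hN, PP_zero S N f (WW_mono _ (hca N).le hN) hx, mul_zero]
    · push Not at hw
      obtain ⟨x, hx, hxr⟩ := hw
      rw [hρz f ⟨x, hx, by linarith⟩, zero_mul]

end Pool.Agent.CKT.Stack
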