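import Pool.Agent.CKT.Sdh
import Pool.Agent.CKT.Dis

/-!
# Row FIB: spaces which are fibred over a space with a sigma-discrete part
-/

set_option autoImplicit false

open Set Filter Topology

namespace Pool.Agent.CKT

universe u v

private theorem fib_piece (X K : Type u) [TopologicalSpace X] [CompactSpace X]
    [T2Space X] (φ : X → K) (D : Set K)
    (h : ∀ x, x ∉ D → R (φ ⁻¹' {x} : Set X) inferInstance ∅) (j : K) (S B : Set X)
    (hB : B = ∅) (hS : j ∉ D → S = φ ⁻¹' {j}) (hS' : j ∈ D → S = ∅) :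
    R S inferInstance (Subtype.val ⁻¹' B) := by
  subst hB
  by_cases hj : j ∈ D
  · have h1 := hS' hj
    subst h1
    have : CompactSpace (∅ : Set X) := isCompact_iff_compactSpace.1 isCompact_empty
    exact R_dis (∅ : Set X) _ (isClosed_empty.preimage continuous_subtype_val)
      fun x => absurd x.2 (notMem_empty _)
  · have h1 := hS hj
    subst h1
    have h2 := h j hj
    rw [preimage_empty]
    exact h2

theorem R_fib (X K : Type u) [t : TopologicalSpace X] [TopologicalSpace K] [CompactSpace X]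
    [T2Space X] [T2Space K] (φ : X → K) (hφ : Continuous φ) (D : Set K) (hD : IsClosed D)
    (P : K → ℕ) (hP : ∀ x, x ∉ D → ∃ V ∈ 𝓝 x, ∀ y ∈ V, y ∉ D → P y = P x → y = x)
    (h : ∀ x, x ∉ D → R (φ ⁻¹' {x} : Set X) inferInstance ∅) : R X t (φ ⁻¹' D) := by
  obtain ⟨hh, e, h1, h2, h3⟩ := exists_height K D hD P hP
  refine R.gen X t inferInstance inferInstance (φ ⁻¹' D) (hD.preimage hφ) K
    (fun j => {x | φ x = j ∧ j ∉ D}) (fun _ => ∅) φ hh e ?_ fun j =>
      fib_piece X K φ D h j _ _ rfl ?_ ?_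
  · refine ⟨fun j => ?_, fun j => isClosed_empty, ?_, ?_, ?_, h1, h2, ?_, ?_⟩
    · by_cases hj : j ∈ D
      · have : {x | φ x = j ∧ j ∉ D} = (∅ : Set X) := by
          ext x
          simp [hj]
        rw [this]
        exact isClosed_empty
      · have : {x | φ x = j ∧ j ∉ D} = φ ⁻¹' {j} := by
          ext x
          simp [hj]
        rw [this]
        exact isClosed_singleton.preimage hφ
    · rintro j x ⟨hx, hj⟩ hxD
      exact absurd (hx ▸ hxD : j ∈ D) hj
    · intro x hx
      exact ⟨⟨rfl, hx⟩, notMem_empty _⟩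
    · rintro x _ j ⟨hj, _⟩ _
      exact hj.symm
    · intro y hy
      obtain ⟨V, hV, hV2⟩ := h3 (φ y) hy
      exact ⟨φ ⁻¹' V, hφ.continuousAt hV, fun x hx hxD hne => hV2 (φ x) hx hxD hne⟩
    · intro j y hy
      exact absurd hy (notMem_empty _)
  · intro hj
    ext x
    simp [hj]
  · intro hj
    ext x
    simp [hj]

end Pool.Agent.CKT
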