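import Pool.Agent.CKT.Sem

/-!
# Countable filtrations with good quotients (MP_0211b8_an)
-/

set_option autoImplicit false

open Set Filter Topology

namespace Pool.Agent.CKT

universe u v

/-- weights of the rational numbers -/
private noncomputable def FLT_w (s : ℚ) : ℝ := (1 / 2) ^ (Encodable.encode s + 1)

private theorem FLT_wpos (s : ℚ) : 0 < FLT_w s := by
  unfold FLT_w
  positivity

private theorem FLT_sum : Summable FLT_w := by
  have h1 : Summable (fun n : ℕ => (1 / 2 : ℝ) ^ (n + 1)) := by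
    simpa [pow_succ] using (summable_geometric_two).mul_right (1 / 2 : ℝ)
  exact h1.comp_injective Encodable.encode_injective

private theorem FLT_tsum : ∑' s, FLT_w s ≤ 1 := by
  have h1 : Summable (fun n : ℕ => (1 / 2 : ℝ) ^ (n + 1)) := by
    simpa [pow_succ] using (summable_geometric_two).mul_right (1 / 2 : ℝ)
  have h2 : ∑' n : ℕ, (1 / 2 : ℝ) ^ (n + 1) = 1 := by
    have h3 : ∑' n : ℕ, (1 / 2 : ℝ) ^ (n + 1) = ∑' n : ℕ, (1 / 2 : ℝ) ^ n * (1 / 2) := by
      simp [pow_succ]
    rw [h3, tsum_mul_right, tsum_geometric_two]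
    norm_num
  rw [← h2]
  exact tsum_comp_le_tsum_of_inj h1 (fun n => by positivity) Encodable.encode_injective

private noncomputable def FLT_h (q : ℚ) : ℝ := ∑' s, if q < s then FLT_w s else 0

private theorem FLT_sumi (P : ℚ → Prop) [DecidablePred P] :
    Summable (fun s => if P s then FLT_w s else 0) := by
  refine Summable.of_nonneg_of_le (fun s => ?_) (fun s => ?_) FLT_sum
  · split_ifs
    · exact (FLT_wpos s).le
    · exact le_rfl
  · split_ifs
    · exact le_rfl
    · exact (FLT_wpos s).le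

private theorem FLT_hrange (q : ℚ) : 0 ≤ FLT_h q ∧ FLT_h q ≤ 1 := by
  refine ⟨tsum_nonneg fun s => ?_, le_trans ?_ FLT_tsum⟩
  · split_ifs
    · exact (FLT_wpos s).le
    · exact le_rfl
  · refine (FLT_sumi fun s => q < s).tsum_le_tsum (fun s => ?_) FLT_sum
    split_ifs
    · exact le_rfl
    · exact (FLT_wpos s).le

private theorem FLT_gap {m n : ℚ} (h : m < n) : FLT_h n + FLT_w n ≤ FLT_h m := by
  have h1 : ∑' s, (if s = n then FLT_w s else 0) = FLT_w n := by
    rw [tsum_eq_single n]
    · simp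
    · intro b hb
      simp [hb]
  rw [← h1]
  unfold FLT_h
  rw [← (FLT_sumi fun s => n < s).tsum_add (FLT_sumi fun s => s = n)]
  refine ((FLT_sumi fun s => n < s).add (FLT_sumi fun s => s = n)).tsum_le_tsum (fun s => ?_)
    (FLT_sumi fun s => m < s)
  have hw := (FLT_wpos s).le
  rcases lt_trichotomy n s with hs | hs | hs
  · simp [hs, hs.ne', h.trans hs]
  · subst hs
    simp [h]
  · simp only [not_lt.2 hs.le, hs.ne, if_false, add_zero]
    split_ifs
    · exact hw
    · exact le_rfl

theorem good_filt (K : Type u) [TopologicalSpace K] [CompactSpace K] [T2Space K] (D : Set K)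
    (hD : IsClosed D) (ρ : K → ℚ)
    (h1 : ∀ q : ℚ, IsClosed (D ∪ {x | q ≤ ρ x}) ∧ IsClosed (D ∪ {x | q < ρ x}))
    (h0 : IsGood D) (h : ∀ q : ℚ, IsGood (OnePoint ({x | x ∉ D ∧ ρ x = q} : Set K))) :
    IsGood K := by
  classical
  obtain ⟨_, _, hB⟩ := h0
  refine ⟨inferInstance, inferInstance, hasBumps_of_rel K D hD ?_ hB⟩
  let C : ULift.{u} ℚ → Set K := fun j => D ∪ {x | j.down ≤ ρ x}
  let B : ULift.{u} ℚ → Set K := fun j => D ∪ {x | j.down < ρ x}
  have hG : Gen K D (ULift.{u} ℚ) C B (fun x => ⟨ρ x⟩) (fun j => FLT_h j.down)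
      (fun j => FLT_w j.down) := by
    refine ⟨fun j => (h1 j.down).1, fun j => (h1 j.down).2, ?_, ?_, ?_, ?_, ?_, ?_, ?_⟩
    · intro j x _ hx
      exact Or.inl hx
    · intro x hx
      refine ⟨Or.inr (le_refl (ρ x)), ?_⟩
      rintro (h2 | h2)
      · exact hx h2
      · exact lt_irrefl (ρ x) h2
    · intro x hx j hj hj'
      have h2 : j.down ≤ ρ x := hj.resolve_left hx
      have h3 : ¬ j.down < ρ x := fun h3 => hj' (Or.inr h3)
      exact ULift.down_injective (le_antisymm h2 (not_lt.1 h3))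
    · exact fun j => FLT_hrange _
    · intro j
      refine ⟨FLT_wpos _, ?_⟩
      exact pow_le_one₀ (by norm_num) (by norm_num)
    · intro y hy
      refine ⟨(B ⟨ρ y⟩)ᶜ, (h1 (ρ y)).2.isOpen_compl.mem_nhds ?_, ?_⟩
      · rintro (h2 | h2)
        · exact hy h2
        · exact lt_irrefl (ρ y) h2
      · intro x hx hxD hne
        refine FLT_gap ?_
        have h2 : ¬ ρ y < ρ x := fun h2 => hx (Or.inr h2)
        exact lt_of_le_of_ne (not_lt.1 h2) fun h3 => hne (congrArg ULift.up h3)
    · intro j y hy hyD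
      exact FLT_gap (hy.resolve_left hyD)
  refine perm_gen K D (ULift.{u} ℚ) C B _ _ _ hG fun j => ?_
  have hCc : CompactSpace (C j) := isCompact_iff_compactSpace.1 (h1 j.down).1.isCompact
  have hBc : IsClosed (Subtype.val ⁻¹' (B j) : Set (C j)) :=
    (h1 j.down).2.preimage continuous_subtype_val
  refine perm_quot (C j) _ hBc ?_
  let e : ({x | x ∉ D ∧ ρ x = j.down} : Set K) ≃ₜ ((Subtype.val ⁻¹' (B j))ᶜ : Set (C j)) :=
    { toFun := fun x => ⟨⟨x.1, Or.inr x.2.2.ge⟩, by
        rintro (h2 | h2)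
        · exact x.2.1 h2
        · exact absurd x.2.2 (ne_of_gt h2)⟩
      invFun := fun x => ⟨x.1.1, fun h2 => x.2 (Or.inl h2), by
        have h2 : x.1.1 ∉ D := fun h2 => x.2 (Or.inl h2)
        have h3 : j.down ≤ ρ x.1.1 := x.1.2.resolve_left h2
        have h4 : ¬ j.down < ρ x.1.1 := fun h3 => x.2 (Or.inr h3)
        exact le_antisymm (not_lt.1 h4) h3⟩
      left_inv := fun _ => rfl
      right_inv := fun _ => rfl
      continuous_toFun := by fun_prop
      continuous_invFun := by fun_prop }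
  have hg := h j.down
  have ht : T2Space (OnePoint ({x | x ∉ D ∧ ρ x = j.down} : Set K)) := by
    obtain ⟨_, h2, _⟩ := hg
    exact h2
  have ht' : T2Space (OnePoint ((Subtype.val ⁻¹' (B j))ᶜ : Set (C j))) :=
    (e.onePointCongr).t2Space
  have h2 := good_image _ _ e.onePointCongr e.onePointCongr.continuous
    e.onePointCongr.surjective hg
  exact h2.rel inferInstance _

end Pool.Agent.CKT
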