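import Pool.Agent.CKT.Defs5

/-!
# The supremum over the fibres of an open map (MP_0211b8_an)
-/

set_option autoImplicit false

open Set Filter Topology

namespace Pool.Agent.CKT

universe u v

theorem fib_sup (X K : Type u) [TopologicalSpace X] [TopologicalSpace K] [CompactSpace X]
    [T2Space K] (φ : X → K) (hφ : Continuous φ) (ho : IsOpenMap φ)
    (hs : Function.Surjective φ) (f : C(X, ℝ)) :
    ∃ u : C(K, ℝ), (∀ k, 0 ≤ u k) ∧ (∀ x, |f x| ≤ u (φ x)) ∧
      ∀ k, ∃ x, φ x = k ∧ |f x| = u k := by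
  have hfa : Continuous fun x => |f x| := f.continuous.abs
  have hmax : ∀ k, ∃ x, φ x = k ∧ ∀ y, φ y = k → |f y| ≤ |f x| := by
    intro k
    have hc : IsCompact (φ ⁻¹' {k}) := (isClosed_singleton.preimage hφ).isCompact
    obtain ⟨x0, hx0⟩ := hs k
    obtain ⟨x, hx, hxm⟩ := hc.exists_isMaxOn ⟨x0, hx0⟩ hfa.continuousOn
    exact ⟨x, hx, fun y hy => hxm hy⟩
  choose g hg hgm using hmax
  have hcont : Continuous fun k => |f (g k)| := by
    rw [OrderTopology.continuous_iff]
    intro t
    constructor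
    · have h1 : (fun k => |f (g k)|) ⁻¹' Ioi t = φ '' {x | t < |f x|} := by
        ext k
        constructor
        · intro hk
          exact ⟨g k, hk, hg k⟩
        · rintro ⟨x, hx, rfl⟩
          exact lt_of_lt_of_le hx (hgm (φ x) x rfl)
      rw [h1]
      exact ho _ (isOpen_lt continuous_const hfa)
    · have h1 : (fun k => |f (g k)|) ⁻¹' Iio t = (φ '' {x | t ≤ |f x|})ᶜ := by
        ext k
        constructor
        · rintro hk ⟨x, hx, rfl⟩
          exact absurd (hx.trans (hgm (φ x) x rfl)) (not_le.2 hk)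
        · intro hk
          by_contra h
          have h3 : t ≤ |f (g k)| := not_lt.1 h
          exact hk ⟨g k, h3, hg k⟩
      rw [h1]
      have h2 : IsCompact {x | t ≤ |f x|} := (isClosed_le continuous_const hfa).isCompact
      exact (h2.image hφ).isClosed.isOpen_compl
  exact ⟨⟨fun k => |f (g k)|, hcont⟩, fun k => abs_nonneg _, fun x => hgm (φ x) x rfl,
    fun k => ⟨g k, hg k, rfl⟩⟩

end Pool.Agent.CKT
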