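import Pool.Agent.CKT.Defs3
import Pool.Agent.CKT.Ops
import Pool.Agent.CKT.Com
import Pool.Agent.CKT.Cpt

/-!
# Open fibrations with good fibres
-/

set_option autoImplicit false

open Set Filter Topology

namespace Pool.Agent.CKT

universe u v

/-! ROW GOP (Gop.lean; uses OPS, COM) -/
theorem good_open (X K : Type u) [t : TopologicalSpace X] [t' : TopologicalSpace K]
    [CompactSpace X] [T2Space X] (φ : X → K) (hφ : Continuous φ) (ho : IsOpenMap φ)
    (hs : Function.Surjective φ) (D : Set K) (h : R K t' D) (h0 : IsGood (φ ⁻¹' D : Set X))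
    (hf : ∀ x, x ∉ D → IsGood (φ ⁻¹' {x} : Set X)) : IsGood X := by
  have hD : IsClosed (φ ⁻¹' D) := h.closed.preimage hφ
  obtain ⟨_, _, hB⟩ := h0
  exact ⟨inferInstance, inferInstance,
    hasBumps_of_rel X (φ ⁻¹' D) hD (open_bumps X K φ hφ ho hs D h hf) hB⟩

end Pool.Agent.CKT
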