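import Pool.Agent.CKT.Defs2

/-!
# Smooth bump functions on C(K): the class `G` is contained in the class `R` (MP_0211b8_an)
-/

set_option autoImplicit false

open Set Filter Topology

namespace Pool.Agent.CKT

universe u v

theorem G.toR {K : Type u} {t : TopologicalSpace K} (h : G K t) : R K t ∅ := by
  induction h with
  | rule K t hc h2 F hF hG ih =>
    refine R.sys K t hc h2 ∅ isClosed_empty F ?_ ?_
    · constructor
      · intro x _
        exact hF.closed x
      · intro A U hA hU hAU _
        exact hF.fin A U hA hU hAU
      · intro M hM hne _
        exact hF.top M hM hne
    · intro x _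
      rw [preimage_empty]
      exact ih x
  | image K K' t t' h2 p hp hs h ih =>
    refine R.image K K' t t' h2 p hp hs ∅ ?_
    rw [preimage_empty]
    exact ih

end Pool.Agent.CKT
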