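import Pool.Agent.CKT.Defs7

/-!
# Metrizable compact spaces have systems of functionals at all points
-/

set_option autoImplicit false

open Set Filter Topology

namespace Pool.Agent.CKT

universe u v

theorem hasF_metr (K : Type u) [TopologicalSpace K] [CompactSpace K]
    [TopologicalSpace.MetrizableSpace K] : HasF K := by
  intro e
  let _ : MetricSpace K := TopologicalSpace.metrizableSpaceMetric K
  have : Nonempty K := ⟨e⟩
  have hd : DenseRange (TopologicalSpace.denseSeq K) := TopologicalSpace.denseRange_denseSeq K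
  refine ⟨ULift.{u + 1} (ℕ × ℕ),
    fun j => ContinuousMap.evalCLM ℝ (TopologicalSpace.denseSeq K j.down.1)
      - ContinuousMap.evalCLM ℝ e,
    fun j => {x | 1 / ((j.down.2 : ℝ) + 1) ≤ dist x e},
    fun j => Nat.pair j.down.1 j.down.2 + 2, ?_⟩
  refine ⟨fun j => isClosed_le continuous_const (continuous_id.dist continuous_const),
    fun j h => ?_, fun j => ⟨{TopologicalSpace.denseSeq K j.down.1, e}, by simp, fun f hf => ?_⟩,
    fun j f => ?_, fun f m ε _ => ?_, fun f x hx => ?_⟩
  · have h1 : 1 / ((j.down.2 : ℝ) + 1) ≤ dist e e := h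
    rw [dist_self] at h1
    have h2 : 0 < 1 / ((j.down.2 : ℝ) + 1) := by positivity
    linarith
  · change f (TopologicalSpace.denseSeq K j.down.1) - f e = 0
    rw [hf _ (by simp), hf e (by simp), sub_zero]
  · change |f (TopologicalSpace.denseSeq K j.down.1) - f e| ≤ _
    have h1 : |f (TopologicalSpace.denseSeq K j.down.1)| ≤ ‖f‖ := f.norm_coe_le_norm _
    have h2 : |f e| ≤ ‖f‖ := f.norm_coe_le_norm _
    have h3 := abs_sub (f (TopologicalSpace.denseSeq K j.down.1)) (f e)
    have h4 : (0 : ℝ) ≤ (Nat.pair j.down.1 j.down.2 : ℕ) * ‖f‖ := by positivity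
    push_cast
    nlinarith
  · apply Set.Subsingleton.finite
    rintro ⟨a, b⟩ ⟨h1, _⟩ ⟨a', b'⟩ ⟨h2, _⟩
    have h3 : Nat.pair a b = Nat.pair a' b' := by
      have h4 : Nat.pair a b + 2 = m := h1
      have h5 : Nat.pair a' b' + 2 = m := h2
      omega
    obtain ⟨h4, h5⟩ := Nat.pair_eq_pair.1 h3
    subst h4
    subst h5
    rfl
  · have hO : IsOpen {z : K | f z ≠ f e} :=
      isOpen_ne_fun f.continuous continuous_const
    obtain ⟨n, hn⟩ := hd.exists_mem_open hO ⟨x, hx⟩
    have hxe : 0 < dist x e := dist_pos.2 fun h => hx (by rw [h])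
    obtain ⟨i, hi⟩ := exists_nat_one_div_lt hxe
    refine ⟨⟨(n, i)⟩, hi.le, ?_⟩
    change f (TopologicalSpace.denseSeq K n) - f e ≠ 0
    exact sub_ne_zero.2 hn

end Pool.Agent.CKT
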