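import Pool.Agent.CKT.Perm

/-!
# CKT, row SN1: a smooth substitute of the norm
-/

set_option autoImplicit false

open Set Filter Topology

namespace Pool.Agent.CKT

universe u v

private theorem sn1_add {Z : Type u} [TopologicalSpace Z] [CompactSpace Z] {b c : C(Z, ℝ) → ℝ}
    {f : C(Z, ℝ)} (hb : Nice b f) (hc : Nice c f) : Nice (fun g => b g + c g) f := by
  refine ⟨hb.1.add hc.1, ?_⟩
  obtain ⟨U, hU, E, hE, h1⟩ := hb.2
  obtain ⟨V, hV, F, hF, h2⟩ := hc.2
  refine ⟨U ∩ V, Filter.inter_mem hU hV, E ∪ F, hE.union hF, fun g hg h hh hgh => ?_⟩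
  show b g + c g = b h + c h
  rw [h1 g hg.1 h hh.1 fun z hz => hgh z (Or.inl hz),
    h2 g hg.2 h hh.2 fun z hz => hgh z (Or.inr hz)]

private theorem sn1_sum {Z : Type u} [TopologicalSpace Z] [CompactSpace Z]
    (b : ℕ → C(Z, ℝ) → ℝ) (f : C(Z, ℝ)) (hb : ∀ i, Nice (b i) f) (n : ℕ) :
    Nice (fun g => ∑ i ∈ Finset.range n, b i g) f := by
  induction n with
  | zero =>
    simp only [Finset.range_zero, Finset.sum_empty]
    exact nice_const 0 f
  | succ n ih =>
    simp only [Finset.sum_range_succ]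
    exact sn1_add ih (hb n)

theorem nice_norm (Z : Type u) [TopologicalSpace Z] [CompactSpace Z] (h : HasBumps Z)
    (M η : ℝ) (hη : 0 < η) :
    ∃ N : C(Z, ℝ) → ℝ, (∀ f, Nice N f) ∧ ∀ f, ‖f‖ ≤ M → |N f - ‖f‖| ≤ η := by
  set d : ℝ := η / 2 with hd
  have hd0 : 0 < d := by positivity
  have hb : ∀ k : ℕ, ∃ b : C(Z, ℝ) → ℝ, ContDiff ℝ (⊤ : ℕ∞) b ∧ (∀ f, Loc b f) ∧
      (∀ f, 0 ≤ b f ∧ b f ≤ 1) ∧ (∀ f, ‖f‖ ≤ ((k : ℝ) + 1) * d → b f = 1) ∧
      ∀ f, ((k : ℝ) + 2) * d ≤ ‖f‖ → b f = 0 := fun k =>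
    h (((k : ℝ) + 1) * d) (((k : ℝ) + 2) * d) (by positivity)
      (mul_lt_mul_of_pos_right (by linarith) hd0)
  choose b hb1 hb2 hb3 hb4 hb5 using hb
  obtain ⟨n, hn⟩ := exists_nat_ge (M / d)
  have hnM : M ≤ n * d := (div_le_iff₀ hd0).1 hn
  refine ⟨fun g => ∑ k ∈ Finset.range n, d * (1 - b k g), fun f => ?_, fun f hf => ?_⟩
  · exact sn1_sum (fun k g => d * (1 - b k g)) f (fun k =>
      Nice.mul (nice_const d f) (Nice.one_sub ⟨(hb1 k).contDiffAt, hb2 k f⟩)) n
  · set x : ℝ := ‖f‖ with hx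
    have hx0 : 0 ≤ x := norm_nonneg f
    let m : ℕ → ℝ := fun i => min x (i * d)
    have key : ∀ k : ℕ, m (k + 3) - m (k + 2) ≤ d * (1 - b k f) ∧
        d * (1 - b k f) ≤ m (k + 1) - m k := by
      intro k
      have h01 := hb3 k f
      have e0 : m k = min x ((k : ℝ) * d) := rfl
      have e1 : m (k + 1) = min x (((k : ℝ) + 1) * d) := by
        show min x (((k + 1 : ℕ) : ℝ) * d) = _
        push_cast
        rfl
      have e2 : m (k + 2) = min x (((k : ℝ) + 2) * d) := by
        show min x (((k + 2 : ℕ) : ℝ) * d) = _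
        push_cast
        rfl
      have e3 : m (k + 3) = min x (((k : ℝ) + 3) * d) := by
        show min x (((k + 3 : ℕ) : ℝ) * d) = _
        push_cast
        rfl
      rw [e0, e1, e2, e3]
      rcases le_or_gt x (((k : ℝ) + 1) * d) with h1 | h1
      · rw [hb4 k f h1, min_eq_left h1, min_eq_left (h1.trans (by nlinarith)),
          min_eq_left (h1.trans (by nlinarith))]
        constructor
        · linarith
        · have := min_le_left x ((k : ℝ) * d)
          linarith
      · rcases le_or_gt (((k : ℝ) + 2) * d) x with h2 | h2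
        · rw [hb5 k f h2, min_eq_right h2, min_eq_right h1.le,
            min_eq_right (show (k : ℝ) * d ≤ x by nlinarith)]
          have := min_le_right x (((k : ℝ) + 3) * d)
          constructor <;> nlinarith
        · rw [min_eq_left (show x ≤ ((k : ℝ) + 3) * d by nlinarith), min_eq_left h2.le,
            min_eq_right h1.le, min_eq_right (show (k : ℝ) * d ≤ x by nlinarith)]
          constructor <;> nlinarith [h01.1, h01.2]
    have h1 : ∑ k ∈ Finset.range n, (m (k + 3) - m (k + 2)) = m (n + 2) - m 2 :=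
      Finset.sum_range_sub (fun k => m (k + 2)) n
    have h2 : ∑ k ∈ Finset.range n, (m (k + 1) - m k) = m n - m 0 :=
      Finset.sum_range_sub m n
    have h3 : m (n + 2) - m 2 ≤ ∑ k ∈ Finset.range n, d * (1 - b k f) := by
      rw [← h1]
      exact Finset.sum_le_sum fun k _ => (key k).1
    have h4 : ∑ k ∈ Finset.range n, d * (1 - b k f) ≤ m n - m 0 := by
      rw [← h2]
      exact Finset.sum_le_sum fun k _ => (key k).2
    have h5 : m (n + 2) = x := by
      refine min_eq_left ?_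
      push_cast
      nlinarith
    have h6 : m 2 ≤ 2 * d := by
      have : m 2 ≤ ((2 : ℕ) : ℝ) * d := min_le_right _ _
      push_cast at this
      exact this
    have h7 : m n ≤ x := min_le_left _ _
    have h8 : m 0 = 0 := by
      show min x (((0 : ℕ) : ℝ) * d) = 0
      rw [Nat.cast_zero, zero_mul, min_eq_right hx0]
    show |∑ k ∈ Finset.range n, d * (1 - b k f) - x| ≤ η
    rw [abs_le]
    constructor <;> linarith

end Pool.Agent.CKT
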