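import Pool.Agent.CKT.Defs6
import Pool.Agent.CKT.Sem
import Pool.Agent.CKT.Tal

/-!
# Soundness of the rule with nice functions in place of functionals (row SN2)
-/

set_option autoImplicit false

open Set Filter Topology

namespace Pool.Agent.CKT

universe u v

section main

variable {X : Type u} [TopologicalSpace X] [CompactSpace X] {D : Set X} {ι : Type v}
  {Y : ι → Set X} [hcY : ∀ j, CompactSpace (Y j)] {T : ℕ → ι → C(X, ℝ) → ℝ} {P : ι → ℕ}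

/-- the properties of the bumps of the pieces -/
private structure GoodN (p q d : ℝ) (a : ∀ (_ : ℕ) (j : ι), C(Y j, ℝ) → ℝ) : Prop where
  hp : 0 < p
  hd : 0 < d
  hpq : p < q - 2 * d
  anice : ∀ (k : ℕ) j (f : C(Y j, ℝ)), Nice (a k j) f
  arng : ∀ k j f, 0 ≤ a k j f ∧ a k j f ≤ 1
  aone : ∀ (k : ℕ) j (f : C(Y j, ℝ)), ‖f‖ ≤ q - 2 * d / ((k : ℝ) + 1) → a k j f = 1
  azero : ∀ (k : ℕ) j (f : C(Y j, ℝ)), q - d / ((k : ℝ) + 1) ≤ ‖f‖ → a k j f = 0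

/-- the factor of index `(k, j)` -/
private noncomputable def facN (P : ι → ℕ) (T : ℕ → ι → C(X, ℝ) → ℝ)
    (a : ∀ (_ : ℕ) (j : ι), C(Y j, ℝ) → ℝ) (i : ℕ × ι) (g : C(X, ℝ)) : ℝ :=
  1 - (1 - a i.1 i.2 (g.restrict (Y i.2))) * chiT P i (T i.1 i.2 g)

variable {p q d : ℝ} {a : ∀ (_ : ℕ) (j : ι), C(Y j, ℝ) → ℝ}

omit [CompactSpace X] in
private theorem winN (hB : GoodN p q d a) (k : ℕ) : p < q - 2 * d / ((k : ℝ) + 1) ∧
    q - 2 * d / ((k : ℝ) + 1) < q - d / ((k : ℝ) + 1) ∧ q - d / ((k : ℝ) + 1) < q := by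
  have hd := hB.hd
  have h1 := hB.hpq
  have hk : (0 : ℝ) < (k : ℝ) + 1 := by positivity
  have h2 : 0 < d / ((k : ℝ) + 1) := by positivity
  have h3 : d / ((k : ℝ) + 1) ≤ d := by
    rw [div_le_iff₀ hk]
    have : (0 : ℝ) ≤ (k : ℝ) := Nat.cast_nonneg k
    nlinarith
  have e2 : 2 * d / ((k : ℝ) + 1) = 2 * (d / ((k : ℝ) + 1)) := by ring
  rw [e2]
  refine ⟨?_, ?_, ?_⟩ <;> linarith

private theorem facN_rng (hB : GoodN p q d a) (i : ℕ × ι) (g : C(X, ℝ)) :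
    0 ≤ facN P T a i g ∧ facN P T a i g ≤ 1 := by
  obtain ⟨h1, h2⟩ := hB.arng i.1 i.2 (g.restrict (Y i.2))
  obtain ⟨h3, h4⟩ := chiT_rng P i (T i.1 i.2 g)
  unfold facN
  constructor
  · nlinarith
  · nlinarith [mul_nonneg (sub_nonneg.2 h2) h3]

private theorem facN_nice (hB : GoodN p q d a) (hn : ∀ k j f, Nice (T k j) f)
    (i : ℕ × ι) (f : C(X, ℝ)) : Nice (facN P T a i) f := by
  have hb : Nice (fun g : C(X, ℝ) => chiT P i (T i.1 i.2 g)) f := by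
    obtain ⟨h1, U, hU, E, hE, hEf⟩ := hn i.1 i.2 f
    refine ⟨(chiT_contDiff P i).contDiffAt.comp f h1, U, hU, E, hE, ?_⟩
    intro g hg g' hg' hz
    show chiT P i (T i.1 i.2 g) = chiT P i (T i.1 i.2 g')
    rw [hEf g hg g' hg' hz]
  have ha : Nice (fun g : C(X, ℝ) => a i.1 i.2 (g.restrict (Y i.2))) f :=
    Nice.restrict (hB.anice i.1 i.2 _)
  exact (ha.one_sub.mul hb).one_sub

private theorem facN_ne_one (hB : GoodN p q d a) (i : ℕ × ι) (g : C(X, ℝ))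
    (h : facN P T a i g ≠ 1) :
    q - 2 * d / ((i.1 : ℝ) + 1) < ‖g.restrict (Y i.2)‖ ∧ P i.2 ≤ i.1 ∧
      1 / (2 * ((i.1 : ℝ) + 1)) < |T i.1 i.2 g| := by
  refine ⟨?_, ?_, ?_⟩
  · by_contra hcon
    apply h
    unfold facN
    rw [hB.aone i.1 i.2 _ (not_lt.1 hcon)]
    ring
  · by_contra hcon
    apply h
    unfold facN
    have : chiT P i (T i.1 i.2 g) = 0 := by
      unfold chiT
      exact if_neg hcon
    rw [this]
    ring
  · by_contra hcon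
    apply h
    unfold facN
    rw [chiT_zero P i _ (not_lt.1 hcon)]
    ring

/-- local finiteness inside the open ball of radius `q` -/
private theorem locfinN
    (hfin : ∀ f : C(X, ℝ), ‖f‖ < q → ∀ k m : ℕ, ∃ F : Set ι, F.Finite ∧
      ∀ᶠ g in 𝓝 f, ∀ j, P j = m → j ∉ F → |T k j g| ≤ 1 / (2 * ((k : ℝ) + 1)))
    (hB : GoodN p q d a) (f : C(X, ℝ)) (hf : ‖f‖ < q) :
    ∃ S : Finset (ℕ × ι), ∀ᶠ g in 𝓝 f, ∀ i, i ∉ S → facN P T a i g = 1 := by
  classical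
  have hd := hB.hd
  set c : ℝ := (q - ‖f‖) / 2 with hc
  have hc0 : 0 < c := by rw [hc]; linarith
  obtain ⟨J, hJ⟩ := exists_nat_gt (2 * d / c)
  have hJ0 : (0 : ℝ) ≤ J := Nat.cast_nonneg _
  choose F hF hFe using fun k m : ℕ => hfin f hf k m
  have hfin2 : (⋃ k ∈ Finset.range (J + 1), ⋃ m ∈ Finset.range (J + 1),
      (fun j => ((k, j) : ℕ × ι)) '' (F k m)).Finite := by
    apply Set.Finite.biUnion (Finset.finite_toSet _)
    intro k _
    apply Set.Finite.biUnion (Finset.finite_toSet _)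
    intro m _
    exact (hF k m).image _
  have hev : ∀ᶠ g in 𝓝 f, ∀ k ∈ Finset.range (J + 1), ∀ m ∈ Finset.range (J + 1),
      ∀ j, P j = m → j ∉ F k m → |T k j g| ≤ 1 / (2 * ((k : ℝ) + 1)) := by
    rw [Filter.eventually_all_finset]
    intro k _
    rw [Filter.eventually_all_finset]
    intro m _
    exact hFe k m
  refine ⟨hfin2.toFinset, ?_⟩
  filter_upwards [Metric.ball_mem_nhds f (half_pos hc0), hev] with g hg hgv i hi
  by_contra hne
  apply hi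
  obtain ⟨h1, h2, h3⟩ := facN_ne_one hB i g hne
  have hgf : ‖g - f‖ < c / 2 := by
    rw [← dist_eq_norm]; exact hg
  have hk0 : (0 : ℝ) < (i.1 : ℝ) + 1 := by positivity
  have hiJ : i.1 ≤ J := by
    have e1 : ‖g.restrict (Y i.2)‖ ≤ ‖g‖ := restr_le_norm g
    have e2 : ‖g‖ ≤ ‖f‖ + ‖g - f‖ := by
      calc ‖g‖ = ‖f + (g - f)‖ := by congr 1; abel
        _ ≤ _ := norm_add_le _ _
    have e3 : c < 2 * d / ((i.1 : ℝ) + 1) := by
      have : ‖f‖ = q - 2 * c := by rw [hc]; ring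
      linarith
    rw [lt_div_iff₀ hk0] at e3
    rw [div_lt_iff₀ hc0] at hJ
    have e4 : c * ((i.1 : ℝ) + 1) < c * J := by linarith
    have e5 : (i.1 : ℝ) + 1 < J := lt_of_mul_lt_mul_left e4 hc0.le
    have e6 : (i.1 : ℝ) < J := by linarith
    exact (Nat.cast_lt.1 e6).le
  have hi1 : i.1 ∈ Finset.range (J + 1) := by simpa [Nat.lt_succ_iff] using hiJ
  have hi2 : P i.2 ∈ Finset.range (J + 1) := by simpa [Nat.lt_succ_iff] using h2.trans hiJ
  rw [Set.Finite.mem_toFinset]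
  simp only [mem_iUnion]
  refine ⟨i.1, hi1, P i.2, hi2, i.2, ?_, rfl⟩
  by_contra hnF
  exact absurd (hgv i.1 hi1 (P i.2) hi2 i.2 rfl hnF) (not_le.2 h3)

/-- a factor vanishes near a point of the sphere -/
private theorem sphereN (hn : ∀ k j f, Nice (T k j) f)
    (htop : ∀ f : C(X, ℝ), (∀ x ∈ D, |f x| < q) → ‖f‖ = q → ∃ j, (∃ x ∈ Y j, q ≤ |f x|) ∧
      ∃ k₀ : ℕ, ∀ k, k₀ ≤ k → 1 / ((k : ℝ) + 1) < |T k j f|)
    (hB : GoodN p q d a) (f : C(X, ℝ)) (hfD : ∀ y ∈ D, |f y| < p) (hf : ‖f‖ = q) :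
    ∃ i : ℕ × ι, ∀ᶠ g in 𝓝 f, facN P T a i g = 0 := by
  have hd := hB.hd
  have hp := hB.hp
  have hpq := hB.hpq
  obtain ⟨j, ⟨x, hxY, hx1⟩, k₀, hk₀⟩ := htop f
    (fun x hx => by have := hfD x hx; linarith) hf
  set k : ℕ := max k₀ (P j) with hk
  have hkP : P j ≤ k := le_max_right _ _
  have hk1 : (0 : ℝ) < (k : ℝ) + 1 := by positivity
  have hk2 : 1 / ((k : ℝ) + 1) < |T k j f| := hk₀ k (le_max_left _ _)
  refine ⟨(k, j), ?_⟩
  have hdk : 0 < d / ((k : ℝ) + 1) := by positivity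
  have hY : q - d / ((k : ℝ) + 1) < ‖f.restrict (Y j)‖ := by
    have := abs_le_restr (S := Y j) f hxY
    linarith
  have hcont : ContinuousAt (fun g : C(X, ℝ) => |T k j g|) f := (hn k j f).1.continuousAt.abs
  have hev : ∀ᶠ g : C(X, ℝ) in 𝓝 f, 1 / ((k : ℝ) + 1) < |T k j g| :=
    continuousAt_const.eventually_lt hcont hk2
  filter_upwards [lt_restr hY, hev] with g h2 h3
  show 1 - (1 - a k j (g.restrict (Y j))) * chiT P (k, j) (T k j g) = 0
  rw [chiT_one P (k, j) _ hkP h3.le, hB.azero k j _ h2.le]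
  ring

/-- the product -/
private noncomputable def prdN (q : ℝ) (P : ι → ℕ) (T : ℕ → ι → C(X, ℝ) → ℝ)
    (a : ∀ (_ : ℕ) (j : ι), C(Y j, ℝ) → ℝ) (g : C(X, ℝ)) : ℝ := by
  classical
  exact if ‖g‖ < q then ∏ᶠ i : ℕ × ι, facN P T a i g else 0

omit hcY in
private theorem prdN_of_lt (g : C(X, ℝ)) (h : ‖g‖ < q) :
    prdN q P T a g = ∏ᶠ i : ℕ × ι, facN P T a i g := by
  unfold prdN
  exact if_pos h

omit hcY in
private theorem prdN_of_ge (g : C(X, ℝ)) (h : q ≤ ‖g‖) : prdN q P T a g = 0 := by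
  unfold prdN
  exact if_neg (not_lt.2 h)

private theorem prdN_nice (hn : ∀ k j f, Nice (T k j) f)
    (hfin : ∀ f : C(X, ℝ), ‖f‖ < q → ∀ k m : ℕ, ∃ F : Set ι, F.Finite ∧
      ∀ᶠ g in 𝓝 f, ∀ j, P j = m → j ∉ F → |T k j g| ≤ 1 / (2 * ((k : ℝ) + 1)))
    (htop : ∀ f : C(X, ℝ), (∀ x ∈ D, |f x| < q) → ‖f‖ = q → ∃ j, (∃ x ∈ Y j, q ≤ |f x|) ∧
      ∃ k₀ : ℕ, ∀ k, k₀ ≤ k → 1 / ((k : ℝ) + 1) < |T k j f|)
    (hB : GoodN p q d a) (f : C(X, ℝ)) (hfD : ∀ y ∈ D, |f y| < p) :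
    Nice (prdN q P T a) f := by
  rcases lt_trichotomy ‖f‖ q with hf | hf | hf
  · obtain ⟨S, hS'⟩ := locfinN hfin hB f hf
    have h1 : ∀ᶠ g : C(X, ℝ) in 𝓝 f, ‖g‖ < q :=
      continuous_norm.continuousAt.eventually_lt continuousAt_const hf
    apply (nice_prod S (facN P T a) f fun i _ => facN_nice hB hn i f).congr
    filter_upwards [hS', h1] with g hg hg1
    rw [prdN_of_lt g hg1]
    apply finprod_eq_prod_of_mulSupport_subset
    intro i hi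
    by_contra hcon
    exact hi (hg i hcon)
  · obtain ⟨i, hi⟩ := sphereN hn htop hB f hfD hf
    apply (nice_const 0 f).congr
    filter_upwards [hi] with g hg
    by_cases hg1 : ‖g‖ < q
    · rw [prdN_of_lt g hg1]
      obtain ⟨S, hS'⟩ := locfinN hfin hB g hg1
      apply finprod_eq_zero _ i hg
      apply S.finite_toSet.subset
      intro i hi
      by_contra hcon
      exact hi (hS'.self_of_nhds i hcon)
    · exact prdN_of_ge g (not_lt.1 hg1)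
  · apply (nice_const 0 f).congr
    have h1 : ∀ᶠ g : C(X, ℝ) in 𝓝 f, q < ‖g‖ :=
      continuousAt_const.eventually_lt continuous_norm.continuousAt hf
    filter_upwards [h1] with g hg
    exact prdN_of_ge g hg.le

private theorem prdN_rng (hB : GoodN p q d a) (g : C(X, ℝ)) :
    0 ≤ prdN q P T a g ∧ prdN q P T a g ≤ 1 := by
  by_cases hg : ‖g‖ < q
  · rw [prdN_of_lt g hg]
    by_cases hs : (Function.mulSupport fun i : ℕ × ι => facN P T a i g).Finite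
    · rw [finprod_eq_prod _ hs]
      exact ⟨Finset.prod_nonneg fun i _ => (facN_rng hB i g).1,
        Finset.prod_le_one (fun i _ => (facN_rng hB i g).1) fun i _ => (facN_rng hB i g).2⟩
    · rw [finprod_of_infinite_mulSupport hs]
      exact ⟨zero_le_one, le_rfl⟩
  · rw [prdN_of_ge g (not_lt.1 hg)]
    exact ⟨le_rfl, zero_le_one⟩

private theorem prdN_one (hB : GoodN p q d a) (g : C(X, ℝ)) (hg : ‖g‖ ≤ p) :
    prdN q P T a g = 1 := by
  have hd := hB.hd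
  have hpq := hB.hpq
  rw [prdN_of_lt g (by linarith)]
  apply finprod_eq_one_of_forall_eq_one
  intro i
  obtain ⟨w1, w2, w3⟩ := winN hB i.1
  unfold facN
  rw [hB.aone i.1 i.2 _ (by
    have := restr_le_norm (S := Y i.2) g
    linarith)]
  ring

end main

/-! ROW SN2 (Sn2.lean): adapt Tal.lean (perm_tal) -/
theorem perm_talN (X : Type u) [TopologicalSpace X] [CompactSpace X] (D : Set X)
    (hD : IsClosed D) (ι : Type v) (Y : ι → Set X) (P : ι → ℕ) (p q : ℝ) (hp : 0 < p)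
    (hpq : p < q) (T : ℕ → ι → C(X, ℝ) → ℝ) (hYc : ∀ j, IsClosed (Y j))
    (hn : ∀ k j f, Nice (T k j) f)
    (hfin : ∀ f : C(X, ℝ), ‖f‖ < q → ∀ k m : ℕ, ∃ F : Set ι, F.Finite ∧
      ∀ᶠ g in 𝓝 f, ∀ j, P j = m → j ∉ F → |T k j g| ≤ 1 / (2 * ((k : ℝ) + 1)))
    (htop : ∀ f : C(X, ℝ), (∀ x ∈ D, |f x| < q) → ‖f‖ = q → ∃ j, (∃ x ∈ Y j, q ≤ |f x|) ∧
      ∃ k₀ : ℕ, ∀ k, k₀ ≤ k → 1 / ((k : ℝ) + 1) < |T k j f|)
    (hY : ∀ j, IsGood (Y j)) :
    ∃ b : C(X, ℝ) → ℝ, (∀ f, (∀ y ∈ D, |f y| < p) → Nice b f) ∧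
      (∀ f, 0 ≤ b f ∧ b f ≤ 1) ∧ (∀ f, ‖f‖ ≤ p → b f = 1) ∧ ∀ f, q ≤ ‖f‖ → b f = 0 := by
  haveI hcY : ∀ j, CompactSpace (Y j) := fun j =>
    isCompact_iff_compactSpace.1 (hYc j).isCompact
  have hY' : ∀ j, HasBumps (Y j) := fun j => by
    obtain ⟨_, _, h⟩ := hY j
    exact h
  set d : ℝ := (q - p) / 3 with hd
  have hd0 : 0 < d := by rw [hd]; linarith
  have hpq' : p < q - 2 * d := by rw [hd]; linarith
  have hw : ∀ k : ℕ, p < q - 2 * d / ((k : ℝ) + 1) ∧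
      q - 2 * d / ((k : ℝ) + 1) < q - d / ((k : ℝ) + 1) := by
    intro k
    have hk : (0 : ℝ) < (k : ℝ) + 1 := by positivity
    have h2 : 0 < d / ((k : ℝ) + 1) := by positivity
    have h3 : d / ((k : ℝ) + 1) ≤ d := by
      rw [div_le_iff₀ hk]
      have : (0 : ℝ) ≤ (k : ℝ) := Nat.cast_nonneg k
      nlinarith
    have e2 : 2 * d / ((k : ℝ) + 1) = 2 * (d / ((k : ℝ) + 1)) := by ring
    rw [e2]
    refine ⟨?_, ?_⟩ <;> linarith
  have hYb := fun (k : ℕ) (j : ι) => hY' j (q - 2 * d / ((k : ℝ) + 1)) (q - d / ((k : ℝ) + 1))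
    (hp.trans (hw k).1) (hw k).2
  choose a ha1 ha2 ha3 ha4 ha5 using hYb
  have hG : GoodN p q d a :=
    { hp := hp
      hd := hd0
      hpq := hpq'
      anice := fun k j f => ⟨(ha1 k j).contDiffAt, ha2 k j f⟩
      arng := fun k j f => ha3 k j f
      aone := fun k j f hf => ha4 k j f hf
      azero := fun k j f hf => ha5 k j f hf }
  exact ⟨prdN q P T a, fun f hf => prdN_nice hn hfin htop hG f hf, fun f => prdN_rng hG f,
    fun f hf => prdN_one hG f hf, fun f hf => prdN_of_ge f hf⟩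

end Pool.Agent.CKT
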