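import Mathlib

/-!
# Functionals which depend on finitely many values (MP_0211b8_an)
-/

set_option autoImplicit false

open Set Filter Topology

namespace Pool.Agent.CKT

universe u v

theorem fun_repr (K : Type u) [TopologicalSpace K] [CompactSpace K] [T2Space K]
    (T : C(K, ℝ) →L[ℝ] ℝ) (E : Set K) (hE : E.Finite)
    (hT : ∀ f : C(K, ℝ), (∀ x ∈ E, f x = 0) → T f = 0) :
    ∃ c : K → ℝ, ∀ f : C(K, ℝ), T f = ∑ x ∈ hE.toFinset, c x * f x := by
  classical
  have hx : ∀ x : K, ∃ g : C(K, ℝ), g x = 1 ∧ ∀ y ∈ E, y ≠ x → g y = 0 := by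
    intro x
    obtain ⟨g, hg0, hg1, -⟩ := exists_continuous_zero_one_of_isClosed
      (s := E \ {x}) (t := {x}) (hE.subset sdiff_subset).isClosed isClosed_singleton
      (Set.disjoint_left.2 fun y hy hy' => hy.2 hy')
    exact ⟨g, hg1 rfl, fun y hy hyx => hg0 ⟨hy, hyx⟩⟩
  choose g hg1 hg0 using hx
  refine ⟨fun x => T (g x), fun f => ?_⟩
  have h1 : T (f - ∑ x ∈ hE.toFinset, f x • g x) = 0 := by
    refine hT _ fun y hy => ?_
    have h2 : (∑ x ∈ hE.toFinset, f x • g x) y = ∑ x ∈ hE.toFinset, f x * g x y := by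
      simp [ContinuousMap.sum_apply]
    rw [ContinuousMap.sub_apply, h2, Finset.sum_eq_single y, hg1 y]
    · ring
    · intro z _ hzy
      rw [hg0 z y hy (Ne.symm hzy), mul_zero]
    · intro h
      exact absurd (hE.mem_toFinset.2 hy) h
  rw [map_sub, map_sum] at h1
  have h3 : T f = ∑ x ∈ hE.toFinset, T (f x • g x) := by linarith
  rw [h3]
  refine Finset.sum_congr rfl fun x _ => ?_
  rw [map_smul, smul_eq_mul, mul_comm]

end Pool.Agent.CKT
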