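import Pool.Agent.CKT.Defs6
import Pool.Agent.CKT.Psp
import Pool.Agent.CKT.Com
import Pool.Agent.CKT.Fsu
import Pool.Agent.CKT.Sn1
import Pool.Agent.CKT.Sn2
import Pool.Agent.CKT.Sn3

/-!
# Open maps onto spaces with functionals depending on finitely many values
-/

set_option autoImplicit false

open Set Filter Topology

namespace Pool.Agent.CKT

universe u v

/-- sums of nice functions -/
private theorem sn5_add {K : Type u} [TopologicalSpace K] [CompactSpace K] {b c : C(K, ℝ) → ℝ}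
    {f : C(K, ℝ)} (hb : Nice b f) (hc : Nice c f) : Nice (fun g => b g + c g) f := by
  refine ⟨hb.1.add hc.1, ?_⟩
  obtain ⟨U, hU, E, hE, h⟩ := hb.2
  obtain ⟨U', hU', E', hE', h'⟩ := hc.2
  refine ⟨U ∩ U', inter_mem hU hU', E ∪ E', hE.union hE', ?_⟩
  intro g hg k hk hz
  show b g + c g = b k + c k
  rw [h g hg.1 k hk.1 fun z hz' => hz z (Or.inl hz'),
    h' g hg.2 k hk.2 fun z hz' => hz z (Or.inr hz')]

private theorem sn5_sum {K : Type u} [TopologicalSpace K] [CompactSpace K] {ι : Type v}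
    (S : Finset ι) (b : ι → C(K, ℝ) → ℝ) (f : C(K, ℝ)) (h : ∀ i ∈ S, Nice (b i) f) :
    Nice (fun g => ∑ i ∈ S, b i g) f := by
  classical
  induction S using Finset.induction_on with
  | empty =>
    simp only [Finset.sum_empty]
    exact nice_const 0 f
  | insert a S ha ih =>
    simp only [Finset.sum_insert ha]
    exact sn5_add (h a (Finset.mem_insert_self a S))
      (ih fun i hi => h i (Finset.mem_insert_of_mem hi))

theorem good_open_talF (X K : Type u) [TopologicalSpace X] [TopologicalSpace K]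
    [CompactSpace X] [T2Space X] [CompactSpace K] [T2Space K] (φ : X → K)
    (hφ : Continuous φ) (ho : IsOpenMap φ) (hs : Function.Surjective φ) (D : Set K)
    (hD : IsClosed D) (ι : Type v) (Y : ι → Set K) (T : ι → (C(K, ℝ) →L[ℝ] ℝ)) (P : ι → ℕ)
    (hYc : ∀ j, IsClosed (Y j))
    (hloc : ∀ j, ∃ E : Set K, E.Finite ∧ ∀ f : C(K, ℝ), (∀ x ∈ E, f x = 0) → T j f = 0)
    (hbd : ∀ j (f : C(K, ℝ)), |T j f| ≤ P j * ‖f‖)
    (hfin : ∀ (f : C(K, ℝ)) (m : ℕ) (ε : ℝ), 0 < ε → {j | P j = m ∧ ε ≤ |T j f|}.Finite)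
    (htop : ∀ (f : C(K, ℝ)) (q : ℝ), 0 < q → (∀ x ∈ D, |f x| < q) → (∃ x, q ≤ |f x|) →
      ∃ j, (∃ x ∈ Y j, q ≤ |f x|) ∧ T j f ≠ 0)
    (h0 : IsGood (φ ⁻¹' D : Set X)) (hf : ∀ x, IsGood (φ ⁻¹' {x} : Set X))
    (hY : ∀ j, IsGood (φ ⁻¹' (Y j) : Set X)) : IsGood X := by
  classical
  have hcs : ∀ x, CompactSpace (φ ⁻¹' {x} : Set X) := fun x => by
    obtain ⟨h1, _, _⟩ := hf x
    exact h1
  have hBx : ∀ x, HasBumps (φ ⁻¹' {x} : Set X) := fun x => by
    obtain ⟨_, _, h3⟩ := hf x
    exact h3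
  choose E hE hT0 using hloc
  have hrep := fun j => fun_repr K (T j) (E j) (hE j) (hT0 j)
  choose c hc using hrep
  choose u hu0 hu1 hu2 using fun f : C(X, ℝ) => fib_sup X K φ hφ ho hs f
  -- the value of `u` is the norm of the restriction
  have hun : ∀ (g : C(X, ℝ)) (x : K), u g x = ‖g.restrict (φ ⁻¹' {x})‖ := by
    intro g x
    apply le_antisymm
    · obtain ⟨y, hy, hy'⟩ := hu2 g x
      rw [← hy']
      exact abs_le_restr (S := φ ⁻¹' {x}) g hy
    · rw [ContinuousMap.norm_le _ (hu0 g x)]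
      rintro ⟨y, hy⟩
      rw [Real.norm_eq_abs]
      have h1 := hu1 g y
      have h2 : φ y = x := hy
      rw [h2] at h1
      exact h1
  have hudiff : ∀ f g : C(X, ℝ), ‖u g - u f‖ ≤ ‖g - f‖ := by
    intro f g
    rw [ContinuousMap.norm_le _ (norm_nonneg _)]
    intro x
    rw [ContinuousMap.sub_apply, Real.norm_eq_abs, abs_le, hun, hun]
    have h1 := restr_diff (S := φ ⁻¹' {x}) f g
    have h2 := restr_diff (S := φ ⁻¹' {x}) g f
    rw [norm_sub_rev f g] at h2
    constructor <;> linarith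
  have hL : ∀ j, 0 ≤ ∑ x ∈ (hE j).toFinset, |c j x| := fun j =>
    Finset.sum_nonneg fun x _ => abs_nonneg _
  have hrel : RelBumps X (φ ⁻¹' D) := by
    intro p q hp hpq
    have hq : 0 < q := hp.trans hpq
    let η : ℕ → ι → ℝ := fun k j =>
      1 / (8 * ((k : ℝ) + 1) * ((∑ x ∈ (hE j).toFinset, |c j x|) + 1))
    have hη : ∀ k j, 0 < η k j := by
      intro k j
      have := hL j
      positivity
    have hNex := fun (k : ℕ) (j : ι) (x : K) =>
      nice_norm (φ ⁻¹' {x} : Set X) (hBx x) (q + 1) (η k j) (hη k j)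
    choose N hN hNη using hNex
    let T' : ℕ → ι → C(X, ℝ) → ℝ := fun k j g =>
      ∑ x ∈ (hE j).toFinset, c j x * N k j x (g.restrict (φ ⁻¹' {x}))
    have hn : ∀ k j f, Nice (T' k j) f := by
      intro k j f
      refine sn5_sum _ (fun x g => c j x * N k j x (g.restrict (φ ⁻¹' {x}))) f fun x _ => ?_
      exact (nice_const (c j x) f).mul (Nice.restrict (hN k j x _))
    have hest : ∀ k j (g : C(X, ℝ)), ‖g‖ ≤ q + 1 →
        |T' k j g - T j (u g)| ≤ 1 / (8 * ((k : ℝ) + 1)) := by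
      intro k j g hg
      have e1 : T' k j g - T j (u g) = ∑ x ∈ (hE j).toFinset,
          c j x * (N k j x (g.restrict (φ ⁻¹' {x})) - ‖g.restrict (φ ⁻¹' {x})‖) := by
        rw [hc j (u g), ← Finset.sum_sub_distrib]
        refine Finset.sum_congr rfl fun x _ => ?_
        rw [hun]
        ring
      rw [e1]
      calc |∑ x ∈ (hE j).toFinset,
          c j x * (N k j x (g.restrict (φ ⁻¹' {x})) - ‖g.restrict (φ ⁻¹' {x})‖)|
          ≤ ∑ x ∈ (hE j).toFinset,
          |c j x * (N k j x (g.restrict (φ ⁻¹' {x})) - ‖g.restrict (φ ⁻¹' {x})‖)| :=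
            Finset.abs_sum_le_sum_abs _ _
        _ ≤ ∑ x ∈ (hE j).toFinset, |c j x| * η k j := by
            refine Finset.sum_le_sum fun x _ => ?_
            rw [abs_mul]
            refine mul_le_mul_of_nonneg_left ?_ (abs_nonneg _)
            exact hNη k j x _ ((restr_le_norm g).trans hg)
        _ = (∑ x ∈ (hE j).toFinset, |c j x|) * η k j := by rw [Finset.sum_mul]
        _ ≤ 1 / (8 * ((k : ℝ) + 1)) := by
            show (∑ x ∈ (hE j).toFinset, |c j x|) *
              (1 / (8 * ((k : ℝ) + 1) * ((∑ x ∈ (hE j).toFinset, |c j x|) + 1))) ≤ _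
            have h1 := hL j
            have h2 : (0 : ℝ) < (k : ℝ) + 1 := by positivity
            rw [mul_one_div, div_le_div_iff₀ (by positivity) (by positivity)]
            nlinarith [mul_nonneg h1 h2.le]
    have hTu : ∀ j (f g : C(X, ℝ)), |T j (u g)| ≤ |T j (u f)| + P j * ‖g - f‖ := by
      intro j f g
      have h1 : T j (u g) = T j (u f) + T j (u g - u f) := by
        rw [map_sub]
        ring
      rw [h1]
      refine (abs_add_le _ _).trans (add_le_add le_rfl ?_)
      refine (hbd j _).trans ?_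
      exact mul_le_mul_of_nonneg_left (hudiff f g) (Nat.cast_nonneg _)
    suffices hb : ∃ b : C(X, ℝ) → ℝ, (∀ f, (∀ y ∈ φ ⁻¹' D, |f y| < p) → Nice b f) ∧
        (∀ f, 0 ≤ b f ∧ b f ≤ 1) ∧ (∀ f, ‖f‖ ≤ p → b f = 1) ∧ ∀ f, q ≤ ‖f‖ → b f = 0 by
      obtain ⟨b, b1, b2, b3, b4⟩ := hb
      exact ⟨b, b1, b2, b3, fun f _ hf' => b4 f hf'⟩
    refine perm_talN X (φ ⁻¹' D) (hD.preimage hφ) ι
      (fun j => φ ⁻¹' (Y j)) P p q hp hpq T' (fun j => (hYc j).preimage hφ) hn ?_ ?_ hY
    · intro f hfq k m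
      have hk : (0 : ℝ) < 1 / (8 * ((k : ℝ) + 1)) := by positivity
      refine ⟨_, hfin (u f) m _ hk, ?_⟩
      have hr : (0 : ℝ) < min 1 (1 / (8 * ((k : ℝ) + 1) * ((m : ℝ) + 1))) := by
        refine lt_min one_pos ?_
        positivity
      filter_upwards [Metric.ball_mem_nhds f hr] with g hg j hj hjF
      rw [Metric.mem_ball, dist_eq_norm] at hg
      have g1 : ‖g - f‖ < 1 := lt_of_lt_of_le hg (min_le_left _ _)
      have g2 : ‖g - f‖ < 1 / (8 * ((k : ℝ) + 1) * ((m : ℝ) + 1)) :=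
        lt_of_lt_of_le hg (min_le_right _ _)
      have g3 : ‖g‖ ≤ q + 1 := by
        have : ‖g‖ ≤ ‖f‖ + ‖g - f‖ := by
          have := norm_add_le f (g - f)
          rwa [add_sub_cancel] at this
        linarith
      have g4 : |T j (u f)| < 1 / (8 * ((k : ℝ) + 1)) := by
        by_contra hcon
        exact hjF ⟨hj, not_lt.1 hcon⟩
      have g5 := hTu j f g
      have g6 : (P j : ℝ) * ‖g - f‖ ≤ 1 / (8 * ((k : ℝ) + 1)) := by
        rw [hj]
        have hm : (0 : ℝ) ≤ m := Nat.cast_nonneg _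
        have hk' : (0 : ℝ) < (k : ℝ) + 1 := by positivity
        calc (m : ℝ) * ‖g - f‖ ≤ m * (1 / (8 * ((k : ℝ) + 1) * ((m : ℝ) + 1))) :=
              mul_le_mul_of_nonneg_left g2.le hm
          _ ≤ 1 / (8 * ((k : ℝ) + 1)) := by
              rw [mul_one_div, div_le_div_iff₀ (by positivity) (by positivity)]
              nlinarith [mul_nonneg hm hk'.le]
      have g7 := hest k j g g3
      have g8 : |T' k j g| ≤ |T j (u g)| + 1 / (8 * ((k : ℝ) + 1)) := by
        have : |T' k j g| ≤ |T j (u g)| + |T' k j g - T j (u g)| := by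
          have := abs_add_le (T j (u g)) (T' k j g - T j (u g))
          rwa [add_sub_cancel] at this
        linarith
      have g9 : 1 / (8 * ((k : ℝ) + 1)) + 1 / (8 * ((k : ℝ) + 1)) + 1 / (8 * ((k : ℝ) + 1)) ≤
          1 / (2 * ((k : ℝ) + 1)) := by
        have hk' : (0 : ℝ) < (k : ℝ) + 1 := by positivity
        have e1 : 1 / (8 * ((k : ℝ) + 1)) = (1 / 8) * (1 / ((k : ℝ) + 1)) := by
          rw [one_div_mul_one_div_rev]
          ring
        have e2 : 1 / (2 * ((k : ℝ) + 1)) = (1 / 2) * (1 / ((k : ℝ) + 1)) := by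
          rw [one_div_mul_one_div_rev]
          ring
        have e3 : 0 < 1 / ((k : ℝ) + 1) := by positivity
        rw [e1, e2]
        linarith
      linarith
    · intro f hfD hfq
      have hx : ∃ x : X, q ≤ |f x| := by
        by_contra hcon
        push Not at hcon
        have : ‖f‖ < q := by
          rw [ContinuousMap.norm_lt_iff _ hq]
          intro x
          rw [Real.norm_eq_abs]
          exact hcon x
        linarith
      obtain ⟨x, hx⟩ := hx
      obtain ⟨j, ⟨y, hy, hyq⟩, hTj⟩ := htop (u f) q hq (fun k hk => by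
        obtain ⟨z, hz, hz'⟩ := hu2 f k
        rw [abs_of_nonneg (hu0 f k), ← hz']
        refine hfD z ?_
        show φ z ∈ D
        rw [hz]
        exact hk) ⟨φ x, by
          rw [abs_of_nonneg (hu0 f _)]
          exact hx.trans (hu1 f x)⟩
      refine ⟨j, ?_, ?_⟩
      · obtain ⟨z, hz, hz'⟩ := hu2 f y
        refine ⟨z, ?_, ?_⟩
        · show φ z ∈ Y j
          rw [hz]
          exact hy
        · rw [hz']
          rwa [abs_of_nonneg (hu0 f y)] at hyq
      · have hpos : 0 < |T j (u f)| / 2 := by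
          have := abs_pos.2 hTj
          linarith
        obtain ⟨k₀, hk₀⟩ := exists_nat_one_div_lt hpos
        refine ⟨k₀, fun k hk => ?_⟩
        have h1 := hest k j f (by linarith)
        have h2 : 1 / ((k : ℝ) + 1) ≤ 1 / ((k₀ : ℝ) + 1) := by
          have : (k₀ : ℝ) ≤ k := by exact_mod_cast hk
          exact one_div_le_one_div_of_le (by positivity) (by linarith)
        have e1 : 1 / (8 * ((k : ℝ) + 1)) = (1 / 8) * (1 / ((k : ℝ) + 1)) := by
          rw [one_div_mul_one_div_rev]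
          ring
        have e3 : 0 < 1 / ((k : ℝ) + 1) := by positivity
        have h3 : |T j (u f)| ≤ |T' k j f| + |T' k j f - T j (u f)| := by
          have := abs_sub_abs_le_abs_sub (T j (u f)) (T' k j f)
          rw [abs_sub_comm] at this
          linarith
        rw [e1] at h1
        linarith
  obtain ⟨_, _, hB⟩ := h0
  exact ⟨inferInstance, inferInstance, hasBumps_of_rel X (φ ⁻¹' D) (hD.preimage hφ) hrel hB⟩

end Pool.Agent.CKT
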