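import Pool.Agent.CKT.Defs7
import Pool.Agent.CKT.Qga
import Pool.Agent.CKT.Sn5

/-!
# Row HF10: open maps onto spaces with systems of functionals
-/

set_option autoImplicit false

open Set Filter Topology

namespace Pool.Agent.CKT

universe u v

theorem qg_fsys (K : Type u) [TopologicalSpace K] [CompactSpace K] [T2Space K] (e : K)
    (ι : Type (u + 1)) (T : ι → (C(K, ℝ) →L[ℝ] ℝ)) (C : ι → Set K) (P : ι → ℕ)
    (h : FSys K e ι T C P) (Y : ι → Set K) (hYc : ∀ j, IsClosed (Y j)) (hCY : ∀ j, C j ⊆ Y j)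
    (hY : ∀ j, Qg (Y j)) : Qg K := by
  refine ⟨inferInstance, inferInstance, ?_⟩
  intro X _ _ _ φ hφ ho hs hf
  refine good_open_talF X K φ hφ ho hs {e} isClosed_singleton ι Y T P hYc h.loc h.bd h.fin ?_
    (hf e) hf (fun j => qg_restr hφ ho hs _ (hYc j) (hY j) fun x _ => hf x)
  intro f q _ hfD hfx
  obtain ⟨x, hx⟩ := hfx
  have h1 : |f e| < q := hfD e rfl
  have h2 : f x ≠ f e := by
    intro h3
    have h4 : |f x| = |f e| := congrArg abs h3
    rw [h4] at hx
    exact absurd h1 (not_lt.2 hx)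
  obtain ⟨j, hj1, hj2⟩ := h.sep f x h2
  exact ⟨j, ⟨x, hCY j hj1, hx⟩, hj2⟩

end Pool.Agent.CKT
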