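import Pool.Agent.CKT.Defs7

/-!
# Systems of functionals on retracts
-/

set_option autoImplicit false

open Set Filter Topology

namespace Pool.Agent.CKT

universe u v

theorem hasF_retr (K : Type u) [TopologicalSpace K] [CompactSpace K] [T2Space K] (r : K → K)
    (hr : Continuous r) (hrr : ∀ x, r (r x) = r x) [CompactSpace (range r)] (h : HasF K) :
    HasF (range r) := by
  classical
  intro e
  obtain ⟨ι, T, C, P, hF⟩ := h e.1
  let ρ : C(K, range r) := ⟨fun x => ⟨r x, mem_range_self x⟩, hr.subtype_mk _⟩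
  have hρ : ∀ y : range r, ρ y.1 = y := by
    rintro ⟨y, x, rfl⟩
    exact Subtype.ext (hrr x)
  have hnorm : ∀ f : C(range r, ℝ), ‖f.comp ρ‖ ≤ ‖f‖ := fun f =>
    (ContinuousMap.norm_le _ (norm_nonneg f)).2 fun x => f.norm_coe_le_norm (ρ x)
  let c : C(range r, ℝ) →L[ℝ] C(K, ℝ) := LinearMap.mkContinuous
    { toFun := fun f => f.comp ρ
      map_add' := fun f g => rfl
      map_smul' := fun a f => rfl } 1 (fun f => by rw [one_mul]; exact hnorm f)
  have hc : ∀ (f : C(range r, ℝ)) (x : K), c f x = f (ρ x) := fun f x => rfl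
  have hcn : ∀ f : C(range r, ℝ), ‖c f‖ ≤ ‖f‖ := hnorm
  refine ⟨ι, fun j => (T j).comp c, fun j => Subtype.val ⁻¹' (C j), P, ?_⟩
  refine
    { closed := fun j => (hF.closed j).preimage continuous_subtype_val
      ne := fun j hj => hF.ne j hj
      loc := fun j => ?_
      bd := fun j f => ?_
      fin := fun f m ε hε => hF.fin (c f) m ε hε
      sep := fun f x hx => ?_ }
  · obtain ⟨E, hE, h1⟩ := hF.loc j
    refine ⟨ρ '' E, hE.image _, fun f hf => h1 (c f) fun x hx => ?_⟩
    rw [hc]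
    exact hf _ (mem_image_of_mem _ hx)
  · exact (hF.bd j (c f)).trans (mul_le_mul_of_nonneg_left (hcn f) (Nat.cast_nonneg _))
  · have h1 : c f x.1 ≠ c f e.1 := by
      rw [hc, hc, hρ, hρ]; exact hx
    exact hF.sep (c f) x.1 h1

end Pool.Agent.CKT
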