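import Pool.Agent.CKT.Defs7

/-!
# Systems of functionals on sums
-/

set_option autoImplicit false

open Set Filter Topology

namespace Pool.Agent.CKT

universe u v

/-- Composition with a continuous map. -/
noncomputable def pullL {X K : Type u} [TopologicalSpace X] [CompactSpace X] [TopologicalSpace K]
    [CompactSpace K] (i : C(K, X)) : C(X, ℝ) →L[ℝ] C(K, ℝ) :=
  LinearMap.mkContinuous
    { toFun := fun f => f.comp i
      map_add' := fun _ _ => rfl
      map_smul' := fun _ _ => rfl } 1 fun f => by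
    rw [one_mul]
    exact (ContinuousMap.norm_le _ (norm_nonneg _)).2 fun x => f.norm_coe_le_norm _

theorem pullL_apply {X K : Type u} [TopologicalSpace X] [CompactSpace X] [TopologicalSpace K]
    [CompactSpace K] (i : C(K, X)) (f : C(X, ℝ)) (x : K) : pullL i f x = f (i x) := rfl

theorem norm_pullL_le {X K : Type u} [TopologicalSpace X] [CompactSpace X] [TopologicalSpace K]
    [CompactSpace K] (i : C(K, X)) (f : C(X, ℝ)) : ‖pullL i f‖ ≤ ‖f‖ :=
  (ContinuousMap.norm_le _ (norm_nonneg _)).2 fun x => f.norm_coe_le_norm (i x)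

theorem fsys_glue (X K L : Type u) [TopologicalSpace X] [TopologicalSpace K] [TopologicalSpace L]
    [CompactSpace X] [CompactSpace K] [CompactSpace L] (i : C(K, X)) (i' : C(L, X))
    (hi : Function.Injective i) (hci : IsClosedMap i) (hci' : IsClosedMap i')
    (hne : ∀ k l, i k ≠ i' l) (hcov : ∀ x, (∃ k, i k = x) ∨ ∃ l, i' l = x) (e₁ : K)
    (h : ∃ (ι : Type (u + 1)) (T : ι → (C(K, ℝ) →L[ℝ] ℝ)) (C : ι → Set K) (P : ι → ℕ),
      FSys K e₁ ι T C P) (h' : HasF L) :
    ∃ (ι : Type (u + 1)) (T : ι → (C(X, ℝ) →L[ℝ] ℝ)) (C : ι → Set X) (P : ι → ℕ),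
      FSys X (i e₁) ι T C P := by
  obtain ⟨ι, T, C, P, hS⟩ := h
  rcases isEmpty_or_nonempty L with hL | hL
  · refine ⟨ι, fun j => (T j).comp (pullL i), fun j => i '' C j, P, ?_, ?_, ?_, ?_, ?_, ?_⟩
    · exact fun j => hci _ (hS.closed j)
    · rintro j ⟨k, hk, he⟩
      exact hS.ne j (hi he ▸ hk)
    · intro j
      obtain ⟨E, hE, hE'⟩ := hS.loc j
      exact ⟨i '' E, hE.image _, fun f hf => hE' (pullL i f) fun x hx => hf _ ⟨x, hx, rfl⟩⟩
    · intro j f
      exact (hS.bd j (pullL i f)).trans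
        (mul_le_mul_of_nonneg_left (norm_pullL_le i f) (Nat.cast_nonneg _))
    · exact fun f m ε hε => hS.fin (pullL i f) m ε hε
    · intro f x hx
      rcases hcov x with ⟨k, rfl⟩ | ⟨l, rfl⟩
      · obtain ⟨j, hj, hj'⟩ := hS.sep (pullL i f) k hx
        exact ⟨j, ⟨k, hj, rfl⟩, hj'⟩
      · exact isEmptyElim l
  · obtain ⟨e'⟩ := hL
    obtain ⟨ι', T', C', P', hS'⟩ := h' e'
    refine ⟨ι ⊕ (ι' ⊕ PUnit.{u + 2}),
      Sum.elim (fun j => (T j).comp (pullL i)) (Sum.elim (fun j => (T' j).comp (pullL i'))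
        fun _ => ContinuousMap.evalCLM ℝ (i' e') - ContinuousMap.evalCLM ℝ (i e₁)),
      Sum.elim (fun j => i '' C j) (Sum.elim (fun j => i' '' C' j) fun _ => range i'),
      Sum.elim P (Sum.elim P' fun _ => 2), ?_, ?_, ?_, ?_, ?_, ?_⟩
    · rintro (j | j | j)
      · exact hci _ (hS.closed j)
      · exact hci' _ (hS'.closed j)
      · exact hci'.isClosed_range
    · rintro (j | j | j)
      · rintro ⟨k, hk, he⟩
        exact hS.ne j (hi he ▸ hk)
      · rintro ⟨l, -, he⟩
        exact hne _ _ he.symm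
      · rintro ⟨l, he⟩
        exact hne _ _ he.symm
    · rintro (j | j | j)
      · obtain ⟨E, hE, hE'⟩ := hS.loc j
        exact ⟨i '' E, hE.image _, fun f hf => hE' (pullL i f) fun x hx => hf _ ⟨x, hx, rfl⟩⟩
      · obtain ⟨E, hE, hE'⟩ := hS'.loc j
        exact ⟨i' '' E, hE.image _, fun f hf => hE' (pullL i' f) fun x hx => hf _ ⟨x, hx, rfl⟩⟩
      · refine ⟨{i' e', i e₁}, (Set.finite_singleton _).insert _, fun f hf => ?_⟩
        have h1 := hf (i' e') (by simp)
        have h2 := hf (i e₁) (by simp)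
        change f (i' e') - f (i e₁) = 0
        rw [h1, h2, sub_zero]
    · rintro (j | j | j) f
      · exact (hS.bd j (pullL i f)).trans
          (mul_le_mul_of_nonneg_left (norm_pullL_le i f) (Nat.cast_nonneg _))
      · exact (hS'.bd j (pullL i' f)).trans
          (mul_le_mul_of_nonneg_left (norm_pullL_le i' f) (Nat.cast_nonneg _))
      · change |f (i' e') - f (i e₁)| ≤ ((2 : ℕ) : ℝ) * ‖f‖
        have h1 := f.norm_coe_le_norm (i' e')
        have h2 := f.norm_coe_le_norm (i e₁)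
        rw [Real.norm_eq_abs] at h1 h2
        have h3 := abs_sub (f (i' e')) (f (i e₁))
        push_cast
        linarith
    · intro f m ε hε
      have h1 := hS.fin (pullL i f) m ε hε
      have h2 := hS'.fin (pullL i' f) m ε hε
      refine (((h1.image Sum.inl).union ((h2.image Sum.inl).image Sum.inr)).union
        (Set.finite_singleton (Sum.inr (Sum.inr PUnit.unit)))).subset ?_
      rintro (j | j | j) hj
      · exact Or.inl (Or.inl ⟨j, hj, rfl⟩)
      · exact Or.inl (Or.inr ⟨Sum.inl j, ⟨j, hj, rfl⟩, rfl⟩)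
      · exact Or.inr rfl
    · intro f x hx
      rcases hcov x with ⟨k, rfl⟩ | ⟨l, rfl⟩
      · obtain ⟨j, hj, hj'⟩ := hS.sep (pullL i f) k hx
        exact ⟨Sum.inl j, ⟨k, hj, rfl⟩, hj'⟩
      · by_cases h1 : f (i' l) = f (i' e')
        · refine ⟨Sum.inr (Sum.inr PUnit.unit), ⟨l, rfl⟩, ?_⟩
          change f (i' e') - f (i e₁) ≠ 0
          rw [← h1]
          exact sub_ne_zero.2 hx
        · obtain ⟨j, hj, hj'⟩ := hS'.sep (pullL i' f) l h1
          exact ⟨Sum.inr (Sum.inl j), ⟨l, hj, rfl⟩, hj'⟩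

theorem hasF_sum (K L : Type u) [TopologicalSpace K] [TopologicalSpace L] [CompactSpace K]
    [CompactSpace L] [T2Space K] [T2Space L] (h : HasF K) (h' : HasF L) : HasF (K ⊕ L) := by
  have hL : IsClosedMap (Sum.inl : K → K ⊕ L) := IsClosedEmbedding.inl.isClosedMap
  have hR : IsClosedMap (Sum.inr : L → K ⊕ L) := IsClosedEmbedding.inr.isClosedMap
  rintro (e | e)
  · exact fsys_glue (K ⊕ L) K L ⟨Sum.inl, continuous_inl⟩ ⟨Sum.inr, continuous_inr⟩
      Sum.inl_injective hL hR (fun _ _ => Sum.inl_ne_inr)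
      (by rintro (k | l); exacts [Or.inl ⟨k, rfl⟩, Or.inr ⟨l, rfl⟩]) e (h e) h'
  · exact fsys_glue (K ⊕ L) L K ⟨Sum.inr, continuous_inr⟩ ⟨Sum.inl, continuous_inl⟩
      Sum.inr_injective hR hL (fun _ _ => Sum.inr_ne_inl)
      (by rintro (k | l); exacts [Or.inr ⟨k, rfl⟩, Or.inl ⟨l, rfl⟩]) e (h' e) h

end Pool.Agent.CKT
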