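import Pool.Agent.CKT.Defs7

/-!
# Systems of functionals: products (MP_0211b8_an, CKT row HF4)
-/

set_option autoImplicit false

open Set Filter Topology

namespace Pool.Agent.CKT

universe u v

/-- Composition with a continuous map as a continuous linear map. -/
private noncomputable def hf4_comp {X Y : Type u} [TopologicalSpace X] [CompactSpace X]
    [TopologicalSpace Y] [CompactSpace Y] (φ : C(X, Y)) : C(Y, ℝ) →L[ℝ] C(X, ℝ) :=
  LinearMap.mkContinuous
    { toFun := fun f => f.comp φ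
      map_add' := fun _ _ => rfl
      map_smul' := fun _ _ => rfl } 1 (fun f => by
        rw [one_mul]
        exact (ContinuousMap.norm_le _ (norm_nonneg f)).2 fun x => f.norm_coe_le_norm (φ x))

private theorem hf4_comp_apply {X Y : Type u} [TopologicalSpace X] [CompactSpace X]
    [TopologicalSpace Y] [CompactSpace Y] (φ : C(X, Y)) (f : C(Y, ℝ)) (x : X) :
    hf4_comp φ f x = f (φ x) := rfl

private theorem hf4_comp_norm {X Y : Type u} [TopologicalSpace X] [CompactSpace X]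
    [TopologicalSpace Y] [CompactSpace Y] (φ : C(X, Y)) (f : C(Y, ℝ)) :
    ‖hf4_comp φ f‖ ≤ ‖f‖ :=
  (ContinuousMap.norm_le _ (norm_nonneg f)).2 fun x => f.norm_coe_le_norm (φ x)

/-- The section of a function on a product. -/
private def hf4_sec {K L : Type u} [TopologicalSpace K] [TopologicalSpace L]
    (f : C(K × L, ℝ)) (x : K) : C(L, ℝ) := f.curry x

private theorem hf4_sec_apply {K L : Type u} [TopologicalSpace K] [TopologicalSpace L]
    (f : C(K × L, ℝ)) (x : K) (y : L) : hf4_sec f x y = f (x, y) := rfl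

private theorem hf4_sec_norm {K L : Type u} [TopologicalSpace K] [TopologicalSpace L]
    [CompactSpace K] [CompactSpace L]
    (f : C(K × L, ℝ)) (x : K) : ‖hf4_sec f x‖ ≤ ‖f‖ :=
  (ContinuousMap.norm_le _ (norm_nonneg f)).2 fun y => f.norm_coe_le_norm (x, y)

private theorem hf4_sec_cont {K L : Type u} [TopologicalSpace K] [TopologicalSpace L]
    (f : C(K × L, ℝ)) : Continuous (hf4_sec f) := f.curry.continuous

/-- A functional on the second factor applied to all sections. -/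
private noncomputable def hf4_lift {K L : Type u} [TopologicalSpace K] [TopologicalSpace L]
    [CompactSpace K] [CompactSpace L] (S : C(L, ℝ) →L[ℝ] ℝ) (q : ℝ)
    (hS : ∀ f, |S f| ≤ q * ‖f‖) (hq : 0 ≤ q) :
    C(K × L, ℝ) →L[ℝ] C(K, ℝ) :=
  LinearMap.mkContinuous
    { toFun := fun f => ⟨fun x => S (hf4_sec f x), S.continuous.comp (hf4_sec_cont f)⟩
      map_add' := fun f g => by
        ext x
        change S (hf4_sec (f + g) x) = S (hf4_sec f x) + S (hf4_sec g x)
        rw [← map_add]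
        rfl
      map_smul' := fun c f => by
        ext x
        change S (hf4_sec (c • f) x) = c • S (hf4_sec f x)
        rw [← map_smul]
        rfl } q (fun f => by
        refine (ContinuousMap.norm_le _ (mul_nonneg hq (norm_nonneg f))).2 fun x => ?_
        refine (Real.norm_eq_abs _).le.trans ((hS (hf4_sec f x)).trans ?_)
        exact mul_le_mul_of_nonneg_left (hf4_sec_norm f x) hq)

private theorem hf4_lift_apply {K L : Type u} [TopologicalSpace K] [TopologicalSpace L]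
    [CompactSpace K] [CompactSpace L] (S : C(L, ℝ) →L[ℝ] ℝ) (q : ℝ)
    (hS : ∀ f, |S f| ≤ q * ‖f‖) (hq : 0 ≤ q) (f : C(K × L, ℝ)) (x : K) :
    hf4_lift S q hS hq f x = S (hf4_sec f x) := rfl

private theorem hf4_lift_norm {K L : Type u} [TopologicalSpace K] [TopologicalSpace L]
    [CompactSpace K] [CompactSpace L] (S : C(L, ℝ) →L[ℝ] ℝ) (q : ℝ)
    (hS : ∀ f, |S f| ≤ q * ‖f‖) (hq : 0 ≤ q) (f : C(K × L, ℝ)) :
    ‖hf4_lift S q hS hq f‖ ≤ q * ‖f‖ := by
  refine (ContinuousMap.norm_le _ (mul_nonneg hq (norm_nonneg f))).2 fun x => ?_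
  refine (Real.norm_eq_abs _).le.trans ((hS (hf4_sec f x)).trans ?_)
  exact mul_le_mul_of_nonneg_left (hf4_sec_norm f x) hq

/-- Finitely many functionals of bounded colour are large on a function. -/
private theorem hf4_fin_le {K : Type u} [TopologicalSpace K] [CompactSpace K] {e : K}
    {ι : Type (u + 1)} {T : ι → (C(K, ℝ) →L[ℝ] ℝ)} {C : ι → Set K} {P : ι → ℕ}
    (h : FSys K e ι T C P) (f : C(K, ℝ)) (m : ℕ) (ε : ℝ) (hε : 0 < ε) :
    {j | P j ≤ m ∧ ε ≤ |T j f|}.Finite := by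
  have h1 : {j | P j ≤ m ∧ ε ≤ |T j f|} ⊆
      ⋃ a ∈ Set.Iic m, {j | P j = a ∧ ε ≤ |T j f|} := by
    intro j hj
    simp only [Set.mem_iUnion]
    exact ⟨P j, hj.1, rfl, hj.2⟩
  exact ((Set.finite_Iic m).biUnion fun a _ => h.fin f a ε hε).subset h1

/-- Finitely many functionals of bounded colour are large on some section. -/
private theorem hf4_fin_sec {K L : Type u} [TopologicalSpace K] [TopologicalSpace L]
    [CompactSpace K] [CompactSpace L] {e : L}
    {ι : Type (u + 1)} {T : ι → (C(L, ℝ) →L[ℝ] ℝ)} {C : ι → Set L} {P : ι → ℕ}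
    (h : FSys L e ι T C P) (f : C(K × L, ℝ)) (m : ℕ) (δ : ℝ) (hδ : 0 < δ) :
    {j | P j ≤ m ∧ ∃ x : K, δ ≤ |T j (hf4_sec f x)|}.Finite := by
  have hm : (0 : ℝ) < m + 1 := by positivity
  set d : ℝ := δ / (2 * (m + 1)) with hd
  have hd0 : 0 < d := by positivity
  have hcomp : IsCompact (range (hf4_sec f)) := isCompact_range (hf4_sec_cont f)
  obtain ⟨t, ht1, ht2, ht3⟩ := hcomp.finite_cover_balls hd0
  have h1 : {j | P j ≤ m ∧ ∃ x : K, δ ≤ |T j (hf4_sec f x)|} ⊆
      ⋃ g ∈ t, {j | P j ≤ m ∧ d ≤ |T j g|} := by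
    rintro j ⟨hj, x, hx⟩
    have hx1 : hf4_sec f x ∈ ⋃ g ∈ t, Metric.ball g d := ht3 ⟨x, rfl⟩
    simp only [Set.mem_iUnion] at hx1 ⊢
    obtain ⟨g, hg, hxg⟩ := hx1
    refine ⟨g, hg, hj, ?_⟩
    by_contra hcon
    push Not at hcon
    have h2 : T j (hf4_sec f x) = T j g + T j (hf4_sec f x - g) := by
      rw [← map_add]
      congr 1
      abel
    have h3 : |T j (hf4_sec f x - g)| ≤ m * d := by
      refine (h.bd j _).trans ?_
      have h4 : ‖hf4_sec f x - g‖ ≤ d := by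
        rw [Metric.mem_ball, dist_eq_norm] at hxg
        exact hxg.le
      have h5 : (P j : ℝ) ≤ m := by exact_mod_cast hj
      exact mul_le_mul h5 h4 (norm_nonneg _) (Nat.cast_nonneg m)
    have h4 : |T j (hf4_sec f x)| ≤ |T j g| + |T j (hf4_sec f x - g)| := by
      rw [h2]
      exact abs_add_le _ _
    have h5 : (m + 1 : ℝ) * d = δ / 2 := by
      rw [hd]
      field_simp
    nlinarith
  exact (ht2.biUnion fun g _ => hf4_fin_le h g m d hd0).subset h1

/-- Index type, functionals, sets and colours of the product. -/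
private noncomputable def hf4_T {K L : Type u} [TopologicalSpace K] [TopologicalSpace L]
    [CompactSpace K] [CompactSpace L] (e : K × L) {ι ι' : Type (u + 1)}
    (T : ι → (C(K, ℝ) →L[ℝ] ℝ)) (S : ι' → (C(L, ℝ) →L[ℝ] ℝ)) (Q : ι' → ℕ)
    (hS : ∀ j f, |S j f| ≤ Q j * ‖f‖) :
    ι ⊕ ι' ⊕ (ι × ι') → (C(K × L, ℝ) →L[ℝ] ℝ)
  | Sum.inl i => (T i).comp (hf4_comp ⟨fun x => (x, e.2), by fun_prop⟩)
  | Sum.inr (Sum.inl j) => (S j).comp (hf4_comp ⟨fun y => (e.1, y), by fun_prop⟩)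
  | Sum.inr (Sum.inr ij) =>
      (T ij.1).comp (hf4_lift (S ij.2) (Q ij.2) (hS ij.2) (Nat.cast_nonneg _))

private def hf4_C {K L : Type u} {ι ι' : Type (u + 1)} (C : ι → Set K) (D : ι' → Set L) :
    ι ⊕ ι' ⊕ (ι × ι') → Set (K × L)
  | Sum.inl i => {p | p.1 ∈ C i}
  | Sum.inr (Sum.inl j) => {p | p.2 ∈ D j}
  | Sum.inr (Sum.inr ij) => {p | p.1 ∈ C ij.1}

private def hf4_P {ι ι' : Type (u + 1)} (P : ι → ℕ) (Q : ι' → ℕ) :
    ι ⊕ ι' ⊕ (ι × ι') → ℕ
  | Sum.inl i => P i
  | Sum.inr (Sum.inl j) => Q j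
  | Sum.inr (Sum.inr ij) => Nat.pair (P ij.1) (Q ij.2) + P ij.1 * Q ij.2

/-- Row HF4: products of spaces with systems of functionals. -/
theorem hasF_prod (K L : Type u) [TopologicalSpace K] [TopologicalSpace L] [CompactSpace K]
    [CompactSpace L] [T2Space K] [T2Space L] (h : HasF K) (h' : HasF L) : HasF (K × L) := by
  intro e
  obtain ⟨ι, T, C, P, hT⟩ := h e.1
  obtain ⟨ι', S, D, Q, hS⟩ := h' e.2
  refine ⟨ι ⊕ ι' ⊕ (ι × ι'), hf4_T e T S Q hS.bd, hf4_C C D, hf4_P P Q, ?_, ?_, ?_, ?_, ?_, ?_⟩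
  · rintro (i | j | ⟨i, j⟩)
    · exact (hT.closed i).preimage continuous_fst
    · exact (hS.closed j).preimage continuous_snd
    · exact (hT.closed i).preimage continuous_fst
  · rintro (i | j | ⟨i, j⟩)
    · exact hT.ne i
    · exact hS.ne j
    · exact hT.ne i
  · rintro (i | j | ⟨i, j⟩)
    · obtain ⟨E, hE, hE'⟩ := hT.loc i
      refine ⟨E ×ˢ {e.2}, hE.prod (Set.finite_singleton _), fun f hf => ?_⟩
      refine hE' _ fun x hx => ?_
      exact hf (x, e.2) ⟨hx, rfl⟩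
    · obtain ⟨E, hE, hE'⟩ := hS.loc j
      refine ⟨{e.1} ×ˢ E, (Set.finite_singleton _).prod hE, fun f hf => ?_⟩
      refine hE' _ fun y hy => ?_
      exact hf (e.1, y) ⟨rfl, hy⟩
    · obtain ⟨E, hE, hE'⟩ := hT.loc i
      obtain ⟨G, hG, hG'⟩ := hS.loc j
      refine ⟨E ×ˢ G, hE.prod hG, fun f hf => ?_⟩
      refine hE' _ fun x hx => ?_
      refine hG' _ fun y hy => ?_
      exact hf (x, y) ⟨hx, hy⟩
  · rintro (i | j | ⟨i, j⟩) f
    · exact (hT.bd i _).trans
        (mul_le_mul_of_nonneg_left (hf4_comp_norm _ f) (Nat.cast_nonneg _))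
    · exact (hS.bd j _).trans
        (mul_le_mul_of_nonneg_left (hf4_comp_norm _ f) (Nat.cast_nonneg _))
    · refine (hT.bd i _).trans ?_
      have h1 := hf4_lift_norm (K := K) (S j) (Q j) (hS.bd j) (Nat.cast_nonneg _) f
      have h2 : (P i : ℝ) * ‖hf4_lift (K := K) (S j) (Q j) (hS.bd j) (Nat.cast_nonneg _) f‖ ≤
          P i * (Q j * ‖f‖) := mul_le_mul_of_nonneg_left h1 (Nat.cast_nonneg _)
      refine h2.trans ?_
      rw [← mul_assoc]
      refine mul_le_mul_of_nonneg_right ?_ (norm_nonneg f)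
      change (P i : ℝ) * Q j ≤ ((Nat.pair (P i) (Q j) + P i * Q j : ℕ) : ℝ)
      push_cast
      have h3 : (0 : ℝ) ≤ (Nat.pair (P i) (Q j) : ℝ) := Nat.cast_nonneg _
      linarith
  · intro f m ε hε
    have hm : (0 : ℝ) < m + 1 := by positivity
    set F1 : C(K, ℝ) := hf4_comp ⟨fun x => (x, e.2), by fun_prop⟩ f with hF1
    set F2 : C(L, ℝ) := hf4_comp ⟨fun y => (e.1, y), by fun_prop⟩ f with hF2
    have h1 := hT.fin F1 m ε hε
    have h2 := hS.fin F2 m ε hε
    have h3 := hf4_fin_sec hS f m (ε / (m + 1)) (by positivity)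
    have h4 : (⋃ j ∈ {j | Q j ≤ m ∧ ∃ x : K, ε / (m + 1) ≤ |S j (hf4_sec f x)|},
        (fun i => (i, j)) '' {i | P i ≤ m ∧ ε ≤ |T i (hf4_lift (K := K) (S j) (Q j) (hS.bd j)
          (Nat.cast_nonneg _) f)|}).Finite :=
      h3.biUnion fun j _ => (hf4_fin_le hT _ m ε hε).image _
    refine ((h1.image Sum.inl).union ((h2.image (Sum.inr ∘ Sum.inl)).union
      (h4.image (Sum.inr ∘ Sum.inr)))).subset ?_
    rintro (i | j | ⟨i, j⟩) ⟨hj1, hj2⟩
    · exact Or.inl ⟨i, ⟨hj1, hj2⟩, rfl⟩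
    · exact Or.inr (Or.inl ⟨j, ⟨hj1, hj2⟩, rfl⟩)
    · refine Or.inr (Or.inr ⟨(i, j), ?_, rfl⟩)
      have h5 : Nat.pair (P i) (Q j) + P i * Q j = m := hj1
      have h6 : P i ≤ m := (Nat.left_le_pair (P i) (Q j)).trans (by omega)
      have h7 : Q j ≤ m := (Nat.right_le_pair (P i) (Q j)).trans (by omega)
      have h8 : ε ≤ |T i (hf4_lift (K := K) (S j) (Q j) (hS.bd j) (Nat.cast_nonneg _) f)| := hj2
      simp only [Set.mem_iUnion]
      refine ⟨j, ⟨h7, ?_⟩, ⟨i, ⟨h6, h8⟩, rfl⟩⟩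
      by_contra hcon
      push Not at hcon
      set g := hf4_lift (K := K) (S j) (Q j) (hS.bd j) (Nat.cast_nonneg _) f with hg
      have hne : Nonempty K := ⟨e.1⟩
      have h9 : ‖g‖ < ε / (m + 1) := by
        rw [ContinuousMap.norm_lt_iff _ (by positivity)]
        intro x
        rw [Real.norm_eq_abs]
        exact hcon x
      have h10 : |T i g| ≤ P i * ‖g‖ := hT.bd i g
      have h11 : (P i : ℝ) ≤ m := by exact_mod_cast h6
      have h12 : (P i : ℝ) * ‖g‖ ≤ m * ‖g‖ := mul_le_mul_of_nonneg_right h11 (norm_nonneg g)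
      have h13 : (m + 1 : ℝ) * ‖g‖ < ε := by
        have h14 := (lt_div_iff₀ hm).1 h9
        linarith
      have h15 := norm_nonneg g
      nlinarith
  · rintro f ⟨x, y⟩ hxy
    by_cases hx : f (x, e.2) = f e
    · have h1 : hf4_sec f x y ≠ hf4_sec f x e.2 := by
        rw [hf4_sec_apply, hf4_sec_apply, hx]
        exact hxy
      obtain ⟨j, hj1, hj2⟩ := hS.sep (hf4_sec f x) y h1
      set g := hf4_lift (K := K) (S j) (Q j) (hS.bd j) (Nat.cast_nonneg _) f with hg
      have hgx : g x ≠ 0 := hj2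
      by_cases hge : g e.1 = 0
      · have h2 : g x ≠ g e.1 := by
          rw [hge]
          exact hgx
        obtain ⟨i, hi1, hi2⟩ := hT.sep g x h2
        exact ⟨Sum.inr (Sum.inr (i, j)), hi1, hi2⟩
      · refine ⟨Sum.inr (Sum.inl j), hj1, ?_⟩
        exact hge
    · have h1 : hf4_comp ⟨fun x => (x, e.2), by fun_prop⟩ f x ≠
          hf4_comp (⟨fun x => (x, e.2), by fun_prop⟩ : C(K, K × L)) f e.1 := hx
      obtain ⟨i, hi1, hi2⟩ := hT.sep _ x h1
      exact ⟨Sum.inl i, hi1, hi2⟩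

end Pool.Agent.CKT
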