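import Pool.Agent.CKT.Defs7

/-!
# Increments whose members are in the class (MP_0211b8_an)
-/

set_option autoImplicit false

open Set Filter Topology

namespace Pool.Agent.CKT

universe u v

theorem isys_of_hasF (K : Type u) [TopologicalSpace K] [CompactSpace K] [T2Space K]
    (R Q : K → K) (hR : Continuous R) (hQ : Continuous Q) (hRR : ∀ x, R (R x) = R x)
    (hQR : ∀ x, Q (R x) = Q x) [CompactSpace (range R)] (h : HasF (range R)) (e : K) :
    ∃ (ι : Type (u + 1)) (T : ι → (C(K, ℝ) →L[ℝ] ℝ)) (C : ι → Set K) (P : ι → ℕ),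
      ISys K R Q e ι T C P := by
  let p : K → range R := fun x => ⟨R x, x, rfl⟩
  have hp : Continuous p := Continuous.subtype_mk hR _
  let i1 : C(range R, K) := ⟨Subtype.val, continuous_subtype_val⟩
  let i2 : C(range R, K) := ⟨fun y => Q y.1, hQ.comp continuous_subtype_val⟩
  let L0 : C(K, ℝ) →ₗ[ℝ] C(range R, ℝ) :=
    { toFun := fun f => f.comp i1 - f.comp i2
      map_add' := by
        intro f g
        ext y
        simp only [ContinuousMap.sub_apply, ContinuousMap.comp_apply, ContinuousMap.add_apply]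
        ring
      map_smul' := by
        intro c f
        ext y
        simp only [ContinuousMap.sub_apply, ContinuousMap.comp_apply, ContinuousMap.smul_apply,
          RingHom.id_apply, smul_eq_mul]
        ring }
  have hL0 : ∀ (f : C(K, ℝ)) (y : range R), L0 f y = f y.1 - f (Q y.1) := fun f y => rfl
  have hLn : ∀ (f : C(K, ℝ)) (M : ℝ), (∀ x, |f (R x) - f (Q x)| ≤ M) → ‖L0 f‖ ≤ M := by
    intro f M hM
    have h0 : 0 ≤ M := (abs_nonneg _).trans (hM e)
    rw [ContinuousMap.norm_le _ h0]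
    rintro ⟨_, x, rfl⟩
    rw [hL0, Real.norm_eq_abs]
    simp only [hQR]
    exact hM x
  let L : C(K, ℝ) →L[ℝ] C(range R, ℝ) := L0.mkContinuous 2 (by
    intro f
    refine hLn f _ fun x => ?_
    have h1 := f.norm_coe_le_norm (R x)
    have h2 := f.norm_coe_le_norm (Q x)
    rw [Real.norm_eq_abs] at h1 h2
    have h3 := abs_sub (f (R x)) (f (Q x))
    linarith)
  have hL : ∀ (f : C(K, ℝ)) (y : range R), L f y = f y.1 - f (Q y.1) := fun f y => rfl
  obtain ⟨ι, T, C, P, hS⟩ := h (p e)
  refine ⟨ι, fun j => (T j).comp L, fun j => p ⁻¹' (C j), P, ?_, ?_, ?_, ?_, ?_, ?_⟩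
  · exact fun j => (hS.closed j).preimage hp
  · exact fun j => hS.ne j
  · intro j
    obtain ⟨E, hE, hE'⟩ := hS.loc j
    refine ⟨(fun y : range R => y.1) '' E ∪ (fun y : range R => Q y.1) '' E,
      (hE.image _).union (hE.image _), fun f hf => ?_⟩
    refine hE' (L f) fun y hy => ?_
    rw [hL, hf y.1 (Or.inl ⟨y, hy, rfl⟩), hf (Q y.1) (Or.inr ⟨y, hy, rfl⟩), sub_zero]
  · intro j f M hM
    refine (hS.bd j (L f)).trans ?_
    exact mul_le_mul_of_nonneg_left (hLn f M hM) (Nat.cast_nonneg _)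
  · exact fun f m ε hε => hS.fin (L f) m ε hε
  · intro f x hx
    have h1 : L f (p x) ≠ L f (p e) := by
      rw [hL, hL]
      change f (R x) - f (Q (R x)) ≠ f (R e) - f (Q (R e))
      rw [hQR, hQR]
      exact hx
    exact hS.sep (L f) (p x) h1

end Pool.Agent.CKT
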