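import Pool.Agent.CKT.Defs7

/-!
# Functionals for small increments (MP_0211b8_an)
-/

set_option autoImplicit false

open Set Filter Topology

namespace Pool.Agent.CKT

universe u v

private theorem hf6_fin (K : Type u) [TopologicalSpace K] [CompactSpace K] [T2Space K]
    (R Q : K → K) (hR : Continuous R) (hQ : Continuous Q) (P : K → ℕ)
    (hP : ∀ (m : ℕ) (x : K), R x = x → Q x ≠ x →
      ∃ V ∈ 𝓝 x, {y | y ∈ V ∧ R y = y ∧ Q y ≠ y ∧ P y = m}.Finite)
    (f : C(K, ℝ)) (m : ℕ) (ε : ℝ) (hε : 0 < ε) :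
    {c : K | R c = c ∧ Q c ≠ c ∧ P c = m ∧ ε ≤ |f c - f (Q c)|}.Finite := by
  by_contra hinf
  obtain ⟨x, hx⟩ := (show ({c : K | R c = c ∧ Q c ≠ c ∧ P c = m ∧
    ε ≤ |f c - f (Q c)|}).Infinite from hinf).exists_accPt_principal
  have hcl : x ∈ closure {c : K | R c = c ∧ Q c ≠ c ∧ P c = m ∧ ε ≤ |f c - f (Q c)|} :=
    hx.clusterPt.mem_closure
  have hclosed : IsClosed {c : K | R c = c ∧ ε ≤ |f c - f (Q c)|} := by
    apply IsClosed.inter
    · exact isClosed_eq hR continuous_id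
    · exact isClosed_le continuous_const
        ((f.continuous.sub (f.continuous.comp hQ)).abs)
  have hsub : {c : K | R c = c ∧ Q c ≠ c ∧ P c = m ∧ ε ≤ |f c - f (Q c)|} ⊆
      {c : K | R c = c ∧ ε ≤ |f c - f (Q c)|} := fun c hc => ⟨hc.1, hc.2.2.2⟩
  have hx' : x ∈ {c : K | R c = c ∧ ε ≤ |f c - f (Q c)|} := closure_minimal hsub hclosed hcl
  have hQx : Q x ≠ x := by
    intro h
    have h1 : ε ≤ |f x - f (Q x)| := hx'.2
    rw [h, sub_self, abs_zero] at h1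
    linarith
  obtain ⟨V, hV, hVf⟩ := hP m x hx'.1 hQx
  have hV' : V \ ({y | y ∈ V ∧ R y = y ∧ Q y ≠ y ∧ P y = m} \ {x}) ∈ 𝓝 x := by
    refine Filter.inter_mem hV ?_
    refine (hVf.subset sdiff_subset).isClosed.isOpen_compl.mem_nhds ?_
    rintro ⟨-, h⟩
    exact h rfl
  obtain ⟨y, ⟨hy1, hy2⟩, hy3⟩ := accPt_iff_nhds.1 hx _ hV'
  exact hy1.2 ⟨⟨hy1.1, hy2.1, hy2.2.1, hy2.2.2.1⟩, hy3⟩

private noncomputable def hf6T (K : Type u) [TopologicalSpace K] [CompactSpace K] (a b : K) :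
    C(K, ℝ) →L[ℝ] ℝ := ContinuousMap.evalCLM ℝ a - ContinuousMap.evalCLM ℝ b

private theorem hf6T_apply (K : Type u) [TopologicalSpace K] [CompactSpace K] (a b : K)
    (f : C(K, ℝ)) : hf6T K a b f = f a - f b := by
  simp [hf6T]

theorem isys_small (K : Type u) [TopologicalSpace K] [CompactSpace K] [T2Space K]
    (R Q : K → K) (hR : Continuous R) (hQ : Continuous Q) (hRR : ∀ x, R (R x) = R x)
    (hQR : ∀ x, Q (R x) = Q x) (hRQ : ∀ x, R (Q x) = Q x) (h : Small K R Q) (e : K) :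
    ∃ (ι : Type (u + 1)) (T : ι → (C(K, ℝ) →L[ℝ] ℝ)) (C : ι → Set K) (P : ι → ℕ),
      ISys K R Q e ι T C P := by
  classical
  obtain ⟨P, hP⟩ := h
  -- the neighbourhoods of `R e`
  have hVn : ∀ n : ℕ, ∃ V : Set K, IsOpen V ∧ (Q e ≠ R e → R e ∈ V) ∧
      ∀ y ∈ V, R y = y → Q y ≠ y → P y = n → Q e ≠ R e → y = R e := by
    intro n
    by_cases hQe : Q e = R e
    · exact ⟨univ, isOpen_univ, fun _ => mem_univ _, fun y _ _ _ _ h => absurd hQe h⟩
    · obtain ⟨V, hV, hVf⟩ := hP n (R e) (hRR e) (by rw [hQR]; exact hQe)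
      refine ⟨interior V ∩ ({y | y ∈ V ∧ R y = y ∧ Q y ≠ y ∧ P y = n} \ {R e})ᶜ,
        isOpen_interior.inter (hVf.subset sdiff_subset).isClosed.isOpen_compl, fun _ =>
          ⟨mem_interior_iff_mem_nhds.2 hV, fun h => h.2 rfl⟩, ?_⟩
      rintro y ⟨hy1, hy2⟩ h1 h2 h3 _
      by_contra hne
      exact hy2 ⟨⟨interior_subset hy1, h1, h2, h3⟩, hne⟩
  choose V hVo hVe hVy using hVn
  have hWc : IsClosed {y : K | R y = y ∧ Q y = y} :=
    (isClosed_eq hR continuous_id).inter (isClosed_eq hQ continuous_id)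
  refine ⟨ULift.{u + 1} ({c : K // R c = c ∧ Q c ≠ c ∧ c ≠ R e} ⊕ {n : ℕ // Q e ≠ R e}),
    fun j => Sum.elim (fun c => hf6T K c.1 (Q c.1)) (fun _ => hf6T K (R e) (Q e)) j.down,
    fun j => Sum.elim (fun c => {x | R x = c.1})
      (fun n => {x | R x ∉ V n.1} ∪ {x | R x ∈ {y : K | R y = y ∧ Q y = y}}) j.down,
    fun j => Sum.elim (fun c => P c.1 + 1) (fun n => n.1 + 1) j.down, ?_, ?_, ?_, ?_, ?_, ?_⟩
  · rintro ⟨c | n⟩
    · exact isClosed_eq hR continuous_const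
    · exact ((hVo n.1).isClosed_compl.preimage hR).union (hWc.preimage hR)
  · rintro ⟨⟨c, hc⟩ | ⟨n, hn⟩⟩
    · exact fun h => hc.2.2 h.symm
    · rintro (h | h)
      · exact h (hVe n hn)
      · have h1 : Q (R e) = R e := h.2
        rw [hQR] at h1
        exact hn h1
  · rintro ⟨⟨c, hc⟩ | ⟨n, hn⟩⟩
    · refine ⟨{c, Q c}, toFinite _, fun f hf => ?_⟩
      show hf6T K c (Q c) f = 0
      rw [hf6T_apply, hf c (by simp), hf (Q c) (by simp), sub_zero]
    · refine ⟨{R e, Q e}, toFinite _, fun f hf => ?_⟩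
      show hf6T K (R e) (Q e) f = 0
      rw [hf6T_apply, hf (R e) (by simp), hf (Q e) (by simp), sub_zero]
  · rintro j f M hM
    have hM0 : 0 ≤ M := (abs_nonneg _).trans (hM e)
    have hone : ∀ n : ℕ, M ≤ ((n + 1 : ℕ) : ℝ) * M := by
      intro n
      have h1 : (1 : ℝ) ≤ ((n + 1 : ℕ) : ℝ) := by
        push_cast
        have : (0 : ℝ) ≤ (n : ℝ) := Nat.cast_nonneg _
        linarith
      calc M = 1 * M := (one_mul M).symm
        _ ≤ _ := mul_le_mul_of_nonneg_right h1 hM0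
    obtain ⟨⟨c, hc⟩ | ⟨n, hn⟩⟩ := j
    · show |hf6T K c (Q c) f| ≤ ((P c + 1 : ℕ) : ℝ) * M
      rw [hf6T_apply]
      have h1 := hM c
      rw [hc.1] at h1
      exact h1.trans (hone _)
    · show |hf6T K (R e) (Q e) f| ≤ ((n + 1 : ℕ) : ℝ) * M
      rw [hf6T_apply]
      exact (hM e).trans (hone _)
  · intro f m ε hε
    have h1 := hf6_fin K R Q hR hQ P hP f (m - 1) ε hε
    have h2 : ({j : ULift.{u + 1} ({c : K // R c = c ∧ Q c ≠ c ∧ c ≠ R e} ⊕
        {n : ℕ // Q e ≠ R e}) | ∃ c, j.down = Sum.inl c ∧ R c.1 = c.1 ∧ Q c.1 ≠ c.1 ∧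
          P c.1 = m - 1 ∧ ε ≤ |f c.1 - f (Q c.1)|}).Finite := by
      refine Set.Finite.of_finite_image (f := fun j : ULift.{u + 1}
        ({c : K // R c = c ∧ Q c ≠ c ∧ c ≠ R e} ⊕ {n : ℕ // Q e ≠ R e}) =>
          Sum.elim (fun c => c.1) (fun _ => e) j.down) (h1.subset ?_) ?_
      · rintro _ ⟨⟨j⟩, ⟨c, hj, hc⟩, rfl⟩
        have hj' : j = Sum.inl c := hj
        subst hj'
        exact hc
      · rintro ⟨j⟩ ⟨c, hj, -⟩ ⟨j'⟩ ⟨c', hj', -⟩ heq
        have h3 : j = Sum.inl c := hj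
        have h4 : j' = Sum.inl c' := hj'
        subst h3
        subst h4
        have h5 : c.1 = c'.1 := heq
        rw [Subtype.ext h5]
    have h3 : ({j : ULift.{u + 1} ({c : K // R c = c ∧ Q c ≠ c ∧ c ≠ R e} ⊕
        {n : ℕ // Q e ≠ R e}) | ∃ n, j.down = Sum.inr n ∧ n.1 + 1 = m}).Finite := by
      apply Set.Subsingleton.finite
      rintro ⟨j⟩ ⟨n, hj, hn⟩ ⟨j'⟩ ⟨n', hj', hn'⟩
      have h3 : j = Sum.inr n := hj
      have h4 : j' = Sum.inr n' := hj'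
      subst h3
      subst h4
      have h5 : n.1 = n'.1 := by omega
      rw [Subtype.ext h5]
    refine (h2.union h3).subset ?_
    rintro ⟨c | n⟩ ⟨hj1, hj2⟩
    · left
      have h4 : P c.1 + 1 = m := hj1
      have h5 : ε ≤ |hf6T K c.1 (Q c.1) f| := hj2
      rw [hf6T_apply] at h5
      exact ⟨c, rfl, c.2.1, c.2.2.1, by omega, h5⟩
    · right
      exact ⟨n, rfl, hj1⟩
  · intro f x hx
    have hne : R x ≠ R e := by
      intro h1
      apply hx
      have h2 : Q x = Q e := by rw [← hQR x, h1, hQR e]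
      rw [h1, h2]
    by_cases hfx : f (R x) = f (Q x)
    · have hfe : f (R e) ≠ f (Q e) := by
        intro h1
        apply hx
        rw [hfx, h1, sub_self, sub_self]
      have hQe : Q e ≠ R e := fun h1 => hfe (by rw [h1])
      by_cases hW : Q (R x) = R x
      · refine ⟨⟨Sum.inr ⟨0, hQe⟩⟩, Or.inr ⟨hRR x, hW⟩, ?_⟩
        show hf6T K (R e) (Q e) f ≠ 0
        rw [hf6T_apply]
        exact sub_ne_zero.2 hfe
      · refine ⟨⟨Sum.inr ⟨P (R x), hQe⟩⟩, Or.inl ?_, ?_⟩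
        · intro h1
          exact hne (hVy _ _ h1 (hRR x) hW rfl hQe)
        · show hf6T K (R e) (Q e) f ≠ 0
          rw [hf6T_apply]
          exact sub_ne_zero.2 hfe
    · have hI : Q (R x) ≠ R x := by
        rw [hQR]
        intro h1
        exact hfx (by rw [h1])
      refine ⟨⟨Sum.inl ⟨R x, hRR x, hI, hne⟩⟩, rfl, ?_⟩
      show hf6T K (R x) (Q (R x)) f ≠ 0
      rw [hf6T_apply, hQR]
      exact sub_ne_zero.2 hfx

end Pool.Agent.CKT
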