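import Pool.Agent.CKT.Defs7
import Pool.Agent.CKT.Ch1

/-!
Row HF7: chains of retractions, systems of functionals.
-/

set_option autoImplicit false

open Set Filter Topology

namespace Pool.Agent.CKT

universe u v

private theorem hf7_const (K : Type u) [TopologicalSpace K] (κ : Ordinal.{u})
    (r : Ordinal.{u} → K → K) (h : Chain K κ r) (f : C(K, ℝ)) (x y : K) (l : Ordinal.{u})
    (hl : l ≤ κ)
    (hc : ∀ β, β < l → f (r (Order.succ β) x) - f (r β x) =
      f (r (Order.succ β) y) - f (r β y)) :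
    f (r l x) - f (r l y) = f (r 0 x) - f (r 0 y) := by
  induction l using WellFoundedLT.induction with
  | ind l ih =>
    rcases Ordinal.zero_or_succ_or_isSuccLimit l with h0 | ⟨l', hl'⟩ | hlim
    · rw [h0]
    · subst hl'
      have h2 : l' < Order.succ l' := Order.lt_succ l'
      have h3 := hc l' h2
      have h4 := ih l' h2 (h2.le.trans hl) fun β hβ => hc β (hβ.trans h2)
      linarith
    · by_contra hne
      have hcont : Continuous fun p : K × K => f p.1 - f p.2 :=
        (f.continuous.comp continuous_fst).sub (f.continuous.comp continuous_snd)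
      have hU : {p : K × K | f p.1 - f p.2 ≠ f (r 0 x) - f (r 0 y)} ∈ 𝓝 (r l x, r l y) := by
        have h1 : IsOpen {p : K × K | f p.1 - f p.2 ≠ f (r 0 x) - f (r 0 y)} :=
          isOpen_compl_singleton.preimage hcont
        exact h1.mem_nhds hne
      rw [nhds_prod_eq, Filter.mem_prod_iff] at hU
      obtain ⟨V, hV, W, hW, hVW⟩ := hU
      obtain ⟨a, ha, ha'⟩ := h.lim l hl hlim x V hV
      obtain ⟨b, hb, hb'⟩ := h.lim l hl hlim y W hW
      have h3 : max a b < l := max_lt ha hb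
      have h4 := ha' (max a b) (le_max_left _ _) h3
      have h5 := hb' (max a b) (le_max_right _ _) h3
      have h6 := ih (max a b) h3 (h3.le.trans hl) fun β hβ => hc β (hβ.trans h3)
      exact hVW (Set.mk_mem_prod h4 h5) h6

theorem hasF_chain (K : Type u) [TopologicalSpace K] [CompactSpace K] [T2Space K]
    (κ : Ordinal.{u}) (r : Ordinal.{u} → K → K) (h : Chain K κ r) [CompactSpace (range (r 0))]
    (h0 : HasF (range (r 0)))
    (hi : ∀ a, a < κ → ∀ e : K, ∃ (ι : Type (u + 1)) (T : ι → (C(K, ℝ) →L[ℝ] ℝ))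
      (C : ι → Set K) (P : ι → ℕ), ISys K (r (Order.succ a)) (r a) e ι T C P) : HasF K := by
  classical
  intro e
  have hr0 : Continuous (r 0) := h.cont 0 zero_le
  let i0 : C(range (r 0), K) := ⟨Subtype.val, continuous_subtype_val⟩
  let p0 : K → range (r 0) := fun x => ⟨r 0 x, mem_range_self x⟩
  have hp0 : Continuous p0 := hr0.subtype_mk _
  obtain ⟨ι₀, T₀, C₀, P₀, S₀⟩ := h0 (p0 e)
  have hsub : ∀ a : {a : Ordinal.{u} // a < κ}, ∃ (ι : Type (u + 1))
      (T : ι → (C(K, ℝ) →L[ℝ] ℝ)) (C : ι → Set K) (P : ι → ℕ),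
      ISys K (r (Order.succ a.1)) (r a.1) e ι T C P := fun a => hi a.1 a.2 e
  choose ι T C P S using hsub
  -- precomposition with the inclusion
  have hnorm : ∀ f : C(K, ℝ), ‖f.comp i0‖ ≤ ‖f‖ := by
    intro f
    rw [ContinuousMap.norm_le _ (norm_nonneg f)]
    intro x
    exact f.norm_coe_le_norm (i0 x)
  let J : C(K, ℝ) →L[ℝ] C(range (r 0), ℝ) := LinearMap.mkContinuous
    { toFun := fun f => f.comp i0
      map_add' := fun f g => rfl
      map_smul' := fun c f => rfl } 1 (fun f => by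
        rw [one_mul]
        exact hnorm f)
  have hJ : ∀ f : C(K, ℝ), J f = f.comp i0 := fun f => rfl
  have hJx : ∀ (f : C(K, ℝ)) (x : K), (J f) (p0 x) = f (r 0 x) := fun f x => rfl
  have hnn : ∀ f : C(K, ℝ), (0 : ℝ) ≤ ‖f‖ := fun f => norm_nonneg f
  have habs : ∀ (f : C(K, ℝ)) (x : K), |f x| ≤ ‖f‖ := fun f x => f.norm_coe_le_norm x
  refine ⟨ι₀ ⊕ (Σ a : {a : Ordinal.{u} // a < κ}, ι a),
    Sum.elim (fun j => (T₀ j).comp J) (fun j => T j.1 j.2),
    Sum.elim (fun j => p0 ⁻¹' C₀ j) (fun j => C j.1 j.2),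
    Sum.elim (fun j => P₀ j) (fun j => 2 * P j.1 j.2), ?_⟩
  constructor
  · rintro (j | ⟨a, j⟩)
    · exact (S₀.closed j).preimage hp0
    · exact (S a).closed j
  · rintro (j | ⟨a, j⟩)
    · exact S₀.ne j
    · exact (S a).ne j
  · rintro (j | ⟨a, j⟩)
    · obtain ⟨E, hE, hE'⟩ := S₀.loc j
      refine ⟨Subtype.val '' E, hE.image _, fun f hf => ?_⟩
      exact hE' (J f) fun x hx => hf x.1 ⟨x, hx, rfl⟩
    · exact (S a).loc j
  · rintro (j | ⟨a, j⟩) f
    · refine (S₀.bd j (J f)).trans ?_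
      exact mul_le_mul_of_nonneg_left (hnorm f) (Nat.cast_nonneg _)
    · have h1 := (S a).bd j f (2 * ‖f‖) fun x => by
        have h2 := habs f (r (Order.succ a.1) x)
        have h3 := habs f (r a.1 x)
        have h4 := abs_sub (f (r (Order.succ a.1) x)) (f (r a.1 x))
        linarith
      refine h1.trans (le_of_eq ?_)
      simp only [Sum.elim_inr]
      push_cast
      ring
  · intro f m ε hε
    have hm : (0 : ℝ) < (m : ℝ) + 1 := by positivity
    have hU : IsOpen {p : K × K | |f p.1 - f p.2| < ε / (m + 1)} :=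
      isOpen_lt (((f.continuous.comp continuous_fst).sub
        (f.continuous.comp continuous_snd)).abs) continuous_const
    have hA := chain_fin K κ r h {p : K × K | |f p.1 - f p.2| < ε / (m + 1)} hU fun x => by
      simp only [mem_ofPred_eq, sub_self, abs_zero]
      positivity
    have h1 : (Sum.inl '' {j : ι₀ | P₀ j = m ∧ ε ≤ |T₀ j (J f)|} :
        Set (ι₀ ⊕ (Σ a : {a : Ordinal.{u} // a < κ}, ι a))).Finite :=
      (S₀.fin (J f) m ε hε).image _
    have hA' : ((Subtype.val : {a : Ordinal.{u} // a < κ} → Ordinal.{u}) ⁻¹'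
        {β | β < κ ∧ ∃ x, r (Order.succ β) x = x ∧
          (x, r β x) ∉ {p : K × K | |f p.1 - f p.2| < ε / (m + 1)}}).Finite :=
      hA.preimage Subtype.val_injective.injOn
    have h2 := hA'.biUnion (t := fun a => (fun j : ι a =>
      (Sum.inr ⟨a, j⟩ : ι₀ ⊕ (Σ a : {a : Ordinal.{u} // a < κ}, ι a))) ''
        {j : ι a | P a j = m / 2 ∧ ε ≤ |T a j f|}) fun a _ => ((S a).fin f (m / 2) ε hε).image _
    refine (h1.union h2).subset ?_
    rintro (j | ⟨a, j⟩) ⟨hj1, hj2⟩
    · exact Or.inl ⟨j, ⟨hj1, hj2⟩, rfl⟩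
    · right
      simp only [Sum.elim_inr] at hj1 hj2
      have hmem : a ∈ ((Subtype.val : {a : Ordinal.{u} // a < κ} → Ordinal.{u}) ⁻¹'
        {β | β < κ ∧ ∃ x, r (Order.succ β) x = x ∧
          (x, r β x) ∉ {p : K × K | |f p.1 - f p.2| < ε / (m + 1)}}) := by
        refine ⟨a.2, ?_⟩
        by_contra hcon
        push Not at hcon
        have ha' : Order.succ a.1 ≤ κ := Order.succ_le_of_lt a.2
        have h3 := (S a).bd j f (ε / (m + 1)) fun x => by
          have h4 := hcon (r (Order.succ a.1) x) (h.low _ _ le_rfl ha' x)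
          rw [h.low a.1 (Order.succ a.1) (Order.le_succ _) ha' x] at h4
          exact le_of_lt h4
        have h5 : ((P a j : ℕ) : ℝ) ≤ m := by
          exact_mod_cast (by omega : P a j ≤ m)
        have h6 : (P a j : ℝ) * (ε / (m + 1)) ≤ m * (ε / (m + 1)) :=
          mul_le_mul_of_nonneg_right h5 (by positivity)
        have h7 : (m : ℝ) * (ε / (m + 1)) < ε := by
          rw [mul_div_assoc', div_lt_iff₀ hm]
          nlinarith
        linarith
      refine mem_biUnion hmem ⟨j, ⟨by omega, hj2⟩, rfl⟩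
  · intro f x hfx
    by_cases hx0 : f (r 0 x) = f (r 0 e)
    · have hex : ∃ β, β < κ ∧ f (r (Order.succ β) x) - f (r β x) ≠
          f (r (Order.succ β) e) - f (r β e) := by
        by_contra hcon
        push Not at hcon
        have h1 := hf7_const K κ r h f x e κ le_rfl hcon
        rw [h.last, h.last, hx0, sub_self] at h1
        exact hfx (sub_eq_zero.1 h1)
      obtain ⟨β, hβ, hβ'⟩ := hex
      obtain ⟨j, hj1, hj2⟩ := (S ⟨β, hβ⟩).sep f x hβ'
      exact ⟨Sum.inr ⟨⟨β, hβ⟩, j⟩, hj1, hj2⟩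
    · obtain ⟨j, hj1, hj2⟩ := S₀.sep (J f) (p0 x) hx0
      exact ⟨Sum.inl j, hj1, hj2⟩

end Pool.Agent.CKT
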