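import Pool.Agent.CKT.Defs7

set_option autoImplicit false

open Set Filter Topology

namespace Pool.Agent.CKT

universe u v

private noncomputable def HF8fun {K : Type u} [TopologicalSpace K] (U : Set K) (f : C(U, ℝ)) :
    K → ℝ := by
  classical
  exact fun x => if h : x ∈ U then f ⟨x, h⟩ else 0

private theorem HF8_in {K : Type u} [TopologicalSpace K] (U : Set K) (f : C(U, ℝ)) (x : K)
    (h : x ∈ U) : HF8fun U f x = f ⟨x, h⟩ := by
  unfold HF8fun
  exact dif_pos h

private theorem HF8_out {K : Type u} [TopologicalSpace K] (U : Set K) (f : C(U, ℝ)) (x : K)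
    (h : x ∉ U) : HF8fun U f x = 0 := by
  unfold HF8fun
  exact dif_neg h

private theorem HF8_cont {K : Type u} [TopologicalSpace K] (U : Set K) (hU : IsClopen U)
    (f : C(U, ℝ)) : Continuous (HF8fun U f) := by
  rw [continuous_iff_continuousAt]
  intro x
  by_cases h : x ∈ U
  · have h1 : ContinuousAt (HF8fun U f ∘ Subtype.val) (⟨x, h⟩ : U) := by
      have h2 : HF8fun U f ∘ Subtype.val = (f : U → ℝ) := by
        funext y
        exact HF8_in U f y.1 y.2
      rw [h2]
      exact f.continuous.continuousAt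
    exact (hU.isOpen.isOpenEmbedding_subtypeVal.continuousAt_iff).1 h1
  · have h1 : HF8fun U f =ᶠ[𝓝 x] fun _ => (0 : ℝ) := by
      filter_upwards [hU.isClosed.isOpen_compl.mem_nhds h] with y hy
      exact HF8_out U f y hy
    exact (continuousAt_const).congr h1.symm

private noncomputable def HF8ext {K : Type u} [TopologicalSpace K] [CompactSpace K] (U : Set K)
    (hU : IsClopen U) [CompactSpace U] : C(U, ℝ) →L[ℝ] C(K, ℝ) :=
  LinearMap.mkContinuous
    { toFun := fun f => ⟨HF8fun U f, HF8_cont U hU f⟩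
      map_add' := by
        intro f g
        ext x
        show HF8fun U (f + g) x = HF8fun U f x + HF8fun U g x
        by_cases h : x ∈ U
        · rw [HF8_in U _ x h, HF8_in U _ x h, HF8_in U _ x h]
          rfl
        · rw [HF8_out U _ x h, HF8_out U _ x h, HF8_out U _ x h]
          simp
      map_smul' := by
        intro c f
        ext x
        show HF8fun U (c • f) x = c * HF8fun U f x
        by_cases h : x ∈ U
        · rw [HF8_in U _ x h, HF8_in U _ x h]
          rfl
        · rw [HF8_out U _ x h, HF8_out U _ x h]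
          simp } 1 (by
    intro f
    rw [one_mul]
    refine (ContinuousMap.norm_le _ (norm_nonneg f)).2 fun x => ?_
    show ‖HF8fun U f x‖ ≤ ‖f‖
    by_cases h : x ∈ U
    · rw [HF8_in U _ x h]
      exact f.norm_coe_le_norm _
    · rw [HF8_out U _ x h]
      simp)

private theorem HF8ext_in {K : Type u} [TopologicalSpace K] [CompactSpace K] (U : Set K)
    (hU : IsClopen U) [CompactSpace U] (f : C(U, ℝ)) (x : K) (h : x ∈ U) :
    HF8ext U hU f x = f ⟨x, h⟩ := HF8_in U f x h

private theorem HF8ext_out {K : Type u} [TopologicalSpace K] [CompactSpace K] (U : Set K)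
    (hU : IsClopen U) [CompactSpace U] (f : C(U, ℝ)) (x : K) (h : x ∉ U) :
    HF8ext U hU f x = 0 := HF8_out U f x h

private theorem HF8ext_norm {K : Type u} [TopologicalSpace K] [CompactSpace K] (U : Set K)
    (hU : IsClopen U) [CompactSpace U] (f : C(U, ℝ)) : ‖HF8ext U hU f‖ ≤ ‖f‖ := by
  refine (ContinuousMap.norm_le _ (norm_nonneg f)).2 fun x => ?_
  by_cases h : x ∈ U
  · rw [HF8ext_in U hU _ x h]
    exact f.norm_coe_le_norm _
  · rw [HF8ext_out U hU _ x h]
    simp

theorem hasF_clopen (K : Type u) [TopologicalSpace K] [CompactSpace K] [T2Space K] (U : Set K)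
    (hU : IsClopen U) [CompactSpace U] (h : HasF K) : HasF U := by
  intro e
  obtain ⟨ι, T, C, P, hS⟩ := h e.1
  refine ⟨ι, fun j => (T j).comp (HF8ext U hU), fun j => Subtype.val ⁻¹' C j, P, ?_⟩
  refine ⟨fun j => (hS.closed j).preimage continuous_subtype_val, fun j => hS.ne j, ?_, ?_, ?_,
    ?_⟩
  · intro j
    obtain ⟨E, hE, hE'⟩ := hS.loc j
    refine ⟨Subtype.val ⁻¹' E, hE.preimage Subtype.val_injective.injOn, fun f hf => ?_⟩
    show T j (HF8ext U hU f) = 0
    refine hE' _ fun x hx => ?_
    by_cases hxU : x ∈ U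
    · rw [HF8ext_in U hU _ x hxU]
      exact hf ⟨x, hxU⟩ hx
    · exact HF8ext_out U hU _ x hxU
  · intro j f
    show |T j (HF8ext U hU f)| ≤ P j * ‖f‖
    exact (hS.bd j _).trans (mul_le_mul_of_nonneg_left (HF8ext_norm U hU f) (Nat.cast_nonneg _))
  · intro f m ε hε
    exact hS.fin (HF8ext U hU f) m ε hε
  · intro f x hx
    have h1 : HF8ext U hU f x.1 ≠ HF8ext U hU f e.1 := by
      rw [HF8ext_in U hU _ x.1 x.2, HF8ext_in U hU _ e.1 e.2]
      exact hx
    exact hS.sep _ _ h1

end Pool.Agent.CKT
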