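import Mathlib

/-!
# CKT, row HF9: scattered compact spaces are zero-dimensional
-/

set_option autoImplicit false

open Set Topology

universe u

namespace Pool.Agent.CKT

theorem clopen_sep (K : Type u) [TopologicalSpace K] [CompactSpace K] [T2Space K]
    (rk : K → Ordinal.{u}) (hrk : ∀ x, ∃ V ∈ 𝓝 x, ∀ y ∈ V, y ≠ x → rk y < rk x) (C : Set K)
    (hC : IsClosed C) (e : K) (he : e ∉ C) : ∃ V : Set K, IsClopen V ∧ C ⊆ V ∧ e ∉ V := by
  have : TotallyDisconnectedSpace K := by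
    refine ⟨fun t _ ht a ha b hb => ?_⟩
    by_contra hab
    obtain ⟨x, hx, hmin⟩ := (InvImage.wf rk wellFounded_lt).has_min t ⟨a, ha⟩
    obtain ⟨V, hV, hVx⟩ := hrk x
    obtain ⟨O, hOV, hO, hxO⟩ := mem_nhds_iff.1 hV
    have hc : t ⊆ O ∪ {x}ᶜ := by
      intro y hy
      by_cases h : y = x
      · rw [h]
        exact Or.inl hxO
      · exact Or.inr h
    have h2 : (t ∩ {x}ᶜ).Nonempty := by
      by_cases h : a = x
      · refine ⟨b, hb, fun h' => hab ?_⟩
        rw [h]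
        exact (mem_singleton_iff.1 h').symm
      · exact ⟨a, ha, h⟩
    obtain ⟨y, hy, hyO, hyx⟩ := ht O {x}ᶜ hO isClosed_singleton.isOpen_compl hc ⟨x, hx, hxO⟩ h2
    exact hmin y hy (hVx y (hOV hyO) hyx)
  obtain ⟨W, hW, heW, hWC⟩ := compact_exists_isClopen_in_isOpen hC.isOpen_compl
    (show e ∈ Cᶜ from he)
  exact ⟨Wᶜ, hW.compl, fun c hc hcW => hWC hcW hc, fun h => h heW⟩

end Pool.Agent.CKT
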