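import Pool.Agent.CKT.Defs7

/-!
# Increments which are contained in a member of the class (MP_0211b8_an)
-/

set_option autoImplicit false

open Set Filter Topology

namespace Pool.Agent.CKT

universe u v

private theorem hfp_core (K : Type u) [TopologicalSpace K] [CompactSpace K] [T2Space K]
    (R Q : K → K) (hR : Continuous R) (hQ : Continuous Q) (M : Set K) (hM : IsClosed M)
    [CompactSpace M] (hMR : ∀ x ∈ M, R x = x) (e : K) (e' : M)
    (ι : Type (u + 1)) (T : ι → (C(M, ℝ) →L[ℝ] ℝ)) (C : ι → Set M) (P : ι → ℕ)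
    (hS : FSys M e' ι T C P) (C₀ : Set K) (hC₀ : IsClosed C₀) (he : e ∉ C₀)
    (hne : ∀ j, ∀ h : R e ∈ M, (⟨R e, h⟩ : M) ∉ C j)
    (hsep : ∀ (f : C(K, ℝ)) (x : K), f (R x) - f (Q x) ≠ f (R e) - f (Q e) →
      (R x ∈ M ∧ f (R x) - f (Q (R x)) ≠ f e'.1 - f (Q e'.1)) ∨
      (x ∈ C₀ ∧ f e'.1 - f (Q e'.1) ≠ 0)) (hQR : ∀ x, Q (R x) = Q x) :
    ∃ (ι : Type (u + 1)) (T : ι → (C(K, ℝ) →L[ℝ] ℝ)) (C : ι → Set K) (P : ι → ℕ),
      ISys K R Q e ι T C P := by
  let i1 : C(M, K) := ⟨Subtype.val, continuous_subtype_val⟩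
  let i2 : C(M, K) := ⟨fun y => Q y.1, hQ.comp continuous_subtype_val⟩
  let L0 : C(K, ℝ) →ₗ[ℝ] C(M, ℝ) :=
    { toFun := fun f => f.comp i1 - f.comp i2
      map_add' := by
        intro f g
        ext y
        simp only [ContinuousMap.sub_apply, ContinuousMap.comp_apply, ContinuousMap.add_apply]
        ring
      map_smul' := by
        intro c f
        ext y
        simp only [ContinuousMap.sub_apply, ContinuousMap.comp_apply, ContinuousMap.smul_apply,
          RingHom.id_apply, smul_eq_mul]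
        ring }
  have hL0 : ∀ (f : C(K, ℝ)) (y : M), L0 f y = f y.1 - f (Q y.1) := fun f y => rfl
  have hLn : ∀ (f : C(K, ℝ)) (B : ℝ), (∀ x, |f (R x) - f (Q x)| ≤ B) → ‖L0 f‖ ≤ B := by
    intro f B hB
    have h0 : 0 ≤ B := (abs_nonneg _).trans (hB e)
    rw [ContinuousMap.norm_le _ h0]
    rintro ⟨x, hx⟩
    rw [hL0, Real.norm_eq_abs]
    have h1 := hB x
    rwa [hMR x hx] at h1
  let L : C(K, ℝ) →L[ℝ] C(M, ℝ) := L0.mkContinuous 2 (by
    intro f
    refine hLn f _ fun x => ?_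
    have h1 := f.norm_coe_le_norm (R x)
    have h2 := f.norm_coe_le_norm (Q x)
    rw [Real.norm_eq_abs] at h1 h2
    have h3 := abs_sub (f (R x)) (f (Q x))
    linarith)
  have hL : ∀ (f : C(K, ℝ)) (y : M), L f y = f y.1 - f (Q y.1) := fun f y => rfl
  let T' : Option ι → (C(K, ℝ) →L[ℝ] ℝ) := fun j =>
    j.elim ((ContinuousMap.evalCLM ℝ e').comp L) fun j => (T j).comp L
  have hT0 : ∀ f, T' none f = f e'.1 - f (Q e'.1) := fun f => rfl
  have hT1 : ∀ j f, T' (some j) f = T j (L f) := fun j f => rfl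
  let C' : Option ι → Set K := fun j => j.elim C₀ fun j => R ⁻¹' (Subtype.val '' (C j))
  have hC0' : C' none = C₀ := rfl
  have hC1' : ∀ j, C' (some j) = R ⁻¹' (Subtype.val '' (C j)) := fun j => rfl
  let P' : Option ι → ℕ := fun j => j.elim 1 fun j => P j
  refine ⟨Option ι, T', C', P', ?_, ?_, ?_, ?_, ?_, ?_⟩
  · intro j
    rcases j with _ | j
    · exact hC₀
    · exact ((hM.isClosedEmbedding_subtypeVal.isClosedMap _ (hS.closed j))).preimage hR
  · intro j
    rcases j with _ | j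
    · exact he
    · rintro ⟨⟨y, hy⟩, hyC, hyR⟩
      have h1 : y = R e := hyR
      subst h1
      exact hne j hy hyC
  · intro j
    rcases j with _ | j
    · refine ⟨{e'.1, Q e'.1}, (finite_singleton _).insert _, fun f hf => ?_⟩
      rw [hT0, hf _ (Or.inl rfl), hf _ (Or.inr rfl), sub_zero]
    · obtain ⟨E, hE, hE'⟩ := hS.loc j
      refine ⟨(fun y : M => y.1) '' E ∪ (fun y : M => Q y.1) '' E,
        (hE.image _).union (hE.image _), fun f hf => ?_⟩
      refine hE' (L f) fun y hy => ?_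
      rw [hL, hf y.1 (Or.inl ⟨y, hy, rfl⟩), hf (Q y.1) (Or.inr ⟨y, hy, rfl⟩), sub_zero]
  · intro j f B hB
    rcases j with _ | j
    · show |T' none f| ≤ ((1 : ℕ) : ℝ) * B
      rw [hT0, Nat.cast_one, one_mul]
      have h1 := hB e'.1
      rwa [hMR e'.1 e'.2] at h1
    · refine (hS.bd j (L f)).trans ?_
      exact mul_le_mul_of_nonneg_left (hLn f B hB) (Nat.cast_nonneg _)
  · intro f m ε hε
    refine ((hS.fin (L f) m ε hε).image some |>.insert none).subset ?_
    rintro (_ | j) ⟨h1, h2⟩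
    · exact Or.inl rfl
    · exact Or.inr ⟨j, ⟨h1, h2⟩, rfl⟩
  · intro f x hx
    rcases hsep f x hx with ⟨h1, h2⟩ | ⟨h1, h2⟩
    · obtain ⟨j, hj, hj'⟩ := hS.sep (L f) ⟨R x, h1⟩ (by rw [hL, hL]; exact h2)
      exact ⟨some j, ⟨⟨R x, h1⟩, hj, rfl⟩, hj'⟩
    · exact ⟨none, h1, h2⟩

theorem isys_of_part (K : Type u) [TopologicalSpace K] [CompactSpace K] [T2Space K]
    (R Q : K → K) (hR : Continuous R) (hQ : Continuous Q) (hRR : ∀ x, R (R x) = R x)
    (hQR : ∀ x, Q (R x) = Q x) (M : Set K) (hM : IsClosed M) [CompactSpace M]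
    (hMR : ∀ x ∈ M, R x = x) (hI : ∀ x, R x = x → Q x ≠ x → x ∈ M) (h : HasF M) (e : K) :
    ∃ (ι : Type (u + 1)) (T : ι → (C(K, ℝ) →L[ℝ] ℝ)) (C : ι → Set K) (P : ι → ℕ),
      ISys K R Q e ι T C P := by
  classical
  have key : ∀ x, R x ∉ M → Q x = R x := by
    intro x hx
    by_contra hne
    exact hx (hI (R x) (hRR x) (by rwa [hQR]))
  by_cases he : R e ∈ M
  · obtain ⟨ι, T, C, P, hS⟩ := h ⟨R e, he⟩
    refine hfp_core K R Q hR hQ M hM hMR e ⟨R e, he⟩ ι T C P hS
      (if Q e = R e then ∅ else {x | Q x = R x}) ?_ ?_ ?_ ?_ hQR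
    · split_ifs
      · exact isClosed_empty
      · exact isClosed_eq hQ hR
    · split_ifs with h1
      · exact fun h => h
      · exact h1
    · exact fun j h' => hS.ne j
    · intro f x hx
      by_cases hxM : R x ∈ M
      · refine Or.inl ⟨hxM, ?_⟩
        show f (R x) - f (Q (R x)) ≠ f (R e) - f (Q (R e))
        rwa [hQR, hQR]
      · refine Or.inr ?_
        have h1 := key x hxM
        rw [h1, sub_self] at hx
        have h2 : ¬ Q e = R e := fun h3 => hx (by rw [h3, sub_self])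
        rw [if_neg h2]
        refine ⟨h1, ?_⟩
        show f (R e) - f (Q (R e)) ≠ 0
        rw [hQR]
        exact fun h3 => hx h3.symm
  · have hQe := key e he
    rcases M.eq_empty_or_nonempty with hE | ⟨y, hy⟩
    · refine ⟨PEmpty, fun j => j.elim, fun j => j.elim, fun j => j.elim, fun j => j.elim,
        fun j => j.elim, fun j => j.elim, fun j => j.elim, fun f m ε hε => ?_, ?_⟩
      · exact Set.toFinite _
      · intro f x hx
        refine absurd ?_ hx
        rw [hQe, sub_self, key x (by rw [hE]; exact fun h => h), sub_self]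
    · obtain ⟨ι, T, C, P, hS⟩ := h ⟨y, hy⟩
      refine hfp_core K R Q hR hQ M hM hMR e ⟨y, hy⟩ ι T C P hS (R ⁻¹' M)
        (hM.preimage hR) he (fun j h' => absurd h' he) ?_ hQR
      intro f x hx
      rw [hQe, sub_self] at hx
      have hxM : R x ∈ M := by
        by_contra h1
        exact hx (by rw [key x h1, sub_self])
      by_cases h2 : f y - f (Q y) = 0
      · refine Or.inl ⟨hxM, ?_⟩
        show f (R x) - f (Q (R x)) ≠ f y - f (Q y)
        rw [h2, hQR]
        exact hx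
      · exact Or.inr ⟨hxM, h2⟩

end Pool.Agent.CKT
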