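import Pool.Agent.CKT.Defs7

/-!
# Systems of functionals and retracts (MP_0211b8_an)
-/

set_option autoImplicit false

open Set Filter Topology

namespace Pool.Agent.CKT

universe u v

theorem hasF_sect (K L : Type u) [TopologicalSpace K] [TopologicalSpace L] [CompactSpace K]
    [CompactSpace L] (p : K → L) (s : L → K) (hp : Continuous p) (hs : Continuous s)
    (hps : ∀ y, p (s y) = y) (h : HasF K) : HasF L := by
  intro e
  obtain ⟨ι, T, C, P, hS⟩ := h (s e)
  have hn : ∀ f : C(L, ℝ), ‖f.comp ⟨p, hp⟩‖ ≤ ‖f‖ := by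
    intro f
    refine (ContinuousMap.norm_le _ (norm_nonneg f)).2 fun x => ?_
    exact f.norm_coe_le_norm (p x)
  let Φ : C(L, ℝ) →L[ℝ] C(K, ℝ) := LinearMap.mkContinuous
    { toFun := fun f => f.comp ⟨p, hp⟩
      map_add' := fun f g => by
        ext x
        rfl
      map_smul' := fun a f => by
        ext x
        rfl } 1 fun f => by
      rw [one_mul]
      exact hn f
  have hΦ : ∀ f, Φ f = f.comp ⟨p, hp⟩ := fun f => rfl
  refine ⟨ι, fun j => (T j).comp Φ, fun j => s ⁻¹' (C j), P, ?_⟩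
  refine ⟨fun j => (hS.closed j).preimage hs, fun j => hS.ne j, ?_, ?_, ?_, ?_⟩
  · intro j
    obtain ⟨E, hE, hE'⟩ := hS.loc j
    refine ⟨p '' E, hE.image p, fun f hf => hE' _ fun x hx => hf (p x) ⟨x, hx, rfl⟩⟩
  · intro j f
    exact (hS.bd j (Φ f)).trans (mul_le_mul_of_nonneg_left (hn f) (Nat.cast_nonneg _))
  · intro f m ε hε
    exact hS.fin (Φ f) m ε hε
  · intro f x hx
    refine hS.sep (Φ f) (s x) ?_
    show f (p (s x)) ≠ f (p (s e))
    rwa [hps, hps]

end Pool.Agent.CKT
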