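import Pool.Agent.CKT.Defs6

/-!
# Limits of the retractions of a skeleton along directed sets (MP_0211b8_an)
-/

set_option autoImplicit false

open Set Filter Topology

namespace Pool.Agent.CKT

universe u v

private theorem sk1_point (K : Type u) [TopologicalSpace K] [CompactSpace K] [T2Space K]
    (S : Type u) [Preorder S] (r : S → K → K) (h : Skel K S r) (A : Set S)
    (hA : DirectedOn (· ≤ ·) A) (hne : A.Nonempty) (x : K) :
    ∃ y, ∀ U ∈ 𝓝 y, ∃ s ∈ A, ∀ t ∈ A, s ≤ t → r t x ∈ U := by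
  have : Nonempty A := hne.to_subtype
  have : IsDirectedOrder A := ⟨fun a b => by
    obtain ⟨c, hc, hac, hbc⟩ := hA a a.2 b b.2
    exact ⟨⟨c, hc⟩, hac, hbc⟩⟩
  obtain ⟨y, hy⟩ := exists_clusterPt_of_compactSpace (map (fun t : A => r t x) atTop)
  have hfr : ∀ z, ClusterPt z (map (fun t : A => r t x) atTop) → ∀ U ∈ 𝓝 z, ∀ s : A,
      ∃ t : A, s ≤ t ∧ r t x ∈ U := by
    intro z hz U hU s
    have h1 := (mapClusterPt_iff_frequently.1 hz) U hU
    obtain ⟨t, ht, ht'⟩ := (frequently_atTop.1 h1) s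
    exact ⟨t, ht, ht'⟩
  have huniq : ∀ z, ClusterPt z (map (fun t : A => r t x) atTop) → z = y := by
    intro z hz
    by_contra hzy
    obtain ⟨u, hzu, hu, v, hyv, hv, hdisj⟩ := exists_open_nhds_disjoint_closure hzy
    let W : ℕ → Set K := fun n => if Even n then u else v
    have hG : ∀ (n : ℕ) (s : A), ∃ t : A, s ≤ t ∧ r t x ∈ W n := by
      intro n s
      by_cases hn : Even n
      · obtain ⟨t, ht, ht'⟩ := hfr z hz u (hu.mem_nhds hzu) s
        exact ⟨t, ht, by simpa only [W, hn, if_true] using ht'⟩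
      · obtain ⟨t, ht, ht'⟩ := hfr y hy v (hv.mem_nhds hyv) s
        exact ⟨t, ht, by simpa only [W, hn, if_false] using ht'⟩
    choose G hG1 hG2 using hG
    let a0 : A := Classical.arbitrary A
    let s : ℕ → A := fun n => Nat.rec (G 0 a0) (fun m b => G (m + 1) b) n
    have hs1 : ∀ n, s n ≤ s (n + 1) := fun n => hG1 (n + 1) (s n)
    have hs2 : ∀ n, r (s n).1 x ∈ W n := by
      intro n
      cases n with
      | zero => exact hG2 0 a0
      | succ n => exact hG2 (n + 1) (s n)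
    obtain ⟨t, -, ht⟩ := h.seq (fun n => (s n).1) (monotone_nat_of_le_succ hs1)
    have ht := ht x
    have h2 : Tendsto (fun n : ℕ => 2 * n) atTop atTop :=
      tendsto_atTop_mono (fun n => by simp only [id]; omega) tendsto_id
    have h3 : Tendsto (fun n : ℕ => 2 * n + 1) atTop atTop :=
      tendsto_atTop_mono (fun n => by simp only [id]; omega) tendsto_id
    have h4 : r t x ∈ closure u := by
      refine mem_closure_of_tendsto (ht.comp h2) (Eventually.of_forall fun n => ?_)
      have h5 := hs2 (2 * n)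
      have h6 : Even (2 * n) := even_two_mul n
      simp only [W, h6, if_true] at h5
      exact h5
    have h7 : r t x ∈ closure v := by
      refine mem_closure_of_tendsto (ht.comp h3) (Eventually.of_forall fun n => ?_)
      have h5 := hs2 (2 * n + 1)
      have h6 : ¬ Even (2 * n + 1) := by
        rw [Nat.not_even_iff_odd]
        exact odd_two_mul_add_one n
      simp only [W, h6, if_false] at h5
      exact h5
    exact Set.disjoint_left.1 hdisj h4 h7
  have hle := le_nhds_of_unique_clusterPt huniq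
  refine ⟨y, fun U hU => ?_⟩
  have h1 := hle hU
  rw [mem_map, mem_atTop_sets] at h1
  obtain ⟨s, hs⟩ := h1
  exact ⟨s, s.2, fun t ht hst => hs ⟨t, ht⟩ hst⟩

theorem skel_lim (K : Type u) [TopologicalSpace K] [CompactSpace K] [T2Space K] (S : Type u)
    [Preorder S] (r : S → K → K) (h : Skel K S r) (A : Set S) (hA : DirectedOn (· ≤ ·) A)
    (hne : A.Nonempty) : ∃ R : K → K, IsLimR r A R := by
  choose R hR using sk1_point K S r h A hA hne
  refine ⟨R, ?_, hR⟩
  rw [continuous_iff_continuousAt]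
  intro x
  by_contra hx
  -- an open neighbourhood which witnesses the discontinuity
  obtain ⟨W, hW, hW'⟩ : ∃ W ∈ 𝓝 (R x), ∀ N ∈ 𝓝 x, ∃ u ∈ N, R u ∉ W := by
    by_contra hcon
    push Not at hcon
    apply hx
    intro W hW
    obtain ⟨N, hN, hN'⟩ := hcon W hW
    rw [mem_map]
    exact mem_of_superset hN fun u hu => hN' u hu
  obtain ⟨C2, hC2, hC2c, hC2W⟩ := exists_mem_nhds_isClosed_subset hW
  obtain ⟨C1, hC1, hC1c, hC12⟩ := exists_mem_nhds_isClosed_subset (interior_mem_nhds.2 hC2)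
  obtain ⟨s0, hs0A, hs0⟩ := hR x (interior C1) (interior_mem_nhds.2 hC1)
  -- the step
  have hstep : ∀ p : {s : S // s ∈ A ∧ s0 ≤ s}, ∃ (u : K) (q : {s : S // s ∈ A ∧ s0 ≤ s}),
      r p.1 u ∈ interior C1 ∧ p.1 ≤ q.1 ∧ ∀ t ∈ A, q.1 ≤ t → r t u ∉ C2 := by
    rintro ⟨s, hsA, hs⟩
    have h1 : r s x ∈ interior C1 := hs0 s hsA hs
    obtain ⟨u, hu, huW⟩ := hW' _ ((h.cont s).continuousAt (isOpen_interior.mem_nhds h1))
    have h2 : R u ∉ C2 := fun h3 => huW (hC2W h3)
    obtain ⟨s', hs'A, hs'⟩ := hR u C2ᶜ (hC2c.isOpen_compl.mem_nhds h2)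
    obtain ⟨q, hqA, hsq, hs'q⟩ := hA s hsA s' hs'A
    exact ⟨u, ⟨q, hqA, hs.trans hsq⟩, hu, hsq, fun t htA hqt => hs' t htA (hs'q.trans hqt)⟩
  choose U Q hU hQ1 hQ2 using hstep
  let p : ℕ → {s : S // s ∈ A ∧ s0 ≤ s} := fun n => Nat.rec ⟨s0, hs0A, le_rfl⟩ (fun _ b => Q b) n
  let s : ℕ → S := fun n => (p n).1
  let u : ℕ → K := fun n => U (p n)
  have hsm : Monotone s := monotone_nat_of_le_succ fun n => hQ1 (p n)
  have hsA : ∀ n, s n ∈ A := fun n => (p n).2.1
  have hu1 : ∀ n, r (s n) (u n) ∈ interior C1 := fun n => hU (p n)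
  have hu2 : ∀ n m, n + 1 ≤ m → r (s m) (u n) ∉ C2 := fun n m hnm =>
    hQ2 (p n) (s m) (hsA m) (hsm hnm)
  obtain ⟨t, ht, htl⟩ := h.seq s hsm
  let v : ℕ → K := fun n => r t (u n)
  have hv : ∀ n, v n ∈ (interior C2)ᶜ := by
    intro n
    refine isOpen_interior.isClosed_compl.mem_of_tendsto (htl (u n)) ?_
    filter_upwards [eventually_ge_atTop (n + 1)] with m hm
    exact fun h1 => hu2 n m hm (interior_subset h1)
  let w : ℕ → K := fun n => r (s n) (v n)
  have hw : ∀ n, w n ∈ C1 := by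
    intro n
    have h1 : w n = r (s n) (u n) := h.low (s n) t (ht n) (u n)
    rw [h1]
    exact interior_subset (hu1 n)
  let F : Ultrafilter ℕ := Ultrafilter.of atTop
  have hF : (F : Filter ℕ) ≤ atTop := Ultrafilter.of_le atTop
  obtain ⟨y, hy⟩ : ∃ y, Tendsto v F (𝓝 y) := ⟨_, (F.map v).le_nhds_lim⟩
  obtain ⟨z, hz⟩ : ∃ z, Tendsto w F (𝓝 z) := ⟨_, (F.map w).le_nhds_lim⟩
  have hyC : y ∈ (interior C2)ᶜ :=
    isOpen_interior.isClosed_compl.mem_of_tendsto hy (Eventually.of_forall hv)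
  have hzC : z ∈ C1 := hC1c.mem_of_tendsto hz (Eventually.of_forall hw)
  have hsz : ∀ m, r (s m) z = r (s m) y := by
    intro m
    have h1 : Tendsto (fun n => r (s m) (w n)) F (𝓝 (r (s m) z)) :=
      ((h.cont (s m)).tendsto z).comp hz
    have h2 : Tendsto (fun n => r (s m) (v n)) F (𝓝 (r (s m) y)) :=
      ((h.cont (s m)).tendsto y).comp hy
    refine tendsto_nhds_unique_of_eventuallyEq h1 h2 (hF ?_)
    filter_upwards [eventually_ge_atTop m] with n hn
    exact h.low (s m) (s n) (hsm hn) (v n)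
  have hty : r t y = y := by
    have h1 : Tendsto (fun n => r t (v n)) F (𝓝 (r t y)) := ((h.cont t).tendsto y).comp hy
    exact tendsto_nhds_unique_of_eventuallyEq h1 hy
      (Eventually.of_forall fun n => h.low t t le_rfl (u n))
  have htz : r t z = z := by
    have h1 : Tendsto (fun n => r t (w n)) F (𝓝 (r t z)) := ((h.cont t).tendsto z).comp hz
    exact tendsto_nhds_unique_of_eventuallyEq h1 hz
      (Eventually.of_forall fun n => h.up (s n) t (ht n) (v n))
  have hyz : y = z := by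
    have h1 := htl y
    have h2 := htl z
    rw [hty] at h1
    rw [htz] at h2
    have h3 : (fun n => r (s n) z) = fun n => r (s n) y := funext hsz
    rw [h3] at h2
    exact tendsto_nhds_unique h1 h2
  exact hyC (hC12 (by rw [hyz]; exact hzC))

end Pool.Agent.CKT
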