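import Pool.Agent.CKT.Defs6

/-!
# Pointwise limits of the retractions of a skeleton (MP_0211b8_an)
-/

set_option autoImplicit false

open Set Filter Topology

namespace Pool.Agent.CKT

universe u v

theorem limR_low (K : Type u) [TopologicalSpace K] [T2Space K] (S : Type u)
    [Preorder S] (r : S → K → K) (h : Skel K S r) (A : Set S) (hA : DirectedOn (· ≤ ·) A)
    (R : K → K) (hR : IsLimR r A R) (s : S) (hs : s ∈ A) (x : K) : r s (R x) = r s x := by
  by_contra hne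
  obtain ⟨U, V, hU, hV, hxU, hxV, hUV⟩ := t2_separation hne
  have h1 : (r s) ⁻¹' U ∈ 𝓝 (R x) := (h.cont s).continuousAt (hU.mem_nhds hxU)
  obtain ⟨s', hs', h2⟩ := hR.2 x _ h1
  obtain ⟨t, ht, hst, hs't⟩ := hA s hs s' hs'
  have h3 : r s (r t x) ∈ U := h2 t ht hs't
  rw [h.low s t hst] at h3
  exact Set.disjoint_left.1 hUV h3 hxV

theorem limR_up (K : Type u) [TopologicalSpace K] [T2Space K] (S : Type u)
    [Preorder S] (r : S → K → K) (h : Skel K S r) (A : Set S) (hA : DirectedOn (· ≤ ·) A)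
    (R : K → K) (hR : IsLimR r A R) (s : S) (hs : s ∈ A) (x : K) : R (r s x) = r s x := by
  by_contra hne
  obtain ⟨U, V, hU, hV, hxU, hxV, hUV⟩ := t2_separation hne
  obtain ⟨s', hs', h2⟩ := hR.2 (r s x) _ (hU.mem_nhds hxU)
  obtain ⟨t, ht, hst, hs't⟩ := hA s hs s' hs'
  have h3 : r t (r s x) ∈ U := h2 t ht hs't
  rw [h.up s t hst] at h3
  exact Set.disjoint_left.1 hUV h3 hxV

theorem limR_limR (K : Type u) [TopologicalSpace K] [T2Space K] (S : Type u)
    [Preorder S] (r : S → K → K) (h : Skel K S r) (A B : Set S) (hA : DirectedOn (· ≤ ·) A)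
    (hB : DirectedOn (· ≤ ·) B) (hAB : A ⊆ B) (R Q : K → K) (hR : IsLimR r A R)
    (hQ : IsLimR r B Q) (x : K) : R (Q x) = R x ∧ Q (R x) = R x := by
  constructor
  · by_contra hne
    obtain ⟨U, V, hU, hV, hxU, hxV, hUV⟩ := t2_separation hne
    obtain ⟨s', hs', h2⟩ := hR.2 (Q x) _ (hU.mem_nhds hxU)
    obtain ⟨s'', hs'', h3⟩ := hR.2 x _ (hV.mem_nhds hxV)
    obtain ⟨t, ht, hs't, hs''t⟩ := hA s' hs' s'' hs''
    have h4 : r t (Q x) ∈ U := h2 t ht hs't
    rw [limR_low K S r h B hB Q hQ t (hAB ht) x] at h4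
    exact Set.disjoint_left.1 hUV h4 (h3 t ht hs''t)
  · by_contra hne
    obtain ⟨U, V, hU, hV, hxU, hxV, hUV⟩ := t2_separation hne
    have h1 : Q ⁻¹' U ∩ V ∈ 𝓝 (R x) :=
      Filter.inter_mem (hQ.1.continuousAt (hU.mem_nhds hxU)) (hV.mem_nhds hxV)
    obtain ⟨t, ht, h2⟩ := hR.2 x _ h1
    have h3 := h2 t ht le_rfl
    have h4 : Q (r t x) ∈ U := h3.1
    rw [limR_up K S r h B hB Q hQ t (hAB ht) x] at h4
    exact Set.disjoint_left.1 hUV h4 h3.2

end Pool.Agent.CKT
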