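import Pool.Agent.CKT.Defs6
import Pool.Agent.CKT.Sk2

set_option autoImplicit false

open Set Filter Topology

namespace Pool.Agent.CKT

universe u v

/-- SK3: the chain of a chain of directed sets. -/
theorem chainq_of_sets (K : Type u) [TopologicalSpace K] [CompactSpace K] [T2Space K]
    (S : Type u) [Preorder S] (r : S → K → K) (h : Skel K S r) (κ : Ordinal.{u})
    (B : Ordinal.{u} → Set S) (hB : ∀ a, a ≤ κ → DirectedOn (· ≤ ·) (B a) ∧ (B a).Nonempty)
    (hm : ∀ a b, a ≤ b → b ≤ κ → B a ⊆ B b)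
    (hl : ∀ l, l ≤ κ → Order.IsSuccLimit l → B l = ⋃ a < l, B a)
    (R : Ordinal.{u} → K → K) (hR : ∀ a, a ≤ κ → IsLimR r (B a) (R a)) : ChainQ K κ R := by
  refine ⟨fun a ha => (hR a ha).1, ?_, ?_, ?_⟩
  · intro a b hab hb x
    exact (limR_limR K S r h (B a) (B b) (hB a (hab.trans hb)).1 (hB b hb).1 (hm a b hab hb)
      (R a) (R b) (hR a (hab.trans hb)) (hR b hb) x).1
  · intro a b hab hb x
    exact (limR_limR K S r h (B a) (B b) (hB a (hab.trans hb)).1 (hB b hb).1 (hm a b hab hb)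
      (R a) (R b) (hR a (hab.trans hb)) (hR b hb) x).2
  · intro l hlk hlim x U hU
    obtain ⟨U', hU', hcl, hsub⟩ := exists_mem_nhds_isClosed_subset hU
    obtain ⟨s0, hs0, hs⟩ := (hR l hlk).2 x U' hU'
    have hs0' := hs0
    rw [hl l hlk hlim, mem_iUnion₂] at hs0'
    obtain ⟨a, hal, hsa⟩ := hs0'
    refine ⟨a, hal, fun b hab hbl => hsub ?_⟩
    have hbk : b ≤ κ := hbl.le.trans hlk
    by_contra hcon
    obtain ⟨s1, hs1, hs1'⟩ := (hR b hbk).2 x U'ᶜ (hcl.isOpen_compl.mem_nhds hcon)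
    obtain ⟨t, ht, h0t, h1t⟩ := (hB b hbk).1 s0 (hm a b hab hbk hsa) s1 hs1
    exact hs1' t ht h1t (hs t (hm b l hbl.le hlk ht) h0t)

end Pool.Agent.CKT
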