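import Pool.Agent.CKT.Defs6

set_option autoImplicit false

open Set Filter Topology

namespace Pool.Agent.CKT

universe u v

theorem dir_ub (S : Type u) [Preorder S] (A : Set S) (hA : DirectedOn (· ≤ ·) A)
    (hne : A.Nonempty) (F : Finset S) (hF : (F : Set S) ⊆ A) :
    ∃ w ∈ A, ∀ x ∈ F, x ≤ w := by
  classical
  induction F using Finset.induction_on with
  | empty =>
    obtain ⟨w, hw⟩ := hne
    exact ⟨w, hw, fun x hx => absurd hx (Finset.notMem_empty x)⟩
  | insert a F ha ih =>
    obtain ⟨w, hw, hw'⟩ := ih fun x hx => hF (Finset.mem_coe.2 (Finset.mem_insert_of_mem hx))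
    obtain ⟨v, hv, h1, h2⟩ := hA a (hF (Finset.mem_coe.2 (Finset.mem_insert_self a F))) w hw
    refine ⟨v, hv, fun x hx => ?_⟩
    rcases Finset.mem_insert.1 hx with rfl | hx
    · exact h1
    · exact (hw' x hx).trans h2

/-- A monotone choice of upper bounds for the finite subsets of a directed set. -/
theorem dir_mono (S : Type u) [Preorder S] (A : Set S) (hA : DirectedOn (· ≤ ·) A)
    (hne : A.Nonempty) : ∃ g : Finset S → S, (∀ F : Finset S, (F : Set S) ⊆ A → g F ∈ A) ∧
      (∀ F : Finset S, (F : Set S) ⊆ A → ∀ x ∈ F, x ≤ g F) ∧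
      ∀ F F' : Finset S, F ⊆ F' → (F' : Set S) ⊆ A → g F ≤ g F' := by
  classical
  have h0 : ∀ F : Finset S, ∃ w, (F : Set S) ⊆ A → w ∈ A ∧ ∀ x ∈ F, x ≤ w := by
    intro F
    by_cases hF : (F : Set S) ⊆ A
    · obtain ⟨w, hw, hw'⟩ := dir_ub S A hA hne F hF
      exact ⟨w, fun _ => ⟨hw, hw'⟩⟩
    · obtain ⟨w, hw⟩ := hne
      exact ⟨w, fun h => absurd h hF⟩
  choose ub hub using h0
  let g : Finset S → S := fun F => Finset.strongInduction (p := fun _ => S)
    (fun F ih => ub (F ∪ (F.ssubsets.attach.image fun t => ih t.1 (Finset.mem_ssubsets.1 t.2)))) F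
  have hg : ∀ F : Finset S, g F = ub (F ∪ F.ssubsets.attach.image fun t => g t.1) := by
    intro F
    show Finset.strongInduction _ F = _
    rw [Finset.strongInduction_eq]
  have hgA : ∀ F : Finset S, (F : Set S) ⊆ A → g F ∈ A ∧
      ((F ∪ F.ssubsets.attach.image fun t => g t.1 : Finset S) : Set S) ⊆ A := by
    intro F
    induction F using Finset.strongInduction with
    | H F ih =>
      intro hF
      have h1 : ((F ∪ F.ssubsets.attach.image fun t => g t.1 : Finset S) : Set S) ⊆ A := by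
        intro x hx
        rcases Finset.mem_union.1 (Finset.mem_coe.1 hx) with hx | hx
        · exact hF hx
        · obtain ⟨t, -, rfl⟩ := Finset.mem_image.1 hx
          have h2 := Finset.mem_ssubsets.1 t.2
          exact (ih t.1 h2 fun y hy => hF (h2.1 hy)).1
      rw [hg F]
      exact ⟨(hub _ h1).1, h1⟩
  refine ⟨g, fun F hF => (hgA F hF).1, fun F hF x hx => ?_, fun F F' hFF hF' => ?_⟩
  · rw [hg F]
    exact (hub _ (hgA F hF).2).2 x (Finset.mem_union_left _ hx)
  · rcases eq_or_ne F F' with rfl | hne'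
    · exact le_rfl
    · rw [hg F']
      refine (hub _ (hgA F' hF').2).2 _ (Finset.mem_union_right _ ?_)
      exact Finset.mem_image.2 ⟨⟨F, Finset.mem_ssubsets.2 (lt_of_le_of_ne hFF hne')⟩,
        Finset.mem_attach _ _, rfl⟩

theorem dir_chain (S : Type u) [Preorder S] (A : Set S) (hA : DirectedOn (· ≤ ·) A)
    (hne : A.Nonempty) (hunc : ¬ A.Countable) :
    ∃ (κ : Ordinal.{u}) (B : Ordinal.{u} → Set S), Order.IsSuccLimit κ ∧
      (∀ a, a ≤ κ → DirectedOn (· ≤ ·) (B a) ∧ (B a).Nonempty) ∧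
      (∀ a b, a ≤ b → b ≤ κ → B a ⊆ B b) ∧
      (∀ l, l ≤ κ → Order.IsSuccLimit l → B l = ⋃ a < l, B a) ∧ B κ = A ∧
      ∀ a < κ, Cardinal.mk (B a) < Cardinal.mk A := by
  classical
  obtain ⟨g, hgA, hgx, hgm⟩ := dir_mono S A hA hne
  have hbig : Cardinal.aleph0 < Cardinal.mk A := by
    rw [← not_le, Cardinal.le_aleph0_iff_set_countable]
    exact hunc
  obtain ⟨rel, wo, hrel⟩ := Cardinal.exists_ord_eq A
  let ρ : A → Ordinal.{u} := fun x => Ordinal.typein rel x
  have hρi : Function.Injective ρ := Ordinal.typein_injective rel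
  have hρκ : ∀ x, ρ x < (Cardinal.mk A).ord := fun x => by
    rw [hrel]
    exact Ordinal.typein_lt_type rel x
  let Z : Ordinal.{u} → Set S := fun a => Subtype.val '' {x : A | ρ x < a}
  have hZA : ∀ a, Z a ⊆ A := by
    rintro a _ ⟨x, -, rfl⟩
    exact x.2
  have hZm : ∀ a b, a ≤ b → Z a ⊆ Z b := by
    rintro a b hab _ ⟨x, hx, rfl⟩
    have hx' : ρ x < a := hx
    exact ⟨x, lt_of_lt_of_le hx' hab, rfl⟩
  let B : Ordinal.{u} → Set S := fun a => Z a ∪ g '' {F : Finset S | (F : Set S) ⊆ Z a}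
  have hBm : ∀ a b, a ≤ b → B a ⊆ B b := by
    intro a b hab
    refine union_subset_union (hZm a b hab) (image_mono ?_)
    intro F hF
    exact Subset.trans hF (hZm a b hab)
  have hBF : ∀ a, ∀ x ∈ B a, ∃ F : Finset S, (F : Set S) ⊆ Z a ∧ x ≤ g F := by
    rintro a x (hx | ⟨F, hF, rfl⟩)
    · have h1 : (({x} : Finset S) : Set S) ⊆ Z a := by
        intro y hy
        rw [Finset.coe_singleton, mem_singleton_iff] at hy
        rw [hy]
        exact hx
      exact ⟨{x}, h1, hgx {x} (h1.trans (hZA a)) x (Finset.mem_singleton_self x)⟩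
    · exact ⟨F, hF, le_rfl⟩
  refine ⟨(Cardinal.mk A).ord, B, Cardinal.isSuccLimit_ord hbig.le, fun a _ => ⟨?_, ?_⟩,
    fun a b hab _ => hBm a b hab, fun l _ hl => ?_, ?_, fun a ha => ?_⟩
  · intro x hx y hy
    obtain ⟨F, hF, hxF⟩ := hBF a x hx
    obtain ⟨F', hF', hyF⟩ := hBF a y hy
    have h1 : ((F ∪ F' : Finset S) : Set S) ⊆ Z a := by
      rw [Finset.coe_union]
      exact union_subset hF hF'
    exact ⟨g (F ∪ F'), Or.inr ⟨F ∪ F', h1, rfl⟩,
      hxF.trans (hgm _ _ Finset.subset_union_left (h1.trans (hZA a))),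
      hyF.trans (hgm _ _ Finset.subset_union_right (h1.trans (hZA a)))⟩
  · refine ⟨g ∅, Or.inr ⟨∅, ?_, rfl⟩⟩
    show ((∅ : Finset S) : Set S) ⊆ Z a
    rw [Finset.coe_empty]
    exact empty_subset _
  · apply Subset.antisymm
    · rintro x (⟨x, hx, rfl⟩ | ⟨F, hF, rfl⟩)
      · refine mem_iUnion₂.2 ⟨Order.succ (ρ x), hl.succ_lt hx, Or.inl ⟨x, ?_, rfl⟩⟩
        exact Order.lt_succ (ρ x)
      · have h1 : ∀ y : S, ∃ b : Ordinal.{u}, y ∈ F → b < l ∧ y ∈ Z b := by
          intro y
          by_cases hy : y ∈ F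
          · obtain ⟨x, hx, hxy⟩ := hF (Finset.mem_coe.2 hy)
            exact ⟨Order.succ (ρ x), fun _ => ⟨hl.succ_lt hx,
              ⟨x, Order.lt_succ (ρ x), hxy⟩⟩⟩
          · exact ⟨0, fun h => absurd h hy⟩
        choose b hb using h1
        have h2 : F.sup b < l := by
          rw [Finset.sup_lt_iff hl.bot_lt]
          exact fun y hy => (hb y hy).1
        refine mem_iUnion₂.2 ⟨F.sup b, h2, Or.inr ⟨F, ?_, rfl⟩⟩
        intro y hy
        exact hZm _ _ (Finset.le_sup (f := b) (Finset.mem_coe.1 hy)) (hb y (Finset.mem_coe.1 hy)).2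
    · exact iUnion₂_subset fun a ha => hBm a l ha.le
  · apply Subset.antisymm
    · rintro x (hx | ⟨F, hF, rfl⟩)
      · exact hZA _ hx
      · exact hgA F (Subset.trans hF (hZA _))
    · intro x hx
      exact Or.inl ⟨⟨x, hx⟩, hρκ _, rfl⟩
  · have hZc : Cardinal.mk (Z a) < Cardinal.mk A := by
      have h1 : Cardinal.mk (Z a) ≤ Cardinal.mk {x : A | ρ x < a} := Cardinal.mk_image_le
      obtain ⟨y, hy⟩ := Ordinal.typein_surj rel (hrel ▸ ha)
      have h4 : Cardinal.mk {x : A | ρ x < a} ≤ a.card := by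
        have h6 : Cardinal.mk {z : A | ρ z < a} ≤ Cardinal.mk {z : A // rel z y} := by
          refine Cardinal.mk_le_of_injective (f := fun x => ⟨x.1, ?_⟩) ?_
          · have h5 : Ordinal.typein rel x.1 < Ordinal.typein rel y := lt_of_lt_of_eq x.2 hy.symm
            exact (Ordinal.typein_lt_typein rel).1 h5
          · intro x x' h
            exact Subtype.ext (congrArg (fun z => z.1) h)
        have h7 : Cardinal.mk {z : A // rel z y} = a.card := by
          rw [← hy]
          exact (Ordinal.card_typein y).symm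
        exact h6.trans h7.le
      exact lt_of_le_of_lt (h1.trans h4) (Cardinal.lt_ord.1 ha)
    have hFc : Cardinal.mk (g '' {F : Finset S | (F : Set S) ⊆ Z a}) ≤
        Cardinal.mk (Finset (Z a)) := by
      have h1 : g '' {F : Finset S | (F : Set S) ⊆ Z a} ⊆
          range (fun F : Finset (Z a) => g (F.map (Function.Embedding.subtype _))) := by
        rintro _ ⟨F, hF, rfl⟩
        refine ⟨F.subtype (· ∈ Z a), ?_⟩
        show g ((F.subtype (· ∈ Z a)).map (Function.Embedding.subtype _)) = g F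
        rw [Finset.subtype_map_of_mem fun x hx => hF (Finset.mem_coe.2 hx)]
      exact (Cardinal.mk_le_mk_of_subset h1).trans Cardinal.mk_range_le
    have hFc' : Cardinal.mk (Finset (Z a)) < Cardinal.mk A := by
      rcases finite_or_infinite (Z a) with hfin | hinf
      · exact lt_trans (Cardinal.lt_aleph0_of_finite _) hbig
      · rw [Cardinal.mk_finset_of_infinite]
        exact hZc
    exact lt_of_le_of_lt (Cardinal.mk_union_le _ _)
      (Cardinal.add_lt_of_lt hbig.le hZc (lt_of_le_of_lt hFc hFc'))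

end Pool.Agent.CKT
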