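import Pool.Agent.CKT.Defs6

/-!
# Functionals for countable directed sets of a retractional skeleton (MP_0211b8_an)
-/

set_option autoImplicit false

open Set Filter Topology

namespace Pool.Agent.CKT

universe u v

private theorem sk7_seq {S : Type u} [Preorder S] (A : Set S) (hA : DirectedOn (· ≤ ·) A)
    (hne : A.Nonempty) (hc : A.Countable) :
    ∃ σ : ℕ → S, (∀ n, σ n ∈ A) ∧ Monotone σ ∧ ∀ a ∈ A, ∃ n, a ≤ σ n := by
  classical
  obtain ⟨g, hg⟩ := hc.exists_eq_range hne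
  have hgA : ∀ n, g n ∈ A := fun n => hg ▸ mem_range_self n
  have hub : ∀ a b : A, ∃ w : A, a.1 ≤ w.1 ∧ b.1 ≤ w.1 := by
    rintro ⟨a, ha⟩ ⟨b, hb⟩
    obtain ⟨w, hw, h1, h2⟩ := hA a ha b hb
    exact ⟨⟨w, hw⟩, h1, h2⟩
  choose d hd1 hd2 using hub
  let τ : ℕ → A := fun n => Nat.rec (⟨g 0, hgA 0⟩ : A) (fun k a => d a ⟨g (k + 1), hgA (k + 1)⟩) n
  refine ⟨fun n => (τ n).1, fun n => (τ n).2, monotone_nat_of_le_succ fun n => hd1 _ _, ?_⟩
  intro a ha
  rw [hg] at ha
  obtain ⟨n, rfl⟩ := ha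
  refine ⟨n, ?_⟩
  cases n with
  | zero => exact le_refl _
  | succ k => exact hd2 (τ k) ⟨g (k + 1), hgA (k + 1)⟩

/-- the functionals -/
private noncomputable def sk7T (K : Type u) [TopologicalSpace K] [CompactSpace K] (q : ℕ → K → K)
    (e : K) : ℕ → K → (C(K, ℝ) →L[ℝ] ℝ)
  | 0, c => ContinuousMap.evalCLM ℝ c - ContinuousMap.evalCLM ℝ (q 0 e)
  | (n + 1), c => (ContinuousMap.evalCLM ℝ c - ContinuousMap.evalCLM ℝ (q n c)) -
      (ContinuousMap.evalCLM ℝ (q (n + 1) e) - ContinuousMap.evalCLM ℝ (q n e))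

private theorem sk7T_zero (K : Type u) [TopologicalSpace K] [CompactSpace K] (q : ℕ → K → K)
    (e c : K) (f : C(K, ℝ)) : sk7T K q e 0 c f = f c - f (q 0 e) := by
  simp [sk7T]

private theorem sk7T_succ (K : Type u) [TopologicalSpace K] [CompactSpace K] (q : ℕ → K → K)
    (e c : K) (n : ℕ) (f : C(K, ℝ)) :
    sk7T K q e (n + 1) c f = (f c - f (q n c)) - (f (q (n + 1) e) - f (q n e)) := by
  simp [sk7T]

theorem lsys_countable (K : Type u) [TopologicalSpace K] [CompactSpace K] [T2Space K]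
    (S : Type u) [Preorder S] (r : S → K → K) (h : Skel K S r)
    (hcount : ∀ s, (range (r s)).Countable) (A : Set S) (hA : DirectedOn (· ≤ ·) A)
    (hne : A.Nonempty) (hc : A.Countable) (R : K → K) (hR : IsLimR r A R) (e : K) :
    ∃ (ι : Type (u + 1)) (T : ι → (C(K, ℝ) →L[ℝ] ℝ)) (s : ι → S) (c : ι → K) (P : ι → ℕ),
      LSys K S r A R e ι T s c P := by
  classical
  obtain ⟨σ, hσA, hσm, hσc⟩ := sk7_seq A hA hne hc
  have hlim : ∀ x, Tendsto (fun n => r (σ n) x) atTop (𝓝 (R x)) := by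
    intro x
    rw [tendsto_def]
    intro U hU
    obtain ⟨s, hs, hsU⟩ := hR.2 x U hU
    obtain ⟨n, hn⟩ := hσc s hs
    filter_upwards [eventually_ge_atTop n] with m hm
    exact hsU _ (hσA m) (hn.trans (hσm hm))
  have hup : ∀ n y, R (r (σ n) y) = r (σ n) y := by
    intro n y
    have h1 := hlim (r (σ n) y)
    refine tendsto_nhds_unique h1 (tendsto_const_nhds.congr' ?_)
    filter_upwards [eventually_ge_atTop n] with m hm
    exact (h.up _ _ (hσm hm) y).symm
  have hinj : ∀ n, ∃ ρ : K → ℕ, InjOn ρ (range (r (σ n))) := fun n =>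
    countable_iff_exists_injOn.1 (hcount (σ n))
  choose ρ hρ using hinj
  let q : ℕ → K → K := fun n => r (σ n)
  refine ⟨ULift.{u + 1} {p : ℕ × K // p.2 ∈ range (r (σ p.1)) ∧ p.2 ≠ r (σ p.1) e},
    fun j => sk7T K q e j.down.1.1 j.down.1.2, fun j => σ j.down.1.1, fun j => j.down.1.2,
    fun j => 4 + Nat.pair j.down.1.1 (ρ j.down.1.1 j.down.1.2), ?_, ?_, ?_, ?_, ?_, ?_⟩
  · exact fun j => hσA _
  · exact fun j => j.down.2.2
  · rintro ⟨⟨⟨n, c⟩, hc1, hc2⟩⟩
    cases n with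
    | zero =>
      refine ⟨{c, q 0 e}, toFinite _, fun f hf => ?_⟩
      show sk7T K q e 0 c f = 0
      rw [sk7T_zero, hf c (by simp), hf (q 0 e) (by simp), sub_zero]
    | succ n =>
      refine ⟨{c, q n c, q (n + 1) e, q n e}, toFinite _, fun f hf => ?_⟩
      show sk7T K q e (n + 1) c f = 0
      rw [sk7T_succ, hf c (by simp), hf (q n c) (by simp), hf (q (n + 1) e) (by simp),
        hf (q n e) (by simp)]
      simp
  · rintro ⟨⟨⟨n, c⟩, hc1, hc2⟩⟩ f M hM
    have hM0 : 0 ≤ M := (abs_nonneg _).trans (hM e)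
    have hP : 4 * M ≤ ((4 + Nat.pair n (ρ n c) : ℕ) : ℝ) * M := by
      apply mul_le_mul_of_nonneg_right _ hM0
      push_cast
      have : (0 : ℝ) ≤ (Nat.pair n (ρ n c) : ℝ) := Nat.cast_nonneg _
      linarith
    have hb : ∀ k y, |f (r (σ k) y)| ≤ M := by
      intro k y
      rw [← hup k y]
      exact hM _
    have hcM : |f c| ≤ M := by
      obtain ⟨y, hy⟩ := hc1
      have hy' : r (σ n) y = c := hy
      rw [← hy']
      exact hb n y
    show |sk7T K q e n c f| ≤ ((4 + Nat.pair n (ρ n c) : ℕ) : ℝ) * M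
    refine le_trans ?_ hP
    cases n with
    | zero =>
      rw [sk7T_zero]
      have h1 := abs_le.1 hcM
      have h2 := abs_le.1 (hb 0 e)
      have h3 : f (q 0 e) = f (r (σ 0) e) := rfl
      rw [abs_le, h3]
      constructor <;> linarith [h1.1, h1.2, h2.1, h2.2]
    | succ n =>
      rw [sk7T_succ]
      have h1 := abs_le.1 hcM
      have h2 := abs_le.1 (hb (n + 1) e)
      have h3 := abs_le.1 (hb n e)
      have h4 := abs_le.1 (hb n c)
      have h5 : f (q n e) = f (r (σ n) e) := rfl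
      have h6 : f (q (n + 1) e) = f (r (σ (n + 1)) e) := rfl
      have h7 : f (q n c) = f (r (σ n) c) := rfl
      rw [abs_le, h5, h6, h7]
      constructor <;> linarith [h1.1, h1.2, h2.1, h2.2, h3.1, h3.2, h4.1, h4.2]
  · intro f m ε _
    apply Set.Subsingleton.finite
    rintro ⟨⟨⟨n, c⟩, hc1, hc2⟩⟩ ⟨h1, -⟩ ⟨⟨⟨n', c'⟩, hc1', hc2'⟩⟩ ⟨h1', -⟩
    have h2 : 4 + Nat.pair n (ρ n c) = 4 + Nat.pair n' (ρ n' c') := h1.trans h1'.symm
    have h3 : Nat.pair n (ρ n c) = Nat.pair n' (ρ n' c') := by omega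
    rw [Nat.pair_eq_pair] at h3
    obtain ⟨h4, h5⟩ := h3
    subst h4
    have h6 : c = c' := hρ n hc1 hc1' h5
    subst h6
    rfl
  · intro f x hx
    have hex : ∃ n, f (r (σ n) x) ≠ f (r (σ n) e) := by
      by_contra hcon
      push Not at hcon
      apply hx
      have h1 : Tendsto (fun n => f (r (σ n) x)) atTop (𝓝 (f (R x))) :=
        (f.continuous.tendsto _).comp (hlim x)
      have h2 : Tendsto (fun n => f (r (σ n) e)) atTop (𝓝 (f (R e))) :=
        (f.continuous.tendsto _).comp (hlim e)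
      refine tendsto_nhds_unique h1 ?_
      simp only [hcon]
      exact h2
    have hne' : r (σ (Nat.find hex)) x ≠ r (σ (Nat.find hex)) e := by
      intro heq
      exact Nat.find_spec hex (by rw [heq])
    have hspec := Nat.find_spec hex
    have hmin := fun k => Nat.find_min hex (m := k)
    generalize Nat.find hex = n at hne' hspec hmin
    refine ⟨⟨⟨⟨n, r (σ n) x⟩, mem_range_self x, hne'⟩⟩, ?_, rfl⟩
    show sk7T K q e n (r (σ n) x) f ≠ 0
    cases n with
    | zero =>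
      rw [sk7T_zero]
      exact sub_ne_zero.2 hspec
    | succ n =>
      rw [sk7T_succ]
      have h1 : f (r (σ n) x) = f (r (σ n) e) := by
        by_contra hcon
        exact hmin n (Nat.lt_succ_self n) hcon
      have h2 : q n (r (σ (n + 1)) x) = r (σ n) x := h.low _ _ (hσm (Nat.le_succ n)) x
      have h3 : f (q n e) = f (r (σ n) e) := rfl
      have h4 : f (q (n + 1) e) = f (r (σ (n + 1)) e) := rfl
      rw [h2, h3, h4, h1]
      intro h5
      apply hspec
      linarith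

end Pool.Agent.CKT
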