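import Pool.Agent.CKT.Defs6

/-!
Row SK4: for a chain of retractions only finitely many increments of a continuous function are
large.
-/

set_option autoImplicit false

open Set Filter Topology

namespace Pool.Agent.CKT

universe u v

private theorem sk4_seq {α : Type u} [LinearOrder α] [WellFoundedLT α] (S : Set α)
    (hS : S.Infinite) : ∃ f : ℕ → α, StrictMono f ∧ ∀ n, f n ∈ S := by
  let e : ℕ ↪ S := hS.natEmbedding S
  obtain ⟨g, hg⟩ := exists_increasing_or_nonincreasing_subseq (fun a b : α => a < b)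
    (fun n => (e n : α))
  rcases hg with hg | hg
  · exact ⟨fun n => (e (g n) : α), fun m n h => hg m n h, fun n => (e (g n)).2⟩
  · exfalso
    have hlt : ∀ m n, m < n → (e (g n) : α) < (e (g m) : α) := by
      intro m n h
      rcases lt_trichotomy (e (g n) : α) (e (g m) : α) with h1 | h1 | h1
      · exact h1
      · exfalso
        have h2 := g.injective (e.injective (Subtype.ext h1))
        omega
      · exact absurd h1 (hg m n h)
    have hwf : WellFounded (fun a b : α => a < b) := wellFounded_lt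
    exact (RelEmbedding.natGT (r := fun a b : α => a < b) (fun n => (e (g n) : α))
      (fun n => hlt n (n + 1) (Nat.lt_succ_self n))).not_wellFounded hwf

/-! ROW SK4 (Sk4.lean): see Ch1.lean (chain_fin) -/
theorem chainq_fin (K : Type u) [TopologicalSpace K] [CompactSpace K] [T2Space K]
    (κ : Ordinal.{u}) (R : Ordinal.{u} → K → K) (h : ChainQ K κ R) (f : C(K, ℝ)) (ε : ℝ)
    (hε : 0 < ε) :
    {β | β < κ ∧ ∃ x, ε ≤ |f (R (Order.succ β) x) - f (R β x)|}.Finite := by
  by_contra hinf
  obtain ⟨β, hβm, hβ⟩ := sk4_seq _ hinf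
  have hκ : ∀ n, β n < κ := fun n => (hβ n).1
  choose z hz using fun n => (hβ n).2
  obtain ⟨r, hr⟩ : ∃ r, r = R := ⟨_, rfl⟩
  rw [← hr] at hz h
  obtain ⟨U, hUdef⟩ : ∃ U : Set (K × K), U = {p | |f p.1 - f p.2| < ε} := ⟨_, rfl⟩
  have hU : IsOpen U := by
    rw [hUdef]
    exact isOpen_lt ((f.continuous.comp continuous_fst).sub
      (f.continuous.comp continuous_snd)).abs continuous_const
  have hd : ∀ x, (x, x) ∈ U := by
    intro x
    rw [hUdef]
    show |f x - f x| < ε
    rw [sub_self, abs_zero]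
    exact hε
  obtain ⟨x, hxz⟩ : ∃ x : ℕ → K, x = fun n => r (Order.succ (β n)) (z n) := ⟨_, rfl⟩
  have hx : ∀ n, r (Order.succ (β n)) (x n) = x n := by
    intro n
    rw [hxz]
    exact h.low _ _ le_rfl (Order.succ_le_of_lt (hκ n)) (z n)
  have hx' : ∀ n, r (β n) (x n) = r (β n) (z n) := by
    intro n
    rw [hxz]
    exact h.low _ _ (Order.le_succ (β n)) (Order.succ_le_of_lt (hκ n)) (z n)
  have hxU : ∀ n, (x n, r (β n) (x n)) ∉ U := by
    intro n hn
    rw [hUdef] at hn
    have h1 : |f (x n) - f (r (β n) (x n))| < ε := hn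
    rw [hx' n, hxz] at h1
    exact absurd h1 (not_lt.2 (hz n))
  -- the supremum of the sequence
  obtain ⟨l, hl⟩ : ∃ l : Ordinal.{u}, l = ⨆ n, β n := ⟨_, rfl⟩
  have hβl : ∀ n, β n ≤ l := fun n => by
    rw [hl]
    exact Ordinal.le_iSup β n
  have hlκ : l ≤ κ := by
    rw [hl]
    exact Ordinal.iSup_le fun n => (hκ n).le
  have hex : ∀ a, a < l → ∃ n, a < β n := by
    intro a ha
    rw [hl] at ha
    exact Ordinal.lt_iSup_iff.1 ha
  have hsl : ∀ n, Order.succ (β n) ≤ l := fun n =>
    (Order.succ_le_of_lt (hβm (Nat.lt_succ_self n))).trans (hβl (n + 1))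
  have hlim : Order.IsSuccLimit l := by
    refine ⟨?_, ?_⟩
    · intro hmin
      have h1 : β 0 < l := (Order.lt_succ (β 0)).trans_le (hsl 0)
      exact absurd (hmin h1.le) (not_le.2 h1)
    · refine Order.isSuccPrelimit_of_succ_lt fun a ha => ?_
      obtain ⟨n, hn⟩ := hex a ha
      exact (Order.succ_le_of_lt hn).trans_lt ((Order.lt_succ (β n)).trans_le (hsl n))
  -- cluster points along an ultrafilter
  let F : Ultrafilter ℕ := Ultrafilter.of atTop
  have hF : (F : Filter ℕ) ≤ atTop := Ultrafilter.of_le atTop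
  obtain ⟨y, hy⟩ : ∃ y, Tendsto x F (𝓝 y) := ⟨_, (F.map x).le_nhds_lim⟩
  obtain ⟨y', hy'⟩ : ∃ y', Tendsto (fun n => r (β n) (x n)) F (𝓝 y') :=
    ⟨_, (F.map (fun n => r (β n) (x n))).le_nhds_lim⟩
  have hyU : (y, y') ∉ U := by
    have h1 : Tendsto (fun n => (x n, r (β n) (x n))) F (𝓝 (y, y')) := hy.prodMk_nhds hy'
    exact hU.isClosed_compl.mem_of_tendsto h1 (Eventually.of_forall hxU)
  -- below `l`, the values of the retractions at the two points agree
  have hra : ∀ a, a < l → r a y = r a y' := by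
    intro a ha
    have hc := h.cont a (ha.le.trans hlκ)
    have h1 : Tendsto (fun n => r a (x n)) F (𝓝 (r a y)) := (hc.tendsto y).comp hy
    have h2 : Tendsto (fun n => r a (r (β n) (x n))) F (𝓝 (r a y')) := (hc.tendsto y').comp hy'
    refine tendsto_nhds_unique_of_eventuallyEq h1 h2 ?_
    obtain ⟨n, hn⟩ := hex a ha
    refine hF ?_
    filter_upwards [eventually_ge_atTop n] with m hm
    exact (h.low a (β m) (hn.le.trans (hβm.monotone hm)) (hκ m).le (x m)).symm
  -- both points are fixed by `r l`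
  have hcl := h.cont l hlκ
  have hly : r l y = y := by
    have h1 : Tendsto (fun n => r l (x n)) F (𝓝 (r l y)) := (hcl.tendsto y).comp hy
    refine tendsto_nhds_unique_of_eventuallyEq h1 hy (Eventually.of_forall fun n => ?_)
    have h2 := h.up (Order.succ (β n)) l (hsl n) hlκ (x n)
    rwa [hx n] at h2
  have hly' : r l y' = y' := by
    have h1 : Tendsto (fun n => r l (r (β n) (x n))) F (𝓝 (r l y')) := (hcl.tendsto y').comp hy'
    refine tendsto_nhds_unique_of_eventuallyEq h1 hy' (Eventually.of_forall fun n => ?_)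
    exact h.up (β n) l (hβl n) hlκ (x n)
  have heq : y = y' := by
    by_contra hne
    obtain ⟨V, V', hV, hV', hyV, hyV', hdisj⟩ := t2_separation hne
    obtain ⟨a, ha, ha'⟩ := h.lim l hlκ hlim y V (by rw [hly]; exact hV.mem_nhds hyV)
    obtain ⟨b, hb, hb'⟩ := h.lim l hlκ hlim y' V' (by rw [hly']; exact hV'.mem_nhds hyV')
    have h1 : r (max a b) y ∈ V := ha' _ (le_max_left a b) (max_lt ha hb)
    have h2 : r (max a b) y' ∈ V' := hb' _ (le_max_right a b) (max_lt ha hb)
    rw [← hra _ (max_lt ha hb)] at h2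
    exact Set.disjoint_left.1 hdisj h1 h2
  rw [heq] at hyU
  exact hyU (hd y')

end Pool.Agent.CKT
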