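import Pool.Agent.CKT.Defs6

/-!
# Functions which do not change along a chain (MP_0211b8_an)
-/

set_option autoImplicit false

open Set Filter Topology

namespace Pool.Agent.CKT

universe u v

theorem chainq_const (K : Type u) [TopologicalSpace K] (κ : Ordinal.{u})
    (R : Ordinal.{u} → K → K) (h : ChainQ K κ R) (f : C(K, ℝ)) (x e : K)
    (hc : ∀ β < κ, f (R (Order.succ β) x) - f (R (Order.succ β) e) = f (R β x) - f (R β e)) :
    f (R κ x) - f (R κ e) = f (R 0 x) - f (R 0 e) := by
  suffices H : ∀ l : Ordinal.{u}, l ≤ κ → f (R l x) - f (R l e) = f (R 0 x) - f (R 0 e) from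
    H κ le_rfl
  intro l
  induction l using Ordinal.limitRecOn with
  | zero => intro _; rfl
  | add_one β ih =>
    intro hβ
    rw [← Order.succ_eq_add_one] at hβ ⊢
    have hβ' : β < κ := (Order.lt_succ β).trans_le hβ
    rw [hc β hβ', ih hβ'.le]
  | limit l hl ih =>
    intro hlκ
    by_contra hne
    obtain ⟨ε, hε⟩ : ∃ ε : ℝ, ε = |(f (R l x) - f (R l e)) - (f (R 0 x) - f (R 0 e))| := ⟨_, rfl⟩
    have hε0 : 0 < ε := by
      rw [hε]
      exact abs_pos.2 (sub_ne_zero.2 hne)
    have hU : ∀ z : K, ∃ a < l, ∀ b, a ≤ b → b < l → |f (R b z) - f (R l z)| < ε / 2 := by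
      intro z
      have h1 : {y : K | |f y - f (R l z)| < ε / 2} ∈ 𝓝 (R l z) := by
        have h2 : Continuous fun y => |f y - f (R l z)| := (f.continuous.sub continuous_const).abs
        refine (isOpen_lt h2 continuous_const).mem_nhds ?_
        show |f (R l z) - f (R l z)| < ε / 2
        rw [sub_self, abs_zero]
        linarith
      exact h.lim l hlκ hl z _ h1
    obtain ⟨a, ha, ha'⟩ := hU x
    obtain ⟨b, hb, hb'⟩ := hU e
    have h1 := ha' (max a b) (le_max_left a b) (max_lt ha hb)
    have h2 := hb' (max a b) (le_max_right a b) (max_lt ha hb)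
    have h3 := ih (max a b) (max_lt ha hb) ((max_lt ha hb).le.trans hlκ)
    rw [← h3] at hε
    rw [abs_lt] at h1 h2
    have h4 : |(f (R l x) - f (R l e)) - (f (R (max a b) x) - f (R (max a b) e))| < ε := by
      rw [abs_lt]
      constructor <;> linarith [h1.1, h1.2, h2.1, h2.2]
    linarith

end Pool.Agent.CKT
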