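import Pool.Agent.CKT.Defs6
import Pool.Agent.CKT.Sk4
import Pool.Agent.CKT.Sk5

/-!
# Retractional skeletons: the inductive step (row SK8)
-/

set_option autoImplicit false

open Set Filter Topology

namespace Pool.Agent.CKT

universe u v

/-- the operator `f ↦ f - f ∘ ρ` -/
private lemma sk8_op (K : Type u) [TopologicalSpace K] [CompactSpace K] (ρ : K → K)
    (hρ : Continuous ρ) :
    ∃ L : C(K, ℝ) →L[ℝ] C(K, ℝ), ∀ (f : C(K, ℝ)) (x : K), L f x = f x - f (ρ x) := by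
  refine ⟨LinearMap.mkContinuous
    { toFun := fun f => f - f.comp ⟨ρ, hρ⟩
      map_add' := ?_
      map_smul' := ?_ } 2 ?_, fun f x => rfl⟩
  · intro f g
    ext x
    simp only [ContinuousMap.sub_apply, ContinuousMap.add_apply, ContinuousMap.comp_apply,
      ContinuousMap.coe_mk]
    ring
  · intro a f
    ext x
    simp only [ContinuousMap.sub_apply, ContinuousMap.smul_apply, ContinuousMap.comp_apply,
      ContinuousMap.coe_mk, smul_eq_mul, RingHom.id_apply]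
    ring
  · intro f
    change ‖f - f.comp ⟨ρ, hρ⟩‖ ≤ 2 * ‖f‖
    rw [ContinuousMap.norm_le _ (by positivity)]
    intro x
    have h1 : ‖f x‖ ≤ ‖f‖ := f.norm_coe_le_norm x
    have h2 : ‖f (ρ x)‖ ≤ ‖f‖ := f.norm_coe_le_norm (ρ x)
    have h3 : (f - f.comp ⟨ρ, hρ⟩) x = f x - f (ρ x) := rfl
    rw [h3]
    calc ‖f x - f (ρ x)‖ ≤ ‖f x‖ + ‖f (ρ x)‖ := norm_sub_le _ _
      _ ≤ 2 * ‖f‖ := by linarith

/-! ROW SK8 -/
theorem lsys_step (K : Type u) [TopologicalSpace K] [CompactSpace K] [T2Space K]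
    (S : Type u) [Preorder S] (r : S → K → K) (h : Skel K S r) (κ : Ordinal.{u})
    (hκ : Order.IsSuccLimit κ) (B : Ordinal.{u} → Set S)
    (hB : ∀ a, a ≤ κ → DirectedOn (· ≤ ·) (B a) ∧ (B a).Nonempty)
    (hm : ∀ a b, a ≤ b → b ≤ κ → B a ⊆ B b) (R : Ordinal.{u} → K → K)
    (hR : ∀ a, a ≤ κ → IsLimR r (B a) (R a)) (hQ : ChainQ K κ R) (e : K)
    (ih : ∀ a < κ, ∃ (ι : Type (u + 1)) (T : ι → (C(K, ℝ) →L[ℝ] ℝ)) (s : ι → S) (c : ι → K)
      (P : ι → ℕ), LSys K S r (B a) (R a) e ι T s c P) :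
    ∃ (ι : Type (u + 1)) (T : ι → (C(K, ℝ) →L[ℝ] ℝ)) (s : ι → S) (c : ι → K) (P : ι → ℕ),
      LSys K S r (B κ) (R κ) e ι T s c P := by
  classical
  have h0κ : (0 : Ordinal.{u}) < κ := by
    have h00 := hκ.bot_lt
    rwa [bot_eq_zero] at h00
  have hs : ∀ a : {a : Ordinal.{u} // a < κ}, Order.succ a.1 < κ := fun a => hκ.succ_lt a.2
  obtain ⟨ι₀, T₀, s₀, c₀, P₀, h₀⟩ := ih 0 h0κ
  have ih' : ∀ a : {a : Ordinal.{u} // a < κ}, ∃ (ι : Type (u + 1))
      (T : ι → (C(K, ℝ) →L[ℝ] ℝ)) (s : ι → S) (c : ι → K)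
      (P : ι → ℕ), LSys K S r (B (Order.succ a.1)) (R (Order.succ a.1)) e ι T s c P :=
    fun a => ih _ (hs a)
  choose ι₁ T₁ s₁ c₁ P₁ h₁ using ih'
  have hop : ∀ a : {a : Ordinal.{u} // a < κ}, ∃ L : C(K, ℝ) →L[ℝ] C(K, ℝ),
      ∀ (f : C(K, ℝ)) (x : K), L f x = f x - f (R a.1 x) :=
    fun a => sk8_op K (R a.1) (hQ.cont a.1 a.2.le)
  choose L hL using hop
  -- values of the difference on the image of the next retraction
  have hLR : ∀ (a : {a : Ordinal.{u} // a < κ}) (f : C(K, ℝ)) (x : K),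
      L a f (R (Order.succ a.1) x) = f (R (Order.succ a.1) x) - f (R a.1 x) := by
    intro a f x
    rw [hL, hQ.low a.1 (Order.succ a.1) (Order.le_succ _) (hs a).le x]
  have hfix : ∀ a, a ≤ κ → ∀ x, R κ (R a x) = R a x := fun a ha x => hQ.up a κ ha le_rfl x
  refine ⟨ι₀ ⊕ (Σ a : {a : Ordinal.{u} // a < κ}, ι₁ a),
    Sum.elim T₀ (fun p => (T₁ p.1 p.2).comp (L p.1)),
    Sum.elim s₀ (fun p => s₁ p.1 p.2), Sum.elim c₀ (fun p => c₁ p.1 p.2),
    Sum.elim (fun j => 2 * P₀ j) (fun p => 2 * P₁ p.1 p.2), ?_⟩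
  refine ⟨?_, ?_, ?_, ?_, ?_, ?_⟩
  · rintro (j | ⟨a, j⟩)
    · exact hm 0 κ h0κ.le le_rfl (h₀.mem j)
    · exact hm _ κ (hs a).le le_rfl ((h₁ a).mem j)
  · rintro (j | ⟨a, j⟩)
    · exact h₀.ne j
    · exact (h₁ a).ne j
  · rintro (j | ⟨a, j⟩)
    · exact h₀.loc j
    · obtain ⟨E, hE, hE'⟩ := (h₁ a).loc j
      refine ⟨E ∪ R a.1 '' E, hE.union (hE.image _), fun f hf => ?_⟩
      change T₁ a j (L a f) = 0
      refine hE' _ fun x hx => ?_
      rw [hL, hf x (Or.inl hx), hf (R a.1 x) (Or.inr ⟨x, hx, rfl⟩), sub_zero]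
  · rintro (j | ⟨a, j⟩) f M hM
    · have hM0 : 0 ≤ M := (abs_nonneg _).trans (hM e)
      have h1 : |T₀ j f| ≤ P₀ j * M := by
        refine h₀.bd j f M fun x => ?_
        have := hM (R 0 x)
        rwa [hfix 0 h0κ.le x] at this
      change |T₀ j f| ≤ ((2 * P₀ j : ℕ) : ℝ) * M
      push_cast
      have h2 : 0 ≤ (P₀ j : ℝ) * M := by positivity
      linarith
    · have hM0 : 0 ≤ M := (abs_nonneg _).trans (hM e)
      have h1 : |T₁ a j (L a f)| ≤ P₁ a j * (2 * M) := by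
        refine (h₁ a).bd j (L a f) (2 * M) fun x => ?_
        rw [hLR]
        have h2 := hM (R (Order.succ a.1) x)
        rw [hfix _ (hs a).le x] at h2
        have h3 := hM (R a.1 x)
        rw [hfix _ a.2.le x] at h3
        have h4 := abs_sub (f (R (Order.succ a.1) x)) (f (R a.1 x))
        linarith
      change |T₁ a j (L a f)| ≤ ((2 * P₁ a j : ℕ) : ℝ) * M
      push_cast
      linarith
  · intro f m ε hε
    have hF := chainq_fin K κ R hQ f (ε / (m + 1)) (by positivity)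
    set F : Set Ordinal.{u} := {β | β < κ ∧ ∃ x, ε / (m + 1) ≤
      |f (R (Order.succ β) x) - f (R β x)|} with hFdef
    have hF' : {a : {a : Ordinal.{u} // a < κ} | a.1 ∈ F}.Finite :=
      hF.preimage Subtype.val_injective.injOn
    have hA : {j | P₀ j = m / 2 ∧ ε ≤ |T₀ j f|}.Finite := h₀.fin f (m / 2) ε hε
    have hBf : ∀ a : {a : Ordinal.{u} // a < κ},
        {j | P₁ a j = m / 2 ∧ ε ≤ |T₁ a j (L a f)|}.Finite := fun a =>
      (h₁ a).fin (L a f) (m / 2) ε hε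
    let inr' : ∀ a : {a : Ordinal.{u} // a < κ}, ι₁ a →
        ι₀ ⊕ (Σ a : {a : Ordinal.{u} // a < κ}, ι₁ a) := fun a j => Sum.inr ⟨a, j⟩
    refine ((hA.image Sum.inl).union
      (hF'.biUnion fun a _ => (hBf a).image (inr' a))).subset ?_
    rintro (j | ⟨a, j⟩) ⟨hj1, hj2⟩
    · left
      refine ⟨j, ⟨?_, hj2⟩, rfl⟩
      change 2 * P₀ j = m at hj1
      omega
    · right
      change 2 * P₁ a j = m at hj1
      change ε ≤ |T₁ a j (L a f)| at hj2
      rw [mem_iUnion₂]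
      refine ⟨a, ?_, j, ⟨by omega, hj2⟩, rfl⟩
      change a.1 ∈ F
      refine ⟨a.2, ?_⟩
      by_contra hcon
      push Not at hcon
      have h1 : |T₁ a j (L a f)| ≤ P₁ a j * (ε / (m + 1)) := by
        refine (h₁ a).bd j (L a f) _ fun x => ?_
        rw [hLR]
        exact (hcon x).le
      have h2 : (P₁ a j : ℝ) ≤ m := by
        have : P₁ a j ≤ m := by omega
        exact_mod_cast this
      have h3 : (P₁ a j : ℝ) * (ε / (m + 1)) ≤ m * (ε / (m + 1)) := by gcongr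
      have h4 : (m : ℝ) * (ε / (m + 1)) < ε := by
        rw [mul_div_assoc', div_lt_iff₀ (by positivity)]
        nlinarith
      linarith
  · intro f x hx
    by_cases h1 : f (R 0 x) = f (R 0 e)
    swap
    · obtain ⟨j, hj1, hj2⟩ := h₀.sep f x h1
      exact ⟨Sum.inl j, hj1, hj2⟩
    have h2 : ∃ β < κ, f (R (Order.succ β) x) - f (R (Order.succ β) e) ≠
        f (R β x) - f (R β e) := by
      by_contra hcon
      push Not at hcon
      have h3 := chainq_const K κ R hQ f x e hcon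
      rw [h1, sub_self, sub_eq_zero] at h3
      exact hx h3
    obtain ⟨β, hβ, hne⟩ := h2
    have h3 : L ⟨β, hβ⟩ f (R (Order.succ β) x) ≠ L ⟨β, hβ⟩ f (R (Order.succ β) e) := by
      have e1 := hLR ⟨β, hβ⟩ f x
      have e2 := hLR ⟨β, hβ⟩ f e
      simp only at e1 e2
      rw [e1, e2]
      intro h4
      apply hne
      linarith
    obtain ⟨j, hj1, hj2⟩ := (h₁ ⟨β, hβ⟩).sep (L ⟨β, hβ⟩ f) x h3
    exact ⟨Sum.inr ⟨⟨β, hβ⟩, j⟩, hj1, hj2⟩

end Pool.Agent.CKT
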