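import Pool.Agent.CKT.Defs6
import Pool.Agent.CKT.Sk1
import Pool.Agent.CKT.Sk3
import Pool.Agent.CKT.Sk6
import Pool.Agent.CKT.Sk7
import Pool.Agent.CKT.Sk8

/-!
# Retractional skeletons: systems of functionals for all directed sets (MP_0211b8_an)
-/

set_option autoImplicit false

open Set Filter Topology

namespace Pool.Agent.CKT

universe u v

theorem lsys_exists (K : Type u) [TopologicalSpace K] [CompactSpace K] [T2Space K]
    (S : Type u) [Preorder S] (r : S → K → K) (h : Skel K S r)
    (hcount : ∀ s, (range (r s)).Countable) (e : K) (A : Set S)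
    (hA : DirectedOn (· ≤ ·) A) (hne : A.Nonempty) (R : K → K) (hR : IsLimR r A R) :
    ∃ (ι : Type (u + 1)) (T : ι → (C(K, ℝ) →L[ℝ] ℝ)) (s : ι → S) (c : ι → K) (P : ι → ℕ),
      LSys K S r A R e ι T s c P := by
  have key : ∀ (c : Cardinal.{u}) (A : Set S), Cardinal.mk A = c → DirectedOn (· ≤ ·) A →
      A.Nonempty → ∀ R : K → K, IsLimR r A R →
      ∃ (ι : Type (u + 1)) (T : ι → (C(K, ℝ) →L[ℝ] ℝ)) (s : ι → S) (c : ι → K) (P : ι → ℕ),
        LSys K S r A R e ι T s c P := by
    intro c
    induction c using WellFoundedLT.induction with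
    | ind c ih =>
      intro A hAc hA hne R hR
      by_cases hc : A.Countable
      · exact lsys_countable K S r h hcount A hA hne hc R hR e
      · obtain ⟨κ, B, hlim, hB, hm, hl, hBA, hlt⟩ := dir_chain S A hA hne hc
        have : Nonempty (K → K) := ⟨id⟩
        choose! R' hR' using fun (a : Ordinal.{u}) (ha : a ≤ κ) =>
          skel_lim K S r h (B a) (hB a ha).1 (hB a ha).2
        have hQ : ∀ a, a ≤ κ → IsLimR r (B a) (Function.update R' κ R a) := by
          intro a ha
          by_cases hak : a = κ
          · subst hak
            rw [Function.update_self, hBA]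
            exact hR
          · rw [Function.update_of_ne hak]
            exact hR' a ha
        have hchain := chainq_of_sets K S r h κ B hB hm hl _ hQ
        have hstep := lsys_step K S r h κ hlim B hB hm _ hQ hchain e
          (fun a ha => ih (Cardinal.mk (B a)) (hAc ▸ hlt a ha) (B a) rfl (hB a ha.le).1
            (hB a ha.le).2 _ (hQ a ha.le))
        rw [hBA, Function.update_self] at hstep
        exact hstep
  exact key _ A rfl hA hne R hR

end Pool.Agent.CKT
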