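import Pool.Agent.CKT.Defs7
import Pool.Agent.CKT.Sk9

/-!
# Spaces with a retractional skeleton of countable images have systems of functionals
-/

set_option autoImplicit false

open Set Filter Topology

namespace Pool.Agent.CKT

universe u v

/-- Spaces with a retractional skeleton of countable images have systems of functionals. -/
theorem hasF_skel (K : Type u) [TopologicalSpace K] [CompactSpace K] [T2Space K]
    (S : Type u) [Preorder S] (r : S → K → K) (h : Skel K S r)
    (hcount : ∀ s, (range (r s)).Countable) : HasF K := by
  intro e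
  obtain ⟨s₀⟩ := h.ne
  have hdir : DirectedOn (· ≤ ·) (univ : Set S) := by
    intro a _ b _
    obtain ⟨w, h1, h2⟩ := h.dir a b
    exact ⟨w, mem_univ w, h1, h2⟩
  have hR : IsLimR r univ (id : K → K) := by
    refine ⟨continuous_id, fun x U hU => ?_⟩
    obtain ⟨s, hs⟩ := h.lim x U hU
    exact ⟨s, mem_univ s, fun t _ hst => hs t hst⟩
  obtain ⟨ι, T, s, c, P, hL⟩ :=
    lsys_exists K S r h hcount e univ hdir ⟨s₀, mem_univ s₀⟩ id hR
  refine ⟨ι, T, fun j => {x | r (s j) x = c j}, P, ?_⟩
  exact
    { closed := fun j => isClosed_eq (h.cont (s j)) continuous_const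
      ne := fun j hj => hL.ne j hj.symm
      loc := hL.loc
      bd := by
        intro j f
        refine hL.bd j f ‖f‖ fun x => ?_
        have := f.norm_coe_le_norm (id x)
        rwa [Real.norm_eq_abs] at this
      fin := hL.fin
      sep := by
        intro f x hx
        obtain ⟨j, hj1, hj2⟩ := hL.sep f x hx
        exact ⟨j, hj2, hj1⟩ }

end Pool.Agent.CKT
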