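import Pool.Agent.CKT.Defs7

/-!
# Increments which are covered by countably many members of the class (MP_0211b8_an)
-/

set_option autoImplicit false

open Set Filter Topology

namespace Pool.Agent.CKT

universe u v

/-- A system of functionals for the increment of `R` and `Q`, for the points `x` with `R x` in
the set `N`. -/
structure ISysOn (K : Type u) [TopologicalSpace K] [CompactSpace K] (R Q : K → K) (e : K)
    (N : Set K) (ι : Type (u + 1)) (T : ι → (C(K, ℝ) →L[ℝ] ℝ)) (C : ι → Set K) (P : ι → ℕ) :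
    Prop where
  closed : ∀ j, IsClosed (C j)
  ne : ∀ j, e ∉ C j
  loc : ∀ j, ∃ E : Set K, E.Finite ∧ ∀ f : C(K, ℝ), (∀ x ∈ E, f x = 0) → T j f = 0
  bd : ∀ j (f : C(K, ℝ)) (M : ℝ), (∀ x, |f (R x) - f (Q x)| ≤ M) → |T j f| ≤ P j * M
  fin : ∀ (f : C(K, ℝ)) (m : ℕ) (ε : ℝ), 0 < ε → {j | P j = m ∧ ε ≤ |T j f|}.Finite
  sep : ∀ (f : C(K, ℝ)) (x : K), R x ∈ N → f (R x) - f (Q x) ≠ f (R e) - f (Q e) →
    ∃ j, x ∈ C j ∧ T j f ≠ 0

private theorem hfu_core (K : Type u) [TopologicalSpace K] [CompactSpace K] [T2Space K]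
    (R Q : K → K) (hR : Continuous R) (hQ : Continuous Q) (hQR : ∀ x, Q (R x) = Q x)
    (M : Set K) (hM : IsClosed M) [CompactSpace M] (hMR : ∀ x ∈ M, R x = x) (e : K) (e' : M)
    (ι : Type (u + 1)) (T : ι → (C(M, ℝ) →L[ℝ] ℝ)) (C : ι → Set M) (P : ι → ℕ)
    (hS : FSys M e' ι T C P) (hne : ∀ j, ∀ h : R e ∈ M, (⟨R e, h⟩ : M) ∉ C j)
    (hee : R e ∈ M → R e = e'.1) :
    ∃ (ι : Type (u + 1)) (T : ι → (C(K, ℝ) →L[ℝ] ℝ)) (C : ι → Set K) (P : ι → ℕ),
      ISysOn K R Q e M ι T C P := by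
  let i1 : C(M, K) := ⟨Subtype.val, continuous_subtype_val⟩
  let i2 : C(M, K) := ⟨fun y => Q y.1, hQ.comp continuous_subtype_val⟩
  let L0 : C(K, ℝ) →ₗ[ℝ] C(M, ℝ) :=
    { toFun := fun f => f.comp i1 - f.comp i2
      map_add' := by
        intro f g
        ext y
        simp only [ContinuousMap.sub_apply, ContinuousMap.comp_apply, ContinuousMap.add_apply]
        ring
      map_smul' := by
        intro c f
        ext y
        simp only [ContinuousMap.sub_apply, ContinuousMap.comp_apply, ContinuousMap.smul_apply,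
          RingHom.id_apply, smul_eq_mul]
        ring }
  have hL0 : ∀ (f : C(K, ℝ)) (y : M), L0 f y = f y.1 - f (Q y.1) := fun f y => rfl
  have hLn : ∀ (f : C(K, ℝ)) (B : ℝ), (∀ x, |f (R x) - f (Q x)| ≤ B) → ‖L0 f‖ ≤ B := by
    intro f B hB
    have h0 : 0 ≤ B := (abs_nonneg _).trans (hB e)
    rw [ContinuousMap.norm_le _ h0]
    rintro ⟨x, hx⟩
    rw [hL0, Real.norm_eq_abs]
    have h1 := hB x
    rwa [hMR x hx] at h1
  let L : C(K, ℝ) →L[ℝ] C(M, ℝ) := L0.mkContinuous 2 (by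
    intro f
    refine hLn f _ fun x => ?_
    have h1 := f.norm_coe_le_norm (R x)
    have h2 := f.norm_coe_le_norm (Q x)
    rw [Real.norm_eq_abs] at h1 h2
    have h3 := abs_sub (f (R x)) (f (Q x))
    linarith)
  have hL : ∀ (f : C(K, ℝ)) (y : M), L f y = f y.1 - f (Q y.1) := fun f y => rfl
  let D : C(K, ℝ) →L[ℝ] ℝ := ContinuousMap.evalCLM ℝ (R e) - ContinuousMap.evalCLM ℝ (Q e)
  have hD : ∀ f : C(K, ℝ), D f = f (R e) - f (Q e) := fun f => rfl
  let T' : Option ι → (C(K, ℝ) →L[ℝ] ℝ) := fun j =>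
    j.elim ((ContinuousMap.evalCLM ℝ e').comp L - D) fun j => (T j).comp L
  have hT0 : ∀ f, T' none f = f e'.1 - f (Q e'.1) - (f (R e) - f (Q e)) := fun f => rfl
  have hT1 : ∀ j f, T' (some j) f = T j (L f) := fun j f => rfl
  classical
  let C₀ : Set K := if R e ∈ M then ∅ else R ⁻¹' M
  let C' : Option ι → Set K := fun j => j.elim C₀ fun j => R ⁻¹' (Subtype.val '' (C j))
  let P' : Option ι → ℕ := fun j => j.elim 2 fun j => P j
  refine ⟨Option ι, T', C', P', ?_, ?_, ?_, ?_, ?_, ?_⟩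
  · intro j
    rcases j with _ | j
    · show IsClosed (if R e ∈ M then ∅ else R ⁻¹' M)
      split_ifs
      · exact isClosed_empty
      · exact hM.preimage hR
    · exact ((hM.isClosedEmbedding_subtypeVal.isClosedMap _ (hS.closed j))).preimage hR
  · intro j
    rcases j with _ | j
    · show e ∉ (if R e ∈ M then ∅ else R ⁻¹' M)
      split_ifs with h1
      · exact fun h => h
      · exact h1
    · rintro ⟨⟨y, hy⟩, hyC, hyR⟩
      have h1 : y = R e := hyR
      subst h1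
      exact hne j hy hyC
  · intro j
    rcases j with _ | j
    · refine ⟨{e'.1, Q e'.1, R e, Q e}, Set.toFinite _, fun f hf => ?_⟩
      rw [hT0, hf _ (by simp), hf _ (by simp), hf (R e) (by simp), hf (Q e) (by simp)]
      ring
    · obtain ⟨E, hE, hE'⟩ := hS.loc j
      refine ⟨(fun y : M => y.1) '' E ∪ (fun y : M => Q y.1) '' E,
        (hE.image _).union (hE.image _), fun f hf => ?_⟩
      refine hE' (L f) fun y hy => ?_
      rw [hL, hf y.1 (Or.inl ⟨y, hy, rfl⟩), hf (Q y.1) (Or.inr ⟨y, hy, rfl⟩), sub_zero]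
  · intro j f B hB
    rcases j with _ | j
    · show |T' none f| ≤ ((2 : ℕ) : ℝ) * B
      rw [hT0]
      have h1 := hB e'.1
      rw [hMR e'.1 e'.2] at h1
      have h2 := hB e
      have h3 := abs_sub (f e'.1 - f (Q e'.1)) (f (R e) - f (Q e))
      push_cast
      linarith
    · refine (hS.bd j (L f)).trans ?_
      exact mul_le_mul_of_nonneg_left (hLn f B hB) (Nat.cast_nonneg _)
  · intro f m ε hε
    refine ((hS.fin (L f) m ε hε).image some |>.insert none).subset ?_
    rintro (_ | j) ⟨h1, h2⟩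
    · exact Or.inl rfl
    · exact Or.inr ⟨j, ⟨h1, h2⟩, rfl⟩
  · intro f x hxM hx
    by_cases h1 : L f ⟨R x, hxM⟩ = L f e'
    · rw [hL, hL] at h1
      have h1' : f (R x) - f (Q x) = f e'.1 - f (Q e'.1) := by
        rw [← h1]
        show f (R x) - f (Q x) = f (R x) - f (Q (R x))
        rw [hQR]
      have h2 : ¬ R e ∈ M := by
        intro h3
        apply hx
        rw [h1', ← hee h3, hQR]
      refine ⟨none, ?_, ?_⟩
      · show x ∈ (if R e ∈ M then ∅ else R ⁻¹' M)
        rw [if_neg h2]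
        exact hxM
      · rw [hT0, ← h1']
        exact sub_ne_zero.2 hx
    · obtain ⟨j, hj, hj'⟩ := hS.sep (L f) ⟨R x, hxM⟩ h1
      exact ⟨some j, ⟨⟨R x, hxM⟩, hj, rfl⟩, hj'⟩

theorem isysOn_part (K : Type u) [TopologicalSpace K] [CompactSpace K] [T2Space K]
    (R Q : K → K) (hR : Continuous R) (hQ : Continuous Q) (hQR : ∀ x, Q (R x) = Q x)
    (M : Set K) (hM : IsClosed M) [CompactSpace M] (hMR : ∀ x ∈ M, R x = x) (h : HasF M)
    (e : K) :
    ∃ (ι : Type (u + 1)) (T : ι → (C(K, ℝ) →L[ℝ] ℝ)) (C : ι → Set K) (P : ι → ℕ),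
      ISysOn K R Q e M ι T C P := by
  by_cases he : R e ∈ M
  · obtain ⟨ι, T, C, P, hS⟩ := h ⟨R e, he⟩
    exact hfu_core K R Q hR hQ hQR M hM hMR e ⟨R e, he⟩ ι T C P hS (fun j h' => hS.ne j)
      fun _ => rfl
  · rcases M.eq_empty_or_nonempty with hE | ⟨y, hy⟩
    · refine ⟨PEmpty, fun j => j.elim, fun j => j.elim, fun j => j.elim, fun j => j.elim,
        fun j => j.elim, fun j => j.elim, fun j => j.elim, fun f m ε hε => ?_, ?_⟩
      · exact Set.toFinite _
      · intro f x hxM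
        rw [hE] at hxM
        exact hxM.elim
    · obtain ⟨ι, T, C, P, hS⟩ := h ⟨y, hy⟩
      exact hfu_core K R Q hR hQ hQR M hM hMR e ⟨y, hy⟩ ι T C P hS
        (fun j h' => absurd h' he) fun h' => absurd h' he

theorem isys_of_parts (K : Type u) [TopologicalSpace K] [CompactSpace K] [T2Space K]
    (R Q : K → K) (hR : Continuous R) (hQ : Continuous Q) (hRR : ∀ x, R (R x) = R x)
    (hQR : ∀ x, Q (R x) = Q x) (M : ℕ → Set K) (hM : ∀ n, IsClosed (M n))
    (hMR : ∀ n, ∀ x ∈ M n, R x = x) (hI : ∀ x, R x = x → Q x ≠ x → ∃ n, x ∈ M n)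
    (h : ∀ n, ∃ _ : CompactSpace (M n), HasF (M n)) (e : K) :
    ∃ (ι : Type (u + 1)) (T : ι → (C(K, ℝ) →L[ℝ] ℝ)) (C : ι → Set K) (P : ι → ℕ),
      ISys K R Q e ι T C P := by
  classical
  have key : ∀ n, ∃ (ι : Type (u + 1)) (T : ι → (C(K, ℝ) →L[ℝ] ℝ)) (C : ι → Set K)
      (P : ι → ℕ), ISysOn K R Q e (M n) ι T C P := by
    intro n
    obtain ⟨_, hF⟩ := h n
    exact isysOn_part K R Q hR hQ hQR (M n) (hM n) (hMR n) hF e
  choose ι T C P hS using key
  let D : C(K, ℝ) →L[ℝ] ℝ := ContinuousMap.evalCLM ℝ (R e) - ContinuousMap.evalCLM ℝ (Q e)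
  have hD : ∀ f : C(K, ℝ), D f = f (R e) - f (Q e) := fun f => rfl
  let C₀ : Set K := if Q e = R e then ∅ else {x | Q x = R x}
  let T' : Option (Σ n, ι n) → (C(K, ℝ) →L[ℝ] ℝ) := fun j => j.elim D fun j => T j.1 j.2
  let C' : Option (Σ n, ι n) → Set K := fun j => j.elim C₀ fun j => C j.1 j.2
  let P' : Option (Σ n, ι n) → ℕ := fun j =>
    j.elim 1 fun j => Nat.pair j.1 (P j.1 j.2) + P j.1 j.2
  refine ⟨Option (Σ n, ι n), T', C', P', ?_, ?_, ?_, ?_, ?_, ?_⟩
  · rintro (_ | ⟨n, j⟩)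
    · show IsClosed (if Q e = R e then ∅ else {x | Q x = R x})
      split_ifs
      · exact isClosed_empty
      · exact isClosed_eq hQ hR
    · exact (hS n).closed j
  · rintro (_ | ⟨n, j⟩)
    · show e ∉ (if Q e = R e then ∅ else {x | Q x = R x})
      split_ifs with h1
      · exact fun h => h
      · exact h1
    · exact (hS n).ne j
  · rintro (_ | ⟨n, j⟩)
    · refine ⟨{R e, Q e}, Set.toFinite _, fun f hf => ?_⟩
      show D f = 0
      rw [hD, hf (R e) (by simp), hf (Q e) (by simp), sub_zero]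
    · exact (hS n).loc j
  · rintro (_ | ⟨n, j⟩) f B hB
    · show |D f| ≤ ((1 : ℕ) : ℝ) * B
      rw [hD, Nat.cast_one, one_mul]
      exact hB e
    · have h0 : 0 ≤ B := (abs_nonneg _).trans (hB e)
      refine ((hS n).bd j f B hB).trans ?_
      show (P n j : ℝ) * B ≤ ((Nat.pair n (P n j) + P n j : ℕ) : ℝ) * B
      refine mul_le_mul_of_nonneg_right ?_ h0
      exact_mod_cast Nat.le_add_left _ _
  · intro f m ε hε
    have hfin : (⋃ n ∈ Finset.range (m + 1), ⋃ p ∈ Finset.range (m + 1),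
        (fun j : ι n => some (⟨n, j⟩ : Σ n, ι n)) '' {j | P n j = p ∧ ε ≤ |T n j f|}).Finite := by
      apply Set.Finite.biUnion (Finset.finite_toSet _)
      intro n _
      apply Set.Finite.biUnion (Finset.finite_toSet _)
      intro p _
      exact ((hS n).fin f p ε hε).image _
    refine (hfin.insert none).subset ?_
    rintro (_ | ⟨n, j⟩) ⟨h1, h2⟩
    · exact Or.inl rfl
    · refine Or.inr ?_
      have h1' : Nat.pair n (P n j) + P n j = m := h1
      have h3 : n ≤ m := by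
        have := Nat.left_le_pair n (P n j)
        omega
      have h4 : P n j ≤ m := by omega
      simp only [mem_iUnion]
      refine ⟨n, by simpa [Nat.lt_succ_iff] using h3, P n j,
        by simpa [Nat.lt_succ_iff] using h4, j, ⟨rfl, h2⟩, rfl⟩
  · intro f x hx
    by_cases hxM : ∃ n, R x ∈ M n
    · obtain ⟨n, hn⟩ := hxM
      obtain ⟨j, hj, hj'⟩ := (hS n).sep f x hn hx
      exact ⟨some ⟨n, j⟩, hj, hj'⟩
    · have h1 : Q x = R x := by
        by_contra hne
        exact hxM (hI (R x) (hRR x) (by rwa [hQR]))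
      rw [h1, sub_self] at hx
      have h2 : ¬ Q e = R e := fun h3 => hx (by rw [h3, sub_self])
      refine ⟨none, ?_, ?_⟩
      · show x ∈ (if Q e = R e then ∅ else {x | Q x = R x})
        rw [if_neg h2]
        exact h1
      · show D f ≠ 0
        rw [hD]
        exact fun h3 => hx h3.symm

theorem hasF_union (K : Type u) [TopologicalSpace K] [CompactSpace K] [T2Space K]
    (F : ℕ → Set K) (hF : ∀ n, IsClosed (F n)) (hU : ∀ x, ∃ n, x ∈ F n)
    (h : ∀ n, ∃ _ : CompactSpace (F n), HasF (F n)) : HasF K := by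
  intro e
  obtain ⟨ι, T, C, P, hS⟩ := isys_of_parts K id (fun _ => e) continuous_id continuous_const
    (fun _ => rfl) (fun _ => rfl) F hF (fun _ _ _ => rfl) (fun x _ _ => hU x) h e
  refine ⟨ι, T, C, fun j => 2 * P j, hS.closed, hS.ne, hS.loc, ?_, ?_, ?_⟩
  · intro j f
    have h1 := hS.bd j f (2 * ‖f‖) fun x => by
      have h1 := f.norm_coe_le_norm x
      have h2 := f.norm_coe_le_norm e
      rw [Real.norm_eq_abs] at h1 h2
      have h3 := abs_sub (f x) (f e)
      show |f x - f e| ≤ 2 * ‖f‖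
      linarith
    push_cast
    linarith
  · intro f m ε hε
    refine (hS.fin f (m / 2) ε hε).subset ?_
    rintro j ⟨h1, h2⟩
    have h3 : 2 * P j = m := h1
    refine ⟨?_, h2⟩
    omega
  · intro f x hx
    refine hS.sep f x ?_
    show f x - f e ≠ f e - f e
    rw [sub_self]
    exact sub_ne_zero.2 hx

end Pool.Agent.CKT
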