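import Pool.Agent.CKT.Defs

/-!
# CKT: compact spaces of finite height
-/

set_option autoImplicit false

open Set Filter Topology

namespace Pool.Agent.CKT

universe u v

/-- a compact set all of whose points are isolated in `D` is finite -/
private theorem hgt_fin {K : Type u} [TopologicalSpace K] {S D : Set K} (hS : IsCompact S)
    (hSD : S ⊆ D) (h : ∀ x ∈ S, ∃ V : Set K, IsOpen V ∧ V ∩ D = {x}) : S.Finite := by
  classical
  choose! V hV1 hV2 using h
  have hx : ∀ x ∈ S, x ∈ V x := by
    intro x hxS
    have h1 : x ∈ V x ∩ D := by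
      rw [hV2 x hxS]
      exact mem_singleton x
    exact h1.1
  obtain ⟨T, hT1, hT2⟩ := hS.elim_nhds_subcover V fun x hxS => (hV1 x hxS).mem_nhds (hx x hxS)
  refine T.finite_toSet.subset fun y hy => ?_
  obtain ⟨x, hxT, hyx⟩ := mem_iUnion₂.1 (hT2 hy)
  have h2 : y ∈ V x ∩ D := ⟨hyx, hSD hy⟩
  rw [hV2 x (hT1 x hxT), mem_singleton_iff] at h2
  rw [h2]
  exact hxT

/-- ROW HGT: spaces of finite height -/
theorem G_height (K : Type u) [t : TopologicalSpace K] [CompactSpace K] [T2Space K] (n : ℕ)
    (D : ℕ → Set K) (h0 : D 0 = univ) (hn : D n = ∅) (hc : ∀ i, IsClosed (D i))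
    (hd : ∀ i, D (i + 1) ⊆ D i)
    (hi : ∀ i, ∀ x ∈ D i, x ∉ D (i + 1) → ∃ V : Set K, IsOpen V ∧ V ∩ D i = {x}) : G K t := by
  induction n generalizing K with
  | zero =>
    have hE : ∀ x : K, False := fun x => by
      have h1 : x ∈ D 0 := by rw [h0]; trivial
      rw [hn] at h1
      exact h1
    exact G.rule K t inferInstance inferInstance (fun _ => ∅)
      ⟨fun x => (hE x).elim, fun A U _ _ _ => by
        have : {x : K | x ∈ A ∧ ∀ y ∈ (∅ : Set K), y ∉ U} = ∅ :=
          eq_empty_of_forall_notMem fun x _ => hE x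
        rw [this]
        exact finite_empty, fun M _ hM => (hE hM.some).elim⟩ fun x => (hE x).elim
  | succ n ih =>
    have hanti : ∀ i j, i ≤ j → D j ⊆ D i := by
      intro i j hij
      induction hij with
      | refl => exact Subset.rfl
      | step _ ih' => exact (hd _).trans ih'
    have hlev : ∀ x : K, ∃ i, x ∈ D i ∧ x ∉ D (i + 1) := by
      intro x
      by_contra hcc
      push Not at hcc
      have h1 : ∀ i, x ∈ D i := by
        intro i
        induction i with
        | zero => rw [h0]; trivial
        | succ i ih' => exact hcc i ih'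
      have h2 := h1 (n + 1)
      rw [hn] at h2
      exact h2
    choose lev hl1 hl2 using hlev
    refine G.rule K t inferInstance inferInstance (fun x => D (lev x + 1))
      ⟨fun x => hc _, fun A U hA hU hAU => ?_, fun M hM hMn => ?_⟩ fun x => ?_
    · have hf : ∀ i ∈ Finset.range (n + 1),
          {x | x ∈ A ∧ lev x = i ∧ ∀ y ∈ D (i + 1), y ∉ U}.Finite := by
        intro i _
        by_cases hiU : ∀ y ∈ D (i + 1), y ∉ U
        · have h1 : (A ∩ D i).Finite := by
            refine hgt_fin (hA.inter (hc i)).isCompact inter_subset_right fun x hx => ?_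
            exact hi i x hx.2 fun hx' => hiU x hx' (hAU hx.1)
          refine h1.subset fun x hx => ?_
          obtain ⟨hxA, hxi, -⟩ := hx
          refine ⟨hxA, ?_⟩
          rw [← hxi]
          exact hl1 x
        · refine finite_empty.subset fun x hx => ?_
          exact (hiU hx.2.2).elim
      refine ((Finset.range (n + 1)).finite_toSet.biUnion hf).subset fun x hx => ?_
      obtain ⟨hxA, hxU⟩ := hx
      have h3 : lev x < n + 1 := by
        by_contra hcc
        have h4 := hanti _ _ (not_lt.1 hcc) (hl1 x)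
        rw [hn] at h4
        exact h4
      exact mem_iUnion₂.2 ⟨lev x, Finset.mem_coe.2 (Finset.mem_range.2 h3), hxA, rfl, hxU⟩
    · classical
      have hex : ∃ j, M ∩ D j = ∅ := ⟨n + 1, by rw [hn, inter_empty]⟩
      have hj := Nat.find_spec hex
      have hj0 : Nat.find hex ≠ 0 := by
        intro h
        rw [h, h0, inter_univ] at hj
        exact hMn.ne_empty hj
      obtain ⟨j, hjj⟩ := Nat.exists_eq_succ_of_ne_zero hj0
      have hjm : M ∩ D j ≠ ∅ := Nat.find_min hex (by rw [hjj]; exact Nat.lt_succ_self j)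
      obtain ⟨x, hxM, hxD⟩ := nonempty_iff_ne_empty.2 hjm
      refine ⟨x, hxM, fun y hy hyM => ?_⟩
      have h1 : j < lev x + 1 := by
        by_contra hcc
        exact hl2 x (hanti _ _ (not_lt.1 hcc) hxD)
      have h2 : y ∈ M ∩ D (j + 1) := ⟨hyM, hanti _ _ h1 hy⟩
      rw [hjj] at hj
      rw [hj] at h2
      exact h2
    · have hcx : CompactSpace (D (lev x + 1)) :=
        isCompact_iff_compactSpace.1 (hc (lev x + 1)).isCompact
      refine ih (D (lev x + 1)) (fun j => Subtype.val ⁻¹' D (lev x + 1 + j)) ?_ ?_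
        (fun j => (hc _).preimage continuous_subtype_val)
        (fun j => preimage_mono (hd (lev x + 1 + j))) ?_
      · exact eq_univ_of_forall fun y => y.2
      · refine eq_empty_of_forall_notMem fun y hy => ?_
        have h1 : (y : K) ∈ D (n + 1) := hanti (n + 1) (lev x + 1 + n) (by omega) hy
        rw [hn] at h1
        exact h1
      · intro j y hy hy'
        obtain ⟨V, hV1, hV2⟩ := hi (lev x + 1 + j) y hy hy'
        refine ⟨Subtype.val ⁻¹' V, hV1.preimage continuous_subtype_val, ?_⟩
        rw [← preimage_inter, hV2]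
        exact eq_singleton_iff_unique_mem.2 ⟨rfl, fun z hz => Subtype.ext hz⟩

end Pool.Agent.CKT
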