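import Pool.Agent.CKT.Defs2

set_option autoImplicit false

open Set Filter Topology

namespace Pool.Agent.CKT

universe u v

/-- the level of a point -/
private noncomputable def lim_lv {K : Type u} (E : ℕ → Set K) (x : K) : ℕ :=
  sInf {k | x ∉ E (k + 1)}

private lemma lim_not {K : Type u} {E : ℕ → Set K} (h0 : E 0 = univ) {x : K}
    (hx : x ∉ ⋂ k, E k) : x ∉ E (lim_lv E x + 1) := by
  have hne : {k | x ∉ E (k + 1)}.Nonempty := by
    rw [mem_iInter, not_forall] at hx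
    obtain ⟨k, hk⟩ := hx
    cases k with
    | zero => exact absurd (by rw [h0]; exact mem_univ x) hk
    | succ k => exact ⟨k, hk⟩
  exact Nat.sInf_mem hne

private lemma lim_mem {K : Type u} {E : ℕ → Set K} (h0 : E 0 = univ) (x : K) :
    x ∈ E (lim_lv E x) := by
  rcases Nat.eq_zero_or_pos (lim_lv E x) with h | h
  · rw [h, h0]; exact mem_univ x
  · obtain ⟨j, hj⟩ : ∃ j, lim_lv E x = j + 1 := ⟨lim_lv E x - 1, by omega⟩
    rw [hj]
    by_contra hc
    have h1 : lim_lv E x ≤ j := Nat.sInf_le (show j ∈ {k | x ∉ E (k + 1)} from hc)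
    omega

private lemma lim_le {K : Type u} {E : ℕ → Set K} {x : K} {j : ℕ} (h : x ∉ E (j + 1)) :
    lim_lv E x ≤ j := Nat.sInf_le (show j ∈ {k | x ∉ E (k + 1)} from h)

private lemma lim_ge {K : Type u} {E : ℕ → Set K} (h0 : E 0 = univ) (ha : Antitone E) {x : K}
    (hx : x ∉ ⋂ k, E k) {j : ℕ} (h : x ∈ E j) : j ≤ lim_lv E x := by
  by_contra hc
  exact lim_not h0 hx (ha (by omega : lim_lv E x + 1 ≤ j) h)

private lemma lim_pow {a b : ℕ} (h : a < b) : ((1 : ℝ) / 2) ^ b + (1 / 2) ^ b ≤ (1 / 2) ^ a := by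
  have h1 : ((1 : ℝ) / 2) ^ b ≤ (1 / 2) ^ (a + 1) :=
    pow_le_pow_of_le_one (by norm_num) (by norm_num) h
  rw [pow_succ] at h1
  linarith

theorem R_lim (K : Type u) [t : TopologicalSpace K] [CompactSpace K] [T2Space K] (E : ℕ → Set K)
    (h0 : E 0 = univ) (hE : ∀ k, IsClosed (E k)) (ha : Antitone E)
    (h : ∀ k, R (E k) inferInstance (Subtype.val ⁻¹' (E (k + 1)))) : R K t (⋂ k, E k) := by
  refine R.gen K t inferInstance inferInstance (⋂ k, E k) (isClosed_iInter hE) (ULift.{u} ℕ)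
    (fun j => E j.down) (fun j => E (j.down + 1)) (fun x => ⟨lim_lv E x⟩)
    (fun j => (1 / 2) ^ j.down) (fun j => (1 / 2) ^ j.down) ?_ (fun j => h j.down)
  refine ⟨fun j => hE _, fun j => hE _, fun j x _ hx => mem_iInter.1 hx _,
    fun x hx => ⟨lim_mem h0 x, lim_not h0 hx⟩, ?_, ?_, ?_, ?_, ?_⟩
  · intro x hx j hj hj'
    have h1 := lim_le hj'
    have h2 := lim_ge h0 ha hx hj
    exact ULift.ext _ _ (le_antisymm h2 h1)
  · intro j
    exact ⟨by positivity, pow_le_one₀ (by norm_num) (by norm_num)⟩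
  · intro j
    exact ⟨by positivity, pow_le_one₀ (by norm_num) (by norm_num)⟩
  · intro y hy
    refine ⟨(E (lim_lv E y + 1))ᶜ, (hE _).isOpen_compl.mem_nhds (lim_not h0 hy), ?_⟩
    intro x hx _ hne
    have h1 : lim_lv E x ≤ lim_lv E y := lim_le hx
    have h2 : lim_lv E x ≠ lim_lv E y := fun h3 => hne (ULift.ext _ _ h3)
    exact lim_pow (lt_of_le_of_ne h1 h2)
  · intro j y hy hyD
    exact lim_pow (lim_ge h0 ha hyD hy)

end Pool.Agent.CKT
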