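import Pool.Agent.CKT.Defs
import Pool.Agent.CKB.Ord

/-!
# Compact scattered linearly ordered spaces (MP_0211b8_an)
-/

set_option autoImplicit false

open Set Filter Topology

namespace Pool.Agent.CKT

universe u v

/-- empty spaces -/
private theorem lin_empty (K : Type u) [t : TopologicalSpace K] [IsEmpty K] : G K t :=
  G.rule K t inferInstance inferInstance (fun _ => ∅)
    ⟨fun x => isEmptyElim x, fun A U _ _ _ => by
      have : {x : K | x ∈ A ∧ ∀ y ∈ (∅ : Set K), y ∉ U} = ∅ :=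
        eq_empty_of_forall_notMem fun x _ => isEmptyElim x
      rw [this]
      exact finite_empty, fun M _ hM => isEmptyElim hM.some⟩ fun x => isEmptyElim x

/-- finite spaces -/
private theorem lin_fin (K : Type u) [t : TopologicalSpace K] [Finite K] [T2Space K] : G K t :=
  G.rule K t inferInstance inferInstance (fun _ => ∅)
    ⟨fun _ => isClosed_empty, fun _ _ _ _ _ => Set.toFinite _, fun _ _ hM =>
      ⟨hM.some, hM.some_mem, fun _ hy => hy.elim⟩⟩ fun _ => lin_empty _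

section

variable {K : Type u} [LinearOrder K] [TopologicalSpace K]

/-- The nearest points of larger rank, on the two sides of `x`. -/
def nearF (x : K) : Set K :=
  {y | CKB.rk x < CKB.rk y ∧ y < x ∧ ∀ z, z < x → CKB.rk x < CKB.rk z → z ≤ y} ∪
    {y | CKB.rk x < CKB.rk y ∧ x < y ∧ ∀ z, x < z → CKB.rk x < CKB.rk z → y ≤ z}

lemma nearF_rk {x y : K} (h : y ∈ nearF x) : CKB.rk x < CKB.rk y := by
  rcases h with h | h
  · exact h.1
  · exact h.1

lemma nearF_finite (x : K) : (nearF x).Finite := by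
  refine Set.Finite.union ?_ ?_
  · refine Set.Subsingleton.finite fun y hy z hz => ?_
    exact le_antisymm (hz.2.2 y hy.2.1 hy.1) (hy.2.2 z hz.2.1 hz.1)
  · refine Set.Subsingleton.finite fun y hy z hz => ?_
    exact le_antisymm (hy.2.2 z hz.2.1 hz.1) (hz.2.2 y hy.2.1 hy.1)

omit [LinearOrder K] in
lemma isClosed_rk (hK : ∀ s : Set K, s.Nonempty → ∃ x ∈ s, ∃ U : Set K, IsOpen U ∧ U ∩ s = {x})
    (a : Ordinal.{u}) : IsClosed {y : K | a < CKB.rk y} := by
  rw [← isOpen_compl_iff, isOpen_iff_forall_mem_open]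
  intro x hx
  obtain ⟨V, hV, hxV, hVr⟩ := CKB.rk_spec hK x
  have hx' : CKB.rk x ≤ a := not_lt.1 hx
  refine ⟨V, ?_, hV, hxV⟩
  intro y hy
  show ¬ (a < CKB.rk y)
  by_cases hyx : y = x
  · rw [hyx]; exact not_lt.2 hx'
  · exact not_lt.2 ((hVr y hy hyx).le.trans hx')

omit [LinearOrder K] in
lemma isClosed_rk_le
    (hK : ∀ s : Set K, s.Nonempty → ∃ x ∈ s, ∃ U : Set K, IsOpen U ∧ U ∩ s = {x})
    (a : Ordinal.{u}) : IsClosed {y : K | a ≤ CKB.rk y} := by
  rw [← isOpen_compl_iff, isOpen_iff_forall_mem_open]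
  intro x hx
  obtain ⟨V, hV, hxV, hVr⟩ := CKB.rk_spec hK x
  have hx' : CKB.rk x < a := not_le.1 hx
  refine ⟨V, ?_, hV, hxV⟩
  intro y hy
  show ¬ (a ≤ CKB.rk y)
  by_cases hyx : y = x
  · rw [hyx]; exact not_le.2 hx'
  · exact not_le.2 ((hVr y hy hyx).trans hx')

omit [LinearOrder K] in
lemma finite_top [CompactSpace K]
    (hK : ∀ s : Set K, s.Nonempty → ∃ x ∈ s, ∃ U : Set K, IsOpen U ∧ U ∩ s = {x})
    {C : Set K} (hC : IsClosed C) : {x | x ∈ C ∧ ∀ y ∈ C, CKB.rk y ≤ CKB.rk x}.Finite := by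
  rcases Set.eq_empty_or_nonempty {x | x ∈ C ∧ ∀ y ∈ C, CKB.rk y ≤ CKB.rk x} with h | ⟨p, hp⟩
  · rw [h]; exact Set.finite_empty
  · have heq : {x | x ∈ C ∧ ∀ y ∈ C, CKB.rk y ≤ CKB.rk x} =
        C ∩ {y | CKB.rk p ≤ CKB.rk y} := by
      ext x
      constructor
      · rintro ⟨h1, h2⟩
        exact ⟨h1, h2 p hp.1⟩
      · rintro ⟨h1, h2⟩
        exact ⟨h1, fun y hy => (hp.2 y hy).trans h2⟩
    have hcl : IsClosed {x | x ∈ C ∧ ∀ y ∈ C, CKB.rk y ≤ CKB.rk x} := by
      rw [heq]; exact hC.inter (isClosed_rk_le hK _)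
    choose V hV hxV hVr using CKB.rk_spec hK
    obtain ⟨t, _, ht⟩ := hcl.isCompact.elim_nhds_subcover V
      (fun x _ => (hV x).mem_nhds (hxV x))
    refine Set.Finite.subset t.finite_toSet fun x hx => ?_
    obtain ⟨y, hy, hxy⟩ := mem_iUnion₂.1 (ht hx)
    by_cases hne : x = y
    · rw [hne]; exact hy
    · exfalso
      rename_i hsub
      have h1 := hVr y x hxy hne
      have h2 := hx.2 y (hsub y hy).1
      exact absurd h1 (not_lt.2 h2)

end

theorem sys_lin (K : Type u) [LinearOrder K] [TopologicalSpace K] [OrderTopology K]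
    [CompactSpace K]
    (hK : ∀ s : Set K, s.Nonempty → ∃ x ∈ s, ∃ U : Set K, IsOpen U ∧ U ∩ s = {x}) :
    Sys K (nearF (K := K)) where
  closed x := (nearF_finite x).isClosed
  fin := by
    intro A U hA hU hAU
    have h1 : ∀ a ∈ A, ∃ b c, Icc b c ∈ 𝓝 a ∧ Icc b c ⊆ U := by
      intro a ha
      obtain ⟨b, c, _, h2, h3⟩ := exists_Icc_mem_subset_of_mem_nhds (hU.mem_nhds (hAU ha))
      exact ⟨b, c, h2, h3⟩
    choose! b c hbc hbcU using h1
    obtain ⟨t, htA, ht⟩ := hA.isCompact.elim_nhds_subcover (fun a => Icc (b a) (c a)) hbc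
    have hfin : (⋃ a ∈ t, {x | x ∈ Icc (b a) (c a) ∧
        ∀ y ∈ Icc (b a) (c a), CKB.rk y ≤ CKB.rk x}).Finite :=
      Set.Finite.biUnion t.finite_toSet fun a _ => finite_top hK isClosed_Icc
    refine hfin.subset ?_
    rintro x ⟨hxA, hxF⟩
    obtain ⟨a, ha, hxa⟩ := mem_iUnion₂.1 (ht hxA)
    refine mem_iUnion₂.2 ⟨a, ha, hxa, fun y hy => ?_⟩
    have hsub : Icc (b a) (c a) ⊆ U := hbcU a (htA a ha)
    by_contra hlt
    have hlt' : CKB.rk x < CKB.rk y := not_le.1 hlt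
    have hyx : y ≠ x := fun h => by rw [h] at hlt'; exact lt_irrefl _ hlt'
    rcases lt_or_gt_of_ne hyx with hlt2 | hgt2
    · -- the largest element below x
      have hcomp : IsCompact (Iic x ∩ {z : K | CKB.rk x < CKB.rk z}) :=
        (isClosed_Iic.inter (isClosed_rk hK _)).isCompact
      obtain ⟨m, hm⟩ := hcomp.exists_isGreatest ⟨y, hlt2.le, hlt'⟩
      have hmx : m < x := by
        refine lt_of_le_of_ne hm.1.1 fun h => ?_
        have := hm.1.2
        rw [mem_ofPred_eq, h] at this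
        exact lt_irrefl _ this
      have hmF : m ∈ nearF x :=
        Or.inl ⟨hm.1.2, hmx, fun z hz hzr => hm.2 ⟨hz.le, hzr⟩⟩
      refine hxF m hmF (hsub ⟨?_, ?_⟩)
      · exact hy.1.trans (hm.2 ⟨hlt2.le, hlt'⟩)
      · exact hmx.le.trans hxa.2
    · have hcomp : IsCompact (Ici x ∩ {z : K | CKB.rk x < CKB.rk z}) :=
        (isClosed_Ici.inter (isClosed_rk hK _)).isCompact
      obtain ⟨m, hm⟩ := hcomp.exists_isLeast ⟨y, hgt2.le, hlt'⟩
      have hmx : x < m := by
        refine lt_of_le_of_ne hm.1.1 fun h => ?_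
        have := hm.1.2
        rw [mem_ofPred_eq, ← h] at this
        exact lt_irrefl _ this
      have hmF : m ∈ nearF x :=
        Or.inr ⟨hm.1.2, hmx, fun z hz hzr => hm.2 ⟨hz.le, hzr⟩⟩
      refine hxF m hmF (hsub ⟨?_, ?_⟩)
      · exact hxa.1.trans hmx.le
      · exact (hm.2 ⟨hgt2.le, hlt'⟩).trans hy.2
  top := by
    intro M hM hne
    choose V hV hxV hVr using CKB.rk_spec hK
    obtain ⟨t, htM, ht⟩ := hM.isCompact.elim_nhds_subcover V
      (fun x _ => (hV x).mem_nhds (hxV x))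
    have htne : t.Nonempty := by
      obtain ⟨m, hm⟩ := hne
      obtain ⟨y, hy, _⟩ := mem_iUnion₂.1 (ht hm)
      exact ⟨y, hy⟩
    obtain ⟨x, hx, hxmax⟩ := t.exists_max_image (fun x : K => CKB.rk x) htne
    refine ⟨x, htM x hx, fun y hy hyM => ?_⟩
    have h1 := nearF_rk hy
    obtain ⟨z, hz, hyz⟩ := mem_iUnion₂.1 (ht hyM)
    have h2 : CKB.rk y ≤ CKB.rk z := by
      by_cases h : y = z
      · rw [h]
      · exact (hVr z y hyz h).le
    exact absurd h1 (not_lt.2 (h2.trans (hxmax z hz)))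

/-- ROW LIN: compact scattered linearly ordered spaces -/
theorem G_lin (K : Type u) [LinearOrder K] [t : TopologicalSpace K] [OrderTopology K]
    [CompactSpace K]
    (hK : ∀ s : Set K, s.Nonempty → ∃ x ∈ s, ∃ U : Set K, IsOpen U ∧ U ∩ s = {x}) : G K t := by
  refine G.rule K t inferInstance inferInstance (nearF (K := K)) (sys_lin K hK) fun x => ?_
  have : Finite (nearF x) := (nearF_finite x).to_subtype
  exact lin_fin _

end Pool.Agent.CKT
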