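import Pool.Agent.CKT.Defs

/-!
# Compact scattered linearly ordered spaces are continuous images of compact trees
-/

set_option autoImplicit false

open Set Filter Topology

namespace Pool.Agent.CKT

universe u v

/-- a well order -/
private structure LO1W {T : Type u} (r : T → T → Prop) : Prop where
  wf : WellFounded r
  tri : ∀ a b, r a b ∨ a = b ∨ r b a
  trans : ∀ a b c, r a b → r b c → r a c

private theorem LO1W.irr {T : Type u} {r : T → T → Prop} (h : LO1W r) {a b : T} (h1 : r a b)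
    (h2 : a = b ∨ r b a) : False := by
  rcases h2 with h2 | h2
  · subst h2
    exact h.wf.asymmetric _ _ h1 h1
  · exact h.wf.asymmetric _ _ h1 h2

/-- continuity -/
private def LO1C {T : Type u} {K : Type v} [TopologicalSpace K] (r : T → T → Prop) (p : T → K) :
    Prop :=
  ∀ t, ∀ O : Set K, IsOpen O → p t ∈ O → (∀ w, r w t → p w ∈ O) ∨
    ∃ s, r s t ∧ ∀ w, r s w → r w t → p w ∈ O

/-- `s` is a continuous image of a compact ordinal, the first element is mapped to `a` -/
private def LO1I {K : Type u} [TopologicalSpace K] (a : K) (s : Set K) : Prop :=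
  ∃ (T : Type u) (r : T → T → Prop) (p : T → K) (o m : T), LO1W r ∧ LO1C r p ∧
    p o = a ∧ (∀ t, t = o ∨ r o t) ∧ (∀ t, t = m ∨ r t m) ∧ range p = s

private theorem LO1_single {K : Type u} [TopologicalSpace K] (a : K) : LO1I a {a} := by
  refine ⟨PUnit, fun _ _ => False, fun _ => a, PUnit.unit, PUnit.unit,
    ⟨⟨fun x => ⟨x, fun y hy => hy.elim⟩⟩, fun _ _ => Or.inr (Or.inl rfl), fun _ _ _ h => h.elim⟩,
    fun _ _ _ _ => Or.inl fun _ h => h.elim, rfl, fun _ => Or.inl rfl, fun _ => Or.inl rfl, ?_⟩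
  exact range_const

private theorem LO1_union {K : Type u} [TopologicalSpace K] {a b : K} {s t : Set K}
    (h1 : LO1I a s) (h2 : LO1I b t) : LO1I a (s ∪ t) := by
  obtain ⟨T, r, p, o, m, hW, hC, ho, hf, hl, hr⟩ := h1
  obtain ⟨T', r', p', o', m', hW', hC', ho', hf', hl', hr'⟩ := h2
  refine ⟨T ⊕ T', Sum.Lex r r', Sum.elim p p', Sum.inl o, Sum.inr m',
    ⟨Sum.lex_wf hW.wf hW'.wf, ?_, ?_⟩, ?_, ho, ?_, ?_, ?_⟩
  · rintro (a | a) (b | b)
    · rcases hW.tri a b with h | h | h
      · exact Or.inl (Sum.Lex.inl h)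
      · exact Or.inr (Or.inl (congrArg _ h))
      · exact Or.inr (Or.inr (Sum.Lex.inl h))
    · exact Or.inl (Sum.Lex.sep _ _)
    · exact Or.inr (Or.inr (Sum.Lex.sep _ _))
    · rcases hW'.tri a b with h | h | h
      · exact Or.inl (Sum.Lex.inr h)
      · exact Or.inr (Or.inl (congrArg _ h))
      · exact Or.inr (Or.inr (Sum.Lex.inr h))
  · intro a b c hab hbc
    cases hab with
    | inl h => cases hbc with
      | inl h' => exact Sum.Lex.inl (hW.trans _ _ _ h h')
      | sep _ _ => exact Sum.Lex.sep _ _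
    | inr h => cases hbc with
      | inr h' => exact Sum.Lex.inr (hW'.trans _ _ _ h h')
    | sep _ _ => cases hbc with
      | inr h' => exact Sum.Lex.sep _ _
  · rintro (t | t) O hO htO
    · rcases hC t O hO htO with h | ⟨s, hs, h⟩
      · left
        intro w hw
        cases hw with
        | inl hw => exact h _ hw
      · right
        refine ⟨Sum.inl s, Sum.Lex.inl hs, fun w h1 h2 => ?_⟩
        cases h2 with
        | inl h2 => cases h1 with
          | inl h1 => exact h _ h1 h2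
    · right
      rcases hC' t O hO htO with h | ⟨s, hs, h⟩
      · refine ⟨Sum.inl m, Sum.Lex.sep _ _, fun w h1 h2 => ?_⟩
        cases h2 with
        | inr h2 => exact h _ h2
        | sep _ _ => cases h1 with
          | inl h1 => exact (hW.irr h1 ((hl _).imp Eq.symm id)).elim
      · refine ⟨Sum.inr s, Sum.Lex.inr hs, fun w h1 h2 => ?_⟩
        cases h2 with
        | inr h2 => cases h1 with
          | inr h1 => exact h _ h1 h2
        | sep _ _ => cases h1
  · rintro (t | t)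
    · rcases hf t with h | h
      · exact Or.inl (congrArg _ h)
      · exact Or.inr (Sum.Lex.inl h)
    · exact Or.inr (Sum.Lex.sep _ _)
  · rintro (t | t)
    · exact Or.inr (Sum.Lex.sep _ _)
    · rcases hl' t with h | h
      · exact Or.inl (congrArg _ h)
      · exact Or.inr (Sum.Lex.inr h)
  · rw [Set.Sum.elim_range, hr, hr']

private theorem LO1_first {K : Type u} [TopologicalSpace K] {a b : K} {s : Set K}
    (h : LO1I b s) (ha : a ∈ s) : LO1I a s := by
  have h1 := LO1_union (LO1_single a) h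
  rwa [union_eq_self_of_subset_left (singleton_subset_iff.2 ha)] at h1

private theorem LO1_map {K : Type u} [TopologicalSpace K] {a : K} {s : Set K} (h : LO1I a s)
    (f : K → K) (hf : Continuous f) : LO1I (f a) (f '' s) := by
  obtain ⟨T, r, p, o, m, hW, hC, ho, hfi, hl, hr⟩ := h
  refine ⟨T, r, fun t => f (p t), o, m, hW, ?_, congrArg f ho, hfi, hl, ?_⟩
  · intro t O hO ht
    exact hC t (f ⁻¹' O) (hO.preimage hf) ht
  · rw [← hr, ← range_comp]
    rfl

private theorem LO1_sub {K : Type u} [LinearOrder K] [TopologicalSpace K] [OrderTopology K]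
    {e a b c d : K} (h : LO1I e (Icc a b)) (hac : a ≤ c) (hcd : c ≤ d) (hdb : d ≤ b) :
    LO1I c (Icc c d) := by
  have h1 := LO1_map h (fun z => max c (min z d)) (by fun_prop)
  have h2 : (fun z => max c (min z d)) '' Icc a b = Icc c d := by
    ext z
    constructor
    · rintro ⟨w, _, rfl⟩
      exact ⟨le_max_left _ _, max_le hcd (min_le_right _ _)⟩
    · rintro ⟨h3, h4⟩
      refine ⟨z, ⟨hac.trans h3, h4.trans hdb⟩, ?_⟩
      show max c (min z d) = z
      rw [min_eq_left h4, max_eq_right h3]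
  rw [h2] at h1
  exact LO1_first h1 ⟨le_rfl, hcd⟩

private theorem LO1_sigma {K : Type u} [TopologicalSpace K] [LinearOrder K] (Y : Set K)
    (hwf : ∀ s ⊆ Y, s.Nonempty → ∃ y ∈ s, ∀ z ∈ s, y ≤ z) (n : K → K)
    (y0 : K) (hy0 : y0 ∈ Y) (hmin : ∀ y ∈ Y, y0 ≤ y) (x : K) (hx : x ∈ Y)
    (hmax : ∀ y ∈ Y, y ≤ x)
    (hO : ∀ y ∈ Y, y0 < y → ∀ O : Set K, IsOpen O → y ∈ O →
      ∃ v ∈ Y, v < y ∧ ∀ z ∈ Y, v < z → z < y → Icc z (n z) ⊆ O)
    (hI : ∀ y ∈ Y, LO1I y (Icc y (n y))) : LO1I y0 (⋃ y ∈ Y, Icc y (n y)) := by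
  choose T r p o m hW hC ho h1 h2 hr using fun y : Y => hI y.1 y.2
  refine ⟨Σ y : Y, T y, Sigma.Lex (fun a b : Y => a.1 < b.1) r, fun z => p z.1 z.2,
    ⟨⟨y0, hy0⟩, o _⟩, ⟨⟨x, hx⟩, m _⟩, ⟨?_, ?_, ?_⟩, ?_, ?_, ?_, ?_, ?_⟩
  · rw [WellFounded.wellFounded_iff_has_min]
    intro s hs
    obtain ⟨y, ⟨hyY, t, ht⟩, hyl⟩ := hwf {y | ∃ h : y ∈ Y, ∃ t, (⟨⟨y, h⟩, t⟩ : Σ y : Y, T y) ∈ s}
      (fun y hy => hy.1) (by
        obtain ⟨⟨y, t⟩, h⟩ := hs
        exact ⟨y.1, y.2, t, h⟩)
    obtain ⟨t0, ht0, hmin0⟩ := (hW ⟨y, hyY⟩).wf.has_min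
      {t | (⟨⟨y, hyY⟩, t⟩ : Σ y : Y, T y) ∈ s} ⟨t, ht⟩
    refine ⟨⟨⟨y, hyY⟩, t0⟩, ht0, ?_⟩
    rintro ⟨⟨z, hz⟩, w⟩ hzs hlt
    cases hlt with
    | left _ _ h => exact absurd (hyl z ⟨hz, w, hzs⟩) (not_le.2 h)
    | right _ _ h => exact hmin0 w hzs h
  · rintro ⟨a, s⟩ ⟨b, t⟩
    rcases lt_trichotomy a.1 b.1 with h | h | h
    · exact Or.inl (Sigma.Lex.left _ _ h)
    · obtain rfl : a = b := Subtype.ext h
      rcases (hW a).tri s t with h | h | h
      · exact Or.inl (Sigma.Lex.right _ _ h)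
      · subst h
        exact Or.inr (Or.inl rfl)
      · exact Or.inr (Or.inr (Sigma.Lex.right _ _ h))
    · exact Or.inr (Or.inr (Sigma.Lex.left _ _ h))
  · rintro ⟨a, s⟩ ⟨b, t⟩ ⟨c, w⟩ hab hbc
    cases hab with
    | left _ _ h => cases hbc with
      | left _ _ h' => exact Sigma.Lex.left _ _ (h.trans h')
      | right _ _ h' => exact Sigma.Lex.left _ _ h
    | right _ _ h => cases hbc with
      | left _ _ h' => exact Sigma.Lex.left _ _ h'
      | right _ _ h' => exact Sigma.Lex.right _ _ ((hW _).trans _ _ _ h h')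
  · rintro ⟨y, t⟩ O hOo hpO
    rcases hC y t O hOo hpO with h | ⟨s, hs, h⟩
    · by_cases hy : y0 < y.1
      · right
        have hyO : y.1 ∈ O := by
          rw [← ho y]
          rcases h1 y t with h3 | h3
          · rw [← h3]
            exact hpO
          · exact h _ h3
        obtain ⟨v, hvY, hvy, hv⟩ := hO y.1 y.2 hy O hOo hyO
        refine ⟨⟨⟨v, hvY⟩, m ⟨v, hvY⟩⟩, Sigma.Lex.left _ _ hvy, ?_⟩
        rintro ⟨z, w⟩ g1 g2
        cases g2 with
        | left _ _ g2 =>
          have g3 : v < z.1 := by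
            cases g1 with
            | left _ _ g1 => exact g1
            | right _ _ g1 => exact ((hW _).irr g1 ((h2 _ _).imp Eq.symm id)).elim
          apply hv z.1 z.2 g3 g2
          rw [← hr z]
          exact mem_range_self w
        | right _ _ g2 => exact h _ g2
      · left
        rintro ⟨z, w⟩ g
        cases g with
        | left _ _ g => exact absurd (lt_of_le_of_lt (hmin z.1 z.2) g) hy
        | right _ _ g => exact h _ g
    · right
      refine ⟨⟨y, s⟩, Sigma.Lex.right _ _ hs, ?_⟩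
      rintro ⟨z, w⟩ g1 g2
      cases g1 with
      | left _ _ g1 => cases g2 with
        | left _ _ g2 => exact absurd g1 (not_lt.2 (le_of_lt g2))
        | right _ _ g2 => exact absurd g1 (lt_irrefl _)
      | right _ _ g1 => cases g2 with
        | left _ _ g2 => exact absurd g2 (lt_irrefl _)
        | right _ _ g2 => exact h _ g1 g2
  · exact ho _
  · rintro ⟨y, t⟩
    rcases eq_or_lt_of_le (hmin y.1 y.2) with h | h
    · obtain rfl : (⟨y0, hy0⟩ : Y) = y := Subtype.ext h
      rcases h1 _ t with h3 | h3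
      · left
        rw [h3]
      · exact Or.inr (Sigma.Lex.right _ _ h3)
    · exact Or.inr (Sigma.Lex.left _ _ h)
  · rintro ⟨y, t⟩
    rcases eq_or_lt_of_le (hmax y.1 y.2) with h | h
    · obtain rfl : y = (⟨x, hx⟩ : Y) := Subtype.ext h
      rcases h2 _ t with h3 | h3
      · left
        rw [h3]
      · exact Or.inr (Sigma.Lex.right _ _ h3)
    · exact Or.inr (Sigma.Lex.left _ _ h)
  · ext z
    rw [mem_iUnion₂]
    constructor
    · rintro ⟨⟨y, t⟩, rfl⟩
      refine ⟨y.1, y.2, ?_⟩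
      rw [← hr y]
      exact mem_range_self t
    · rintro ⟨y, hy, hz⟩
      have hz' : z ∈ range (p ⟨y, hy⟩) := by
        rw [hr ⟨y, hy⟩]
        exact hz
      obtain ⟨t, rfl⟩ := hz'
      exact ⟨⟨⟨y, hy⟩, t⟩, rfl⟩

section

variable {K : Type u} [LinearOrder K] [TopologicalSpace K] [OrderTopology K] [CompactSpace K]

/-- closed nonempty sets have a least and a greatest element -/
private theorem LO1_least {s : Set K} (hs : IsClosed s) (hne : s.Nonempty) :
    ∃ y ∈ s, ∀ z ∈ s, y ≤ z := by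
  obtain ⟨y, hy, hl⟩ := hs.isCompact.exists_isLeast hne
  exact ⟨y, hy, fun z hz => hl hz⟩

private theorem LO1_greatest {s : Set K} (hs : IsClosed s) (hne : s.Nonempty) :
    ∃ y ∈ s, ∀ z ∈ s, z ≤ y := by
  obtain ⟨y, hy, hl⟩ := hs.isCompact.exists_isGreatest hne
  exact ⟨y, hy, fun z hz => hl hz⟩

omit [CompactSpace K] in
private theorem LO1_left {O : Set K} (hO : IsOpen O) {l y : K} (hy : y ∈ O) (hl : l < y) :
    ∃ w, w < y ∧ Ioc w y ⊆ O := by
  obtain ⟨w, hw, h⟩ := exists_Ioc_subset_of_mem_nhds (hO.mem_nhds hy) ⟨l, hl⟩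
  exact ⟨w, hw, h⟩

private theorem LO1_limit {c x : K} (hcx : c < x)
    (h : ∀ z, c ≤ z → z < x → LO1I c (Icc c z)) : LO1I c (Icc c x) := by
  by_cases hw : ∃ w, c ≤ w ∧ w < x ∧ ∀ z, z < x → z ≤ w
  · obtain ⟨w, hcw, hwx, hw⟩ := hw
    have h1 : Icc c x = Icc c w ∪ {x} := by
      ext z
      constructor
      · rintro ⟨h2, h3⟩
        rcases eq_or_lt_of_le h3 with h4 | h4
        · exact Or.inr h4
        · exact Or.inl ⟨h2, hw z h4⟩
      · rintro (⟨h2, h3⟩ | rfl)
        · exact ⟨h2, h3.trans hwx.le⟩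
        · exact ⟨hcx.le, le_rfl⟩
    rw [h1]
    exact LO1_union (h w hcw hwx) (LO1_single x)
  · push Not at hw
    obtain ⟨A, hA⟩ : ∃ A : Set K, A = {a | c ≤ a ∧ a < x ∧
      ∀ b, c ≤ b → b < x → WellOrderingRel b a → b < a} := ⟨_, rfl⟩
    have hcof : ∀ z, c ≤ z → z < x → ∃ a ∈ A, z ≤ a := by
      intro z hcz hzx
      obtain ⟨a, ⟨hza, hax⟩, hmin⟩ := (IsWellFounded.wf (r := (WellOrderingRel : K → K → Prop))).has_min
        {b | z ≤ b ∧ b < x} ⟨z, le_rfl, hzx⟩
      refine ⟨a, ?_, hza⟩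
      rw [hA]
      refine ⟨hcz.trans hza, hax, fun b hcb hbx hba => ?_⟩
      by_contra hcon
      exact hmin b ⟨hza.trans (not_lt.1 hcon), hbx⟩ hba
    have hAwf : ∀ s ⊆ A, s.Nonempty → ∃ y ∈ s, ∀ z ∈ s, y ≤ z := by
      intro s hsA hs
      obtain ⟨a, ha, hmin⟩ := (IsWellFounded.wf (r := (WellOrderingRel : K → K → Prop))).has_min s hs
      refine ⟨a, ha, fun b hb => ?_⟩
      rcases trichotomous_of (WellOrderingRel : K → K → Prop) a b with h1 | h1 | h1
      · have hbA := hsA hb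
        have haA := hsA ha
        rw [hA] at hbA haA
        exact (hbA.2.2 a haA.1 haA.2.1 h1).le
      · exact h1.le
      · exact absurd h1 (hmin b hb)
    have hAc : ∀ a ∈ A, c ≤ a ∧ a < x := by
      intro a ha
      rw [hA] at ha
      exact ⟨ha.1, ha.2.1⟩
    obtain ⟨Y, hY⟩ : ∃ Y : Set K, Y = closure A := ⟨_, rfl⟩
    have hYc : IsClosed Y := by
      rw [hY]
      exact isClosed_closure
    have hAY : A ⊆ Y := by
      rw [hY]
      exact subset_closure
    have hYx : ∀ y ∈ Y, y ≤ x := by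
      intro y hy
      have h1 : closure A ⊆ Iic x := closure_minimal (fun a ha => (hAc a ha).2.le) isClosed_Iic
      rw [hY] at hy
      exact h1 hy
    have hYl : ∀ y ∈ Y, c ≤ y := by
      intro y hy
      have h1 : closure A ⊆ Ici c := closure_minimal (fun a ha => (hAc a ha).1) isClosed_Ici
      rw [hY] at hy
      exact h1 hy
    have hYo : ∀ O : Set K, IsOpen O → ∀ y ∈ Y, y ∈ O → ∃ a ∈ A, a ∈ O := by
      intro O hO y hy hyO
      rw [hY, mem_closure_iff] at hy
      obtain ⟨a, ha, ha'⟩ := hy O hO hyO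
      exact ⟨a, ha', ha⟩
    have hxY : x ∈ Y := by
      rw [hY, mem_closure_iff]
      intro O hO hxO
      obtain ⟨w, hwx, hwO⟩ := LO1_left hO hxO hcx
      obtain ⟨z, hz, hz'⟩ := hw (max c w) (le_max_left _ _) (max_lt hcx hwx)
      obtain ⟨a, ha, hza⟩ := hcof z ((le_max_left _ _).trans hz'.le) hz
      exact ⟨a, hwO ⟨((le_max_right _ _).trans_lt hz').trans_le hza, (hAc a ha).2.le⟩, ha⟩
    have hYwf : ∀ s ⊆ Y, s.Nonempty → ∃ y ∈ s, ∀ z ∈ s, y ≤ z := by
      intro s hsY hs
      obtain ⟨i, hi, hil⟩ := LO1_least (isClosed_closure (s := s)) hs.closure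
      by_cases his : i ∈ s
      · exact ⟨i, his, fun z hz => hil z (subset_closure hz)⟩
      · exfalso
        have h1 : ∀ w, i < w → ∃ a ∈ A, i < a ∧ a < w := by
          intro w hiw
          obtain ⟨y, hy, hys⟩ := mem_closure_iff.1 hi (Iio w) isOpen_Iio hiw
          have hiy : i < y := lt_of_le_of_ne (hil y (subset_closure hys))
            (fun h => his (h ▸ hys))
          obtain ⟨a, ha, ha'⟩ := hYo (Ioo i w) isOpen_Ioo y (hsY hys) ⟨hiy, hy⟩
          exact ⟨a, ha, ha'.1, ha'.2⟩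
        obtain ⟨y, hys⟩ := hs
        have hiy : i < y := lt_of_le_of_ne (hil y (subset_closure hys))
            (fun h => his (h ▸ hys))
        obtain ⟨a1, ha1, ha1', _⟩ := h1 y hiy
        obtain ⟨a0, ha0, hmin0⟩ := hAwf {a | a ∈ A ∧ i < a} (fun a ha => ha.1) ⟨a1, ha1, ha1'⟩
        obtain ⟨a2, ha2, h2, h3⟩ := h1 a0 ha0.2
        exact absurd (hmin0 a2 ⟨ha2, h2⟩) (not_le.2 h3)
    obtain ⟨y0, hy0, hy0l⟩ := LO1_least hYc ⟨x, hxY⟩
    have hn : ∀ y, ∃ n, (y ∈ Y → y < x → n ∈ Y ∧ y < n ∧ (∀ z ∈ Y, y < z → n ≤ z)) ∧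
        (¬ y < x → n = y) := by
      intro y
      by_cases hyx : y < x
      · obtain ⟨n, hn, hnl⟩ := hYwf {z | z ∈ Y ∧ y < z} (fun z hz => hz.1) ⟨x, hxY, hyx⟩
        exact ⟨n, fun _ _ => ⟨hn.1, hn.2, fun z hz hyz => hnl z ⟨hz, hyz⟩⟩,
          fun h => absurd hyx h⟩
      · exact ⟨y, fun _ h => absurd h hyx, fun _ => rfl⟩
    choose n hn1 hn2 using hn
    have hnx : ∀ y ∈ Y, y < x → n y < x := by
      intro y hy hyx
      obtain ⟨z, hz, hz'⟩ := hw y (hYl y hy) hyx
      obtain ⟨a, ha, hza⟩ := hcof z ((hYl y hy).trans hz'.le) hz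
      exact ((hn1 y hy hyx).2.2 a (hAY ha) (hz'.trans_le hza)).trans_lt (hAc a ha).2
    have hI : ∀ y ∈ Y, LO1I y (Icc y (n y)) := by
      intro y hy
      by_cases hyx : y < x
      · have h1 := hn1 y hy hyx
        exact LO1_sub (h (n y) ((hYl y hy).trans h1.2.1.le) (hnx y hy hyx)) (hYl y hy)
          h1.2.1.le le_rfl
      · rw [hn2 y hyx, Icc_self]
        exact LO1_single y
    have hO : ∀ y ∈ Y, y0 < y → ∀ O : Set K, IsOpen O → y ∈ O →
        ∃ v ∈ Y, v < y ∧ ∀ z ∈ Y, v < z → z < y → Icc z (n z) ⊆ O := by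
      intro y hy h0y O hOo hyO
      obtain ⟨w, hwy, hwO⟩ := LO1_left hOo hyO h0y
      by_cases hv : ∃ v ∈ Y, w ≤ v ∧ v < y
      · obtain ⟨v, hvY, hwv, hvy⟩ := hv
        refine ⟨v, hvY, hvy, fun z hz hvz hzy t ht => hwO ⟨?_, ?_⟩⟩
        · exact (hwv.trans_lt hvz).trans_le ht.1
        · exact ht.2.trans ((hn1 z hz (hzy.trans_le (hYx y hy))).2.2 y hy hzy)
      · push Not at hv
        obtain ⟨v, hvY, hvg⟩ := LO1_greatest (hYc.inter (isClosed_Iic (a := w))) ⟨y0, hy0, by
          by_contra hcon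
          exact absurd (hv y0 hy0 (not_le.1 hcon).le) (not_le.2 h0y)⟩
        refine ⟨v, hvY.1, hvY.2.trans_lt hwy, fun z hz hvz hzy => ?_⟩
        exfalso
        have h1 : z < w := by
          by_contra hcon
          exact absurd (hv z hz (not_lt.1 hcon)) (not_le.2 hzy)
        exact absurd (hvg z ⟨hz, h1.le⟩) (not_le.2 hvz)
    have h1 := LO1_sigma Y hYwf n y0 hy0 hy0l x hxY hYx hO hI
    have h0x : y0 < x := by
      obtain ⟨a, ha, _⟩ := hcof c le_rfl hcx
      exact (hy0l a (hAY ha)).trans_lt (hAc a ha).2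
    have h2 := LO1_union (h y0 (hYl y0 hy0) h0x) h1
    have h3 : Icc c y0 ∪ (⋃ y ∈ Y, Icc y (n y)) = Icc c x := by
      ext z
      constructor
      · rintro (⟨h3, h4⟩ | h3)
        · exact ⟨h3, h4.trans h0x.le⟩
        · rw [mem_iUnion₂] at h3
          obtain ⟨y, hy, h4, h5⟩ := h3
          refine ⟨(hYl y hy).trans h4, ?_⟩
          by_cases hyx : y < x
          · exact h5.trans (hnx y hy hyx).le
          · rw [hn2 y hyx] at h5
            exact h5.trans (hYx y hy)
      · rintro ⟨h3, h4⟩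
        rcases le_total z y0 with h5 | h5
        · exact Or.inl ⟨h3, h5⟩
        · right
          obtain ⟨y, hyY, hyg⟩ := LO1_greatest (hYc.inter (isClosed_Iic (a := z))) ⟨y0, hy0, h5⟩
          rw [mem_iUnion₂]
          refine ⟨y, hyY.1, hyY.2, ?_⟩
          by_cases hyx : y < x
          · have h6 := hn1 y hyY.1 hyx
            by_contra hcon
            exact absurd (hyg (n y) ⟨h6.1, (not_le.1 hcon).le⟩) (not_le.2 h6.2.1)
          · rw [hn2 y hyx]
            exact h4.trans (not_lt.1 hyx)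
    rw [h3] at h2
    exact h2

private theorem LO1_limit' {c x : K} (hcx : x < c)
    (h : ∀ z, z ≤ c → x < z → LO1I c (Icc z c)) : LO1I c (Icc x c) := by
  have : CompactSpace Kᵒᵈ := (inferInstance : CompactSpace K)
  have key := LO1_limit (K := Kᵒᵈ) (c := OrderDual.toDual c) (x := OrderDual.toDual x) hcx
    (fun z hz hz' => by
      have h1 := h (OrderDual.ofDual z) hz hz'
      have h2 : (Icc (OrderDual.toDual c) z : Set Kᵒᵈ) = (Icc (OrderDual.ofDual z) c : Set K) := by
        ext w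
        exact and_comm
      rw [h2]
      exact h1)
  have h2 : (Icc (OrderDual.toDual c) (OrderDual.toDual x) : Set Kᵒᵈ) = (Icc x c : Set K) := by
    ext w
    exact and_comm
  rw [h2] at key
  exact key

private theorem LO1_low (z : K) : ∃ w, w ≤ z ∧ LO1I z (Icc w z) ∧
    ∀ v, v ≤ z → LO1I z (Icc v z) → w ≤ v := by
  have hz : LO1I z (Icc z z) := by
    rw [Icc_self]
    exact LO1_single z
  obtain ⟨i, hi, hil⟩ := LO1_least (isClosed_closure (s := {w | w ≤ z ∧ LO1I z (Icc w z)}))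
    ⟨z, subset_closure ⟨le_rfl, hz⟩⟩
  by_cases his : i ∈ {w | w ≤ z ∧ LO1I z (Icc w z)}
  · exact ⟨i, his.1, his.2, fun v hv h => hil v (subset_closure ⟨hv, h⟩)⟩
  · exfalso
    have hiz : i < z := lt_of_le_of_ne (hil z (subset_closure ⟨le_rfl, hz⟩)) (by
      rintro rfl
      exact his ⟨le_rfl, hz⟩)
    apply his
    refine ⟨hiz.le, LO1_limit' hiz fun v hvz hiv => ?_⟩
    obtain ⟨w, hw, hws⟩ := mem_closure_iff.1 hi (Iio v) isOpen_Iio hiv
    exact LO1_first (LO1_sub hws.2 (le_of_lt hw) hvz le_rfl) ⟨hvz, le_rfl⟩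

private theorem LO1_all [Nonempty K]
    (hK : ∀ s : Set K, s.Nonempty → ∃ x ∈ s, ∃ U : Set K, IsOpen U ∧ U ∩ s = {x}) :
    ∃ a : K, LO1I a (univ : Set K) := by
  obtain ⟨b, _, hb⟩ := LO1_least (isClosed_univ (X := K)) univ_nonempty
  obtain ⟨t, _, ht⟩ := LO1_greatest (isClosed_univ (X := K)) univ_nonempty
  choose l hl1 hl2 hl3 using (LO1_low (K := K))
  by_cases hs : ∃ z, l z ≠ b
  · exfalso
    obtain ⟨z0, hz0⟩ := hs
    obtain ⟨y, ⟨z, hzb, hzy⟩, U, hU, hUs⟩ := hK {y | ∃ z, l z ≠ b ∧ l z = y} ⟨l z0, z0, hz0, rfl⟩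
    have hyU : y ∈ U := by
      have h1 : y ∈ U ∩ {y | ∃ z, l z ≠ b ∧ l z = y} := by
        rw [hUs]
        rfl
      exact h1.1
    have hby : b < y := lt_of_le_of_ne (hb y (mem_univ _)) (fun h => hzb (hzy.trans h.symm))
    obtain ⟨w, hwy, hwU⟩ := LO1_left hU hyU hby
    have h1 : ∀ v, w ≤ v → v < y → LO1I w (Icc w v) := by
      intro v hwv hvy
      have h2 : l v ≤ w := by
        by_contra hcon
        have h3 : l v ∈ U := hwU ⟨not_le.1 hcon, (hl1 v).trans hvy.le⟩
        by_cases h4 : l v = b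
        · exact hcon (h4.le.trans (hb w (mem_univ _)))
        · have h5 : l v ∈ U ∩ {y | ∃ z, l z ≠ b ∧ l z = y} := ⟨h3, v, h4, rfl⟩
          rw [hUs] at h5
          exact absurd (h5 : l v = y) ((hl1 v).trans_lt hvy).ne
      exact LO1_sub (hl2 v) h2 hwv le_rfl
    have h2 := LO1_limit hwy h1
    have h3 := hl2 z
    rw [hzy] at h3
    have hyz : y ≤ z := hzy ▸ hl1 z
    have h4 := LO1_first (LO1_union h2 h3) (show z ∈ Icc w y ∪ Icc y z from Or.inr ⟨hyz, le_rfl⟩)
    rw [Icc_union_Icc_eq_Icc hwy.le hyz] at h4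
    have h5 := hl3 z w (hwy.le.trans hyz) h4
    rw [hzy] at h5
    exact absurd h5 (not_le.2 hwy)
  · push Not at hs
    refine ⟨t, ?_⟩
    have h1 := hl2 t
    rw [hs t] at h1
    have h2 : (univ : Set K) = Icc b t := by
      ext z
      exact ⟨fun _ => ⟨hb z (mem_univ _), ht z (mem_univ _)⟩, fun _ => mem_univ _⟩
    rw [h2]
    exact h1

end

private theorem LO1_compact {T : Type u} [TopologicalSpace T] [PartialOrder T] (h : IsTree T)
    (t : T) : IsCompact (Iic t) := by
  induction t using h.wf.induction with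
  | _ t ih =>
    rw [isCompact_iff_ultrafilter_le_nhds]
    intro f hf
    have hft : Iic t ∈ f := le_principal_iff.1 hf
    by_cases ht : (f : Filter T) ≤ 𝓝 t
    · exact ⟨t, mem_Iic.2 le_rfl, ht⟩
    · rw [Filter.not_le] at ht
      obtain ⟨s, hs, hsf⟩ := ht
      obtain ⟨U, hUs, hUo, htU⟩ := mem_nhds_iff.1 hs
      have hUf : U ∉ f := fun h' => hsf (mem_of_superset h' hUs)
      rcases (h.top U).1 hUo t htU with h1 | ⟨s, hst, h1⟩
      · exact absurd (mem_of_superset hft h1) hUf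
      · have h2 : Iic s ∪ Ioc s t ∈ f := by
          refine mem_of_superset hft fun x hx => ?_
          rcases h.chain t x s hx hst.le with h1 | h1
          · exact Or.inl h1
          · rcases eq_or_lt_of_le h1 with h2 | h2
            · exact Or.inl h2.ge
            · exact Or.inr ⟨h2, hx⟩
        rcases Ultrafilter.union_mem_iff.1 h2 with h3 | h3
        · obtain ⟨x, hx, hfx⟩ :=
            isCompact_iff_ultrafilter_le_nhds.1 (ih s hst) f (le_principal_iff.2 h3)
          exact ⟨x, le_trans hx hst.le, hfx⟩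
        · exact absurd (mem_of_superset h3 h1) hUf

private theorem LO1_tree {K : Type u} [TopologicalSpace K] {a : K}
    (h : LO1I a (univ : Set K)) :
    ∃ (T : Type u) (_ : PartialOrder T) (_ : TopologicalSpace T), IsTree T ∧ CompactSpace T ∧
      T2Space T ∧ ∃ p : T → K, Continuous p ∧ Function.Surjective p := by
  obtain ⟨T, r, p, o, m, hW, hC, ho, hfi, hl, hr⟩ := h
  let po : PartialOrder T :=
    { le := fun a b => a = b ∨ r a b
      lt := r
      le_refl := fun a => Or.inl rfl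
      le_trans := by
        rintro a b c (rfl | h1) (rfl | h2)
        · exact Or.inl rfl
        · exact Or.inr h2
        · exact Or.inr h1
        · exact Or.inr (hW.trans _ _ _ h1 h2)
      lt_iff_le_not_ge := by
        intro a b
        constructor
        · intro h1
          exact ⟨Or.inr h1, fun h2 => hW.irr h1 (h2.imp Eq.symm id)⟩
        · rintro ⟨h1 | h1, h2⟩
          · exact absurd (Or.inl h1.symm) h2
          · exact h1
      le_antisymm := by
        rintro a b (h1 | h1) h2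
        · exact h1
        · exact (hW.irr h1 (h2.imp Eq.symm id)).elim }
  let tp : TopologicalSpace T :=
    { IsOpen := fun U => ∀ t ∈ U, Iic t ⊆ U ∨ ∃ s, s < t ∧ Ioc s t ⊆ U
      isOpen_univ := fun t _ => Or.inl (subset_univ _)
      isOpen_inter := by
        rintro U V hU hV t ⟨htU, htV⟩
        rcases hU t htU with h1 | ⟨s, hs, h1⟩
        · rcases hV t htV with h2 | ⟨s', hs', h2⟩
          · exact Or.inl (subset_inter h1 h2)
          · exact Or.inr ⟨s', hs', subset_inter (fun x hx => h1 hx.2) h2⟩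
        · rcases hV t htV with h2 | ⟨s', hs', h2⟩
          · exact Or.inr ⟨s, hs, subset_inter h1 (fun x hx => h2 hx.2)⟩
          · rcases hW.tri s s' with h3 | h3 | h3
            · exact Or.inr ⟨s', hs', subset_inter
                (fun x hx => h1 ⟨lt_trans (show s < s' from h3) hx.1, hx.2⟩) h2⟩
            · subst h3
              exact Or.inr ⟨s, hs, subset_inter h1 h2⟩
            · exact Or.inr ⟨s, hs, subset_inter h1
                (fun x hx => h2 ⟨lt_trans (show s' < s from h3) hx.1, hx.2⟩)⟩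
      isOpen_sUnion := by
        rintro S hS t ⟨U, hUS, htU⟩
        rcases hS U hUS t htU with h1 | ⟨s, hs, h1⟩
        · exact Or.inl (h1.trans (subset_sUnion_of_mem hUS))
        · exact Or.inr ⟨s, hs, h1.trans (subset_sUnion_of_mem hUS)⟩ }
  have hT : IsTree T :=
    ⟨fun t a b _ _ => by
      rcases hW.tri a b with h1 | h1 | h1
      · exact Or.inl (Or.inr h1)
      · exact Or.inl (Or.inl h1)
      · exact Or.inr (Or.inr h1), hW.wf, fun U => Iff.rfl⟩
  have hIic : ∀ t : T, IsOpen (Iic t) := fun t => fun w hw => Or.inl (Iic_subset_Iic.2 hw)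
  have hIoi : ∀ t : T, IsOpen (Ioi t) := fun t => fun w hw => Or.inr ⟨t, hw, fun x hx => hx.1⟩
  refine ⟨T, po, tp, hT, ⟨?_⟩, ⟨?_⟩, p, ⟨?_⟩, ?_⟩
  · have h1 : (univ : Set T) = Iic m := by
      ext t
      exact ⟨fun _ => hl t, fun _ => mem_univ _⟩
    rw [h1]
    exact LO1_compact hT m
  · intro a b hab
    rcases hW.tri a b with h1 | h1 | h1
    · exact ⟨Iic a, Ioi a, hIic a, hIoi a, mem_Iic.2 le_rfl, h1,
        Set.disjoint_left.2 fun x hx hx' =>
          absurd (lt_of_lt_of_le (show a < x from hx') (show x ≤ a from hx)) (lt_irrefl _)⟩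
    · exact absurd h1 hab
    · exact ⟨Ioi b, Iic b, hIoi b, hIic b, h1, mem_Iic.2 le_rfl,
        Set.disjoint_left.2 fun x hx hx' =>
          absurd (lt_of_lt_of_le (show b < x from hx) (show x ≤ b from hx')) (lt_irrefl _)⟩
  · intro O hO t ht
    rcases hC t O hO ht with h1 | ⟨s, hs, h1⟩
    · left
      rintro x (rfl | hx)
      · exact ht
      · exact h1 x hx
    · right
      refine ⟨s, hs, ?_⟩
      rintro x ⟨hsx, (rfl | hx)⟩
      · exact ht
      · exact h1 x hsx hx
  · intro z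
    have h1 : z ∈ range p := by
      rw [hr]
      exact mem_univ z
    exact h1

theorem exists_tree_image (K : Type u) [LinearOrder K] [TopologicalSpace K] [OrderTopology K]
    [CompactSpace K]
    (hK : ∀ s : Set K, s.Nonempty → ∃ x ∈ s, ∃ U : Set K, IsOpen U ∧ U ∩ s = {x}) :
    ∃ (T : Type u) (_ : PartialOrder T) (_ : TopologicalSpace T), IsTree T ∧ CompactSpace T ∧
      T2Space T ∧ ∃ p : T → K, Continuous p ∧ Function.Surjective p := by
  rcases isEmpty_or_nonempty K with hE | hN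
  · refine ⟨K, inferInstance, inferInstance, ⟨fun t => isEmptyElim t,
      ⟨fun t => isEmptyElim t⟩, fun U => ⟨fun _ t => isEmptyElim t, fun _ => ?_⟩⟩, inferInstance,
      inferInstance, id, continuous_id, Function.surjective_id⟩
    have h1 : U = ∅ := Set.eq_empty_of_isEmpty U
    rw [h1]
    exact isOpen_empty
  · obtain ⟨a, ha⟩ := LO1_all hK
    exact LO1_tree ha

end Pool.Agent.CKT
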