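import Pool.Agent.CKT.Ttr
import Pool.Agent.CKT.Lo1

/-!
Row LO2: closed subspaces of finite products of scattered compact linearly ordered spaces.
-/

set_option autoImplicit false

open Set Filter Topology

namespace Pool.Agent.CKT

universe u v

theorem R_lins (K : Type u) [t : TopologicalSpace K] [CompactSpace K] [T2Space K] {ι : Type}
    [Finite ι] (S : ι → Type u) [∀ i, LinearOrder (S i)] [∀ i, TopologicalSpace (S i)]
    [∀ i, OrderTopology (S i)] [∀ i, CompactSpace (S i)]
    (hS : ∀ i, ∀ s : Set (S i), s.Nonempty → ∃ x ∈ s, ∃ U : Set (S i), IsOpen U ∧ U ∩ s = {x})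
    (φ : K → ∀ i, S i) (hφ : Continuous φ) (hi : Function.Injective φ) : R K t ∅ := by
  choose T o τ hT hc h2 p hp hs using fun i => exists_tree_image (S i) (hS i)
  have hφc : IsClosedEmbedding φ := hφ.isClosedEmbedding hi
  let q : (∀ i, T i) → ∀ i, S i := fun s i => p i (s i)
  have hq : Continuous q := continuous_pi fun i => (hp i).comp (continuous_apply i)
  have hqs : Function.Surjective q := by
    intro y
    choose s hs' using fun i => hs i (y i)
    exact ⟨s, funext hs'⟩
  let L : Set (∀ i, T i) := q ⁻¹' (range φ)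
  have hL : IsClosed L := hφc.isClosed_range.preimage hq
  have : CompactSpace L := isCompact_iff_compactSpace.1 hL.isCompact
  have hR : R L inferInstance ∅ := by
    refine R_trees L ∅ isClosed_empty T hT L hL ?_
    exact (Homeomorph.setCongr (compl_empty (α := L))).trans (Homeomorph.Set.univ L)
  let e : K ≃ₜ range φ := hφc.isEmbedding.toHomeomorph
  let f : L → K := fun x => e.symm ⟨q x.1, x.2⟩
  have hf : Continuous f :=
    e.symm.continuous.comp ((hq.comp continuous_subtype_val).subtype_mk fun x => x.2)
  have hfs : Function.Surjective f := by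
    intro k
    obtain ⟨s, hs'⟩ := hqs (φ k)
    refine ⟨⟨s, ⟨k, hs'.symm⟩⟩, ?_⟩
    have h1 : e k = ⟨q s, ⟨k, hs'.symm⟩⟩ := Subtype.ext hs'.symm
    change e.symm ⟨q s, ⟨k, hs'.symm⟩⟩ = k
    rw [← h1]
    exact e.symm_apply_apply k
  refine R.image L K inferInstance t inferInstance f hf hfs ∅ ?_
  rw [preimage_empty]
  exact hR

end Pool.Agent.CKT
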