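import Pool.Agent.CKT.Defs

/-!
# One-point compactifications of spaces with a tree-like order (MP_0211b8_an)
-/

set_option autoImplicit false

open Set Filter Topology

namespace Pool.Agent.CKT

universe u v

private theorem one_empty (K : Type u) [t : TopologicalSpace K] [IsEmpty K] : G K t := by
  refine G.rule K t inferInstance inferInstance (fun _ => ∅) ⟨fun _ => isClosed_empty, ?_, ?_⟩ ?_
  · intro A U _ _ _
    exact Set.toFinite _
  · intro M _ hM
    obtain ⟨x, _⟩ := hM
    exact isEmptyElim x
  · intro x
    exact isEmptyElim x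

private theorem one_single (K : Type u) [t : TopologicalSpace K] [Subsingleton K] : G K t := by
  refine G.rule K t inferInstance inferInstance (fun _ => ∅) ⟨fun _ => isClosed_empty, ?_, ?_⟩ ?_
  · intro A U _ _ _
    exact Set.toFinite _
  · intro M _ hM
    obtain ⟨x, hx⟩ := hM
    exact ⟨x, hx, fun y hy => (Set.mem_empty_iff_false y).1 hy |>.elim⟩
  · intro x
    exact one_empty _

section
variable {L : Type u} [TopologicalSpace L] [PartialOrder L]

/-- The minimal elements above `x`. -/
private def nx1 (x : L) : Set L := {y | x < y ∧ ∀ u, x < u → u ≤ y → u = y}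

private theorem nx1_exists (h : TreeLike L) {x z : L} (hxz : x < z) : ∃ y ∈ nx1 x, y ≤ z := by
  obtain ⟨y, hy, hmin⟩ := h.wf.has_min {u : L | x < u ∧ u ≤ z} ⟨z, hxz, le_rfl⟩
  refine ⟨y, ⟨hy.1, fun u hu huy => ?_⟩, hy.2⟩
  by_contra hne
  exact hmin u ⟨hu, huy.trans hy.2⟩ (lt_of_le_of_ne huy hne)

private theorem nx1_finite (h : TreeLike L) (x : L) {C : Set L} (hC : IsCompact C) :
    (nx1 x ∩ C).Finite := by
  by_contra hinf
  have hinf' : (nx1 x ∩ C).Infinite := hinf
  let e := hinf'.natEmbedding
  obtain ⟨φ, hφ, hm, _⟩ := h.seq C hC (fun k => (e k).1)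
    (fun a b hab => e.injective (Subtype.ext hab)) (fun k => (e k).2.2)
  have h01 : (e (φ 0)).1 < (e (φ 1)).1 := hm Nat.zero_lt_one
  exact h01.ne ((e (φ 1)).2.1.2 _ (e (φ 0)).2.1.1 h01.le)

private theorem nx1_closed [T2Space L] [LocallyCompactSpace L] (h : TreeLike L) (x : L) :
    IsClosed (nx1 x) := by
  rw [← isOpen_compl_iff, isOpen_iff_mem_nhds]
  intro a ha
  obtain ⟨C, hC, hCa⟩ := exists_compact_mem_nhds a
  have hfin := nx1_finite h x hC
  have h1 : (nx1 x ∩ C)ᶜ ∈ 𝓝 a := hfin.isClosed.isOpen_compl.mem_nhds (fun h2 => ha h2.1)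
  filter_upwards [hCa, h1] with b hb1 hb2 hb3
  exact hb2 ⟨hb3, hb1⟩

/-- the system on the one-point compactification -/
private def F1 (z : OnePoint L) : Set (OnePoint L) :=
  {w | ∃ x : L, z = (x : OnePoint L) ∧ ∀ y : L, w = (y : OnePoint L) → y ∈ nx1 x}

private theorem F1_infty : F1 (OnePoint.infty : OnePoint L) = ∅ := by
  ext w
  simp only [F1, Set.mem_setOf_eq, Set.mem_empty_iff_false, iff_false]
  rintro ⟨x, hx, _⟩
  exact OnePoint.infty_ne_coe x hx

private theorem F1_coe (x : L) : F1 (x : OnePoint L) =
    ((fun y : L => (y : OnePoint L)) '' (nx1 x)ᶜ)ᶜ := by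
  ext w
  simp only [F1, Set.mem_setOf_eq, Set.mem_compl_iff, Set.mem_image]
  constructor
  · rintro ⟨x', hx', h1⟩ ⟨y, hy, rfl⟩
    have : x = x' := OnePoint.coe_injective hx'
    subst this
    exact hy (h1 y rfl)
  · intro h1
    refine ⟨x, rfl, fun y hy => ?_⟩
    by_contra h2
    exact h1 ⟨y, h2, hy.symm⟩

private theorem F1_closed [T2Space L] [LocallyCompactSpace L] (h : TreeLike L)
    (z : OnePoint L) : IsClosed (F1 z) := by
  induction z using OnePoint.rec with
  | infty => rw [F1_infty]; exact isClosed_empty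
  | coe x =>
    rw [F1_coe]
    exact (OnePoint.isOpen_image_coe.2 (nx1_closed h x).isOpen_compl).isClosed_compl

private theorem F1_mem_infty (x : L) : (OnePoint.infty : OnePoint L) ∈ F1 (x : OnePoint L) :=
  ⟨x, rfl, fun y hy => (OnePoint.infty_ne_coe y hy).elim⟩

private theorem F1_mem_coe {x y : L} (hy : y ∈ nx1 x) : (y : OnePoint L) ∈ F1 (x : OnePoint L) :=
  ⟨x, rfl, fun y' hy' => by
    have : y = y' := OnePoint.coe_injective hy'
    subst this
    exact hy⟩

private theorem F1_coe_mem {x y : L} (hy : (y : OnePoint L) ∈ F1 (x : OnePoint L)) :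
    y ∈ nx1 x := by
  obtain ⟨x', hx', h1⟩ := hy
  have : x = x' := OnePoint.coe_injective hx'
  subst this
  exact h1 y rfl

private theorem F1_G [T2Space L] [LocallyCompactSpace L] (h : TreeLike L) (z : OnePoint L) :
    G (F1 z) inferInstance := by
  induction z using OnePoint.rec with
  | infty =>
    have : IsEmpty (F1 (OnePoint.infty : OnePoint L)) := by
      rw [F1_infty]
      infer_instance
    exact one_empty _
  | coe x =>
    have hcp : CompactSpace (F1 (x : OnePoint L)) :=
      isCompact_iff_compactSpace.1 (F1_closed h _).isCompact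
    let F' : F1 (x : OnePoint L) → Set (F1 (x : OnePoint L)) := fun z =>
      {w | w.1 = OnePoint.infty ∧ z.1 ≠ OnePoint.infty}
    have hsub : ∀ z, (F' z).Subsingleton := by
      intro z a ha b hb
      exact Subtype.ext (ha.1.trans hb.1.symm)
    refine G.rule _ _ hcp inferInstance F' ⟨fun z => (hsub z).isClosed, ?_, ?_⟩ ?_
    · intro A U hA hU hAU
      by_cases hI : (⟨OnePoint.infty, F1_mem_infty x⟩ : F1 (x : OnePoint L)) ∈ U
      · refine (Set.finite_singleton
          (⟨OnePoint.infty, F1_mem_infty x⟩ : F1 (x : OnePoint L))).subset ?_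
        rintro z ⟨hz, hz2⟩
        by_contra hne
        refine hz2 ⟨OnePoint.infty, F1_mem_infty x⟩ ⟨rfl, fun h3 => hne ?_⟩ hI
        exact Subtype.ext h3
      · have hIA : (⟨OnePoint.infty, F1_mem_infty x⟩ : F1 (x : OnePoint L)) ∉ A :=
          fun h3 => hI (hAU h3)
        have hA2 : IsClosed ((fun w : F1 (x : OnePoint L) => w.1) '' A) :=
          (F1_closed h _).isClosedEmbedding_subtypeVal.isClosedMap A hA
        have hI2 : (OnePoint.infty : OnePoint L) ∉
            ((fun w : F1 (x : OnePoint L) => w.1) '' A) := by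
          rintro ⟨w, hw, hw2⟩
          apply hIA
          have : w = ⟨OnePoint.infty, F1_mem_infty x⟩ := Subtype.ext hw2
          rw [← this]
          exact hw
        have hC := ((OnePoint.isClosed_iff_of_notMem hI2).1 hA2).2
        have hfin := nx1_finite h x hC
        have hAf : ((fun w : F1 (x : OnePoint L) => w.1) '' A).Finite := by
          refine (hfin.image (fun y : L => (y : OnePoint L))).subset ?_
          rintro _ ⟨w, hw, rfl⟩
          obtain ⟨v, hv⟩ := w
          induction v using OnePoint.rec with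
          | infty => exact (hIA hw).elim
          | coe y => exact ⟨y, ⟨F1_coe_mem hv, ⟨⟨(y : OnePoint L), hv⟩, hw, rfl⟩⟩, rfl⟩
        have hAf2 : A.Finite := hAf.of_finite_image (Subtype.val_injective.injOn)
        exact hAf2.subset (fun z hz => hz.1)
    · intro M hM hMn
      by_cases hI : (⟨OnePoint.infty, F1_mem_infty x⟩ : F1 (x : OnePoint L)) ∈ M
      · exact ⟨_, hI, fun y hy => (hy.2 rfl).elim⟩
      · obtain ⟨z, hz⟩ := hMn
        refine ⟨z, hz, fun y hy hy2 => hI ?_⟩
        have : y = ⟨OnePoint.infty, F1_mem_infty x⟩ := Subtype.ext hy.1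
        rw [← this]
        exact hy2
    · intro z
      have : Subsingleton (F' z) := Set.subsingleton_coe _ |>.2 (hsub z)
      exact one_single _

private theorem F1_sys [T2Space L] [LocallyCompactSpace L] (h : TreeLike L) :
    Sys (OnePoint L) (F1 (L := L)) := by
  refine ⟨F1_closed h, ?_, ?_⟩
  · intro A U hA hU hAU
    by_cases hI : (OnePoint.infty : OnePoint L) ∈ U
    · refine (Set.finite_singleton (OnePoint.infty : OnePoint L)).subset ?_
      rintro z ⟨hz, hz2⟩
      induction z using OnePoint.rec with
      | infty => rfl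
      | coe x => exact (hz2 _ (F1_mem_infty x) hI).elim
    · have hIA : (OnePoint.infty : OnePoint L) ∉ A := fun h3 => hI (hAU h3)
      obtain ⟨hCc, hC⟩ := (OnePoint.isClosed_iff_of_notMem hIA).1 hA
      by_contra hinf
      have hS : {x : L | (x : OnePoint L) ∈ A ∧ ∀ w ∈ F1 (x : OnePoint L), w ∉ U}.Infinite := by
        intro hfin
        apply hinf
        refine (hfin.image (fun y : L => (y : OnePoint L))).subset ?_
        rintro z ⟨hz, hz2⟩
        induction z using OnePoint.rec with
        | infty => exact (hIA hz).elim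
        | coe x => exact ⟨x, ⟨hz, hz2⟩, rfl⟩
      let e := hS.natEmbedding
      obtain ⟨φ, hφ, hm, t, ht⟩ := h.seq _ hC (fun k => (e k).1)
        (fun a b hab => e.injective (Subtype.ext hab)) (fun k => (e k).2.1)
      let u : ℕ → L := fun k => (e (φ k)).1
      have hu : StrictMono u := hm
      have hut : ∀ k, u k ≤ t := ht
      have hy : ∀ k, ∃ y ∈ nx1 (u k), y ≤ u (k + 1) :=
        fun k => nx1_exists h (hu (Nat.lt_succ_self k))
      choose y hy1 hy2 using hy
      let w : ℕ → L := fun m => if m % 2 = 0 then u m else y (m - 1)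
      have hw0 : ∀ j, w (2 * j) = u (2 * j) := fun j => if_pos (by omega)
      have hw1 : ∀ j, w (2 * j + 1) = y (2 * j) := fun j => by
        have : w (2 * j + 1) = y (2 * j + 1 - 1) := if_neg (by omega)
        rw [this]
        rfl
      have hwm : StrictMono w := by
        apply strictMono_nat_of_lt_succ
        intro m
        rcases Nat.even_or_odd' m with ⟨j, hj | hj⟩
        · subst hj
          rw [hw0, hw1]
          exact (hy1 (2 * j)).1
        · subst hj
          have h1 : w (2 * j + 1 + 1) = u (2 * (j + 1)) := hw0 (j + 1)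
          rw [h1, hw1]
          exact lt_of_le_of_lt (hy2 (2 * j)) (hu (by omega))
      obtain ⟨a, ha⟩ := h.conv w hwm ⟨t, fun m => by
        rcases Nat.even_or_odd' m with ⟨j, hj | hj⟩
        · subst hj
          rw [hw0]
          exact hut _
        · subst hj
          rw [hw1]
          exact (hy2 (2 * j)).trans (hut _)⟩
      have hae : Tendsto (fun j => w (2 * j)) atTop (𝓝 a) :=
        ha.comp (tendsto_atTop_mono (fun j => by show j ≤ 2 * j; omega) tendsto_id)
      have hao : Tendsto (fun j => w (2 * j + 1)) atTop (𝓝 a) :=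
        ha.comp (tendsto_atTop_mono (fun j => by show j ≤ 2 * j + 1; omega) tendsto_id)
      have haC : (a : OnePoint L) ∈ A := by
        refine hCc.mem_of_tendsto hae (Eventually.of_forall fun j => ?_)
        show ((w (2 * j) : L) : OnePoint L) ∈ A
        rw [hw0]
        exact (e (φ (2 * j))).2.1
      have haU : (a : OnePoint L) ∈ U := hAU haC
      have hoU : IsOpen ((fun y : L => (y : OnePoint L)) ⁻¹' U) :=
        hU.preimage OnePoint.continuous_coe
      have hev := hao.eventually (hoU.mem_nhds haU)
      obtain ⟨j, hj⟩ := hev.exists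
      have hj' : ((w (2 * j + 1) : L) : OnePoint L) ∈ U := hj
      rw [hw1] at hj'
      exact (e (φ (2 * j))).2.2 _ (F1_mem_coe (hy1 (2 * j))) hj'
  · intro M hM hMn
    by_cases hI : (OnePoint.infty : OnePoint L) ∈ M
    · refine ⟨_, hI, fun y hy => ?_⟩
      rw [F1_infty] at hy
      exact hy.elim
    · have hC := ((OnePoint.isClosed_iff_of_notMem hI).1 hM).2
      have hCn : ((fun y : L => (y : OnePoint L)) ⁻¹' M).Nonempty := by
        obtain ⟨z, hz⟩ := hMn
        induction z using OnePoint.rec with
        | infty => exact (hI hz).elim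
        | coe x => exact ⟨x, hz⟩
      obtain ⟨m, hm, hmax⟩ := h.max _ hC hCn
      refine ⟨(m : OnePoint L), hm, fun y hy hyM => ?_⟩
      induction y using OnePoint.rec with
      | infty => exact hI hyM
      | coe y =>
        have h1 := F1_coe_mem hy
        have h2 := hmax y hyM h1.1.le
        exact h1.1.ne h2.symm

end

theorem G_one (L : Type u) [TopologicalSpace L] [PartialOrder L] [T2Space L]
    [LocallyCompactSpace L] (h : TreeLike L) : G (OnePoint L) inferInstance :=
  G.rule _ _ inferInstance inferInstance F1 (F1_sys h) (F1_G h)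

end Pool.Agent.CKT
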