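import Pool.Agent.CKT.Defs2
import Pool.Agent.CKT.Cpt
import Pool.Agent.CKT.Dis
import Pool.Agent.CKT.Qim

/-!
# Open maps with fibres in the class
-/

set_option autoImplicit false

open Set Filter Topology

namespace Pool.Agent.CKT

universe u v

private theorem opf_fib {X K : Type u} [TopologicalSpace X] [TopologicalSpace K] [T2Space X]
    (φ : X → K) (S : Set K) (x : S) (h : R (φ ⁻¹' {x.1} : Set X) inferInstance ∅) :
    R ((S.restrictPreimage φ) ⁻¹' {x} : Set (φ ⁻¹' S)) inferInstance ∅ := by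
  have hx : ∀ z : (φ ⁻¹' {x.1} : Set X), z.1 ∈ φ ⁻¹' S := by
    intro z
    have hz : φ z.1 = x.1 := z.2
    show φ z.1 ∈ S
    rw [hz]
    exact x.2
  refine R.image (φ ⁻¹' {x.1} : Set X) _ _ _ inferInstance
    (fun z => ⟨⟨z.1, hx z⟩, Subtype.ext z.2⟩) ?_ ?_ ∅ h
  · exact Continuous.subtype_mk (Continuous.subtype_mk continuous_subtype_val _) _
  · rintro ⟨⟨a, ha⟩, hb⟩
    exact ⟨⟨a, congrArg Subtype.val hb⟩, rfl⟩

private theorem opf_sysp {X K : Type u} [TopologicalSpace X] [TopologicalSpace K]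
    [CompactSpace X] [T2Space K] {φ : X → K} (hφ : Continuous φ)
    (ho : IsOpenMap φ) {D : Set K} {ι : Type u} {Y F : ι → Set K}
    (hS : SysP K D ι Y F) :
    SysP X (φ ⁻¹' D) ι (fun j => φ ⁻¹' (Y j)) (fun j => φ ⁻¹' (F j)) where
  closedY j := (hS.closedY j).preimage hφ
  closedF j := (hS.closedF j).preimage hφ
  fin := by
    intro A U hA hU hAU hAD
    refine (hS.fin (φ '' A) (φ '' U) ((hA.isCompact.image hφ).isClosed)
      (ho U hU) (image_mono hAU) ?_).subset ?_
    · rintro _ ⟨z, hz, rfl⟩ hzD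
      exact hAD z hz hzD
    · rintro j ⟨⟨z, hzA, hz⟩, hj⟩
      refine ⟨⟨φ z, ⟨z, hzA, rfl⟩, hz⟩, ?_⟩
      rintro _ hy ⟨w, hw, rfl⟩
      exact hj w hy hw
  top := by
    intro M hM hne hMD
    obtain ⟨j, ⟨x, ⟨z, hzM, hz⟩, hx⟩, hj⟩ := hS.top (φ '' M)
      ((hM.isCompact.image hφ).isClosed) (hne.image _) (by
        rintro _ ⟨z, hz, rfl⟩ hzD
        exact hMD z hz hzD)
    refine ⟨j, ⟨z, hzM, ?_⟩, ?_⟩
    · show φ z ∈ Y j
      rw [hz]
      exact hx
    · intro w hw hwM
      exact hj (φ w) hw ⟨w, hwM, rfl⟩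

private theorem opf_gen {X K : Type u} [TopologicalSpace X] [TopologicalSpace K]
    {φ : X → K} (hφ : Continuous φ) {D : Set K} {ι : Type u} {C B : ι → Set K} {i : K → ι}
    {h e : ι → ℝ} (hG : Gen K D ι C B i h e) :
    Gen X (φ ⁻¹' D) ι (fun j => φ ⁻¹' (C j)) (fun j => φ ⁻¹' (B j)) (fun z => i (φ z)) h e where
  closedC j := (hG.closedC j).preimage hφ
  closedB j := (hG.closedB j).preimage hφ
  meet j x hx hx' := hG.meet j (φ x) hx hx'
  mem x hx := hG.mem (φ x) hx
  uniq x hx j hj hj' := hG.uniq (φ x) hx j hj hj'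
  hrange := hG.hrange
  erange := hG.erange
  gap := by
    intro y hy
    obtain ⟨V, hV, hV'⟩ := hG.gap (φ y) hy
    exact ⟨φ ⁻¹' V, hφ.continuousAt hV, fun x hx hxD hi => hV' (φ x) hx hxD hi⟩
  low j y hy hyD := hG.low j (φ y) hy hyD

/-- the map between the complements -/
private def opfR {X K : Type u} (φ : X → K) (D : Set K) (x : ((φ ⁻¹' D)ᶜ : Set X)) :
    (Dᶜ : Set K) := ⟨φ x.1, x.2⟩

private theorem opfR_cont {X K : Type u} [TopologicalSpace X] [TopologicalSpace K] {φ : X → K}
    (hφ : Continuous φ) (D : Set K) : Continuous (opfR φ D) :=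
  Continuous.subtype_mk (hφ.comp continuous_subtype_val) _

private theorem opfR_open {X K : Type u} [TopologicalSpace X] [TopologicalSpace K] {φ : X → K}
    (ho : IsOpenMap φ) (D : Set K) : IsOpenMap (opfR φ D) :=
  ho.restrictPreimage (Dᶜ)

private theorem opfR_surj {X K : Type u} {φ : X → K} (hs : Function.Surjective φ) (D : Set K) :
    Function.Surjective (opfR φ D) := by
  rintro ⟨k, hk⟩
  obtain ⟨x, rfl⟩ := hs k
  exact ⟨⟨x, hk⟩, rfl⟩

private theorem opfR_compact {X K : Type u} [TopologicalSpace X] [TopologicalSpace K]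
    [CompactSpace X] [T2Space K] {φ : X → K} (hφ : Continuous φ) (D : Set K)
    (C : Set (Dᶜ : Set K)) (hC : IsCompact C) : IsCompact (opfR φ D ⁻¹' C) := by
  rw [IsEmbedding.subtypeVal.isCompact_iff]
  have h1 : (Subtype.val '' (opfR φ D ⁻¹' C) : Set X) = φ ⁻¹' (Subtype.val '' C) := by
    ext x
    constructor
    · rintro ⟨y, hy, rfl⟩
      exact ⟨opfR φ D y, hy, rfl⟩
    · rintro ⟨c, hc, hcx⟩
      have hx : x ∈ ((φ ⁻¹' D)ᶜ : Set X) := by
        intro h
        have h' : φ x ∈ D := h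
        rw [← hcx] at h'
        exact c.2 h'
      refine ⟨⟨x, hx⟩, ?_, rfl⟩
      have h2 : opfR φ D ⟨x, hx⟩ = c := Subtype.ext hcx.symm
      show opfR φ D ⟨x, hx⟩ ∈ C
      rw [h2]
      exact hc
  rw [h1]
  exact (((hC.image continuous_subtype_val).isClosed).preimage hφ).isCompact

private theorem opfR_map_infty {X K : Type u} (φ : X → K) (D : Set K)
    (z : OnePoint ((φ ⁻¹' D)ᶜ : Set X)) :
    OnePoint.map (opfR φ D) z = OnePoint.infty ↔ z = OnePoint.infty := by
  induction z using OnePoint.rec with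
  | infty => exact ⟨fun _ => rfl, fun _ => rfl⟩
  | coe x =>
    constructor
    · intro h
      exact absurd h (OnePoint.coe_ne_infty _)
    · intro h
      exact absurd h (OnePoint.coe_ne_infty _)

private theorem opfR_map_cont {X K : Type u} [TopologicalSpace X] [TopologicalSpace K]
    [CompactSpace X] [T2Space K] {φ : X → K} (hφ : Continuous φ) (D : Set K) :
    Continuous (OnePoint.map (opfR φ D)) := by
  rw [continuous_def]
  intro U hU
  rw [OnePoint.isOpen_def] at hU ⊢
  refine ⟨fun hi => ?_, ?_⟩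
  · have h1 := opfR_compact hφ D _ (hU.1 hi)
    exact h1
  · exact hU.2.preimage (opfR_cont hφ D)

private theorem opfR_map_open {X K : Type u} [TopologicalSpace X] [TopologicalSpace K]
    {φ : X → K} (hφ : Continuous φ) (ho : IsOpenMap φ)
    (hs : Function.Surjective φ) (D : Set K) : IsOpenMap (OnePoint.map (opfR φ D)) := by
  intro U hU
  rw [OnePoint.isOpen_def] at hU ⊢
  have h1 : ((fun x : (Dᶜ : Set K) => (x : OnePoint (Dᶜ : Set K))) ⁻¹'
      (OnePoint.map (opfR φ D) '' U)) =
      opfR φ D '' ((fun x : ((φ ⁻¹' D)ᶜ : Set X) =>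
        (x : OnePoint ((φ ⁻¹' D)ᶜ : Set X))) ⁻¹' U) := by
    ext y
    constructor
    · rintro ⟨z, hz, hzy⟩
      induction z using OnePoint.rec with
      | infty => exact absurd hzy.symm (OnePoint.coe_ne_infty y)
      | coe x => exact ⟨x, hz, OnePoint.coe_injective hzy⟩
    · rintro ⟨x, hx, rfl⟩
      exact ⟨x, hx, rfl⟩
  have h2 : IsOpen (opfR φ D '' ((fun x : ((φ ⁻¹' D)ᶜ : Set X) =>
        (x : OnePoint ((φ ⁻¹' D)ᶜ : Set X))) ⁻¹' U)) := opfR_open ho D _ hU.2
  refine ⟨fun hi => ?_, ?_⟩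
  · have h3 : OnePoint.infty ∈ U := by
      obtain ⟨z, hz, hz'⟩ := hi
      rw [(opfR_map_infty φ D z).1 hz'] at hz
      exact hz
    have h4 := (hU.1 h3).image (opfR_cont hφ D)
    rw [h1]
    refine h4.of_isClosed_subset h2.isClosed_compl ?_
    intro y hy
    obtain ⟨x, rfl⟩ := opfR_surj hs D y
    exact ⟨x, fun hx => hy ⟨x, hx, rfl⟩, rfl⟩
  · rw [h1]
    exact h2

private theorem opf_core {K : Type u} {t' : TopologicalSpace K} {D : Set K} (h : R K t' D) :
    ∀ (X : Type u) (t : TopologicalSpace X) (_ : CompactSpace X) (_ : T2Space X) (φ : X → K),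
      Continuous φ → IsOpenMap φ → Function.Surjective φ →
      (∀ x, x ∉ D → R (φ ⁻¹' {x} : Set X) inferInstance ∅) → R X t (φ ⁻¹' D) := by
  induction h with
  | point K t hs D =>
    intro X tX hcX h2X φ hφ ho hsu hf
    rcases isEmpty_or_nonempty K with hK | ⟨⟨k⟩⟩
    · exact R.point X tX ⟨fun a => (hK.false (φ a)).elim⟩ _
    · by_cases hk : k ∈ D
      · have h1 : φ ⁻¹' D = univ := by
          rw [eq_univ_iff_forall]
          intro x
          show φ x ∈ D
          rw [hs.elim (φ x) k]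
          exact hk
        rw [h1]
        exact R_univ X
      · refine R.image (φ ⁻¹' {k} : Set X) X _ tX h2X Subtype.val continuous_subtype_val
          (fun x => ⟨⟨x, hs.elim _ _⟩, rfl⟩) (φ ⁻¹' D) ?_
        have h1 : (Subtype.val ⁻¹' (φ ⁻¹' D) : Set (φ ⁻¹' {k} : Set X)) = ∅ := by
          ext x
          constructor
          · intro hx
            have hx' : φ x.1 ∈ D := hx
            rw [hs.elim (φ x.1) k] at hx'
            exact hk hx'
          · intro hx
            exact hx.elim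
        rw [h1]
        exact hf k hk
  | sysp K t hc h2 D hD ι Y F hS hY hF ih1 ih2 =>
    intro X tX hcX h2X φ hφ ho hsu hf
    refine R.sysp X tX hcX h2X (φ ⁻¹' D) (hD.preimage hφ) ι _ _ (opf_sysp hφ ho hS) ?_ ?_
    · intro j
      have : CompactSpace (φ ⁻¹' (Y j) : Set X) :=
        isCompact_iff_compactSpace.1 ((hS.closedY j).preimage hφ).isCompact
      exact ih1 j (φ ⁻¹' (Y j) : Set X) inferInstance inferInstance inferInstance
        ((Y j).restrictPreimage φ) (hφ.restrictPreimage) (ho.restrictPreimage _)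
        (hsu.restrictPreimage _)
        (fun x hx => opf_fib φ (Y j) x (hf x.1 fun h => hx (Or.inr h)))
    · intro j
      have : CompactSpace (φ ⁻¹' (F j) : Set X) :=
        isCompact_iff_compactSpace.1 ((hS.closedF j).preimage hφ).isCompact
      exact ih2 j (φ ⁻¹' (F j) : Set X) inferInstance inferInstance inferInstance
        ((F j).restrictPreimage φ) (hφ.restrictPreimage) (ho.restrictPreimage _)
        (hsu.restrictPreimage _)
        (fun x hx => opf_fib φ (F j) x (hf x.1 fun h => hx h))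
  | gen K t hc h2 D hD ι C B i h e hG hR ih =>
    intro X tX hcX h2X φ hφ ho hsu hf
    refine R.gen X tX hcX h2X (φ ⁻¹' D) (hD.preimage hφ) ι _ _ _ h e (opf_gen hφ hG) ?_
    intro j
    have : CompactSpace (φ ⁻¹' (C j) : Set X) :=
      isCompact_iff_compactSpace.1 ((hG.closedC j).preimage hφ).isCompact
    exact ih j (φ ⁻¹' (C j) : Set X) inferInstance inferInstance inferInstance
      ((C j).restrictPreimage φ) (hφ.restrictPreimage) (ho.restrictPreimage _)
      (hsu.restrictPreimage _)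
      (fun x hx => opf_fib φ (C j) x (hf x.1 fun h => hx (hG.meet j x.1 x.2 h)))
  | image K K' t t' h2 p hp hps D h ih =>
    intro X tX hcX h2X φ hφ ho hsu hf
    have := h.compact
    have := h.t2
    let Z : Set (X × K) := {z | φ z.1 = p z.2}
    have hZ : IsClosed Z := isClosed_eq (hφ.comp continuous_fst) (hp.comp continuous_snd)
    have : CompactSpace Z := isCompact_iff_compactSpace.1 hZ.isCompact
    have h3 : R Z inferInstance ((fun z : Z => z.1.2) ⁻¹' (p ⁻¹' D)) := by
      refine ih Z inferInstance inferInstance inferInstance (fun z : Z => z.1.2)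
        (continuous_snd.comp continuous_subtype_val) ?_ ?_ ?_
      · intro U hU
        rw [isOpen_iff_mem_nhds]
        rintro k ⟨⟨⟨x, k'⟩, hz⟩, hzU, hk⟩
        have hk' : k' = k := hk
        subst hk'
        obtain ⟨W, hW, rfl⟩ := isOpen_induced_iff.1 hU
        obtain ⟨A, B, hA, hB, hxA, hkB, hAB⟩ := isOpen_prod_iff.1 hW x k' hzU
        have h4 : IsOpen (B ∩ p ⁻¹' (φ '' A)) := hB.inter ((ho A hA).preimage hp)
        refine mem_of_superset (h4.mem_nhds ⟨hkB, ⟨x, hxA, hz⟩⟩) ?_
        rintro l ⟨hlB, ⟨a, haA, hal⟩⟩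
        exact ⟨⟨(a, l), hal⟩, hAB ⟨haA, hlB⟩, rfl⟩
      · intro k
        obtain ⟨x, hx⟩ := hsu (p k)
        exact ⟨⟨(x, k), hx⟩, rfl⟩
      · intro k hk
        refine R.image (φ ⁻¹' {p k} : Set X) _ _ _ inferInstance
          (fun z => ⟨⟨(z.1, k), z.2⟩, rfl⟩) ?_ ?_ ∅ (hf (p k) hk)
        · exact Continuous.subtype_mk (Continuous.subtype_mk
            (continuous_subtype_val.prodMk continuous_const) _) _
        · rintro ⟨⟨⟨x, k'⟩, hz⟩, hk2⟩
          have hk' : k' = k := hk2
          subst hk'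
          exact ⟨⟨x, hz⟩, rfl⟩
    refine R.image Z X _ tX h2X (fun z : Z => z.1.1) (continuous_fst.comp continuous_subtype_val)
      ?_ (φ ⁻¹' D) ?_
    · intro x
      obtain ⟨k, hk⟩ := hps (φ x)
      exact ⟨⟨(x, k), hk.symm⟩, rfl⟩
    · have h4 : ((fun z : Z => z.1.1) ⁻¹' (φ ⁻¹' D)) = ((fun z : Z => z.1.2) ⁻¹' (p ⁻¹' D)) := by
        ext z
        have hz : φ z.1.1 = p z.1.2 := z.2
        show φ z.1.1 ∈ D ↔ p z.1.2 ∈ D
        rw [hz]
      rw [h4]
      exact h3
  | quot K t hc h2 D hD h ih =>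
    intro X tX hcX h2X φ hφ ho hsu hf
    have hDX : IsClosed (φ ⁻¹' D) := hD.preimage hφ
    have : LocallyCompactSpace ((φ ⁻¹' D)ᶜ : Set X) := hDX.isOpen_compl.locallyCompactSpace
    refine R.quot X tX hcX h2X (φ ⁻¹' D) hDX ?_
    have h3 := ih (OnePoint ((φ ⁻¹' D)ᶜ : Set X)) inferInstance inferInstance inferInstance
      (OnePoint.map (opfR φ D)) (opfR_map_cont hφ D) (opfR_map_open hφ ho hsu D) (by
        intro y
        induction y using OnePoint.rec with
        | infty => exact ⟨OnePoint.infty, rfl⟩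
        | coe y =>
          obtain ⟨x, rfl⟩ := opfR_surj hsu D y
          exact ⟨x, rfl⟩) (by
        intro y hy
        induction y using OnePoint.rec with
        | infty => exact absurd rfl hy
        | coe y =>
          have hx : ∀ z : (φ ⁻¹' {y.1} : Set X), z.1 ∈ ((φ ⁻¹' D)ᶜ : Set X) := by
            intro z h
            have hz : φ z.1 = y.1 := z.2
            have h' : φ z.1 ∈ D := h
            rw [hz] at h'
            exact y.2 h'
          have hm : ∀ z : (φ ⁻¹' {y.1} : Set X), ((⟨z.1, hx z⟩ : ((φ ⁻¹' D)ᶜ : Set X)) :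
              OnePoint ((φ ⁻¹' D)ᶜ : Set X)) ∈
              OnePoint.map (opfR φ D) ⁻¹' {(y : OnePoint (Dᶜ : Set K))} := by
            intro z
            have h4 : opfR φ D ⟨z.1, hx z⟩ = y := Subtype.ext z.2
            show OnePoint.map (opfR φ D) _ = _
            rw [OnePoint.map_some, h4]
          refine R.image (φ ⁻¹' {y.1} : Set X) _ _ _ inferInstance
            (fun z => ⟨((⟨z.1, hx z⟩ : ((φ ⁻¹' D)ᶜ : Set X)) :
              OnePoint ((φ ⁻¹' D)ᶜ : Set X)), hm z⟩) ?_ ?_ ∅ (hf y.1 y.2)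
          · exact Continuous.subtype_mk (OnePoint.continuous_coe.comp
              (Continuous.subtype_mk continuous_subtype_val _)) _
          · rintro ⟨w, hw⟩
            induction w using OnePoint.rec with
            | infty =>
              exact absurd (show (OnePoint.infty : OnePoint (Dᶜ : Set K)) = y from hw).symm
                (OnePoint.coe_ne_infty y)
            | coe x =>
              have h4 : opfR φ D x = y := OnePoint.coe_injective hw
              refine ⟨⟨x.1, congrArg Subtype.val h4⟩, rfl⟩)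
    have h4 : (OnePoint.map (opfR φ D) ⁻¹' {OnePoint.infty} :
        Set (OnePoint ((φ ⁻¹' D)ᶜ : Set X))) = {OnePoint.infty} := by
      ext z
      exact opfR_map_infty φ D z
    rw [h4] at h3
    exact h3

theorem R_open (X K : Type u) [t : TopologicalSpace X] [t' : TopologicalSpace K] [CompactSpace X]
    [T2Space X] (φ : X → K) (hφ : Continuous φ) (ho : IsOpenMap φ) (hs : Function.Surjective φ)
    (D : Set K) (h : R K t' D)
    (hf : ∀ x, x ∉ D → R (φ ⁻¹' {x} : Set X) inferInstance ∅) : R X t (φ ⁻¹' D) :=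
  opf_core h X t inferInstance inferInstance φ hφ ho hs hf

end Pool.Agent.CKT
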