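import Pool.Agent.CKT.Defs

set_option autoImplicit false

open Set Filter Topology

namespace Pool.Agent.CKT

universe u v

theorem sum_t2 {K : Type u} {t : TopologicalSpace K} (h : G K t) : T2Space K := by
  cases h <;> assumption

theorem sum_sys {K K' : Type u} [TopologicalSpace K] [TopologicalSpace K'] {F : K → Set K}
    {F' : K' → Set K'} (hF : Sys K F) (hF' : Sys K' F') :
    Sys (K ⊕ K') (Sum.elim (fun x => Sum.inl '' F x) (fun y => Sum.inr '' F' y)) where
  closed := by
    rintro (x | y)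
    · exact IsClosedEmbedding.inl.isClosedMap _ (hF.closed x)
    · exact IsClosedEmbedding.inr.isClosedMap _ (hF'.closed y)
  fin := by
    intro A U hA hU hAU
    have h1 := hF.fin (Sum.inl ⁻¹' A) (Sum.inl ⁻¹' U) (hA.preimage continuous_inl)
      (hU.preimage continuous_inl) (Set.preimage_mono hAU)
    have h2 := hF'.fin (Sum.inr ⁻¹' A) (Sum.inr ⁻¹' U) (hA.preimage continuous_inr)
      (hU.preimage continuous_inr) (Set.preimage_mono hAU)
    refine ((h1.image Sum.inl).union (h2.image Sum.inr)).subset ?_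
    rintro (x | y) ⟨hx, hy⟩
    · exact Or.inl ⟨x, ⟨hx, fun z hz hzU => hy (Sum.inl z) ⟨z, hz, rfl⟩ hzU⟩, rfl⟩
    · exact Or.inr ⟨y, ⟨hx, fun z hz hzU => hy (Sum.inr z) ⟨z, hz, rfl⟩ hzU⟩, rfl⟩
  top := by
    intro M hM hne
    obtain ⟨m, hm⟩ := hne
    rcases m with x | y
    · obtain ⟨x', hx', h⟩ := hF.top (Sum.inl ⁻¹' M) (hM.preimage continuous_inl) ⟨x, hm⟩
      refine ⟨Sum.inl x', hx', ?_⟩
      rintro _ ⟨z, hz, rfl⟩
      exact h z hz
    · obtain ⟨y', hy', h⟩ := hF'.top (Sum.inr ⁻¹' M) (hM.preimage continuous_inr) ⟨y, hm⟩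
      refine ⟨Sum.inr y', hy', ?_⟩
      rintro _ ⟨z, hz, rfl⟩
      exact h z hz

theorem sum_img {K L : Type u} [TopologicalSpace K] [TopologicalSpace L] [T2Space L]
    {i : K → L} (hi : Continuous i) {S : Set K} (h : G S inferInstance) :
    G (i '' S) inferInstance := by
  refine G.image S (i '' S) _ _ inferInstance (fun z => ⟨i z, Set.mem_image_of_mem i z.2⟩) ?_ ?_ h
  · exact Continuous.subtype_mk (hi.comp continuous_subtype_val) _
  · rintro ⟨_, z, hz, rfl⟩
    exact ⟨⟨z, hz⟩, rfl⟩

/-! ROW SUM (Sum.lean) -/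
theorem G_sum {K K' : Type u} {t : TopologicalSpace K} {t' : TopologicalSpace K'} (h : G K t)
    (h' : G K' t') : G (K ⊕ K') inferInstance := by
  induction h with
  | rule K t hc h2 F hF hG ih =>
    clear ih
    induction h' with
    | rule K' t' hc' h2' F' hF' hG' ih' =>
      clear ih'
      refine G.rule (K ⊕ K') _ inferInstance inferInstance _ (sum_sys hF hF') ?_
      rintro (x | y)
      · exact sum_img continuous_inl (hG x)
      · exact sum_img continuous_inr (hG' y)
    | image K1 K2 t1 t2 h2' p hp hs h' ih' =>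
      exact G.image _ _ _ _ inferInstance (Sum.map id p) (continuous_id.sumMap hp)
        (Function.surjective_id.sumMap hs) ih'
  | image K1 K2 t1 t2 h2 p hp hs h ih =>
    have := sum_t2 h'
    exact G.image _ _ _ _ inferInstance (Sum.map p id) (hp.sumMap continuous_id)
      (hs.sumMap Function.surjective_id) ih

end Pool.Agent.CKT
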