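import Pool.Agent.CKT.Defs
import Pool.Agent.CKT.Sum

/-!
# CKT: products
-/

set_option autoImplicit false

open Set Filter Topology

namespace Pool.Agent.CKT

universe u v

/-- the sets of the reference system of a product -/
def prodF {K K' : Type u} (F : K → Set K) (F' : K' → Set K') (p : K × K') : Set (K × K') :=
  {z | (z.1 ∈ F p.1 ∧ z.2 ∈ F' p.2) ∨ (z.1 = p.1 ∧ z.2 ∈ F' p.2) ∨ (z.1 ∈ F p.1 ∧ z.2 = p.2)}

theorem prod_sys {K K' : Type u} [TopologicalSpace K] [TopologicalSpace K'] [CompactSpace K]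
    [CompactSpace K'] [T2Space K] [T2Space K'] {F : K → Set K} {F' : K' → Set K'} (hF : Sys K F)
    (hF' : Sys K' F') : Sys (K × K') (prodF F F') where
  closed := by
    rintro ⟨x, y⟩
    have h1 : IsClosed {z : K × K' | z.1 ∈ F x} := (hF.closed x).preimage continuous_fst
    have h2 : IsClosed {z : K × K' | z.2 ∈ F' y} := (hF'.closed y).preimage continuous_snd
    have h3 : IsClosed {z : K × K' | z.1 = x} := isClosed_singleton.preimage continuous_fst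
    have h4 : IsClosed {z : K × K' | z.2 = y} := isClosed_singleton.preimage continuous_snd
    exact (h1.inter h2).union ((h3.inter h2).union (h1.inter h4))
  fin := by
    intro A U hA hU hAU
    have key : ∀ p : K × K', p ∈ A → ∃ (A1 : Set K) (A2 : Set K') (U1 : Set K) (U2 : Set K'),
        IsClosed A1 ∧ IsClosed A2 ∧ IsOpen U1 ∧ IsOpen U2 ∧ A1 ⊆ U1 ∧ A2 ⊆ U2 ∧
          A1 ×ˢ A2 ∈ 𝓝 p ∧ U1 ×ˢ U2 ⊆ U := by
      rintro ⟨a, b⟩ hp
      obtain ⟨U1, U2, hU1, hU2, ha, hb, hsub⟩ := isOpen_prod_iff.1 hU a b (hAU hp)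
      obtain ⟨A1, ⟨hA1n, hA1c⟩, hA1⟩ := (closed_nhds_basis a).mem_iff.1 (hU1.mem_nhds ha)
      obtain ⟨A2, ⟨hA2n, hA2c⟩, hA2⟩ := (closed_nhds_basis b).mem_iff.1 (hU2.mem_nhds hb)
      exact ⟨A1, A2, U1, U2, hA1c, hA2c, hU1, hU2, hA1, hA2, prod_mem_nhds hA1n hA2n, hsub⟩
    choose! A1 A2 U1 U2 c1 c2 o1 o2 s1 s2 hn hU' using key
    obtain ⟨T, hT, hcov⟩ := hA.isCompact.elim_nhds_subcover (fun p => A1 p ×ˢ A2 p)
      (fun p hp => hn p hp)
    have hfin : (⋃ p ∈ T, ({x | x ∈ A1 p ∧ ∀ z ∈ F x, z ∉ U1 p} ×ˢ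
        {y | y ∈ A2 p ∧ ∀ z ∈ F' y, z ∉ U2 p})).Finite := by
      refine Set.Finite.biUnion T.finite_toSet fun p hp => ?_
      have hpA := hT p hp
      exact (hF.fin (A1 p) (U1 p) (c1 p hpA) (o1 p hpA) (s1 p hpA)).prod
        (hF'.fin (A2 p) (U2 p) (c2 p hpA) (o2 p hpA) (s2 p hpA))
    refine hfin.subset ?_
    rintro ⟨x, y⟩ ⟨hxy, hdis⟩
    obtain ⟨p, hp⟩ := Set.mem_iUnion.1 (hcov hxy)
    obtain ⟨hpT, hp2⟩ := Set.mem_iUnion.1 hp
    have hpA := hT p hpT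
    refine Set.mem_iUnion.2 ⟨p, Set.mem_iUnion.2 ⟨hpT, ?_⟩⟩
    refine ⟨⟨hp2.1, fun z hz hzU => ?_⟩, ⟨hp2.2, fun z hz hzU => ?_⟩⟩
    · exact hdis (z, y) (Or.inr (Or.inr ⟨hz, rfl⟩)) (hU' p hpA ⟨hzU, s2 p hpA hp2.2⟩)
    · exact hdis (x, z) (Or.inr (Or.inl ⟨rfl, hz⟩)) (hU' p hpA ⟨s1 p hpA hp2.1, hzU⟩)
  top := by
    intro M hM hne
    have hM1 : IsClosed (Prod.fst '' M) := (hM.isCompact.image continuous_fst).isClosed
    obtain ⟨x, hx, hxF⟩ := hF.top _ hM1 (hne.image _)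
    have hM2 : IsClosed {y : K' | (x, y) ∈ M} := hM.preimage (by fun_prop)
    obtain ⟨⟨x', y'⟩, hxy, rfl⟩ := hx
    obtain ⟨y, hy, hyF⟩ := hF'.top _ hM2 ⟨y', hxy⟩
    refine ⟨(x', y), hy, ?_⟩
    rintro ⟨a, b⟩ hab habM
    rcases hab with ⟨h1, -⟩ | ⟨h1, h2⟩ | ⟨h1, -⟩
    · exact hxF a h1 ⟨(a, b), habM, rfl⟩
    · simp only at h1 h2
      rw [h1] at habM
      exact hyF b h2 habM
    · exact hxF a h1 ⟨(a, b), habM, rfl⟩

/-! ROW PRO (Prod.lean; uses SUM) -/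
theorem G_prod {K K' : Type u} {t : TopologicalSpace K} {t' : TopologicalSpace K'} (h : G K t)
    (h' : G K' t') : G (K × K') inferInstance := by
  induction h generalizing K' with
  | rule K t hc h2 F hF hG ih =>
    induction h' with
    | rule K' t' hc' h2' F' hF' hG' ih' =>
      clear ih'
      refine G.rule (K × K') _ inferInstance inferInstance _ (prod_sys hF hF') ?_
      rintro ⟨x, y⟩
      have g1 : G (F x × F' y) inferInstance := ih x (hG' y)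
      have g2 : G ((F x × F' y) ⊕ (F' y ⊕ F x)) inferInstance := G_sum g1 (G_sum (hG' y) (hG x))
      let q : (F x × F' y) ⊕ (F' y ⊕ F x) → ↥(prodF F F' (x, y)) :=
        Sum.elim (fun z => ⟨(z.1.1, z.2.1), Or.inl ⟨z.1.2, z.2.2⟩⟩)
          (Sum.elim (fun z => ⟨(x, z.1), Or.inr (Or.inl ⟨rfl, z.2⟩)⟩)
            (fun z => ⟨(z.1, y), Or.inr (Or.inr ⟨z.2, rfl⟩)⟩))
      refine G.image _ _ _ _ inferInstance q ?_ ?_ g2
      · refine Continuous.sumElim ?_ (Continuous.sumElim ?_ ?_)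
        · exact Continuous.subtype_mk (by fun_prop) _
        · exact Continuous.subtype_mk (by fun_prop) _
        · exact Continuous.subtype_mk (by fun_prop) _
      · rintro ⟨⟨a, b⟩, hab⟩
        have hab2 := hab
        rcases hab2 with ⟨h1, h3⟩ | ⟨h1, h3⟩ | ⟨h1, h3⟩
        · exact ⟨Sum.inl (⟨a, h1⟩, ⟨b, h3⟩), rfl⟩
        · simp only at h1 h3
          subst h1
          exact ⟨Sum.inr (Sum.inl ⟨b, h3⟩), rfl⟩
        · simp only at h1 h3
          subst h3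
          exact ⟨Sum.inr (Sum.inr ⟨a, h1⟩), rfl⟩
    | image K1 K2 t1 t2 h2' p hp hs h' ih' =>
      exact G.image _ _ _ _ inferInstance (Prod.map id p) (continuous_id.prodMap hp)
        (Function.surjective_id.prodMap hs) ih'
  | image K1 K2 t1 t2 h2 p hp hs h ih =>
    have := sum_t2 h'
    exact G.image _ _ _ _ inferInstance (Prod.map p id) (hp.prodMap continuous_id)
      (hs.prodMap Function.surjective_id) (ih h')

end Pool.Agent.CKT
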