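import Pool.Agent.CKT.Defs2
import Pool.Agent.CKT.Cpt
import Pool.Agent.CKT.Mon
import Pool.Agent.CKT.Qim

/-!
# Products of pairs
-/

set_option autoImplicit false

open Set Filter Topology

namespace Pool.Agent.CKT

universe u v

private theorem PR2_sysp {K K' : Type u} [TopologicalSpace K] [TopologicalSpace K']
    [CompactSpace K] [CompactSpace K'] [T2Space K] [T2Space K'] {D : Set K} {D' : Set K'}
    {ι : Type u} {Y F : ι → Set K} (hS : SysP K D ι Y F) :
    SysP (K × K') {z | z.1 ∈ D ∨ z.2 ∈ D'} ι (fun j => {z | z.1 ∈ Y j})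
      (fun j => {z | z.1 ∈ F j}) where
  closedY j := (hS.closedY j).preimage continuous_fst
  closedF j := (hS.closedF j).preimage continuous_fst
  fin := by
    intro A U hA hU hAU hAD
    refine (hS.fin (Prod.fst '' A) (Prod.fst '' U) ((hA.isCompact.image continuous_fst).isClosed)
      (isOpenMap_fst U hU) (image_mono hAU) ?_).subset ?_
    · rintro _ ⟨z, hz, rfl⟩ hzD
      exact hAD z hz (Or.inl hzD)
    · rintro j ⟨⟨z, hzA, hz⟩, hj⟩
      refine ⟨⟨z.1, ⟨z, hzA, rfl⟩, hz⟩, ?_⟩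
      rintro _ hy ⟨w, hw, rfl⟩
      exact hj w hy hw
  top := by
    intro M hM hne hMD
    obtain ⟨j, ⟨x, ⟨z, hzM, hz⟩, hx⟩, hj⟩ := hS.top (Prod.fst '' M)
      ((hM.isCompact.image continuous_fst).isClosed) (hne.image _) (by
        rintro _ ⟨z, hz, rfl⟩ hzD
        exact hMD z hz (Or.inl hzD))
    refine ⟨j, ⟨z, hzM, ?_⟩, ?_⟩
    · show z.1 ∈ Y j
      rw [hz]
      exact hx
    · intro w hw hwM
      exact hj w.1 hw ⟨w, hwM, rfl⟩

private theorem PR2_gen1 {K K' : Type u} [TopologicalSpace K] [TopologicalSpace K'] {D : Set K}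
    {D' : Set K'} (hD' : IsClosed D') {ι : Type u} {C B : ι → Set K} {i : K → ι}
    {h e : ι → ℝ} (hG : Gen K D ι C B i h e) :
    Gen (K × K') {z | z.1 ∈ D ∨ z.2 ∈ D'} ι (fun j => {z | z.1 ∈ C j})
      (fun j => {z | z.1 ∈ B j ∨ z.2 ∈ D'}) (fun z => i z.1) h e where
  closedC j := (hG.closedC j).preimage continuous_fst
  closedB j := ((hG.closedB j).preimage continuous_fst).union (hD'.preimage continuous_snd)
  meet := by
    rintro j x hx (hx' | hx')
    · exact Or.inl (hG.meet j x.1 hx hx')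
    · exact Or.inr hx'
  mem := by
    intro x hx
    have h1 : x.1 ∉ D := fun h => hx (Or.inl h)
    have h2 : x.2 ∉ D' := fun h => hx (Or.inr h)
    refine ⟨(hG.mem x.1 h1).1, ?_⟩
    rintro (h3 | h3)
    · exact (hG.mem x.1 h1).2 h3
    · exact h2 h3
  uniq := by
    intro x hx j hj hj'
    exact hG.uniq x.1 (fun h => hx (Or.inl h)) j hj (fun h => hj' (Or.inl h))
  hrange := hG.hrange
  erange := hG.erange
  gap := by
    intro y hy
    obtain ⟨V, hV, hV'⟩ := hG.gap y.1 (fun h => hy (Or.inl h))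
    refine ⟨Prod.fst ⁻¹' V, continuous_fst.continuousAt hV, ?_⟩
    intro x hx hxD hi
    exact hV' x.1 hx (fun h => hxD (Or.inl h)) hi
  low := by
    rintro j y (hy | hy) hyD
    · exact hG.low j y.1 hy (fun h => hyD (Or.inl h))
    · exact absurd (Or.inr hy) hyD

private theorem PR2_hom1 {K K' : Type u} [TopologicalSpace K] [TopologicalSpace K']
    (D : Set K) (D' : Set K') :
    Nonempty (({z : OnePoint (Dᶜ : Set K) × K' |
      z.1 ∈ ({OnePoint.infty} : Set (OnePoint (Dᶜ : Set K))) ∨ z.2 ∈ D'}ᶜ :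
        Set (OnePoint (Dᶜ : Set K) × K')) ≃ₜ
      ({z : K × K' | z.1 ∈ D ∨ z.2 ∈ D'}ᶜ : Set (K × K'))) := by
  let S : Set ((Dᶜ : Set K) × K') := {z | z.2 ∉ D'}
  have e1 : IsEmbedding (fun z : S => ((z.1.1 : OnePoint (Dᶜ : Set K)), z.1.2)) :=
    (OnePoint.isOpenEmbedding_coe.isEmbedding.prodMap IsEmbedding.id).comp
      IsEmbedding.subtypeVal
  have e2 : IsEmbedding (fun z : S => ((z.1.1 : K), z.1.2)) :=
    (IsEmbedding.subtypeVal.prodMap IsEmbedding.id).comp IsEmbedding.subtypeVal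
  have m1 : ∀ z : S, ((z.1.1 : OnePoint (Dᶜ : Set K)), z.1.2) ∈
      ({z : OnePoint (Dᶜ : Set K) × K' |
        z.1 ∈ ({OnePoint.infty} : Set (OnePoint (Dᶜ : Set K))) ∨ z.2 ∈ D'}ᶜ :
        Set (OnePoint (Dᶜ : Set K) × K')) := by
    rintro z (h | h)
    · exact OnePoint.coe_ne_infty _ h
    · exact z.2 h
  have m2 : ∀ z : S, ((z.1.1 : K), z.1.2) ∈
      ({z : K × K' | z.1 ∈ D ∨ z.2 ∈ D'}ᶜ : Set (K × K')) := by
    rintro z (h | h)
    · exact z.1.1.2 h
    · exact z.2 h
  have f1 := (e1.codRestrict _ m1).toHomeomorphOfSurjective (by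
    rintro ⟨⟨a, b⟩, hab⟩
    have ha : a ≠ OnePoint.infty := fun h => hab (Or.inl h)
    have hb : b ∉ D' := fun h => hab (Or.inr h)
    obtain ⟨x, rfl⟩ := OnePoint.ne_infty_iff_exists.1 ha
    exact ⟨⟨(x, b), hb⟩, rfl⟩)
  have f2 := (e2.codRestrict _ m2).toHomeomorphOfSurjective (by
    rintro ⟨⟨a, b⟩, hab⟩
    have ha : a ∉ D := fun h => hab (Or.inl h)
    have hb : b ∉ D' := fun h => hab (Or.inr h)
    exact ⟨⟨(⟨a, ha⟩, b), hb⟩, rfl⟩)
  exact ⟨f1.symm.trans f2⟩

/-! ROW PR2 -/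
theorem R_prod {K K' : Type u} {t : TopologicalSpace K} {t' : TopologicalSpace K'} {D : Set K}
    {D' : Set K'} (h : R K t D) (h' : R K' t' D') :
    R (K × K') inferInstance {z | z.1 ∈ D ∨ z.2 ∈ D'} := by
  induction h generalizing K' with
  | point K t hs D =>
    have h2' := h'.t2
    have hc' := h'.compact
    have hD' := h'.closed
    rcases isEmpty_or_nonempty K with hK | ⟨⟨x⟩⟩
    · exact R.point (K × K') _ ⟨fun a => (hK.false a.1).elim⟩ _
    · let _ := t
      have h3 : R K' t' ((fun y : K' => (x, y)) ⁻¹' {z | z.1 ∈ D ∨ z.2 ∈ D'}) := by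
        apply R_mono h'
        · exact ((IsClosed.preimage continuous_fst (isClosed_discrete D)).union
            (hD'.preimage continuous_snd)).preimage (by fun_prop)
        · intro y hy
          exact Or.inr hy
      exact R.image K' (K × K') _ _ inferInstance (fun y => (x, y)) (by fun_prop) (by
        rintro ⟨a, y⟩
        exact ⟨y, by rw [Subsingleton.elim a x]⟩) _ h3
  | sysp K t hc h2 D hD ι Y F hS hY hF ih1 ih2 =>
    have h2' := h'.t2
    have hc' := h'.compact
    have hD' := h'.closed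
    refine R.sysp (K × K') _ inferInstance inferInstance _
      ((hD.preimage continuous_fst).union (hD'.preimage continuous_snd)) ι _ _
      (PR2_sysp hS) ?_ ?_
    · intro j
      refine R.image (Y j × K') _ inferInstance _ inferInstance
        (fun z => ⟨(z.1.1, z.2), z.1.2⟩) ?_ ?_ _ ?_
      · exact Continuous.subtype_mk (by fun_prop) _
      · rintro ⟨⟨a, b⟩, hab⟩
        exact ⟨(⟨a, hab⟩, b), rfl⟩
      · have h3 := ih1 j h'
        have h4 : ((fun z : Y j × K' => (⟨(z.1.1, z.2), z.1.2⟩ :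
            ({z | z.1 ∈ Y j} : Set (K × K')))) ⁻¹'
            (Subtype.val ⁻¹' ({z : K × K' | z.1 ∈ F j} ∪ {z | z.1 ∈ D ∨ z.2 ∈ D'}))) =
            {z : Y j × K' | z.1 ∈ (Subtype.val ⁻¹' (F j ∪ D) : Set (Y j)) ∨ z.2 ∈ D'} := by
          ext z
          simp only [mem_preimage, mem_union, mem_setOf_eq]
          tauto
        rw [h4]
        exact h3
    · intro j
      refine R.image (F j × K') _ _ _ inferInstance
        (fun z => ⟨(z.1.1, z.2), z.1.2⟩) ?_ ?_ _ (ih2 j h')
      · exact Continuous.subtype_mk (by fun_prop) _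
      · rintro ⟨⟨a, b⟩, hab⟩
        exact ⟨(⟨a, hab⟩, b), rfl⟩
  | gen K t hc h2 D hD ι C B i h e hG hR ih =>
    have h2' := h'.t2
    have hc' := h'.compact
    have hD' := h'.closed
    refine R.gen (K × K') _ inferInstance inferInstance _
      ((hD.preimage continuous_fst).union (hD'.preimage continuous_snd)) ι _ _ _ h e
      (PR2_gen1 hD' hG) ?_
    intro j
    refine R.image (C j × K') _ _ _ inferInstance
      (fun z => ⟨(z.1.1, z.2), z.1.2⟩) ?_ ?_ _ (ih j h')
    · exact Continuous.subtype_mk (by fun_prop) _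
    · rintro ⟨⟨a, b⟩, hab⟩
      exact ⟨(⟨a, hab⟩, b), rfl⟩
  | image K1 K2 t1 t2 h2 p hp hs D h ih =>
    have := h'.t2
    exact R.image _ _ _ _ inferInstance (Prod.map p id) (hp.prodMap continuous_id)
      (hs.prodMap Function.surjective_id) _ (ih h')
  | quot K t hc h2 D hD h ih =>
    have h2' := h'.t2
    have hc' := h'.compact
    have hD' := h'.closed
    exact R_compl _ _ _ _ ((hD.preimage continuous_fst).union (hD'.preimage continuous_snd))
      (ih h') (PR2_hom1 D D').some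

end Pool.Agent.CKT
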