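import Pool.Agent.CKT.Defs2
import Pool.Agent.CKT.Defs3

/-!
# The reference system of a well founded order with compact open initial segments (MP_0211b8_an)
-/

set_option autoImplicit false

open Set Filter Topology

namespace Pool.Agent.CKT

universe u v

private theorem WFS_open {L : Type u} [TopologicalSpace L] [PartialOrder L]
    (ho : ∀ t : L, IsOpen (Iic t)) (S : Set L) (hS : ∀ s ∈ S, Iic s ⊆ S) : IsOpen S := by
  rw [isOpen_iff_mem_nhds]
  intro s hs
  exact mem_of_superset ((ho s).mem_nhds (mem_Iic.2 le_rfl)) (hS s hs)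

private theorem WFS_cover {L : Type u} [TopologicalSpace L] [PartialOrder L]
    (ho : ∀ t : L, IsOpen (Iic t)) (X C : Set L) (hC : IsCompact C)
    (hf : ∀ c ∈ C, (Iic c ∩ X).Finite) : {x | x ∈ X ∧ ∃ c ∈ C, x ≤ c}.Finite := by
  obtain ⟨s, hs, hcov⟩ := hC.elim_nhds_subcover (fun c => Iic c)
    (fun c _ => (ho c).mem_nhds (mem_Iic.2 le_rfl))
  have h : (⋃ c ∈ s, (Iic c ∩ X)).Finite :=
    s.finite_toSet.biUnion (fun c hc => hf c (hs c hc))
  refine h.subset ?_
  rintro x ⟨hx, c, hc, hxc⟩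
  have h1 := hcov hc
  simp only [mem_iUnion, mem_Iic] at h1
  obtain ⟨d, hd, hcd⟩ := h1
  simp only [mem_iUnion]
  exact ⟨d, hd, le_trans hxc hcd, hx⟩

/-- The reference system of a well founded order with compact open `Iic t`. -/
theorem wf_sys (K : Type u) [TopologicalSpace K] [CompactSpace K] [T2Space K] (D : Set K)
    (hD : IsClosed D) [PartialOrder (Dᶜ : Set K)]
    (hwf : WellFounded (fun a b : (Dᶜ : Set K) => a < b))
    (ho : ∀ t : (Dᶜ : Set K), IsOpen (Iic t)) (hc : ∀ t : (Dᶜ : Set K), IsCompact (Iic t))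
    (F : K → Set K)
    (hF : ∀ x : (Dᶜ : Set K), F x.1 = closure (Subtype.val '' mins x) ∪ D) : SysR K D F := by
  have hcpt : ∀ A : Set K, IsClosed A → (∀ x ∈ A, x ∉ D) →
      IsCompact (Subtype.val ⁻¹' A : Set (Dᶜ : Set K)) := by
    intro A hA hAD
    rw [Topology.IsInducing.subtypeVal.isCompact_preimage_iff]
    · exact hA.isCompact
    · intro x hx
      exact ⟨⟨x, hAD x hx⟩, rfl⟩
  refine ⟨?_, ?_, ?_⟩
  · intro x hx
    have := hF ⟨x, hx⟩
    simp only at this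
    rw [this]
    exact isClosed_closure.union hD
  · intro A U hA hU hAU hAD
    set X : Set (Dᶜ : Set K) := {x | x.1 ∈ A ∧ ∀ y ∈ F x.1, y ∉ U} with hX
    suffices h : X.Finite by
      refine (h.image Subtype.val).subset ?_
      rintro x ⟨hx, hy⟩
      exact ⟨⟨x, hAD x hx⟩, ⟨hx, hy⟩, rfl⟩
    by_contra hinf
    have hA' := hcpt A hA hAD
    have hXA : ∀ x ∈ X, x ∈ (Subtype.val ⁻¹' A : Set (Dᶜ : Set K)) := fun x hx => hx.1
    have key : ∀ C : Set (Dᶜ : Set K), IsCompact C → C ⊆ Subtype.val ⁻¹' A →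
        ¬ (C ∩ X).Finite → ∃ a ∈ C, ¬ (Iic a ∩ X).Finite := by
      intro C hC hCA hCX
      by_contra hcon
      push Not at hcon
      apply hCX
      refine (WFS_cover ho X C hC hcon).subset ?_
      rintro x ⟨hxC, hxX⟩
      exact ⟨hxX, x, hxC, le_rfl⟩
    obtain ⟨a0, ha0, ha0'⟩ := key _ hA' le_rfl (fun h => hinf (h.subset fun x hx => ⟨hx.1, hx⟩))
    obtain ⟨a, ⟨haA, haX⟩, hmin⟩ := hwf.has_min
      {a : (Dᶜ : Set K) | a.1 ∈ A ∧ ¬ (Iic a ∩ X).Finite} ⟨a0, ha0, ha0'⟩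
    have hlow : ∀ b : (Dᶜ : Set K), b < a → (Iic b ∩ X).Finite := by
      intro b hb
      by_contra hbX
      obtain ⟨c, hcm, hcX⟩ := key (Iic b ∩ Subtype.val ⁻¹' A)
        ((hc b).inter_right (hA.preimage continuous_subtype_val)) inter_subset_right
        (fun h => hbX (h.subset fun x hx => ⟨⟨hx.1, hx.2.1⟩, hx.2⟩))
      exact hmin c ⟨hcm.2, hcX⟩ (lt_of_le_of_lt hcm.1 hb)
    have haU : a.1 ∈ U := hAU haA
    have hYc : IsCompact (Iic a ∩ Subtype.val ⁻¹' Uᶜ) :=
      (hc a).inter_right (hU.isClosed_compl.preimage continuous_subtype_val)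
    have hfin := WFS_cover ho X _ hYc (by
      rintro y ⟨hya, hyU⟩
      apply hlow
      rcases eq_or_lt_of_le (mem_Iic.1 hya) with h | h
      · exact absurd haU (h ▸ hyU)
      · exact h)
    apply haX
    refine (hfin.union (finite_singleton a)).subset ?_
    rintro x ⟨hxa, hxX⟩
    rcases eq_or_lt_of_le (mem_Iic.1 hxa) with h | h
    · exact Or.inr h
    · left
      refine ⟨hxX, ?_⟩
      obtain ⟨y, ⟨hxy, hya⟩, hymin⟩ := hwf.has_min {z : (Dᶜ : Set K) | x < z ∧ z ≤ a}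
        ⟨a, h, le_rfl⟩
      refine ⟨y, ⟨hya, ?_⟩, hxy.le⟩
      apply hxX.2
      rw [hF x]
      refine Or.inl (subset_closure ⟨y, ⟨hxy, ?_⟩, rfl⟩)
      intro z hxz hzy
      by_contra hne
      exact hymin z ⟨hxz, hzy.trans hya⟩ (lt_of_le_of_ne hzy hne)
  · intro M hM hMne hMD
    have hM' := hcpt M hM hMD
    obtain ⟨m, hm⟩ := hMne
    obtain ⟨x, _, hx⟩ := zorn_le_nonempty₀ (Subtype.val ⁻¹' M : Set (Dᶜ : Set K)) (by
      intro c hcM hch y hy
      have hcl : ∀ z : (Dᶜ : Set K), IsClosed (Ici z) := by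
        intro z
        rw [← isOpen_compl_iff]
        apply WFS_open ho
        intro s hs t ht htz
        exact hs (le_trans (mem_Ici.1 htz) (mem_Iic.1 ht))
      have : Nonempty c := ⟨⟨y, hy⟩⟩
      have hne := IsCompact.nonempty_iInter_of_directed_nonempty_isCompact_isClosed
        (fun z : c => (Subtype.val ⁻¹' M ∩ Ici z.1 : Set (Dᶜ : Set K))) (by
          rintro ⟨z1, hz1⟩ ⟨z2, hz2⟩
          rcases hch.total hz1 hz2 with h | h
          · exact ⟨⟨z2, hz2⟩, fun w hw => ⟨hw.1, le_trans h hw.2⟩, fun w hw => hw⟩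
          · exact ⟨⟨z1, hz1⟩, fun w hw => hw, fun w hw => ⟨hw.1, le_trans h hw.2⟩⟩)
        (fun z => ⟨z.1, hcM z.2, mem_Ici.2 le_rfl⟩)
        (fun z => hM'.inter_right (hcl z.1))
        (fun z => (hM.preimage continuous_subtype_val).inter (hcl z.1))
      obtain ⟨w, hw⟩ := hne
      rw [mem_iInter] at hw
      exact ⟨w, (hw ⟨y, hy⟩).1, fun z hz => (hw ⟨z, hz⟩).2⟩) ⟨m, hMD m hm⟩ hm
    refine ⟨x.1, hx.prop, ?_⟩
    intro y hy hyM
    rw [hF x] at hy
    rcases hy with hy | hy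
    · have hV : IsOpen (Subtype.val '' {t : (Dᶜ : Set K) | ¬ x < t} : Set K) := by
        apply (hD.isOpen_compl.isOpenEmbedding_subtypeVal).isOpenMap
        apply WFS_open ho
        intro s hs t ht hxt
        exact hs (lt_of_lt_of_le hxt (mem_Iic.1 ht))
      have hyV : y ∈ (Subtype.val '' {t : (Dᶜ : Set K) | ¬ x < t} : Set K) := by
        refine ⟨⟨y, hMD y hyM⟩, ?_, rfl⟩
        intro hlt
        exact absurd (hx.2 (y := ⟨y, hMD y hyM⟩) hyM hlt.le) (not_le_of_gt hlt)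
      obtain ⟨z, ⟨t, ht, htz⟩, s, hs, hsz⟩ := mem_closure_iff.1 hy _ hV hyV
      have : s = t := Subtype.ext (hsz.trans htz.symm)
      exact ht (this ▸ hs.1)
    · exact hMD y hyM hy

end Pool.Agent.CKT
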