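import Pool.Agent.CKT.Qga
import Pool.Agent.CKT.Flt
import Pool.Agent.CKT.Wfs

/-!
# Bases of open maps: filtrations and orders (MP_0211b8_an)
-/

set_option autoImplicit false

open Set Filter Topology

namespace Pool.Agent.CKT

universe u v

private theorem QGB_one {A B : Type u} [TopologicalSpace A] [TopologicalSpace B] {g : A → B}
    (hg : Continuous g) (ho : IsOpenMap g) (hs : Function.Surjective g) :
    IsOpenMap (OnePoint.map g) := by
  intro U hU
  rw [OnePoint.isOpen_def] at hU ⊢
  obtain ⟨h1, h2⟩ := hU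
  have e : ((↑) : B → OnePoint B) ⁻¹' (OnePoint.map g '' U) =
      g '' (((↑) : A → OnePoint A) ⁻¹' U) := by
    ext b
    constructor
    · rintro ⟨z, hz, hzb⟩
      induction z using OnePoint.rec with
      | infty =>
        rw [OnePoint.map_infty] at hzb
        exact absurd hzb (OnePoint.infty_ne_coe b)
      | coe a =>
        rw [OnePoint.map_some] at hzb
        exact ⟨a, hz, OnePoint.coe_injective hzb⟩
    · rintro ⟨a, ha, rfl⟩
      exact ⟨(a : OnePoint A), ha, OnePoint.map_some g a⟩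
  constructor
  · rintro ⟨z, hz, hzi⟩
    have hiU : OnePoint.infty ∈ U := by
      induction z using OnePoint.rec with
      | infty => exact hz
      | coe a =>
        rw [OnePoint.map_some] at hzi
        exact absurd hzi (OnePoint.coe_ne_infty _)
    rw [e]
    refine IsCompact.of_isClosed_subset ((h1 hiU).image hg) (ho _ h2).isClosed_compl ?_
    intro b hb
    obtain ⟨a, rfl⟩ := hs b
    exact ⟨a, fun ha => hb ⟨a, ha, rfl⟩, rfl⟩
  · rw [e]
    exact ho _ h2

theorem qg_one {X K : Type u} [TopologicalSpace X] [TopologicalSpace K] [CompactSpace X]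
    [T2Space X] [CompactSpace K] [T2Space K] {φ : X → K} (hφ : Continuous φ)
    (ho : IsOpenMap φ) (hs : Function.Surjective φ) (W : Set K) (hW : IsLocallyClosed W)
    (h : Qg (OnePoint W)) (hf : ∀ x ∈ W, IsGood (φ ⁻¹' {x} : Set X)) :
    IsGood (OnePoint (φ ⁻¹' W : Set X)) := by
  obtain ⟨_, _, h3⟩ := h
  have l1 : LocallyCompactSpace W := hW.locallyCompactSpace
  have l2 : LocallyCompactSpace (φ ⁻¹' W : Set X) :=
    (hW.preimage hφ).locallyCompactSpace
  let g : (φ ⁻¹' W : Set X) → W := W.restrictPreimage φ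
  have hgp : IsProperMap g := hφ.isProperMap.restrictPreimage W
  have hgc : Continuous g := hgp.continuous
  have hgo : IsOpenMap g := ho.restrictPreimage W
  have hgs : Function.Surjective g := Set.restrictPreimage_surjective _ hs
  have hgt : Tendsto g (coclosedCompact _) (coclosedCompact _) := by
    rw [coclosedCompact_eq_cocompact, coclosedCompact_eq_cocompact]
    exact (isProperMap_iff_tendsto_cocompact.1 hgp).2
  refine h3 (OnePoint (φ ⁻¹' W : Set X)) (OnePoint.map g)
    (OnePoint.continuous_map hgc hgt) (QGB_one hgc hgo hgs) ?_ ?_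
  · intro y
    induction y using OnePoint.rec with
    | infty => exact ⟨OnePoint.infty, OnePoint.map_infty g⟩
    | coe b =>
      obtain ⟨a, rfl⟩ := hgs b
      exact ⟨(a : OnePoint (φ ⁻¹' W : Set X)), OnePoint.map_some g a⟩
  · intro y
    induction y using OnePoint.rec with
    | infty =>
      have : Subsingleton (OnePoint.map g ⁻¹' {OnePoint.infty} :
          Set (OnePoint (φ ⁻¹' W : Set X))) := by
        have key : ∀ z : OnePoint (φ ⁻¹' W : Set X), OnePoint.map g z = OnePoint.infty →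
            z = OnePoint.infty := by
          intro z hz
          induction z using OnePoint.rec with
          | infty => rfl
          | coe a =>
            rw [OnePoint.map_some] at hz
            exact absurd hz (OnePoint.coe_ne_infty _)
        exact ⟨fun a b => Subtype.ext ((key a.1 a.2).trans (key b.1 b.2).symm)⟩
      exact good_subsingleton _
    | coe k =>
      obtain ⟨k, hk⟩ := k
      refine good_image (φ ⁻¹' {k} : Set X) _
        (fun x => ⟨((⟨x.1, by
          have h1 : φ x.1 = k := x.2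
          show φ x.1 ∈ W
          rw [h1]
          exact hk⟩ : (φ ⁻¹' W : Set X)) : OnePoint (φ ⁻¹' W : Set X)), by
          rw [mem_preimage, OnePoint.map_some, mem_singleton_iff]
          exact congrArg _ (Subtype.ext x.2)⟩) ?_ ?_ (hf k hk)
      · exact Continuous.subtype_mk (OnePoint.continuous_coe.comp
          (Continuous.subtype_mk continuous_subtype_val _)) _
      · rintro ⟨z, hz⟩
        have hz0 : OnePoint.map g z = (⟨k, hk⟩ : W) := hz
        have hzi : z ≠ OnePoint.infty := by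
          rintro rfl
          rw [OnePoint.map_infty] at hz0
          exact OnePoint.infty_ne_coe _ hz0
        obtain ⟨a, rfl⟩ := OnePoint.ne_infty_iff_exists.1 hzi
        rw [OnePoint.map_some] at hz0
        have h4 : g a = ⟨k, hk⟩ := OnePoint.coe_injective hz0
        exact ⟨⟨a.1, congrArg Subtype.val h4⟩, rfl⟩

theorem qg_filt (K : Type u) [TopologicalSpace K] [CompactSpace K] [T2Space K] (D : Set K)
    (hD : IsClosed D) (ρ : K → ℚ)
    (h1 : ∀ q : ℚ, IsClosed (D ∪ {x | q ≤ ρ x}) ∧ IsClosed (D ∪ {x | q < ρ x}))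
    (h0 : Qg D) (h : ∀ q : ℚ, Qg (OnePoint ({x | x ∉ D ∧ ρ x = q} : Set K))) : Qg K := by
  refine ⟨inferInstance, inferInstance, ?_⟩
  intro X _ _ _ φ hφ ho hs hf
  refine good_filt X (φ ⁻¹' D) (hD.preimage hφ) (fun x => ρ (φ x)) (fun q => ⟨?_, ?_⟩) ?_ ?_
  · exact (h1 q).1.preimage hφ
  · exact (h1 q).2.preimage hφ
  · exact qg_restr hφ ho hs D hD h0 fun x _ => hf x
  · intro q
    have e : ({x | x ∉ D ∧ ρ x = q} : Set K) =
        (D ∪ {x | q ≤ ρ x}) ∩ (D ∪ {x | q < ρ x})ᶜ := by
      ext x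
      simp only [mem_ofPred_eq, mem_inter_iff, mem_union, mem_compl_iff, not_or, not_lt]
      constructor
      · rintro ⟨h2, h3⟩
        exact ⟨Or.inr h3.ge, h2, h3.le⟩
      · rintro ⟨h2 | h2, h3, h4⟩
        · exact absurd h2 h3
        · exact ⟨h3, le_antisymm h4 h2⟩
    have hW : IsLocallyClosed ({x | x ∉ D ∧ ρ x = q} : Set K) := by
      rw [e]
      exact (h1 q).1.isLocallyClosed.inter (h1 q).2.isOpen_compl.isLocallyClosed
    exact qg_one hφ ho hs _ hW (h q) fun x _ => hf x

theorem qg_wf (K : Type u) [TopologicalSpace K] [CompactSpace K] [T2Space K] (D : Set K)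
    (hD : IsClosed D) [PartialOrder (Dᶜ : Set K)]
    (hwf : WellFounded (fun a b : (Dᶜ : Set K) => a < b))
    (ho : ∀ t : (Dᶜ : Set K), IsOpen (Iic t)) (hc : ∀ t : (Dᶜ : Set K), IsCompact (Iic t))
    (h0 : Qg D)
    (hF : ∀ x : (Dᶜ : Set K), Qg (closure (Subtype.val '' mins x) ∪ D : Set K)) : Qg K := by
  classical
  obtain ⟨F, hFeq⟩ : ∃ F : K → Set K, ∀ x : (Dᶜ : Set K),
      F x.1 = closure (Subtype.val '' mins x) ∪ D := by
    refine ⟨fun x => if hx : x ∈ (Dᶜ : Set K) then
      closure (Subtype.val '' mins (⟨x, hx⟩ : (Dᶜ : Set K))) ∪ D else univ, ?_⟩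
    rintro ⟨x, hx⟩
    exact dif_pos hx
  have hS : SysR K D F := wf_sys K D hD hwf ho hc F hFeq
  refine qg_sysp K D hD K (fun x => {z | z = x ∧ x ∉ D}) (fun x => {z | z ∈ F x ∧ x ∉ D})
    ⟨?_, ?_, ?_, ?_⟩ h0 ?_ ?_
  · intro x
    by_cases hx : x ∈ D
    · simp [hx]
    · simp [hx]
  · intro x
    by_cases hx : x ∈ D
    · simp [hx]
    · simpa [hx] using hS.closed x hx
  · intro A U hA hU hAU hAD
    refine (hS.fin A U hA hU hAU hAD).subset ?_
    rintro x ⟨⟨z, hzA, rfl, hzD⟩, hx⟩
    exact ⟨hzA, fun y hy => hx y ⟨hy, hzD⟩⟩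
  · intro M hM hne hMD
    obtain ⟨x, hxM, hx⟩ := hS.top M hM hne hMD
    exact ⟨x, ⟨x, hxM, rfl, hMD x hxM⟩, fun y hy => hx y hy.1⟩
  · intro x
    have : Subsingleton ({z | z = x ∧ x ∉ D} : Set K) :=
      ⟨fun a b => Subtype.ext (a.2.1.trans b.2.1.symm)⟩
    exact qg_point _
  · intro x
    by_cases hx : x ∈ D
    · have : Subsingleton ({z | z ∈ F x ∧ x ∉ D} : Set K) := ⟨fun a => absurd hx a.2.2⟩
      exact qg_point _
    · have e : ({z | z ∈ F x ∧ x ∉ D} : Set K) = closure (Subtype.val ''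
          mins (⟨x, hx⟩ : (Dᶜ : Set K))) ∪ D := by
        rw [← hFeq ⟨x, hx⟩]
        ext z
        exact ⟨fun h => h.1, fun h => ⟨h, hx⟩⟩
      rw [e]
      exact hF ⟨x, hx⟩

end Pool.Agent.CKT
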