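import Pool.Agent.CKT.Defs8
import Pool.Agent.CKT.Qga
import Pool.Agent.CKT.Qfi
import Pool.Agent.CKT.Rk1
import Pool.Agent.CKT.Hfr
import Pool.Agent.CKT.Hfu
import Pool.Agent.CKT.Hf1
import Pool.Agent.CKT.Hf4
import Pool.Agent.CKT.Hf6
import Pool.Agent.CKT.Hf7
import Pool.Agent.CKT.Hf8
import Pool.Agent.CKT.Hf9
import Pool.Agent.CKT.Hf10

/-!
# Spaces built by chains of retractions (MP_0211b8_an)
-/

set_option autoImplicit false

open Set Filter Topology

namespace Pool.Agent.CKT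

universe u v

theorem hasF_main (ρ : Ordinal.{u}) : ∀ (n : ℕ) (K : Type u) [TopologicalSpace K]
    [CompactSpace K] [T2Space K], HasF K → ∀ rk : K → Ordinal.{u},
    (∀ x, ∃ V ∈ 𝓝 x, ∀ y ∈ V, y ≠ x → rk y < rk x) → (∀ x, rk x ≤ ρ) →
    {x | rk x = ρ}.Finite → {x | rk x = ρ}.ncard ≤ n → Qg K := by
  induction ρ using WellFoundedLT.induction with
  | ind ρ ihρ =>
  intro n
  induction n with
  | zero =>
    intro K _ _ _ hF rk hrk hρ hfin hn
    rcases isEmpty_or_nonempty K with hK | hK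
    · exact qg_finite K
    obtain ⟨x₀, hmax, hfin'⟩ := rk_max K rk hrk
    have h1 : {x | rk x = ρ} = ∅ := by
      rwa [Nat.le_zero, Set.ncard_eq_zero hfin] at hn
    have h2 : rk x₀ < ρ := lt_of_le_of_ne (hρ x₀) fun h3 => by
      have h4 : x₀ ∈ ({x | rk x = ρ} : Set K) := h3
      rw [h1] at h4
      exact h4
    exact ihρ (rk x₀) h2 _ K hF rk hrk hmax hfin' le_rfl
  | succ n ihn =>
    intro K _ _ _ hF rk hrk hρ hfin hn
    by_cases hE : {x | rk x = ρ}.Nonempty
    swap
    · refine ihn K hF rk hrk hρ hfin ?_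
      rw [Set.not_nonempty_iff_eq_empty.1 hE]
      simp
    obtain ⟨e, he⟩ := hE
    obtain ⟨ι, T, C, P, hS⟩ := hF e
    choose Y hY1 hY2 hY3 using fun j => clopen_sep K rk hrk (C j) (hS.closed j) e (hS.ne j)
    refine qg_fsys K e ι T C P hS Y (fun j => (hY1 j).isClosed) hY2 fun j => ?_
    have hcc : CompactSpace (Y j) := isCompact_iff_compactSpace.1 (hY1 j).isClosed.isCompact
    have hinj : Function.Injective (Subtype.val : Y j → K) := Subtype.val_injective
    have hsub : Subtype.val '' {z : Y j | rk z.1 = ρ} ⊆ {x | rk x = ρ} \ {e} := by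
      rintro _ ⟨⟨z, hz⟩, hz', rfl⟩
      refine ⟨hz', fun h3 => hY3 j ?_⟩
      have h4 : z = e := h3
      rw [← h4]
      exact hz
    refine ihn (Y j) (hasF_clopen K (Y j) (hY1 j) hF) (fun z => rk z.1) ?_ (fun z => hρ z.1) ?_ ?_
    · rintro ⟨x, hx⟩
      obtain ⟨V, hV, hV'⟩ := hrk x
      refine ⟨Subtype.val ⁻¹' V, continuous_subtype_val.continuousAt hV, ?_⟩
      rintro ⟨y, hy⟩ hyV hne
      exact hV' y hyV fun h => hne (Subtype.ext h)
    · exact Set.Finite.of_finite_image ((hfin.subset sdiff_subset).subset hsub) hinj.injOn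
    · have h5 : ({x | rk x = ρ} \ {e}).ncard < {x | rk x = ρ}.ncard :=
        Set.ncard_sdiff_singleton_lt_of_mem he hfin
      have h6 := Set.ncard_le_ncard hsub (hfin.subset sdiff_subset)
      rw [Set.ncard_image_of_injective _ hinj] at h6
      omega

theorem rc_hasF {K : Type u} {t : TopologicalSpace K} (h : RC K t) :
    ∃ _ : CompactSpace K, T2Space K ∧ HasF K := by
  induction h with
  | metr K t hc hm => exact ⟨hc, inferInstance, hasF_metr K⟩
  | union K t hc h2 F hF hU h ih =>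
    refine ⟨hc, h2, hasF_union K F hF hU fun n => ?_⟩
    obtain ⟨hcn, _, hFn⟩ := ih n
    exact ⟨hcn, hFn⟩
  | prod K L t t' h h' ih ih' =>
    obtain ⟨hc, h2, hF⟩ := ih
    obtain ⟨hc', h2', hF'⟩ := ih'
    exact ⟨inferInstance, inferInstance, hasF_prod K L hF hF'⟩
  | retr K L t t' p s hp hs hps h ih =>
    obtain ⟨hc, h2, hF⟩ := ih
    have hsurj : Function.Surjective p := fun y => ⟨s y, hps y⟩
    have hcL : CompactSpace L := by
      rw [← isCompact_univ_iff, ← hsurj.range_eq]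
      exact isCompact_range hp
    have hinj : Function.Injective s := fun y z hyz => by rw [← hps y, ← hps z, hyz]
    exact ⟨hcL, T2Space.of_injective_continuous hinj hs, hasF_sect K L p s hp hs hps hF⟩
  | chain K t hc h2 κ r h A M h0 hA hM hMr hMi hMC ih0 ihM =>
    obtain ⟨hc0, _, hF0⟩ := ih0
    refine ⟨hc, h2, hasF_chain K κ r h hF0 fun a ha e => ?_⟩
    have ha' : Order.succ a ≤ κ := Order.succ_le_of_lt ha
    have hle : a ≤ Order.succ a := Order.le_succ a
    by_cases hAa : A a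
    · exact isys_small K (r (Order.succ a)) (r a) (h.cont _ ha') (h.cont _ ha.le)
        (h.low _ _ le_rfl ha') (h.low _ _ hle ha') (h.up _ _ hle ha') (hA a ha hAa) e
    · refine isys_of_parts K (r (Order.succ a)) (r a) (h.cont _ ha') (h.cont _ ha.le)
        (h.low _ _ le_rfl ha') (h.low _ _ hle ha') (M a) (hM a ha hAa) (hMr a ha hAa)
        (hMi a ha hAa) (fun n => ?_) e
      obtain ⟨hcn, _, hFn⟩ := ihM a ha hAa n
      exact ⟨hcn, hFn⟩

end Pool.Agent.CKT
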