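import Pool.Agent.CKT.Defs2
import Pool.Agent.CKB.Ord

/-!
# Linearly ordered spaces with scattered complement of `D` (MP_0211b8_an)
-/

set_option autoImplicit false

open Set Filter Topology

namespace Pool.Agent.CKT

universe u v

/-- empty spaces -/
private theorem rln_empty (K : Type u) [t : TopologicalSpace K] [IsEmpty K] (D : Set K) :
    R K t D :=
  R.sys K t inferInstance inferInstance D (by
    have : D = ∅ := eq_empty_of_forall_notMem fun x => isEmptyElim x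
    rw [this]
    exact isClosed_empty) (fun _ => ∅)
    ⟨fun x => isEmptyElim x, fun A U _ _ _ _ => by
      have : {x : K | x ∈ A ∧ ∀ y ∈ (∅ : Set K), y ∉ U} = ∅ :=
        eq_empty_of_forall_notMem fun x _ => isEmptyElim x
      rw [this]
      exact finite_empty, fun M _ hM => isEmptyElim hM.some⟩ fun x => isEmptyElim x

/-- finite spaces -/
private theorem rln_fin (K : Type u) [t : TopologicalSpace K] [Finite K] [T2Space K] (D : Set K) :
    R K t D :=
  R.sys K t inferInstance inferInstance D (Set.toFinite D).isClosed (fun _ => ∅)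
    ⟨fun _ _ => isClosed_empty, fun _ _ _ _ _ _ => Set.toFinite _, fun _ _ hM _ =>
      ⟨hM.some, hM.some_mem, fun _ hy => hy.elim⟩⟩ fun _ _ => rln_empty _ _

private theorem rln_rk (K : Type u) [TopologicalSpace K] (D : Set K) (hD : IsClosed D)
    (hK : ∀ s : Set K, s.Nonempty → (∀ x ∈ s, x ∉ D) →
      ∃ x ∈ s, ∃ U : Set K, IsOpen U ∧ U ∩ s = {x}) :
    ∃ r : K → Ordinal.{u}, ∀ x, x ∉ D → ∃ V : Set K, IsOpen V ∧ x ∈ V ∧
      ∀ y ∈ V, y ∉ D ∧ (y ≠ x → r y < r x) := by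
  classical
  have hS : ∀ s : Set {x : K // x ∉ D}, s.Nonempty →
      ∃ x ∈ s, ∃ U : Set {x : K // x ∉ D}, IsOpen U ∧ U ∩ s = {x} := by
    intro s hs
    obtain ⟨x, ⟨x', hx', rfl⟩, U, hU, hUs⟩ := hK (Subtype.val '' s) (hs.image _) (by
      rintro _ ⟨y, -, rfl⟩
      exact y.2)
    refine ⟨x', hx', Subtype.val ⁻¹' U, hU.preimage continuous_subtype_val, ?_⟩
    ext y
    constructor
    · rintro ⟨h1, h2⟩
      have h3 : (y : K) ∈ U ∩ Subtype.val '' s := ⟨h1, y, h2, rfl⟩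
      rw [hUs] at h3
      exact Subtype.ext h3
    · intro h
      have h1 : y = x' := h
      have h2 : (x' : K) ∈ U ∩ Subtype.val '' s := by rw [hUs]; rfl
      rw [h1]
      exact ⟨h2.1, hx'⟩
  refine ⟨fun x => if h : x ∉ D then CKB.rk (⟨x, h⟩ : {x : K // x ∉ D}) else 0, ?_⟩
  intro x hx
  obtain ⟨V, hV, hxV, hVr⟩ := CKB.rk_spec hS ⟨x, hx⟩
  obtain ⟨W, hW, hWV⟩ := isOpen_induced_iff.1 hV
  refine ⟨W ∩ Dᶜ, hW.inter hD.isOpen_compl, ⟨?_, hx⟩, ?_⟩
  · have h1 : (⟨x, hx⟩ : {x : K // x ∉ D}) ∈ Subtype.val ⁻¹' W := by rw [hWV]; exact hxV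
    exact h1
  · rintro y ⟨hyW, hyD⟩
    refine ⟨hyD, fun hne => ?_⟩
    have hyD' : y ∉ D := hyD
    have h1 : (⟨y, hyD'⟩ : {x : K // x ∉ D}) ∈ V := by rw [← hWV]; exact hyW
    have h2 := hVr _ h1 (fun h => hne (congrArg Subtype.val h))
    simp only [dif_pos hyD', dif_pos hx]
    exact h2

section

variable {K : Type u} [LinearOrder K] [TopologicalSpace K]

/-- The nearest points in `D` or of larger rank, on the two sides of `x`. -/
private def rln_near (D : Set K) (r : K → Ordinal.{u}) (x : K) : Set K :=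
  {y | (y ∈ D ∨ r x < r y) ∧ y < x ∧ ∀ z, z < x → (z ∈ D ∨ r x < r z) → z ≤ y} ∪
    {y | (y ∈ D ∨ r x < r y) ∧ x < y ∧ ∀ z, x < z → (z ∈ D ∨ r x < r z) → y ≤ z}

omit [TopologicalSpace K] in
private lemma rln_near_rk {D : Set K} {r : K → Ordinal.{u}} {x y : K}
    (h : y ∈ rln_near D r x) : y ∈ D ∨ r x < r y := by
  rcases h with h | h
  · exact h.1
  · exact h.1

omit [TopologicalSpace K] in
private lemma rln_near_finite (D : Set K) (r : K → Ordinal.{u}) (x : K) :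
    (rln_near D r x).Finite := by
  refine Set.Finite.union ?_ ?_
  · refine Set.Subsingleton.finite fun y hy z hz => ?_
    exact le_antisymm (hz.2.2 y hy.2.1 hy.1) (hy.2.2 z hz.2.1 hz.1)
  · refine Set.Subsingleton.finite fun y hy z hz => ?_
    exact le_antisymm (hy.2.2 z hz.2.1 hz.1) (hz.2.2 y hy.2.1 hy.1)

omit [LinearOrder K] in
private lemma rln_isClosed {D : Set K} {r : K → Ordinal.{u}}
    (hr : ∀ x, x ∉ D → ∃ V : Set K, IsOpen V ∧ x ∈ V ∧ ∀ y ∈ V, y ∉ D ∧ (y ≠ x → r y < r x))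
    (a : Ordinal.{u}) : IsClosed {y : K | y ∈ D ∨ a < r y} := by
  rw [← isOpen_compl_iff, isOpen_iff_forall_mem_open]
  intro x hx
  have hx1 : ¬ (x ∈ D ∨ a < r x) := hx
  rw [not_or, not_lt] at hx1
  obtain ⟨V, hV, hxV, hVr⟩ := hr x hx1.1
  refine ⟨V, ?_, hV, hxV⟩
  intro y hy
  show ¬ (y ∈ D ∨ a < r y)
  rw [not_or, not_lt]
  refine ⟨(hVr y hy).1, ?_⟩
  by_cases hyx : y = x
  · rw [hyx]; exact hx1.2
  · exact ((hVr y hy).2 hyx).le.trans hx1.2

omit [LinearOrder K] in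
private lemma rln_finite_top [CompactSpace K] {D : Set K} {r : K → Ordinal.{u}}
    (hr : ∀ x, x ∉ D → ∃ V : Set K, IsOpen V ∧ x ∈ V ∧ ∀ y ∈ V, y ∉ D ∧ (y ≠ x → r y < r x))
    {C : Set K} (hC : IsClosed C) (hCD : ∀ x ∈ C, x ∉ D) :
    {x | x ∈ C ∧ ∀ y ∈ C, r y ≤ r x}.Finite := by
  choose! V hV hxV hVr using hr
  obtain ⟨t, htC, ht⟩ := hC.isCompact.elim_nhds_subcover V
    (fun x hx => (hV x (hCD x hx)).mem_nhds (hxV x (hCD x hx)))
  refine Set.Finite.subset t.finite_toSet fun x hx => ?_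
  obtain ⟨y, hy, hxy⟩ := mem_iUnion₂.1 (ht hx.1)
  by_cases hne : x = y
  · rw [hne]; exact hy
  · exfalso
    have h1 := (hVr y (hCD y (htC y hy)) x hxy).2 hne
    have h2 := hx.2 y (htC y hy)
    exact absurd h1 (not_lt.2 h2)

end

private theorem rln_sys (K : Type u) [LinearOrder K] [TopologicalSpace K] [OrderTopology K]
    [CompactSpace K] (D : Set K) (hD : IsClosed D) (r : K → Ordinal.{u})
    (hr : ∀ x, x ∉ D → ∃ V : Set K, IsOpen V ∧ x ∈ V ∧ ∀ y ∈ V, y ∉ D ∧ (y ≠ x → r y < r x)) :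
    SysR K D (rln_near D r) where
  closed x _ := (rln_near_finite D r x).isClosed
  fin := by
    intro A U hA hU hAU hAD
    have h1 : ∀ a ∈ A, ∃ b c, Icc b c ∈ 𝓝 a ∧ Icc b c ⊆ U ∩ Dᶜ := by
      intro a ha
      obtain ⟨b, c, _, h2, h3⟩ := exists_Icc_mem_subset_of_mem_nhds
        ((hU.inter hD.isOpen_compl).mem_nhds (⟨hAU ha, hAD a ha⟩ : a ∈ U ∩ Dᶜ))
      exact ⟨b, c, h2, h3⟩
    choose! b c hbc hbcU using h1
    obtain ⟨t, htA, ht⟩ := hA.isCompact.elim_nhds_subcover (fun a => Icc (b a) (c a)) hbc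
    have hfin : (⋃ a ∈ t, {x | x ∈ Icc (b a) (c a) ∧
        ∀ y ∈ Icc (b a) (c a), r y ≤ r x}).Finite :=
      Set.Finite.biUnion t.finite_toSet fun a ha => rln_finite_top hr isClosed_Icc
        fun x hx => (hbcU a (htA a ha) hx).2
    refine hfin.subset ?_
    rintro x ⟨hxA, hxF⟩
    obtain ⟨a, ha, hxa⟩ := mem_iUnion₂.1 (ht hxA)
    refine mem_iUnion₂.2 ⟨a, ha, hxa, fun y hy => ?_⟩
    have hsub : Icc (b a) (c a) ⊆ U ∩ Dᶜ := hbcU a (htA a ha)
    have hxD : x ∉ D := hAD x hxA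
    by_contra hlt
    have hlt' : r x < r y := not_le.1 hlt
    have hyx : y ≠ x := fun h => by rw [h] at hlt'; exact lt_irrefl _ hlt'
    rcases lt_or_gt_of_ne hyx with hlt2 | hgt2
    · -- the largest element below x
      have hcomp : IsCompact (Iic x ∩ {z : K | z ∈ D ∨ r x < r z}) :=
        (isClosed_Iic.inter (rln_isClosed hr _)).isCompact
      obtain ⟨m, hm⟩ := hcomp.exists_isGreatest ⟨y, hlt2.le, Or.inr hlt'⟩
      have hm2 : m ∈ D ∨ r x < r m := hm.1.2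
      have hmx : m < x := by
        refine lt_of_le_of_ne hm.1.1 fun h => ?_
        rw [h] at hm2
        exact hm2.elim hxD (lt_irrefl _)
      have hmF : m ∈ rln_near D r x :=
        Or.inl ⟨hm2, hmx, fun z hz hzr => hm.2 ⟨hz.le, hzr⟩⟩
      refine hxF m hmF (hsub ⟨?_, ?_⟩).1
      · exact hy.1.trans (hm.2 ⟨hlt2.le, Or.inr hlt'⟩)
      · exact hmx.le.trans hxa.2
    · have hcomp : IsCompact (Ici x ∩ {z : K | z ∈ D ∨ r x < r z}) :=
        (isClosed_Ici.inter (rln_isClosed hr _)).isCompact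
      obtain ⟨m, hm⟩ := hcomp.exists_isLeast ⟨y, hgt2.le, Or.inr hlt'⟩
      have hm2 : m ∈ D ∨ r x < r m := hm.1.2
      have hmx : x < m := by
        refine lt_of_le_of_ne hm.1.1 fun h => ?_
        rw [← h] at hm2
        exact hm2.elim hxD (lt_irrefl _)
      have hmF : m ∈ rln_near D r x :=
        Or.inr ⟨hm2, hmx, fun z hz hzr => hm.2 ⟨hz.le, hzr⟩⟩
      refine hxF m hmF (hsub ⟨?_, ?_⟩).1
      · exact hxa.1.trans hmx.le
      · exact (hm.2 ⟨hgt2.le, Or.inr hlt'⟩).trans hy.2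
  top := by
    intro M hM hne hMD
    choose! V hV hxV hVr using hr
    obtain ⟨t, htM, ht⟩ := hM.isCompact.elim_nhds_subcover V
      (fun x hx => (hV x (hMD x hx)).mem_nhds (hxV x (hMD x hx)))
    have htne : t.Nonempty := by
      obtain ⟨m, hm⟩ := hne
      obtain ⟨y, hy, _⟩ := mem_iUnion₂.1 (ht hm)
      exact ⟨y, hy⟩
    obtain ⟨x, hx, hxmax⟩ := t.exists_max_image (fun x : K => r x) htne
    refine ⟨x, htM x hx, fun y hy hyM => ?_⟩
    rcases rln_near_rk hy with h1 | h1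
    · exact hMD y hyM h1
    obtain ⟨z, hz, hyz⟩ := mem_iUnion₂.1 (ht hyM)
    have h2 : r y ≤ r z := by
      by_cases h : y = z
      · rw [h]
      · exact ((hVr z (hMD z (htM z hz)) y hyz).2 h).le
    exact absurd h1 (not_lt.2 (h2.trans (hxmax z hz)))

/-- ROW RLN: linearly ordered `K`, scattered complement of `D` -/
theorem R_lin (K : Type u) [LinearOrder K] [t : TopologicalSpace K] [OrderTopology K]
    [CompactSpace K] (D : Set K) (hD : IsClosed D)
    (hK : ∀ s : Set K, s.Nonempty → (∀ x ∈ s, x ∉ D) →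
      ∃ x ∈ s, ∃ U : Set K, IsOpen U ∧ U ∩ s = {x}) : R K t D := by
  obtain ⟨r, hr⟩ := rln_rk K D hD hK
  refine R.sys K t inferInstance inferInstance D hD (rln_near D r) (rln_sys K D hD r hr)
    fun x _ => ?_
  have : Finite (rln_near D r x) := (rln_near_finite D r x).to_subtype
  exact rln_fin _ _

end Pool.Agent.CKT
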