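import Pool.Agent.CKT.Defs2
import Pool.Agent.CKT.Dis

/-!
# Pairs with a tree-like complement (MP_0211b8_an)
-/

set_option autoImplicit false

open Set Filter Topology

namespace Pool.Agent.CKT

universe u v

section
variable {L : Type u} [TopologicalSpace L] [PartialOrder L]

/-- The minimal elements above `x`. -/
private def rtl_nx (x : L) : Set L := {y | x < y ∧ ∀ u, x < u → u ≤ y → u = y}

private theorem rtl_nx_exists (h : TreeLike L) {x z : L} (hxz : x < z) :
    ∃ y ∈ rtl_nx x, y ≤ z := by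
  obtain ⟨y, hy, hmin⟩ := h.wf.has_min {u : L | x < u ∧ u ≤ z} ⟨z, hxz, le_rfl⟩
  refine ⟨y, ⟨hy.1, fun u hu huy => ?_⟩, hy.2⟩
  by_contra hne
  exact hmin u ⟨hu, huy.trans hy.2⟩ (lt_of_le_of_ne huy hne)

private theorem rtl_nx_finite (h : TreeLike L) (x : L) {C : Set L} (hC : IsCompact C) :
    (rtl_nx x ∩ C).Finite := by
  by_contra hinf
  have hinf' : (rtl_nx x ∩ C).Infinite := hinf
  let e := hinf'.natEmbedding
  obtain ⟨φ, hφ, hm, _⟩ := h.seq C hC (fun k => (e k).1)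
    (fun a b hab => e.injective (Subtype.ext hab)) (fun k => (e k).2.2)
  have h01 : (e (φ 0)).1 < (e (φ 1)).1 := hm Nat.zero_lt_one
  exact h01.ne ((e (φ 1)).2.1.2 _ (e (φ 0)).2.1.1 h01.le)

end

section
variable {K : Type u} [t : TopologicalSpace K] {D : Set K}

private theorem rtl_compact {C : Set K} (hC : IsCompact C) (hCD : C ⊆ Dᶜ) :
    IsCompact (Subtype.val ⁻¹' C : Set (Dᶜ : Set K)) := by
  rw [IsEmbedding.subtypeVal.isCompact_iff, Subtype.image_preimage_coe,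
    inter_eq_right.2 hCD]
  exact hC

variable [PartialOrder (Dᶜ : Set K)]

/-- `D` together with the minimal elements above `x`. -/
private def rtl_F (D : Set K) [PartialOrder (Dᶜ : Set K)] (x : K) : Set K :=
  {w | w ∈ D ∨ ∃ (hx : x ∈ Dᶜ) (hw : w ∈ Dᶜ), (⟨w, hw⟩ : (Dᶜ : Set K)) ∈ rtl_nx ⟨x, hx⟩}

private theorem rtl_F_finite (h : TreeLike (Dᶜ : Set K)) (x : K) {C : Set K} (hC : IsCompact C)
    (hCD : C ⊆ Dᶜ) : (rtl_F D x ∩ C).Finite := by
  by_cases hx : x ∈ Dᶜ
  · refine ((rtl_nx_finite h ⟨x, hx⟩ (rtl_compact hC hCD)).image Subtype.val).subset ?_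
    rintro w ⟨hw, hwC⟩
    rcases hw with hw | ⟨_, hw, hn⟩
    · exact absurd hw (hCD hwC)
    · exact ⟨⟨w, hw⟩, ⟨hn, hwC⟩, rfl⟩
  · refine (finite_empty (α := K)).subset ?_
    rintro w ⟨hw, hwC⟩
    rcases hw with hw | ⟨hx', _, _⟩
    · exact absurd hw (hCD hwC)
    · exact absurd hx' hx

private theorem rtl_F_closed [CompactSpace K] [T2Space K] (hD : IsClosed D)
    (h : TreeLike (Dᶜ : Set K)) (x : K) : IsClosed (rtl_F D x) := by
  rw [← isOpen_compl_iff, isOpen_iff_mem_nhds]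
  intro a ha
  have haD : a ∈ Dᶜ := fun h2 => ha (Or.inl h2)
  obtain ⟨C, hC, haC, hCD⟩ := exists_compact_subset hD.isOpen_compl haD
  have hfin := rtl_F_finite h x hC hCD
  have h1 : (rtl_F D x ∩ C)ᶜ ∈ 𝓝 a := hfin.isClosed.isOpen_compl.mem_nhds (fun h2 => ha h2.1)
  filter_upwards [mem_interior_iff_mem_nhds.1 haC, h1] with b hb1 hb2 hb3
  exact hb2 ⟨hb3, hb1⟩

private theorem rtl_sys [CompactSpace K] [T2Space K] (hD : IsClosed D)
    (h : TreeLike (Dᶜ : Set K)) : SysR K D (rtl_F D) := by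
  refine ⟨fun x _ => rtl_F_closed hD h x, ?_, ?_⟩
  · intro A U hA hU hAU hAD
    have hAD' : A ⊆ Dᶜ := hAD
    have hC : IsCompact (Subtype.val ⁻¹' A : Set (Dᶜ : Set K)) :=
      rtl_compact hA.isCompact hAD'
    by_contra hinf
    have hS : {x : (Dᶜ : Set K) | (x : K) ∈ A ∧ ∀ w ∈ rtl_F D (x : K), w ∉ U}.Infinite := by
      intro hfin
      apply hinf
      refine (hfin.image Subtype.val).subset ?_
      rintro z ⟨hz, hz2⟩
      exact ⟨⟨z, hAD' hz⟩, ⟨hz, hz2⟩, rfl⟩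
    let e := hS.natEmbedding
    obtain ⟨φ, hφ, hm, t, ht⟩ := h.seq _ hC (fun k => (e k).1)
      (fun a b hab => e.injective (Subtype.ext hab)) (fun k => (e k).2.1)
    let u : ℕ → (Dᶜ : Set K) := fun k => (e (φ k)).1
    have hu : StrictMono u := hm
    have hut : ∀ k, u k ≤ t := ht
    have hy : ∀ k, ∃ y ∈ rtl_nx (u k), y ≤ u (k + 1) :=
      fun k => rtl_nx_exists h (hu (Nat.lt_succ_self k))
    choose y hy1 hy2 using hy
    let w : ℕ → (Dᶜ : Set K) := fun m => if m % 2 = 0 then u m else y (m - 1)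
    have hw0 : ∀ j, w (2 * j) = u (2 * j) := fun j => if_pos (by omega)
    have hw1 : ∀ j, w (2 * j + 1) = y (2 * j) := fun j => by
      have : w (2 * j + 1) = y (2 * j + 1 - 1) := if_neg (by omega)
      rw [this]
      rfl
    have hwm : StrictMono w := by
      apply strictMono_nat_of_lt_succ
      intro m
      rcases Nat.even_or_odd' m with ⟨j, hj | hj⟩
      · subst hj
        rw [hw0, hw1]
        exact (hy1 (2 * j)).1
      · subst hj
        have h1 : w (2 * j + 1 + 1) = u (2 * (j + 1)) := hw0 (j + 1)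
        rw [h1, hw1]
        exact lt_of_le_of_lt (hy2 (2 * j)) (hu (by omega))
    obtain ⟨a, ha⟩ := h.conv w hwm ⟨t, fun m => by
      rcases Nat.even_or_odd' m with ⟨j, hj | hj⟩
      · subst hj
        rw [hw0]
        exact hut _
      · subst hj
        rw [hw1]
        exact (hy2 (2 * j)).trans (hut _)⟩
    have hae : Tendsto (fun j => w (2 * j)) atTop (𝓝 a) :=
      ha.comp (tendsto_atTop_mono (fun j => by show j ≤ 2 * j; omega) tendsto_id)
    have hao : Tendsto (fun j => w (2 * j + 1)) atTop (𝓝 a) :=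
      ha.comp (tendsto_atTop_mono (fun j => by show j ≤ 2 * j + 1; omega) tendsto_id)
    have hCc : IsClosed (Subtype.val ⁻¹' A : Set (Dᶜ : Set K)) :=
      hA.preimage continuous_subtype_val
    have haC : a ∈ (Subtype.val ⁻¹' A : Set (Dᶜ : Set K)) := by
      refine hCc.mem_of_tendsto hae (Eventually.of_forall fun j => ?_)
      show ((w (2 * j) : (Dᶜ : Set K)) : K) ∈ A
      rw [hw0]
      exact (e (φ (2 * j))).2.1
    have haU : (a : K) ∈ U := hAU haC
    have hoU : IsOpen (Subtype.val ⁻¹' U : Set (Dᶜ : Set K)) :=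
      hU.preimage continuous_subtype_val
    obtain ⟨j, hj⟩ := (hao.eventually (hoU.mem_nhds haU)).exists
    have hj' : ((w (2 * j + 1) : (Dᶜ : Set K)) : K) ∈ U := hj
    rw [hw1] at hj'
    exact (e (φ (2 * j))).2.2 _ (Or.inr ⟨(e (φ (2 * j))).1.2, (y (2 * j)).2, hy1 (2 * j)⟩) hj'
  · intro M hM hMn hMD
    have hMD' : M ⊆ Dᶜ := hMD
    have hC : IsCompact (Subtype.val ⁻¹' M : Set (Dᶜ : Set K)) :=
      rtl_compact hM.isCompact hMD'
    have hCn : (Subtype.val ⁻¹' M : Set (Dᶜ : Set K)).Nonempty := by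
      obtain ⟨z, hz⟩ := hMn
      exact ⟨⟨z, hMD' hz⟩, hz⟩
    obtain ⟨m, hm, hmax⟩ := h.max _ hC hCn
    refine ⟨m, hm, fun y hy hyM => ?_⟩
    rcases hy with hy | ⟨hx, hw, hn⟩
    · exact hMD y hyM hy
    · have h1 : m < (⟨y, hw⟩ : (Dᶜ : Set K)) := hn.1
      have h2 := hmax ⟨y, hw⟩ hyM h1.le
      exact h1.ne h2.symm

end

/-! ROW RTL (Rtl.lean; uses DIS): the complement of `D` is tree-like; `F x = nx x ∪ D` -/
theorem R_treeLike (K : Type u) [t : TopologicalSpace K] [CompactSpace K] [T2Space K] (D : Set K)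
    (hD : IsClosed D) [PartialOrder (Dᶜ : Set K)] (h : TreeLike (Dᶜ : Set K)) : R K t D := by
  refine R.sys K t inferInstance inferInstance D hD (rtl_F D) (rtl_sys hD h) ?_
  intro x _
  have hcl := rtl_F_closed hD h x
  have : CompactSpace (rtl_F D x) := isCompact_iff_compactSpace.1 hcl.isCompact
  refine R_dis (rtl_F D x) (Subtype.val ⁻¹' D) (hD.preimage continuous_subtype_val) ?_
  intro z hz
  have hzD : (z : K) ∈ Dᶜ := hz
  obtain ⟨C, hC, hzC, hCD⟩ := exists_compact_subset hD.isOpen_compl hzD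
  have hfin : ((rtl_F D x ∩ C) \ {(z : K)}).Finite := (rtl_F_finite h x hC hCD).sdiff
  refine ⟨Subtype.val ⁻¹' (interior C ∩ ((rtl_F D x ∩ C) \ {(z : K)})ᶜ),
    (isOpen_interior.inter hfin.isClosed.isOpen_compl).preimage continuous_subtype_val,
    ⟨hzC, fun h2 => h2.2 rfl⟩, ?_⟩
  rintro y ⟨hy1, hy2⟩ _
  by_contra hne
  exact hy2 ⟨⟨y.2, interior_subset hy1⟩, fun h3 => hne (Subtype.ext h3)⟩

end Pool.Agent.CKT
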