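import Pool.Agent.CKT.Fib
import Pool.Agent.CKT.Dis

/-!
# Relative bumps: sigma-discrete complement (MP_0211b8_an)
-/

set_option autoImplicit false

open Set Filter Topology

namespace Pool.Agent.CKT

universe u v

theorem R_sd (K : Type u) [t : TopologicalSpace K] [CompactSpace K] [T2Space K] (D : Set K)
    (hD : IsClosed D)
    (P : K → ℕ) (hP : ∀ x, x ∉ D → ∃ V ∈ 𝓝 x, ∀ y ∈ V, y ∉ D → P y = P x → y = x) :
    R K t D := by
  have h : ∀ x, x ∉ D → R ((id : K → K) ⁻¹' {x} : Set K) inferInstance ∅ := by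
    intro x _
    have hc : IsClosed ((id : K → K) ⁻¹' {x} : Set K) := isClosed_singleton.preimage continuous_id
    have hcp : CompactSpace ((id : K → K) ⁻¹' {x} : Set K) :=
      isCompact_iff_compactSpace.1 hc.isCompact
    refine R_dis _ ∅ isClosed_empty fun z _ => ⟨univ, isOpen_univ, mem_univ _, fun y _ _ => ?_⟩
    have h1 : y.1 = x := y.2
    have h2 : z.1 = x := z.2
    exact Subtype.ext (h1.trans h2.symm)
  exact R_fib K K id continuous_id D hD P hP h

end Pool.Agent.CKT
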