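import Pool.Agent.CKT.Wfs
import Pool.Agent.CKT.Sem
import Pool.Agent.CKT.Perm2

/-!
# Well founded orders with compact open initial segments (MP_0211b8_an)
-/

set_option autoImplicit false

open Set Filter Topology

namespace Pool.Agent.CKT

universe u v

private theorem wfg_F (K : Type u) [TopologicalSpace K] (D : Set K)
    [PartialOrder (Dᶜ : Set K)] :
    ∃ F : K → Set K, ∀ x : (Dᶜ : Set K), F x.1 = closure (Subtype.val '' mins x) ∪ D := by
  classical
  refine ⟨fun x => if hx : x ∈ (Dᶜ : Set K) then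
    closure (Subtype.val '' mins (⟨x, hx⟩ : (Dᶜ : Set K))) ∪ D else univ, ?_⟩
  rintro ⟨x, hx⟩
  exact dif_pos hx

theorem R_wfc (K : Type u) [t : TopologicalSpace K] [CompactSpace K] [T2Space K] (D : Set K)
    (hD : IsClosed D) [PartialOrder (Dᶜ : Set K)]
    (hwf : WellFounded (fun a b : (Dᶜ : Set K) => a < b))
    (ho : ∀ t : (Dᶜ : Set K), IsOpen (Iic t)) (hc : ∀ t : (Dᶜ : Set K), IsCompact (Iic t))
    (hF : ∀ x : (Dᶜ : Set K), R (closure (Subtype.val '' mins x) ∪ D : Set K) inferInstance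
      (Subtype.val ⁻¹' D)) : R K t D := by
  obtain ⟨F, hFeq⟩ := wfg_F K D
  refine R.sys K t inferInstance inferInstance D hD F (wf_sys K D hD hwf ho hc F hFeq) ?_
  intro x hx
  have h1 : F x = closure (Subtype.val '' mins (⟨x, hx⟩ : (Dᶜ : Set K))) ∪ D := hFeq ⟨x, hx⟩
  rw [h1]
  exact hF ⟨x, hx⟩

theorem good_wf (K : Type u) [TopologicalSpace K] [CompactSpace K] [T2Space K] (D : Set K)
    (hD : IsClosed D) [PartialOrder (Dᶜ : Set K)]
    (hwf : WellFounded (fun a b : (Dᶜ : Set K) => a < b))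
    (ho : ∀ t : (Dᶜ : Set K), IsOpen (Iic t)) (hc : ∀ t : (Dᶜ : Set K), IsCompact (Iic t))
    (h0 : IsGood D)
    (hF : ∀ x : (Dᶜ : Set K), IsGood (closure (Subtype.val '' mins x) ∪ D : Set K)) :
    IsGood K := by
  obtain ⟨F, hFeq⟩ := wfg_F K D
  have hS : SysR K D F := wf_sys K D hD hwf ho hc F hFeq
  refine ⟨inferInstance, inferInstance, ?_⟩
  obtain ⟨_, _, h3⟩ := h0
  refine hasBumps_of_rel K D hD (perm_sys K D hD F hS ?_) h3
  intro x hx
  have h1 : F x = closure (Subtype.val '' mins (⟨x, hx⟩ : (Dᶜ : Set K))) ∪ D := hFeq ⟨x, hx⟩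
  have key : ∀ (S : Set K) (hS : IsClosed S), IsGood S →
      @RelBumps S _ (isCompact_iff_compactSpace.1 hS.isCompact) (Subtype.val ⁻¹' D) := by
    intro S hS h
    exact h.rel _ _
  exact key (F x) (hS.closed x hx) (h1 ▸ hF ⟨x, hx⟩)

end Pool.Agent.CKT
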