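import Pool.Agent.CKT.Defs2
import Pool.Agent.CKT.Defs3
import Pool.Agent.CKT.Dis
import Pool.Agent.CKT.Wfg

/-!
# Well founded orders with locally finite sets of successors (MP_0211b8_an)
-/

set_option autoImplicit false

open Set Filter Topology

namespace Pool.Agent.CKT

universe u v

theorem R_wf (K : Type u) [t : TopologicalSpace K] [CompactSpace K] [T2Space K] (D : Set K)
    (hD : IsClosed D) [PartialOrder (Dᶜ : Set K)]
    (hwf : WellFounded (fun a b : (Dᶜ : Set K) => a < b))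
    (ho : ∀ t : (Dᶜ : Set K), IsOpen (Iic t)) (hc : ∀ t : (Dᶜ : Set K), IsCompact (Iic t))
    (hb : ∀ x t : (Dᶜ : Set K), x < t → (mins x ∩ Iic t).Finite) : R K t D := by
  classical
  refine R_wfc K D hD hwf ho hc ?_
  intro x
  have hfin : ∀ t : (Dᶜ : Set K), (mins x ∩ Iic t).Finite := by
    intro t
    by_cases hxt : x < t
    · exact hb x t hxt
    · refine Set.Finite.subset Set.finite_empty ?_
      rintro y ⟨hy1, hy2⟩
      exact absurd (lt_of_lt_of_le hy1.1 hy2) hxt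
  have hDo : IsOpen (Dᶜ : Set K) := hD.isOpen_compl
  have hIo : ∀ t : (Dᶜ : Set K), IsOpen (Subtype.val '' (Iic t) : Set K) := fun t =>
    hDo.isOpenMap_subtype_val _ (ho t)
  have key : ∀ y z : (Dᶜ : Set K), z ≤ y → z.1 ∈ closure (Subtype.val '' mins x) →
      z ∈ mins x := by
    intro y z hzy hz
    have h1 : z.1 ∈ closure ((Subtype.val '' (Iic y)) ∩ (Subtype.val '' mins x)) :=
      (hIo y).inter_closure ⟨⟨z, hzy, rfl⟩, hz⟩
    have hfin' : ((Subtype.val '' (Iic y)) ∩ (Subtype.val '' mins x) : Set K).Finite := by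
      rw [← Set.image_inter Subtype.val_injective, inter_comm]
      exact (hfin y).image _
    rw [hfin'.isClosed.closure_eq] at h1
    obtain ⟨-, ⟨w, hw, hwz⟩⟩ := h1
    have hwz' : w = z := Subtype.ext hwz
    exact hwz' ▸ hw
  have : CompactSpace (closure (Subtype.val '' mins x) ∪ D : Set K) :=
    isCompact_iff_compactSpace.1 ((isClosed_closure.union hD).isCompact)
  refine R_dis _ _ (hD.preimage continuous_subtype_val) ?_
  intro p hp
  have hpD : p.1 ∉ D := hp
  have hpc : p.1 ∈ closure (Subtype.val '' mins x) := p.2.resolve_right hpD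
  have hy : (⟨p.1, hpD⟩ : (Dᶜ : Set K)) ∈ mins x := key ⟨p.1, hpD⟩ ⟨p.1, hpD⟩ le_rfl hpc
  refine ⟨Subtype.val ⁻¹' (Subtype.val '' (Iic (⟨p.1, hpD⟩ : (Dᶜ : Set K)))),
    (hIo _).preimage continuous_subtype_val, ⟨⟨p.1, hpD⟩, le_rfl, rfl⟩, ?_⟩
  rintro q ⟨z, hzy, hzq⟩ hqD
  have hqc : z.1 ∈ closure (Subtype.val '' mins x) := by
    rw [hzq]
    exact q.2.resolve_right hqD
  have hz : z ∈ mins x := key _ z hzy hqc
  have hzy2 : z = (⟨p.1, hpD⟩ : (Dᶜ : Set K)) := hy.2 z hz.1 hzy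
  apply Subtype.ext
  rw [← hzq, hzy2]

end Pool.Agent.CKT
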