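import Pool.Agent.CKT.Defs2
import Pool.Agent.CKT.Defs3
import Pool.Agent.CKT.Wf1

/-!
# Closed subspaces of finite products of well quasi-ordered spaces
-/

set_option autoImplicit false

open Set Filter Topology

namespace Pool.Agent.CKT

universe u v

private theorem wq1_compact {T : Type u} [TopologicalSpace T] [PartialOrder T] (h : IsTree T)
    (t : T) : IsCompact (Iic t) := by
  induction t using h.wf.induction with
  | _ t ih =>
    rw [isCompact_iff_ultrafilter_le_nhds]
    intro f hf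
    have hft : Iic t ∈ f := le_principal_iff.1 hf
    by_cases ht : (f : Filter T) ≤ 𝓝 t
    · exact ⟨t, mem_Iic.2 le_rfl, ht⟩
    · rw [Filter.not_le] at ht
      obtain ⟨s, hs, hsf⟩ := ht
      obtain ⟨U, hUs, hUo, htU⟩ := mem_nhds_iff.1 hs
      have hUf : U ∉ f := fun h' => hsf (mem_of_superset h' hUs)
      rcases (h.top U).1 hUo t htU with h1 | ⟨s, hst, h1⟩
      · exact absurd (mem_of_superset hft h1) hUf
      · have h2 : Iic s ∪ Ioc s t ∈ f := by
          refine mem_of_superset hft fun x hx => ?_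
          rcases h.chain t x s hx hst.le with h3 | h3
          · exact Or.inl h3
          · rcases eq_or_lt_of_le h3 with h4 | h4
            · exact Or.inl h4.ge
            · exact Or.inr ⟨h4, hx⟩
        rcases Ultrafilter.union_mem_iff.1 h2 with h3 | h3
        · obtain ⟨x, hx, hfx⟩ :=
            isCompact_iff_ultrafilter_le_nhds.1 (ih s hst) f (le_principal_iff.2 h3)
          exact ⟨x, le_trans hx hst.le, hfx⟩
        · exact absurd (mem_of_superset h3 h1) hUf

/-- trees -/
theorem tree_wqo (T : Type u) [PartialOrder T] [TopologicalSpace T] (hT : IsTree T) :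
    IsWqo T := by
  intro t
  refine ⟨(hT.top _).2 fun _ hu => Or.inl (Iic_subset_Iic.2 hu), wq1_compact hT t, ?_⟩
  intro f
  by_contra hc
  push Not at hc
  have h1 : ∀ m n, m < n → (f n : T) < f m := by
    intro m n hmn
    have h2 : ¬ ((f m : T) ≤ f n) := hc m n hmn
    rcases hT.chain t (f m) (f n) (f m).2 (f n).2 with h3 | h3
    · exact absurd h3 h2
    · exact lt_of_le_of_ne h3 fun h4 => h2 h4.ge
  obtain ⟨x, ⟨m, rfl⟩, hmin⟩ := hT.wf.has_min (range fun m => (f m : T)) ⟨_, 0, rfl⟩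
  exact hmin _ ⟨m + 1, rfl⟩ (h1 m (m + 1) (Nat.lt_succ_self m))

/-- closed subspaces of finite products -/
theorem R_wqo (K : Type u) [t : TopologicalSpace K] [CompactSpace K] [T2Space K] (D : Set K)
    (hD : IsClosed D) {ι : Type} [Finite ι] (T : ι → Type u) [∀ i, PartialOrder (T i)]
    [∀ i, TopologicalSpace (T i)] (hT : ∀ i, IsWqo (T i)) (L : Set (∀ i, T i))
    (hL : IsClosed L) (e : (Dᶜ : Set K) ≃ₜ L) : R K t D := by
  letI : PartialOrder (Dᶜ : Set K) := PartialOrder.lift e e.injective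
  have hle : ∀ a b : (Dᶜ : Set K), a ≤ b ↔ ∀ i, (e a : ∀ i, T i) i ≤ (e b : ∀ i, T i) i :=
    fun a b => Iff.rfl
  have hIic : ∀ t : (Dᶜ : Set K), Iic t =
      e ⁻¹' (Subtype.val ⁻¹' (univ.pi fun i => Iic ((e t : ∀ i, T i) i))) := by
    intro t
    ext y
    rw [mem_Iic, hle]
    simp only [mem_preimage, mem_univ_pi, mem_Iic]
  have ho : ∀ t : (Dᶜ : Set K), IsOpen (Iic t) := by
    intro t
    rw [hIic]
    exact ((isOpen_set_pi (Set.toFinite univ) fun i _ => (hT i _).1).preimage
      continuous_subtype_val).preimage e.continuous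
  have hc : ∀ t : (Dᶜ : Set K), IsCompact (Iic t) := by
    intro t
    rw [hIic]
    exact e.isCompact_preimage.2 (hL.isClosedEmbedding_subtypeVal.isCompact_preimage
      (isCompact_univ_pi fun i => (hT i _).2.1))
  have hp : ∀ t : (Dᶜ : Set K), (Iic t).IsPWO := by
    intro t
    haveI : ∀ i, WellQuasiOrderedLE (Iic ((e t : ∀ i, T i) i)) := fun i => ⟨(hT i _).2.2⟩
    intro f
    have h1 := (wellQuasiOrdered_le (α := ∀ i, Iic ((e t : ∀ i, T i) i)))
      (fun k i => ⟨(e (f k).1 : ∀ i, T i) i, (hle _ _).1 (f k).2 i⟩)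
    obtain ⟨m, n, hmn, h2⟩ := h1
    exact ⟨m, n, hmn, (hle _ _).2 fun i => h2 i⟩
  refine R_wf K D hD ?_ ho hc ?_
  · refine WellFounded.wellFounded_iff_has_min.2 ?_
    rintro S ⟨s, hs⟩
    have h1 : (S ∩ Iic s).IsWF := ((hp s).mono inter_subset_right).isWF
    have h2 : (S ∩ Iic s).Nonempty := ⟨s, hs, mem_Iic.2 le_rfl⟩
    refine ⟨h1.min h2, (h1.min_mem h2).1, fun x hx hlt => ?_⟩
    exact h1.not_lt_min h2 ⟨hx, hlt.le.trans (h1.min_mem h2).2⟩ hlt
  · intro x t _
    have h1 : IsAntichain (· ≤ ·) (mins x ∩ Iic t) := by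
      intro y hy z hz hyz hle'
      exact hyz (hz.1.2 y hy.1.1 hle')
    exact h1.finite_of_partiallyWellOrderedOn ((hp t).mono inter_subset_right)

end Pool.Agent.CKT
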