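import Pool.Agent.CKT.Defs2
import Pool.Agent.CKT.Defs3
import Pool.Agent.CKT.Wq1

/-!
# Compact subspaces of sigma-products of well quasi-ordered spaces (MP_0211b8_an)
-/

set_option autoImplicit false

open Set Filter Topology

namespace Pool.Agent.CKT

universe u v

/-- the set of points with support inside `A` -/
private def WQ2_C {K I : Type u} {T : I → Type u} (φ : K → ∀ i, OnePoint (T i)) (A : Finset I) :
    Set K :=
  {x | ∀ i, i ∉ A → φ x i = OnePoint.infty}

/-- the set of points with support properly inside `A` -/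
private def WQ2_B {K I : Type u} {T : I → Type u} (φ : K → ∀ i, OnePoint (T i)) (A : Finset I) :
    Set K :=
  {x | (∀ i, i ∉ A → φ x i = OnePoint.infty) ∧ ∃ i ∈ A, φ x i = OnePoint.infty}

private theorem WQ2_closed1 {K I : Type u} [TopologicalSpace K] {T : I → Type u}
    [∀ i, TopologicalSpace (T i)] {φ : K → ∀ i, OnePoint (T i)} (hφ : Continuous φ) (i : I) :
    IsClosed {x | φ x i = OnePoint.infty} := by
  have h1 : IsClosed ({OnePoint.infty} : Set (OnePoint (T i))) := OnePoint.isClosed_infty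
  exact h1.preimage ((continuous_apply i).comp hφ)

private theorem WQ2_closedC {K I : Type u} [TopologicalSpace K] {T : I → Type u}
    [∀ i, TopologicalSpace (T i)] {φ : K → ∀ i, OnePoint (T i)} (hφ : Continuous φ)
    (A : Finset I) : IsClosed (WQ2_C φ A) := by
  have h1 : WQ2_C φ A = ⋂ i, ⋂ (_ : i ∉ A), {x | φ x i = OnePoint.infty} := by
    ext x
    simp [WQ2_C]
  rw [h1]
  exact isClosed_iInter fun i => isClosed_iInter fun _ => WQ2_closed1 hφ i

private theorem WQ2_closedB {K I : Type u} [TopologicalSpace K] {T : I → Type u}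
    [∀ i, TopologicalSpace (T i)] {φ : K → ∀ i, OnePoint (T i)} (hφ : Continuous φ)
    (A : Finset I) : IsClosed (WQ2_B φ A) := by
  have h1 : WQ2_B φ A = WQ2_C φ A ∩ ⋃ i ∈ A, {x | φ x i = OnePoint.infty} := by
    ext x
    simp [WQ2_B, WQ2_C]
  rw [h1]
  exact (WQ2_closedC hφ A).inter (A.finite_toSet.isClosed_biUnion fun i _ => WQ2_closed1 hφ i)

private theorem WQ2_lc {T : Type u} [PartialOrder T] [TopologicalSpace T] [T2Space T]
    (hT : IsWqo T) : LocallyCompactSpace T := by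
  have h1 : WeaklyLocallyCompactSpace T :=
    ⟨fun x => ⟨Iic x, (hT x).2.1, (hT x).1.mem_nhds (le_refl x)⟩⟩
  infer_instance

/-- one piece -/
private theorem WQ2_piece (K : Type u) [t : TopologicalSpace K] [CompactSpace K] [T2Space K]
    (I : Type u) (T : I → Type u) [∀ i, PartialOrder (T i)] [∀ i, TopologicalSpace (T i)]
    [∀ i, T2Space (T i)] (hT : ∀ i, IsWqo (T i)) (φ : K → ∀ i, OnePoint (T i))
    (hφ : Continuous φ) (hi : Function.Injective φ) (A : Finset I) :
    R (WQ2_C φ A) inferInstance (Subtype.val ⁻¹' (WQ2_B φ A)) := by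
  classical
  have hcc : CompactSpace (WQ2_C φ A) := isCompact_iff_compactSpace.1 (WQ2_closedC hφ A).isCompact
  let σ : Fin A.card → I := fun k => (A.equivFin.symm k : I)
  have hσ1 : ∀ k, σ k ∈ A := fun k => (A.equivFin.symm k).2
  have hσ2 : ∀ i ∈ A, ∃ k, σ k = i := by
    intro i hiA
    refine ⟨A.equivFin ⟨i, hiA⟩, ?_⟩
    show ((A.equivFin.symm (A.equivFin ⟨i, hiA⟩) : A) : I) = i
    rw [Equiv.symm_apply_apply]
  have hlc : ∀ i, LocallyCompactSpace (T i) := fun i => WQ2_lc (hT i)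
  let q : WQ2_C φ A → ∀ k, OnePoint (T (σ k)) := fun x k => φ x.1 (σ k)
  have hqc : Continuous q := by
    refine continuous_pi fun k => ?_
    exact (continuous_apply (σ k)).comp (hφ.comp continuous_subtype_val)
  have hqi : Function.Injective q := by
    rintro x y hxy
    apply Subtype.ext
    apply hi
    funext i
    by_cases hiA : i ∈ A
    · obtain ⟨k, rfl⟩ := hσ2 i hiA
      exact congrFun hxy k
    · rw [x.2 i hiA, y.2 i hiA]
  have hqe : IsClosedEmbedding q := hqc.isClosedEmbedding hqi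
  let c : (∀ k, T (σ k)) → ∀ k, OnePoint (T (σ k)) := fun s k => (s k : OnePoint (T (σ k)))
  have hce : IsEmbedding c :=
    IsEmbedding.piMap (f := fun k => (OnePoint.some : T (σ k) → OnePoint (T (σ k))))
      fun k => OnePoint.isOpenEmbedding_coe.isEmbedding
  let L : Set (∀ k, T (σ k)) := c ⁻¹' range q
  have hL : IsClosed L := hqe.isClosed_range.preimage hce.continuous
  have hD : IsClosed (Subtype.val ⁻¹' (WQ2_B φ A) : Set (WQ2_C φ A)) :=
    (WQ2_closedB hφ A).preimage continuous_subtype_val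
  have e1 : IsEmbedding (fun x : ((Subtype.val ⁻¹' (WQ2_B φ A))ᶜ : Set (WQ2_C φ A)) => q x.1) :=
    hqe.isEmbedding.comp IsEmbedding.subtypeVal
  have e2 : IsEmbedding (fun x : L => c x.1) := hce.comp IsEmbedding.subtypeVal
  have hr : range (fun x : ((Subtype.val ⁻¹' (WQ2_B φ A))ᶜ : Set (WQ2_C φ A)) => q x.1) =
      range (fun x : L => c x.1) := by
    ext z
    constructor
    · rintro ⟨⟨x, hx⟩, rfl⟩
      have h1 : ∀ k, ∃ s : T (σ k), (s : OnePoint (T (σ k))) = q x k := by
        intro k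
        refine OnePoint.ne_infty_iff_exists.1 fun h => hx ⟨x.2, σ k, hσ1 k, h⟩
      choose s hs using h1
      have h2 : c s = q x := funext hs
      exact ⟨⟨s, x, h2.symm⟩, h2⟩
    · rintro ⟨⟨s, x, hx⟩, rfl⟩
      refine ⟨⟨x, ?_⟩, hx⟩
      rintro ⟨_, i, hiA, h⟩
      obtain ⟨k, rfl⟩ := hσ2 i hiA
      have h1 := congrFun hx k
      exact OnePoint.coe_ne_infty (s k) (h1.symm.trans h)
  have e : ((Subtype.val ⁻¹' (WQ2_B φ A))ᶜ : Set (WQ2_C φ A)) ≃ₜ L :=
    (e1.toHomeomorph.trans (Homeomorph.setCongr hr)).trans e2.toHomeomorph.symm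
  exact R_wqo (WQ2_C φ A) _ hD (fun k => T (σ k)) (fun k => hT (σ k)) L hL e

/-! ROW WQ2: compact subspaces of sigma-products -/
theorem R_sigmaW (K : Type u) [t : TopologicalSpace K] [CompactSpace K] [T2Space K] (I : Type u)
    (T : I → Type u) [∀ i, PartialOrder (T i)] [∀ i, TopologicalSpace (T i)]
    [∀ i, T2Space (T i)] (hT : ∀ i, IsWqo (T i)) (φ : K → ∀ i, OnePoint (T i))
    (hφ : Continuous φ) (hi : Function.Injective φ)
    (hf : ∀ x, {i | φ x i ≠ OnePoint.infty}.Finite) : R K t ∅ := by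
  classical
  let S : K → Finset I := fun x => (hf x).toFinset
  have hS : ∀ x i, i ∈ S x ↔ φ x i ≠ OnePoint.infty := fun x i => (hf x).mem_toFinset
  have hpow : ∀ a b : ℕ, a < b → (1 - (1 / 2 : ℝ) ^ a) + (1 / 2 : ℝ) ^ (a + 1) ≤
      1 - (1 / 2 : ℝ) ^ b := by
    intro a b hab
    have h1 : (1 / 2 : ℝ) ^ b ≤ (1 / 2 : ℝ) ^ (a + 1) :=
      pow_le_pow_of_le_one (by norm_num) (by norm_num) hab
    have h2 : (1 / 2 : ℝ) ^ a = 2 * (1 / 2 : ℝ) ^ (a + 1) := by
      rw [pow_succ]
      ring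
    linarith
  refine R.gen K t inferInstance inferInstance ∅ isClosed_empty (Finset I)
    (WQ2_C φ) (WQ2_B φ) S (fun A => 1 - (1 / 2 : ℝ) ^ A.card)
    (fun A => (1 / 2 : ℝ) ^ (A.card + 1)) ?_ (WQ2_piece K I T hT φ hφ hi)
  refine ⟨WQ2_closedC hφ, WQ2_closedB hφ, ?_, ?_, ?_, ?_, ?_, ?_, ?_⟩
  · intro j x _ hx
    exact hx.elim
  · intro x _
    refine ⟨fun i hiS => ?_, ?_⟩
    · by_contra h
      exact hiS ((hS x i).2 h)
    · rintro ⟨_, i, hiS, h⟩
      exact (hS x i).1 hiS h
  · intro x _ j hj hj'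
    ext i
    constructor
    · intro hij
      rw [hS]
      intro h
      exact hj' ⟨hj, i, hij, h⟩
    · intro hiS
      by_contra hij
      exact (hS x i).1 hiS (hj i hij)
  · intro A
    have h1 : (1 / 2 : ℝ) ^ A.card ≤ 1 := pow_le_one₀ (by norm_num) (by norm_num)
    have h2 : (0 : ℝ) < (1 / 2 : ℝ) ^ A.card := by positivity
    constructor <;> linarith
  · intro A
    exact ⟨by positivity, pow_le_one₀ (by norm_num) (by norm_num)⟩
  · intro y _
    refine ⟨⋂ i ∈ S y, {x | φ x i = OnePoint.infty}ᶜ, ?_, ?_⟩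
    · rw [Filter.biInter_finset_mem]
      intro i hiS
      exact (WQ2_closed1 hφ i).isOpen_compl.mem_nhds ((hS y i).1 hiS)
    · intro x hx _ hne
      refine hpow _ _ (Finset.card_lt_card ?_)
      rw [Finset.ssubset_iff_subset_ne]
      refine ⟨fun i hiS => ?_, fun h => hne h.symm⟩
      rw [mem_iInter₂] at hx
      exact (hS x i).2 (hx i hiS)
  · rintro A y ⟨h1, i, hiA, h2⟩ _
    refine hpow _ _ (Finset.card_lt_card ?_)
    rw [Finset.ssubset_iff_of_subset]
    · exact ⟨i, hiA, fun h => (hS y i).1 h h2⟩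
    · intro k hk
      by_contra hkA
      exact (hS y k).1 hk (h1 k hkA)

end Pool.Agent.CKT
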