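import Pool.Agent.CKT.Defs2
import Pool.Agent.CKT.Defs3
import Pool.Agent.CKT.Mon
import Pool.Agent.CKT.Wq2

/-!
# Compact subspaces of sigma-products of pointed spaces (MP_0211b8_an)
-/

set_option autoImplicit false

open Set Filter Topology

namespace Pool.Agent.CKT

universe u v

/-- Hausdorff images of one-point compactifications of Hausdorff well quasi-ordered spaces. -/
def SggP (S : Type u) [TopologicalSpace S] : Prop :=
  ∃ (T : Type u) (_ : PartialOrder T) (_ : TopologicalSpace T) (p : OnePoint T → S),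
    T2Space T ∧ IsWqo T ∧ Continuous p ∧ Function.Surjective p

theorem R_finG (K : Type u) [t : TopologicalSpace K] [CompactSpace K] [T2Space K] (I : Type u)
    [Finite I] (S : I → Type u) [∀ i, TopologicalSpace (S i)] [∀ i, T2Space (S i)]
    (hS : ∀ i, SggP (S i)) (φ : K → ∀ i, S i) (hφ : Continuous φ) (hi : Function.Injective φ) :
    R K t ∅ := by
  choose T o τ p h2 hw hp hs using hS
  have hlc : ∀ i, WeaklyLocallyCompactSpace (T i) := fun i =>
    ⟨fun x => ⟨Iic x, (hw i x).2.1, (hw i x).1.mem_nhds le_rfl⟩⟩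
  have hφc : IsClosedEmbedding φ := hφ.isClosedEmbedding hi
  let q : (∀ i, OnePoint (T i)) → ∀ i, S i := fun s i => p i (s i)
  have hq : Continuous q := continuous_pi fun i => (hp i).comp (continuous_apply i)
  have hqs : Function.Surjective q := by
    intro y
    choose s hs' using fun i => hs i (y i)
    exact ⟨s, funext hs'⟩
  let L : Set (∀ i, OnePoint (T i)) := q ⁻¹' (range φ)
  have hL : IsClosed L := hφc.isClosed_range.preimage hq
  have : CompactSpace L := isCompact_iff_compactSpace.1 hL.isCompact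
  have hR : R L inferInstance ∅ :=
    R_sigmaW L I T hw (fun x => x.1) continuous_subtype_val Subtype.val_injective
      fun x => Set.toFinite _
  let e : K ≃ₜ range φ := hφc.isEmbedding.toHomeomorph
  let f : L → K := fun x => e.symm ⟨q x.1, x.2⟩
  have hf : Continuous f :=
    e.symm.continuous.comp ((hq.comp continuous_subtype_val).subtype_mk fun x => x.2)
  have hfs : Function.Surjective f := by
    intro k
    obtain ⟨s, hs'⟩ := hqs (φ k)
    refine ⟨⟨s, ⟨k, hs'.symm⟩⟩, ?_⟩
    have h1 : e k = ⟨q s, ⟨k, hs'.symm⟩⟩ := Subtype.ext hs'.symm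
    change e.symm ⟨q s, ⟨k, hs'.symm⟩⟩ = k
    rw [← h1]
    exact e.symm_apply_apply k
  refine R.image L K inferInstance t inferInstance f hf hfs ∅ ?_
  rw [preimage_empty]
  exact hR

/-- the set of points with support inside `A` -/
private def SGG_C {K I : Type u} {S : I → Type u} (s : ∀ i, S i) (φ : K → ∀ i, S i)
    (A : Finset I) : Set K :=
  {x | ∀ i, i ∉ A → φ x i = s i}

/-- the set of points with support properly inside `A` -/
private def SGG_B {K I : Type u} {S : I → Type u} (s : ∀ i, S i) (φ : K → ∀ i, S i)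
    (A : Finset I) : Set K :=
  {x | (∀ i, i ∉ A → φ x i = s i) ∧ ∃ i ∈ A, φ x i = s i}

private theorem SGG_closed1 {K I : Type u} [TopologicalSpace K] {S : I → Type u}
    [∀ i, TopologicalSpace (S i)] [∀ i, T2Space (S i)] (s : ∀ i, S i) {φ : K → ∀ i, S i}
    (hφ : Continuous φ) (i : I) : IsClosed {x | φ x i = s i} := by
  have h1 : IsClosed ({s i} : Set (S i)) := isClosed_singleton
  exact h1.preimage ((continuous_apply i).comp hφ)

private theorem SGG_closedC {K I : Type u} [TopologicalSpace K] {S : I → Type u}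
    [∀ i, TopologicalSpace (S i)] [∀ i, T2Space (S i)] (s : ∀ i, S i) {φ : K → ∀ i, S i}
    (hφ : Continuous φ) (A : Finset I) : IsClosed (SGG_C s φ A) := by
  have h1 : SGG_C s φ A = ⋂ i, ⋂ (_ : i ∉ A), {x | φ x i = s i} := by
    ext x
    simp [SGG_C]
  rw [h1]
  exact isClosed_iInter fun i => isClosed_iInter fun _ => SGG_closed1 s hφ i

private theorem SGG_closedB {K I : Type u} [TopologicalSpace K] {S : I → Type u}
    [∀ i, TopologicalSpace (S i)] [∀ i, T2Space (S i)] (s : ∀ i, S i) {φ : K → ∀ i, S i}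
    (hφ : Continuous φ) (A : Finset I) : IsClosed (SGG_B s φ A) := by
  have h1 : SGG_B s φ A = SGG_C s φ A ∩ ⋃ i ∈ A, {x | φ x i = s i} := by
    ext x
    simp [SGG_B, SGG_C]
  rw [h1]
  exact (SGG_closedC s hφ A).inter
    (A.finite_toSet.isClosed_biUnion fun i _ => SGG_closed1 s hφ i)

/-- one piece -/
private theorem SGG_piece (K : Type u) [t : TopologicalSpace K] [CompactSpace K] [T2Space K]
    (I : Type u) (S : I → Type u) [∀ i, TopologicalSpace (S i)] [∀ i, T2Space (S i)]
    (hS : ∀ i, SggP (S i)) (s : ∀ i, S i) (φ : K → ∀ i, S i) (hφ : Continuous φ)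
    (hi : Function.Injective φ) (A : Finset I) :
    R (SGG_C s φ A) inferInstance (Subtype.val ⁻¹' (SGG_B s φ A)) := by
  classical
  have hcc : CompactSpace (SGG_C s φ A) :=
    isCompact_iff_compactSpace.1 (SGG_closedC s hφ A).isCompact
  have h1 : R (SGG_C s φ A) inferInstance ∅ := by
    refine R_finG (SGG_C s φ A) {i : I // i ∈ A} (fun i => S i.1) (fun i => hS i.1)
      (fun x i => φ x.1 i.1) ?_ ?_
    · refine continuous_pi fun k => ?_
      exact (continuous_apply k.1).comp (hφ.comp continuous_subtype_val)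
    · rintro x y hxy
      apply Subtype.ext
      apply hi
      funext i
      by_cases hiA : i ∈ A
      · exact congrFun hxy ⟨i, hiA⟩
      · rw [x.2 i hiA, y.2 i hiA]
  exact R_mono h1 _ ((SGG_closedB s hφ A).preimage continuous_subtype_val) (empty_subset _)

theorem R_sigmaG (K : Type u) [t : TopologicalSpace K] [CompactSpace K] [T2Space K] (I : Type u)
    (S : I → Type u) [∀ i, TopologicalSpace (S i)] [∀ i, T2Space (S i)]
    (hS : ∀ i, SggP (S i)) (s : ∀ i, S i) (φ : K → ∀ i, S i)
    (hφ : Continuous φ) (hi : Function.Injective φ)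
    (hf : ∀ x, {i | φ x i ≠ s i}.Finite) : R K t ∅ := by
  classical
  let U : K → Finset I := fun x => (hf x).toFinset
  have hU : ∀ x i, i ∈ U x ↔ φ x i ≠ s i := fun x i => (hf x).mem_toFinset
  have hpow : ∀ a b : ℕ, a < b → (1 - (1 / 2 : ℝ) ^ a) + (1 / 2 : ℝ) ^ (a + 1) ≤
      1 - (1 / 2 : ℝ) ^ b := by
    intro a b hab
    have h1 : (1 / 2 : ℝ) ^ b ≤ (1 / 2 : ℝ) ^ (a + 1) :=
      pow_le_pow_of_le_one (by norm_num) (by norm_num) hab
    have h2 : (1 / 2 : ℝ) ^ a = 2 * (1 / 2 : ℝ) ^ (a + 1) := by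
      rw [pow_succ]
      ring
    linarith
  refine R.gen K t inferInstance inferInstance ∅ isClosed_empty (Finset I)
    (SGG_C s φ) (SGG_B s φ) U (fun A => 1 - (1 / 2 : ℝ) ^ A.card)
    (fun A => (1 / 2 : ℝ) ^ (A.card + 1)) ?_ (SGG_piece K I S hS s φ hφ hi)
  refine ⟨SGG_closedC s hφ, SGG_closedB s hφ, ?_, ?_, ?_, ?_, ?_, ?_, ?_⟩
  · intro j x _ hx
    exact hx.elim
  · intro x _
    refine ⟨fun i hiS => ?_, ?_⟩
    · by_contra h
      exact hiS ((hU x i).2 h)
    · rintro ⟨_, i, hiS, h⟩
      exact (hU x i).1 hiS h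
  · intro x _ j hj hj'
    ext i
    constructor
    · intro hij
      rw [hU]
      intro h
      exact hj' ⟨hj, i, hij, h⟩
    · intro hiS
      by_contra hij
      exact (hU x i).1 hiS (hj i hij)
  · intro A
    have h1 : (1 / 2 : ℝ) ^ A.card ≤ 1 := pow_le_one₀ (by norm_num) (by norm_num)
    have h2 : (0 : ℝ) < (1 / 2 : ℝ) ^ A.card := by positivity
    constructor <;> linarith
  · intro A
    exact ⟨by positivity, pow_le_one₀ (by norm_num) (by norm_num)⟩
  · intro y _
    refine ⟨⋂ i ∈ U y, {x | φ x i = s i}ᶜ, ?_, ?_⟩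
    · rw [Filter.biInter_finset_mem]
      intro i hiS
      exact (SGG_closed1 s hφ i).isOpen_compl.mem_nhds ((hU y i).1 hiS)
    · intro x hx _ hne
      refine hpow _ _ (Finset.card_lt_card ?_)
      rw [Finset.ssubset_iff_subset_ne]
      refine ⟨fun i hiS => ?_, fun h => hne h.symm⟩
      rw [mem_iInter₂] at hx
      exact (hU x i).2 (hx i hiS)
  · rintro A y ⟨h1, i, hiA, h2⟩ _
    refine hpow _ _ (Finset.card_lt_card ?_)
    rw [Finset.ssubset_iff_of_subset]
    · exact ⟨i, hiA, fun h => (hU y i).1 h h2⟩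
    · intro k hk
      by_contra hkA
      exact (hU y k).1 hk (h1 k hkA)

end Pool.Agent.CKT
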