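import Pool.Agent.CKT.Defs

/-!
# Closed subspaces of finite products of trees
-/

set_option autoImplicit false

open Set Filter Topology

namespace Pool.Agent.CKT

universe u v

section

variable {T : Type u} [TopologicalSpace T] [PartialOrder T]

private theorem TRE_Iic (h : IsTree T) (t : T) : IsOpen (Iic t) :=
  (h.top _).2 fun _ hu => Or.inl (Iic_subset_Iic.2 hu)

private theorem TRE_Ici (h : IsTree T) (t : T) : IsClosed (Ici t) := by
  rw [← isOpen_compl_iff]
  exact (h.top _).2 fun u hu => Or.inl fun v hv hw => hu (le_trans hw hv)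

private theorem TRE_Ioc (h : IsTree T) (s t : T) : IsOpen (Ioc s t) :=
  (h.top _).2 fun _ hu => Or.inr ⟨s, hu.1, Ioc_subset_Ioc_right hu.2⟩

private theorem TRE_split (h : IsTree T) {s t : T} (hst : s ≤ t) :
    Iic t ⊆ Iic s ∪ Ioc s t := by
  intro x hx
  rcases h.chain t x s hx hst with h1 | h1
  · exact Or.inl h1
  · rcases eq_or_lt_of_le h1 with h2 | h2
    · exact Or.inl h2.ge
    · exact Or.inr ⟨h2, hx⟩

private theorem TRE_compact (h : IsTree T) (t : T) : IsCompact (Iic t) := by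
  induction t using h.wf.induction with
  | _ t ih =>
    rw [isCompact_iff_ultrafilter_le_nhds]
    intro f hf
    have hft : Iic t ∈ f := le_principal_iff.1 hf
    by_cases ht : (f : Filter T) ≤ 𝓝 t
    · exact ⟨t, mem_Iic.2 le_rfl, ht⟩
    · rw [Filter.not_le] at ht
      obtain ⟨s, hs, hsf⟩ := ht
      obtain ⟨U, hUs, hUo, htU⟩ := mem_nhds_iff.1 hs
      have hUf : U ∉ f := fun h' => hsf (mem_of_superset h' hUs)
      rcases (h.top U).1 hUo t htU with h1 | ⟨s, hst, h1⟩
      · exact absurd (mem_of_superset hft h1) hUf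
      · have h2 : Iic s ∪ Ioc s t ∈ f := mem_of_superset hft (TRE_split h hst.le)
        rcases Ultrafilter.union_mem_iff.1 h2 with h3 | h3
        · obtain ⟨x, hx, hfx⟩ :=
            isCompact_iff_ultrafilter_le_nhds.1 (ih s hst) f (le_principal_iff.2 h3)
          exact ⟨x, le_trans hx hst.le, hfx⟩
        · exact absurd (mem_of_superset h3 h1) hUf

private theorem TRE_lc (h : IsTree T) : LocallyCompactSpace T := by
  refine ⟨fun t n hn => ?_⟩
  obtain ⟨U, hUn, hUo, htU⟩ := mem_nhds_iff.1 hn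
  rcases (h.top U).1 hUo t htU with h1 | ⟨s, hst, h1⟩
  · exact ⟨Iic t, (TRE_Iic h t).mem_nhds (mem_Iic.2 le_rfl), h1.trans hUn, TRE_compact h t⟩
  · refine ⟨Ioc s t, (TRE_Ioc h s t).mem_nhds ⟨hst, le_rfl⟩, h1.trans hUn, ?_⟩
    have h2 : Ioc s t = Iic t ∩ (Iic s)ᶜ := by
      ext x
      constructor
      · rintro ⟨h3, h4⟩
        exact ⟨h4, fun h5 => absurd h3 (not_lt_of_ge h5)⟩
      · rintro ⟨h3, h4⟩
        rcases h.chain t x s h3 hst.le with h5 | h5
        · exact absurd h5 h4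
        · exact ⟨lt_of_le_of_ne h5 (fun h6 => h4 (h6 ▸ le_rfl)), h3⟩
    rw [h2]
    exact (TRE_compact h t).inter_right (TRE_Iic h s).isClosed_compl

private theorem TRE_conv (h : IsTree T) (x : ℕ → T) (hx : Monotone x) (t : T)
    (ht : ∀ k, x k ≤ t) : ∃ a, Tendsto x atTop (𝓝 a) := by
  obtain ⟨a, ha, hmin⟩ := h.wf.has_min {u | u ≤ t ∧ ∀ k, x k ≤ u} ⟨t, le_rfl, ht⟩
  refine ⟨a, ?_⟩
  rw [tendsto_atTop_nhds]
  intro U haU hU
  rcases (h.top U).1 hU a haU with h1 | ⟨s, hsa, h1⟩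
  · exact ⟨0, fun n _ => h1 (ha.2 n)⟩
  · have h2 : ∃ k, ¬ x k ≤ s := by
      by_contra hc
      push Not at hc
      exact hmin s ⟨hsa.le.trans ha.1, hc⟩ hsa
    obtain ⟨k, hk⟩ := h2
    refine ⟨k, fun n hn => h1 ⟨?_, ha.2 n⟩⟩
    have h3 : s < x k := by
      rcases h.chain a (x k) s (ha.2 k) hsa.le with h4 | h4
      · exact absurd h4 hk
      · exact lt_of_le_of_ne h4 (fun h5 => hk (h5 ▸ le_rfl))
    exact lt_of_lt_of_le h3 (hx hn)

private theorem TRE_wqo (h : IsTree T) (t : T) : WellQuasiOrderedLE (Iic t) := by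
  rw [wellQuasiOrderedLE_iff]
  refine ⟨⟨InvImage.wf Subtype.val h.wf⟩, fun s hs => ?_⟩
  apply Set.Subsingleton.finite
  intro a ha b hb
  by_contra hab
  rcases h.chain t a b a.2 b.2 with h1 | h1
  · exact hs ha hb hab h1
  · exact hs hb ha (Ne.symm hab) h1

end

/-! ROW TRE (Tree.lean): closed subspaces of finite products of trees -/
theorem tree_like {ι : Type} [Finite ι] (T : ι → Type u) [∀ i, PartialOrder (T i)]
    [∀ i, TopologicalSpace (T i)] (hT : ∀ i, IsTree (T i)) (L : Set (∀ i, T i))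
    (hL : IsClosed L) : TreeLike L := by
  have hIic : ∀ t : L, IsOpen {y : L | y ≤ t} := by
    intro t
    have h1 : {y : L | y ≤ t} = ⋂ i, {y : L | (y : ∀ i, T i) i ≤ (t : ∀ i, T i) i} := by
      ext y
      simp only [mem_setOf_eq, mem_iInter]
      exact Iff.rfl
    rw [h1]
    refine isOpen_iInter_of_finite fun i => ?_
    exact (TRE_Iic (hT i) _).preimage ((continuous_apply i).comp continuous_subtype_val)
  have hIci : ∀ t : L, IsClosed {y : L | t ≤ y} := by
    intro t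
    have h1 : {y : L | t ≤ y} = ⋂ i, {y : L | (t : ∀ i, T i) i ≤ (y : ∀ i, T i) i} := by
      ext y
      simp only [mem_setOf_eq, mem_iInter]
      exact Iff.rfl
    rw [h1]
    refine isClosed_iInter fun i => ?_
    exact (TRE_Ici (hT i) _).preimage ((continuous_apply i).comp continuous_subtype_val)
  refine ⟨?_, ?_, ?_, ?_⟩
  · haveI : ∀ i, WellFoundedLT (T i) := fun i => ⟨(hT i).wf⟩
    exact InvImage.wf (fun y : L => (y : ∀ i, T i)) (Pi.wellFoundedLT (α := T)).wf
  · intro C hC x hinj hxC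
    -- one of finitely many boxes contains infinitely many points
    obtain ⟨F, hF⟩ := hC.elim_finite_subcover (fun t : L => {y : L | y ≤ t}) hIic
      (fun y _ => mem_iUnion.2 ⟨y, le_refl y⟩)
    have h1 : ∃ t ∈ F, {k | x k ≤ t}.Infinite := by
      by_contra hc
      push Not at hc
      have h2 : (⋃ t ∈ F, {k | x k ≤ t}).Finite :=
        F.finite_toSet.biUnion fun t ht => not_infinite.1 (by simpa using hc t ht)
      refine infinite_univ (h2.subset fun k _ => ?_)
      obtain ⟨t, ht⟩ := mem_iUnion.1 (hF (hxC k))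
      obtain ⟨ht1, ht2⟩ := mem_iUnion.1 ht
      exact mem_iUnion₂.2 ⟨t, ht1, ht2⟩
    obtain ⟨t, _, ht⟩ := h1
    obtain ⟨φ, hφ, hφt⟩ := Filter.extraction_of_frequently_atTop (Nat.frequently_atTop_iff_infinite.2 ht)
    haveI : ∀ i, WellQuasiOrderedLE (Iic ((t : ∀ i, T i) i)) := fun i => TRE_wqo (hT i) _
    let y : ℕ → ∀ i, Iic ((t : ∀ i, T i) i) := fun k i => ⟨(x (φ k) : ∀ i, T i) i, hφt k i⟩
    obtain ⟨g, hg⟩ := WellQuasiOrdered.exists_monotone_subseq
      (wellQuasiOrdered_le (α := ∀ i, Iic ((t : ∀ i, T i) i))) y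
    refine ⟨φ ∘ g, hφ.comp g.strictMono, ?_, t, fun k => hφt (g k)⟩
    have hmono : Monotone (x ∘ (φ ∘ g)) := fun m n hmn i => hg m n hmn i
    exact hmono.strictMono_of_injective (hinj.comp (hφ.comp g.strictMono).injective)
  · intro x hx ⟨t, ht⟩
    have h1 : ∀ i, ∃ a, Tendsto (fun k => (x k : ∀ i, T i) i) atTop (𝓝 a) := fun i =>
      TRE_conv (hT i) _ (fun m n hmn => hx.monotone hmn i) ((t : ∀ i, T i) i) (fun k => ht k i)
    choose a ha using h1
    have h2 : Tendsto (fun k => (x k : ∀ i, T i)) atTop (𝓝 a) := tendsto_pi_nhds.2 ha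
    have h3 : a ∈ L := hL.mem_of_tendsto h2 (Eventually.of_forall fun k => (x k).2)
    exact ⟨⟨a, h3⟩, tendsto_subtype_rng.2 h2⟩
  · intro C hC hne
    obtain ⟨x0, hx0⟩ := hne
    obtain ⟨m, _, hm⟩ := zorn_le_nonempty₀ C (fun c hcC hc y hy => by
      haveI : Nonempty c := ⟨⟨y, hy⟩⟩
      have h1 : (C ∩ ⋂ z : c, {w : L | (z : L) ≤ w}).Nonempty := by
        refine hC.inter_iInter_nonempty (fun z : c => {w : L | (z : L) ≤ w})
          (fun z => hIci _) (fun s => ?_)
        have hd : Directed (· ≤ ·) (fun z : c => (z : L)) := IsChain.directed (f := id) hc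
        obtain ⟨z, hz⟩ := hd.finset_le s
        exact ⟨z, hcC z.2, mem_iInter₂.2 fun i hi => hz i hi⟩
      obtain ⟨ub, hub, h2⟩ := h1
      exact ⟨ub, hub, fun z hz => mem_iInter.1 h2 ⟨z, hz⟩⟩) x0 hx0
    exact ⟨m, hm.1, fun y hy hmy => le_antisymm (hm.2 hy hmy) hmy⟩

theorem tree_lc {ι : Type} [Finite ι] (T : ι → Type u) [∀ i, PartialOrder (T i)]
    [∀ i, TopologicalSpace (T i)] (hT : ∀ i, IsTree (T i)) (L : Set (∀ i, T i))
    (hL : IsClosed L) : LocallyCompactSpace L := by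
  haveI : ∀ i, LocallyCompactSpace (T i) := fun i => TRE_lc (hT i)
  exact hL.isClosedEmbedding_subtypeVal.locallyCompactSpace

end Pool.Agent.CKT
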