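import Pool.Agent.CKT.Defs2
import Pool.Agent.CKT.Tree
import Pool.Agent.CKT.Rtl

/-!
Row TTR: the complement of `D` is a closed subspace of a finite product of trees.
-/

set_option autoImplicit false

open Set Filter Topology

namespace Pool.Agent.CKT

universe u v

/-- the notion is invariant under homeomorphisms -/
theorem ttr_treeLike {A B : Type u} [TopologicalSpace A] [TopologicalSpace B] [PartialOrder B]
    (e : A ≃ₜ B) (h : TreeLike B) : @TreeLike A _ (PartialOrder.lift e e.injective) := by
  letI : PartialOrder A := PartialOrder.lift e e.injective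
  have hle : ∀ a b : A, a ≤ b ↔ e a ≤ e b := fun a b => Iff.rfl
  have hlt : ∀ a b : A, a < b ↔ e a < e b := fun a b => Iff.rfl
  refine ⟨InvImage.wf e h.wf, ?_, ?_, ?_⟩
  · intro C hC x hx hxC
    obtain ⟨φ, h1, h2, t, ht⟩ := h.seq (e '' C) (hC.image e.continuous) (fun k => e (x k))
      (fun a b hab => hx (e.injective hab)) (fun k => mem_image_of_mem e (hxC k))
    refine ⟨φ, h1, fun a b hab => (hlt _ _).2 (h2 hab), e.symm t, fun k => (hle _ _).2 ?_⟩
    rw [e.apply_symm_apply]
    exact ht k
  · rintro x hx ⟨t, ht⟩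
    obtain ⟨a, ha⟩ := h.conv (fun k => e (x k)) (fun a b hab => (hlt _ _).1 (hx hab))
      ⟨e t, fun k => (hle _ _).1 (ht k)⟩
    refine ⟨e.symm a, ?_⟩
    have h1 := (e.symm.continuous.tendsto a).comp ha
    have h2 : (e.symm ∘ fun k => e (x k)) = x := by
      funext k
      exact e.symm_apply_apply (x k)
    rw [h2] at h1
    exact h1
  · intro C hC hne
    obtain ⟨m, ⟨c, hc, rfl⟩, hm⟩ := h.max (e '' C) (hC.image e.continuous) (hne.image e)
    exact ⟨c, hc, fun y hy hcy =>
      e.injective (hm (e y) (mem_image_of_mem e hy) ((hle _ _).1 hcy))⟩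

theorem R_trees (K : Type u) [t : TopologicalSpace K] [CompactSpace K] [T2Space K] (D : Set K)
    (hD : IsClosed D) {ι : Type} [Finite ι] (T : ι → Type u) [∀ i, PartialOrder (T i)]
    [∀ i, TopologicalSpace (T i)] (hT : ∀ i, IsTree (T i)) (L : Set (∀ i, T i))
    (hL : IsClosed L) (e : (Dᶜ : Set K) ≃ₜ L) : R K t D := by
  letI : PartialOrder (Dᶜ : Set K) := PartialOrder.lift e e.injective
  exact R_treeLike K D hD (ttr_treeLike e (tree_like T hT L hL))

end Pool.Agent.CKT
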