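import Pool.Agent.CKT.Defs6

/-!
# CKT stage 9, row SKC: the skeleton of a cone
-/

set_option autoImplicit false

open Set Filter Topology

namespace Pool.Agent.CKT

universe u v

theorem skel_cone (K : Type u) [TopologicalSpace K] (S : Type u) [Preorder S] (r : S → K → K)
    (h : Skel K S r) (hcount : ∀ s, (range (r s)).Countable) (s₀ : S) (c : K) :
    ∃ r' : {t : S // s₀ ≤ t} → ({x | r s₀ x = c} : Set K) → ({x | r s₀ x = c} : Set K),
      Skel ({x | r s₀ x = c} : Set K) {t : S // s₀ ≤ t} r' ∧ ∀ s, (range (r' s)).Countable := by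
  have hmem : ∀ (t : {t : S // s₀ ≤ t}) (x : ({x | r s₀ x = c} : Set K)),
      r t.1 x.1 ∈ ({x | r s₀ x = c} : Set K) := by
    rintro ⟨t, ht⟩ ⟨x, hx⟩
    have h1 : r s₀ (r t x) = r s₀ x := h.low s₀ t ht x
    exact h1.trans hx
  refine ⟨fun t x => ⟨r t.1 x.1, hmem t x⟩, ?_, ?_⟩
  · constructor
    · exact ⟨⟨s₀, le_rfl⟩⟩
    · rintro ⟨s, hs⟩ ⟨t, ht⟩
      obtain ⟨w, h1, h2⟩ := h.dir s t
      exact ⟨⟨w, hs.trans h1⟩, h1, h2⟩
    · rintro ⟨s, hs⟩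
      exact ((h.cont s).comp continuous_subtype_val).subtype_mk _
    · rintro ⟨s, hs⟩ ⟨t, ht⟩ hst ⟨x, hx⟩
      exact Subtype.ext (h.low s t hst x)
    · rintro ⟨s, hs⟩ ⟨t, ht⟩ hst ⟨x, hx⟩
      exact Subtype.ext (h.up s t hst x)
    · intro s hs
      obtain ⟨t, h1, h2⟩ := h.seq (fun n => (s n).1) (fun a b hab => hs hab)
      refine ⟨⟨t, (s 0).2.trans (h1 0)⟩, fun n => h1 n, ?_⟩
      rintro ⟨x, hx⟩
      exact tendsto_subtype_rng.2 (h2 x)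
    · rintro ⟨x, hx⟩ U hU
      rw [mem_nhds_subtype] at hU
      obtain ⟨V, hV, hVU⟩ := hU
      obtain ⟨s, hs⟩ := h.lim x V hV
      obtain ⟨w, h1, h2⟩ := h.dir s₀ s
      refine ⟨⟨w, h1⟩, ?_⟩
      rintro ⟨t, ht⟩ hwt
      exact hVU (hs t (h2.trans hwt))
  · rintro ⟨s, hs⟩
    refine ((hcount s).preimage Subtype.val_injective).mono ?_
    rintro _ ⟨x, rfl⟩
    exact ⟨x.1, rfl⟩

end Pool.Agent.CKT
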