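import Pool.Agent.CKT.Defs6
import Pool.Agent.CKT.Sem
import Pool.Agent.CKT.Tal

/-!
# Soundness of the rule with functionals
-/

set_option autoImplicit false

open Set Filter Topology

namespace Pool.Agent.CKT

universe u v

section main

variable {K : Type u} [TopologicalSpace K] [CompactSpace K] {D : Set K} {ι : Type v}
  {Y : ι → Set K} [hcY : ∀ j, CompactSpace (Y j)] {T : ι → (C(K, ℝ) →L[ℝ] ℝ)} {P : ι → ℕ}

/-- the properties of the bumps of the pieces -/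
private structure GoodF (p q d : ℝ) (a : ∀ (_ : ℕ) (j : ι), C(Y j, ℝ) → ℝ) : Prop where
  hp : 0 < p
  hd : 0 < d
  hpq : p < q - 2 * d
  anice : ∀ (k : ℕ) j (f : C(Y j, ℝ)), Nice (a k j) f
  arng : ∀ k j f, 0 ≤ a k j f ∧ a k j f ≤ 1
  aone : ∀ (k : ℕ) j (f : C(Y j, ℝ)), ‖f‖ ≤ q - 2 * d / ((k : ℝ) + 1) → a k j f = 1
  azero : ∀ (k : ℕ) j (f : C(Y j, ℝ)), q - d / ((k : ℝ) + 1) ≤ ‖f‖ → a k j f = 0

/-- the factor of index `(k, j)` -/
private noncomputable def facF (P : ι → ℕ) (T : ι → (C(K, ℝ) →L[ℝ] ℝ))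
    (a : ∀ (_ : ℕ) (j : ι), C(Y j, ℝ) → ℝ) (i : ℕ × ι) (g : C(K, ℝ)) : ℝ :=
  1 - (1 - a i.1 i.2 (g.restrict (Y i.2))) * chiT P i (T i.2 g)

variable {p q d : ℝ} {a : ∀ (_ : ℕ) (j : ι), C(Y j, ℝ) → ℝ}

omit [CompactSpace K] in
private theorem winF (hB : GoodF p q d a) (k : ℕ) : p < q - 2 * d / ((k : ℝ) + 1) ∧
    q - 2 * d / ((k : ℝ) + 1) < q - d / ((k : ℝ) + 1) ∧ q - d / ((k : ℝ) + 1) < q := by
  have hd := hB.hd
  have h1 := hB.hpq
  have hk : (0 : ℝ) < (k : ℝ) + 1 := by positivity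
  have h2 : 0 < d / ((k : ℝ) + 1) := by positivity
  have h3 : d / ((k : ℝ) + 1) ≤ d := by
    rw [div_le_iff₀ hk]
    have : (0 : ℝ) ≤ (k : ℝ) := Nat.cast_nonneg k
    nlinarith
  have e2 : 2 * d / ((k : ℝ) + 1) = 2 * (d / ((k : ℝ) + 1)) := by ring
  rw [e2]
  refine ⟨?_, ?_, ?_⟩ <;> linarith

private theorem facF_rng (hB : GoodF p q d a) (i : ℕ × ι) (g : C(K, ℝ)) :
    0 ≤ facF P T a i g ∧ facF P T a i g ≤ 1 := by
  obtain ⟨h1, h2⟩ := hB.arng i.1 i.2 (g.restrict (Y i.2))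
  obtain ⟨h3, h4⟩ := chiT_rng P i (T i.2 g)
  unfold facF
  constructor
  · nlinarith
  · nlinarith [mul_nonneg (sub_nonneg.2 h2) h3]

private theorem facF_nice (hB : GoodF p q d a)
    (hloc : ∀ j, ∃ E : Set K, E.Finite ∧ ∀ f : C(K, ℝ), (∀ x ∈ E, f x = 0) → T j f = 0)
    (i : ℕ × ι) (f : C(K, ℝ)) : Nice (facF P T a i) f := by
  have hb : Nice (fun g : C(K, ℝ) => chiT P i (T i.2 g)) f := by
    refine ⟨((chiT_contDiff P i).comp (T i.2).contDiff).contDiffAt, ?_⟩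
    obtain ⟨E, hE, hEf⟩ := hloc i.2
    refine ⟨univ, univ_mem, E, hE, ?_⟩
    intro g _ g' _ hz
    have h1 : T i.2 (g - g') = 0 := hEf _ fun x hx => by
      rw [ContinuousMap.sub_apply, hz x hx, sub_self]
    rw [map_sub, sub_eq_zero] at h1
    show chiT P i (T i.2 g) = chiT P i (T i.2 g')
    rw [h1]
  have ha : Nice (fun g : C(K, ℝ) => a i.1 i.2 (g.restrict (Y i.2))) f :=
    Nice.restrict (hB.anice i.1 i.2 _)
  exact (ha.one_sub.mul hb).one_sub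

private theorem facF_ne_one (hB : GoodF p q d a) (i : ℕ × ι) (g : C(K, ℝ))
    (h : facF P T a i g ≠ 1) :
    q - 2 * d / ((i.1 : ℝ) + 1) < ‖g.restrict (Y i.2)‖ ∧ P i.2 ≤ i.1 ∧
      1 / (2 * ((i.1 : ℝ) + 1)) < |T i.2 g| := by
  refine ⟨?_, ?_, ?_⟩
  · by_contra hcon
    apply h
    unfold facF
    rw [hB.aone i.1 i.2 _ (not_lt.1 hcon)]
    ring
  · by_contra hcon
    apply h
    unfold facF
    have : chiT P i (T i.2 g) = 0 := by
      unfold chiT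
      exact if_neg hcon
    rw [this]
    ring
  · by_contra hcon
    apply h
    unfold facF
    rw [chiT_zero P i _ (not_lt.1 hcon)]
    ring

/-- local finiteness inside the open ball of radius `q` -/
private theorem locfinF (hbd : ∀ j (f : C(K, ℝ)), |T j f| ≤ P j * ‖f‖)
    (hfin : ∀ (f : C(K, ℝ)) (m : ℕ) (ε : ℝ), 0 < ε → {j | P j = m ∧ ε ≤ |T j f|}.Finite)
    (hB : GoodF p q d a) (f : C(K, ℝ)) (hf : ‖f‖ < q) :
    ∃ S : Finset (ℕ × ι), ∀ᶠ g in 𝓝 f, ∀ i, i ∉ S → facF P T a i g = 1 := by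
  classical
  have hd := hB.hd
  set c : ℝ := (q - ‖f‖) / 2 with hc
  have hc0 : 0 < c := by rw [hc]; linarith
  obtain ⟨J, hJ⟩ := exists_nat_gt (2 * d / c)
  have hJ0 : (0 : ℝ) ≤ J := Nat.cast_nonneg _
  have hJ1 : (0 : ℝ) < (J : ℝ) + 1 := by linarith
  set ε : ℝ := 1 / (4 * ((J : ℝ) + 1)) with hε
  have hε0 : 0 < ε := by positivity
  set η : ℝ := min (c / 2) (ε / ((J : ℝ) + 1)) with hη
  have hη0 : 0 < η := lt_min (by linarith) (by positivity)
  have hη1 : η ≤ c / 2 := min_le_left _ _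
  have hη2 : η ≤ ε / ((J : ℝ) + 1) := min_le_right _ _
  have hfin2 : (⋃ k ∈ Finset.range (J + 1), ⋃ m ∈ Finset.range (J + 1),
      (fun j => ((k, j) : ℕ × ι)) '' {j | P j = m ∧ ε ≤ |T j f|}).Finite := by
    apply Set.Finite.biUnion (Finset.finite_toSet _)
    intro k _
    apply Set.Finite.biUnion (Finset.finite_toSet _)
    intro m _
    exact (hfin f m ε hε0).image _
  refine ⟨hfin2.toFinset, ?_⟩
  filter_upwards [Metric.ball_mem_nhds f hη0] with g hg i hi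
  by_contra hne
  apply hi
  obtain ⟨h1, h2, h3⟩ := facF_ne_one hB i g hne
  have hgf : ‖g - f‖ < η := by
    rw [← dist_eq_norm]; exact hg
  have hk0 : (0 : ℝ) < (i.1 : ℝ) + 1 := by positivity
  have hiJ : i.1 ≤ J := by
    have e1 : ‖g.restrict (Y i.2)‖ ≤ ‖g‖ := restr_le_norm g
    have e2 : ‖g‖ ≤ ‖f‖ + ‖g - f‖ := by
      calc ‖g‖ = ‖f + (g - f)‖ := by congr 1; abel
        _ ≤ _ := norm_add_le _ _
    have e3 : c < 2 * d / ((i.1 : ℝ) + 1) := by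
      have : ‖f‖ = q - 2 * c := by rw [hc]; ring
      linarith
    rw [lt_div_iff₀ hk0] at e3
    rw [div_lt_iff₀ hc0] at hJ
    have e4 : c * ((i.1 : ℝ) + 1) < c * J := by linarith
    have e5 : (i.1 : ℝ) + 1 < J := lt_of_mul_lt_mul_left e4 hc0.le
    have e6 : (i.1 : ℝ) < J := by linarith
    exact (Nat.cast_lt.1 e6).le
  rw [Set.Finite.mem_toFinset]
  simp only [mem_iUnion]
  refine ⟨i.1, by simpa [Nat.lt_succ_iff] using hiJ, P i.2,
    by simpa [Nat.lt_succ_iff] using h2.trans hiJ, i.2, ⟨rfl, ?_⟩, rfl⟩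
  have hPJ : (P i.2 : ℝ) ≤ J := by exact_mod_cast h2.trans hiJ
  have hP0 : (0 : ℝ) ≤ P i.2 := Nat.cast_nonneg _
  have e1 : |T i.2 g - T i.2 f| ≤ ε := by
    rw [← map_sub]
    refine (hbd i.2 _).trans ?_
    have e2 : (P i.2 : ℝ) * ‖g - f‖ ≤ ((J : ℝ) + 1) * (ε / ((J : ℝ) + 1)) :=
      mul_le_mul (by linarith) (hgf.le.trans hη2) (norm_nonneg _) hJ1.le
    rw [mul_div_cancel₀ _ hJ1.ne'] at e2
    exact e2
  have e2 : |T i.2 g| ≤ |T i.2 f| + |T i.2 g - T i.2 f| := by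
    calc |T i.2 g| = |T i.2 f + (T i.2 g - T i.2 f)| := by congr 1; ring
      _ ≤ _ := abs_add_le _ _
  have e4 : 1 / (2 * ((J : ℝ) + 1)) ≤ 1 / (2 * ((i.1 : ℝ) + 1)) := by
    apply one_div_le_one_div_of_le (by positivity)
    have : (i.1 : ℝ) ≤ J := by exact_mod_cast hiJ
    linarith
  have e5 : 1 / (2 * ((J : ℝ) + 1)) = 2 * ε := by
    rw [hε]
    field_simp
    norm_num
  show ε ≤ |T i.2 f|
  linarith

/-- a factor vanishes near a point of the sphere -/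
private theorem sphereF
    (htop : ∀ (f : C(K, ℝ)) (q : ℝ), 0 < q → (∀ x ∈ D, |f x| < q) → (∃ x, q ≤ |f x|) →
      ∃ j, (∃ x ∈ Y j, q ≤ |f x|) ∧ T j f ≠ 0)
    (hB : GoodF p q d a) (f : C(K, ℝ)) (hfD : ∀ y ∈ D, |f y| < p) (hf : ‖f‖ = q) :
    ∃ i : ℕ × ι, ∀ᶠ g in 𝓝 f, facF P T a i g = 0 := by
  have hd := hB.hd
  have hp := hB.hp
  have hpq := hB.hpq
  have hq : 0 < q := by linarith
  have hM : ∃ x, q ≤ |f x| := by
    by_contra hcon
    push Not at hcon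
    have : ‖f‖ < q := by
      rw [ContinuousMap.norm_lt_iff f hq]
      intro x
      rw [Real.norm_eq_abs]
      exact hcon x
    linarith
  obtain ⟨j, ⟨x, hxY, hx1⟩, hne⟩ := htop f q hq
    (fun x hx => by have := hfD x hx; linarith) hM
  have hδ : 0 < |T j f| := abs_pos.2 hne
  obtain ⟨k0, hk0⟩ := exists_nat_gt (1 / |T j f|)
  set k : ℕ := max k0 (P j) with hk
  have hkP : P j ≤ k := le_max_right _ _
  have hkk : (k0 : ℝ) ≤ k := by exact_mod_cast le_max_left _ _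
  have hk1 : (0 : ℝ) < (k : ℝ) + 1 := by positivity
  have hk2 : 1 / ((k : ℝ) + 1) < |T j f| := by
    rw [div_lt_iff₀ hδ] at hk0
    rw [div_lt_iff₀ hk1]
    nlinarith
  refine ⟨(k, j), ?_⟩
  have hdk : 0 < d / ((k : ℝ) + 1) := by positivity
  have hY : q - d / ((k : ℝ) + 1) < ‖f.restrict (Y j)‖ := by
    have := abs_le_restr (S := Y j) f hxY
    linarith
  have hcont : Continuous fun g : C(K, ℝ) => |T j g| := (T j).continuous.abs
  have hev : ∀ᶠ g : C(K, ℝ) in 𝓝 f, 1 / ((k : ℝ) + 1) < |T j g| :=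
    continuousAt_const.eventually_lt hcont.continuousAt hk2
  filter_upwards [lt_restr hY, hev] with g h2 h3
  show 1 - (1 - a k j (g.restrict (Y j))) * chiT P (k, j) (T j g) = 0
  rw [chiT_one P (k, j) _ hkP h3.le, hB.azero k j _ h2.le]
  ring

/-- the product -/
private noncomputable def prdF (q : ℝ) (P : ι → ℕ) (T : ι → (C(K, ℝ) →L[ℝ] ℝ))
    (a : ∀ (_ : ℕ) (j : ι), C(Y j, ℝ) → ℝ) (g : C(K, ℝ)) : ℝ := by
  classical
  exact if ‖g‖ < q then ∏ᶠ i : ℕ × ι, facF P T a i g else 0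

omit hcY in
private theorem prdF_of_lt (g : C(K, ℝ)) (h : ‖g‖ < q) :
    prdF q P T a g = ∏ᶠ i : ℕ × ι, facF P T a i g := by
  unfold prdF
  exact if_pos h

omit hcY in
private theorem prdF_of_ge (g : C(K, ℝ)) (h : q ≤ ‖g‖) : prdF q P T a g = 0 := by
  unfold prdF
  exact if_neg (not_lt.2 h)

private theorem prdF_nice
    (hloc : ∀ j, ∃ E : Set K, E.Finite ∧ ∀ f : C(K, ℝ), (∀ x ∈ E, f x = 0) → T j f = 0)
    (hbd : ∀ j (f : C(K, ℝ)), |T j f| ≤ P j * ‖f‖)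
    (hfin : ∀ (f : C(K, ℝ)) (m : ℕ) (ε : ℝ), 0 < ε → {j | P j = m ∧ ε ≤ |T j f|}.Finite)
    (htop : ∀ (f : C(K, ℝ)) (q : ℝ), 0 < q → (∀ x ∈ D, |f x| < q) → (∃ x, q ≤ |f x|) →
      ∃ j, (∃ x ∈ Y j, q ≤ |f x|) ∧ T j f ≠ 0)
    (hB : GoodF p q d a) (f : C(K, ℝ)) (hfD : ∀ y ∈ D, |f y| < p) :
    Nice (prdF q P T a) f := by
  rcases lt_trichotomy ‖f‖ q with hf | hf | hf
  · obtain ⟨S, hS'⟩ := locfinF hbd hfin hB f hf
    have h1 : ∀ᶠ g : C(K, ℝ) in 𝓝 f, ‖g‖ < q :=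
      continuous_norm.continuousAt.eventually_lt continuousAt_const hf
    apply (nice_prod S (facF P T a) f fun i _ => facF_nice hB hloc i f).congr
    filter_upwards [hS', h1] with g hg hg1
    rw [prdF_of_lt g hg1]
    apply finprod_eq_prod_of_mulSupport_subset
    intro i hi
    by_contra hcon
    exact hi (hg i hcon)
  · obtain ⟨i, hi⟩ := sphereF htop hB f hfD hf
    apply (nice_const 0 f).congr
    filter_upwards [hi] with g hg
    by_cases hg1 : ‖g‖ < q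
    · rw [prdF_of_lt g hg1]
      obtain ⟨S, hS'⟩ := locfinF hbd hfin hB g hg1
      apply finprod_eq_zero _ i hg
      apply S.finite_toSet.subset
      intro i hi
      by_contra hcon
      exact hi (hS'.self_of_nhds i hcon)
    · exact prdF_of_ge g (not_lt.1 hg1)
  · apply (nice_const 0 f).congr
    have h1 : ∀ᶠ g : C(K, ℝ) in 𝓝 f, q < ‖g‖ :=
      continuousAt_const.eventually_lt continuous_norm.continuousAt hf
    filter_upwards [h1] with g hg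
    exact prdF_of_ge g hg.le

private theorem prdF_rng (hB : GoodF p q d a) (g : C(K, ℝ)) :
    0 ≤ prdF q P T a g ∧ prdF q P T a g ≤ 1 := by
  by_cases hg : ‖g‖ < q
  · rw [prdF_of_lt g hg]
    by_cases hs : (Function.mulSupport fun i : ℕ × ι => facF P T a i g).Finite
    · rw [finprod_eq_prod _ hs]
      exact ⟨Finset.prod_nonneg fun i _ => (facF_rng hB i g).1,
        Finset.prod_le_one (fun i _ => (facF_rng hB i g).1) fun i _ => (facF_rng hB i g).2⟩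
    · rw [finprod_of_infinite_mulSupport hs]
      exact ⟨zero_le_one, le_rfl⟩
  · rw [prdF_of_ge g (not_lt.1 hg)]
    exact ⟨le_rfl, zero_le_one⟩

private theorem prdF_one (hB : GoodF p q d a) (g : C(K, ℝ)) (hg : ‖g‖ ≤ p) :
    prdF q P T a g = 1 := by
  have hd := hB.hd
  have hpq := hB.hpq
  rw [prdF_of_lt g (by linarith)]
  apply finprod_eq_one_of_forall_eq_one
  intro i
  obtain ⟨w1, w2, w3⟩ := winF hB i.1
  unfold facF
  rw [hB.aone i.1 i.2 _ (by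
    have := restr_le_norm (S := Y i.2) g
    linarith)]
  ring

end main

/-! ROW SKT (Skt.lean): adapt Tal.lean (perm_tal) -/
theorem perm_talF (K : Type u) [TopologicalSpace K] [CompactSpace K] (D : Set K)
    (hD : IsClosed D) (ι : Type v) (Y : ι → Set K) (T : ι → (C(K, ℝ) →L[ℝ] ℝ)) (P : ι → ℕ)
    (hYc : ∀ j, IsClosed (Y j))
    (hloc : ∀ j, ∃ E : Set K, E.Finite ∧ ∀ f : C(K, ℝ), (∀ x ∈ E, f x = 0) → T j f = 0)
    (hbd : ∀ j (f : C(K, ℝ)), |T j f| ≤ P j * ‖f‖)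
    (hfin : ∀ (f : C(K, ℝ)) (m : ℕ) (ε : ℝ), 0 < ε → {j | P j = m ∧ ε ≤ |T j f|}.Finite)
    (htop : ∀ (f : C(K, ℝ)) (q : ℝ), 0 < q → (∀ x ∈ D, |f x| < q) → (∃ x, q ≤ |f x|) →
      ∃ j, (∃ x ∈ Y j, q ≤ |f x|) ∧ T j f ≠ 0)
    (hY : ∀ j, IsGood (Y j)) : RelBumps K D := by
  haveI hcY : ∀ j, CompactSpace (Y j) := fun j =>
    isCompact_iff_compactSpace.1 (hYc j).isCompact
  have hY' : ∀ j, HasBumps (Y j) := fun j => by
    obtain ⟨_, _, h⟩ := hY j
    exact h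
  intro p q hp hpq
  set d : ℝ := (q - p) / 3 with hd
  have hd0 : 0 < d := by rw [hd]; linarith
  have hpq' : p < q - 2 * d := by rw [hd]; linarith
  have hw : ∀ k : ℕ, p < q - 2 * d / ((k : ℝ) + 1) ∧
      q - 2 * d / ((k : ℝ) + 1) < q - d / ((k : ℝ) + 1) := by
    intro k
    have hk : (0 : ℝ) < (k : ℝ) + 1 := by positivity
    have h2 : 0 < d / ((k : ℝ) + 1) := by positivity
    have h3 : d / ((k : ℝ) + 1) ≤ d := by
      rw [div_le_iff₀ hk]
      have : (0 : ℝ) ≤ (k : ℝ) := Nat.cast_nonneg k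
      nlinarith
    have e2 : 2 * d / ((k : ℝ) + 1) = 2 * (d / ((k : ℝ) + 1)) := by ring
    rw [e2]
    refine ⟨?_, ?_⟩ <;> linarith
  have hYb := fun (k : ℕ) (j : ι) => hY' j (q - 2 * d / ((k : ℝ) + 1)) (q - d / ((k : ℝ) + 1))
    (hp.trans (hw k).1) (hw k).2
  choose a ha1 ha2 ha3 ha4 ha5 using hYb
  have hG : GoodF p q d a :=
    { hp := hp
      hd := hd0
      hpq := hpq'
      anice := fun k j f => ⟨(ha1 k j).contDiffAt, ha2 k j f⟩
      arng := fun k j f => ha3 k j f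
      aone := fun k j f hf => ha4 k j f hf
      azero := fun k j f hf => ha5 k j f hf }
  exact ⟨prdF q P T a, fun f hf => prdF_nice hloc hbd hfin htop hG f hf, fun f => prdF_rng hG f,
    fun f hf => prdF_one hG f hf, fun f _ hf => prdF_of_ge f hf⟩

end Pool.Agent.CKT
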