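import Pool.Agent.CKT.Defs6
import Pool.Agent.CKT.Qga
import Pool.Agent.CKT.Sk9
import Pool.Agent.CKT.Skt

/-!
# Row SKG: spaces with a retractional skeleton whose cones are good
-/

set_option autoImplicit false

open Set Filter Topology

namespace Pool.Agent.CKT

universe u v

/-- A compact space with a skeleton of countable images is good if all cones which avoid a point
are good. -/
theorem good_skel (K : Type u) [TopologicalSpace K] [CompactSpace K] [T2Space K]
    (S : Type u) [Preorder S] (r : S → K → K) (h : Skel K S r)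
    (hcount : ∀ s, (range (r s)).Countable) (e : K)
    (hcone : ∀ s c, c ≠ r s e → IsGood ({x | r s x = c} : Set K)) : IsGood K := by
  obtain ⟨s₀⟩ := h.ne
  have hdir : DirectedOn (· ≤ ·) (univ : Set S) := by
    intro a _ b _
    obtain ⟨w, h1, h2⟩ := h.dir a b
    exact ⟨w, mem_univ w, h1, h2⟩
  have hR : IsLimR r univ (id : K → K) := by
    refine ⟨continuous_id, fun x U hU => ?_⟩
    obtain ⟨s, hs⟩ := h.lim x U hU
    exact ⟨s, mem_univ s, fun t _ hst => hs t hst⟩
  obtain ⟨ι, T, s, c, P, hL⟩ :=
    lsys_exists K S r h hcount e univ hdir ⟨s₀, mem_univ s₀⟩ id hR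
  have hrel : RelBumps K ({e} : Set K) := by
    refine perm_talF K {e} isClosed_singleton ι (fun j => {x | r (s j) x = c j}) T P
      (fun j => isClosed_eq (h.cont (s j)) continuous_const) hL.loc ?_ hL.fin ?_
      (fun j => hcone (s j) (c j) (hL.ne j))
    · intro j f
      refine hL.bd j f ‖f‖ fun x => ?_
      have := f.norm_coe_le_norm (id x)
      rwa [Real.norm_eq_abs] at this
    · intro f q _ hfD hfx
      obtain ⟨x, hx⟩ := hfx
      have h1 : |f e| < q := hfD e rfl
      have h2 : f (id x) ≠ f (id e) := by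
        intro h3
        have h4 : |f x| = |f e| := congrArg abs h3
        rw [h4] at hx
        exact absurd h1 (not_lt.2 hx)
      obtain ⟨j, hj1, hj2⟩ := hL.sep f x h2
      exact ⟨j, ⟨x, hj2, hx⟩, hj1⟩
  obtain ⟨_, _, hB⟩ := good_subsingleton ({e} : Set K)
  exact ⟨inferInstance, inferInstance, hasBumps_of_rel K {e} isClosed_singleton hrel hB⟩

end Pool.Agent.CKT
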