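import Pool.Agent.CKT.Defs6

/-!
# Scattered metrizable compact spaces are countable (MP_0211b8_an)
-/

set_option autoImplicit false

open Set Filter Topology

namespace Pool.Agent.CKT

universe u v

/-! ROW SKM (Skm.lean): scattered metrizable compact spaces are countable -/
theorem scattered_countable (K : Type u) [TopologicalSpace K] [CompactSpace K]
    [TopologicalSpace.MetrizableSpace K]
    (hK : ∀ s : Set K, s.Nonempty → ∃ x ∈ s, ∃ U : Set K, IsOpen U ∧ U ∩ s = {x}) :
    Countable K := by
  classical
  let _ := TopologicalSpace.metrizableSpaceMetric K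
  have h2 : SecondCountableTopology K := inferInstance
  obtain ⟨C, hCd⟩ : ∃ C : Set K,
      C = ⋃₀ {V | V ∈ TopologicalSpace.countableBasis K ∧ V.Countable} := ⟨_, rfl⟩
  have hC : C.Countable := by
    rw [hCd]
    refine Set.Countable.sUnion ?_ (fun V hV => hV.2)
    exact (TopologicalSpace.countable_countableBasis K).mono (fun V hV => hV.1)
  by_contra hne
  have hF : (Cᶜ).Nonempty := by
    by_contra h
    rw [Set.not_nonempty_iff_eq_empty, Set.compl_empty_iff] at h
    apply hne
    rw [h] at hC
    exact Set.countable_univ_iff.1 hC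
  obtain ⟨x, hx, U, hU, hUx⟩ := hK _ hF
  have hxU : x ∈ U := by
    have h3 : x ∈ U ∩ Cᶜ := by rw [hUx]; exact mem_singleton x
    exact h3.1
  have hUc : U.Countable := by
    refine (hC.union (Set.countable_singleton x)).mono ?_
    intro y hy
    by_cases h : y ∈ C
    · exact Or.inl h
    · right
      have h3 : y ∈ U ∩ Cᶜ := ⟨hy, h⟩
      rwa [hUx] at h3
  obtain ⟨V, hV, hxV, hVU⟩ :=
    (TopologicalSpace.isBasis_countableBasis K).exists_subset_of_mem_open hxU hU
  apply hx
  rw [hCd]
  exact ⟨V, ⟨hV, hUc.mono hVU⟩, hxV⟩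

end Pool.Agent.CKT
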