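import Pool.Agent.CKT.Defs6
import Pool.Agent.CKT.Qga
import Pool.Agent.CKT.Qfi
import Pool.Agent.CKT.Rk1
import Pool.Agent.CKT.Sn6
import Pool.Agent.CKT.Skc

/-!
# Scattered compact spaces with a retractional skeleton (MP_0211b8_an)
-/

set_option autoImplicit false

open Set Filter Topology

namespace Pool.Agent.CKT

universe u v

theorem skel_main_qg (ρ : Ordinal.{u}) : ∀ (n : ℕ) (K : Type u) [TopologicalSpace K]
    [CompactSpace K] [T2Space K] (S : Type u) [Preorder S] (r : S → K → K), Skel K S r →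
    (∀ s, (range (r s)).Countable) → ∀ rk : K → Ordinal.{u},
    (∀ x, ∃ V ∈ 𝓝 x, ∀ y ∈ V, y ≠ x → rk y < rk x) → (∀ x, rk x ≤ ρ) →
    {x | rk x = ρ}.Finite → {x | rk x = ρ}.ncard ≤ n → Qg K := by
  induction ρ using WellFoundedLT.induction with
  | ind ρ ihρ =>
  intro n
  induction n with
  | zero =>
    intro K _ _ _ S _ r h hcount rk hrk hρ hfin hn
    rcases isEmpty_or_nonempty K with hK | hK
    · exact qg_finite K
    obtain ⟨x₀, hmax, hfin'⟩ := rk_max K rk hrk
    have h1 : {x | rk x = ρ} = ∅ := by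
      rwa [Nat.le_zero, Set.ncard_eq_zero hfin] at hn
    have h2 : rk x₀ < ρ := lt_of_le_of_ne (hρ x₀) fun h3 => by
      have h4 : x₀ ∈ ({x | rk x = ρ} : Set K) := h3
      rw [h1] at h4
      exact h4
    exact ihρ (rk x₀) h2 _ K S r h hcount rk hrk hmax hfin' le_rfl
  | succ n ihn =>
    intro K _ _ _ S _ r h hcount rk hrk hρ hfin hn
    by_cases hE : {x | rk x = ρ}.Nonempty
    swap
    · refine ihn K S r h hcount rk hrk hρ hfin ?_
      rw [Set.not_nonempty_iff_eq_empty.1 hE]
      simp
    obtain ⟨e, he⟩ := hE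
    refine qg_skel K S r h hcount e fun s c hc => ?_
    obtain ⟨r', h', hcount'⟩ := skel_cone K S r h hcount s c
    have hcl : IsClosed ({x | r s x = c} : Set K) := isClosed_singleton.preimage (h.cont s)
    have hcc : CompactSpace ({x | r s x = c} : Set K) :=
      isCompact_iff_compactSpace.1 hcl.isCompact
    have hinj : Function.Injective (Subtype.val : ({x | r s x = c} : Set K) → K) :=
      Subtype.val_injective
    have hsub : Subtype.val '' {z : ({x | r s x = c} : Set K) | rk z.1 = ρ} ⊆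
        {x | rk x = ρ} \ {e} := by
      rintro _ ⟨⟨z, hz⟩, hz', rfl⟩
      refine ⟨hz', fun h3 => hc ?_⟩
      have h4 : z = e := h3
      rw [← h4]
      exact hz.symm
    refine ihn _ {t : S // s ≤ t} r' h' hcount' (fun z => rk z.1) ?_ (fun z => hρ z.1) ?_ ?_
    · rintro ⟨x, hx⟩
      obtain ⟨V, hV, hV'⟩ := hrk x
      refine ⟨Subtype.val ⁻¹' V, continuous_subtype_val.continuousAt hV, ?_⟩
      rintro ⟨y, hy⟩ hyV hne
      exact hV' y hyV fun h => hne (Subtype.ext h)
    · exact Set.Finite.of_finite_image ((hfin.subset sdiff_subset).subset hsub) hinj.injOn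
    · have h5 : ({x | rk x = ρ} \ {e}).ncard < {x | rk x = ρ}.ncard :=
        Set.ncard_sdiff_singleton_lt_of_mem he hfin
      have h6 := Set.ncard_le_ncard hsub (hfin.subset sdiff_subset)
      rw [Set.ncard_image_of_injective _ hinj] at h6
      omega

end Pool.Agent.CKT
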