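import Pool.Agent.CKT.Defs2
import Pool.Agent.CKT.Cpt
import Pool.Agent.CKT.Hom

/-!
# CKT, row TR2: transitivity of the class `R`
-/

set_option autoImplicit false

open Set Filter Topology

namespace Pool.Agent.CKT

universe u v

/-! ROW TR2 (Tra.lean): `gen` with two indices (`ULift Bool`): `C true = univ`, `B true = E`,
`C false = E`, `B false = D`, heights 1 and 0, `e = 1`. -/
theorem R_trans (K : Type u) [t : TopologicalSpace K] (D E : Set K) (hD : IsClosed D)
    (hDE : D ⊆ E) (h1 : R K t E) (h2 : R E inferInstance (Subtype.val ⁻¹' D)) : R K t D := by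
  classical
  have hE : IsClosed E := h1.closed
  let C : ULift.{u} Bool → Set K := fun j => cond j.down univ E
  let B : ULift.{u} Bool → Set K := fun j => cond j.down E D
  let i : K → ULift.{u} Bool := fun x => ⟨!(decide (x ∈ E))⟩
  let hh : ULift.{u} Bool → ℝ := fun j => cond j.down 1 0
  have i1 : ∀ x, x ∈ E → i x = ⟨false⟩ := by
    intro x hx
    show (⟨!(decide (x ∈ E))⟩ : ULift.{u} Bool) = _
    rw [decide_eq_true hx]
    rfl
  have i2 : ∀ x, x ∉ E → i x = ⟨true⟩ := by
    intro x hx
    show (⟨!(decide (x ∈ E))⟩ : ULift.{u} Bool) = _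
    rw [decide_eq_false hx]
    rfl
  refine R.gen K t h1.compact h1.t2 D hD (ULift.{u} Bool) C B i hh (fun _ => 1) ?_ ?_
  · refine
      { closedC := ?_
        closedB := ?_
        meet := ?_
        mem := ?_
        uniq := ?_
        hrange := ?_
        erange := ?_
        gap := ?_
        low := ?_ }
    · rintro ⟨b⟩
      cases b
      · exact hE
      · exact isClosed_univ
    · rintro ⟨b⟩
      cases b
      · exact hD
      · exact hE
    · rintro ⟨b⟩ x hx hxD
      cases b
      · exact hxD
      · exact hDE hxD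
    · intro x hx
      by_cases hxE : x ∈ E
      · rw [i1 x hxE]
        exact ⟨hxE, hx⟩
      · rw [i2 x hxE]
        exact ⟨mem_univ x, hxE⟩
    · rintro x hx ⟨b⟩ hxC hxB
      cases b
      · exact (i1 x hxC).symm
      · exact (i2 x hxB).symm
    · rintro ⟨b⟩
      cases b
      · exact ⟨le_refl (0 : ℝ), zero_le_one⟩
      · exact ⟨zero_le_one, le_refl (1 : ℝ)⟩
    · intro j
      exact ⟨one_pos, le_refl _⟩
    · intro y hy
      by_cases hyE : y ∈ E
      · refine ⟨univ, univ_mem, fun x _ hx hne => ?_⟩
        rw [i1 y hyE] at hne ⊢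
        by_cases hxE : x ∈ E
        · exact absurd (i1 x hxE) hne
        · rw [i2 x hxE]
          show (0 : ℝ) + 1 ≤ 1
          norm_num
      · refine ⟨Eᶜ, hE.isOpen_compl.mem_nhds hyE, fun x hxE hx hne => ?_⟩
        exact absurd ((i2 x hxE).trans (i2 y hyE).symm) hne
    · rintro ⟨b⟩ y hy hyD
      cases b
      · exact absurd hy hyD
      · rw [i1 y hy]
        show (0 : ℝ) + 1 ≤ 1
        norm_num
  · rintro ⟨b⟩
    cases b
    · exact h2
    · exact R_homeo (Homeomorph.Set.univ K).symm (Subtype.val ⁻¹' E) h1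

end Pool.Agent.CKT
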