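import Pool.Agent.CKT.Cpt
import Pool.Agent.CKT.Exc
import Pool.Agent.CKT.Tra
import Pool.Agent.CKT.Hom

/-!
# Disjoint sums of pairs
-/

set_option autoImplicit false

open Set Filter Topology

namespace Pool.Agent.CKT

universe u v

/-! ROW SU2 (Sum2.lean; uses EXC, TR2, HOM) -/
theorem R_sum {K K' : Type u} {t : TopologicalSpace K} {t' : TopologicalSpace K'} {D : Set K}
    {D' : Set K'} (h : R K t D) (h' : R K' t' D') :
    R (K ⊕ K') inferInstance (Sum.inl '' D ∪ Sum.inr '' D') := by
  have c1 : CompactSpace K := h.compact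
  have c2 : CompactSpace K' := h'.compact
  have s1 : T2Space K := h.t2
  have s2 : T2Space K' := h'.t2
  have d1 : IsClosed D := h.closed
  have d2 : IsClosed D' := h'.closed
  have cl1 : IsClosed (Sum.inl '' D : Set (K ⊕ K')) := IsClosedEmbedding.inl.isClosedMap _ d1
  have cl2 : IsClosed (Sum.inr '' D' : Set (K ⊕ K')) := IsClosedEmbedding.inr.isClosedMap _ d2
  have cr : IsClosed (range (Sum.inr : K' → K ⊕ K')) := IsClosedEmbedding.inr.isClosed_range
  have cle : IsClosed (range (Sum.inl : K → K ⊕ K')) := IsClosedEmbedding.inl.isClosed_range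
  have hEc : IsClosed (Sum.inl '' D ∪ range Sum.inr : Set (K ⊕ K')) := cl1.union cr
  have hDc : IsClosed (Sum.inl '' D ∪ Sum.inr '' D' : Set (K ⊕ K')) := cl1.union cl2
  have hDE : (Sum.inl '' D ∪ Sum.inr '' D' : Set (K ⊕ K')) ⊆ Sum.inl '' D ∪ range Sum.inr :=
    Set.union_subset_union_right _ (Set.image_subset_range _ _)
  refine R_trans (K ⊕ K') _ (Sum.inl '' D ∪ range Sum.inr) hDc hDE ?_ ?_
  · -- the first summand
    refine R_exc (K ⊕ K') _ (range Sum.inl) hEc cle ?_ ?_
    · ext z
      rcases z with x | y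
      · simp
      · simp
    · refine R_emb Sum.inl continuous_inl _ ?_
      have e1 : (Sum.inl ⁻¹' (Sum.inl '' D ∪ range Sum.inr : Set (K ⊕ K')) : Set K) = D := by
        ext x
        simp
      rw [e1]
      exact h
  · -- the second summand
    have cE : CompactSpace (Sum.inl '' D ∪ range Sum.inr : Set (K ⊕ K')) :=
      isCompact_iff_compactSpace.1 hEc.isCompact
    let p : K' → (Sum.inl '' D ∪ range Sum.inr : Set (K ⊕ K')) :=
      fun y => ⟨Sum.inr y, Or.inr ⟨y, rfl⟩⟩
    have hp : Continuous p := Continuous.subtype_mk continuous_inr _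
    refine R_exc (Sum.inl '' D ∪ range Sum.inr : Set (K ⊕ K')) _ (range p)
      (hDc.preimage continuous_subtype_val) (isCompact_range hp).isClosed ?_ ?_
    · ext z
      obtain ⟨z, hz⟩ := z
      simp only [Set.mem_union, Set.mem_preimage, Set.mem_univ, iff_true]
      rcases hz with hz | ⟨y, rfl⟩
      · exact Or.inr (Or.inl hz)
      · exact Or.inl ⟨y, rfl⟩
    · refine R_emb p hp _ ?_
      have e1 : (p ⁻¹' (Subtype.val ⁻¹' (Sum.inl '' D ∪ Sum.inr '' D')) : Set K') = D' := by
        ext y
        simp [p]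
      rw [e1]
      exact h'

end Pool.Agent.CKT
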